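import Pool.Agent.Work.MP_6da7fa_al.EG.StmtsS

/-!
# Theorem EG: item AB

Coefficients of the product of the two alternants.
-/

set_option autoImplicit false

namespace Pool.Agent.Work.MP_6da7fa_al.EG

open Equiv MvPolynomial

private lemma AB_ex_inj {k : ℕ} (a b a' b' : Fin k → ℕ) :
    ex a b = ex a' b' ↔ a = a' ∧ b = b' := by
  unfold ex
  rw [Equiv.apply_eq_iff_eq, Sum.elim_eq_iff]

private lemma AB_monomial {k : ℕ} (a b : Fin k → ℕ) :
    (∏ i, (X (Sum.inl i) : MvPolynomial (ZZ k) ℤ) ^ a i) * (∏ i, X (Sum.inr i) ^ b i) =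
      monomial (ex a b) (1 : ℤ) := by
  rw [monomial_eq, Finsupp.prod_fintype _ _ (fun i => pow_zero _), Fintype.prod_sum_type]
  simp [ex]

private lemma AB_perm {k : ℕ} (a a' : Fin k → ℕ) (ha : StrictAnti a) (ha' : StrictAnti a')
    (σ : Perm (Fin k)) : (fun i => a' (σ i)) = a ↔ a = a' ∧ σ = 1 := by
  constructor
  · intro h
    have hσ : StrictMono σ := by
      intro i j hij
      have h1 := ha hij
      rw [← h] at h1
      exact ha'.lt_iff_gt.mp h1
    have h1 : (σ : Fin k → Fin k) = id := by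
      refine (StrictMono.range_inj hσ strictMono_id).mp ?_
      rw [σ.surjective.range_eq, Set.range_id]
    have h2 : σ = 1 := by
      ext i
      simp [h1]
    refine ⟨?_, h2⟩
    subst h2
    exact h.symm
  · rintro ⟨rfl, rfl⟩
    rfl

private lemma AB_sum {k : ℕ} (a a' : Fin k → ℕ) (ha : StrictAnti a) (ha' : StrictAnti a') :
    (∑ σ : Perm (Fin k), (Perm.sign σ : ℤ) * (if (fun i => a' (σ i)) = a then 1 else 0)) =
      if a = a' then 1 else 0 := by
  simp only [AB_perm a a' ha ha']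
  by_cases h : a = a'
  · simp [h]
  · simp [h]

theorem prAB : StAB := by
  intro k a b a' b' ha hb ha' hb'
  have h1 : AA a' * BB b' = ∑ σ : Perm (Fin k), ∑ τ : Perm (Fin k),
      ((Perm.sign σ : ℤ) * (Perm.sign τ : ℤ)) •
        monomial (ex (fun i => a' (σ i)) (fun i => b' (τ i))) (1 : ℤ) := by
    unfold AA BB
    rw [Matrix.det_apply', Matrix.det_apply', Finset.sum_mul_sum]
    refine Finset.sum_congr rfl fun σ _ => Finset.sum_congr rfl fun τ _ => ?_
    rw [← AB_monomial]
    simp only [Matrix.of_apply, zsmul_eq_mul]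
    push_cast
    ring
  rw [h1]
  have h2 : coeff (ex a b) (∑ σ : Perm (Fin k), ∑ τ : Perm (Fin k),
      ((Perm.sign σ : ℤ) * (Perm.sign τ : ℤ)) •
        monomial (ex (fun i => a' (σ i)) (fun i => b' (τ i))) (1 : ℤ)) =
      (∑ σ : Perm (Fin k), (Perm.sign σ : ℤ) * (if (fun i => a' (σ i)) = a then 1 else 0)) *
      (∑ τ : Perm (Fin k), (Perm.sign τ : ℤ) * (if (fun i => b' (τ i)) = b then 1 else 0)) := by
    rw [Finset.sum_mul_sum, coeff_sum]
    refine Finset.sum_congr rfl fun σ _ => ?_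
    rw [coeff_sum]
    refine Finset.sum_congr rfl fun τ _ => ?_
    rw [coeff_smul, coeff_monomial]
    simp only [AB_ex_inj, smul_eq_mul]
    by_cases h3 : (fun i => a' (σ i)) = a <;> by_cases h4 : (fun i => b' (τ i)) = b <;>
      simp [h3, h4]
  rw [h2, AB_sum a a' ha ha', AB_sum b b' hb hb']
  by_cases h3 : a = a' <;> by_cases h4 : b = b' <;> simp [h3, h4]

end Pool.Agent.Work.MP_6da7fa_al.EG
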