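import Pool.Agent.Work.MP_6da7fa_al.EG.StmtsS

/-!
# Item An: nonzero coefficients at strictly decreasing exponents
-/

set_option autoImplicit false

namespace Pool.Agent.Work.MP_6da7fa_al.EG

open Equiv MvPolynomial

/-- the product of the permutation `w` -/
noncomputable def An_P (k : ℕ) (w : Perm (Fin k)) : MvPolynomial (ZZ k) ℤ :=
  ∏ x ∈ Finset.univ.filter (fun x : Fin k × Fin k => x.2 ≠ w x.1),
    (X (Sum.inl x.1) + X (Sum.inr x.2))

theorem An_prod (k : ℕ) (v u w : Perm (Fin k)) :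
    rename (Sum.map v u) (An_P k w) = An_P k (u * w * v⁻¹) := by
  unfold An_P
  rw [map_prod]
  refine Finset.prod_bij' (fun x _ => (v x.1, u x.2)) (fun y _ => (v⁻¹ y.1, u⁻¹ y.2))
    ?_ ?_ ?_ ?_ ?_
  · intro x hx
    rw [Finset.mem_filter] at hx ⊢
    refine ⟨Finset.mem_univ _, ?_⟩
    intro h
    apply hx.2
    have h' : u x.2 = u (w (v⁻¹ (v x.1))) := h
    have h2 : v⁻¹ (v x.1) = x.1 := v.symm_apply_apply x.1
    rw [h2] at h'
    exact u.injective h'
  · intro y hy
    rw [Finset.mem_filter] at hy ⊢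
    refine ⟨Finset.mem_univ _, ?_⟩
    intro h
    apply hy.2
    have h' : u⁻¹ y.2 = w (v⁻¹ y.1) := h
    show y.2 = u (w (v⁻¹ y.1))
    rw [← h']
    exact (u.apply_symm_apply y.2).symm
  · intro x _
    simp
  · intro y _
    simp
  · intro x _
    rw [map_add, rename_X, rename_X]
    rfl

theorem An_DD (k : ℕ) (v u : Perm (Fin k)) :
    rename (Sum.map v u) (DD k) = ((Perm.sign v : ℤ) * (Perm.sign u : ℤ)) • DD k := by
  have hDD : DD k = ∑ w : Perm (Fin k), (Perm.sign w : ℤ) • An_P k w := rfl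
  rw [hDD, map_sum, Finset.smul_sum]
  refine Finset.sum_bij' (fun w _ => u * w * v⁻¹) (fun w _ => u⁻¹ * w * v)
    (fun _ _ => Finset.mem_univ _) (fun _ _ => Finset.mem_univ _) ?_ ?_ ?_
  · intro w _
    show u⁻¹ * (u * w * v⁻¹) * v = w
    group
  · intro w _
    show u * (u⁻¹ * w * v) * v⁻¹ = w
    group
  · intro w _
    rw [map_zsmul, An_prod, smul_smul]
    congr 1
    have h1 : (Perm.sign v : ℤ) * (Perm.sign v : ℤ) = 1 := Int.units_coe_mul_self _
    have h2 : (Perm.sign u : ℤ) * (Perm.sign u : ℤ) = 1 := Int.units_coe_mul_self _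
    rw [Perm.sign_mul, Perm.sign_mul, Perm.sign_inv]
    push_cast
    calc (Perm.sign w : ℤ) = ((Perm.sign v : ℤ) * (Perm.sign v : ℤ)) *
          ((Perm.sign u : ℤ) * (Perm.sign u : ℤ)) * (Perm.sign w : ℤ) := by
          rw [h1, h2, one_mul, one_mul]
      _ = _ := by ring

theorem An_G (k : ℕ) (G : MvPolynomial (ZZ k) ℤ) (hX : SymX G) (hY : SymY G)
    (v u : Perm (Fin k)) : rename (Sum.map v u) G = G := by
  have h1 : (Sum.map v u : ZZ k → ZZ k) = Sum.map id u ∘ Sum.map v id := by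
    rw [Sum.map_comp_map]
    rfl
  rw [h1, ← rename_rename, hX v, hY u]

theorem An_inj (k : ℕ) (v u : Perm (Fin k)) :
    Function.Injective (Sum.map v u : ZZ k → ZZ k) :=
  Sum.map_injective.mpr ⟨v.injective, u.injective⟩

theorem An_coeff (k : ℕ) (G : MvPolynomial (ZZ k) ℤ) (hX : SymX G) (hY : SymY G)
    (v u : Perm (Fin k)) (t : ZZ k →₀ ℕ) :
    ((Perm.sign v : ℤ) * (Perm.sign u : ℤ)) * coeff (t.mapDomain (Sum.map v u)) (DD k * G) =
      coeff t (DD k * G) := by
  rw [← coeff_rename_mapDomain (Sum.map v u) (An_inj k v u) (DD k * G) t, map_mul,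
    An_DD, An_G k G hX hY, smul_mul_assoc, coeff_smul, smul_eq_mul]

theorem An_sort (k : ℕ) (α : Fin k → ℕ) (hα : Function.Injective α) :
    ∃ v : Perm (Fin k), StrictAnti (α ∘ v) := by
  refine ⟨Fin.revPerm.trans (Tuple.sort α), ?_⟩
  have h1 : Antitone (α ∘ (Fin.revPerm.trans (Tuple.sort α) : Perm (Fin k))) := by
    intro i j hij
    exact Tuple.monotone_sort α (Fin.rev_le_rev.mpr hij)
  exact h1.strictAnti_of_injective (hα.comp (Equiv.injective _))

theorem prAn : StAn := by
  intro hDn k G hX hY hG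
  have hP : DD k * G ≠ 0 := mul_ne_zero (hDn k).2 hG
  obtain ⟨t, ht⟩ := MvPolynomial.ne_zero_iff.mp hP
  have hα : Function.Injective fun q => t (Sum.inl q) := by
    intro q r hqr
    by_contra hne
    have h1 := An_coeff k G hX hY (swap q r) 1 t
    have h2 : t.mapDomain (Sum.map (swap q r) (1 : Perm (Fin k))) = t := by
      ext z
      obtain ⟨z', rfl⟩ : ∃ z', Sum.map (swap q r) (1 : Perm (Fin k)) z' = z := by
        refine ⟨Sum.map (swap q r) (1 : Perm (Fin k)) z, ?_⟩
        rcases z with s | s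
        · simp
        · simp
      rw [Finsupp.mapDomain_apply (An_inj k _ _)]
      rcases z' with s | s
      · show t (Sum.inl s) = t (Sum.inl (swap q r s))
        have hqr' : t (Sum.inl q) = t (Sum.inl r) := hqr
        by_cases hs : s = q
        · rw [hs, swap_apply_left, hqr']
        · by_cases hs' : s = r
          · rw [hs', swap_apply_right, hqr']
          · rw [swap_apply_of_ne_of_ne hs hs']
      · rfl
    rw [h2, Perm.sign_swap hne, Perm.sign_one] at h1
    push_cast at h1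
    apply ht
    linarith
  have hβ : Function.Injective fun q => t (Sum.inr q) := by
    intro q r hqr
    by_contra hne
    have h1 := An_coeff k G hX hY 1 (swap q r) t
    have h2 : t.mapDomain (Sum.map (1 : Perm (Fin k)) (swap q r)) = t := by
      ext z
      obtain ⟨z', rfl⟩ : ∃ z', Sum.map (1 : Perm (Fin k)) (swap q r) z' = z := by
        refine ⟨Sum.map (1 : Perm (Fin k)) (swap q r) z, ?_⟩
        rcases z with s | s
        · simp
        · simp
      rw [Finsupp.mapDomain_apply (An_inj k _ _)]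
      rcases z' with s | s
      · rfl
      · show t (Sum.inr s) = t (Sum.inr (swap q r s))
        have hqr' : t (Sum.inr q) = t (Sum.inr r) := hqr
        by_cases hs : s = q
        · rw [hs, swap_apply_left, hqr']
        · by_cases hs' : s = r
          · rw [hs', swap_apply_right, hqr']
          · rw [swap_apply_of_ne_of_ne hs hs']
    rw [h2, Perm.sign_swap hne, Perm.sign_one] at h1
    push_cast at h1
    apply ht
    linarith
  obtain ⟨v, hv⟩ := An_sort k _ hα
  obtain ⟨u, hu⟩ := An_sort k _ hβ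
  refine ⟨_, _, hv, hu, ?_⟩
  intro h0
  apply ht
  have h1 := An_coeff k G hX hY v⁻¹ u⁻¹ t
  have h2 : t.mapDomain (Sum.map (⇑(v⁻¹ : Perm (Fin k))) (⇑(u⁻¹ : Perm (Fin k)))) =
      ex ((fun q => t (Sum.inl q)) ∘ v) ((fun q => t (Sum.inr q)) ∘ u) := by
    ext z
    rcases z with s | s
    · have h3 : (Sum.inl s : ZZ k) = Sum.map (⇑(v⁻¹ : Perm (Fin k))) (⇑(u⁻¹ : Perm (Fin k))) (Sum.inl (v s)) := by simp
      conv_lhs => rw [h3]
      rw [Finsupp.mapDomain_apply (An_inj k _ _)]
      rfl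
    · have h3 : (Sum.inr s : ZZ k) = Sum.map (⇑(v⁻¹ : Perm (Fin k))) (⇑(u⁻¹ : Perm (Fin k))) (Sum.inr (u s)) := by simp
      conv_lhs => rw [h3]
      rw [Finsupp.mapDomain_apply (An_inj k _ _)]
      rfl
  rw [h2, h0, mul_zero] at h1
  exact h1.symm

end Pool.Agent.Work.MP_6da7fa_al.EG
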