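import Pool.Agent.Work.MP_6da7fa_al.EG.StmtsV

set_option autoImplicit false

/-!
# Theorem EG: item Ba, the dimension formula with strictly decreasing coordinates
-/

namespace Pool.Agent.Work.MP_6da7fa_al.EG

open Equiv

theorem Ba_SI_map {α Z V W : Type} [Fintype α] [LinearOrder α] [AddCommGroup V] [Module ℂ V]
    [AddCommGroup W] [Module ℂ W] (p : Z → Bool) (ρ : Representation ℂ (Perm α) V)
    (σ : Representation ℂ (Perm α) W) (f : V →ₗ[ℂ] W) (hf : ∀ s v, f (ρ s v) = σ s (f v))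
    (c : α → Z) (v : V) (hv : v ∈ SI p ρ c) : f v ∈ SI p σ c := by
  intro s hs
  rw [← hf, hv s hs, map_smul]

theorem Ba_exists {α V W : Type} [Fintype α] [LinearOrder α] [AddCommGroup V] [Module ℂ V]
    [AddCommGroup W] [Module ℂ W] (k : ℕ) (ρ : Representation ℂ (Perm α) V)
    (σ : Representation ℂ (Perm α) W) (hb : Bdd k ρ) (h : NzI ρ σ) :
    ∃ c : α → ZZ k, SI (par k) σ c ≠ ⊥ := by
  obtain ⟨f, hf0, hf⟩ := h
  by_contra hcon
  push Not at hcon
  apply hf0
  have h1 : (⨆ c : α → ZZ k, SI (par k) ρ c) ≤ LinearMap.ker f := by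
    refine iSup_le fun c => ?_
    intro v hv
    have h2 := Ba_SI_map (par k) ρ σ f hf c v hv
    rw [hcon c] at h2
    exact h2
  ext v
  exact h1 (hb v)

theorem Ba_lt {i n : ℕ} (a b : Fin i → ℕ) (h : sz a b = n) (q : Fin i) : a q < n ∧ b q < n := by
  unfold sz at h
  have h1 : a q + b q + 1 ≤ ∑ q, (a q + b q + 1) :=
    Finset.single_le_sum (f := fun q => a q + b q + 1) (fun _ _ => Nat.zero_le _)
      (Finset.mem_univ q)
  omega

/-- the coordinates of an irreducible representation occur once in the sum -/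
theorem Ba_one (hCl : ConCl) (α : Type) [Fintype α] [LinearOrder α] (I : IrrSys α) (j : I.ι)
    (k : ℕ) (i0 : ℕ) (a0 b0 : Fin i0 → ℕ) (hi0 : i0 ≤ k) (ha0 : StrictAnti a0)
    (hb0 : StrictAnti b0) (hs0 : sz a0 b0 = Fintype.card α) (hm0 : mm (I.ρ j) a0 b0 = 1) :
    (∑ i ∈ Finset.range (k + 1),
      ∑ a : Fin i → Fin (Fintype.card α), ∑ b : Fin i → Fin (Fintype.card α),
      if StrictAnti a ∧ StrictAnti b ∧ sz (fun q => (a q : ℕ)) (fun q => (b q : ℕ)) = Fintype.card α then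
        (mm (I.ρ j) (fun q => (a q : ℕ)) (fun q => (b q : ℕ)) : ℚ) else 0) = 1 := by
  obtain ⟨A0, hA0⟩ : ∃ A0 : Fin i0 → Fin (Fintype.card α), (fun q => (A0 q : ℕ)) = a0 :=
    ⟨fun q => ⟨a0 q, (Ba_lt a0 b0 hs0 q).1⟩, rfl⟩
  obtain ⟨B0, hB0⟩ : ∃ B0 : Fin i0 → Fin (Fintype.card α), (fun q => (B0 q : ℕ)) = b0 :=
    ⟨fun q => ⟨b0 q, (Ba_lt a0 b0 hs0 q).2⟩, rfl⟩
  have huniq : ∀ (i : ℕ) (a b : Fin i → Fin (Fintype.card α)), StrictAnti a → StrictAnti b →
      sz (fun q => (a q : ℕ)) (fun q => (b q : ℕ)) = Fintype.card α →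
      mm (I.ρ j) (fun q => (a q : ℕ)) (fun q => (b q : ℕ)) ≠ 0 →
      (⟨i, fun q => (a q : ℕ), fun q => (b q : ℕ)⟩ : Σ i : ℕ, (Fin i → ℕ) × (Fin i → ℕ)) =
        ⟨i0, a0, b0⟩ := by
    intro i a b ha hb hs hne
    have ha' : StrictAnti (fun q => (a q : ℕ)) := fun x y hxy => ha hxy
    have hb' : StrictAnti (fun q => (b q : ℕ)) := fun x y hxy => hb hxy
    obtain ⟨j1, hj1, -⟩ := hCl.1 α I i _ _ ha' hb' hs
    have h1 := hj1 j
    have h2 : mm (I.ρ j) (fun q => (a q : ℕ)) (fun q => (b q : ℕ)) = 1 := by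
      split_ifs at h1 with h3
      · exact h1
      · exact absurd h1 hne
    exact hCl.2 α I i i0 _ _ a0 b0 j ha' hb' ha0 hb0 hs hs0 h2 hm0
  rw [Finset.sum_eq_single i0, Finset.sum_eq_single A0, Finset.sum_eq_single B0]
  · have hA : StrictAnti A0 := by
      intro x y hxy
      have h1 := ha0 hxy
      rw [← hA0] at h1
      exact h1
    have hB : StrictAnti B0 := by
      intro x y hxy
      have h1 := hb0 hxy
      rw [← hB0] at h1
      exact h1
    rw [if_pos ⟨hA, hB, by rw [hA0, hB0]; exact hs0⟩, hA0, hB0, hm0]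
    norm_num
  · intro b _ hb
    split_ifs with h
    · have h1 : mm (I.ρ j) (fun q => (A0 q : ℕ)) (fun q => (b q : ℕ)) = 0 := by
        by_contra hne
        have h2 := huniq i0 A0 b h.1 h.2.1 h.2.2 hne
        simp only [Sigma.mk.injEq, heq_eq_eq, true_and, Prod.mk.injEq] at h2
        apply hb
        funext q
        apply Fin.ext
        have h3 := congrFun (h2.2.trans hB0.symm) q
        exact h3
      rw [h1, Int.cast_zero]
    · rfl
  · intro h; exact absurd (Finset.mem_univ _) h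
  · intro a _ ha
    apply Finset.sum_eq_zero
    intro b _
    split_ifs with h
    · have h1 : mm (I.ρ j) (fun q => (a q : ℕ)) (fun q => (b q : ℕ)) = 0 := by
        by_contra hne
        have h2 := huniq i0 a b h.1 h.2.1 h.2.2 hne
        simp only [Sigma.mk.injEq, heq_eq_eq, true_and, Prod.mk.injEq] at h2
        apply ha
        funext q
        apply Fin.ext
        have h3 := congrFun (h2.1.trans hA0.symm) q
        exact h3
      rw [h1, Int.cast_zero]
    · rfl
  · intro h; exact absurd (Finset.mem_univ _) h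
  · intro i _ hi
    apply Finset.sum_eq_zero
    intro a _
    apply Finset.sum_eq_zero
    intro b _
    split_ifs with h
    · have h1 : mm (I.ρ j) (fun q => (a q : ℕ)) (fun q => (b q : ℕ)) = 0 := by
        by_contra hne
        have h2 := huniq i a b h.1 h.2.1 h.2.2 hne
        exact hi (congrArg Sigma.fst h2)
      rw [h1, Int.cast_zero]
    · rfl
  · intro h
    exact absurd (Finset.mem_range.2 (by omega)) h

theorem prBa : StBa := by
  intro hIr hDe hCl hCm hMl α V _ _ _ _ _ ρ k hb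
  obtain ⟨I⟩ := hIr α
  obtain ⟨m, hm1, hm2⟩ := hDe α V I ρ
  obtain ⟨hmm, hfin⟩ := hMl α V I ρ m hm1
  have hterm : ∀ (i : ℕ) (a b : Fin i → Fin (Fintype.card α)), StrictAnti a → StrictAnti b →
      sz (fun q => (a q : ℕ)) (fun q => (b q : ℕ)) = Fintype.card α →
      fd (fun q => (a q : ℕ)) (fun q => (b q : ℕ)) *
          (mm ρ (fun q => (a q : ℕ)) (fun q => (b q : ℕ)) : ℚ) =
        ∑ j, ((m j : ℚ) * (I.d j : ℚ)) *
          (mm (I.ρ j) (fun q => (a q : ℕ)) (fun q => (b q : ℕ)) : ℚ) := by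
    intro i a b ha hb' hs
    have ha' : StrictAnti (fun q => (a q : ℕ)) := fun x y hxy => ha hxy
    have hb' : StrictAnti (fun q => (b q : ℕ)) := fun x y hxy => hb' hxy
    obtain ⟨j1, hj1, hd⟩ := hCl.1 α I i _ _ ha' hb' hs
    rw [hmm, ← hd, Int.cast_sum, Finset.mul_sum]
    apply Finset.sum_congr rfl
    intro j _
    rw [Int.cast_mul, Int.cast_natCast, hj1 j]
    split_ifs with h
    · rw [h]; ring
    · simp
  have hone : ∀ j, m j ≠ 0 → (∑ i ∈ Finset.range (k + 1),
      ∑ a : Fin i → Fin (Fintype.card α), ∑ b : Fin i → Fin (Fintype.card α),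
      if StrictAnti a ∧ StrictAnti b ∧ sz (fun q => (a q : ℕ)) (fun q => (b q : ℕ)) = Fintype.card α then
        (mm (I.ρ j) (fun q => (a q : ℕ)) (fun q => (b q : ℕ)) : ℚ) else 0) = 1 := by
    intro j hj
    obtain ⟨c, hc⟩ := Ba_exists k ρ (I.ρ j) hb ((hm2 j).2.1 hj)
    obtain ⟨i0, a0, b0, hi0, ha0, hb0, hs0, hm0⟩ := hCm α I j k c hc
    exact Ba_one hCl α I j k i0 a0 b0 hi0 ha0 hb0 hs0 hm0
  have hR : (∑ i ∈ Finset.range (k + 1),
      ∑ a : Fin i → Fin (Fintype.card α), ∑ b : Fin i → Fin (Fintype.card α),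
      if StrictAnti a ∧ StrictAnti b ∧ sz (fun q => (a q : ℕ)) (fun q => (b q : ℕ)) = Fintype.card α then
        fd (fun q => (a q : ℕ)) (fun q => (b q : ℕ)) *
          (mm ρ (fun q => (a q : ℕ)) (fun q => (b q : ℕ)) : ℚ) else 0) =
      ∑ j, ((m j : ℚ) * (I.d j : ℚ)) * (∑ i ∈ Finset.range (k + 1),
      ∑ a : Fin i → Fin (Fintype.card α), ∑ b : Fin i → Fin (Fintype.card α),
      if StrictAnti a ∧ StrictAnti b ∧ sz (fun q => (a q : ℕ)) (fun q => (b q : ℕ)) = Fintype.card α then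
        (mm (I.ρ j) (fun q => (a q : ℕ)) (fun q => (b q : ℕ)) : ℚ) else 0) := by
    simp only [Finset.mul_sum]
    symm
    refine Finset.sum_comm.trans ?_
    apply Finset.sum_congr rfl
    intro i _
    refine Finset.sum_comm.trans ?_
    apply Finset.sum_congr rfl
    intro a _
    refine Finset.sum_comm.trans ?_
    apply Finset.sum_congr rfl
    intro b _
    split_ifs with h
    · exact (hterm i a b h.1 h.2.1 h.2.2).symm
    · simp
  rw [hR, hfin, Nat.cast_sum]
  apply Finset.sum_congr rfl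
  intro j _
  by_cases hj : m j = 0
  · rw [hj]; simp
  · rw [hone j hj, mul_one, Nat.cast_mul]

end Pool.Agent.Work.MP_6da7fa_al.EG
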