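import Pool.Agent.Work.MP_6da7fa_al.EG.StmtsV

set_option autoImplicit false

/-!
# Theorem EG, item Bb (helper12): all Frobenius coordinates instead of the strictly decreasing ones
-/

namespace Pool.Agent.Work.MP_6da7fa_al.EG

open Equiv

private theorem Bb_uni {i n : ℕ} (a : Fin i → Fin n) (ha : Function.Injective a) :
    ∃ u : Perm (Fin i), StrictAnti (a ∘ u) ∧ ∀ v : Perm (Fin i), StrictAnti (a ∘ v) → v = u := by
  have h1 : Monotone ((fun q => OrderDual.toDual (a q)) ∘
      Tuple.sort (fun q => OrderDual.toDual (a q))) := Tuple.monotone_sort _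
  have h2 : Antitone (a ∘ Tuple.sort (fun q => OrderDual.toDual (a q))) := h1
  refine ⟨Tuple.sort (fun q => OrderDual.toDual (a q)),
    h2.strictAnti_of_injective (ha.comp (Equiv.injective _)), ?_⟩
  intro v hv
  have h3 := Tuple.unique_antitone hv.antitone h2
  apply Equiv.ext
  intro q
  exact ha (congrFun h3 q)

private theorem Bb_gen {i n : ℕ} (f : (Fin i → Fin n) → ℚ)
    (hinv : ∀ (a : Fin i → Fin n) (u : Perm (Fin i)), f (a ∘ u) = f a)
    (h0 : ∀ a, ¬ Function.Injective a → f a = 0)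
    [DecidablePred (fun a : Fin i → Fin n => StrictAnti a)] :
    ∑ a, f a = (i.factorial : ℚ) * ∑ a, if StrictAnti a then f a else 0 := by
  have h1 : ∀ a : Fin i → Fin n,
      f a = ∑ u : Perm (Fin i), if StrictAnti (a ∘ u) then f a else 0 := by
    intro a
    by_cases ha : Function.Injective a
    · obtain ⟨u, hu, hu'⟩ := Bb_uni a ha
      rw [Finset.sum_eq_single u]
      · rw [if_pos hu]
      · intro v _ hv
        exact if_neg fun h => hv (hu' v h)
      · intro h
        exact absurd (Finset.mem_univ u) h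
    · rw [h0 a ha]
      simp
  have h2 : ∀ u : Perm (Fin i), (∑ a : Fin i → Fin n, if StrictAnti (a ∘ u) then f a else 0) =
      ∑ a, if StrictAnti a then f a else 0 := by
    intro u
    refine Fintype.sum_equiv (Equiv.arrowCongr u.symm (Equiv.refl (Fin n))) _ _ fun a => ?_
    have e : (Equiv.arrowCongr u.symm (Equiv.refl (Fin n))) a = a ∘ u := rfl
    rw [e, hinv]
  rw [Finset.sum_congr rfl fun a _ => h1 a, Finset.sum_comm,
    Finset.sum_congr rfl fun u _ => h2 u, Finset.sum_const, Finset.card_univ, Fintype.card_perm,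
    Fintype.card_fin, nsmul_eq_mul]

private theorem Bb_sz1 {i : ℕ} (a b : Fin i → ℕ) (u : Perm (Fin i)) : sz (a ∘ u) b = sz a b := by
  unfold sz
  simp only [Finset.sum_add_distrib]
  congr 2
  exact Equiv.sum_comp u a

private theorem Bb_sz2 {i : ℕ} (a b : Fin i → ℕ) (u : Perm (Fin i)) : sz a (b ∘ u) = sz a b := by
  unfold sz
  simp only [Finset.sum_add_distrib]
  congr 2
  exact Equiv.sum_comp u b

private theorem Bb_fd1 {i : ℕ} (a b : Fin i → ℕ) (u : Perm (Fin i)) :
    fd (a ∘ u) b = (Perm.sign u : ℤ) * fd a b := by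
  unfold fd
  rw [Bb_sz1]
  have h := Matrix.det_permute (R := ℚ) u (Matrix.of fun q r => gg (a q) (b r))
  have e : (Matrix.of fun q r => gg (a q) (b r)).submatrix u id =
      Matrix.of fun q r => gg ((a ∘ u) q) (b r) := rfl
  rw [e] at h
  rw [h]
  ring

private theorem Bb_fd2 {i : ℕ} (a b : Fin i → ℕ) (u : Perm (Fin i)) :
    fd a (b ∘ u) = (Perm.sign u : ℤ) * fd a b := by
  unfold fd
  rw [Bb_sz2]
  have h := Matrix.det_permute' (R := ℚ) u (Matrix.of fun q r => gg (a q) (b r))
  have e : (Matrix.of fun q r => gg (a q) (b r)).submatrix id u =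
      Matrix.of fun q r => gg (a q) ((b ∘ u) r) := rfl
  rw [e] at h
  rw [h]
  ring

private theorem Bb_z1 {i : ℕ} (a b : Fin i → ℕ) (h : ¬ Function.Injective a) : fd a b = 0 := by
  unfold fd
  unfold Function.Injective at h
  push Not at h
  obtain ⟨q, r, h1, h2⟩ := h
  rw [Matrix.det_zero_of_row_eq h2, mul_zero]
  funext s
  show gg (a q) (b s) = gg (a r) (b s)
  rw [h1]

private theorem Bb_z2 {i : ℕ} (a b : Fin i → ℕ) (h : ¬ Function.Injective b) : fd a b = 0 := by
  unfold fd
  unfold Function.Injective at h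
  push Not at h
  obtain ⟨q, r, h1, h2⟩ := h
  rw [Matrix.det_zero_of_column_eq h2, mul_zero]
  intro s
  show gg (a s) (b q) = gg (a s) (b r)
  rw [h1]

private theorem Bb_inj {i n : ℕ} {a : Fin i → Fin n} (h : ¬ Function.Injective a) :
    ¬ Function.Injective (fun q => (a q : ℕ)) := by
  intro h1
  apply h
  intro q r hqr
  exact h1 (congrArg Fin.val hqr)

private theorem Bb_sq {i : ℕ} (u : Perm (Fin i)) :
    ((Perm.sign u : ℤ) : ℚ) * ((Perm.sign u : ℤ) : ℚ) = 1 := by
  rw [← Int.cast_mul, ← Units.val_mul, Int.units_mul_self, Units.val_one, Int.cast_one]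

theorem prBb : StBb := by
  intro hmm hB α V _ _ _ _ _ ρ k hk
  rw [hB α V ρ k hk]
  refine Finset.sum_congr rfl fun i _ => ?_
  set g : (Fin i → Fin (Fintype.card α)) → (Fin i → Fin (Fintype.card α)) → ℚ := fun a b =>
    if sz (fun q => (a q : ℕ)) (fun q => (b q : ℕ)) = Fintype.card α then
        fd (fun q => (a q : ℕ)) (fun q => (b q : ℕ)) *
          (mm ρ (fun q => (a q : ℕ)) (fun q => (b q : ℕ)) : ℚ) else 0 with hg
  have m1 : ∀ (a b : Fin i → ℕ) (u : Perm (Fin i)),
      (mm ρ (a ∘ u) b : ℤ) = (Perm.sign u : ℤ) * mm ρ a b := by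
    intro a b u
    have h := hmm α V ρ i a b u 1
    rw [Perm.sign_one, Units.val_one, mul_one] at h
    exact h
  have m2 : ∀ (a b : Fin i → ℕ) (u : Perm (Fin i)),
      (mm ρ a (b ∘ u) : ℤ) = (Perm.sign u : ℤ) * mm ρ a b := by
    intro a b u
    have h := hmm α V ρ i a b 1 u
    rw [Perm.sign_one, Units.val_one, one_mul] at h
    exact h
  have g1 : ∀ a b (u : Perm (Fin i)), g (a ∘ u) b = g a b := by
    intro a b u
    have e : (fun q => ((a ∘ u) q : ℕ)) = (fun q => (a q : ℕ)) ∘ u := rfl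
    show (if sz (fun q => ((a ∘ u) q : ℕ)) (fun q => (b q : ℕ)) = Fintype.card α then
        fd (fun q => ((a ∘ u) q : ℕ)) (fun q => (b q : ℕ)) *
          (mm ρ (fun q => ((a ∘ u) q : ℕ)) (fun q => (b q : ℕ)) : ℚ) else 0) = _
    rw [e, Bb_sz1, Bb_fd1, m1]
    show _ = (if sz (fun q => (a q : ℕ)) (fun q => (b q : ℕ)) = Fintype.card α then
        fd (fun q => (a q : ℕ)) (fun q => (b q : ℕ)) *
          (mm ρ (fun q => (a q : ℕ)) (fun q => (b q : ℕ)) : ℚ) else 0)
    split_ifs
    · have := Bb_sq u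
      rw [Int.cast_mul]
      linear_combination (fd (fun q => (a q : ℕ)) (fun q => (b q : ℕ)) *
          (mm ρ (fun q => (a q : ℕ)) (fun q => (b q : ℕ)) : ℚ)) * this
    · rfl
  have g2 : ∀ a b (u : Perm (Fin i)), g a (b ∘ u) = g a b := by
    intro a b u
    have e : (fun q => ((b ∘ u) q : ℕ)) = (fun q => (b q : ℕ)) ∘ u := rfl
    show (if sz (fun q => (a q : ℕ)) (fun q => ((b ∘ u) q : ℕ)) = Fintype.card α then
        fd (fun q => (a q : ℕ)) (fun q => ((b ∘ u) q : ℕ)) *
          (mm ρ (fun q => (a q : ℕ)) (fun q => ((b ∘ u) q : ℕ)) : ℚ) else 0) = _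
    rw [e, Bb_sz2, Bb_fd2, m2]
    show _ = (if sz (fun q => (a q : ℕ)) (fun q => (b q : ℕ)) = Fintype.card α then
        fd (fun q => (a q : ℕ)) (fun q => (b q : ℕ)) *
          (mm ρ (fun q => (a q : ℕ)) (fun q => (b q : ℕ)) : ℚ) else 0)
    split_ifs
    · have := Bb_sq u
      rw [Int.cast_mul]
      linear_combination (fd (fun q => (a q : ℕ)) (fun q => (b q : ℕ)) *
          (mm ρ (fun q => (a q : ℕ)) (fun q => (b q : ℕ)) : ℚ)) * this
    · rfl
  have z1 : ∀ a b, ¬ Function.Injective a → g a b = 0 := by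
    intro a b h
    show (if sz (fun q => (a q : ℕ)) (fun q => (b q : ℕ)) = Fintype.card α then
        fd (fun q => (a q : ℕ)) (fun q => (b q : ℕ)) *
          (mm ρ (fun q => (a q : ℕ)) (fun q => (b q : ℕ)) : ℚ) else 0) = 0
    rw [Bb_z1 _ _ (Bb_inj h), zero_mul]
    simp
  have z2 : ∀ a b, ¬ Function.Injective b → g a b = 0 := by
    intro a b h
    show (if sz (fun q => (a q : ℕ)) (fun q => (b q : ℕ)) = Fintype.card α then
        fd (fun q => (a q : ℕ)) (fun q => (b q : ℕ)) *
          (mm ρ (fun q => (a q : ℕ)) (fun q => (b q : ℕ)) : ℚ) else 0) = 0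
    rw [Bb_z2 _ _ (Bb_inj h), zero_mul]
    simp
  classical
  have s1 : ∀ a, ∑ b, g a b = (i.factorial : ℚ) * ∑ b, if StrictAnti b then g a b else 0 := by
    intro a
    exact Bb_gen (fun b => g a b) (fun b u => g2 a b u) (fun b h => z2 a b h)
  have s2 : ∑ a, (∑ b, if StrictAnti b then g a b else 0) = (i.factorial : ℚ) *
      ∑ a, if StrictAnti a then (∑ b, if StrictAnti b then g a b else 0) else 0 := by
    refine Bb_gen (fun a => ∑ b, if StrictAnti b then g a b else 0) (fun a u => ?_)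
      (fun a h => ?_)
    · refine Finset.sum_congr rfl fun b _ => ?_
      rw [g1]
    · refine Finset.sum_eq_zero fun b _ => ?_
      rw [z1 a b h]
      simp
  have s3 : ∑ a, ∑ b, g a b = (i.factorial : ℚ) * ((i.factorial : ℚ) *
      ∑ a, if StrictAnti a then (∑ b, if StrictAnti b then g a b else 0) else 0) := by
    rw [Finset.sum_congr rfl fun a _ => s1 a, ← Finset.mul_sum, s2]
  have hi : (i.factorial : ℚ) ≠ 0 := by exact_mod_cast i.factorial_ne_zero
  have s4 : (1 / (i.factorial : ℚ) ^ 2) * ∑ a, ∑ b, g a b =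
      ∑ a, if StrictAnti a then (∑ b, if StrictAnti b then g a b else 0) else 0 := by
    rw [s3]
    field_simp
  rw [s4]
  refine Finset.sum_congr rfl fun a _ => ?_
  by_cases ha : StrictAnti a
  · rw [if_pos ha]
    refine Finset.sum_congr rfl fun b _ => ?_
    by_cases hb : StrictAnti b
    · rw [if_pos hb]
      show _ = (if sz (fun q => (a q : ℕ)) (fun q => (b q : ℕ)) = Fintype.card α then
        fd (fun q => (a q : ℕ)) (fun q => (b q : ℕ)) *
          (mm ρ (fun q => (a q : ℕ)) (fun q => (b q : ℕ)) : ℚ) else 0)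
      by_cases hs : sz (fun q => (a q : ℕ)) (fun q => (b q : ℕ)) = Fintype.card α
      · rw [if_pos ⟨ha, hb, hs⟩, if_pos hs]
      · rw [if_neg (fun h => hs h.2.2), if_neg hs]
    · rw [if_neg hb, if_neg (fun h => hb h.2.1)]
  · rw [if_neg ha]
    exact Finset.sum_eq_zero fun b _ => if_neg fun h => ha h.1

end Pool.Agent.Work.MP_6da7fa_al.EG
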