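import Pool.Agent.Work.MP_6da7fa_al.EG.StmtsV

set_option autoImplicit false

/-! Theorem EG, item Bx: boxes. -/

namespace Pool.Agent.Work.MP_6da7fa_al.EG

open Equiv

theorem Bx_lb {i : ℕ} {a : Fin i → ℕ} (ha : StrictAnti a) :
    ∀ (m : ℕ) (q : Fin i), (q : ℕ) + m = i - 1 → m ≤ a q := by
  intro m
  induction m with
  | zero => intro q _; exact Nat.zero_le _
  | succ m ih =>
    intro q hq
    have hlt : (q : ℕ) + 1 < i := by omega
    have h1 : m ≤ a ⟨(q : ℕ) + 1, hlt⟩ := ih ⟨(q : ℕ) + 1, hlt⟩ (by show (q : ℕ) + 1 + m = i - 1; omega)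
    have h2 : a ⟨(q : ℕ) + 1, hlt⟩ < a q := ha (by
      rw [Fin.lt_def]
      show (q : ℕ) < (q : ℕ) + 1
      omega)
    omega

theorem Bx_ge {i : ℕ} {a : Fin i → ℕ} (ha : StrictAnti a) (q : Fin i) : sq i q ≤ a q := by
  have h1 : (q : ℕ) < i := q.2
  exact Bx_lb ha (i - 1 - q) q (by omega)

theorem Bx_odd : ∀ i : ℕ, ∑ j ∈ Finset.range i, (2 * j + 1) = i ^ 2
  | 0 => rfl
  | i + 1 => by
    rw [Finset.sum_range_succ, Bx_odd i]
    ring

theorem Bx_sq (i : ℕ) : ∑ q : Fin i, (sq i q + sq i q + 1) = i ^ 2 := by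
  have h1 : ∑ q : Fin i, (sq i q + sq i q + 1) =
      ∑ j ∈ Finset.range i, (2 * (i - 1 - j) + 1) := by
    rw [← Fin.sum_univ_eq_sum_range (fun j => 2 * (i - 1 - j) + 1) i]
    refine Finset.sum_congr rfl fun q _ => ?_
    show i - 1 - (q : ℕ) + (i - 1 - (q : ℕ)) + 1 = 2 * (i - 1 - (q : ℕ)) + 1
    omega
  rw [h1, Finset.sum_range_reflect (fun j => 2 * j + 1) i]
  exact Bx_odd i

theorem Bx_dec {i : ℕ} {a : Fin i → ℕ} (ha : StrictAnti a) (h : ∃ q, sq i q < a q) :
    ∃ a' : Fin i → ℕ, StrictAnti a' ∧ ∃ s, a = Function.update a' s (a' s + 1) := by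
  have hne : (Finset.univ.filter fun q : Fin i => sq i q < a q).Nonempty := by
    obtain ⟨q, hq⟩ := h
    exact ⟨q, Finset.mem_filter.2 ⟨Finset.mem_univ _, hq⟩⟩
  obtain ⟨q, hq, hmax⟩ := Finset.exists_max_image _ (fun q : Fin i => (q : ℕ)) hne
  rw [Finset.mem_filter] at hq
  have hq1 : sq i q < a q := hq.2
  have hm : ∀ s : Fin i, (q : ℕ) < s → a s = sq i s := by
    intro s hs
    by_contra hcon
    have h2 : sq i s < a s := lt_of_le_of_ne (Bx_ge ha s) (Ne.symm hcon)
    have h3 := hmax s (Finset.mem_filter.2 ⟨Finset.mem_univ _, h2⟩)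
    omega
  refine ⟨Function.update a q (a q - 1), ?_, q, ?_⟩
  · intro r s hrs
    have hrs' : (r : ℕ) < s := hrs
    have h4 : a s < a r := ha hrs
    by_cases hr : r = q
    · subst hr
      have hs : s ≠ r := fun h => by rw [h] at hrs'; omega
      rw [Function.update_self, Function.update_of_ne hs]
      have h5 := hm s hrs'
      unfold sq at h5 hq1
      have h6 : (s : ℕ) < i := s.2
      omega
    · rw [Function.update_of_ne hr]
      by_cases hs : s = q
      · subst hs
        rw [Function.update_self]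
        omega
      · rw [Function.update_of_ne hs]
        exact h4
  · rw [Function.update_self, Function.update_idem]
    have h7 : a q - 1 + 1 = a q := by omega
    rw [h7, Function.update_eq_self]

theorem Bx_upd {i : ℕ} (a b : Fin i → ℕ) (s : Fin i) :
    sz (Function.update a s (a s + 1)) b = sz a b + 1 := by
  unfold sz
  have h1 : ∀ q, Function.update a s (a s + 1) q + b q + 1 =
      (a q + b q + 1) + (if q = s then 1 else 0) := by
    intro q
    by_cases hq : q = s
    · subst hq
      rw [Function.update_self, if_pos rfl]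
      omega
    · rw [Function.update_of_ne hq, if_neg hq]
  rw [Finset.sum_congr rfl fun q _ => h1 q, Finset.sum_add_distrib, Finset.sum_ite_eq']
  simp

theorem Bx_comm {i : ℕ} (a b : Fin i → ℕ) : sz a b = sz b a := by
  unfold sz
  exact Finset.sum_congr rfl fun q _ => by omega

theorem prBx : StBx := by
  intro i a b ha hb
  have h0 : ∀ q ∈ (Finset.univ : Finset (Fin i)), sq i q + sq i q + 1 ≤ a q + b q + 1 := by
    intro q _
    have h1 := Bx_ge ha q
    have h2 := Bx_ge hb q
    omega
  have h3 : i ^ 2 = sz a b → a = sq i ∧ b = sq i := by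
    intro heq
    unfold sz at heq
    rw [← Bx_sq i] at heq
    have h4 := (Finset.sum_eq_sum_iff_of_le h0).1 heq
    constructor
    · funext q
      have h1 := Bx_ge ha q
      have h2 := Bx_ge hb q
      have h5 := h4 q (Finset.mem_univ q)
      omega
    · funext q
      have h1 := Bx_ge ha q
      have h2 := Bx_ge hb q
      have h5 := h4 q (Finset.mem_univ q)
      omega
  refine ⟨?_, ?_, h3⟩
  · rw [← Bx_sq i]
    exact Finset.sum_le_sum h0
  · intro hlt
    by_cases hA : ∃ q, sq i q < a q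
    · obtain ⟨a', h4, s, h5⟩ := Bx_dec ha hA
      refine ⟨a', b, h4, hb, Or.inl ⟨s, h5, rfl⟩, ?_⟩
      rw [← Bx_upd a' b s, ← h5]
    · by_cases hB : ∃ q, sq i q < b q
      · obtain ⟨b', h4, s, h5⟩ := Bx_dec hb hB
        refine ⟨a, b', ha, h4, Or.inr ⟨s, rfl, h5⟩, ?_⟩
        rw [Bx_comm a b', ← Bx_upd b' a s, ← h5, Bx_comm b a]
      · exfalso
        push Not at hA hB
        have h6 : sz a b ≤ i ^ 2 := by
          rw [← Bx_sq i]
          unfold sz
          refine Finset.sum_le_sum fun q _ => ?_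
          have h7 := hA q
          have h8 := hB q
          omega
        omega

end Pool.Agent.Work.MP_6da7fa_al.EG
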