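import Pool.Agent.Work.MP_6da7fa_al.EG.StmtsS

set_option autoImplicit false

/-!
# Theorem EG, item Ca: the Cauchy determinant
-/

namespace Pool.Agent.Work.MP_6da7fa_al.EG

open Finset

/-- one step of the elimination -/
theorem Ca_step {F : Type} [Field F] {k : ℕ} (x y : Fin (k + 1) → F)
    (h : ∀ q r, x q + y r ≠ 0) :
    (CM x y).det = (x 0 + y 0)⁻¹ * ((∏ q : Fin k, (x q.succ - x 0) / (x q.succ + y 0)) *
      ((∏ r : Fin k, (y r.succ - y 0) / (x 0 + y r.succ)) *
        (CM (fun q => x (Fin.succ q)) (fun r => y (Fin.succ r))).det)) := by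
  obtain ⟨B, hB⟩ : ∃ B : Matrix (Fin (k + 1)) (Fin (k + 1)) F, B = Matrix.of fun i j =>
      Fin.cases (motive := fun _ => F) ((x 0 + y j)⁻¹)
        (fun q => (x q.succ + y j)⁻¹ - (x 0 + y 0) / (x q.succ + y 0) * (x 0 + y j)⁻¹) i :=
    ⟨_, rfl⟩
  have hB0 : ∀ j, B 0 j = (x 0 + y j)⁻¹ := fun j => by
    rw [hB]
    rfl
  have hBs : ∀ (q : Fin k) j, B q.succ j =
      (x q.succ + y j)⁻¹ - (x 0 + y 0) / (x q.succ + y 0) * (x 0 + y j)⁻¹ := fun q j => by
    rw [hB]
    rfl
  have hdet : (CM x y).det = B.det := by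
    refine Matrix.det_eq_of_forall_row_eq_smul_add_const
      (fun i => Fin.cases (motive := fun _ => F) 0
        (fun q => (x 0 + y 0) / (x q.succ + y 0)) i) 0 rfl ?_
    intro i j
    refine Fin.cases ?_ (fun q => ?_) i
    · show (x 0 + y j)⁻¹ = B 0 j + 0 * B 0 j
      rw [hB0]
      ring
    · show (x q.succ + y j)⁻¹ = B q.succ j + (x 0 + y 0) / (x q.succ + y 0) * B 0 j
      rw [hB0, hBs]
      ring
  rw [hdet, Matrix.det_succ_column_zero, Finset.sum_eq_single 0]
  · have h1 : B.submatrix (Fin.succAbove 0) Fin.succ = Matrix.of fun q r : Fin k =>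
        ((x q.succ - x 0) / (x q.succ + y 0)) * (Matrix.of fun q r : Fin k =>
          ((y r.succ - y 0) / (x 0 + y r.succ)) *
            CM (fun q => x (Fin.succ q)) (fun r => y (Fin.succ r)) q r) q r := by
      ext q r
      rw [Matrix.submatrix_apply, Fin.succAbove_zero, hBs]
      show _ = (x q.succ - x 0) / (x q.succ + y 0) *
        ((y r.succ - y 0) / (x 0 + y r.succ) * (x q.succ + y r.succ)⁻¹)
      have e1 := h q.succ r.succ
      have e2 := h q.succ 0
      have e3 := h 0 r.succ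
      field_simp
      ring
    rw [h1, Matrix.det_mul_column, Matrix.det_mul_row, hB0]
    simp
  · intro i _ hi
    obtain ⟨q, rfl⟩ := Fin.exists_succ_eq.2 hi
    have h1 : B q.succ 0 = 0 := by
      rw [hBs]
      have e1 := h q.succ 0
      have e2 := h 0 0
      field_simp
      ring
    rw [h1, mul_zero, zero_mul]
  · intro h0
    exact absurd (Finset.mem_univ _) h0

/-- item Ca -/
theorem prCa : StCa := by
  intro F _ k
  induction k with
  | zero =>
    intro x y _
    simp
  | succ k ih =>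
    intro x y h
    have hi := ih (fun q => x (Fin.succ q)) (fun r => y (Fin.succ r)) (fun q r => h _ _)
    have hL : ∏ q, ∏ r, (x q + y r) = (x 0 + y 0) * (∏ r : Fin k, (x 0 + y r.succ)) *
        ((∏ q : Fin k, (x q.succ + y 0)) * ∏ q : Fin k, ∏ r : Fin k, (x q.succ + y r.succ)) := by
      rw [Fin.prod_univ_succ, Fin.prod_univ_succ]
      congr 1
      rw [← Finset.prod_mul_distrib]
      exact Finset.prod_congr rfl fun q _ => Fin.prod_univ_succ _
    have hR : ∏ q, ∏ r ∈ Ioi q, ((x r - x q) * (y r - y q)) =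
        ((∏ r : Fin k, (x r.succ - x 0)) * ∏ r : Fin k, (y r.succ - y 0)) *
        ∏ q : Fin k, ∏ r ∈ Ioi q, ((x r.succ - x q.succ) * (y r.succ - y q.succ)) := by
      rw [Fin.prod_univ_succ, Fin.prod_Ioi_zero, Finset.prod_mul_distrib]
      congr 1
      exact Finset.prod_congr rfl fun q _ =>
        Fin.prod_Ioi_succ (fun r => (x r - x q.succ) * (y r - y q.succ)) q
    have hu : (∏ q : Fin k, (x q.succ - x 0) / (x q.succ + y 0)) *
        ∏ q : Fin k, (x q.succ + y 0) = ∏ q : Fin k, (x q.succ - x 0) := by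
      rw [← Finset.prod_mul_distrib]
      exact Finset.prod_congr rfl fun q _ => div_mul_cancel₀ _ (h _ _)
    have hv : (∏ r : Fin k, (y r.succ - y 0) / (x 0 + y r.succ)) *
        ∏ r : Fin k, (x 0 + y r.succ) = ∏ r : Fin k, (y r.succ - y 0) := by
      rw [← Finset.prod_mul_distrib]
      exact Finset.prod_congr rfl fun r _ => div_mul_cancel₀ _ (h _ _)
    rw [Ca_step x y h, hL, hR, ← hi, ← hu, ← hv]
    have h0 : (x 0 + y 0)⁻¹ * (x 0 + y 0) = 1 := inv_mul_cancel₀ (h 0 0)
    linear_combination ((∏ q : Fin k, (x q.succ - x 0) / (x q.succ + y 0)) *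
      ((∏ r : Fin k, (y r.succ - y 0) / (x 0 + y r.succ)) *
        (CM (fun q => x (Fin.succ q)) (fun r => y (Fin.succ r))).det)) *
      (∏ r : Fin k, (x 0 + y r.succ)) *
        ((∏ q : Fin k, (x q.succ + y 0)) * ∏ q : Fin k, ∏ r : Fin k, (x q.succ + y r.succ)) * h0

end Pool.Agent.Work.MP_6da7fa_al.EG
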