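import Pool.Agent.Work.MP_6da7fa_al.EG.StmtsS

set_option autoImplicit false

/-!
# Theorem EG, item Cf: coefficients of the Giambelli determinant
-/

namespace Pool.Agent.Work.MP_6da7fa_al.EG

open Equiv MvPolynomial

theorem Cf_mon {Z : Type} [Fintype Z] (t : Z → ℕ) (t' : Z →₀ ℕ) :
    coeff t' (∏ i, (X i : MvPolynomial Z ℤ) ^ t i) = if t = ⇑t' then 1 else 0 := by
  classical
  have h1 : (∏ i, (X i : MvPolynomial Z ℤ) ^ t i) =
      monomial (Finsupp.equivFunOnFinite.symm t) 1 := by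
    rw [monomial_eq, C_1, one_mul, Finsupp.prod_fintype]
    · rfl
    · intro i
      rw [pow_zero]
  rw [h1, coeff_monomial]
  congr 1
  rw [Equiv.symm_apply_eq]
  rfl

theorem prCf : StCf := by
  intro hRo hSd hNs Z _ _ p' i a b t'
  rw [hSd Z _ p' _ i a b, MvPolynomial.coeff_sum]
  refine Finset.sum_congr rfl fun t _ => ?_
  rw [hRo (ZZ i) Z _ (par i) p' _ t]
  have h1 : ((KK a b t : ℤ) : MvPolynomial Z ℤ) = C (KK a b t) := (map_intCast (C : ℤ →+* MvPolynomial Z ℤ) _).symm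
  rw [h1, coeff_C_mul, MvPolynomial.coeff_sum]
  congr 1
  have h2 : ∀ t'' : Z → ℕ, coeff t' (((NN (par i) p' t t'' : ℕ) : MvPolynomial Z ℤ) *
      ∏ i, (X i : MvPolynomial Z ℤ) ^ t'' i) =
      if t'' = ⇑t' then ((NN (par i) p' t t' : ℕ) : ℤ) else 0 := by
    intro t''
    have h3 : ((NN (par i) p' t t'' : ℕ) : MvPolynomial Z ℤ) =
      C ((NN (par i) p' t t'' : ℕ) : ℤ) := (map_natCast (C : ℤ →+* MvPolynomial Z ℤ) _).symm
    rw [h3, coeff_C_mul, Cf_mon]
    split_ifs with h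
    · rw [h, mul_one]
    · rw [mul_zero]
  rw [Finset.sum_congr rfl fun t'' _ => h2 t'', Finset.sum_ite_eq']
  split_ifs with h
  · rfl
  · rw [(hNs (ZZ i) Z (par i) p' t t').2, Nat.cast_zero]
    intro h4
    apply h
    rw [TT, Finset.mem_piAntidiag]
    exact ⟨h4.symm, fun i _ => Finset.mem_univ i⟩

end Pool.Agent.Work.MP_6da7fa_al.EG
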