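import Pool.Agent.Work.MP_6da7fa_al.EG.StmtsV

set_option autoImplicit false

/-!
# Theorem EG, item Cl: classification by Frobenius coordinates
-/

namespace Pool.Agent.Work.MP_6da7fa_al.EG

open Equiv

theorem Cl_sq {ι : Type} [Fintype ι] (f : ι → ℤ) (h : ∑ j, f j * f j = 1) :
    ∃ j, (f j = 1 ∨ f j = -1) ∧ ∀ j', j' ≠ j → f j' = 0 := by
  classical
  have h0 : ∃ j, f j ≠ 0 := by
    by_contra h1
    push Not at h1
    rw [Finset.sum_eq_zero (fun j _ => by rw [h1 j, mul_zero])] at h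
    exact zero_ne_one h
  obtain ⟨j, hj⟩ := h0
  have h2 : f j * f j + ∑ j' ∈ Finset.univ.erase j, f j' * f j' = 1 := by
    rw [← h]
    exact Finset.add_sum_erase _ (fun j => f j * f j) (Finset.mem_univ j)
  have h3 : 0 < f j * f j := mul_self_pos.2 hj
  have h4 : 0 ≤ ∑ j' ∈ Finset.univ.erase j, f j' * f j' :=
    Finset.sum_nonneg fun _ _ => mul_self_nonneg _
  have h5 : ∑ j' ∈ Finset.univ.erase j, f j' * f j' = 0 := by omega
  have h6 := (Finset.sum_eq_zero_iff_of_nonneg (fun _ _ => mul_self_nonneg _)).1 h5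
  refine ⟨j, ?_, ?_⟩
  · have : f j * f j = 1 := by omega
    exact mul_self_eq_one_iff.1 this
  · intro j' hj'
    exact mul_self_eq_zero.1 (h6 j' (Finset.mem_erase.2 ⟨hj', Finset.mem_univ _⟩))

/-- the inner product of two multiplicity functionals -/
theorem Cl_inner (hMk : ConMk) {α : Type} [Fintype α] [LinearOrder α] (I : IrrSys α) {i i' : ℕ}
    (a b : Fin i → ℕ) (a' b' : Fin i' → ℕ) :
    ∑ j, mm (I.ρ j) a b * mm (I.ρ j) a' b' =
      ∑ t ∈ TT (ZZ i) (Fintype.card α), ∑ t' ∈ TT (ZZ i') (Fintype.card α),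
        KK a b t * KK a' b' t' * (NN (par i) (par i') t t' : ℤ) := by
  unfold mm
  simp only [Finset.sum_mul_sum]
  rw [Finset.sum_comm]
  refine Finset.sum_congr rfl fun t ht => ?_
  rw [Finset.sum_comm]
  refine Finset.sum_congr rfl fun t' ht' => ?_
  rw [← hMk α (ZZ i) (ZZ i') I (par i) (par i') t t' ht ht']
  push_cast
  rw [Finset.mul_sum]
  refine Finset.sum_congr rfl fun j _ => ?_
  ring

/-- the sum with the dimensions -/
theorem Cl_dim (hDi : ConDi) (hDm : StDm) {α : Type} [Fintype α] [LinearOrder α] (I : IrrSys α)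
    {i : ℕ} (a b : Fin i → ℕ) (hs : sz a b = Fintype.card α) :
    ∑ j, (mm (I.ρ j) a b : ℚ) * (I.d j : ℚ) = fd a b := by
  unfold mm
  have e1 : ∀ j, ((∑ t ∈ TT (ZZ i) (Fintype.card α), KK a b t * (hT (par i) (I.ρ j) t : ℤ) : ℤ) : ℚ) *
      (I.d j : ℚ) = ∑ t ∈ TT (ZZ i) (Fintype.card α),
        (KK a b t : ℚ) * ((hT (par i) (I.ρ j) t : ℚ) * (I.d j : ℚ)) := by
    intro j
    push_cast
    rw [Finset.sum_mul]
    refine Finset.sum_congr rfl fun t _ => ?_
    ring
  simp only [e1]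
  rw [Finset.sum_comm]
  have e2 : ∀ t ∈ TT (ZZ i) (Fintype.card α),
      ∑ j, (KK a b t : ℚ) * ((hT (par i) (I.ρ j) t : ℚ) * (I.d j : ℚ)) =
        ((Fintype.card α).factorial : ℚ) * ((KK a b t : ℚ) / ∏ z, ((t z).factorial : ℚ)) := by
    intro t ht
    rw [← Finset.mul_sum, hDi α (ZZ i) I (par i) t ht]
    ring
  rw [Finset.sum_congr rfl e2, ← Finset.mul_sum]
  unfold fd
  rw [← hDm, hs]

open Classical in
theorem Cl_one (hMk : ConMk) (hDi : ConDi) (hO : ConO) (hDm : StDm)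
    (hGp : ∀ (i : ℕ) (a b : Fin i → ℕ), StrictAnti a → StrictAnti b →
      0 < Matrix.det (Matrix.of fun q r => gg (a q) (b r)))
    {α : Type} [Fintype α] [LinearOrder α] (I : IrrSys α) (i : ℕ) (a b : Fin i → ℕ)
    (ha : StrictAnti a) (hb : StrictAnti b) (hs : sz a b = Fintype.card α) :
    ∃ j : I.ι, (∀ j', mm (I.ρ j') a b = if j' = j then 1 else 0) ∧ (I.d j : ℚ) = fd a b := by
  have h1 : ∑ j, mm (I.ρ j) a b * mm (I.ρ j) a b = 1 := by
    rw [Cl_inner hMk I a b a b, ← hs, hO.1 i a b a b ha hb ha hb rfl, if_pos ⟨rfl, rfl⟩]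
  obtain ⟨j, hj, hj'⟩ := Cl_sq _ h1
  have h2 := Cl_dim hDi hDm I a b hs
  have h3 : ∑ j', (mm (I.ρ j') a b : ℚ) * (I.d j' : ℚ) = (mm (I.ρ j) a b : ℚ) * (I.d j : ℚ) := by
    apply Finset.sum_eq_single j
    · intro j' _ hne
      rw [hj' j' hne, Int.cast_zero, zero_mul]
    · intro h
      exact absurd (Finset.mem_univ j) h
  rw [h3] at h2
  have h4 : 0 < fd a b := by
    unfold fd
    exact mul_pos (by exact_mod_cast Nat.factorial_pos _) (hGp i a b ha hb)
  have h5 : mm (I.ρ j) a b = 1 := by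
    rcases hj with h | h
    · exact h
    · exfalso
      rw [h] at h2
      have : (0 : ℚ) ≤ (I.d j : ℚ) := Nat.cast_nonneg _
      push_cast at h2
      linarith
  refine ⟨j, fun j' => ?_, ?_⟩
  · by_cases h : j' = j
    · rw [if_pos h, h, h5]
    · rw [if_neg h, hj' j' h]
  · rw [← h2, h5]
    push_cast
    ring

theorem prCl : StCl := by
  intro hMk hDi hO hDm hGp
  refine ⟨?_, ?_⟩
  · intro α _ _ I i a b ha hb hs
    exact Cl_one hMk hDi hO hDm hGp I i a b ha hb hs
  · intro α _ _ I i i' a b a' b' j ha hb ha' hb' hs hs' h1 h2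
    -- the sum is `1`
    have h3 : ∑ j, mm (I.ρ j) a b * mm (I.ρ j) a' b' = 1 := by
      classical
      obtain ⟨j0, hj0, -⟩ := Cl_one hMk hDi hO hDm hGp I i a b ha hb hs
      obtain ⟨j1, hj1, -⟩ := Cl_one hMk hDi hO hDm hGp I i' a' b' ha' hb' hs'
      have e0 : j = j0 := by
        by_contra h
        rw [hj0 j, if_neg h] at h1
        exact zero_ne_one h1
      have e1 : j = j1 := by
        by_contra h
        rw [hj1 j, if_neg h] at h2
        exact zero_ne_one h2
      subst e0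
      subst e1
      rw [Finset.sum_eq_single j]
      · rw [h1, h2, mul_one]
      · intro j' _ hne
        rw [hj0 j', if_neg hne, zero_mul]
      · intro h
        exact absurd (Finset.mem_univ j) h
    rw [Cl_inner hMk I a b a' b'] at h3
    by_cases hi : i = i'
    · subst hi
      have h4 := hO.1 i a b a' b' ha hb ha' hb' (hs.trans hs'.symm)
      rw [hs, hs', h3] at h4
      by_cases h5 : a = a' ∧ b = b'
      · obtain ⟨rfl, rfl⟩ := h5
        rfl
      · rw [if_neg h5] at h4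
        exact absurd h4 one_ne_zero
    · have h4 := hO.2 i i' a b a' b' hi
      rw [hs, hs', h3] at h4
      exact absurd h4 one_ne_zero

end Pool.Agent.Work.MP_6da7fa_al.EG
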