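import Pool.Agent.Work.MP_6da7fa_al.EG.StmtsV

set_option autoImplicit false

/-!
# Theorem EG, item Cm: completeness (helper37)
-/

namespace Pool.Agent.Work.MP_6da7fa_al.EG

open Equiv MvPolynomial

private theorem Cm_mem {Z : Type} [Fintype Z] [DecidableEq Z] (t : Z → ℕ) (n : ℕ)
    (h : t ∈ TT Z n) : ∑ z, t z = n := by
  unfold TT at h
  rw [Finset.mem_piAntidiag] at h
  exact h.1

private theorem Cm_coeff {α V : Type} [Fintype α] [LinearOrder α] [AddCommGroup V] [Module ℂ V]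
    (ρ : Representation ℂ (Perm α) V) (k : ℕ) (t : ZZ k → ℕ)
    (ht : t ∈ TT (ZZ k) (Fintype.card α)) :
    coeff (Finsupp.equivFunOnFinite.symm t) (HP ρ k) = (hT (par k) ρ t : ℤ) := by
  unfold HP
  rw [coeff_sum]
  simp only [coeff_monomial]
  rw [Finset.sum_eq_single t]
  · rw [if_pos rfl]
  · intro b _ hb
    rw [if_neg]
    intro h
    exact hb (Finsupp.equivFunOnFinite.symm.injective h)
  · intro h
    exact (h ht).elim

private theorem Cm_size {i : ℕ} (a b : Fin i → ℕ) (t : ZZ i → ℕ) (h : KK a b t ≠ 0) :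
    ∑ z, t z = sz a b := by
  unfold KK at h
  obtain ⟨w, -, hw⟩ := Finset.exists_ne_zero_of_sum_ne_zero h
  have h1 : ∏ q, kap (a q) (b (w q)) (t (Sum.inl q)) (t (Sum.inr q)) ≠ 0 :=
    right_ne_zero_of_mul hw
  have h2 : ∀ q, t (Sum.inl q) + t (Sum.inr q) = a q + b (w q) + 1 := by
    intro q
    have h3 := Finset.prod_ne_zero_iff.1 h1 q (Finset.mem_univ q)
    unfold kap at h3
    by_contra h4
    exact h3 (if_neg (fun h5 => h4 h5.2))
  rw [Fintype.sum_sum_type, ← Finset.sum_add_distrib, Finset.sum_congr rfl fun q _ => h2 q]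
  unfold sz
  rw [Finset.sum_add_distrib, Finset.sum_add_distrib, Finset.sum_add_distrib,
    Finset.sum_add_distrib, Equiv.sum_comp w b]

private theorem Cm_size' {α V : Type} [Fintype α] [LinearOrder α] [AddCommGroup V] [Module ℂ V]
    (ρ : Representation ℂ (Perm α) V) {i : ℕ} (a b : Fin i → ℕ) (h : mm ρ a b ≠ 0) :
    sz a b = Fintype.card α := by
  unfold mm at h
  obtain ⟨t, ht, h1⟩ := Finset.exists_ne_zero_of_sum_ne_zero h
  rw [← Cm_size a b t (left_ne_zero_of_mul h1)]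
  exact Cm_mem t _ ht

/-- a colouring which avoids two colours -/
private theorem Cm_avoid {α : Type} {k : ℕ} (q r : Fin (k + 1)) (c : α → ZZ (k + 1))
    (h1 : ∀ x, c x ≠ Sum.inl q) (h2 : ∀ x, c x ≠ Sum.inr r) :
    ∃ c' : α → ZZ k, c = Sum.map q.succAbove r.succAbove ∘ c' := by
  have h : ∀ x, ∃ z : ZZ k, Sum.map q.succAbove r.succAbove z = c x := by
    intro x
    rcases hx : c x with s | s
    · have hs : s ≠ q := fun h => h1 x (by rw [hx, h])
      obtain ⟨z, hz⟩ := Fin.exists_succAbove_eq hs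
      exact ⟨Sum.inl z, by rw [Sum.map_inl, hz]⟩
    · have hs : s ≠ r := fun h => h2 x (by rw [hx, h])
      obtain ⟨z, hz⟩ := Fin.exists_succAbove_eq hs
      exact ⟨Sum.inr z, by rw [Sum.map_inr, hz]⟩
  choose c' hc' using h
  exact ⟨c', funext fun x => (hc' x).symm⟩

private theorem Cm_typ {α Z : Type} [Fintype α] [DecidableEq Z] (c : α → Z) (z : Z)
    (h : typ c z = 0) (x : α) : c x ≠ z := by
  intro hx
  unfold typ at h
  rw [Finset.card_eq_zero, Finset.filter_eq_empty_iff] at h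
  exact h (Finset.mem_univ x) hx

theorem prCm : StCm := by
  classical
  intro hHt hCl hDn hDv hHs hKp hAn hSy hSu α _ _ I j k c hc
  obtain ⟨ht1, ht2, ht3⟩ := hHt
  -- the minimal number of colours
  have hex : ∃ m : ℕ, ∃ c : α → ZZ m, SI (par m) (I.ρ j) c ≠ ⊥ := ⟨k, c, hc⟩
  obtain ⟨m, hm, hmin, hmk⟩ : ∃ m : ℕ, (∃ c : α → ZZ m, SI (par m) (I.ρ j) c ≠ ⊥) ∧
      (∀ m' < m, ∀ c : α → ZZ m', SI (par m') (I.ρ j) c = ⊥) ∧ m ≤ k := by
    refine ⟨Nat.find hex, Nat.find_spec hex, fun m' hm' c' => ?_, Nat.find_min' hex ⟨c, hc⟩⟩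
    by_contra hcon
    exact Nat.find_min hex hm' ⟨c', hcon⟩
  obtain ⟨c0, hc0⟩ := hm
  -- the polynomial is not zero
  have hF : HP (I.ρ j) m ≠ 0 := by
    intro h0
    have h1 : typ c0 ∈ TT (ZZ m) (Fintype.card α) := (ht3 α (ZZ m) (typ c0)).2 ⟨c0, rfl⟩
    have h2 := Cm_coeff (I.ρ j) m (typ c0) h1
    rw [h0, coeff_zero, ht1 α (ZZ m) (Fin (I.d j) → ℂ) (par m) (I.ρ j) c0] at h2
    have h3 : hn (par m) (I.ρ j) c0 = 0 := by exact_mod_cast h2.symm
    unfold hn at h3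
    exact hc0 (Submodule.finrank_eq_zero.1 h3)
  -- it vanishes under the substitutions
  have hsub : ∀ q r : Fin m, sub q r (HP (I.ρ j) m) = 0 := by
    intro q r
    refine hSu α I j m q r fun t ht hq hr => ?_
    obtain ⟨c1, rfl⟩ := (ht3 α (ZZ m) t).1 ht
    rw [ht1 α (ZZ m) (Fin (I.d j) → ℂ) (par m) (I.ρ j) c1]
    obtain ⟨m', rfl⟩ : ∃ m', m = m' + 1 := ⟨m - 1, by have := q.2; omega⟩
    obtain ⟨c2, hc2⟩ := Cm_avoid q r c1 (Cm_typ c1 _ hq) (Cm_typ c1 _ hr)
    have h1 := ht2 α (ZZ m') (ZZ (m' + 1)) (Fin (I.d j) → ℂ) (par m') (par (m' + 1)) (I.ρ j) c2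
      (Sum.map q.succAbove r.succAbove)
      (Sum.map_injective.2 ⟨Fin.succAbove_right_injective, Fin.succAbove_right_injective⟩)
      (by
        intro z
        rcases z with z | z
        · rfl
        · rfl)
    unfold hn
    rw [hc2, h1, hmin m' (by omega) c2]
    exact finrank_bot ℂ _
  obtain ⟨G, hG⟩ := hDv m (HP (I.ρ j) m) hsub
  have hE : EE m ≠ 0 := by
    intro h
    rw [h, zero_mul] at hG
    exact hF hG
  have hG0 : G ≠ 0 := by
    intro h
    rw [h, mul_zero] at hG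
    exact hF hG
  obtain ⟨sX, sY, sK⟩ := hSy α (Fin (I.d j) → ℂ) (I.ρ j) m
  have hGX : SymX G := by
    intro w
    have h1 := sX w
    have h2 : rename (Sum.map w id) (EE m) = EE m := hHs.2.2 m w 1
    rw [hG, map_mul, h2] at h1
    exact mul_left_cancel₀ hE h1
  have hGY : SymY G := by
    intro w
    have h1 := sY w
    have h2 : rename (Sum.map id w) (EE m) = EE m := hHs.2.2 m 1 w
    rw [hG, map_mul, h2] at h1
    exact mul_left_cancel₀ hE h1
  obtain ⟨a, b, ha, hb, hab⟩ := hAn m G hGX hGY hG0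
  have hmm : mm (I.ρ j) a b ≠ 0 := by
    rw [← sK a b, hG, hKp m a b G hGY]
    exact hab
  have hsz := Cm_size' (I.ρ j) a b hmm
  obtain ⟨j', hj', -⟩ := hCl.1 α I m a b ha hb hsz
  have h1 := hj' j
  refine ⟨m, a, b, hmk, ha, hb, hsz, ?_⟩
  by_cases h : j = j'
  · rw [h1, if_pos h]
  · rw [if_neg h] at h1
    exact (hmm h1).elim

end Pool.Agent.Work.MP_6da7fa_al.EG
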