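import Pool.Agent.Work.MP_6da7fa_al.EG.StmtsV

set_option autoImplicit false

namespace Pool.Agent.Work.MP_6da7fa_al.EG

open Equiv

private lemma Ct_typ {α Z : Type} [Fintype α] [DecidableEq Z] (c : α → Z) (e : Perm Z) :
    typ (⇑e⁻¹ ∘ c) = typ c ∘ e := by
  funext z
  unfold typ
  simp only [Function.comp_apply]
  congr 1
  apply Finset.filter_congr
  intro x _
  rw [Perm.inv_eq_iff_eq]

theorem prCt : StCt := by
  intro hHt α Z V _ _ _ _ _ _ p ρ t e hpe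
  obtain ⟨h1, h2, _⟩ := hHt
  by_cases h : ∃ c : α → Z, typ c = t
  · obtain ⟨c, rfl⟩ := h
    rw [← Ct_typ c e, h1 α Z V p ρ (⇑e⁻¹ ∘ c), h1 α Z V p ρ c]
    unfold hn
    rw [h2 α Z Z V p p ρ c (⇑e⁻¹) (e⁻¹).injective]
    intro z
    have := hpe (e⁻¹ z)
    have h3 : e (e⁻¹ z) = z := e.apply_symm_apply z
    rw [h3] at this
    exact this.symm
  · have h' : ¬ ∃ c : α → Z, typ c = t ∘ e := by
      rintro ⟨c, hc⟩
      apply h
      refine ⟨⇑(e⁻¹)⁻¹ ∘ c, ?_⟩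
      rw [Ct_typ c e⁻¹, hc]
      funext z
      simp
    unfold hT
    rw [dif_neg h, dif_neg h']

end Pool.Agent.Work.MP_6da7fa_al.EG
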