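import Pool.Agent.Work.MP_6da7fa_al.EG.StmtsD

set_option autoImplicit false

namespace Pool.Agent.Work.MP_6da7fa_al.EG

open Pool.Agent.Work.MP_6da7fa_al.MB (wt)

namespace IDa

theorem reind (hRI : StRI) {X Y : Type} [Fintype X] (e : X ≃ Y) (S : Set (X → ℕ)) (hS : Good S) :
    Good {y : Y → ℕ | (fun x => y (e x)) ∈ S} := by
  classical
  have haf : ∀ (z : X → ℕ) (y : Y),
      afY (fun _ => 0) (fun (x : X) (y : Y) => if y = e x then 1 else 0) z y = z (e.symm y) := by
    intro z y
    unfold afY
    rw [zero_add, Finset.sum_eq_single (e.symm y)]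
    · simp
    · intro x _ hx
      have : y ≠ e x := fun h => hx (by rw [h, Equiv.symm_apply_apply])
      simp [this]
    · intro h
      exact absurd (Finset.mem_univ _) h
  have h1 := hRI (fun _ => 0) (fun (x : X) (y : Y) => if y = e x then 1 else 0) S hS (by
    intro z _ z' _ h
    funext x
    have := congrFun h (e x)
    rw [haf, haf] at this
    simpa using this)
  have h2 : {y : Y → ℕ | (fun x => y (e x)) ∈ S} =
      afY (fun _ => 0) (fun (x : X) (y : Y) => if y = e x then 1 else 0) '' S := by
    ext y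
    constructor
    · intro hy
      refine ⟨fun x => y (e x), hy, ?_⟩
      funext z
      rw [haf]
      simp
    · rintro ⟨z, hz, rfl⟩
      show (fun x => afY (fun _ => 0) (fun (x : X) (y : Y) => if y = e x then 1 else 0) z (e x)) ∈ S
      have : (fun x => afY (fun _ => 0) (fun (x : X) (y : Y) => if y = e x then 1 else 0) z (e x)) = z := by
        funext x
        rw [haf]
        simp
      rw [this]
      exact hz
  rw [h2]
  exact h1

/-- coordinates -/
def eqv (X : Type) (i : ℕ) : (X ⊕ (Fin i × Bool)) ⊕ Bool ≃ X ⊕ (Fin (i + 1) × Bool) where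
  toFun := Sum.elim (Sum.elim Sum.inl (fun x => Sum.inr (x.1.castSucc, x.2)))
    (fun b => Sum.inr (Fin.last i, b))
  invFun := Sum.elim (fun x => Sum.inl (Sum.inl x))
    (fun x => Fin.lastCases (motive := fun _ => (X ⊕ (Fin i × Bool)) ⊕ Bool) (Sum.inr x.2)
      (fun q => Sum.inl (Sum.inr (q, x.2))) x.1)
  left_inv := by
    rintro ((x | ⟨q, b⟩) | b)
    · rfl
    · simp
    · simp
  right_inv := by
    rintro (x | ⟨q, b⟩)
    · rfl
    · refine Fin.lastCases ?_ (fun q => ?_) q
      · simp
      · simp

end IDa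

open IDa in
theorem prDa : StDa := by
  intro hR1 hRI X _ _ i
  induction i with
  | zero =>
    intro S c u hS
    have h1 := reind hRI (Equiv.sumEmpty X (Fin 0 × Bool)).symm S hS
    have h2 : ext2 S c u = {y : X ⊕ (Fin 0 × Bool) → ℕ |
        (fun x => y ((Equiv.sumEmpty X (Fin 0 × Bool)).symm x)) ∈ S} := by
      ext y
      constructor
      · intro hy
        exact hy.1
      · intro hy
        exact ⟨hy, fun q => q.elim0⟩
    rw [h2]
    exact h1
  | succ i ih =>
    intro S c u hS
    have h1 := ih S (fun q => c q.castSucc) (fun q => u q.castSucc) hS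
    have h2 := hR1 (X ⊕ (Fin i × Bool)) _ (c (Fin.last i)) (Sum.elim (u (Fin.last i)) (fun _ => 0)) h1
    have h3 := reind hRI (eqv X i) _ h2
    have h4 : ext2 S c u = {y : X ⊕ (Fin (i + 1) × Bool) → ℕ | (fun x => y (eqv X i x)) ∈
        extS (ext2 S (fun q => c q.castSucc) (fun q => u q.castSucc)) (c (Fin.last i))
          (Sum.elim (u (Fin.last i)) (fun _ => 0))} := by
      ext y
      have hw : wt (c (Fin.last i)) (Sum.elim (u (Fin.last i)) (fun _ => 0))
          (fun x : X ⊕ (Fin i × Bool) => y (eqv X i (Sum.inl x))) =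
          wt (c (Fin.last i)) (u (Fin.last i)) (fun x => y (Sum.inl x)) := by
        unfold wt
        rw [Fintype.sum_sum_type]
        simp [eqv]
      constructor
      · rintro ⟨hy1, hy2⟩
        refine ⟨⟨hy1, fun q => hy2 q.castSucc⟩, ?_⟩
        rw [hw]
        exact hy2 (Fin.last i)
      · rintro ⟨⟨hy1, hy2⟩, hy3⟩
        refine ⟨hy1, ?_⟩
        rw [Fin.forall_fin_succ']
        refine ⟨hy2, ?_⟩
        rw [hw] at hy3
        exact hy3
    rw [h4]
    exact h3

end Pool.Agent.Work.MP_6da7fa_al.EG
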