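import Pool.Agent.Work.MP_6da7fa_al.EG.StmtsD

set_option autoImplicit false

namespace Pool.Agent.Work.MP_6da7fa_al.EG

open Pool.Agent.Work.MP_6da7fa_al.MB (wt)

namespace IDb

theorem fin_ext2 {X : Type} [Fintype X] {i : ℕ} (S : Set (X → ℕ)) (c : Fin i → ℕ)
    (u : Fin i → X → ℕ) (hS : S.Finite) : (ext2 S c u).Finite := by
  classical
  have h1 : (⋃ s ∈ S, Set.Iic (Sum.elim s (fun x : Fin i × Bool => wt (c x.1) (u x.1) s) :
      X ⊕ (Fin i × Bool) → ℕ)).Finite := hS.biUnion fun s _ => Set.finite_Iic _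
  refine h1.subset ?_
  rintro y ⟨hy1, hy2⟩
  simp only [Set.mem_iUnion]
  refine ⟨fun x => y (Sum.inl x), hy1, ?_⟩
  rintro (x | ⟨q, b⟩)
  · exact le_rfl
  · show y (Sum.inr (q, b)) ≤ wt (c q) (u q) (fun x => y (Sum.inl x))
    rw [← hy2 q]
    cases b <;> omega

theorem good_univ (r : ℕ) : Good (Set.univ : Set (Fin r → ℕ)) := by
  classical
  have haff : ∀ m : Fin r → ℕ, aff (fun _ => 0) (fun j : Fin r => (Pi.single j 1 : Fin r → ℕ)) m = m := by
    intro m
    funext x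
    unfold aff
    rw [zero_add, Finset.sum_eq_single x]
    · simp
    · intro j _ hj
      have : x ≠ j := fun h => hj h.symm
      simp [this]
    · intro h
      exact absurd (Finset.mem_univ _) h
  have h1 := Good.add r (fun _ => 0) (fun j : Fin r => (Pi.single j 1 : Fin r → ℕ)) ∅
    (by intro m m' h; rwa [haff, haff] at h) (Set.disjoint_empty _) Good.empty
  have h2 : (Set.univ : Set (Fin r → ℕ)) =
      Set.range (aff (fun _ => 0) (fun j : Fin r => (Pi.single j 1 : Fin r → ℕ))) ∪ ∅ := by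
    rw [Set.union_empty, eq_comm, Set.range_eq_univ]
    intro m
    exact ⟨m, haff m⟩
  rw [h2]
  exact h1

end IDb

open IDb in
theorem prDb : StDb := by
  classical
  intro hDa hR2 r i γ u w w' hu
  have hgood : Good (RG γ u w w') := hDa _ i _ _ _ (hDa _ i _ _ _ (good_univ r))
  have hpos : ∀ j, 1 ≤ ∑ z, u j z := by
    intro j
    by_contra h
    have h0 : ∑ z, u j z = 0 := by omega
    apply hu j
    funext z
    exact (Finset.sum_eq_zero_iff.1 h0) z (Finset.mem_univ _)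
  have hfin : ∀ n, {y | y ∈ RG γ u w w' ∧ wt (∑ z, γ z) (dW u) y = n}.Finite := by
    intro n
    have h1 : {m : Fin r → ℕ | ∀ j, m j ≤ n}.Finite := by
      have : {m : Fin r → ℕ | ∀ j, m j ≤ n} = Set.Iic (fun _ => n) := rfl
      rw [this]
      exact Set.finite_Iic _
    have h2 := fin_ext2 _ (fun q => γ (Sum.inr (w⁻¹ (w' q))) + 1)
      (fun q => Sum.elim (fun j => u j (Sum.inr (w⁻¹ (w' q))))
        (fun x => if x = (w⁻¹ (w' q), true) then 1 else 0))
      (fin_ext2 _ (fun q => γ (Sum.inl q)) (fun q j => u j (Sum.inl q)) h1)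
    refine h2.subset ?_
    rintro y ⟨⟨⟨_, hy2⟩, hy1⟩, hw⟩
    refine ⟨⟨fun j => ?_, hy2⟩, hy1⟩
    have h3 : dW u (Sum.inl (Sum.inl j)) * y (Sum.inl (Sum.inl j)) ≤ ∑ x, dW u x * y x :=
      Finset.single_le_sum (f := fun x => dW u x * y x) (fun _ _ => Nat.zero_le _)
        (Finset.mem_univ (Sum.inl (Sum.inl j)))
    have h4 : dW u (Sum.inl (Sum.inl j)) = ∑ z, u j z := rfl
    have h5 : (∑ z, γ z) + ∑ x, dW u x * y x = n := hw
    rw [h4] at h3
    have h6 := Nat.le_mul_of_pos_left (y (Sum.inl (Sum.inl j))) (hpos j)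
    show y (Sum.inl (Sum.inl j)) ≤ n
    omega
  refine ⟨?_, hfin⟩
  exact hR2 _ (RG γ u w w') (∑ z, γ z) (dW u) 0 (sD r i) (Fin i ⊕ Fin i) (eQ i) (dQ r i) hgood hfin

end Pool.Agent.Work.MP_6da7fa_al.EG
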