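import Pool.Agent.Work.MP_6da7fa_al.EG.StmtsD

set_option autoImplicit false

namespace Pool.Agent.Work.MP_6da7fa_al.EG

theorem prDc : StDc := by
  intro a b
  induction b generalizing a with
  | zero =>
    simp only [gg, zero_add, Finset.sum_range_one, pow_zero, add_zero, Nat.factorial_succ,
      Nat.factorial_zero, Nat.cast_one, mul_one, Nat.sub_zero, Nat.cast_zero, Nat.cast_mul,
      Nat.cast_add]
    ring_nf
  | succ b ih =>
    rw [Finset.sum_range_succ']
    have h1 : ∑ k ∈ Finset.range (b + 1), (-1 : ℚ) ^ (k + 1) /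
        (((a + 1 + (k + 1)).factorial : ℚ) * ((b + 1 - (k + 1)).factorial : ℚ)) =
        - ∑ j ∈ Finset.range (b + 1), (-1 : ℚ) ^ j /
          ((((a + 1) + 1 + j).factorial : ℚ) * ((b - j).factorial : ℚ)) := by
      rw [← Finset.sum_neg_distrib]
      refine Finset.sum_congr rfl fun k _ => ?_
      have e1 : a + 1 + (k + 1) = (a + 1) + 1 + k := by ring
      have e2 : b + 1 - (k + 1) = b - k := by omega
      rw [e1, e2, pow_succ]
      ring
    rw [h1, ih (a + 1)]
    simp only [gg, pow_zero, add_zero, Nat.sub_zero, Nat.factorial_succ, Nat.cast_mul, Nat.cast_add,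
      Nat.cast_one]
    have h2 : (a.factorial : ℚ) ≠ 0 := by exact_mod_cast a.factorial_ne_zero
    have h3 : (b.factorial : ℚ) ≠ 0 := by exact_mod_cast b.factorial_ne_zero
    have h4 : ((a : ℚ) + 1) ≠ 0 := by positivity
    have h5 : ((b : ℚ) + 1) ≠ 0 := by positivity
    have h6 : ((a : ℚ) + 1 + b + 1) ≠ 0 := by positivity
    have h7 : ((a : ℚ) + (b + 1) + 1) ≠ 0 := by positivity
    field_simp
    ring

end Pool.Agent.Work.MP_6da7fa_al.EG
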