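import Pool.Agent.Work.MP_6da7fa_al.EG.StmtsD

set_option autoImplicit false

/-!
# Item Dd: the coefficients of the series of a region
-/

namespace Pool.Agent.Work.MP_6da7fa_al.EG

open Equiv
open Pool.Agent.Work.MP_6da7fa_al.MB (wt ev gs FibFin cone)

private theorem Dd_memRG {r i : ℕ} (γ : ZZ i → ℕ) (u : Fin r → ZZ i → ℕ) (w w' : Perm (Fin i))
    (y : XD r i → ℕ) : y ∈ RG γ u w w' ↔
    (∀ q, y (Sum.inl (Sum.inr (q, false))) + y (Sum.inl (Sum.inr (q, true))) + 1 =
      aff γ u (fun j => y (Sum.inl (Sum.inl j))) (Sum.inl q)) ∧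
    ∀ q, y (Sum.inr (q, false)) + y (Sum.inr (q, true)) =
      aff γ u (fun j => y (Sum.inl (Sum.inl j))) (Sum.inr (w⁻¹ (w' q))) +
        y (Sum.inl (Sum.inr (w⁻¹ (w' q), true))) := by
  have h1 : ∀ q, wt (γ (Sum.inl q)) (fun j => u j (Sum.inl q)) (fun j => y (Sum.inl (Sum.inl j))) =
      aff γ u (fun j => y (Sum.inl (Sum.inl j))) (Sum.inl q) := by
    intro q
    unfold wt aff
    congr 1
    exact Finset.sum_congr rfl fun j _ => mul_comm _ _
  have h2 : ∀ q, wt (γ (Sum.inr (w⁻¹ (w' q))) + 1)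
      (Sum.elim (fun j => u j (Sum.inr (w⁻¹ (w' q))))
        (fun x => if x = (w⁻¹ (w' q), true) then 1 else 0)) (fun x => y (Sum.inl x)) =
      aff γ u (fun j => y (Sum.inl (Sum.inl j))) (Sum.inr (w⁻¹ (w' q))) +
        y (Sum.inl (Sum.inr (w⁻¹ (w' q), true))) + 1 := by
    intro q
    unfold wt aff
    rw [Fintype.sum_sum_type]
    simp only [Sum.elim_inl, Sum.elim_inr, ite_mul, one_mul, zero_mul, Finset.sum_ite_eq',
      Finset.mem_univ, if_true]
    have : ∑ j, u j (Sum.inr (w⁻¹ (w' q))) * y (Sum.inl (Sum.inl j)) =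
        ∑ j, y (Sum.inl (Sum.inl j)) * u j (Sum.inr (w⁻¹ (w' q))) :=
      Finset.sum_congr rfl fun j _ => mul_comm _ _
    omega
  unfold RG ext2
  simp only [Set.mem_ofPred_eq, Set.mem_univ, true_and]
  constructor
  · rintro ⟨ha, hb⟩
    refine ⟨fun q => ?_, fun q => ?_⟩
    · rw [← h1]; exact ha q
    · have := hb q
      rw [h2] at this
      omega
  · rintro ⟨ha, hb⟩
    refine ⟨fun q => ?_, fun q => ?_⟩
    · rw [h1]; exact ha q
    · have := hb q
      rw [h2]
      omega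

private theorem Dd_wt {r i : ℕ} (γ : ZZ i → ℕ) (u : Fin r → ZZ i → ℕ) (y : XD r i → ℕ) :
    wt (∑ z, γ z) (dW u) y = ∑ z, aff γ u (fun j => y (Sum.inl (Sum.inl j))) z := by
  unfold wt aff dW
  rw [Finset.sum_add_distrib]
  congr 1
  rw [Finset.sum_comm]
  have h : ∀ F : XD r i → ℕ, ∑ x, F x = (∑ j, F (Sum.inl (Sum.inl j)) +
      ∑ x, F (Sum.inl (Sum.inr x))) + ∑ x, F (Sum.inr x) := by
    intro F
    rw [Fintype.sum_sum_type, Fintype.sum_sum_type]
  rw [h]
  simp only [Sum.elim_inl, Sum.elim_inr, zero_mul, Finset.sum_const_zero, add_zero]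
  refine Finset.sum_congr rfl fun j _ => ?_
  rw [Finset.sum_mul]
  exact Finset.sum_congr rfl fun z _ => mul_comm _ _

private theorem Dd_hterm {r i : ℕ} (y : XD r i → ℕ) :
    hterm 0 (sD r i) (eQ i) (dQ r i) y =
      (∏ q, (-1 : ℂ) ^ (y (Sum.inl (Sum.inr (q, true))))) *
      ∏ q, (-1 : ℂ) ^ (y (Sum.inr (q, false))) /
        (((y (Sum.inl (Sum.inr (q, false))) + 1 + y (Sum.inr (q, false))).factorial : ℂ) *
          ((y (Sum.inr (q, true))).factorial : ℂ)) := by
  have h0 : wt 0 (sD r i) y = ∑ q, y (Sum.inl (Sum.inr (q, true))) + ∑ q, y (Sum.inr (q, false)) := by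
    unfold wt sD
    rw [Fintype.sum_sum_type, Fintype.sum_sum_type, Fintype.sum_prod_type, Fintype.sum_prod_type]
    simp
  have h1 : ∀ q : Fin i, wt (eQ i (Sum.inl q)) (dQ r i (Sum.inl q)) y =
      y (Sum.inl (Sum.inr (q, false))) + 1 + y (Sum.inr (q, false)) := by
    intro q
    unfold wt eQ dQ
    rw [Fintype.sum_sum_type, Fintype.sum_sum_type]
    simp only [Sum.elim_inl, Sum.elim_inr, zero_mul, Finset.sum_const_zero, zero_add, ite_mul,
      one_mul, Finset.sum_ite_eq', Finset.mem_univ, if_true]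
    omega
  have h2 : ∀ q : Fin i, wt (eQ i (Sum.inr q)) (dQ r i (Sum.inr q)) y = y (Sum.inr (q, true)) := by
    intro q
    unfold wt eQ dQ
    rw [Fintype.sum_sum_type, Fintype.sum_sum_type]
    simp only [Sum.elim_inl, Sum.elim_inr, zero_mul, Finset.sum_const_zero, zero_add, ite_mul,
      one_mul, Finset.sum_ite_eq', Finset.mem_univ, if_true]
  unfold hterm
  rw [h0, Fintype.prod_sum_type]
  simp only [h1, h2]
  rw [pow_add, Finset.prod_pow_eq_pow_sum, Finset.prod_div_distrib, Finset.prod_pow_eq_pow_sum,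
    Finset.prod_mul_distrib, Finset.prod_inv_distrib, Finset.prod_inv_distrib]
  rw [div_eq_mul_inv, mul_inv]
  ring

/-- The points of `ℕ^r` with `∑ aff = n` form a finite set. -/
private theorem Dd_fin {r i : ℕ} (γ : ZZ i → ℕ) (u : Fin r → ZZ i → ℕ) (hu : ∀ j, u j ≠ 0) (n : ℕ) :
    {m : Fin r → ℕ | ∑ z, aff γ u m z = n}.Finite := by
  refine Set.Finite.subset (Set.Finite.pi' (fun _ : Fin r => Set.finite_Iic n)) ?_
  intro m hm j
  have hm' : ∑ z, aff γ u m z = n := hm
  obtain ⟨z, hz⟩ := Function.ne_iff.mp (hu j)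
  have hz' : 1 ≤ u j z := Nat.one_le_iff_ne_zero.mpr hz
  have h1 : m j * u j z ≤ ∑ j, m j * u j z :=
    Finset.single_le_sum (f := fun j => m j * u j z) (fun _ _ => Nat.zero_le _) (Finset.mem_univ j)
  have h2 : aff γ u m z ≤ ∑ z, aff γ u m z :=
    Finset.single_le_sum (f := fun z => aff γ u m z) (fun _ _ => Nat.zero_le _) (Finset.mem_univ z)
  have h3 : m j ≤ m j * u j z := Nat.le_mul_of_pos_right _ hz'
  unfold aff at h2
  show m j ≤ n
  unfold aff at hm'
  omega

/-- The sum over types as a sum over the points. -/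
private theorem Dd_types {r i n : ℕ} (γ : ZZ i → ℕ) (u : Fin r → ZZ i → ℕ) (MS : Finset (Fin r → ℕ))
    (hMS : ∀ m, m ∈ MS ↔ ∑ z, aff γ u m z = n) (F : (ZZ i → ℕ) → ℚ) :
    ∑ t ∈ TT (ZZ i) n, F t * (Nat.card {m : Fin r → ℕ // aff γ u m = t} : ℚ) =
      ∑ m ∈ MS, F (aff γ u m) := by
  classical
  have hmaps : ∀ m ∈ MS, aff γ u m ∈ TT (ZZ i) n := by
    intro m hm
    unfold TT
    rw [Finset.mem_piAntidiag]
    exact ⟨(hMS m).mp hm, fun _ _ => Finset.mem_univ _⟩
  rw [← Finset.sum_fiberwise_of_maps_to hmaps]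
  refine Finset.sum_congr rfl fun t ht => ?_
  have hc : Nat.card {m : Fin r → ℕ // aff γ u m = t} = (MS.filter fun m => aff γ u m = t).card := by
    have hs : ∑ z, t z = n := by
      unfold TT at ht
      rw [Finset.mem_piAntidiag] at ht
      exact ht.1
    rw [← Nat.card_eq_finsetCard]
    refine Nat.card_congr (Equiv.subtypeEquivRight fun m => ?_)
    rw [Finset.mem_filter, hMS]
    constructor
    · intro h
      exact ⟨by rw [h]; exact hs, h⟩
    · intro h
      exact h.2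
  rw [hc]
  have : ∀ m ∈ MS.filter (fun m => aff γ u m = t), F (aff γ u m) = F t := by
    intro m hm
    rw [(Finset.mem_filter.mp hm).2]
  rw [Finset.sum_congr rfl this, Finset.sum_const, nsmul_eq_mul, mul_comm]

/-- Sums over functions to `Fin n`. -/
private theorem Dd_box {i n : ℕ} (F : (Fin i → ℕ) → ℂ) :
    ∑ a : Fin i → Fin n, F (fun q => (a q : ℕ)) =
      ∑ a ∈ Fintype.piFinset (fun _ : Fin i => Finset.range n), F a := by
  classical
  refine Finset.sum_bij' (fun a _ => fun q => (a q : ℕ))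
    (fun a ha => fun q => ⟨a q, Finset.mem_range.mp (Fintype.mem_piFinset.mp ha q)⟩) ?_ ?_ ?_ ?_ ?_
  · intro a _
    rw [Fintype.mem_piFinset]
    intro q
    exact Finset.mem_range.mpr (a q).2
  · intro a ha
    exact Finset.mem_univ _
  · intro a ha
    rfl
  · intro a ha
    rfl
  · intro a ha
    rfl

/-- The condition that all the factors `kap` are nonzero. -/
private def Dd_C {r i : ℕ} (γ : ZZ i → ℕ) (u : Fin r → ZZ i → ℕ) (w : Perm (Fin i))
    (m : Fin r → ℕ) (a b : Fin i → ℕ) : Prop :=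
  ∀ q, a q < aff γ u m (Sum.inl q) ∧
    aff γ u m (Sum.inl q) + aff γ u m (Sum.inr q) = a q + b (w q) + 1

/-- The value at a tuple. -/
private noncomputable def Dd_val {r i : ℕ} (γ : ZZ i → ℕ) (u : Fin r → ZZ i → ℕ)
    (w' : Perm (Fin i)) (m : Fin r → ℕ) (a b j : Fin i → ℕ) : ℂ :=
  (∏ q, (-1 : ℂ) ^ (aff γ u m (Sum.inl q) - a q - 1)) *
    ∏ q, (-1 : ℂ) ^ (j q) / (((a q + 1 + j q).factorial : ℂ) * ((b (w' q) - j q).factorial : ℂ))

open Classical in
private theorem Dd_kap {r i : ℕ} (γ : ZZ i → ℕ) (u : Fin r → ZZ i → ℕ) (w : Perm (Fin i))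
    (m : Fin r → ℕ) (a b : Fin i → ℕ) :
    ((∏ q, (kap (a q) (b (w q)) (aff γ u m (Sum.inl q)) (aff γ u m (Sum.inr q)) : ℚ) : ℚ) : ℂ) =
      if Dd_C γ u w m a b then ∏ q, (-1 : ℂ) ^ (aff γ u m (Sum.inl q) - a q - 1) else 0 := by
  split_ifs with h
  · push_cast
    refine Finset.prod_congr rfl fun q _ => ?_
    unfold kap
    rw [if_pos (h q)]
    push_cast
    rfl
  · unfold Dd_C at h
    push Not at h
    obtain ⟨q, hq⟩ := h
    have h0 : kap (a q) (b (w q)) (aff γ u m (Sum.inl q)) (aff γ u m (Sum.inr q)) = 0 := by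
      unfold kap
      rw [if_neg]
      rintro ⟨h1, h2⟩
      exact hq h1 h2
    have : (∏ q, (kap (a q) (b (w q)) (aff γ u m (Sum.inl q)) (aff γ u m (Sum.inr q)) : ℚ)) = 0 :=
      Finset.prod_eq_zero (Finset.mem_univ q) (by rw [h0]; norm_num)
    rw [this]
    norm_num

private theorem Dd_gg (hDc : StDc) {i : ℕ} (w' : Perm (Fin i)) (a b : Fin i → ℕ) :
    ((∏ q, gg (a q) (b (w' q)) : ℚ) : ℂ) =
      ∑ j ∈ Fintype.piFinset (fun q => Finset.range (b (w' q) + 1)),
        ∏ q, (-1 : ℂ) ^ (j q) / (((a q + 1 + j q).factorial : ℂ) * ((b (w' q) - j q).factorial : ℂ)) := by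
  rw [← Finset.prod_univ_sum (fun q => Finset.range (b (w' q) + 1))
    (fun q j => (-1 : ℂ) ^ j / (((a q + 1 + j).factorial : ℂ) * ((b (w' q) - j).factorial : ℂ)))]
  push_cast
  refine Finset.prod_congr rfl fun q _ => ?_
  rw [← hDc]
  push_cast
  rfl

theorem prDd : StDd := by
  classical
  intro hDc hfin r i n γ u w w' hu
  have hMS : ∀ m, m ∈ (Dd_fin γ u hu n).toFinset ↔ ∑ z, aff γ u m z = n := fun m =>
    Set.Finite.mem_toFinset _
  generalize (Dd_fin γ u hu n).toFinset = MS at hMS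
  have hY : ∀ y, y ∈ (hfin r i γ u w w' hu n).toFinset ↔
      (y ∈ RG γ u w w' ∧ wt (∑ z, γ z) (dW u) y = n) := fun y => Set.Finite.mem_toFinset _
  generalize (hfin r i γ u w w' hu n).toFinset = Y at hY
  -- the left side
  have hL : PowerSeries.coeff n (GS γ u w w') = ∑ y ∈ Y, hterm 0 (sD r i) (eQ i) (dQ r i) y := by
    unfold GS gs
    rw [PowerSeries.coeff_mk]
    have h1 : (∑ᶠ (y : XD r i → ℕ) (_ : y ∈ {y | wt (∑ z, γ z) (dW u) y = n}),
        (if y ∈ RG γ u w w' then hterm 0 (sD r i) (eQ i) (dQ r i) y else 0)) =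
        ∑ y ∈ Y, (if y ∈ RG γ u w w' then hterm 0 (sD r i) (eQ i) (dQ r i) y else 0) := by
      refine finsum_mem_eq_sum_of_inter_support_eq _ ?_
      ext y
      simp only [Set.mem_inter_iff, Finset.mem_coe, hY]
      constructor
      · rintro ⟨h1, h2⟩
        have h3 : y ∈ RG γ u w w' := by
          by_contra h3
          exact h2 (if_neg h3)
        exact ⟨⟨h3, h1⟩, h2⟩
      · rintro ⟨⟨_, h1⟩, h2⟩
        exact ⟨h1, h2⟩
    refine h1.trans ?_
    refine Finset.sum_congr rfl fun y hy => ?_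
    rw [if_pos ((hY y).mp hy).1]
  -- the right side
  have hCsz : ∀ m ∈ MS, ∀ a b : Fin i → ℕ, Dd_C γ u w m a b → sz a b = n := by
    intro m hm a b hC
    rw [← (hMS m).mp hm, Fintype.sum_sum_type, ← Finset.sum_add_distrib]
    unfold sz
    rw [Finset.sum_add_distrib, Finset.sum_add_distrib, ← Equiv.sum_comp w (fun q => b q),
      ← Finset.sum_add_distrib, ← Finset.sum_add_distrib]
    refine Finset.sum_congr rfl fun q _ => ?_
    exact (hC q).2.symm
  have hR1 : ∀ a b : Fin i → ℕ,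
      (if sz a b = n then
        (((∏ q, gg (a q) (b (w' q))) *
          ∑ t ∈ TT (ZZ i) n, (∏ q, (kap (a q) (b (w q)) (t (Sum.inl q)) (t (Sum.inr q)) : ℚ)) *
            (Nat.card {m : Fin r → ℕ // aff γ u m = t} : ℚ) : ℚ) : ℂ) else 0) =
      ∑ m ∈ MS, if Dd_C γ u w m a b then
        ∑ j ∈ Fintype.piFinset (fun q => Finset.range (b (w' q) + 1)), Dd_val γ u w' m a b j
        else 0 := by
    intro a b
    rw [Dd_types γ u MS hMS
      (fun t => ∏ q, (kap (a q) (b (w q)) (t (Sum.inl q)) (t (Sum.inr q)) : ℚ))]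
    have h2 : (((∏ q, gg (a q) (b (w' q))) * ∑ m ∈ MS,
        ∏ q, (kap (a q) (b (w q)) (aff γ u m (Sum.inl q)) (aff γ u m (Sum.inr q)) : ℚ) : ℚ) : ℂ) =
        ∑ m ∈ MS, if Dd_C γ u w m a b then
        ∑ j ∈ Fintype.piFinset (fun q => Finset.range (b (w' q) + 1)), Dd_val γ u w' m a b j
        else 0 := by
      rw [Rat.cast_mul, Rat.cast_sum, Dd_gg hDc, Finset.mul_sum]
      refine Finset.sum_congr rfl fun m _ => ?_
      rw [Dd_kap]
      split_ifs with h
      · rw [Finset.sum_mul]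
        refine Finset.sum_congr rfl fun j _ => ?_
        unfold Dd_val
        rw [mul_comm]
      · rw [mul_zero]
    rw [h2]
    split_ifs with hs
    · rfl
    · symm
      refine Finset.sum_eq_zero fun m hm => ?_
      rw [if_neg]
      intro hC
      exact hs (hCsz m hm a b hC)
  have hR : (∑ a : Fin i → Fin n, ∑ b : Fin i → Fin n,
      if sz (fun q => (a q : ℕ)) (fun q => (b q : ℕ)) = n then
        (((∏ q, gg (a q) (b (w' q))) *
          ∑ t ∈ TT (ZZ i) n, (∏ q, (kap (a q) (b (w q)) (t (Sum.inl q)) (t (Sum.inr q)) : ℚ)) *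
            (Nat.card {m : Fin r → ℕ // aff γ u m = t} : ℚ) : ℚ) : ℂ) else 0) =
      ∑ x ∈ ((MS ×ˢ (Fintype.piFinset (fun _ : Fin i => Finset.range n) ×ˢ
          Fintype.piFinset (fun _ : Fin i => Finset.range n))).filter
            (fun p => Dd_C γ u w p.1 p.2.1 p.2.2)).sigma
          (fun p => Fintype.piFinset (fun q => Finset.range (p.2.2 (w' q) + 1))),
        Dd_val γ u w' x.1.1 x.1.2.1 x.1.2.2 x.2 := by
    rw [Finset.sum_sigma, Finset.sum_filter, Finset.sum_product]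
    simp only [Finset.sum_product]
    conv_rhs => rw [Finset.sum_comm]
    have h3 : ∀ (a : Fin i → Fin n),
        (∑ b : Fin i → Fin n, if sz (fun q => (a q : ℕ)) (fun q => (b q : ℕ)) = n then
        (((∏ q, gg (a q) (b (w' q))) *
          ∑ t ∈ TT (ZZ i) n, (∏ q, (kap (a q) (b (w q)) (t (Sum.inl q)) (t (Sum.inr q)) : ℚ)) *
            (Nat.card {m : Fin r → ℕ // aff γ u m = t} : ℚ) : ℚ) : ℂ) else 0) =
        (fun a' : Fin i → ℕ => ∑ b ∈ Fintype.piFinset (fun _ : Fin i => Finset.range n),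
          ∑ m ∈ MS, if Dd_C γ u w m a' b then
            ∑ j ∈ Fintype.piFinset (fun q => Finset.range (b (w' q) + 1)), Dd_val γ u w' m a' b j
            else 0) (fun q => (a q : ℕ)) := by
      intro a
      have := Dd_box (n := n) (fun b : Fin i → ℕ => ∑ m ∈ MS,
        if Dd_C γ u w m (fun q => (a q : ℕ)) b then
            ∑ j ∈ Fintype.piFinset (fun q => Finset.range (b (w' q) + 1)),
              Dd_val γ u w' m (fun q => (a q : ℕ)) b j
            else 0)
      refine Eq.trans ?_ this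
      refine Finset.sum_congr rfl fun b _ => ?_
      exact hR1 (fun q => (a q : ℕ)) (fun q => (b q : ℕ))
    refine (Finset.sum_congr rfl fun a _ => h3 a).trans ?_
    refine (Dd_box (n := n) (fun a' : Fin i → ℕ =>
      ∑ b ∈ Fintype.piFinset (fun _ : Fin i => Finset.range n),
          ∑ m ∈ MS, if Dd_C γ u w m a' b then
            ∑ j ∈ Fintype.piFinset (fun q => Finset.range (b (w' q) + 1)), Dd_val γ u w' m a' b j
            else 0)).trans ?_
    refine Finset.sum_congr rfl fun a _ => ?_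
    rw [Finset.sum_comm]
  rw [hL, hR]
  -- the bijection
  have hwi : ∀ q, w (w⁻¹ q) = q := fun q => w.apply_symm_apply q
  have hwi' : ∀ q, w⁻¹ (w q) = q := fun q => w.symm_apply_apply q
  have hlt : ∀ m ∈ MS, ∀ a b : Fin i → ℕ, Dd_C γ u w m a b → (∀ q, a q < n) ∧ ∀ q, b q < n := by
    intro m hm a b hC
    have hs : ∀ q, aff γ u m (Sum.inl q) + aff γ u m (Sum.inr q) ≤ n := by
      intro q
      rw [← (hMS m).mp hm, Fintype.sum_sum_type, ← Finset.sum_add_distrib]
      exact Finset.single_le_sum (f := fun q => aff γ u m (Sum.inl q) + aff γ u m (Sum.inr q))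
        (fun _ _ => Nat.zero_le _) (Finset.mem_univ q)
    refine ⟨fun q => ?_, fun q => ?_⟩
    · have := hC q
      have := hs q
      omega
    · have h1 := hC (w⁻¹ q)
      have h2 := hs (w⁻¹ q)
      rw [hwi] at h1
      omega
  refine Finset.sum_bij' (i := fun y _ => (⟨(fun j => y (Sum.inl (Sum.inl j)),
      (fun q => y (Sum.inl (Sum.inr (q, false))),
        fun q => aff γ u (fun j => y (Sum.inl (Sum.inl j))) (Sum.inr (w⁻¹ q)) +
          y (Sum.inl (Sum.inr (w⁻¹ q, true))))), fun q => y (Sum.inr (q, false))⟩ :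
            Σ _ : (Fin r → ℕ) × ((Fin i → ℕ) × (Fin i → ℕ)), (Fin i → ℕ)))
    (j := fun x _ => Sum.elim (Sum.elim x.1.1 (fun z => if z.2 = true then
      aff γ u x.1.1 (Sum.inl z.1) - x.1.2.1 z.1 - 1 else x.1.2.1 z.1))
        (fun z => if z.2 = true then x.1.2.2 (w' z.1) - x.2 z.1 else x.2 z.1)) ?_ ?_ ?_ ?_ ?_
  · intro y hy
    obtain ⟨h1, h2⟩ := (hY y).mp hy
    rw [Dd_wt] at h2
    obtain ⟨h3, h4⟩ := (Dd_memRG γ u w w' y).mp h1
    have hm : (fun j => y (Sum.inl (Sum.inl j))) ∈ MS := (hMS _).mpr h2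
    have hC : Dd_C γ u w (fun j => y (Sum.inl (Sum.inl j)))
        (fun q => y (Sum.inl (Sum.inr (q, false))))
        (fun q => aff γ u (fun j => y (Sum.inl (Sum.inl j))) (Sum.inr (w⁻¹ q)) +
          y (Sum.inl (Sum.inr (w⁻¹ q, true)))) := by
      intro q
      have := h3 q
      simp only [hwi']
      omega
    obtain ⟨ha, hb⟩ := hlt _ hm _ _ hC
    rw [Finset.mem_sigma, Finset.mem_filter, Finset.mem_product, Finset.mem_product,
      Fintype.mem_piFinset, Fintype.mem_piFinset, Fintype.mem_piFinset]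
    refine ⟨⟨⟨hm, ⟨fun q => Finset.mem_range.mpr (ha q), fun q => Finset.mem_range.mpr (hb q)⟩⟩,
      hC⟩, fun q => ?_⟩
    rw [Finset.mem_range]
    have := h4 q
    show y (Sum.inr (q, false)) < aff γ u (fun j => y (Sum.inl (Sum.inl j))) (Sum.inr (w⁻¹ (w' q))) +
          y (Sum.inl (Sum.inr (w⁻¹ (w' q), true))) + 1
    omega
  · intro x hx
    rw [Finset.mem_sigma, Finset.mem_filter, Finset.mem_product, Finset.mem_product,
      Fintype.mem_piFinset, Fintype.mem_piFinset, Fintype.mem_piFinset] at hx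
    obtain ⟨⟨⟨hm, ha, hb⟩, hC⟩, hj⟩ := hx
    rw [hY, Dd_wt, Dd_memRG]
    simp only [Sum.elim_inl, Sum.elim_inr, if_true]
    refine ⟨⟨fun q => ?_, fun q => ?_⟩, (hMS _).mp hm⟩
    · have := (hC q).1
      simp only [Bool.false_eq_true, if_false]
      show x.1.2.1 q + (aff γ u x.1.1 (Sum.inl q) - x.1.2.1 q - 1) + 1 = aff γ u x.1.1 (Sum.inl q)
      omega
    · have h1 := hC (w⁻¹ (w' q))
      have h2 := Finset.mem_range.mp (hj q)
      rw [hwi] at h1
      simp only [Bool.false_eq_true, if_false]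
      show x.2 q + (x.1.2.2 (w' q) - x.2 q) = aff γ u x.1.1 (Sum.inr (w⁻¹ (w' q))) +
        (aff γ u x.1.1 (Sum.inl (w⁻¹ (w' q))) - x.1.2.1 (w⁻¹ (w' q)) - 1)
      omega
  · intro y hy
    obtain ⟨h1, h2⟩ := (hY y).mp hy
    obtain ⟨h3, h4⟩ := (Dd_memRG γ u w w' y).mp h1
    funext z
    rcases z with (z | ⟨q, c⟩) | ⟨q, c⟩
    · rfl
    · have := h3 q
      cases c
      · simp
      · simp only [Sum.elim_inl, Sum.elim_inr, if_true]
        show aff γ u (fun j => y (Sum.inl (Sum.inl j))) (Sum.inl q) -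
          y (Sum.inl (Sum.inr (q, false))) - 1 = y (Sum.inl (Sum.inr (q, true)))
        omega
    · have := h4 q
      cases c
      · simp
      · simp only [Sum.elim_inr, if_true]
        show aff γ u (fun j => y (Sum.inl (Sum.inl j))) (Sum.inr (w⁻¹ (w' q))) +
          y (Sum.inl (Sum.inr (w⁻¹ (w' q), true))) - y (Sum.inr (q, false)) = y (Sum.inr (q, true))
        omega
  · intro x hx
    rw [Finset.mem_sigma, Finset.mem_filter, Finset.mem_product, Finset.mem_product,
      Fintype.mem_piFinset, Fintype.mem_piFinset, Fintype.mem_piFinset] at hx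
    obtain ⟨⟨⟨hm, ha, hb⟩, hC⟩, hj⟩ := hx
    obtain ⟨⟨m, a, b⟩, j⟩ := x
    simp only [Sum.elim_inl, Sum.elim_inr, if_true, Bool.false_eq_true, if_false]
    congr 1
    · congr 1
      congr 1
      funext q
      have h1 := hC (w⁻¹ q)
      rw [hwi] at h1
      have h2 : a (w⁻¹ q) < aff γ u m (Sum.inl (w⁻¹ q)) := h1.1
      have h3 : aff γ u m (Sum.inl (w⁻¹ q)) + aff γ u m (Sum.inr (w⁻¹ q)) = a (w⁻¹ q) + b q + 1 := h1.2
      show aff γ u m (Sum.inr (w⁻¹ q)) + (aff γ u m (Sum.inl (w⁻¹ q)) - a (w⁻¹ q) - 1) = b q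
      omega
  · intro y hy
    obtain ⟨h1, h2⟩ := (hY y).mp hy
    obtain ⟨h3, h4⟩ := (Dd_memRG γ u w w' y).mp h1
    rw [Dd_hterm]
    unfold Dd_val
    congr 1
    · refine Finset.prod_congr rfl fun q _ => ?_
      have := h3 q
      congr 1
      show y (Sum.inl (Sum.inr (q, true))) = aff γ u (fun j => y (Sum.inl (Sum.inl j))) (Sum.inl q) -
          y (Sum.inl (Sum.inr (q, false))) - 1
      omega
    · refine Finset.prod_congr rfl fun q _ => ?_
      have := h4 q
      have h5 : aff γ u (fun j => y (Sum.inl (Sum.inl j))) (Sum.inr (w⁻¹ (w' q))) +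
          y (Sum.inl (Sum.inr (w⁻¹ (w' q), true))) - y (Sum.inr (q, false)) =
          y (Sum.inr (q, true)) := by omega
      simp only [h5]

end Pool.Agent.Work.MP_6da7fa_al.EG
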