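import Pool.Agent.Work.MP_6da7fa_al.EG.StmtsV

set_option autoImplicit false

/-!
# Theorem EG, item De: decomposition into irreducible characters
-/

namespace Pool.Agent.Work.MP_6da7fa_al.EG

open Equiv

/-- The trace of a map which preserves two complementary subspaces. -/
theorem De_trace {V : Type} [AddCommGroup V] [Module ℂ V] [FiniteDimensional ℂ V]
    (p q : Submodule ℂ V) (h : IsCompl p q) (f : V →ₗ[ℂ] V) (hp : ∀ x ∈ p, f x ∈ p)
    (hq : ∀ x ∈ q, f x ∈ q) :
    LinearMap.trace ℂ V f =
      LinearMap.trace ℂ p (f.restrict hp) + LinearMap.trace ℂ q (f.restrict hq) := by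
  rw [← LinearMap.trace_prodMap', ← LinearMap.trace_conj' _ (Submodule.prodEquivOfIsCompl p q h)]
  congr 1
  refine LinearMap.ext fun v => ?_
  obtain ⟨⟨a, b⟩, rfl⟩ := (Submodule.prodEquivOfIsCompl p q h).surjective v
  rw [LinearEquiv.conj_apply_apply, LinearEquiv.symm_apply_apply]
  simp

/-- The first formula. -/
theorem De_ex {α : Type} [Fintype α] [DecidableEq α] (I : IrrSys α) :
    ∀ (d : ℕ) (V : Type) [AddCommGroup V] [Module ℂ V] [FiniteDimensional ℂ V]
    (ρ : Representation ℂ (Perm α) V), Module.finrank ℂ V = d →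
    ∃ m : I.ι → ℕ, ∀ s, ρ.character s = ∑ j, (m j : ℂ) * (I.ρ j).character s := by
  intro d
  induction d using Nat.strong_induction_on with
  | _ d ih =>
    intro V _ _ _ ρ hd
    by_cases h0 : d = 0
    · refine ⟨fun _ => 0, fun s => ?_⟩
      have hs : Subsingleton V := Module.finrank_zero_iff.1 (hd.trans h0)
      have h1 : ρ s = 0 := LinearMap.ext fun v => Subsingleton.elim _ _
      rw [Representation.character, h1, map_zero]
      simp
    · have hnt : Nontrivial V := Module.nontrivial_of_finrank_pos (R := ℂ) (by omega)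
      by_cases hirr : ρ.IsIrreducible
      · classical
        obtain ⟨i, hi⟩ := I.compl V ρ hirr
        refine ⟨fun j => if j = i then 1 else 0, fun s => ?_⟩
        rw [hi]
        simp
      · have hnt' : Nontrivial (Subrepresentation ρ) := by
          refine ⟨⊥, ⊤, fun h => ?_⟩
          have h1 : (⊥ : Submodule ℂ V) = ⊤ := congrArg Subrepresentation.toSubmodule h
          exact bot_ne_top h1
        obtain ⟨U, hU0, hU1⟩ : ∃ U : Subrepresentation ρ, U ≠ ⊥ ∧ U ≠ ⊤ := by
          by_contra hne
          push Not at hne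
          refine hirr ⟨fun U => ?_⟩
          by_cases h : U = ⊥
          · exact Or.inl h
          · exact Or.inr (hne U h)
        have hne : NeZero (Nat.card (Perm α) : ℂ) := ⟨Nat.cast_ne_zero.2 Nat.card_pos.ne'⟩
        obtain ⟨U', hU'⟩ := exists_isCompl U
        have hc : IsCompl U.toSubmodule U'.toSubmodule := by
          refine ⟨disjoint_iff.2 ?_, codisjoint_iff.2 ?_⟩
          · exact congrArg Subrepresentation.toSubmodule hU'.inf_eq_bot
          · exact congrArg Subrepresentation.toSubmodule hU'.sup_eq_top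
        have hUt : U.toSubmodule ≠ ⊤ := fun h =>
          hU1 (Subrepresentation.toSubmodule_injective h)
        have hU't : U'.toSubmodule ≠ ⊤ := by
          intro h
          apply hU0
          apply Subrepresentation.toSubmodule_injective
          have h1 := hc.inf_eq_bot
          rw [h, inf_top_eq] at h1
          exact h1
        obtain ⟨m₁, hm₁⟩ := ih _ (by rw [← hd]; exact Submodule.finrank_lt hUt)
          U.toSubmodule U.toRepresentation rfl
        obtain ⟨m₂, hm₂⟩ := ih _ (by rw [← hd]; exact Submodule.finrank_lt hU't)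
          U'.toSubmodule U'.toRepresentation rfl
        refine ⟨fun j => m₁ j + m₂ j, fun s => ?_⟩
        have h1 : ρ.character s = U.toRepresentation.character s +
            U'.toRepresentation.character s :=
          De_trace _ _ hc (ρ s) (U.apply_mem_toSubmodule s) (U'.apply_mem_toSubmodule s)
        rw [h1, hm₁, hm₂, ← Finset.sum_add_distrib]
        refine Finset.sum_congr rfl fun j _ => ?_
        push_cast
        ring

theorem prDe : StDe := by
  intro hRe hOr α V _ _ _ _ _ I ρ
  classical
  obtain ⟨m, hm⟩ := De_ex I _ V ρ rfl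
  have h2 : ∀ j, (m j : ℂ) = (Fintype.card (Perm α) : ℂ)⁻¹ *
      ∑ s, ρ.character s * (I.ρ j).character s := by
    intro j
    have e1 : ∑ s, ρ.character s * (I.ρ j).character s =
        ∑ i, (m i : ℂ) * ∑ s, (I.ρ i).character s * (I.ρ j).character s := by
      simp only [hm, Finset.sum_mul, Finset.mul_sum]
      rw [Finset.sum_comm]
      refine Finset.sum_congr rfl fun i _ => Finset.sum_congr rfl fun s _ => ?_
      ring
    rw [e1, Finset.mul_sum]
    have e2 : ∀ i, (Fintype.card (Perm α) : ℂ)⁻¹ * ((m i : ℂ) *
        ∑ s, (I.ρ i).character s * (I.ρ j).character s) = if i = j then (m i : ℂ) else 0 := by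
      intro i
      have h := hOr α I i j
      calc (Fintype.card (Perm α) : ℂ)⁻¹ * ((m i : ℂ) *
          ∑ s, (I.ρ i).character s * (I.ρ j).character s)
          = (m i : ℂ) * ((Fintype.card (Perm α) : ℂ)⁻¹ *
            ∑ s, (I.ρ i).character s * (I.ρ j).character s) := by ring
        _ = (m i : ℂ) * (if i = j then 1 else 0) := by rw [h]
        _ = if i = j then (m i : ℂ) else 0 := by split_ifs <;> simp
    rw [Finset.sum_congr rfl fun i _ => e2 i]
    simp
  refine ⟨m, hm, fun j => ⟨h2 j, ?_⟩⟩
  have hinv : Invertible (Nat.card (Perm α) : ℂ) :=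
    invertibleOfNonzero (Nat.cast_ne_zero.2 Nat.card_pos.ne')
  have h3 := Representation.card_inv_mul_sum_char_mul_char_eq_finrank ρ (I.ρ j)
  have h4 : (m j : ℂ) = (Module.finrank ℂ (Representation.IntertwiningMap ρ (I.ρ j)) : ℂ) := by
    rw [← h3, h2 j, Nat.card_eq_fintype_card]
    congr 1
    refine Finset.sum_congr rfl fun s _ => ?_
    rw [hRe α V ρ s, mul_comm]
  have h5 : m j = Module.finrank ℂ (Representation.IntertwiningMap ρ (I.ρ j)) :=
    Nat.cast_injective h4
  rw [h5]
  constructor
  · intro h6
    have h7 : Nontrivial (Representation.IntertwiningMap ρ (I.ρ j)) :=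
      Module.nontrivial_of_finrank_pos (R := ℂ) (Nat.pos_of_ne_zero h6)
    obtain ⟨f, hf⟩ := exists_ne (0 : Representation.IntertwiningMap ρ (I.ρ j))
    refine ⟨f.toLinearMap, fun h => hf ?_, fun s v => ?_⟩
    · exact Representation.IntertwiningMap.toLinearMap_injective ρ (I.ρ j) h
    · exact LinearMap.congr_fun (f.isIntertwining' s) v
  · rintro ⟨f, hf, hfe⟩ h6
    have h7 : Subsingleton (Representation.IntertwiningMap ρ (I.ρ j)) :=
      Module.finrank_zero_iff.1 h6
    have h8 := Subsingleton.elim (f.intertwiningMap_of_isIntertwiningMap ρ (I.ρ j) hfe) 0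
    exact hf (congrArg Representation.IntertwiningMap.toLinearMap h8)

end Pool.Agent.Work.MP_6da7fa_al.EG
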