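import Pool.Agent.Work.MP_6da7fa_al.EG.StmtsD

set_option autoImplicit false

/-!
# Theorem EG, item Df: the core theorem
-/

namespace Pool.Agent.Work.MP_6da7fa_al.EG

open Equiv
open Pool.Agent.Work.MP_6da7fa_al.MB (wt ev gs FibFin cone)

/-- The inner sum. -/
private noncomputable def Df_Y {i r : ℕ} (γ : ZZ i → ℕ) (u : Fin r → ZZ i → ℕ) (n : ℕ)
    (a b : Fin i → ℕ) (w : Perm (Fin i)) : ℚ :=
  ∑ t ∈ TT (ZZ i) n, (∏ q, (kap (a q) (b (w q)) (t (Sum.inl q)) (t (Sum.inr q)) : ℚ)) *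
    (Nat.card {m : Fin r → ℕ // aff γ u m = t} : ℚ)

/-- The rational coefficient of the series of the region. -/
private noncomputable def Df_X {i r : ℕ} (γ : ZZ i → ℕ) (u : Fin r → ZZ i → ℕ) (n : ℕ)
    (w w' : Perm (Fin i)) : ℚ :=
  ∑ a : Fin i → Fin n, ∑ b : Fin i → Fin n,
    if sz (fun q => (a q : ℕ)) (fun q => (b q : ℕ)) = n then
      (∏ q, gg (a q) (b (w' q))) *
        Df_Y γ u n (fun q => (a q : ℕ)) (fun q => (b q : ℕ)) w else 0

private theorem Df_coeff (hDd : ConDd) {i r : ℕ} (γ : ZZ i → ℕ) (u : Fin r → ZZ i → ℕ) (n : ℕ)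
    (w w' : Perm (Fin i)) (hu : ∀ j, u j ≠ 0) :
    PowerSeries.coeff n (GS γ u w w') = ((Df_X γ u n w w' : ℚ) : ℂ) := by
  rw [hDd r i n γ u w w' hu]
  unfold Df_X
  rw [Rat.cast_sum]
  refine Finset.sum_congr rfl fun a _ => ?_
  rw [Rat.cast_sum]
  refine Finset.sum_congr rfl fun b _ => ?_
  split_ifs
  · rfl
  · rw [Rat.cast_zero]

private theorem Df_det {i : ℕ} (a b : Fin i → ℕ) :
    Matrix.det (Matrix.of fun q r => gg (a q) (b r)) =
      ∑ w' : Perm (Fin i), ((Perm.sign w' : ℤ) : ℚ) * ∏ q, gg (a q) (b (w' q)) := by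
  rw [← Matrix.det_transpose, Matrix.det_apply']
  rfl

private theorem Df_mm {n i : ℕ} {V : Type} [AddCommGroup V] [Module ℂ V]
    (ρ : Representation ℂ (Perm (Fin n)) V) (ι : Type) [Fintype ι] (r : ι → ℕ)
    (γ : ι → ZZ i → ℕ) (u : ∀ C, Fin (r C) → ZZ i → ℕ)
    (h : ∀ t ∈ TT (ZZ i) n, hT (par i) ρ t =
      ∑ C, Nat.card {m : Fin (r C) → ℕ // aff (γ C) (u C) m = t}) (a b : Fin i → ℕ) :
    ((mm ρ a b : ℤ) : ℚ) =
      ∑ C, ∑ w : Perm (Fin i), ((Perm.sign w : ℤ) : ℚ) * Df_Y (γ C) (u C) n a b w := by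
  have h1 : ((mm ρ a b : ℤ) : ℚ) = ∑ t ∈ TT (ZZ i) n, ∑ C, ∑ w : Perm (Fin i),
      ((Perm.sign w : ℤ) : ℚ) *
        ((∏ q, (kap (a q) (b (w q)) (t (Sum.inl q)) (t (Sum.inr q)) : ℚ)) *
          (Nat.card {m : Fin (r C) → ℕ // aff (γ C) (u C) m = t} : ℚ)) := by
    unfold mm
    rw [Fintype.card_fin, Int.cast_sum]
    refine Finset.sum_congr rfl fun t ht => ?_
    rw [h t ht]
    unfold KK
    push_cast
    rw [Finset.mul_sum]
    refine Finset.sum_congr rfl fun C _ => ?_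
    rw [Finset.sum_mul]
    refine Finset.sum_congr rfl fun w _ => ?_
    ring
  rw [h1, Finset.sum_comm]
  refine Finset.sum_congr rfl fun C _ => ?_
  rw [Finset.sum_comm]
  refine Finset.sum_congr rfl fun w _ => ?_
  unfold Df_Y
  rw [Finset.mul_sum]

private theorem Df_comm {α β γ δ : Type*} [Fintype α] [Fintype β] [Fintype γ] [Fintype δ]
    (F : α → β → γ → δ → ℚ) :
    ∑ a, ∑ b, ∑ c, ∑ d, F a b c d = ∑ b, ∑ c, ∑ d, ∑ a, F a b c d := by
  rw [Finset.sum_comm]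
  refine Finset.sum_congr rfl fun b _ => ?_
  rw [Finset.sum_comm]
  refine Finset.sum_congr rfl fun c _ => ?_
  rw [Finset.sum_comm]

private theorem Df_i {n i : ℕ} {V : Type} [AddCommGroup V] [Module ℂ V]
    (ρ : Representation ℂ (Perm (Fin n)) V) (ι : Type) [Fintype ι] (r : ι → ℕ)
    (γ : ι → ZZ i → ℕ) (u : ∀ C, Fin (r C) → ZZ i → ℕ)
    (h : ∀ t ∈ TT (ZZ i) n, hT (par i) ρ t =
      ∑ C, Nat.card {m : Fin (r C) → ℕ // aff (γ C) (u C) m = t}) :
    ∑ a : Fin i → Fin n, ∑ b : Fin i → Fin n,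
      (if sz (fun q => (a q : ℕ)) (fun q => (b q : ℕ)) = n then
        fd (fun q => (a q : ℕ)) (fun q => (b q : ℕ)) *
          (mm ρ (fun q => (a q : ℕ)) (fun q => (b q : ℕ)) : ℚ) else 0) =
    (n.factorial : ℚ) * ∑ C, ∑ w : Perm (Fin i), ∑ w' : Perm (Fin i),
      (((Perm.sign w : ℤ) : ℚ) * ((Perm.sign w' : ℤ) : ℚ)) * Df_X (γ C) (u C) n w w' := by
  have h1 : ∀ (a b : Fin i → Fin n),
      (if sz (fun q => (a q : ℕ)) (fun q => (b q : ℕ)) = n then
        fd (fun q => (a q : ℕ)) (fun q => (b q : ℕ)) *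
          (mm ρ (fun q => (a q : ℕ)) (fun q => (b q : ℕ)) : ℚ) else 0) =
      ∑ C, ∑ w : Perm (Fin i), ∑ w' : Perm (Fin i), (n.factorial : ℚ) *
        ((((Perm.sign w : ℤ) : ℚ) * ((Perm.sign w' : ℤ) : ℚ)) *
          (if sz (fun q => (a q : ℕ)) (fun q => (b q : ℕ)) = n then
            (∏ q, gg (a q) (b (w' q))) *
              Df_Y (γ C) (u C) n (fun q => (a q : ℕ)) (fun q => (b q : ℕ)) w else 0)) := by
    intro a b
    by_cases hsz : sz (fun q => (a q : ℕ)) (fun q => (b q : ℕ)) = n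
    · simp only [if_pos hsz]
      unfold fd
      rw [hsz, Df_det, Df_mm ρ ι r γ u h, mul_assoc, Finset.mul_sum, Finset.mul_sum]
      refine Finset.sum_congr rfl fun C _ => ?_
      rw [Finset.mul_sum, Finset.mul_sum]
      refine Finset.sum_congr rfl fun w _ => ?_
      rw [Finset.sum_mul, Finset.mul_sum]
      refine Finset.sum_congr rfl fun w' _ => ?_
      ring
    · simp only [if_neg hsz, mul_zero, Finset.sum_const_zero]
  rw [Finset.sum_congr rfl fun a _ => Finset.sum_congr rfl fun b _ => h1 a b,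
    Finset.sum_congr rfl fun a _ => Df_comm _, Df_comm, Finset.mul_sum]
  refine Finset.sum_congr rfl fun C _ => ?_
  rw [Finset.mul_sum]
  refine Finset.sum_congr rfl fun w _ => ?_
  rw [Finset.mul_sum]
  refine Finset.sum_congr rfl fun w' _ => ?_
  unfold Df_X
  rw [Finset.mul_sum, Finset.mul_sum]
  refine Finset.sum_congr rfl fun a _ => ?_
  rw [Finset.mul_sum, Finset.mul_sum]

theorem prDf : StDf := by
  intro hBb hHS hDd hDb hDe A _ _ R M _ _ S hR hS hfin k hB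
  have H : ∀ i : ℕ, HSf (fun t : ZZ i → ℕ => hT (par i) (rp S.seq (∑ z, t z)) t) :=
    fun i => hHS A R M S hR hS hfin (ZZ i) (par i)
  unfold HSf at H
  choose ι hι r γ u hu hcard using H
  have hmain : hilb M = ∑ i ∈ Finset.range (k + 1), ((1 / (i.factorial : ℂ) ^ 2)) •
      ∑ C : ι i, ∑ w : Perm (Fin i), ∑ w' : Perm (Fin i),
        (((Perm.sign w : ℤ) : ℂ) * ((Perm.sign w' : ℤ) : ℂ)) • GS (γ i C) (u i C) w w' := by
    ext n
    have h1 := hBb (Fin n) (M n) (rp S.seq n) k (hB n)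
    rw [Fintype.card_fin] at h1
    have h2 : ∀ i : ℕ, ∀ t ∈ TT (ZZ i) n, hT (par i) (rp S.seq n) t =
        ∑ C, Nat.card {m : Fin (r i C) → ℕ // aff (γ i C) (u i C) m = t} := by
      intro i t ht
      have h3 : ∑ z, t z = n := (Finset.mem_piAntidiag.1 ht).1
      subst h3
      exact hcard i t
    rw [Finset.sum_congr rfl fun i _ => by rw [Df_i (rp S.seq n) (ι i) (r i) (γ i) (u i) (h2 i)]]
      at h1
    have hn : (n.factorial : ℚ) ≠ 0 := by exact_mod_cast n.factorial_ne_zero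
    have h4 : (Module.finrank ℂ (M n) : ℚ) / (n.factorial : ℚ) =
        ∑ i ∈ Finset.range (k + 1), (1 / (i.factorial : ℚ) ^ 2) *
          ∑ C, ∑ w : Perm (Fin i), ∑ w' : Perm (Fin i),
            (((Perm.sign w : ℤ) : ℚ) * ((Perm.sign w' : ℤ) : ℚ)) *
              Df_X (γ i C) (u i C) n w w' := by
      rw [h1, Finset.sum_div]
      refine Finset.sum_congr rfl fun i _ => ?_
      rw [mul_left_comm, mul_div_assoc, mul_comm, div_mul_cancel₀ _ hn]
    unfold hilb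
    rw [PowerSeries.coeff_mk, map_sum]
    have h5 : (Module.finrank ℂ (M n) : ℂ) / (n.factorial : ℂ) =
        (((Module.finrank ℂ (M n) : ℚ) / (n.factorial : ℚ) : ℚ) : ℂ) := by
      push_cast
      rfl
    rw [h5, h4, Rat.cast_sum]
    refine Finset.sum_congr rfl fun i _ => ?_
    rw [PowerSeries.coeff_smul, map_sum, Rat.cast_mul, Rat.cast_sum, smul_eq_mul]
    congr 1
    · push_cast
      rfl
    · refine Finset.sum_congr rfl fun C _ => ?_
      rw [map_sum, Rat.cast_sum]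
      refine Finset.sum_congr rfl fun w _ => ?_
      rw [map_sum, Rat.cast_sum]
      refine Finset.sum_congr rfl fun w' _ => ?_
      rw [PowerSeries.coeff_smul, Df_coeff hDd (γ i C) (u i C) n w w' (hu i C), Rat.cast_mul,
        Rat.cast_mul, smul_eq_mul, Rat.cast_intCast, Rat.cast_intCast]
  rw [hmain]
  refine hDe.2 _ _ _ fun i _ => hDe.1 _ _ (hDe.2 _ _ _ fun C _ => hDe.2 _ _ _ fun w _ =>
    hDe.2 _ _ _ fun w' _ => hDe.1 _ _ (hDb _ _ _ _ _ _ (hu i C)))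

end Pool.Agent.Work.MP_6da7fa_al.EG
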