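import Pool.Agent.Work.MP_6da7fa_al.EG.StmtsD

set_option autoImplicit false

/-!
# Theorem EG: assembly (item Dg)
-/

namespace Pool.Agent.Work.MP_6da7fa_al.EG

theorem prDg : StDg := by
  intro hGi hCore hGj A _ _ R M _ _ S hR hS hfin
  obtain ⟨e, he, hK⟩ := hGi A R M S hR hS hfin
  have he0 : (0 : ℝ) < (e : ℝ) := by exact_mod_cast he
  refine ⟨1 / (4 * (e : ℝ)), by positivity, ?_⟩
  rintro ⟨n0, hn⟩
  have hd : ∃ n0 : ℕ, ∀ n : ℕ, n0 ≤ n →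
      ((Module.finrank ℂ (M n) : ℕ) : ℝ) ≤ (n : ℝ) ^ ((n : ℝ) / (4 * (e : ℝ))) := by
    refine ⟨n0, fun n h => ?_⟩
    have h1 : (n : ℝ) / (4 * (e : ℝ)) = 1 / (4 * (e : ℝ)) * (n : ℝ) := by ring
    rw [h1]
    exact hn n h
  obtain ⟨K, hK'⟩ := hGj (fun n => Module.finrank ℂ (M n)) e he hd
  exact hCore A R M S hR hS hfin (e * K) (hK K hK')

end Pool.Agent.Work.MP_6da7fa_al.EG
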