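import Pool.Agent.Work.MP_6da7fa_al.EG.StmtsV

set_option autoImplicit false

/-!
# Theorem EG, item Di: the sum with the dimensions
-/

namespace Pool.Agent.Work.MP_6da7fa_al.EG

open Equiv

private theorem Di_sg_one {α Z : Type} [Fintype α] [LinearOrder α] (p : Z → Bool) (c : α → Z) :
    sg p c 1 = 1 := by
  unfold sg
  refine Finset.prod_eq_one fun x _ => ?_
  rw [if_neg]
  rintro ⟨h1, -, -, h2⟩
  exact lt_asymm h1 h2

private theorem Di_SI {α V : Type} [Fintype α] [LinearOrder α] [AddCommGroup V] [Module ℂ V]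
    (p : α → Bool) (ρ : Representation ℂ (Perm α) V) : SI p ρ (id : α → α) = ⊤ := by
  rw [eq_top_iff]
  intro v _ σ hσ
  have h1 : σ = 1 := by
    ext x
    exact congrFun hσ x
  rw [h1, Di_sg_one, map_one]
  simp

private theorem Di_card {α Z : Type} [Fintype α] [LinearOrder α] [Fintype Z] [DecidableEq Z]
    (c : α → Z) : (Finset.univ.filter fun σ : Perm α => c ∘ σ = c).card =
      ∏ z, (typ c z).factorial := by
  rw [← Fintype.card_subtype, DomMulAct.stabilizer_card]
  refine Finset.prod_congr rfl fun z _ => ?_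
  rw [Fintype.card_subtype]
  rfl

theorem prDi : StDi := by
  intro hHt hMa α Z _ _ _ _ I p t ht
  obtain ⟨c, rfl⟩ := (hHt.2.2 α Z t).1 ht
  have hma := hMa α Z α I p (fun _ => false) c id
  have h1 : ∀ j, hn (fun _ : α => false) (I.ρ j) (id : α → α) = I.d j := by
    intro j
    rw [hn, Di_SI, finrank_top, Module.finrank_fin_fun]
  have h2 : (Finset.univ.filter fun σ : Perm α => (id : α → α) ∘ σ = id) = {1} := by
    ext σ
    rw [Finset.mem_filter, Finset.mem_singleton]
    constructor
    · rintro ⟨-, h⟩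
      ext x
      exact congrFun h x
    · rintro rfl
      exact ⟨Finset.mem_univ _, rfl⟩
  have h3 : ∀ g : Perm α, (Finset.univ.filter fun s : Perm α =>
      c ∘ s = c ∧ ((id : α → α) ∘ ⇑g⁻¹) ∘ s = id ∘ ⇑g⁻¹) = {1} := by
    intro g
    ext s
    rw [Finset.mem_filter, Finset.mem_singleton]
    constructor
    · rintro ⟨-, -, h⟩
      ext x
      exact g⁻¹.injective (congrFun h x)
    · rintro rfl
      exact ⟨Finset.mem_univ _, rfl, rfl⟩
  rw [h2] at hma
  simp only [h1, h3, Finset.sum_singleton, Di_sg_one, Finset.card_singleton, mul_one,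
    Int.cast_one, Nat.cast_one, inv_one, Finset.sum_const, Finset.card_univ, Fintype.card_perm,
    nsmul_eq_mul, Di_card] at hma
  have h4 : ((∑ j, (hT p (I.ρ j) (typ c) : ℚ) * (I.d j : ℚ) : ℚ) : ℂ) =
      ((((Fintype.card α).factorial : ℚ) / ∏ z, ((typ c z).factorial : ℚ) : ℚ) : ℂ) := by
    push_cast
    simp only [hHt.1]
    rw [hma]
    push_cast
    rw [div_eq_mul_inv, mul_comm]
  exact_mod_cast h4

end Pool.Agent.Work.MP_6da7fa_al.EG
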