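import Pool.Agent.Work.MP_6da7fa_al.EG.StmtsS

set_option autoImplicit false

namespace Pool.Agent.Work.MP_6da7fa_al.EG

open Equiv

/-- the alternating sum -/
noncomputable def Dm_T (a b : ℕ) : ℚ :=
  ∑ j ∈ Finset.range (b + 1), (-1) ^ j / (((a + 1 + j).factorial : ℚ) * ((b - j).factorial : ℚ))

theorem Dm_Tstep (a b : ℕ) : Dm_T a (b + 1) =
    1 / (((a + 1).factorial : ℚ) * ((b + 1).factorial : ℚ)) - Dm_T (a + 1) b := by
  unfold Dm_T
  rw [Finset.sum_range_succ']
  have h1 : ∀ j : ℕ, (-1 : ℚ) ^ (j + 1) / (((a + 1 + (j + 1)).factorial : ℚ) *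
      ((b + 1 - (j + 1)).factorial : ℚ)) =
      - ((-1) ^ j / (((a + 1 + 1 + j).factorial : ℚ) * ((b - j).factorial : ℚ))) := by
    intro j
    rw [show a + 1 + 1 + j = a + 1 + (j + 1) by ring, show b + 1 - (j + 1) = b - j by omega, pow_succ]
    ring
  simp only [h1, Finset.sum_neg_distrib]
  simp only [pow_zero, add_zero, Nat.sub_zero]
  ring

theorem Dm_ggstep (a b : ℕ) : gg a (b + 1) =
    1 / (((a + 1).factorial : ℚ) * ((b + 1).factorial : ℚ)) - gg (a + 1) b := by
  unfold gg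
  have h1 : (a.factorial : ℚ) ≠ 0 := by exact_mod_cast Nat.factorial_ne_zero a
  have h2 : (b.factorial : ℚ) ≠ 0 := by exact_mod_cast Nat.factorial_ne_zero b
  have h3 : (a : ℚ) + 1 ≠ 0 := by positivity
  have h4 : (b : ℚ) + 1 ≠ 0 := by positivity
  have h5 : (a : ℚ) + b + 2 ≠ 0 := by positivity
  rw [Nat.factorial_succ, Nat.factorial_succ]
  push_cast
  rw [show (a : ℚ) + (b + 1) + 1 = a + b + 2 by ring, show (a : ℚ) + 1 + b + 1 = a + b + 2 by ring]
  field_simp
  ring

theorem Dm_T_eq (b : ℕ) : ∀ a, Dm_T a b = gg a b := by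
  induction b with
  | zero =>
    intro a
    unfold Dm_T gg
    have h1 : (a.factorial : ℚ) ≠ 0 := by exact_mod_cast Nat.factorial_ne_zero a
    have h3 : (a : ℚ) + 1 ≠ 0 := by positivity
    simp [Nat.factorial_succ]
    field_simp
  | succ b ih =>
    intro a
    rw [Dm_Tstep, Dm_ggstep, ih]

theorem Dm_anti (a b : ℕ) : ∑ x ∈ Finset.HasAntidiagonal.antidiagonal (a + b + 1),
    (kap a b x.1 x.2 : ℚ) / ((x.1.factorial : ℚ) * (x.2.factorial : ℚ)) = gg a b := by
  rw [← Dm_T_eq]
  rw [Finset.Nat.sum_antidiagonal_eq_sum_range_succ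
    (fun α β => (kap a b α β : ℚ) / ((α.factorial : ℚ) * (β.factorial : ℚ)))]
  rw [show (a + b + 1).succ = (a + 1) + (b + 1) by simp; ring, Finset.sum_range_add]
  rw [Finset.sum_eq_zero, zero_add]
  · unfold Dm_T
    refine Finset.sum_congr rfl fun j hj => ?_
    rw [Finset.mem_range] at hj
    unfold kap
    rw [if_pos (by constructor <;> omega)]
    rw [show a + 1 + j - a - 1 = j by omega, show a + b + 1 - (a + 1 + j) = b - j by omega]
    push_cast
    rfl
  · intro k hk
    rw [Finset.mem_range] at hk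
    unfold kap
    rw [if_neg (by omega)]
    simp

theorem Dm_expand {i : ℕ} (g : Fin i → ℕ → ℕ → ℚ) (n : Fin i → ℕ)
    (hg : ∀ q α β, g q α β ≠ 0 → α + β = n q) :
    ∑ t ∈ TT (ZZ i) (∑ q, n q), ∏ q, g q (t (Sum.inl q)) (t (Sum.inr q)) =
      ∏ q, ∑ x ∈ Finset.HasAntidiagonal.antidiagonal (n q), g q x.1 x.2 := by
  classical
  have hTT : ∀ t : ZZ i → ℕ, t ∈ TT (ZZ i) (∑ q, n q) ↔
      ∑ q, (t (Sum.inl q) + t (Sum.inr q)) = ∑ q, n q := by
    intro t
    unfold TT
    rw [Finset.mem_piAntidiag]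
    simp [Finset.sum_add_distrib]
  rw [Finset.prod_univ_sum]
  rw [← Finset.sum_filter_of_ne (p := fun t : ZZ i → ℕ => ∀ q, t (Sum.inl q) + t (Sum.inr q) = n q)]
  · refine Finset.sum_bij' (fun t _ => fun q => (t (Sum.inl q), t (Sum.inr q)))
      (fun x _ => Sum.elim (fun q => (x q).1) (fun q => (x q).2)) ?_ ?_ ?_ ?_ ?_
    · intro t ht
      rw [Finset.mem_filter] at ht
      rw [Fintype.mem_piFinset]
      intro q
      rw [Finset.HasAntidiagonal.mem_antidiagonal]
      exact ht.2 q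
    · intro x hx
      rw [Fintype.mem_piFinset] at hx
      have hx' : ∀ q, (x q).1 + (x q).2 = n q := fun q => Finset.HasAntidiagonal.mem_antidiagonal.1 (hx q)
      rw [Finset.mem_filter, hTT]
      refine ⟨?_, ?_⟩
      · refine Finset.sum_congr rfl fun q _ => ?_
        simpa using hx' q
      · intro q
        simpa using hx' q
    · intro t _
      funext z
      rcases z with z | z <;> rfl
    · intro x _
      rfl
    · intro t _
      rfl
  · intro t _ hne q
    have h1 := Finset.prod_ne_zero_iff.1 hne q (Finset.mem_univ q)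
    exact hg q _ _ h1

theorem prDm : StDm := by
  intro i a b
  rw [← Matrix.det_transpose, Matrix.det_apply']
  unfold KK
  have h1 : ∀ t : ZZ i → ℕ, ((∑ w : Perm (Fin i), (Perm.sign w : ℤ) *
        ∏ q, kap (a q) (b (w q)) (t (Sum.inl q)) (t (Sum.inr q)) : ℤ) : ℚ) /
        ∏ z, ((t z).factorial : ℚ) =
      ∑ w : Perm (Fin i), ((Perm.sign w : ℤ) : ℚ) *
        ∏ q, ((kap (a q) (b (w q)) (t (Sum.inl q)) (t (Sum.inr q)) : ℚ) /
          (((t (Sum.inl q)).factorial : ℚ) * ((t (Sum.inr q)).factorial : ℚ))) := by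
    intro t
    push_cast
    rw [Finset.sum_div]
    refine Finset.sum_congr rfl fun w _ => ?_
    rw [Finset.prod_div_distrib, Finset.prod_mul_distrib, Fintype.prod_sum_type, mul_div_assoc]
  simp only [h1]
  rw [Finset.sum_comm]
  refine Finset.sum_congr rfl fun w _ => ?_
  rw [← Finset.mul_sum]
  congr 1
  have hsz : sz a b = ∑ q, (a q + b (w q) + 1) := by
    unfold sz
    simp only [Finset.sum_add_distrib]
    rw [Equiv.sum_comp w b]
  rw [hsz]
  have h2 := Dm_expand (fun q α β => (kap (a q) (b (w q)) α β : ℚ) / ((α.factorial : ℚ) * (β.factorial : ℚ)))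
    (fun q => a q + b (w q) + 1) (by
      intro q α β hne
      by_contra hc
      apply hne
      unfold kap
      rw [if_neg (fun h => hc h.2)]
      simp)
  rw [h2]
  refine Finset.prod_congr rfl fun q _ => ?_
  simp only [Matrix.transpose_apply, Matrix.of_apply]
  exact Dm_anti (a q) (b (w q))

end Pool.Agent.Work.MP_6da7fa_al.EG
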