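import Pool.Agent.Work.MP_6da7fa_al.EG.StmtsS

set_option autoImplicit false

/-!
# Theorem EG, item Dn: the polynomial `DD k` does not vanish at `y_r = - x_q`
-/

namespace Pool.Agent.Work.MP_6da7fa_al.EG

open Equiv MvPolynomial

/-- The substitution `y_s := - x_(π⁻¹ s)`. -/
private noncomputable def Dn_phi {k : ℕ} (π : Perm (Fin k)) :
    MvPolynomial (ZZ k) ℤ →ₐ[ℤ] MvPolynomial (ZZ k) ℤ :=
  aeval (Sum.elim (fun s => X (Sum.inl s)) (fun s => - X (Sum.inl (π.symm s))))

private theorem Dn_phi_inl {k : ℕ} (π : Perm (Fin k)) (s : Fin k) :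
    Dn_phi π (X (Sum.inl s)) = X (Sum.inl s) := by
  unfold Dn_phi
  rw [aeval_X]
  rfl

private theorem Dn_phi_inr {k : ℕ} (π : Perm (Fin k)) (s : Fin k) :
    Dn_phi π (X (Sum.inr s)) = - X (Sum.inl (π.symm s)) := by
  unfold Dn_phi
  rw [aeval_X]
  rfl

private theorem Dn_phi_sub {k : ℕ} (π : Perm (Fin k)) (q r : Fin k) (h : π q = r)
    (F : MvPolynomial (ZZ k) ℤ) : Dn_phi π (sub q r F) = Dn_phi π F := by
  have h1 : (Dn_phi π).comp (sub q r) = Dn_phi π := by
    apply MvPolynomial.algHom_ext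
    intro i
    rw [AlgHom.comp_apply, sub, aeval_X]
    by_cases hi : i = Sum.inr r
    · rw [if_pos hi, hi, map_neg, Dn_phi_inl, Dn_phi_inr, ← h, Equiv.symm_apply_apply]
    · rw [if_neg hi]
  exact DFunLike.congr_fun h1 F

private theorem Dn_ne {k : ℕ} (π : Perm (Fin k)) : Dn_phi π (DD k) ≠ 0 := by
  have h1 : Dn_phi π (DD k) = ((Perm.sign π : ℤˣ) : ℤ) •
      ∏ x ∈ Finset.univ.filter (fun x : Fin k × Fin k => x.2 ≠ π x.1),
        (X (Sum.inl x.1) - X (Sum.inl (π.symm x.2)) : MvPolynomial (ZZ k) ℤ) := by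
    unfold DD
    rw [map_sum, Finset.sum_eq_single π]
    · rw [map_zsmul, map_prod]
      congr 1
      refine Finset.prod_congr rfl fun x _ => ?_
      rw [map_add, Dn_phi_inl, Dn_phi_inr, sub_eq_add_neg]
    · intro w _ hw
      obtain ⟨s, hs⟩ : ∃ s, w s ≠ π s := by
        by_contra hne
        push_neg at hne
        exact hw (Equiv.ext hne)
      rw [map_zsmul, map_prod, Finset.prod_eq_zero (i := (s, π s)), smul_zero]
      · rw [Finset.mem_filter]
        exact ⟨Finset.mem_univ _, fun h => hs h.symm⟩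
      · rw [map_add, Dn_phi_inl, Dn_phi_inr, Equiv.symm_apply_apply, add_neg_cancel]
    · intro h
      exact absurd (Finset.mem_univ _) h
  rw [h1]
  refine smul_ne_zero (Units.ne_zero _) ?_
  rw [Finset.prod_ne_zero_iff]
  intro x hx
  have hx' := (Finset.mem_filter.1 hx).2
  rw [sub_ne_zero]
  intro h
  have h2 := Sum.inl_injective (MvPolynomial.X_injective h)
  apply hx'
  rw [h2, Equiv.apply_symm_apply]

theorem prDn : StDn := by
  intro k
  refine ⟨fun q r h => ?_, fun h => ?_⟩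
  · apply Dn_ne (Equiv.swap q r)
    rw [← Dn_phi_sub (Equiv.swap q r) q r (Equiv.swap_apply_left q r), h, map_zero]
  · apply Dn_ne (1 : Perm (Fin k))
    rw [h, map_zero]

end Pool.Agent.Work.MP_6da7fa_al.EG
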