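import Pool.Agent.Work.MP_6da7fa_al.EG.StmtsS

/-!
# MP_6da7fa_al, block EG, item Dv (helper37)
-/

set_option autoImplicit false

namespace Pool.Agent.Work.MP_6da7fa_al.EG

open Equiv MvPolynomial

private theorem Dv_X {k : ℕ} (q r : Fin k) (i : ZZ k) :
    sub q r (X i) = if i = Sum.inr r then - X (Sum.inl q) else X i := by
  unfold sub
  rw [aeval_X]

private theorem Dv_dvd {k : ℕ} (q r : Fin k) (F : MvPolynomial (ZZ k) ℤ) :
    (X (Sum.inl q) + X (Sum.inr r) : MvPolynomial (ZZ k) ℤ) ∣ F - sub q r F := by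
  induction F using MvPolynomial.induction_on with
  | C a =>
    have h : sub q r (C a) = C a := by
      unfold sub
      rw [aeval_C, MvPolynomial.algebraMap_eq]
    rw [h, sub_self]
    exact dvd_zero _
  | add p p' hp hp' =>
    have h : p + p' - sub q r (p + p') = (p - sub q r p) + (p' - sub q r p') := by
      rw [map_add]
      ring
    rw [h]
    exact dvd_add hp hp'
  | mul_X p i hp =>
    have h : p * X i - sub q r (p * X i) =
        (p - sub q r p) * X i + sub q r p * (X i - sub q r (X i)) := by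
      rw [map_mul]
      ring
    rw [h]
    refine dvd_add (Dvd.dvd.mul_right hp _) (Dvd.dvd.mul_left ?_ _)
    rw [Dv_X]
    by_cases hi : i = Sum.inr r
    · rw [if_pos hi, hi, sub_neg_eq_add, add_comm]
    · rw [if_neg hi, sub_self]
      exact dvd_zero _

private theorem Dv_ne {k : ℕ} (x y : Fin k × Fin k) (h : y ≠ x) :
    sub x.1 x.2 (X (Sum.inl y.1) + X (Sum.inr y.2)) ≠ 0 := by
  rw [map_add, Dv_X, Dv_X, if_neg (by simp)]
  by_cases hr : y.2 = x.2
  · have hq : y.1 ≠ x.1 := fun h' => h (Prod.ext h' hr)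
    rw [if_pos (by rw [hr]), ← sub_eq_add_neg]
    intro h0
    have h1 := MvPolynomial.X_injective (sub_eq_zero.1 h0)
    exact hq (Sum.inl_injective h1)
  · rw [if_neg (by simpa using hr)]
    intro h0
    have h1 := congrArg (MvPolynomial.eval (fun _ => (1 : ℤ))) h0
    simp at h1

private theorem Dv_prod {k : ℕ} (F : MvPolynomial (ZZ k) ℤ)
    (hF : ∀ q r : Fin k, sub q r F = 0) (T : Finset (Fin k × Fin k)) :
    (∏ y ∈ T, (X (Sum.inl y.1) + X (Sum.inr y.2) : MvPolynomial (ZZ k) ℤ)) ∣ F := by
  classical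
  induction T using Finset.induction_on with
  | empty =>
    rw [Finset.prod_empty]
    exact one_dvd _
  | insert x T hx ih =>
    obtain ⟨G, hG⟩ := ih
    have h1 := hF x.1 x.2
    rw [hG, map_mul, map_prod] at h1
    have h2 : sub x.1 x.2 G = 0 := by
      rcases mul_eq_zero.1 h1 with h | h
      · exfalso
        revert h
        rw [imp_false, Finset.prod_eq_zero_iff]
        rintro ⟨y, hy, hy0⟩
        exact Dv_ne x y (fun h => hx (h ▸ hy)) hy0
      · exact h
    have h3 := Dv_dvd x.1 x.2 G
    rw [h2, sub_zero] at h3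
    obtain ⟨G', hG'⟩ := h3
    refine ⟨G', ?_⟩
    rw [Finset.prod_insert hx, hG, hG']
    ring

theorem prDv : StDv := by
  intro k F hF
  have h := Dv_prod F hF Finset.univ
  rw [Fintype.prod_prod_type] at h
  exact h

end Pool.Agent.Work.MP_6da7fa_al.EG
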