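import Pool.Agent.Work.MP_6da7fa_al.EG.StmtsS

set_option autoImplicit false

/-!
# Theorem EG, item F1: `h_(n+1)` and `e_(n+1)` through the inverse of the Cauchy matrix
-/

namespace Pool.Agent.Work.MP_6da7fa_al.EG

open Equiv MvPolynomial

theorem F1_unit {F : Type} [Field F] (c : F) :
    (1 - PowerSeries.C c * PowerSeries.X) * PowerSeries.mk (fun n => c ^ n) = 1 := by
  ext n
  rw [sub_mul, one_mul, mul_assoc, map_sub, PowerSeries.coeff_C_mul, PowerSeries.coeff_mk,
    PowerSeries.coeff_one]
  cases n with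
  | zero => rw [PowerSeries.coeff_zero_X_mul, mul_zero, sub_zero, pow_zero, if_pos rfl]
  | succ n =>
    rw [PowerSeries.coeff_succ_X_mul, PowerSeries.coeff_mk, if_neg (Nat.succ_ne_zero n), pow_succ']
    exact sub_self _

theorem F1_ne {F : Type} [Field F] (c : F) : (1 - PowerSeries.C c * PowerSeries.X) ≠ 0 := by
  intro h
  have h1 := F1_unit c
  rw [h, zero_mul] at h1
  exact zero_ne_one h1

/-- the determinant identity -/
theorem F1_key {F : Type} [Field F] (k : ℕ) (x y : Fin k → F) (h0 : ∀ q r, x q + y r ≠ 0)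
    (hdet : (CM x y).det ≠ 0) :
    ∏ r, (1 + PowerSeries.C (y r) * PowerSeries.X) =
      (∏ q, (1 - PowerSeries.C (x q) * PowerSeries.X)) *
        (1 + PowerSeries.X * ∑ r, ∑ q, PowerSeries.C ((CM x y)⁻¹ r q) *
          PowerSeries.mk (fun n => x q ^ n)) := by
  set t : PowerSeries F := PowerSeries.X with ht
  set u : Fin k → PowerSeries F := fun q => PowerSeries.mk (fun n => x q ^ n) with hu
  set M' : Matrix (Fin k) (Fin k) (PowerSeries F) := (CM x y).map PowerSeries.C with hM'
  set N' : Matrix (Fin k) (Fin k) (PowerSeries F) := (CM x y)⁻¹.map PowerSeries.C with hN'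
  have hMN : M' * N' = 1 := by
    rw [hM', hN', ← Matrix.map_mul, Matrix.mul_nonsing_inv _ (isUnit_iff_ne_zero.2 hdet)]
    exact Matrix.map_one _ (map_zero _) (map_one _)
  have hMd : M'.det = PowerSeries.C (CM x y).det := by
    rw [RingHom.map_det]
    rfl
  have hMd0 : M'.det ≠ 0 := by
    rw [hMd]
    intro h
    apply hdet
    have := congrArg (PowerSeries.constantCoeff (R := F)) h
    rw [PowerSeries.constantCoeff_C, map_zero] at this
    exact this
  set v : Fin k → PowerSeries F := t • N'.mulVec u with hv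
  have hMv : M'.mulVec v = t • u := by
    rw [hv, Matrix.mulVec_smul, Matrix.mulVec_mulVec, hMN, Matrix.one_mulVec]
  set T : Matrix (Fin k) (Fin k) (PowerSeries F) := Matrix.of fun r _ => v r with hT
  have hTd : (1 + T).det = 1 + ∑ r, v r := by
    have e1 : T = Matrix.replicateCol Unit v *
        Matrix.replicateRow Unit (fun _ : Fin k => (1 : PowerSeries F)) := by
      ext r s
      rw [hT, Matrix.of_apply, Matrix.mul_apply]
      simp
    rw [e1, Matrix.det_one_add_replicateCol_mul_replicateRow]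
    congr 1
    unfold dotProduct
    exact Finset.sum_congr rfl fun r _ => one_mul _
  have hid : Matrix.diagonal (fun q => 1 - PowerSeries.C (x q) * t) * (M' * (1 + T)) =
      M' * Matrix.diagonal (fun r => 1 + PowerSeries.C (y r) * t) := by
    ext1 q s
    rw [Matrix.diagonal_mul, Matrix.mul_diagonal, Matrix.mul_add, Matrix.mul_one,
      Matrix.add_apply]
    have e1 : (M' * T) q s = t * u q := by
      have e2 : (M' * T) q s = M'.mulVec v q := rfl
      rw [e2, hMv]
      rfl
    have e3 : M' q s = PowerSeries.C (x q + y s)⁻¹ := rfl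
    have e4 : M' q s * (PowerSeries.C (x q) + PowerSeries.C (y s)) = 1 := by
      rw [e3, ← map_add, ← map_mul, inv_mul_cancel₀ (h0 q s), map_one]
    have e5 : (1 - PowerSeries.C (x q) * t) * u q = 1 := F1_unit (x q)
    rw [e1, mul_add]
    calc (1 - PowerSeries.C (x q) * t) * M' q s + (1 - PowerSeries.C (x q) * t) * (t * u q) =
        M' q s - PowerSeries.C (x q) * t * M' q s + t * ((1 - PowerSeries.C (x q) * t) * u q) := by
          ring
      _ = M' q s - PowerSeries.C (x q) * t * M' q s +
          t * (M' q s * (PowerSeries.C (x q) + PowerSeries.C (y s))) := by rw [e5, e4]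
      _ = M' q s * (1 + PowerSeries.C (y s) * t) := by ring
  have hd := congrArg Matrix.det hid
  rw [Matrix.det_mul, Matrix.det_mul, Matrix.det_mul, Matrix.det_diagonal, Matrix.det_diagonal,
    hTd] at hd
  have hd2 : M'.det * ∏ r, (1 + PowerSeries.C (y r) * t) =
      M'.det * ((∏ q, (1 - PowerSeries.C (x q) * t)) * (1 + ∑ r, v r)) := by
    rw [← hd]
    ring
  rw [mul_left_cancel₀ hMd0 hd2]
  congr 2
  rw [Finset.mul_sum]
  refine Finset.sum_congr rfl fun r _ => ?_
  rw [hv]
  rfl

/-- the coefficients -/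
theorem F1_coeff {F : Type} [Field F] (k : ℕ) (x y : Fin k → F) (h0 : ∀ q r, x q + y r ≠ 0)
    (hdet : (CM x y).det ≠ 0) (h : ℕ → F)
    (hh : PowerSeries.mk h * ∏ q, (1 - PowerSeries.C (x q) * PowerSeries.X) =
      ∏ r, (1 + PowerSeries.C (y r) * PowerSeries.X)) (n : ℕ) :
    h (n + 1) = ∑ q, ∑ r, x q ^ n * (CM x y)⁻¹ r q := by
  rw [F1_key k x y h0 hdet, mul_comm] at hh
  have h1 : (∏ q, (1 - PowerSeries.C (x q) * PowerSeries.X)) ≠ 0 :=
    Finset.prod_ne_zero_iff.2 fun q _ => F1_ne (x q)
  have h2 := mul_left_cancel₀ h1 hh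
  have h3 := congrArg (PowerSeries.coeff (n + 1)) h2
  rw [PowerSeries.coeff_mk, map_add, PowerSeries.coeff_one, if_neg (Nat.succ_ne_zero n), zero_add,
    PowerSeries.coeff_succ_X_mul] at h3
  rw [h3, Finset.sum_comm, map_sum]
  refine Finset.sum_congr rfl fun q _ => ?_
  rw [map_sum]
  refine Finset.sum_congr rfl fun r _ => ?_
  rw [PowerSeries.coeff_C_mul, PowerSeries.coeff_mk, mul_comm]

/-- item F1 -/
theorem prF1 : StF1 := by
  intro hHG F _ k x y h0 hdet n
  constructor
  · refine F1_coeff k x y h0 hdet (hh (par k) (Sum.elim x y)) ?_ n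
    have h1 := hHG (ZZ k) F (par k) (Sum.elim x y)
    rw [Fintype.prod_sum_type, Fintype.prod_sum_type] at h1
    simpa [par] using h1
  · have hT : CM y x = (CM x y).transpose := by
      ext q r
      show (y q + x r)⁻¹ = (x r + y q)⁻¹
      rw [add_comm]
    have h0' : ∀ q r, y q + x r ≠ 0 := fun q r => by
      rw [add_comm]
      exact h0 r q
    have hdet' : (CM y x).det ≠ 0 := by
      rw [hT, Matrix.det_transpose]
      exact hdet
    have h2 := F1_coeff k y x h0' hdet' (hh (op (par k)) (Sum.elim x y)) (by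
      have h1 := hHG (ZZ k) F (op (par k)) (Sum.elim x y)
      rw [Fintype.prod_sum_type, Fintype.prod_sum_type] at h1
      simpa [par, op] using h1) n
    rw [h2, Finset.sum_comm]
    refine Finset.sum_congr rfl fun q _ => Finset.sum_congr rfl fun r _ => ?_
    rw [hT, ← Matrix.transpose_nonsing_inv, Matrix.transpose_apply, mul_comm]

end Pool.Agent.Work.MP_6da7fa_al.EG
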