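import Pool.Agent.Work.MP_6da7fa_al.EG.StmtsS

set_option autoImplicit false

/-!
# Theorem EG, item FM: the Cauchy determinant in the fraction field
-/

namespace Pool.Agent.Work.MP_6da7fa_al.EG

open Equiv MvPolynomial

private theorem FM_inj (k : ℕ) : Function.Injective
    (algebraMap (MvPolynomial (ZZ k) ℤ) (FractionRing (MvPolynomial (ZZ k) ℤ))) :=
  IsFractionRing.injective _ _

private theorem FM_ne (k : ℕ) (q r : Fin k) : fx k q + fy k r ≠ 0 := by
  intro h
  unfold fx fy at h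
  rw [← map_add] at h
  have h1 : (X (Sum.inl q) + X (Sum.inr r) : MvPolynomial (ZZ k) ℤ) = 0 :=
    FM_inj k (by rw [h, map_zero])
  have h2 := congrArg (MvPolynomial.coeff (Finsupp.single (Sum.inl q : ZZ k) 1)) h1
  rw [coeff_add, coeff_X, coeff_X, coeff_zero, if_pos rfl, if_neg, add_zero] at h2
  · exact one_ne_zero h2
  · intro h3
    have h4 := DFunLike.congr_fun h3 (Sum.inl q : ZZ k)
    rw [Finsupp.single_eq_same, Finsupp.single_eq_of_ne (by simp)] at h4
    exact zero_ne_one h4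

private theorem FM_prod {K : Type} [Field K] {k : ℕ} (f : Fin k × Fin k → K)
    (hf : ∀ x, f x ≠ 0) (w : Perm (Fin k)) :
    (∏ q, ∏ r, f (q, r)) * ∏ q, (f (q, w q))⁻¹ =
      ∏ x ∈ Finset.univ.filter (fun x : Fin k × Fin k => x.2 ≠ w x.1), f x := by
  have h1 : ∏ q, ∏ r, f (q, r) = ∏ x : Fin k × Fin k, f x := (Fintype.prod_prod_type f).symm
  have h2 : ∏ x : Fin k × Fin k, f x =
      (∏ x ∈ Finset.univ.filter (fun x : Fin k × Fin k => x.2 = w x.1), f x) *
      ∏ x ∈ Finset.univ.filter (fun x : Fin k × Fin k => ¬ x.2 = w x.1), f x :=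
    (Finset.prod_filter_mul_prod_filter_not _ _ _).symm
  have h3 : ∏ x ∈ Finset.univ.filter (fun x : Fin k × Fin k => x.2 = w x.1), f x =
      ∏ q, f (q, w q) := by
    rw [Finset.prod_filter, Fintype.prod_prod_type]
    refine Finset.prod_congr rfl fun q _ => ?_
    show (∏ y, if y = w q then f (q, y) else 1) = f (q, w q)
    rw [Finset.prod_ite_eq']
    simp
  have h4 : ∏ q, f (q, w q) ≠ 0 := Finset.prod_ne_zero_iff.2 fun q _ => hf _
  rw [h1, h2, h3, Finset.prod_inv_distrib, mul_comm (∏ q, f (q, w q)), mul_assoc,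
    mul_inv_cancel₀ h4, mul_one]

private theorem FM_key (k : ℕ) :
    algebraMap (MvPolynomial (ZZ k) ℤ) (FractionRing (MvPolynomial (ZZ k) ℤ)) (EE k) *
      (CM (fx k) (fy k)).det = algebraMap _ _ (DD k) := by
  have hE : algebraMap (MvPolynomial (ZZ k) ℤ) (FractionRing (MvPolynomial (ZZ k) ℤ)) (EE k) =
      ∏ q, ∏ r, (fx k q + fy k r) := by
    unfold EE fx fy
    rw [map_prod]
    refine Finset.prod_congr rfl fun q _ => ?_
    rw [map_prod]
    refine Finset.prod_congr rfl fun r _ => ?_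
    rw [map_add]
  rw [← Matrix.det_transpose, Matrix.det_apply', Finset.mul_sum]
  unfold DD
  rw [map_sum]
  refine Finset.sum_congr rfl fun w _ => ?_
  rw [map_zsmul, zsmul_eq_mul, map_prod, hE]
  have h := FM_prod (fun x : Fin k × Fin k => fx k x.1 + fy k x.2) (fun x => FM_ne k _ _) w
  have h5 : ∏ i, (CM (fx k) (fy k)).transpose (w i) i = ∏ q, (fx k q + fy k (w q))⁻¹ := rfl
  have h6 : ∏ x ∈ Finset.univ.filter (fun x : Fin k × Fin k => x.2 ≠ w x.1),
      algebraMap (MvPolynomial (ZZ k) ℤ) (FractionRing (MvPolynomial (ZZ k) ℤ))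
        (X (Sum.inl x.1) + X (Sum.inr x.2)) =
      ∏ x ∈ Finset.univ.filter (fun x : Fin k × Fin k => x.2 ≠ w x.1), (fx k x.1 + fy k x.2) :=
    Finset.prod_congr rfl fun x _ => map_add _ _ _
  rw [h5, h6, ← h, mul_left_comm]

theorem prFM : StFM := by
  intro hDn k
  refine ⟨FM_ne k, ?_, FM_key k⟩
  intro h0
  have h := FM_key k
  rw [h0, mul_zero] at h
  exact (hDn k).2 (FM_inj k (by rw [← h, map_zero]))

end Pool.Agent.Work.MP_6da7fa_al.EG
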