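import Pool.Agent.Work.MP_6da7fa_al.EG.StmtsS

set_option autoImplicit false

/-!
# Theorem EG, item Fc: a lower bound for the factorial
-/

namespace Pool.Agent.Work.MP_6da7fa_al.EG

theorem prFc : StFc := by
  intro n
  have h1 : ((n : ℝ)) ^ n / (n.factorial : ℝ) ≤ Real.exp n :=
    Real.pow_div_factorial_le_exp (n : ℝ) (Nat.cast_nonneg n) n
  have h2 : Real.exp (n : ℝ) = Real.exp 1 ^ n := by
    rw [← Real.exp_nat_mul, mul_one]
  have h3 : Real.exp 1 ^ n ≤ 3 ^ n := by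
    refine pow_le_pow_left₀ (Real.exp_pos 1).le ?_ n
    have := Real.exp_one_lt_d9
    linarith
  have hf : (0 : ℝ) < (n.factorial : ℝ) := by exact_mod_cast n.factorial_pos
  have h4 : ((n : ℝ)) ^ n ≤ 3 ^ n * (n.factorial : ℝ) := by
    rw [div_le_iff₀ hf, h2] at h1
    exact h1.trans (mul_le_mul_of_nonneg_right h3 hf.le)
  have h5 : ((n : ℚ)) ^ n ≤ 3 ^ n * (n.factorial : ℚ) := by exact_mod_cast h4
  rw [div_pow, div_le_iff₀ (by positivity)]
  linarith

end Pool.Agent.Work.MP_6da7fa_al.EG
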