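import Pool.Agent.Work.MP_6da7fa_al.EG.StmtsS

set_option autoImplicit false

/-!
# Theorem EG, item Ft: the factorisation of the hook functions
-/

namespace Pool.Agent.Work.MP_6da7fa_al.EG

open Equiv MvPolynomial

/-- the matrix identity `N diag(x) + diag(y) N = N 1 1ᵀ N` -/
theorem Ft_mat {F : Type} [Field F] (k : ℕ) (x y : Fin k → F) (h0 : ∀ q r, x q + y r ≠ 0)
    (hdet : (CM x y).det ≠ 0) (q r : Fin k) :
    (CM x y)⁻¹ r q * (x q + y r) = (∑ q', (CM x y)⁻¹ r q') * ∑ r', (CM x y)⁻¹ r' q := by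
  have hu : IsUnit (CM x y).det := isUnit_iff_ne_zero.2 hdet
  have h1 : Matrix.diagonal x * CM x y + CM x y * Matrix.diagonal y =
      (Matrix.of fun _ _ => (1 : F) : Matrix (Fin k) (Fin k) F) := by
    ext i j
    rw [Matrix.add_apply, Matrix.diagonal_mul, Matrix.mul_diagonal, Matrix.of_apply]
    have h2 : CM x y i j = (x i + y j)⁻¹ := rfl
    rw [h2, mul_comm ((x i + y j)⁻¹) (y j), ← add_mul, mul_inv_cancel₀ (h0 i j)]
  have h3 := congrArg (fun A => (CM x y)⁻¹ * A * (CM x y)⁻¹) h1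
  simp only [Matrix.mul_add, Matrix.add_mul] at h3
  rw [← Matrix.mul_assoc (CM x y)⁻¹ (CM x y) (Matrix.diagonal y),
    Matrix.nonsing_inv_mul _ hu, Matrix.one_mul, Matrix.mul_assoc (CM x y)⁻¹,
    Matrix.mul_assoc (Matrix.diagonal x), Matrix.mul_nonsing_inv _ hu, Matrix.mul_one] at h3
  have h4 := congrFun (congrFun h3 r) q
  rw [Matrix.add_apply, Matrix.mul_diagonal, Matrix.diagonal_mul, Matrix.mul_apply] at h4
  have h5 : ∀ j : Fin k, ((CM x y)⁻¹ * (Matrix.of fun _ _ => (1 : F) : Matrix (Fin k) (Fin k) F)) r j =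
      ∑ q', (CM x y)⁻¹ r q' := by
    intro j
    rw [Matrix.mul_apply]
    exact Finset.sum_congr rfl fun i _ => by rw [Matrix.of_apply, mul_one]
  simp only [h5] at h4
  rw [← Finset.mul_sum] at h4
  rw [← h4]
  ring

/-- **Ft** -/
theorem prFt : StFt := by
  intro hHG hHE hF1 F _ k x y h0 hdet
  have hF := hF1 hHG F k x y h0 hdet
  have he0 := (hHE hHG (ZZ k) F (op (par k)) (Sum.elim x y)).1
  -- the recursion of the right side
  have hG : ∀ a b : ℕ, (∑ q, ∑ r, x q ^ (a + 1) * (CM x y)⁻¹ r q * y r ^ b) +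
      (∑ q, ∑ r, x q ^ a * (CM x y)⁻¹ r q * y r ^ (b + 1)) =
      hh (par k) (Sum.elim x y) (a + 1) * hh (op (par k)) (Sum.elim x y) (b + 1) := by
    intro a b
    rw [(hF a).1, (hF b).2, Finset.sum_comm (f := fun q r => (CM x y)⁻¹ r q * y r ^ b),
      ← Finset.sum_add_distrib]
    simp only [← Finset.sum_add_distrib]
    have e1 : ∀ q r : Fin k, x q ^ (a + 1) * (CM x y)⁻¹ r q * y r ^ b +
        x q ^ a * (CM x y)⁻¹ r q * y r ^ (b + 1) =
        (∑ r', x q ^ a * (CM x y)⁻¹ r' q) * ∑ q', (CM x y)⁻¹ r q' * y r ^ b := by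
      intro q r
      rw [← Finset.mul_sum, ← Finset.sum_mul]
      calc x q ^ (a + 1) * (CM x y)⁻¹ r q * y r ^ b +
          x q ^ a * (CM x y)⁻¹ r q * y r ^ (b + 1) =
          x q ^ a * ((CM x y)⁻¹ r q * (x q + y r)) * y r ^ b := by ring
        _ = _ := by
          rw [Ft_mat k x y h0 hdet q r]
          ring
    simp only [e1]
    rw [Finset.sum_mul_sum]
  have hS : ∀ a b : ℕ, SS (par k) (Sum.elim x y) a (b + 1) =
      hh (par k) (Sum.elim x y) (a + 1) * hh (op (par k)) (Sum.elim x y) (b + 1) -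
        SS (par k) (Sum.elim x y) (a + 1) b := by
    intro a b
    unfold SS
    rw [Finset.sum_range_succ']
    have e1 : ∀ j ∈ Finset.range (b + 1),
        (-1 : F) ^ (j + 1) * hh (par k) (Sum.elim x y) (a + 1 + (j + 1)) *
          hh (op (par k)) (Sum.elim x y) (b + 1 - (j + 1)) =
        -((-1 : F) ^ j * hh (par k) (Sum.elim x y) (a + 1 + 1 + j) *
          hh (op (par k)) (Sum.elim x y) (b - j)) := by
      intro j _
      rw [show a + 1 + (j + 1) = a + 1 + 1 + j by omega,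
        show b + 1 - (j + 1) = b - j by omega, pow_succ]
      ring
    rw [Finset.sum_congr rfl e1, Finset.sum_neg_distrib, pow_zero, one_mul, Nat.sub_zero,
      Nat.add_zero]
    ring
  intro a b
  induction b generalizing a with
  | zero =>
    unfold SS
    rw [zero_add, Finset.sum_range_one, pow_zero, one_mul, Nat.add_zero, he0, mul_one, (hF a).1]
    exact Finset.sum_congr rfl fun q _ => Finset.sum_congr rfl fun r _ => by
      rw [pow_zero, mul_one]
  | succ b ih =>
    rw [hS a b, ih (a + 1), ← hG a b]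
    ring

end Pool.Agent.Work.MP_6da7fa_al.EG
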