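import Pool.Agent.Work.MP_6da7fa_al.EG.StmtsG

set_option autoImplicit false

/-!
# Theorem EG, item Ga: an equivariant projection
-/

namespace Pool.Agent.Work.MP_6da7fa_al.EG

open Equiv

/-- The extension of a swap is a swap. -/
theorem Ga_swap {α β : Type} [DecidableEq α] [DecidableEq β] (f : β ↪ α) (x y : β) :
    (swap x y).viaEmbedding f = swap (f x) (f y) := by
  refine Equiv.ext fun z => ?_
  by_cases hz : z ∈ Set.range f
  · obtain ⟨w, rfl⟩ := hz
    rw [Perm.viaEmbedding_apply]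
    by_cases h1 : w = x
    · rw [h1, swap_apply_left, swap_apply_left]
    · by_cases h2 : w = y
      · rw [h2, swap_apply_right, swap_apply_right]
      · rw [swap_apply_of_ne_of_ne h1 h2, swap_apply_of_ne_of_ne
          (fun h => h1 (f.injective h)) (fun h => h2 (f.injective h))]
  · rw [Perm.viaEmbedding_apply_of_notMem _ _ _ hz, swap_apply_of_ne_of_ne
      (fun h => hz ⟨x, h.symm⟩) (fun h => hz ⟨y, h.symm⟩)]

/-- Averaging of a projection over a finite set of operators closed under products and inverses. -/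
theorem Ga_avg {G V : Type} [Group G] [AddCommGroup V] [Module ℂ V] (ρ : Representation ℂ G V)
    (B : Submodule ℂ V) (H : Finset G) (h1 : (1 : G) ∈ H) (hmul : ∀ a ∈ H, ∀ b ∈ H, a * b ∈ H)
    (hinv : ∀ a ∈ H, a⁻¹ ∈ H) (hB : ∀ a ∈ H, ∀ v ∈ B, ρ a v ∈ B) :
    ∃ E : V →ₗ[ℂ] V, LinearMap.IsProj B E ∧ ∀ a ∈ H, ∀ v, E (ρ a v) = ρ a (E v) := by
  obtain ⟨C, hC⟩ := Submodule.exists_isCompl B
  obtain ⟨E0, hE0, hE0'⟩ : ∃ E0 : V →ₗ[ℂ] V, (∀ v, E0 v ∈ B) ∧ ∀ v ∈ B, E0 v = v := by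
    refine ⟨B.subtype ∘ₗ B.projectionOnto C hC, fun v => ?_, fun v hv => ?_⟩
    · exact (B.projectionOnto C hC v).2
    · have h := Submodule.projectionOnto_apply_left hC ⟨v, hv⟩
      have h' : B.projectionOnto C hC v = ⟨v, hv⟩ := h
      rw [LinearMap.comp_apply, h']
      rfl
  have hcard : (H.card : ℂ) ≠ 0 := Nat.cast_ne_zero.2 (Finset.card_ne_zero_of_mem h1)
  have hρ : ∀ (a b : G) (v : V), ρ a (ρ b v) = ρ (a * b) v := fun a b v => by
    rw [map_mul]; rfl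
  have hEv : ∀ v, ((H.card : ℂ)⁻¹ • ∑ a ∈ H, ρ a ∘ₗ E0 ∘ₗ ρ a⁻¹) v =
      (H.card : ℂ)⁻¹ • ∑ a ∈ H, ρ a (E0 (ρ a⁻¹ v)) := by
    intro v
    rw [LinearMap.smul_apply, LinearMap.sum_apply]
    rfl
  refine ⟨(H.card : ℂ)⁻¹ • ∑ a ∈ H, ρ a ∘ₗ E0 ∘ₗ ρ a⁻¹, ⟨fun v => ?_, fun v hv => ?_⟩, ?_⟩
  · rw [hEv]
    exact B.smul_mem _ (B.sum_mem fun a ha => hB a ha _ (hE0 _))
  · rw [hEv]
    have h2 : ∀ a ∈ H, ρ a (E0 (ρ a⁻¹ v)) = v := by
      intro a ha
      rw [hE0' _ (hB _ (hinv a ha) v hv), hρ, mul_inv_cancel, map_one]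
      rfl
    rw [Finset.sum_congr rfl h2, Finset.sum_const, ← Nat.cast_smul_eq_nsmul ℂ, smul_smul,
      inv_mul_cancel₀ hcard, one_smul]
  · intro b hb v
    rw [hEv, hEv, map_smul, map_sum]
    congr 1
    refine Finset.sum_nbij' (fun a => b⁻¹ * a) (fun a => b * a)
      (fun a ha => hmul _ (hinv b hb) _ ha) (fun a ha => hmul _ hb _ ha) (fun a _ => ?_)
      (fun a _ => ?_) (fun a _ => ?_)
    · exact mul_inv_cancel_left b a
    · exact inv_mul_cancel_left b a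
    · rw [hρ, hρ, mul_inv_cancel_left, mul_inv_rev, inv_inv]

theorem prGa : StGa := by
  intro hSw α V _ _ _ _ ρ e K pos s
  classical
  have hinv' : ∀ σ : Perm α, pos ∘ σ = pos → pos ∘ ⇑σ⁻¹ = pos := by
    intro σ hσ
    funext x
    have h := congrFun hσ (σ⁻¹ x)
    have h2 : σ (σ⁻¹ x) = x := σ.apply_symm_apply x
    rw [Function.comp_apply, h2] at h
    exact h.symm
  have key : ∀ σ : Perm α, pos ∘ σ = pos →
      ∀ v ∈ (⨆ c : {x : α // pos x = s} → ZZ K, SI (par K) (resE (pe pos s) ρ) c),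
      ρ σ v ∈ (⨆ c : {x : α // pos x = s} → ZZ K, SI (par K) (resE (pe pos s) ρ) c) := by
    intro σ hσ v hv
    have hle : (⨆ c : {x : α // pos x = s} → ZZ K, SI (par K) (resE (pe pos s) ρ) c).map (ρ σ) ≤
        ⨆ c : {x : α // pos x = s} → ZZ K, SI (par K) (resE (pe pos s) ρ) c := by
      rw [Submodule.map_iSup]
      refine iSup_le fun c => ?_
      have hp : ∀ x : {x : α // pos x = s}, pos (σ⁻¹ (x : α)) = s := fun x => by
        have h := congrFun (hinv' σ hσ) (x : α)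
        rw [Function.comp_apply] at h
        rw [h, x.2]
      refine le_trans ?_ (le_iSup (fun c : {x : α // pos x = s} → ZZ K =>
        SI (par K) (resE (pe pos s) ρ) c) (fun x => c ⟨σ⁻¹ (x : α), hp x⟩))
      rintro _ ⟨w, hw, rfl⟩
      rw [hSw]
      intro x y hxy hc
      have hw' := (hSw _ _ _ (par K) (resE (pe pos s) ρ) c w).1 hw
        ⟨σ⁻¹ (x : α), hp x⟩ ⟨σ⁻¹ (y : α), hp y⟩ (fun h => hxy (by
          have h1 := congrArg Subtype.val h
          exact Subtype.ext (σ⁻¹.injective h1))) hc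
      have e1 : ∀ (i : DecidableEq {x : α // pos x = s}) (x y : {x : α // pos x = s}),
          resE (pe pos s) ρ (@swap _ i x y) = ρ (swap (x : α) (y : α)) := by
        intro i x y
        have h := Ga_swap (pe pos s).toEmbedding x y
        have h2 : resE (pe pos s) ρ (swap x y) =
          ρ ((swap x y).viaEmbedding (pe pos s).toEmbedding) := rfl
        rw [h2, h]
        rfl
      rw [e1] at hw' ⊢
      have e2 : swap (x : α) (y : α) * σ = σ * swap (σ⁻¹ (x : α)) (σ⁻¹ (y : α)) := by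
        have h := Equiv.swap_apply_apply σ (σ⁻¹ (x : α)) (σ⁻¹ (y : α))
        have hx2 : σ (σ⁻¹ (x : α)) = x := σ.apply_symm_apply _
        have hy2 : σ (σ⁻¹ (y : α)) = y := σ.apply_symm_apply _
        rw [hx2, hy2] at h
        rw [h, inv_mul_cancel_right]
      have e3 : ρ (swap (x : α) (y : α)) (ρ σ w) = ρ (swap (x : α) (y : α) * σ) w := by
        rw [map_mul]; rfl
      have e4 : ρ (σ * swap (σ⁻¹ (x : α)) (σ⁻¹ (y : α))) w =
          ρ σ (ρ (swap (σ⁻¹ (x : α)) (σ⁻¹ (y : α))) w) := by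
        rw [map_mul]; rfl
      rw [e3, e2, e4, hw', map_smul]
    exact hle ⟨v, hv, rfl⟩
  obtain ⟨E, hE, hE'⟩ := Ga_avg ρ
    (⨆ c : {x : α // pos x = s} → ZZ K, SI (par K) (resE (pe pos s) ρ) c)
    (Finset.univ.filter fun σ : Perm α => pos ∘ σ = pos) (by simp)
    (fun a ha b hb => by
      rw [Finset.mem_filter] at ha hb ⊢
      refine ⟨Finset.mem_univ _, ?_⟩
      rw [Perm.coe_mul, ← Function.comp_assoc, ha.2, hb.2])
    (fun a ha => by
      rw [Finset.mem_filter] at ha ⊢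
      exact ⟨Finset.mem_univ _, hinv' a ha.2⟩)
    (fun a ha v hv => key a (Finset.mem_filter.1 ha).2 v hv)
  exact ⟨E, hE, fun σ hσ v => hE' σ (Finset.mem_filter.2 ⟨Finset.mem_univ _, hσ⟩) v⟩

end Pool.Agent.Work.MP_6da7fa_al.EG
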