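import Pool.Agent.Work.MP_6da7fa_al.EG.StmtsG

set_option autoImplicit false

/-!
# Theorem EG, item Gb: simultaneous semi-invariants
-/

namespace Pool.Agent.Work.MP_6da7fa_al.EG

open Equiv

theorem Gb_via_in {α : Type} [Fintype α] [LinearOrder α] {e : ℕ} (pos : α → Fin e) (s : Fin e)
    (τ : Perm {x : α // pos x = s}) (x : α) (hx : pos x = s) :
    (Perm.viaEmbeddingHom (pe pos s).toEmbedding τ) x = (τ ⟨x, hx⟩ : {x : α // pos x = s}) := by
  rw [Perm.viaEmbeddingHom_apply]
  exact Perm.viaEmbedding_apply τ (pe pos s).toEmbedding ⟨x, hx⟩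

theorem Gb_via_out {α : Type} [Fintype α] [LinearOrder α] {e : ℕ} (pos : α → Fin e) (s : Fin e)
    (τ : Perm {x : α // pos x = s}) (x : α) (hx : pos x ≠ s) :
    (Perm.viaEmbeddingHom (pe pos s).toEmbedding τ) x = x := by
  rw [Perm.viaEmbeddingHom_apply]
  refine Perm.viaEmbedding_apply_of_notMem τ (pe pos s).toEmbedding x ?_
  rintro ⟨y, hy⟩
  apply hx
  rw [← hy]
  exact y.2

theorem Gb_via_pos {α : Type} [Fintype α] [LinearOrder α] {e : ℕ} (pos : α → Fin e) (s : Fin e)
    (τ : Perm {x : α // pos x = s}) :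
    pos ∘ (Perm.viaEmbeddingHom (pe pos s).toEmbedding τ) = pos := by
  funext x
  rw [Function.comp_apply]
  by_cases hx : pos x = s
  · rw [Gb_via_in pos s τ x hx, hx]
    exact (τ ⟨x, hx⟩).2
  · rw [Gb_via_out pos s τ x hx]

theorem Gb_comm {α V : Type} [Fintype α] [LinearOrder α] [AddCommGroup V] [Module ℂ V]
    (ρ : Representation ℂ (Perm α) V) {e : ℕ} (pos : α → Fin e) {s s' : Fin e} (hs : s ≠ s')
    (τ : Perm {x : α // pos x = s}) (τ' : Perm {x : α // pos x = s'}) (v : V) :
    resE (pe pos s) ρ τ (resE (pe pos s') ρ τ' v) =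
      resE (pe pos s') ρ τ' (resE (pe pos s) ρ τ v) := by
  have hd : Perm.Disjoint (Perm.viaEmbeddingHom (pe pos s).toEmbedding τ)
      (Perm.viaEmbeddingHom (pe pos s').toEmbedding τ') := by
    intro x
    by_cases hx : pos x = s
    · right
      exact Gb_via_out pos s' τ' x (by rw [hx]; exact hs)
    · left
      exact Gb_via_out pos s τ x hx
  have hc := hd.commute
  change ρ _ (ρ _ v) = ρ _ (ρ _ v)
  rw [← Module.End.mul_apply, ← Module.End.mul_apply, ← map_mul, ← map_mul, hc.eq]

theorem Gb_stab {α V : Type} [Fintype α] [LinearOrder α] [AddCommGroup V] [Module ℂ V]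
    (ρ : Representation ℂ (Perm α) V) {e : ℕ} (K : ℕ) (pos : α → Fin e) {s s' : Fin e} (hs : s ≠ s')
    (c : {x : α // pos x = s} → ZZ K) (c' : {x : α // pos x = s'} → ZZ K) (v : V)
    (hv : v ∈ SI (par K) (resE (pe pos s) ρ) c) :
    PP (par K) (resE (pe pos s') ρ) c' v ∈ SI (par K) (resE (pe pos s) ρ) c := by
  intro σ hσ
  have h1 : resE (pe pos s) ρ σ (PP (par K) (resE (pe pos s') ρ) c' v) =
      PP (par K) (resE (pe pos s') ρ) c' (resE (pe pos s) ρ σ v) := by
    unfold PP
    simp only [LinearMap.smul_apply, LinearMap.sum_apply, map_smul, map_sum]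
    congr 1
    refine Finset.sum_congr rfl (fun τ _ => ?_)
    rw [Gb_comm ρ pos hs]
  rw [h1, hv σ hσ, map_smul]

theorem Gb_proj (hPp : ConPp) {α V : Type} [Fintype α] [LinearOrder α] [AddCommGroup V] [Module ℂ V]
    (ρ : Representation ℂ (Perm α) V) {e : ℕ} (K : ℕ) (pos : α → Fin e)
    (c : ∀ s : Fin e, {x : α // pos x = s} → ZZ K) (j : ℕ) (hj : j ≤ e) :
    ∃ P : V →ₗ[ℂ] V,
      (∀ v, (∀ s : Fin e, (s : ℕ) < j → v ∈ SI (par K) (resE (pe pos s) ρ) (c s)) → P v = v) ∧
      (∀ s : Fin e, j ≤ (s : ℕ) → ∀ (c' : {x : α // pos x = s} → ZZ K) (v : V),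
        v ∈ SI (par K) (resE (pe pos s) ρ) c' → P v ∈ SI (par K) (resE (pe pos s) ρ) c') ∧
      (∀ (v : V) (s : Fin e), (s : ℕ) < j → P v ∈ SI (par K) (resE (pe pos s) ρ) (c s)) := by
  induction j with
  | zero =>
    refine ⟨LinearMap.id, fun v _ => rfl, fun s _ c' v hv => hv, fun v s hs => ?_⟩
    exact absurd hs (Nat.not_lt_zero _)
  | succ j ih =>
    obtain ⟨P, h1, h2, h3⟩ := ih (Nat.le_of_succ_le hj)
    have hp := (hPp {x : α // pos x = (⟨j, hj⟩ : Fin e)} (ZZ K) V (par K)
      (resE (pe pos ⟨j, hj⟩) ρ) (c ⟨j, hj⟩)).1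
    refine ⟨PP (par K) (resE (pe pos ⟨j, hj⟩) ρ) (c ⟨j, hj⟩) ∘ₗ P, ?_, ?_, ?_⟩
    · intro v hv
      rw [LinearMap.comp_apply, h1 v (fun s hs => hv s (Nat.lt_succ_of_lt hs))]
      exact hp.map_id v (hv ⟨j, hj⟩ (Nat.lt_succ_self j))
    · intro s hs c' v hv
      rw [LinearMap.comp_apply]
      have hne : s ≠ ⟨j, hj⟩ := by
        intro h
        rw [h] at hs
        exact absurd hs (Nat.not_succ_le_self j)
      exact Gb_stab ρ K pos hne c' _ _ (h2 s (Nat.le_of_succ_le hs) c' v hv)
    · intro v s hs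
      rw [LinearMap.comp_apply]
      by_cases hne : s = ⟨j, hj⟩
      · subst hne
        exact hp.map_mem _
      · have hlt : (s : ℕ) < j := by
          rcases Nat.lt_succ_iff_lt_or_eq.1 hs with h | h
          · exact h
          · exact absurd (Fin.ext h) hne
        exact Gb_stab ρ K pos hne (c s) _ _ (h3 v s hlt)

theorem prGb : StGb := by
  intro hPp hGa α V _ _ _ _ ρ e K pos z hz
  have key : ∀ m : ℕ, m ≤ e → z ∈ Submodule.span ℂ {v | Sim ρ K pos m v} := by
    intro m
    induction m with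
    | zero =>
      intro _
      by_cases hK : Nonempty (∀ s : Fin e, {x : α // pos x = s} → ZZ K)
      · obtain ⟨c⟩ := hK
        exact Submodule.subset_span ⟨c, fun s hs => absurd hs (Nat.not_lt_zero _)⟩
      · -- there is no colouring at some position, so `z = 0`
        have hs : ∃ s : Fin e, IsEmpty ({x : α // pos x = s} → ZZ K) := by
          by_contra hcon
          push Not at hcon
          exact hK ⟨fun s => (hcon s).some⟩
        obtain ⟨s, hs⟩ := hs
        have h0 := hz s
        rw [iSup_of_empty] at h0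
        rw [(Submodule.mem_bot ℂ).1 h0]
        exact Submodule.zero_mem _
    | succ m ih =>
      intro hm
      have hz' := ih (Nat.le_of_succ_le hm)
      obtain ⟨E, hE, hcomm⟩ := hGa α V ρ e K pos ⟨m, hm⟩
      have hEz : E z = z := hE.map_id z (hz ⟨m, hm⟩)
      rw [← hEz]
      have hle : Submodule.span ℂ {v | Sim ρ K pos m v} ≤
          (Submodule.span ℂ {v | Sim ρ K pos (m + 1) v}).comap E := by
        rw [Submodule.span_le]
        rintro v ⟨c, hc⟩
        change E v ∈ Submodule.span ℂ {v | Sim ρ K pos (m + 1) v}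
        obtain ⟨P, h1, h2, h3⟩ := Gb_proj hPp ρ K pos c m (Nat.le_of_succ_le hm)
        have hEv : ∀ s : Fin e, (s : ℕ) < m → E v ∈ SI (par K) (resE (pe pos s) ρ) (c s) := by
          intro s hs τ hτ
          have h4 : resE (pe pos s) ρ τ (E v) = E (resE (pe pos s) ρ τ v) :=
            (hcomm _ (Gb_via_pos pos s τ) v).symm
          rw [h4, hc s hs τ hτ, map_smul]
        have hBs : (⨆ c' : {x : α // pos x = (⟨m, hm⟩ : Fin e)} → ZZ K,
            SI (par K) (resE (pe pos ⟨m, hm⟩) ρ) c') ≤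
            (Submodule.span ℂ {v | Sim ρ K pos (m + 1) v}).comap P := by
          refine iSup_le (fun c' w hw => ?_)
          change P w ∈ Submodule.span ℂ {v | Sim ρ K pos (m + 1) v}
          refine Submodule.subset_span ⟨Function.update c ⟨m, hm⟩ c', fun s hs => ?_⟩
          by_cases hne : s = ⟨m, hm⟩
          · subst hne
            rw [Function.update_self]
            exact h2 _ (le_refl _) c' w hw
          · have hlt : (s : ℕ) < m := by
              rcases Nat.lt_succ_iff_lt_or_eq.1 hs with h | h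
              · exact h
              · exact absurd (Fin.ext h) hne
            rw [Function.update_of_ne hne]
            exact h3 w s hlt
        have h5 : P (E v) ∈ Submodule.span ℂ {v | Sim ρ K pos (m + 1) v} :=
          hBs (hE.map_mem v)
        rw [h1 (E v) hEv] at h5
        exact h5
      exact hle hz'
  exact key e (le_refl e)

end Pool.Agent.Work.MP_6da7fa_al.EG
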