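import Pool.Agent.Work.MP_6da7fa_al.EG.StmtsG

/-!
# Theorem EG: item Gc

From the positions to all letters.
-/

set_option autoImplicit false

namespace Pool.Agent.Work.MP_6da7fa_al.EG

open Equiv

private lemma Gc_swap {α β : Type} (iα : DecidableEq α) (iβ : DecidableEq β) (f : β ↪ α)
    (x y : β) : Perm.viaEmbeddingHom f (@swap β iβ x y) = @swap α iα (f x) (f y) := by
  rw [Perm.viaEmbeddingHom_apply]
  ext z
  by_cases hz : z ∈ Set.range f
  · obtain ⟨w, rfl⟩ := hz
    rw [Perm.viaEmbedding_apply]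
    by_cases h1 : w = x
    · subst h1
      rw [swap_apply_left, swap_apply_left]
    by_cases h2 : w = y
    · subst h2
      rw [swap_apply_right, swap_apply_right]
    rw [swap_apply_of_ne_of_ne h1 h2,
      swap_apply_of_ne_of_ne (fun h => h1 (f.injective h)) (fun h => h2 (f.injective h))]
  · rw [Perm.viaEmbedding_apply_of_notMem _ _ _ hz, swap_apply_of_ne_of_ne
      (fun h => hz ⟨x, h.symm⟩) (fun h => hz ⟨y, h.symm⟩)]

/-- the injection of the colours -/
private def Gc_col {e K : ℕ} (s : Fin e) : ZZ K → ZZ (e * K) :=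
  Sum.map (fun q => finProdFinEquiv (s, q)) (fun q => finProdFinEquiv (s, q))

private lemma Gc_par {e K : ℕ} (s : Fin e) (z : ZZ K) : par (e * K) (Gc_col s z) = par K z := by
  rcases z with q | q <;> rfl

private lemma Gc_inj {e K : ℕ} (s s' : Fin e) (z z' : ZZ K) (h : Gc_col s z = Gc_col s' z') :
    s = s' ∧ z = z' := by
  rcases z with q | q <;> rcases z' with q' | q'
  · have h1 : (Sum.inl (finProdFinEquiv (s, q)) : ZZ (e * K)) = Sum.inl (finProdFinEquiv (s', q')) :=
      h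
    have h2 := finProdFinEquiv.injective (Sum.inl.inj h1)
    have h3 : s = s' := congrArg Prod.fst h2
    have h4 : q = q' := congrArg Prod.snd h2
    exact ⟨h3, by rw [h4]⟩
  · have h1 : (Sum.inl (finProdFinEquiv (s, q)) : ZZ (e * K)) = Sum.inr (finProdFinEquiv (s', q')) :=
      h
    exact absurd h1 Sum.inl_ne_inr
  · have h1 : (Sum.inr (finProdFinEquiv (s, q)) : ZZ (e * K)) = Sum.inl (finProdFinEquiv (s', q')) :=
      h
    exact absurd h1 Sum.inr_ne_inl
  · have h1 : (Sum.inr (finProdFinEquiv (s, q)) : ZZ (e * K)) = Sum.inr (finProdFinEquiv (s', q')) :=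
      h
    have h2 := finProdFinEquiv.injective (Sum.inr.inj h1)
    have h3 : s = s' := congrArg Prod.fst h2
    have h4 : q = q' := congrArg Prod.snd h2
    exact ⟨h3, by rw [h4]⟩

theorem prGc : StGc := by
  intro hSw hB α V _ _ _ _ ρ e K pos z hz
  have h1 := hB α V ρ e K pos z hz
  refine (Submodule.span_le.2 ?_) h1
  rintro v ⟨c, hc⟩
  have htr : ∀ (x : α) (s : Fin e) (h : pos x = s), c (pos x) ⟨x, rfl⟩ = c s ⟨x, h⟩ := by
    intro x s h
    subst h
    rfl
  have hmem : v ∈ SI (par (e * K)) ρ (fun x => Gc_col (pos x) (c (pos x) ⟨x, rfl⟩)) := by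
    rw [hSw]
    intro x y hxy hC
    obtain ⟨hs, hcol⟩ := Gc_inj _ _ _ _ hC
    have h2 := hc (pos x) (pos x).2
    rw [hSw] at h2
    have hne : (⟨x, rfl⟩ : {w : α // pos w = pos x}) ≠ ⟨y, hs.symm⟩ := fun h =>
      hxy (congrArg Subtype.val h)
    have h3 := h2 ⟨x, rfl⟩ ⟨y, hs.symm⟩ hne (by rw [hcol, htr y (pos x) hs.symm])
    have h4 : ∀ iβ : DecidableEq {w : α // pos w = pos x},
        resE (pe pos (pos x)) ρ (@swap _ iβ ⟨x, rfl⟩ ⟨y, hs.symm⟩) = ρ (swap x y) := by
      intro iβ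
      show ρ (Perm.viaEmbeddingHom (pe pos (pos x)).toEmbedding
        (@swap _ iβ ⟨x, rfl⟩ ⟨y, hs.symm⟩)) = _
      rw [Gc_swap inferInstance iβ]
      rfl
    rw [h4] at h3
    rw [h3]
    simp only [Gc_par]
  exact Submodule.mem_iSup_of_mem _ hmem

end Pool.Agent.Work.MP_6da7fa_al.EG
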