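import Pool.Agent.Work.MP_6da7fa_al.EG.StmtsG

/-!
# Block EG, item Ge: multiplication and block structures
-/

set_option autoImplicit false

namespace Pool.Agent.Work.MP_6da7fa_al.EG

open Equiv

private theorem Ge_left {i j k : ℕ} (h : i + j = k) (σ : Perm (Fin i)) (τ : Perm (Fin j))
    (x : Fin k) (hx : (x : ℕ) < i) :
    ((blockSum h σ τ x : Fin k) : ℕ) = (σ ⟨x, hx⟩ : Fin i) := by
  subst h
  have h1 : x = Fin.castAdd j ⟨x, hx⟩ := Fin.ext rfl
  have h2 : ∀ x0 : Fin i, blockSum (rfl : i + j = i + j) σ τ (Fin.castAdd j x0)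
      = Fin.castAdd j (σ x0) := by
    intro x0
    simp [blockSum, Equiv.permCongr_apply]
  calc ((blockSum (rfl : i + j = i + j) σ τ x : Fin (i + j)) : ℕ)
      = ((blockSum (rfl : i + j = i + j) σ τ (Fin.castAdd j ⟨x, hx⟩) : Fin (i + j)) : ℕ) := by
        rw [← h1]
    _ = _ := by rw [h2]; rfl

private theorem Ge_right {i j k : ℕ} (h : i + j = k) (σ : Perm (Fin i)) (τ : Perm (Fin j))
    (x : Fin k) (hx : i ≤ (x : ℕ)) (hx' : (x : ℕ) - i < j) :
    ((blockSum h σ τ x : Fin k) : ℕ) = i + (τ ⟨x - i, hx'⟩ : Fin j) := by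
  subst h
  have h1 : x = Fin.natAdd i ⟨x - i, hx'⟩ := Fin.ext (by
    show (x : ℕ) = i + (x - i)
    omega)
  have h2 : ∀ x0 : Fin j, blockSum (rfl : i + j = i + j) σ τ (Fin.natAdd i x0)
      = Fin.natAdd i (τ x0) := by
    intro x0
    simp [blockSum, Equiv.permCongr_apply]
  calc ((blockSum (rfl : i + j = i + j) σ τ x : Fin (i + j)) : ℕ)
      = ((blockSum (rfl : i + j = i + j) σ τ (Fin.natAdd i ⟨x - i, hx'⟩) : Fin (i + j)) : ℕ) := by
        rw [← h1]
    _ = _ := by rw [h2]; rfl

/-- Item Ge. -/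
theorem prGe : StGe := by
  classical
  intro A _ _ R M _ _ S e d n k h a z hde hB
  obtain ⟨pos1, blk1, hinj, hQ⟩ := hB
  -- a new block
  obtain ⟨t, ht⟩ : ∃ t : ℕ, ∀ x, blk1 x ≠ some t := by
    obtain ⟨t, ht⟩ := Infinite.exists_notMem_finset
      (Finset.univ.image (fun x => (blk1 x).getD 0))
    refine ⟨t, fun x hx => ht ?_⟩
    rw [Finset.mem_image]
    exact ⟨x, Finset.mem_univ _, by rw [hx]; rfl⟩
  let pos : Fin k → Fin e := fun x =>
    if hx : (x : ℕ) < d then ⟨x, by omega⟩ else pos1 ⟨x - d, by omega⟩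
  let blk : Fin k → Option ℕ := fun x =>
    if hx : (x : ℕ) < d then some t else blk1 ⟨x - d, by omega⟩
  have pos_l : ∀ (x : Fin k) (hx : (x : ℕ) < d), pos x = ⟨x, by omega⟩ := fun x hx => dif_pos hx
  have pos_r : ∀ (x : Fin k) (hx : ¬ (x : ℕ) < d), pos x = pos1 ⟨x - d, by omega⟩ :=
    fun x hx => dif_neg hx
  have blk_l : ∀ (x : Fin k) (hx : (x : ℕ) < d), blk x = some t := fun x hx => dif_pos hx
  have blk_r : ∀ (x : Fin k) (hx : ¬ (x : ℕ) < d), blk x = blk1 ⟨x - d, by omega⟩ :=
    fun x hx => dif_neg hx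
  refine ⟨pos, blk, ?_, ?_⟩
  · intro x y hxy
    have h1 : blk x = blk y := congrArg Prod.fst hxy
    have h2 : pos x = pos y := congrArg Prod.snd hxy
    by_cases hx : (x : ℕ) < d
    · by_cases hy : (y : ℕ) < d
      · rw [pos_l x hx, pos_l y hy] at h2
        have h3 := congrArg Fin.val h2
        exact Fin.ext h3
      · rw [blk_l x hx, blk_r y hy] at h1
        exact absurd h1.symm (ht _)
    · by_cases hy : (y : ℕ) < d
      · rw [blk_r x hx, blk_l y hy] at h1
        exact absurd h1 (ht _)
      · rw [blk_r x hx, blk_r y hy] at h1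
        rw [pos_r x hx, pos_r y hy] at h2
        have h3 := hinj (show (fun x => (blk1 x, pos1 x)) ⟨x - d, by omega⟩
          = (fun x => (blk1 x, pos1 x)) ⟨y - d, by omega⟩ from Prod.ext h1 h2)
        have h4 := congrArg Fin.val h3
        simp only at h4
        exact Fin.ext (by omega)
  · intro Q
    obtain ⟨l, m, hlm, X, u, π, hz, hπ⟩ := hQ (Q.erase t)
    -- the condition for `Q` and for `Q.erase t`
    have hcond : ∀ y : Fin n, l ≤ (y : ℕ) ↔ (blk1 (π y) = none ∨ ∃ q ∈ Q, blk1 (π y) = some q) := by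
      intro y
      rw [hπ y]
      constructor
      · rintro (h1 | ⟨q, hq, h1⟩)
        · exact Or.inl h1
        · exact Or.inr ⟨q, Finset.mem_of_mem_erase hq, h1⟩
      · rintro (h1 | ⟨q, hq, h1⟩)
        · exact Or.inl h1
        · refine Or.inr ⟨q, Finset.mem_erase.2 ⟨?_, hq⟩, h1⟩
          rintro rfl
          exact ht _ h1
    have e1 : d + l + m = k := by omega
    have haz : S.smul.app h a z = S.seq.act k (blockSum h 1 π)
        (S.smul.app e1 (R.mul.app (rfl : d + l = d + l) a X) u) := by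
      rw [S.mul_smul (rfl : d + l = d + l) e1 hlm h a X u, ← S.smul.equivariant, R.seq.act_one, hz]
    by_cases htQ : t ∈ Q
    · have e2 : l + d = d + l := Nat.add_comm l d
      have e3 : l + (d + m) = k := by omega
      refine ⟨l, d + m, e3, X, S.smul.app rfl a u,
        blockSum h 1 π * blockSum e1 (blockSwap (rfl : d + l = d + l)) 1, ?_, ?_⟩
      · rw [haz, R.comm (rfl : d + l = d + l) e2 a X, S.seq.act_mul]
        rw [← S.mul_smul e2 e1 rfl e3 X a u, ← S.smul.equivariant e1, S.seq.act_one]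
      · intro x
        rw [Perm.mul_apply]
        by_cases hx1 : (x : ℕ) < d + l
        · have hv := Ge_left e1 (blockSwap (rfl : d + l = d + l)) (1 : Perm (Fin m)) x hx1
          rw [blockSwap_val] at hv
          simp only at hv
          generalize hw : blockSum e1 (blockSwap (rfl : d + l = d + l)) (1 : Perm (Fin m)) x = w at hv ⊢
          by_cases hx2 : (x : ℕ) < l
          · rw [if_pos hx2] at hv
            have hwd : ¬ (w : ℕ) < d := by omega
            have hv2 := Ge_right h (1 : Perm (Fin d)) π w (by omega) (by omega)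
            generalize hw2 : blockSum h (1 : Perm (Fin d)) π w = w2 at hv2 ⊢
            have hw2d : ¬ (w2 : ℕ) < d := by omega
            rw [blk_r w2 hw2d]
            have h5 : (⟨(w2 : ℕ) - d, by omega⟩ : Fin n) = π ⟨(w : ℕ) - d, by omega⟩ :=
              Fin.ext (by show (w2 : ℕ) - d = _; omega)
            rw [h5, ← hcond]
            show l ≤ (x : ℕ) ↔ l ≤ (w : ℕ) - d
            omega
          · rw [if_neg hx2] at hv
            have hwd : (w : ℕ) < d := by omega
            have hv2 := Ge_left h (1 : Perm (Fin d)) π w hwd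
            generalize hw2 : blockSum h (1 : Perm (Fin d)) π w = w2 at hv2 ⊢
            have hv3 : (w2 : ℕ) = w := hv2
            rw [blk_l w2 (by omega)]
            constructor
            · intro _
              exact Or.inr ⟨t, htQ, rfl⟩
            · intro _
              omega
        · have hv := Ge_right e1 (blockSwap (rfl : d + l = d + l)) (1 : Perm (Fin m)) x
            (by omega) (by omega)
          have hv1 : ((blockSum e1 (blockSwap (rfl : d + l = d + l)) (1 : Perm (Fin m)) x : Fin k) : ℕ)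
            = d + l + (x - (d + l)) := hv
          generalize hw : blockSum e1 (blockSwap (rfl : d + l = d + l)) (1 : Perm (Fin m)) x = w at hv1 ⊢
          have hv2 := Ge_right h (1 : Perm (Fin d)) π w (by omega) (by omega)
          generalize hw2 : blockSum h (1 : Perm (Fin d)) π w = w2 at hv2 ⊢
          have hw2d : ¬ (w2 : ℕ) < d := by omega
          rw [blk_r w2 hw2d]
          have h5 : (⟨(w2 : ℕ) - d, by omega⟩ : Fin n) = π ⟨(w : ℕ) - d, by omega⟩ :=
            Fin.ext (by show (w2 : ℕ) - d = _; omega)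
          rw [h5, ← hcond]
          show l ≤ (x : ℕ) ↔ l ≤ (w : ℕ) - d
          omega
    · refine ⟨d + l, m, e1, R.mul.app rfl a X, u, blockSum h 1 π, haz, ?_⟩
      intro x
      by_cases hx : (x : ℕ) < d
      · have hv2 := Ge_left h (1 : Perm (Fin d)) π x hx
        generalize hw2 : blockSum h (1 : Perm (Fin d)) π x = w2 at hv2 ⊢
        have hv3 : (w2 : ℕ) = x := hv2
        rw [blk_l w2 (by omega)]
        constructor
        · intro h6
          omega
        · rintro (h6 | ⟨q, hq, h6⟩)
          · exact absurd h6 (Option.some_ne_none t)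
          · rw [Option.some.inj h6] at htQ
            exact absurd hq htQ
      · have hv2 := Ge_right h (1 : Perm (Fin d)) π x (by omega) (by omega)
        generalize hw2 : blockSum h (1 : Perm (Fin d)) π x = w2 at hv2 ⊢
        have hw2d : ¬ (w2 : ℕ) < d := by omega
        rw [blk_r w2 hw2d]
        have h5 : (⟨(w2 : ℕ) - d, by omega⟩ : Fin n) = π ⟨(x : ℕ) - d, by omega⟩ :=
          Fin.ext (by show (w2 : ℕ) - d = _; omega)
        rw [h5, ← hcond]
        show d + l ≤ (x : ℕ) ↔ l ≤ (x : ℕ) - d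
        omega

end Pool.Agent.Work.MP_6da7fa_al.EG
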