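import Pool.Agent.Work.MP_6da7fa_al.EG.StmtsG

set_option autoImplicit false

/-!
# Theorem EG, item Gf: the elements with a block structure span
-/

namespace Pool.Agent.Work.MP_6da7fa_al.EG

open Equiv

section
variable {A : ℕ → Type} [∀ n, AddCommGroup (A n)] [∀ n, Module ℂ (A n)] {R : TCA A}
  {M : ℕ → Type} [∀ n, AddCommGroup (M n)] [∀ n, Module ℂ (M n)]

/-- the span of the elements with a block structure -/
def Gf_C (S : TCAModule R M) (e n : ℕ) : Submodule ℂ (M n) :=
  Submodule.span ℂ {z : M n | Blk S e z}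

theorem Gf_act (hGd : StGd) (S : TCAModule R M) (e n : ℕ) (σ : Perm (Fin n)) (x : M n)
    (hx : x ∈ Gf_C S e n) : S.seq.act n σ x ∈ Gf_C S e n := by
  induction hx using Submodule.span_induction with
  | mem z hz =>
    obtain ⟨pos, blk, h⟩ := hz
    exact Submodule.subset_span ⟨_, _, (hGd A R M S e).2 n z pos blk σ h⟩
  | zero =>
    have h := S.seq.act_smul n σ 0 0
    rw [zero_smul, zero_smul] at h
    rw [h]
    exact zero_mem _
  | add x y _ _ h1 h2 =>
    rw [S.seq.act_add]
    exact add_mem h1 h2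
  | smul c x _ h1 =>
    rw [S.seq.act_smul]
    exact Submodule.smul_mem _ _ h1

/-- the elements of the algebra which preserve the span -/
def Gf_D (S : TCAModule R M) (e k : ℕ) : Submodule ℂ (A k) where
  carrier := {a | ∀ (j n : ℕ) (h : k + j = n), ∀ y ∈ Gf_C S e j, S.smul.app h a y ∈ Gf_C S e n}
  add_mem' := by
    intro a b ha hb j n h y hy
    rw [S.smul.add_left]
    exact add_mem (ha j n h y hy) (hb j n h y hy)
  zero_mem' := by
    intro j n h y _
    have h1 := S.smul.smul_left h (0 : ℂ) (0 : A k) y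
    rw [zero_smul, zero_smul] at h1
    rw [h1]
    exact zero_mem _
  smul_mem' := by
    intro c a ha j n h y hy
    rw [S.smul.smul_left]
    exact Submodule.smul_mem _ _ (ha j n h y hy)

theorem Gf_gen (hGe : StGe) (S : TCAModule R M) (e k : ℕ) (a : A k) (hk : k ≤ e) :
    a ∈ Gf_D S e k := by
  intro j n h y hy
  induction hy using Submodule.span_induction with
  | mem z hz => exact Submodule.subset_span (hGe A R M S e k j n h a z hk hz)
  | zero =>
    have h1 := S.smul.smul_right h (0 : ℂ) a (0 : M j)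
    rw [zero_smul, zero_smul] at h1
    rw [h1]
    exact zero_mem _
  | add x y _ _ h1 h2 =>
    rw [S.smul.add_right]
    exact add_mem h1 h2
  | smul c x _ h1 =>
    rw [S.smul.smul_right]
    exact Submodule.smul_mem _ _ h1

end

/-- **Gf** -/
theorem prGf : StGf := by
  intro hGd hGe A _ _ R M _ _ S hR hS
  obtain ⟨s, hs⟩ := hR
  obtain ⟨t, ht⟩ := hS
  set e : ℕ := 1 + (∑ x ∈ s, x.1 + ∑ x ∈ t, x.1) with he
  have hse : ∀ x ∈ s, x.1 ≤ e := by
    intro x hx
    have := Finset.single_le_sum (f := fun x : Σ n, A n => x.1) (fun _ _ => Nat.zero_le _) hx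
    omega
  have hte : ∀ x ∈ t, x.1 ≤ e := by
    intro x hx
    have := Finset.single_le_sum (f := fun x : Σ n, M n => x.1) (fun _ _ => Nat.zero_le _) hx
    omega
  have hD : ∀ n, Gf_D S e n = ⊤ := by
    refine hs (Gf_D S e) (fun x hx => Gf_gen hGe S e x.1 x.2 (hse x hx)) ?_ ?_ ?_
    · intro j n h y hy
      obtain rfl : n = j := by omega
      rw [S.one_smul]
      exact hy
    · intro n σ a ha j m h y hy
      have h1 := S.smul.equivariant h σ 1 a y
      rw [S.seq.act_one] at h1
      rw [h1]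
      exact Gf_act hGd S e m _ _ (ha j m h y hy)
    · intro i j k h a ha b hb l n h2 y hy
      rw [S.mul_smul h h2 (rfl : j + l = j + l) (by omega : i + (j + l) = n)]
      exact ha _ _ _ _ (hb _ _ _ _ hy)
  refine ⟨e, by omega, ?_⟩
  refine ht ⟨Gf_C S e, fun n σ x hx => Gf_act hGd S e n σ x hx, ?_⟩ ?_
  · intro i j k h a x hx
    have ha : a ∈ Gf_D S e i := by
      rw [hD]
      trivial
    exact ha j k h x hx
  · intro x hx
    exact Submodule.subset_span ((hGd A R M S e).1 x.1 x.2 (hte x hx))

end Pool.Agent.Work.MP_6da7fa_al.EG
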