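import Pool.Agent.Work.MP_6da7fa_al.EG.StmtsG

set_option autoImplicit false

namespace Pool.Agent.Work.MP_6da7fa_al.EG
namespace IGg

open Equiv

theorem exBlock {l m n : ℕ} (h : l + m = n) (κ : Perm (Fin n))
    (hκ : ∀ x : Fin n, (x : ℕ) < l → κ x = x) : ∃ σ' : Perm (Fin m), κ = blockSum h 1 σ' := by
  classical
  subst h
  let e : Fin l ⊕ Fin m ≃ Fin (l + m) := finSumFinEquiv.trans (finCongr rfl)
  have hel : ∀ x : Fin l, e (Sum.inl x) = Fin.castAdd m x := fun x => by simp [e]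
  have h1 : ∀ x : Fin l, e.symm (κ (e (Sum.inl x))) = Sum.inl x := by
    intro x
    have : κ (e (Sum.inl x)) = e (Sum.inl x) := hκ _ (by rw [hel]; simp)
    rw [this, Equiv.symm_apply_apply]
  have h2 : (e.symm.permCongr κ) ∈ (Equiv.Perm.sumCongrHom (Fin l) (Fin m)).range := by
    apply Equiv.Perm.mem_sumCongrHom_range_of_perm_mapsTo_inl
    rintro _ ⟨x, rfl⟩
    exact ⟨x, (h1 x).symm⟩
  obtain ⟨⟨a, b⟩, hab⟩ := h2
  refine ⟨b, ?_⟩
  have h3 : Equiv.sumCongr a b = e.symm.permCongr κ := hab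
  have ha : a = 1 := by
    ext x
    have h4 := congrArg (fun f : Perm (Fin l ⊕ Fin m) => f (Sum.inl x)) h3
    have h5 : (Sum.inl (a x) : Fin l ⊕ Fin m) = Sum.inl x := by
      refine Eq.trans h4 ?_
      exact h1 x
    have h6 := Sum.inl_injective h5
    rw [h6]
    rfl
  rw [ha] at h3
  show κ = e.permCongr (Equiv.sumCongr 1 b)
  rw [h3]
  ext x
  simp [Equiv.permCongr_apply]

end IGg

open IGg in
theorem prGg : StGg := by
  classical
  intro A _ _ R M _ _ S hfd β _ _ n l m h X u π f hπ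
  have := hfd m
  have := hfd n
  let F : M m →ₗ[ℂ] M n := (S.seq.actL n π) ∘ₗ (S.smulL h X)
  have hsub : Submodule.span ℂ {v | ∃ s : Equiv.Perm β,
      v = resE f (rp S.seq n) s (S.seq.act n π (S.smul.app h X u))} ≤ LinearMap.range F := by
    rw [Submodule.span_le]
    rintro _ ⟨s, rfl⟩
    set σ : Equiv.Perm (Fin n) := Equiv.Perm.viaEmbedding s f.toEmbedding with hσ
    have h1 : ∀ x : Fin n, (x : ℕ) < l → (π⁻¹ * σ * π) x = x := by
      intro x hx
      have h2 : π x ∉ Set.range f.toEmbedding := by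
        rintro ⟨y, hy⟩
        have := hπ x ⟨y, hy⟩
        omega
      have h3 : σ (π x) = π x := Equiv.Perm.viaEmbedding_apply_of_notMem s f.toEmbedding (π x) h2
      show π⁻¹ (σ (π x)) = x
      rw [h3]
      simp
    obtain ⟨σ', hσ'⟩ := exBlock h _ h1
    refine ⟨S.seq.act m σ' u, ?_⟩
    show S.seq.act n π (S.smul.app h X (S.seq.act m σ' u)) =
      S.seq.act n σ (S.seq.act n π (S.smul.app h X u))
    have h4 := S.smul.equivariant h 1 σ' X u
    rw [R.seq.act_one] at h4
    rw [h4, ← hσ', ← S.seq.act_mul, ← S.seq.act_mul]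
    congr 1
    group
  calc Module.finrank ℂ _ ≤ Module.finrank ℂ (LinearMap.range F) := Submodule.finrank_mono hsub
    _ ≤ Module.finrank ℂ (M m) := LinearMap.finrank_range_le F

end Pool.Agent.Work.MP_6da7fa_al.EG
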