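import Pool.Agent.Work.MP_6da7fa_al.EG.StmtsG

set_option autoImplicit false

/-!
# Theorem EG, item Gh: one position
-/

namespace Pool.Agent.Work.MP_6da7fa_al.EG

open Equiv

private lemma Gh_via {α β γ : Type} (f : β ↪ γ) (g : γ ↪ α) (s : Perm β) :
    Perm.viaEmbeddingHom g (Perm.viaEmbeddingHom f s) = Perm.viaEmbeddingHom (f.trans g) s := by
  rw [Perm.viaEmbeddingHom_apply, Perm.viaEmbeddingHom_apply, Perm.viaEmbeddingHom_apply]
  ext z
  by_cases hz : z ∈ Set.range (f.trans g)
  · obtain ⟨w, rfl⟩ := hz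
    rw [Perm.viaEmbedding_apply]
    show (s.viaEmbedding f).viaEmbedding g (g (f w)) = g (f (s w))
    rw [Perm.viaEmbedding_apply, Perm.viaEmbedding_apply]
  · rw [Perm.viaEmbedding_apply_of_notMem _ (f.trans g) _ hz]
    by_cases hg : z ∈ Set.range g
    · obtain ⟨w, rfl⟩ := hg
      rw [Perm.viaEmbedding_apply, Perm.viaEmbedding_apply_of_notMem]
      rintro ⟨y, rfl⟩
      exact hz ⟨y, rfl⟩
    · rw [Perm.viaEmbedding_apply_of_notMem _ _ _ hg]

private lemma Gh_card {l m n : ℕ} (h : l + m = n) :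
    (Finset.univ.filter fun x : Fin n => l ≤ (x : ℕ)).card = m := by
  subst h
  have h1 : (Finset.univ.filter fun x : Fin (l + m) => l ≤ (x : ℕ)) =
      Finset.univ.map (Fin.natAddEmb l : Fin m ↪ Fin (l + m)) := by
    ext x
    simp only [Finset.mem_filter, Finset.mem_univ, true_and, Finset.mem_map]
    constructor
    · intro hx
      exact ⟨⟨x - l, by omega⟩, by ext; simp; omega⟩
    · rintro ⟨y, rfl⟩
      simp
  rw [h1, Finset.card_map, Finset.card_univ, Fintype.card_fin]

theorem prGh : StGh := by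
  intro hGr hGd hGg A _ _ R M _ _ S hfin e K hslow n z pos blk hB s
  by_contra hz
  have _ := hfin n
  obtain ⟨r, hKr, hrcard, hτ⟩ := hGr {x : Fin n // pos x = s} (M n)
    (resE (pe pos s) (rp S.seq n)) z K hz
  obtain ⟨G, -, hG⟩ := Finset.exists_subset_card_eq
    (s := (Finset.univ : Finset {x : Fin n // pos x = s})) (n := r ^ 2)
    (by rw [Finset.card_univ]; exact hrcard)
  have hcG : Fintype.card {x // x ∈ G} = r ^ 2 := by
    rw [Fintype.card_coe]
    exact hG
  obtain ⟨τ, hdim⟩ := hτ {x // x ∈ G} (OrderEmbedding.subtype _) hcG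
  set g : {x // x ∈ G} ↪o {x : Fin n // pos x = s} := OrderEmbedding.subtype _ with hg
  set σ : Perm (Fin n) := Perm.viaEmbeddingHom (pe pos s).toEmbedding τ with hσ
  have hB' : BlkD S e (pos ∘ ⇑σ⁻¹) (blk ∘ ⇑σ⁻¹) (S.seq.act n σ z) :=
    (hGd A R M S e).2 n z pos blk σ hB
  set pos' : Fin n → Fin e := pos ∘ ⇑σ⁻¹ with hpos'
  set blk' : Fin n → Option ℕ := blk ∘ ⇑σ⁻¹ with hblk'
  set f : {x // x ∈ G} ↪o Fin n := g.trans (pe pos s) with hf
  set Q : Finset ℕ := Finset.univ.image (fun x : {x // x ∈ G} => (blk' (f x)).getD 0) with hQ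
  have hQcard : Q.card ≤ r ^ 2 := by
    refine (Finset.card_image_le).trans ?_
    rw [Finset.card_univ, hcG]
  obtain ⟨hinj, hall⟩ := hB'
  obtain ⟨l, m, h, X, u, π, hz', hx⟩ := hall Q
  have hrange : ∀ x : {x // x ∈ G}, blk' (f x) = none ∨ ∃ q ∈ Q, blk' (f x) = some q := by
    intro x
    rcases hb : blk' (f x) with _ | q
    · exact Or.inl rfl
    · refine Or.inr ⟨q, ?_, rfl⟩
      rw [hQ, Finset.mem_image]
      exact ⟨x, Finset.mem_univ _, by rw [hb]; rfl⟩
  have hle : ∀ x : {x // x ∈ G}, l ≤ ((π⁻¹ (f x) : Fin n) : ℕ) := by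
    intro x
    have h7 : π (π⁻¹ (f x)) = f x := Equiv.apply_symm_apply π (f x)
    rw [hx, h7]
    exact hrange x
  have hTcard := Gh_card h
  -- lower bound of m
  have hm1 : r ^ 2 ≤ m := by
    rw [← hcG, ← hTcard, ← Finset.card_univ]
    refine Finset.card_le_card_of_injOn (fun x => π⁻¹ (f x)) ?_ ?_
    · intro x _
      simp only [Finset.coe_filter, Finset.mem_univ, true_and, Set.mem_ofPred_eq]
      exact hle x
    · intro x _ y _ hxy
      exact f.injective ((π⁻¹).injective hxy)
  -- upper bound of m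
  have hm2 : m ≤ e * (r ^ 2 + 1) := by
    have h1 : m ≤ ((Finset.insertNone Q) ×ˢ (Finset.univ : Finset (Fin e))).card := by
      rw [← hTcard]
      refine Finset.card_le_card_of_injOn (fun x => (blk' (π x), pos' (π x))) ?_ ?_
      · intro x hxT
        simp only [Finset.coe_filter, Finset.mem_univ, true_and, Set.mem_ofPred_eq] at hxT
        simp only [Finset.coe_product, Set.mem_prod, Finset.mem_coe, Finset.coe_univ,
          Set.mem_univ, and_true]
        rcases (hx x).1 hxT with h2 | ⟨q, hq, h2⟩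
        · rw [h2]
          exact Finset.none_mem_insertNone
        · rw [h2]
          exact Finset.some_mem_insertNone.2 hq
      · intro x _ y _ hxy
        exact π.injective (hinj hxy)
    rw [Finset.card_product, Finset.card_insertNone, Finset.card_univ, Fintype.card_fin] at h1
    calc m ≤ (Q.card + 1) * e := h1
      _ ≤ (r ^ 2 + 1) * e := Nat.mul_le_mul_right _ (Nat.succ_le_succ hQcard)
      _ = e * (r ^ 2 + 1) := Nat.mul_comm _ _
  have hGgf := hGg A R M S hfin {x // x ∈ G} n l m h X u π f (by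
    rintro x ⟨y, hy⟩
    have h3 := hle y
    have h7 : π⁻¹ (π x) = x := Equiv.symm_apply_apply π x
    rw [hy, h7] at h3
    exact h3)
  have hset : {v | ∃ s' : Perm {x // x ∈ G}, v = resE g (resE (pe pos s) (rp S.seq n)) s'
      (resE (pe pos s) (rp S.seq n) τ z)} = {v | ∃ s' : Perm {x // x ∈ G},
        v = resE f (rp S.seq n) s' (S.seq.act n π (S.smul.app h X u))} := by
    ext v
    have hs : ∀ s' : Perm {x // x ∈ G}, resE g (resE (pe pos s) (rp S.seq n)) s'
        (resE (pe pos s) (rp S.seq n) τ z) =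
        resE f (rp S.seq n) s' (S.seq.act n π (S.smul.app h X u)) := by
      intro s'
      rw [← hz']
      show rp S.seq n (Perm.viaEmbeddingHom (pe pos s).toEmbedding
        (Perm.viaEmbeddingHom g.toEmbedding s')) (S.seq.act n σ z) =
        rp S.seq n (Perm.viaEmbeddingHom f.toEmbedding s') (S.seq.act n σ z)
      rw [Gh_via]
      rfl
    constructor
    · rintro ⟨s', hs'⟩
      exact ⟨s', by rw [hs', hs]⟩
    · rintro ⟨s', hs'⟩
      exact ⟨s', by rw [hs', hs]⟩
  rw [hset] at hdim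
  have h5 := hslow r m hKr hm1 hm2
  have h6 : (Module.finrank ℂ (Submodule.span ℂ {v | ∃ s' : Perm {x // x ∈ G},
        v = resE f (rp S.seq n) s' (S.seq.act n π (S.smul.app h X u))}) : ℚ) ≤
      (Module.finrank ℂ (M m) : ℚ) := by exact_mod_cast hGgf
  exact absurd (hdim.trans h6) (not_le.2 h5)

end Pool.Agent.Work.MP_6da7fa_al.EG
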