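import Pool.Agent.Work.MP_6da7fa_al.EG.StmtsG

set_option autoImplicit false

/-!
# Theorem EG, item Gi: slow growth implies boundedness
-/

namespace Pool.Agent.Work.MP_6da7fa_al.EG

open Equiv

theorem prGi : StGi := by
  intro hf hc hh A _ _ R M _ _ S hR hS hfin
  obtain ⟨e, he, hspan⟩ := hf A R M S hR hS
  refine ⟨e, he, fun K hK n => ?_⟩
  have h1 : (⊤ : Submodule ℂ (M n)) ≤
      ⨆ c : Fin n → ZZ (e * K), SI (par (e * K)) (rp S.seq n) c := by
    rw [← hspan n, Submodule.span_le]
    rintro z ⟨pos, blk, hz⟩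
    exact hc (Fin n) (M n) (rp S.seq n) e K pos z
      (fun s => hh A R M S hfin e K hK n z pos blk hz s)
  exact fun v => h1 Submodule.mem_top

end Pool.Agent.Work.MP_6da7fa_al.EG
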