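import Pool.Agent.Work.MP_6da7fa_al.EG.StmtsG

set_option autoImplicit false

/-!
# Theorem EG, item Gj: growth at most `n^(n/(4e))` is slow
-/

namespace Pool.Agent.Work.MP_6da7fa_al.EG

theorem prGj : StGj := by
  rintro d e he ⟨n0, hn0⟩
  refine ⟨max (2 * e) (max (6 ^ 8) n0), ?_⟩
  intro r m hr h1 h2
  rw [max_lt_iff, max_lt_iff] at hr
  obtain ⟨hr1, hr2, hr3⟩ := hr
  have hrr : r ≤ r ^ 2 := Nat.le_self_pow (by norm_num) r
  have hm := hn0 m (by omega)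
  have hx : ((6 : ℝ) ^ 8) < (r : ℝ) := by exact_mod_cast hr2
  have hx2e : 2 * (e : ℝ) ≤ (r : ℝ) := by exact_mod_cast hr1.le
  have he0 : (1 : ℝ) ≤ (e : ℝ) := by exact_mod_cast he
  have hmr : (m : ℝ) ≤ e * ((r : ℝ) ^ 2 + 1) := by exact_mod_cast h2
  have hm1 : (1 : ℝ) ≤ (m : ℝ) := by
    have : 1 ≤ m := by omega
    exact_mod_cast this
  have hlast : (d m : ℝ) < ((r : ℝ) / 6) ^ (r ^ 2) := by
    have s5 : (r : ℝ) ^ ((7 / 8 : ℝ) * (r : ℝ) ^ 2) = ((r : ℝ) ^ (7 / 8 : ℝ)) ^ (r ^ 2) := by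
      rw [← Real.rpow_natCast ((r : ℝ) ^ (7 / 8 : ℝ)), ← Real.rpow_mul (Nat.cast_nonneg r)]
      push_cast
      rfl
    generalize (r : ℝ) = x at *
    have hx0 : 0 < x := lt_trans (by norm_num) hx
    have hx1 : 1 ≤ x := le_trans (by norm_num) hx.le
    have hexp : (m : ℝ) / (4 * e) ≤ (x ^ 2 + 1) / 4 := by
      rw [div_le_div_iff₀ (by positivity) (by norm_num)]
      nlinarith
    have s1 : (m : ℝ) ^ ((m : ℝ) / (4 * e)) ≤ (m : ℝ) ^ ((x ^ 2 + 1) / 4) :=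
      Real.rpow_le_rpow_of_exponent_le hm1 hexp
    have hmx : (m : ℝ) ≤ x ^ 3 := by
      have h3 : (e : ℝ) * (x ^ 2 + 1) ≤ e * (2 * x ^ 2) := by
        apply mul_le_mul_of_nonneg_left _ (by linarith)
        nlinarith
      have h4 : (e : ℝ) * (2 * x ^ 2) ≤ x ^ 3 := by
        have h5 : (e : ℝ) * (2 * x ^ 2) = (2 * e) * x ^ 2 := by ring
        have h6 : x ^ 3 = x * x ^ 2 := by ring
        rw [h5, h6]
        exact mul_le_mul_of_nonneg_right hx2e (by positivity)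
      linarith
    have s2 : (m : ℝ) ^ ((x ^ 2 + 1) / 4) ≤ (x ^ 3) ^ ((x ^ 2 + 1) / 4) :=
      Real.rpow_le_rpow (by linarith) hmx (by positivity)
    have s3 : (x ^ 3 : ℝ) ^ ((x ^ 2 + 1) / 4) = x ^ (3 * ((x ^ 2 + 1) / 4)) := by
      rw [← Real.rpow_natCast x 3, ← Real.rpow_mul hx0.le]
      norm_num
    have s4 : x ^ (3 * ((x ^ 2 + 1) / 4)) ≤ x ^ ((7 / 8 : ℝ) * x ^ 2) := by
      apply Real.rpow_le_rpow_of_exponent_le hx1
      nlinarith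
    have s6 : x ^ (7 / 8 : ℝ) < x / 6 := by
      have h7 : x ^ (7 / 8 : ℝ) * x ^ (1 / 8 : ℝ) = x := by
        rw [← Real.rpow_add hx0]
        norm_num
      have h8 : (6 : ℝ) < x ^ (1 / 8 : ℝ) := by
        have h9 : ((6 : ℝ) ^ 8) ^ (1 / 8 : ℝ) = 6 := by
          rw [← Real.rpow_natCast, ← Real.rpow_mul (by norm_num)]
          norm_num
        have h10 := Real.rpow_lt_rpow (by norm_num) hx (show (0 : ℝ) < 1 / 8 by norm_num)
        rwa [h9] at h10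
      rw [lt_div_iff₀ (by norm_num)]
      calc x ^ (7 / 8 : ℝ) * 6 < x ^ (7 / 8 : ℝ) * x ^ (1 / 8 : ℝ) :=
            mul_lt_mul_of_pos_left h8 (Real.rpow_pos_of_pos hx0 _)
        _ = x := h7
    have hr0 : r ^ 2 ≠ 0 := by
      have : 0 < r := by omega
      positivity
    have s7 : (x ^ (7 / 8 : ℝ)) ^ (r ^ 2) < (x / 6) ^ (r ^ 2) :=
      pow_lt_pow_left₀ s6 (Real.rpow_pos_of_pos hx0 _).le hr0
    calc (d m : ℝ) ≤ _ := hm
      _ ≤ _ := s1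
      _ ≤ _ := s2
      _ = _ := s3
      _ ≤ _ := s4
      _ = _ := s5
      _ < _ := s7
  have hq : ((d m : ℚ) : ℝ) < ((((r : ℚ) / 6) ^ (r ^ 2) : ℚ) : ℝ) := by
    push_cast
    exact hlast
  exact (Rat.cast_lt (K := ℝ)).mp hq

end Pool.Agent.Work.MP_6da7fa_al.EG
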