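import Pool.Agent.Work.MP_6da7fa_al.EG.StmtsS

/-!
# Item Gp of block EG: positivity
-/

set_option autoImplicit false

namespace Pool.Agent.Work.MP_6da7fa_al.EG

open Equiv MvPolynomial

private theorem Gp_det {i : ℕ} (a b : Fin i → ℕ) :
    Matrix.det (Matrix.of fun q r => gg (a q) (b r)) =
      (∏ q, (((a q).factorial : ℚ))⁻¹) * ((∏ r, (((b r).factorial : ℚ))⁻¹) *
        (CM (fun q => (a q : ℚ)) (fun r => (b r : ℚ) + 1)).det) := by
  rw [← Matrix.det_mul_row, ← Matrix.det_mul_column]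
  congr 1
  ext q r
  simp only [Matrix.of_apply]
  unfold gg CM
  rw [Matrix.of_apply, one_div, mul_inv, mul_inv, mul_assoc, add_assoc]

/-- Item [Gp] -/
theorem prGp : StGp := by
  intro hCa i a b ha hb
  rw [Gp_det]
  have hpos : ∀ q r : Fin i, 0 < (a q : ℚ) + ((b r : ℚ) + 1) := fun q r => by positivity
  have h1 := hCa ℚ i (fun q => (a q : ℚ)) (fun r => (b r : ℚ) + 1) (fun q r => (hpos q r).ne')
  have h2 : 0 < ∏ q : Fin i, ∏ r ∈ Finset.Ioi q, (((a r : ℚ) - (a q : ℚ)) *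
      (((b r : ℚ) + 1) - ((b q : ℚ) + 1))) := by
    refine Finset.prod_pos fun q _ => Finset.prod_pos fun r hr => ?_
    have hqr : q < r := Finset.mem_Ioi.1 hr
    have e1 : (a r : ℚ) < (a q : ℚ) := by exact_mod_cast ha hqr
    have e2 : (b r : ℚ) < (b q : ℚ) := by exact_mod_cast hb hqr
    exact mul_pos_of_neg_of_neg (by linarith) (by linarith)
  have h3 : 0 < ∏ q : Fin i, ∏ r : Fin i, ((a q : ℚ) + ((b r : ℚ) + 1)) :=
    Finset.prod_pos fun q _ => Finset.prod_pos fun r _ => hpos q r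
  have h4 : 0 < (CM (fun q => (a q : ℚ)) (fun r => (b r : ℚ) + 1)).det := by
    rw [← h1] at h2
    exact (pos_iff_pos_of_mul_pos h2).2 h3
  have h5 : 0 < ∏ q, (((a q).factorial : ℚ))⁻¹ := Finset.prod_pos fun q _ => by positivity
  have h6 : 0 < ∏ r, (((b r).factorial : ℚ))⁻¹ := Finset.prod_pos fun r _ => by positivity
  exact mul_pos h5 (mul_pos h6 h4)

end Pool.Agent.Work.MP_6da7fa_al.EG
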