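import Pool.Agent.Work.MP_6da7fa_al.EG.StmtsV

set_option autoImplicit false

/-!
# Theorem EG, item Gr: a vector outside the span of the semi-invariants
-/

namespace Pool.Agent.Work.MP_6da7fa_al.EG

open Equiv

private theorem Gr_surj {G V W : Type} [Group G] [AddCommGroup V] [Module ℂ V] [AddCommGroup W]
    [Module ℂ W] {ρ : Representation ℂ G V} {σ : Representation ℂ G W} (hσ : σ.IsIrreducible)
    {φ : V →ₗ[ℂ] W} (h0 : φ ≠ 0) (h : ∀ s v, φ (ρ s v) = σ s (φ v)) :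
    Function.Surjective φ := by
  haveI : IsSimpleOrder (Subrepresentation σ) := hσ
  obtain ⟨U, hU⟩ : ∃ U : Subrepresentation σ, U.toSubmodule = LinearMap.range φ :=
    ⟨⟨LinearMap.range φ, by
      rintro g _ ⟨v, rfl⟩
      exact ⟨ρ g v, h g v⟩⟩, rfl⟩
  rcases IsSimpleOrder.eq_bot_or_eq_top U with hb | ht
  · exfalso
    apply h0
    ext v
    have h1 : φ v ∈ U.toSubmodule := by
      rw [hU]
      exact ⟨v, rfl⟩
    rw [hb] at h1
    exact h1
  · intro w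
    have h1 : w ∈ U.toSubmodule := by
      rw [ht]
      exact Submodule.mem_top (R := ℂ)
    rw [hU] at h1
    exact h1

private theorem Gr_SI_map (hSw : ConSw) {α Z V : Type} [Fintype α] [LinearOrder α]
    [AddCommGroup V] [Module ℂ V] (p : Z → Bool) (ρ : Representation ℂ (Perm α) V) (c : α → Z)
    (τ : Perm α) {v : V} (hv : v ∈ SI p ρ c) : ρ τ v ∈ SI p ρ (c ∘ (τ⁻¹ : Perm α)) := by
  rw [hSw] at hv ⊢
  intro x y hxy hc
  have h1 := hv (τ⁻¹ x) (τ⁻¹ y) (fun h => hxy ((τ⁻¹ : Perm α).injective h)) hc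
  have h2 : swap x y * τ = τ * swap (τ⁻¹ x) (τ⁻¹ y) := by
    have h0 : ∀ u, τ (τ⁻¹ u) = u := fun u => τ.apply_symm_apply u
    rw [Equiv.mul_swap_eq_swap_mul, h0, h0]
  have h3 : ρ (swap x y) (ρ τ v) = ρ τ (ρ (swap (τ⁻¹ x) (τ⁻¹ y)) v) := by
    rw [← Module.End.mul_apply, ← map_mul, h2, map_mul, Module.End.mul_apply]
  rw [h3, h1, map_smul]
  rfl

private theorem Gr_B (hSw : ConSw) {α Z V : Type} [Fintype α] [LinearOrder α]
    [AddCommGroup V] [Module ℂ V] (p : Z → Bool) (ρ : Representation ℂ (Perm α) V) (τ : Perm α) :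
    (⨆ c : α → Z, SI p ρ c) ≤ (⨆ c : α → Z, SI p ρ c).comap (ρ τ) := by
  refine iSup_le fun c => ?_
  intro v hv
  exact Submodule.mem_iSup_of_mem (c ∘ (τ⁻¹ : Perm α)) (Gr_SI_map hSw p ρ c τ hv)

private theorem Gr_PP_map {α Z V W : Type} [Fintype α] [LinearOrder α] [DecidableEq Z]
    [AddCommGroup V] [Module ℂ V] [AddCommGroup W] [Module ℂ W] (p : Z → Bool)
    (ρ : Representation ℂ (Perm α) V) (σ : Representation ℂ (Perm α) W)
    (c : α → Z) (φ : V →ₗ[ℂ] W) (h : ∀ s v, φ (ρ s v) = σ s (φ v)) (v : V) :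
    φ (PP p ρ c v) = PP p σ c (φ v) := by
  unfold PP
  simp only [LinearMap.smul_apply, LinearMap.sum_apply, map_smul, map_sum, h]

private theorem Gr_anti (r : ℕ) : StrictAnti (sq r) := by
  intro q s hqs
  have h1 := q.2
  have h2 := s.2
  have h3 : (q : ℕ) < s := hqs
  unfold sq
  omega

private theorem Gr_sz (r : ℕ) : sz (sq r) (sq r) = r ^ 2 := by
  unfold sz sq
  have h1 : ∑ q : Fin r, (r - 1 - (q : ℕ) + (r - 1 - (q : ℕ)) + 1) =
      ∑ q ∈ Finset.range r, ((r - 1 - q) + (r - 1 - q) + 1) :=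
    Fin.sum_univ_eq_sum_range (fun q => (r - 1 - q) + (r - 1 - q) + 1) r
  have h2 : ∑ q ∈ Finset.range r, ((r - 1 - q) + (r - 1 - q) + 1) =
      ∑ q ∈ Finset.range r, (q + q + 1) := Finset.sum_range_reflect (fun q => q + q + 1) r
  have h3 : ∀ n : ℕ, ∑ q ∈ Finset.range n, (q + q + 1) = n ^ 2 := by
    intro n
    induction n with
    | zero => rfl
    | succ n ih =>
      rw [Finset.sum_range_succ, ih]
      ring
  rw [h1, h2, h3]

theorem prGr : StGr := by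
  intro h0 hSw hPp hHt hDe hMl hCm hBx hRc hGt hlast
  intro α V _ _ _ _ _ ρ z K hz
  set B : Submodule ℂ V := ⨆ c : α → ZZ K, SI (par K) ρ c with hBdef
  have hB : ∀ g, B ≤ B.comap (ρ g) := fun g => Gr_B hSw (par K) ρ g
  let ρQ : Representation ℂ (Perm α) (V ⧸ B) := Representation.quotient ρ B hB
  have hQ : ∀ g v, ρQ g (B.mkQ v) = B.mkQ (ρ g v) := fun g v => rfl
  let W : Submodule ℂ (V ⧸ B) := Submodule.span ℂ {w | ∃ τ : Perm α, w = ρQ τ (B.mkQ z)}
  have hW : ∀ g, W ≤ W.comap (ρQ g) := by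
    intro g
    refine Submodule.span_le.2 ?_
    rintro _ ⟨τ, rfl⟩
    refine Submodule.subset_span ⟨g * τ, ?_⟩
    rw [map_mul, Module.End.mul_apply]
  let ρW : Representation ℂ (Perm α) W := Representation.subrepresentation ρQ W hW
  have hWv : ∀ g (w : W), ((ρW g w : W) : V ⧸ B) = ρQ g (w : V ⧸ B) := fun g w => rfl
  have hzW : B.mkQ z ∈ W := by
    refine Submodule.subset_span ⟨1, ?_⟩
    rw [map_one, Module.End.one_apply]
  let zw : W := ⟨B.mkQ z, hzW⟩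
  have hzw : zw ≠ 0 := by
    intro h
    have h1 : B.mkQ z = 0 := congrArg Subtype.val h
    exact hz ((Submodule.Quotient.mk_eq_zero B).1 h1)
  have hfin : Module.finrank ℂ W ≠ 0 := by
    haveI : Nontrivial W := ⟨zw, 0, hzw⟩
    exact Module.finrank_pos.ne'
  -- semi-invariants of W vanish
  have hPW : ∀ (c : α → ZZ K) (w : W), PP (par K) ρW c w = 0 := by
    intro c w
    obtain ⟨v, hv⟩ := B.mkQ_surjective (w : V ⧸ B)
    apply Subtype.ext
    have h1 : ((PP (par K) ρW c w : W) : V ⧸ B) = PP (par K) ρQ c (w : V ⧸ B) :=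
      Gr_PP_map (par K) ρW ρQ c W.subtype (fun s u => rfl) w
    have h2 : B.mkQ (PP (par K) ρ c v) = PP (par K) ρQ c (B.mkQ v) :=
      Gr_PP_map (par K) ρ ρQ c B.mkQ (fun s u => rfl) v
    have h3 : PP (par K) ρ c v ∈ B :=
      Submodule.mem_iSup_of_mem c ((hPp α (ZZ K) V (par K) ρ c).1.map_mem v)
    rw [h1, ← hv, ← h2]
    exact (Submodule.Quotient.mk_eq_zero B).2 h3
  obtain ⟨I⟩ := h0 α
  obtain ⟨m, hch, hm⟩ := hDe α W I ρW
  have hdim := (hMl α W I ρW m hch).2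
  obtain ⟨j, hj⟩ : ∃ j, m j ≠ 0 := by
    by_contra hcon
    push Not at hcon
    apply hfin
    rw [hdim]
    exact Finset.sum_eq_zero fun j _ => by rw [hcon j, Nat.zero_mul]
  obtain ⟨φ, hφ0, hφ⟩ := (hm j).2.1 hj
  have hφs := Gr_surj (I.irr j) hφ0 hφ
  have hSI : ∀ c : α → ZZ K, SI (par K) (I.ρ j) c = ⊥ := by
    intro c
    rw [Submodule.eq_bot_iff]
    intro v hv
    obtain ⟨w, rfl⟩ := hφs v
    have h1 := (hPp α (ZZ K) _ (par K) (I.ρ j) c).1.map_id _ hv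
    rw [← h1, ← Gr_PP_map (par K) ρW (I.ρ j) c φ hφ w, hPW, map_zero]
  obtain ⟨w0, hw0⟩ : ∃ w, φ w ≠ 0 := by
    by_contra hcon
    push Not at hcon
    exact hφ0 (LinearMap.ext hcon)
  let c0 : α → ZZ (Fintype.card α) := fun x => Sum.inl (Fintype.equivFin α x)
  have hc0 : SI (par (Fintype.card α)) (I.ρ j) c0 ≠ ⊥ := by
    intro h
    apply hw0
    have h1 : φ w0 ∈ SI (par (Fintype.card α)) (I.ρ j) c0 := by
      rw [hSw]
      intro x y hxy hc
      exact absurd ((Fintype.equivFin α).injective (Sum.inl_injective hc)) hxy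
    rw [h] at h1
    exact h1
  obtain ⟨r, a, b, -, ha, hb, hsz, hmm⟩ := hCm α I j (Fintype.card α) c0 hc0
  refine ⟨r, ?_, ?_, ?_⟩
  · by_contra hrK
    have hrK' : r ≤ K := Nat.le_of_not_lt hrK
    have hne : mm (I.ρ j) a b ≠ 0 := by rw [hmm]; exact one_ne_zero
    obtain ⟨t, ht, ht0⟩ := Finset.exists_ne_zero_of_sum_ne_zero hne
    obtain ⟨c, rfl⟩ := (hHt.2.2 α (ZZ r) t).1 ht
    rw [hHt.1 α (ZZ r) _ (par r) (I.ρ j) c] at ht0
    have hne2 : SI (par r) (I.ρ j) c ≠ ⊥ := by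
      intro h
      apply ht0
      unfold hn
      rw [h, finrank_bot]
      simp
    apply hne2
    rw [← hHt.2.1 α (ZZ r) (ZZ K) _ (par r) (par K) (I.ρ j) c
      (Sum.map (Fin.castLE hrK') (Fin.castLE hrK'))
      (Function.Injective.sumMap (Fin.castLE_injective hrK') (Fin.castLE_injective hrK'))
      (fun z => by rcases z with z | z <;> rfl)]
    exact hSI _
  · rw [← hsz]
    exact (hBx r a b ha hb).1
  · intro β _ _ f hcard
    have h1 : mm (resE f (I.ρ j)) (sq r) (sq r) ≠ 0 :=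
      hRc α β _ f (I.ρ j) r a b ha hb hsz (by rw [hmm]; exact one_ne_zero) hcard
    have hspan : Submodule.span ℂ {v | ∃ s : Perm β, ∃ x ∈ {x | ∃ τ : Perm α, x = φ (ρW τ zw)},
        v = resE f (I.ρ j) s x} = ⊤ := by
      rw [eq_top_iff]
      intro v _
      obtain ⟨w, rfl⟩ := hφs v
      obtain ⟨u, hu⟩ := w
      refine Submodule.span_induction (p := fun u hu => φ ⟨u, hu⟩ ∈ Submodule.span ℂ
        {v | ∃ s : Perm β, ∃ x ∈ {x | ∃ τ : Perm α, x = φ (ρW τ zw)},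
        v = resE f (I.ρ j) s x}) ?_ ?_ ?_ ?_ hu
      · rintro _ ⟨τ, rfl⟩
        refine Submodule.subset_span ⟨1, φ (ρW τ zw), ⟨τ, rfl⟩, ?_⟩
        rw [map_one, Module.End.one_apply]
        rfl
      · have h2 : φ ⟨0, W.zero_mem⟩ = 0 := map_zero φ
        rw [h2]
        exact Submodule.zero_mem _
      · intro x y hx hy h2 h3
        have h4 : φ ⟨x + y, W.add_mem hx hy⟩ = φ ⟨x, hx⟩ + φ ⟨y, hy⟩ :=
          map_add φ ⟨x, hx⟩ ⟨y, hy⟩
        rw [h4]
        exact Submodule.add_mem _ h2 h3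
      · intro k x hx h2
        have h4 : φ ⟨k • x, W.smul_mem k hx⟩ = k • φ ⟨x, hx⟩ := map_smul φ k ⟨x, hx⟩
        rw [h4]
        exact Submodule.smul_mem _ k h2
    obtain ⟨x, ⟨τ, rfl⟩, hx⟩ := hGt β _ (resE f (I.ρ j)) r (sq r) (sq r)
      {x | ∃ τ : Perm α, x = φ (ρW τ zw)} (Gr_anti r) (Gr_anti r) (by rw [Gr_sz, hcard]) h1 hspan
    refine ⟨τ, ?_⟩
    obtain ⟨φ', hφ'⟩ := LinearMap.exists_extend φ
    have hφ'' : ∀ w : W, φ w = φ' (w : V ⧸ B) := fun w => by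
      rw [← hφ']
      rfl
    have hle : Submodule.span ℂ {v | ∃ s : Perm β, v = resE f (I.ρ j) s (φ (ρW τ zw))} ≤
        (Submodule.span ℂ {v | ∃ s : Perm β, v = resE f ρ s (ρ τ z)}).map (φ' ∘ₗ B.mkQ) := by
      refine Submodule.span_le.2 ?_
      rintro _ ⟨s, rfl⟩
      refine ⟨resE f ρ s (ρ τ z), Submodule.subset_span ⟨s, rfl⟩, ?_⟩
      have h2 : resE f (I.ρ j) s (φ (ρW τ zw)) =
          φ (ρW (Perm.viaEmbeddingHom f.toEmbedding s) (ρW τ zw)) := (hφ _ _).symm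
      rw [h2, hφ'']
      rfl
    have h3 : Module.finrank ℂ (Submodule.span ℂ
        {v | ∃ s : Perm β, v = resE f (I.ρ j) s (φ (ρW τ zw))}) ≤
        Module.finrank ℂ (Submodule.span ℂ {v | ∃ s : Perm β, v = resE f ρ s (ρ τ z)}) :=
      (Submodule.finrank_mono hle).trans (Submodule.finrank_map_le _ _)
    have h4 := hlast r
    have h5 : fd (sq r) (sq r) = ((r ^ 2).factorial : ℚ) *
        Matrix.det (Matrix.of fun q s : Fin r => gg (sq r q) (sq r s)) := by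
      unfold fd
      rw [Gr_sz]
    rw [← h5] at h4
    exact (h4.trans hx).trans (by exact_mod_cast h3)

end Pool.Agent.Work.MP_6da7fa_al.EG
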