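import Pool.Agent.Work.MP_6da7fa_al.EG.StmtsV

/-!
# Item Gt: the dimension of the space generated by one vector
-/

set_option autoImplicit false

namespace Pool.Agent.Work.MP_6da7fa_al.EG

open Equiv

theorem prGt : StGt := by
  intro hIr hCl hNz β V _ _ _ _ _ ρ i a b X ha hb hsz hmm hspan
  obtain ⟨I⟩ := hIr β
  obtain ⟨j, hj1, hj2⟩ := hCl.1 β I i a b ha hb hsz
  have h1 : mm (I.ρ j) a b = 1 := by
    rw [hj1 j, if_pos rfl]
  obtain ⟨f, hf, hfe⟩ := (hNz β V I ρ i a b j ha hb hsz h1).mp hmm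
  have hx : ∃ x ∈ X, f x ≠ 0 := by
    by_contra hcon
    push Not at hcon
    apply hf
    refine LinearMap.ext_on hspan ?_
    rintro v ⟨s, x, hx, rfl⟩
    rw [hfe, hcon x hx, map_zero, LinearMap.zero_apply]
  obtain ⟨x, hxX, hfx⟩ := hx
  refine ⟨x, hxX, ?_⟩
  set U : Submodule ℂ V := Submodule.span ℂ {v | ∃ s : Perm β, v = ρ s x} with hU
  have hUinv : ∀ (s : Perm β) (v : V), v ∈ U → ρ s v ∈ U := by
    intro s v hv
    have h2 : U.map (ρ s) ≤ U := by
      rw [hU, Submodule.map_span_le]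
      rintro w ⟨s', rfl⟩
      refine Submodule.subset_span ⟨s * s', ?_⟩
      rw [map_mul]
      rfl
    exact h2 (Submodule.mem_map_of_mem hv)
  have hxU : x ∈ U := Submodule.subset_span ⟨1, by rw [map_one]; rfl⟩
  let S : Subrepresentation (I.ρ j) := ⟨U.map f, by
    intro s v hv
    obtain ⟨u, hu, rfl⟩ := hv
    rw [← hfe]
    exact Submodule.mem_map_of_mem (hUinv s u hu)⟩
  haveI := I.irr j
  have hS : U.map f = ⊤ := by
    rcases eq_bot_or_eq_top S with h | h
    · exfalso
      apply hfx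
      have h2 : U.map f = ⊥ := congrArg Subrepresentation.toSubmodule h
      have h3 : f x ∈ U.map f := Submodule.mem_map_of_mem hxU
      rw [h2, Submodule.mem_bot] at h3
      exact h3
    · exact congrArg Subrepresentation.toSubmodule h
  have h4 : Module.finrank ℂ (U.map f) ≤ Module.finrank ℂ U := Submodule.finrank_map_le f U
  rw [hS, finrank_top, Module.finrank_fintype_fun_eq_card, Fintype.card_fin] at h4
  rw [← hj2]
  exact_mod_cast h4

end Pool.Agent.Work.MP_6da7fa_al.EG
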