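import Pool.Agent.Work.MP_6da7fa_al.EG.StmtsS

/-!
# Theorem EG, item HE
-/

set_option autoImplicit false

namespace Pool.Agent.Work.MP_6da7fa_al.EG

open Equiv MvPolynomial

private theorem HE_zero {Z R : Type} [Fintype Z] [DecidableEq Z] [CommRing R] (p : Z → Bool)
    (z : Z → R) : hh p z 0 = 1 := by
  unfold hh TT
  have h1 : Finset.piAntidiag (Finset.univ : Finset Z) 0 = {(0 : Z → ℕ)} :=
    Finset.piAntidiag_zero _
  have h2 : ∀ i, p i = true → (0 : Z → ℕ) i ≤ 1 := fun i _ => Nat.zero_le 1
  rw [h1, Finset.filter_singleton, if_pos h2, Finset.sum_singleton]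
  simp

private theorem HE_neg {Z R : Type} [Fintype Z] [DecidableEq Z] [CommRing R] (p : Z → Bool)
    (z : Z → R) (n : ℕ) : hh p (fun i => -z i) n = (-1) ^ n * hh p z n := by
  unfold hh
  rw [Finset.mul_sum]
  refine Finset.sum_congr rfl fun ν hν => ?_
  have h1 : ∑ i, ν i = n := by
    have h2 := (Finset.mem_filter.1 hν).1
    unfold TT at h2
    rw [Finset.mem_piAntidiag] at h2
    exact h2.1
  have h3 : ∀ i, (-z i) ^ ν i = (-1) ^ ν i * z i ^ ν i := fun i => by
    rw [← mul_pow, neg_one_mul]
  rw [Finset.prod_congr rfl fun i _ => h3 i, Finset.prod_mul_distrib, Finset.prod_pow_eq_pow_sum,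
    h1]

theorem prHE : StHE := by
  intro hHG Z R _ _ _ p z
  refine ⟨HE_zero p z, fun m hm => ?_⟩
  set A : PowerSeries R := ∏ i, (if p i = true then 1 else 1 - PowerSeries.C (z i) * PowerSeries.X)
    with hA
  set B : PowerSeries R := ∏ i, (if p i = true then 1 + PowerSeries.C (z i) * PowerSeries.X else 1)
    with hB
  have h1 : (PowerSeries.mk fun n => hh p z n) * A = B := hHG Z R p z
  have h2 : (PowerSeries.mk fun n => (-1 : R) ^ n * hh (op p) z n) * B = A := by
    have h3 := hHG Z R (op p) (fun i => -z i)
    have e1 : (PowerSeries.mk fun n => hh (op p) (fun i => -z i) n) =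
        PowerSeries.mk fun n => (-1 : R) ^ n * hh (op p) z n := by
      congr 1
      funext n
      exact HE_neg (op p) z n
    have e2 : ∏ i, (if op p i = true then (1 : PowerSeries R) else
        1 - PowerSeries.C (-z i) * PowerSeries.X) = B := by
      rw [hB]
      refine Finset.prod_congr rfl fun i _ => ?_
      unfold op
      cases p i with
      | true => simp
      | false => simp
    have e3 : ∏ i, (if op p i = true then 1 + PowerSeries.C (-z i) * PowerSeries.X else
        (1 : PowerSeries R)) = A := by
      rw [hA]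
      refine Finset.prod_congr rfl fun i _ => ?_
      unfold op
      cases p i with
      | true => simp
      | false => simp [sub_eq_add_neg]
    rw [e1, e2, e3] at h3
    exact h3
  have hcA : PowerSeries.constantCoeff A = 1 := by
    rw [hA, map_prod]
    refine Finset.prod_eq_one fun i _ => ?_
    split_ifs <;> simp
  have hcB : PowerSeries.constantCoeff B = 1 := by
    rw [hB, map_prod]
    refine Finset.prod_eq_one fun i _ => ?_
    split_ifs <;> simp
  have hu : IsUnit (A * B) := by
    rw [PowerSeries.isUnit_iff_constantCoeff, map_mul, hcA, hcB, one_mul]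
    exact isUnit_one
  have h3 : (PowerSeries.mk fun n => (-1 : R) ^ n * hh (op p) z n) *
      (PowerSeries.mk fun n => hh p z n) = 1 := by
    refine hu.mul_right_cancel ?_
    calc (PowerSeries.mk fun n => (-1 : R) ^ n * hh (op p) z n) *
          (PowerSeries.mk fun n => hh p z n) * (A * B)
        = ((PowerSeries.mk fun n => (-1 : R) ^ n * hh (op p) z n) * B) *
          ((PowerSeries.mk fun n => hh p z n) * A) := by ring
      _ = 1 * (A * B) := by rw [h1, h2]; ring
  have h4 := congrArg (PowerSeries.coeff m) h3
  rw [PowerSeries.coeff_mul, PowerSeries.coeff_one, if_neg (by omega),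
    Finset.Nat.sum_antidiagonal_eq_sum_range_succ_mk] at h4
  rw [← h4]
  refine Finset.sum_congr rfl fun j _ => ?_
  simp only [PowerSeries.coeff_mk]
  ring

end Pool.Agent.Work.MP_6da7fa_al.EG
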