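import Pool.Agent.Work.MP_6da7fa_al.EG.StmtsS

set_option autoImplicit false

namespace Pool.Agent.Work.MP_6da7fa_al.EG

open Equiv MvPolynomial

theorem Hs_memTT {Z : Type} [Fintype Z] [DecidableEq Z] (n : ℕ) (ν : Z → ℕ) :
    ν ∈ TT Z n ↔ ∑ i, ν i = n := by
  unfold TT
  rw [Finset.mem_piAntidiag]
  simp

theorem Hs_perm (Z R : Type) [Fintype Z] [DecidableEq Z] [CommRing R] (p : Z → Bool) (z : Z → R)
    (e : Perm Z) (he : ∀ i, p (e i) = p i) (n : ℕ) : hh p (fun i => z (e i)) n = hh p z n := by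
  have he' : ∀ i, p (e.symm i) = p i := by
    intro i
    have := he (e.symm i)
    rw [Equiv.apply_symm_apply] at this
    exact this.symm
  unfold hh
  refine Finset.sum_bij' (fun ν _ => fun i => ν (e.symm i)) (fun ν _ => fun i => ν (e i)) ?_ ?_ ?_ ?_ ?_
  · intro ν hν
    rw [Finset.mem_filter, Hs_memTT] at hν ⊢
    refine ⟨?_, ?_⟩
    · rw [← hν.1]
      exact Equiv.sum_comp e.symm ν
    · intro i hi
      exact hν.2 _ ((he' i).trans hi)
  · intro ν hν
    rw [Finset.mem_filter, Hs_memTT] at hν ⊢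
    refine ⟨?_, ?_⟩
    · rw [← hν.1]
      exact Equiv.sum_comp e ν
    · intro i hi
      exact hν.2 _ ((he i).trans hi)
  · intro ν _
    funext i
    simp
  · intro ν _
    funext i
    simp
  · intro ν _
    rw [← Equiv.prod_comp e (fun i => z i ^ ν (e.symm i))]
    simp

theorem Hs_hhmap {Z R S : Type} [Fintype Z] [DecidableEq Z] [CommRing R] [CommRing S] (f : R →+* S)
    (p : Z → Bool) (z : Z → R) (n : ℕ) : f (hh p z n) = hh p (fun i => f (z i)) n := by
  unfold hh
  simp only [map_sum, map_prod, map_pow]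

theorem Hs_SSmap {Z R S : Type} [Fintype Z] [DecidableEq Z] [CommRing R] [CommRing S] (f : R →+* S)
    (p : Z → Bool) (z : Z → R) (a b : ℕ) : f (SS p z a b) = SS p (fun i => f (z i)) a b := by
  unfold SS
  simp only [map_sum, map_mul, map_pow, map_neg, map_one, Hs_hhmap]

theorem Hs_sdetmap {Z R S : Type} [Fintype Z] [DecidableEq Z] [CommRing R] [CommRing S] (f : R →+* S)
    (p : Z → Bool) (z : Z → R) {i : ℕ} (a b : Fin i → ℕ) :
    f (sdet p z a b) = sdet p (fun i => f (z i)) a b := by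
  unfold sdet
  rw [RingHom.map_det]
  congr 1
  ext q r
  simp [Hs_SSmap]

theorem Hs_sdetperm {Z R : Type} [Fintype Z] [DecidableEq Z] [CommRing R] (p : Z → Bool) (z : Z → R)
    (e : Perm Z) (he : ∀ i, p (e i) = p i) {i : ℕ} (a b : Fin i → ℕ) :
    sdet p (fun i => z (e i)) a b = sdet p z a b := by
  have h1 := Hs_perm Z R p z e he
  have h2 := Hs_perm Z R (op p) z e (by intro i; unfold op; rw [he])
  unfold sdet SS
  simp only [h1, h2]

theorem prHs : StHs := by
  refine ⟨Hs_perm, ?_, ?_⟩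
  · intro k i a b v w
    have h1 := Hs_sdetmap (rename (R := ℤ) (Sum.map v w) : MvPolynomial (ZZ k) ℤ →ₐ[ℤ] MvPolynomial (ZZ k) ℤ).toRingHom
      (par k) (fun z => (X z : MvPolynomial (ZZ k) ℤ)) a b
    have h2 := Hs_sdetperm (par k) (fun z => (X z : MvPolynomial (ZZ k) ℤ)) (Equiv.sumCongr v w)
      (by rintro (i | i) <;> rfl) a b
    have h3 : (rename (R := ℤ) (Sum.map v w)) (sdet (par k) (fun z => (X z : MvPolynomial (ZZ k) ℤ)) a b) =
      sdet (par k) (fun z => (rename (R := ℤ) (Sum.map v w)) (X z : MvPolynomial (ZZ k) ℤ)) a b := h1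
    rw [h3]
    simp only [rename_X]
    exact h2
  · intro k v w
    unfold EE
    simp only [map_prod, map_add, rename_X, Sum.map_inl, Sum.map_inr]
    rw [Equiv.prod_comp v (fun q => ∏ r : Fin k, ((X (Sum.inl q) : MvPolynomial (ZZ k) ℤ) + X (Sum.inr (w r))))]
    refine Finset.prod_congr rfl fun q _ => ?_
    exact Equiv.prod_comp w (fun r => ((X (Sum.inl q) : MvPolynomial (ZZ k) ℤ) + X (Sum.inr r)))

end Pool.Agent.Work.MP_6da7fa_al.EG
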