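import Pool.Agent.Work.MP_6da7fa_al.EG.StmtsV

set_option autoImplicit false

/-!
# Theorem EG, item Ht: the semi-invariants depend only on the type of the colouring
-/

namespace Pool.Agent.Work.MP_6da7fa_al.EG

open Equiv

/-- colourings of the same type differ by a permutation -/
theorem Ht_perm {α Z : Type} [Fintype α] [DecidableEq Z] (c c' : α → Z) (h : typ c' = typ c) :
    ∃ σ : Perm α, c' = c ∘ σ := by
  classical
  have h1 : ∀ z, Fintype.card {x // c' x = z} = Fintype.card {x // c x = z} := by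
    intro z
    rw [Fintype.card_subtype, Fintype.card_subtype]
    exact congrFun h z
  have e : ∀ z, {x // c' x = z} ≃ {x // c x = z} := fun z => Fintype.equivOfCardEq (h1 z)
  refine ⟨(Equiv.sigmaFiberEquiv c').symm.trans ((Equiv.sigmaCongrRight e).trans
    (Equiv.sigmaFiberEquiv c)), ?_⟩
  funext x
  exact (e (c' x) ⟨x, rfl⟩).2.symm

theorem Ht_mem (hSw : ConSw) {α Z V : Type} [Fintype α] [LinearOrder α] [AddCommGroup V]
    [Module ℂ V] (p : Z → Bool) (ρ : Representation ℂ (Perm α) V) (c : α → Z) (σ : Perm α)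
    (v : V) : v ∈ SI p ρ (c ∘ σ) ↔ ρ σ v ∈ SI p ρ c := by
  have key : ∀ x y : α, ρ (swap (σ x) (σ y)) (ρ σ v) = ρ σ (ρ (swap x y) v) := by
    intro x y
    have h1 : swap (σ x) (σ y) * σ = σ * swap x y := by
      rw [Equiv.swap_apply_apply]
      group
    calc ρ (swap (σ x) (σ y)) (ρ σ v) = (ρ (swap (σ x) (σ y)) * ρ σ) v := rfl
      _ = ρ (swap (σ x) (σ y) * σ) v := by rw [map_mul]
      _ = ρ (σ * swap x y) v := by rw [h1]
      _ = (ρ σ * ρ (swap x y)) v := by rw [map_mul]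
      _ = ρ σ (ρ (swap x y) v) := rfl
  have hinj : ∀ a b : V, ρ σ a = ρ σ b → a = b := by
    intro a b hab
    have h2 : ∀ w : V, ρ σ⁻¹ (ρ σ w) = w := by
      intro w
      calc ρ σ⁻¹ (ρ σ w) = (ρ σ⁻¹ * ρ σ) w := rfl
        _ = ρ (σ⁻¹ * σ) w := by rw [map_mul]
        _ = w := by rw [inv_mul_cancel, map_one]; rfl
    rw [← h2 a, hab, h2 b]
  rw [hSw, hSw]
  constructor
  · intro h x' y' hne hc
    obtain ⟨x, rfl⟩ := σ.surjective x'
    obtain ⟨y, rfl⟩ := σ.surjective y'
    rw [key, h x y (fun e => hne (by rw [e])) hc, map_smul]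
    rfl
  · intro h x y hne hc
    have h3 := h (σ x) (σ y) (fun e => hne (σ.injective e)) hc
    rw [key, ← map_smul] at h3
    exact hinj _ _ h3

theorem Ht_hn (hSw : ConSw) {α Z V : Type} [Fintype α] [LinearOrder α] [AddCommGroup V]
    [Module ℂ V] (p : Z → Bool) (ρ : Representation ℂ (Perm α) V) (c : α → Z) (σ : Perm α) :
    hn p ρ (c ∘ σ) = hn p ρ c := by
  have h2 : ∀ (τ : Perm α) (w : V), ρ τ⁻¹ (ρ τ w) = w := by
    intro τ w
    calc ρ τ⁻¹ (ρ τ w) = (ρ τ⁻¹ * ρ τ) w := rfl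
      _ = ρ (τ⁻¹ * τ) w := by rw [map_mul]
      _ = w := by rw [inv_mul_cancel, map_one]; rfl
  have h3 : ∀ w : V, ρ σ (ρ σ⁻¹ w) = w := by
    intro w
    have h := h2 σ⁻¹ w
    rw [inv_inv] at h
    exact h
  let e : V ≃ₗ[ℂ] V := LinearEquiv.ofLinearMap (ρ σ) (ρ σ⁻¹) (LinearMap.ext h3)
    (LinearMap.ext (h2 σ))
  have h4 : (SI p ρ (c ∘ σ)).map (e : V →ₗ[ℂ] V) = SI p ρ c := by
    ext v
    rw [Submodule.mem_map]
    constructor
    · rintro ⟨w, hw, rfl⟩
      exact (Ht_mem hSw p ρ c σ w).1 hw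
    · intro hv
      refine ⟨ρ σ⁻¹ v, ?_, h3 v⟩
      rw [Ht_mem hSw, h3]
      exact hv
  unfold hn
  rw [← h4]
  exact (LinearEquiv.finrank_map_eq e (SI p ρ (c ∘ σ))).symm

theorem prHt : StHt := by
  intro hSw
  refine ⟨?_, ?_, ?_⟩
  · intro α Z V _ _ _ _ _ _ p ρ c
    have hex : ∃ c' : α → Z, typ c' = typ c := ⟨c, rfl⟩
    unfold hT
    rw [dif_pos hex]
    obtain ⟨σ, hσ⟩ := Ht_perm c hex.choose hex.choose_spec
    rw [hσ]
    exact Ht_hn hSw p ρ c σ
  · intro α Z Z' V _ _ _ _ p p' ρ c e he hp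
    ext v
    rw [hSw, hSw]
    constructor
    · intro h x y hne hc
      have h1 := h x y hne (congrArg e hc)
      rw [Function.comp_apply, hp] at h1
      exact h1
    · intro h x y hne hc
      rw [Function.comp_apply, hp]
      exact h x y hne (he hc)
  · intro α Z _ _ _ t
    unfold TT
    rw [Finset.mem_piAntidiag]
    constructor
    · rintro ⟨hs, -⟩
      have hcard : Fintype.card α = Fintype.card (Σ z, Fin (t z)) := by
        rw [Fintype.card_sigma, ← hs]
        refine Finset.sum_congr rfl fun z _ => ?_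
        rw [Fintype.card_fin]
      let e : α ≃ Σ z, Fin (t z) := Fintype.equivOfCardEq hcard
      refine ⟨fun x => (e x).1, ?_⟩
      funext z
      unfold typ
      rw [← Fintype.card_subtype]
      have h1 : {x // (e x).1 = z} ≃ Fin (t z) :=
        (e.subtypeEquiv (p := fun x => (e x).1 = z) (q := fun y => y.1 = z)
          (fun x => Iff.rfl)).trans (Equiv.sigmaSubtype z)
      rw [Fintype.card_congr h1, Fintype.card_fin]
    · rintro ⟨c, rfl⟩
      refine ⟨?_, fun i _ => Finset.mem_univ i⟩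
      unfold typ
      rw [← Finset.card_univ]
      exact (Finset.card_eq_sum_card_fiberwise (f := c) (s := Finset.univ) (t := Finset.univ)
        (fun x _ => Finset.mem_coe.2 (Finset.mem_univ (c x)))).symm

end Pool.Agent.Work.MP_6da7fa_al.EG
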