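import Pool.Agent.Work.MP_6da7fa_al.EG.StmtsV

set_option autoImplicit false

/-!
# Theorem EG, item Ir: existence of a complete system of irreducible representations
-/

namespace Pool.Agent.Work.MP_6da7fa_al.EG

open Equiv

/-- Irreducibility is invariant under isomorphisms. -/
theorem Ir_irr {G V W : Type} [Group G] [AddCommGroup V] [Module ℂ V] [AddCommGroup W] [Module ℂ W]
    (ρ : Representation ℂ G V) (σ : Representation ℂ G W) (φ : Representation.Equiv ρ σ)
    (h : ρ.IsIrreducible) : σ.IsIrreducible := by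
  rw [Representation.irreducible_iff_isSimpleModule_asModule] at h ⊢
  have hb : Function.Bijective
      (Representation.IntertwiningMap.equivLinearMapAsModule ρ σ φ.toIntertwiningMap) :=
    φ.toLinearEquiv.bijective
  exact IsSimpleModule.congr (LinearEquiv.ofBijective _ hb).symm

/-- The set of the characters of irreducible representations on some `Fin m → ℂ`. -/
def Ir_C (α : Type) [Fintype α] [DecidableEq α] : Set (Perm α → ℂ) :=
  {χ | ∃ (m : ℕ) (ρ : Representation ℂ (Perm α) (Fin m → ℂ)), ρ.IsIrreducible ∧ ρ.character = χ}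

theorem Ir_orth (hre : StRe) (α : Type) [Fintype α] [DecidableEq α] {χ ψ : Perm α → ℂ}
    (hχ : χ ∈ Ir_C α) (hψ : ψ ∈ Ir_C α) (h : χ ≠ ψ) : ∑ s, χ s * ψ s = 0 := by
  obtain ⟨m, ρ, hρ, rfl⟩ := hχ
  obtain ⟨n, σ, hσ, rfl⟩ := hψ
  have hc : (Nat.card (Perm α) : ℂ) ≠ 0 := by
    exact_mod_cast Nat.card_pos.ne'
  haveI : Invertible (Nat.card (Perm α) : ℂ) := invertibleOfNonzero hc
  haveI := hρ
  haveI := hσ
  have h1 := Representation.char_orthonormal ρ σ
  rw [if_neg] at h1
  · have h2 : ∑ s, ρ.character s * σ.character s⁻¹ = 0 := by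
      rcases mul_eq_zero.1 h1 with h3 | h3
      · exact absurd (inv_eq_zero.1 h3) hc
      · exact h3
    rw [← h2]
    refine Finset.sum_congr rfl (fun s _ => ?_)
    rw [hre]
  · rintro ⟨φ⟩
    exact h (Representation.char_iso φ).symm

theorem Ir_norm (hre : StRe) (α : Type) [Fintype α] [DecidableEq α] {χ : Perm α → ℂ}
    (hχ : χ ∈ Ir_C α) : ∑ s, χ s * χ s ≠ 0 := by
  obtain ⟨m, ρ, hρ, rfl⟩ := hχ
  have hc : (Nat.card (Perm α) : ℂ) ≠ 0 := by
    exact_mod_cast Nat.card_pos.ne'
  haveI : Invertible (Nat.card (Perm α) : ℂ) := invertibleOfNonzero hc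
  haveI := hρ
  have h1 := Representation.char_orthonormal ρ ρ
  rw [if_pos ⟨Representation.Equiv.refl ρ⟩] at h1
  intro h2
  have h3 : ∑ s, ρ.character s * ρ.character s⁻¹ = 0 := by
    rw [← h2]
    refine Finset.sum_congr rfl (fun s _ => ?_)
    rw [hre]
  rw [h3, mul_zero] at h1
  exact zero_ne_one h1

theorem Ir_li (hre : StRe) (α : Type) [Fintype α] [DecidableEq α] :
    LinearIndependent ℂ (fun χ : Ir_C α => (χ : Perm α → ℂ)) := by
  classical
  rw [linearIndependent_iff']
  intro s g hg i hi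
  have h1 : ∑ t, (∑ χ ∈ s, g χ • (χ : Perm α → ℂ)) t * (i : Perm α → ℂ) t = 0 := by
    rw [hg]
    simp
  have h2 : ∑ t, (∑ χ ∈ s, g χ • (χ : Perm α → ℂ)) t * (i : Perm α → ℂ) t =
      ∑ χ ∈ s, g χ * ∑ t, (χ : Perm α → ℂ) t * (i : Perm α → ℂ) t := by
    simp_rw [Finset.sum_apply, Finset.sum_mul, Finset.mul_sum]
    rw [Finset.sum_comm]
    refine Finset.sum_congr rfl (fun χ _ => Finset.sum_congr rfl (fun t _ => ?_))
    rw [Pi.smul_apply, smul_eq_mul, mul_assoc]
  rw [h2, Finset.sum_eq_single i] at h1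
  · rcases mul_eq_zero.1 h1 with h3 | h3
    · exact h3
    · exact absurd h3 (Ir_norm hre α i.2)
  · intro χ _ hχ
    rw [Ir_orth hre α χ.2 i.2 (fun h => hχ (Subtype.ext h)), mul_zero]
  · intro h
    exact absurd hi h

theorem prIr : StIr := by
  intro hre α _ _
  have hfin : Finite (Ir_C α) := (Ir_li hre α).finite
  letI : Fintype (Ir_C α) := Fintype.ofFinite _
  choose d ρ hirr hch using fun χ : Ir_C α => χ.2
  refine ⟨⟨Ir_C α, inferInstance, d, ρ, hirr, ?_, ?_⟩⟩
  · intro i j hij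
    rw [hch, hch] at hij
    exact Subtype.ext hij
  · intro V _ _ _ σ hσ
    let e : V ≃ₗ[ℂ] (Fin (Module.finrank ℂ V) → ℂ) := (Module.finBasis ℂ V).equivFun
    let σ' : Representation ℂ (Perm α) (Fin (Module.finrank ℂ V) → ℂ) :=
      e.conjRingEquiv.toMonoidHom.comp σ
    let φ : Representation.Equiv σ σ' := Representation.Equiv.mk e (fun g => by
      refine LinearMap.ext (fun v => ?_)
      change e (σ g v) = e (σ g (e.symm (e v)))
      rw [e.symm_apply_apply])
    have h1 : σ'.IsIrreducible := Ir_irr σ σ' φ hσ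
    have h2 : σ.character = σ'.character := Representation.char_iso φ
    refine ⟨⟨σ'.character, ⟨_, σ', h1, rfl⟩⟩, ?_⟩
    rw [hch, h2]

end Pool.Agent.Work.MP_6da7fa_al.EG
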