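import Pool.Agent.Work.MP_6da7fa_al.EG.StmtsS

set_option autoImplicit false

/-!
# Item K0: telescoping
-/

namespace Pool.Agent.Work.MP_6da7fa_al.EG

open MvPolynomial

theorem K0_kap (a b α β : ℕ) :
    kap a b (α + 1) β + kap a b α (β + 1) = if α = a ∧ β = b then 1 else 0 := by
  unfold kap
  by_cases h : α + β = a + b
  · rcases lt_trichotomy α a with h1 | h1 | h1
    · rw [if_neg (by omega), if_neg (by omega), if_neg (by omega)]
      rfl
    · rw [if_pos (by omega), if_neg (by omega), if_pos (by omega), h1]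
      simp
    · obtain ⟨m, rfl⟩ := Nat.exists_eq_add_of_lt h1
      rw [if_pos (by omega), if_pos (by omega), if_neg (by omega)]
      have e1 : a + m + 1 + 1 - a - 1 = m + 1 := by omega
      have e2 : a + m + 1 - a - 1 = m := by omega
      rw [e1, e2, pow_succ]
      ring
  · rw [if_neg (by omega), if_neg (by omega), if_neg (by omega)]
    rfl

/-- the weight -/
def K0_w {k : ℕ} (a b : Fin k → ℕ) (t : ZZ k →₀ ℕ) : ℤ :=
  ∏ q, kap (a q) (b q) (t (Sum.inl q)) (t (Sum.inr q))

theorem K0_sup {k : ℕ} (a b : Fin k → ℕ) (F : MvPolynomial (ZZ k) ℤ)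
    (S : Finset (ZZ k →₀ ℕ)) (hS : F.support ⊆ S) :
    kap0 a b F = ∑ t ∈ S, K0_w a b t * F.coeff t := by
  unfold kap0
  refine Finset.sum_subset hS fun t _ ht => ?_
  rw [notMem_support_iff.mp ht, mul_zero]

theorem K0_add {k : ℕ} (a b : Fin k → ℕ) (F G : MvPolynomial (ZZ k) ℤ) :
    kap0 a b (F + G) = kap0 a b F + kap0 a b G := by
  classical
  rw [K0_sup a b (F + G) (F.support ∪ G.support) support_add,
    K0_sup a b F (F.support ∪ G.support) Finset.subset_union_left,
    K0_sup a b G (F.support ∪ G.support) Finset.subset_union_right,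
    ← Finset.sum_add_distrib]
  refine Finset.sum_congr rfl fun t _ => ?_
  rw [coeff_add, mul_add]

theorem K0_zero {k : ℕ} (a b : Fin k → ℕ) : kap0 a b (0 : MvPolynomial (ZZ k) ℤ) = 0 := by
  rw [K0_sup a b 0 ∅ (by simp)]
  simp

theorem K0_sum {k : ℕ} (a b : Fin k → ℕ) {ι : Type} (s : Finset ι)
    (f : ι → MvPolynomial (ZZ k) ℤ) : kap0 a b (∑ i ∈ s, f i) = ∑ i ∈ s, kap0 a b (f i) := by
  classical
  induction s using Finset.induction_on with
  | empty => simp [K0_zero]
  | insert i s hi ih => rw [Finset.sum_insert hi, Finset.sum_insert hi, K0_add, ih]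

theorem K0_mon {k : ℕ} (a b : Fin k → ℕ) (t : ZZ k →₀ ℕ) (c : ℤ) :
    kap0 a b (monomial t c) = K0_w a b t * c := by
  classical
  rw [K0_sup a b (monomial t c) {t} support_monomial_subset, Finset.sum_singleton, coeff_monomial,
    if_pos rfl]

/-- the exponent of the product attached to `U` -/
noncomputable def K0_e {k : ℕ} (U : Finset (Fin k)) : ZZ k →₀ ℕ :=
  ∑ q ∈ U, Finsupp.single (Sum.inl q) 1 + ∑ q ∈ Finset.univ \ U, Finsupp.single (Sum.inr q) 1

theorem K0_e_inl {k : ℕ} (U : Finset (Fin k)) (q : Fin k) :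
    K0_e U (Sum.inl q) = if q ∈ U then 1 else 0 := by
  classical
  unfold K0_e
  rw [Finsupp.add_apply, Finsupp.finsetSum_apply, Finsupp.finsetSum_apply]
  simp [Finsupp.single_apply]

theorem K0_e_inr {k : ℕ} (U : Finset (Fin k)) (q : Fin k) :
    K0_e U (Sum.inr q) = if q ∈ U then 0 else 1 := by
  classical
  unfold K0_e
  rw [Finsupp.add_apply, Finsupp.finsetSum_apply, Finsupp.finsetSum_apply]
  by_cases h : q ∈ U
  · simp [Finsupp.single_apply, h]
  · simp [Finsupp.single_apply, h]

theorem K0_prod {k : ℕ} (U : Finset (Fin k)) :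
    (∏ q ∈ U, (X (Sum.inl q) : MvPolynomial (ZZ k) ℤ)) * ∏ q ∈ Finset.univ \ U, X (Sum.inr q) =
      monomial (K0_e U) 1 := by
  unfold K0_e
  have h1 : ∀ (s : Finset (Fin k)) (f : Fin k → ZZ k),
      (∏ q ∈ s, (X (f q) : MvPolynomial (ZZ k) ℤ)) =
        monomial (∑ q ∈ s, Finsupp.single (f q) 1) 1 := by
    intro s f
    rw [monomial_sum_one]
    rfl
  rw [h1 U Sum.inl, h1 (Finset.univ \ U) Sum.inr, monomial_mul, one_mul]

theorem prK0 : StK0 := by
  intro k a b G
  classical
  induction G using MvPolynomial.induction_on' with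
  | add p q hp hq => rw [mul_add, K0_add, hp, hq, coeff_add]
  | monomial t c =>
    rw [Finset.prod_add, Finset.sum_mul, K0_sum]
    have h1 : ∀ U ∈ (Finset.univ : Finset (Fin k)).powerset,
        kap0 a b (((∏ q ∈ U, (X (Sum.inl q) : MvPolynomial (ZZ k) ℤ)) *
          ∏ q ∈ Finset.univ \ U, X (Sum.inr q)) * monomial t c) =
        ((∏ q ∈ U, kap (a q) (b q) (t (Sum.inl q) + 1) (t (Sum.inr q))) *
          ∏ q ∈ Finset.univ \ U, kap (a q) (b q) (t (Sum.inl q)) (t (Sum.inr q) + 1)) * c := by
      intro U _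
      rw [K0_prod, monomial_mul, one_mul, K0_mon]
      congr 1
      unfold K0_w
      rw [← Finset.prod_sdiff (Finset.subset_univ U), mul_comm]
      congr 1
      · refine Finset.prod_congr rfl fun q hq => ?_
        rw [Finsupp.add_apply, Finsupp.add_apply, K0_e_inl, K0_e_inr, if_pos hq, if_pos hq,
          zero_add, add_comm 1]
      · refine Finset.prod_congr rfl fun q hq => ?_
        rw [Finset.mem_sdiff] at hq
        rw [Finsupp.add_apply, Finsupp.add_apply, K0_e_inl, K0_e_inr, if_neg hq.2, if_neg hq.2,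
          zero_add, add_comm 1]
    rw [Finset.sum_congr rfl h1, ← Finset.sum_mul, ← Finset.prod_add]
    simp only [K0_kap]
    rw [coeff_monomial, Finset.prod_ite_zero]
    have h2 : (∀ q ∈ (Finset.univ : Finset (Fin k)), t (Sum.inl q) = a q ∧ t (Sum.inr q) = b q) ↔
        t = ex a b := by
      constructor
      · intro h
        ext z
        rcases z with q | q
        · exact (h q (Finset.mem_univ q)).1
        · exact (h q (Finset.mem_univ q)).2
      · rintro rfl q _
        exact ⟨rfl, rfl⟩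
    by_cases h : t = ex a b
    · rw [if_pos (h2.mpr h), if_pos h]
      simp
    · rw [if_neg (fun h' => h (h2.mp h')), if_neg h, zero_mul]

end Pool.Agent.Work.MP_6da7fa_al.EG
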