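import Pool.Agent.Work.MP_6da7fa_al.EG.StmtsS

set_option autoImplicit false

/-!
# Item Kp: the functional on multiples of `EE`
-/

namespace Pool.Agent.Work.MP_6da7fa_al.EG

open Equiv MvPolynomial

/-- The product over the pairs `(q, r)` with `r ≠ w q`. -/
noncomputable def Kp_E (k : ℕ) (w : Perm (Fin k)) : MvPolynomial (ZZ k) ℤ :=
  ∏ q : Fin k, ∏ r : Fin k, if r ≠ w q then
    ((X (Sum.inl q) + X (Sum.inr r)) : MvPolynomial (ZZ k) ℤ) else 1

theorem Kp_filter (k : ℕ) (w : Perm (Fin k)) :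
    ∏ x ∈ Finset.univ.filter (fun x : Fin k × Fin k => x.2 ≠ w x.1),
      ((X (Sum.inl x.1) + X (Sum.inr x.2)) : MvPolynomial (ZZ k) ℤ) = Kp_E k w := by
  rw [Finset.prod_filter, Fintype.prod_prod_type]
  rfl

theorem Kp_EE (k : ℕ) :
    EE k = (∏ q : Fin k, (X (Sum.inl q) + X (Sum.inr q))) * Kp_E k 1 := by
  unfold EE Kp_E
  rw [← Finset.prod_mul_distrib]
  refine Finset.prod_congr rfl fun q _ => ?_
  have h1 : ∏ r : Fin k, (if r = q then
      ((X (Sum.inl q) + X (Sum.inr r)) : MvPolynomial (ZZ k) ℤ) else 1) =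
      X (Sum.inl q) + X (Sum.inr q) := by
    rw [Finset.prod_ite_eq' Finset.univ q
      (fun r => ((X (Sum.inl q) + X (Sum.inr r)) : MvPolynomial (ZZ k) ℤ)),
      if_pos (Finset.mem_univ q)]
  rw [← h1, ← Finset.prod_mul_distrib]
  refine Finset.prod_congr rfl fun r _ => ?_
  by_cases h : r = q
  · simp [h]
  · simp [h]

theorem Kp_rename (k : ℕ) (w : Perm (Fin k)) :
    rename (Sum.map id w) (Kp_E k 1) = Kp_E k w := by
  unfold Kp_E
  rw [map_prod]
  refine Finset.prod_congr rfl fun q _ => ?_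
  rw [map_prod, ← Equiv.prod_comp w (fun s => if s ≠ w q then
    ((X (Sum.inl q) + X (Sum.inr s)) : MvPolynomial (ZZ k) ℤ) else 1)]
  refine Finset.prod_congr rfl fun r _ => ?_
  by_cases h : r = q
  · simp [h]
  · have h2 : w r ≠ w q := fun h3 => h (w.injective h3)
    have h3 : r ≠ (1 : Perm (Fin k)) q := h
    rw [if_pos h3, if_pos h2, map_add, rename_X, rename_X]
    rfl

theorem Kp_ex (k : ℕ) (a b : Fin k → ℕ) (w : Perm (Fin k)) :
    (ex a (b ∘ w)).mapDomain (Sum.map id w) = ex a b := by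
  have hinj : Function.Injective (Sum.map id w : ZZ k → ZZ k) :=
    Sum.map_injective.2 ⟨Function.injective_id, w.injective⟩
  ext z
  rcases z with q | s
  · have h1 : (Sum.inl q : ZZ k) = Sum.map id w (Sum.inl q) := rfl
    conv_lhs => rw [h1]
    rw [Finsupp.mapDomain_apply hinj]
    rfl
  · have h1 : (Sum.inr s : ZZ k) = Sum.map id w (Sum.inr (w.symm s)) := by
      rw [Sum.map_inr, Equiv.apply_symm_apply]
    conv_lhs => rw [h1]
    rw [Finsupp.mapDomain_apply hinj]
    show b (w (w.symm s)) = b s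
    rw [Equiv.apply_symm_apply]

/-- Item Kp. -/
theorem prKp : StKp := by
  intro hK0 k a b G hG
  have h1 : kapF a b (EE k * G) =
      ∑ w : Perm (Fin k), (Perm.sign w : ℤ) * kap0 a (b ∘ w) (EE k * G) := by
    unfold kapF kap0 KK
    simp only [Finset.mul_sum, Finset.sum_mul]
    rw [Finset.sum_comm]
    refine Finset.sum_congr rfl fun w _ => Finset.sum_congr rfl fun t _ => ?_
    simp only [Function.comp, mul_assoc]
  rw [h1]
  unfold DD
  rw [Finset.sum_mul, coeff_sum]
  refine Finset.sum_congr rfl fun w _ => ?_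
  rw [smul_mul_assoc, coeff_smul, smul_eq_mul, Kp_filter, Kp_EE, mul_assoc, hK0]
  congr 1
  have hinj : Function.Injective (Sum.map id w : ZZ k → ZZ k) :=
    Sum.map_injective.2 ⟨Function.injective_id, w.injective⟩
  rw [← coeff_rename_mapDomain (Sum.map id w) hinj, Kp_ex, map_mul, Kp_rename, hG w]

end Pool.Agent.Work.MP_6da7fa_al.EG
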