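import Pool.Agent.Work.MP_6da7fa_al.EG.StmtsV

set_option autoImplicit false
set_option linter.unusedSectionVars false

/-!
# Item Ma: the sum over the irreducible representations
-/

namespace Pool.Agent.Work.MP_6da7fa_al.EG

open Equiv

section
variable {α Z : Type} [Fintype α] [LinearOrder α] [DecidableEq Z]

/-- the stabiliser -/
def Ma_H (c : α → Z) : Finset (Perm α) := Finset.univ.filter fun σ : Perm α => c ∘ σ = c

theorem Ma_mem (c : α → Z) (σ : Perm α) : σ ∈ Ma_H c ↔ c ∘ σ = c := by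
  unfold Ma_H
  rw [Finset.mem_filter]
  exact ⟨fun h => h.2, fun h => ⟨Finset.mem_univ _, h⟩⟩

theorem Ma_mul (c : α → Z) {σ τ : Perm α} (h1 : c ∘ σ = c) (h2 : c ∘ τ = c) :
    c ∘ ⇑(σ * τ) = c := by
  rw [Perm.coe_mul, ← Function.comp_assoc, h1, h2]

theorem Ma_inv (c : α → Z) {σ : Perm α} (h1 : c ∘ σ = c) : c ∘ ⇑σ⁻¹ = c := by
  funext x
  have h := congrFun h1 (σ⁻¹ x)
  have h2 : σ (σ⁻¹ x) = x := by rw [← Perm.mul_apply, mul_inv_cancel, Perm.one_apply]
  rw [Function.comp_apply, h2] at h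
  exact h.symm

/-- the sign as a complex number -/
noncomputable def Ma_s (p : Z → Bool) (c : α → Z) (σ : Perm α) : ℂ := ((sg p c σ : ℤ) : ℂ)

theorem Ma_sq (hSb : StSb) (p : Z → Bool) (c : α → Z) (σ : Perm α) :
    Ma_s p c σ * Ma_s p c σ = 1 := by
  unfold Ma_s
  rcases (hSb α Z p c).1 σ with h | h <;> rw [h] <;> norm_num

theorem Ma_smul (hSc : ConSc) (p : Z → Bool) (c : α → Z) (σ τ : Perm α) (h : c ∘ τ = c) :
    Ma_s p c (σ * τ) = Ma_s p c σ * Ma_s p c τ := by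
  unfold Ma_s
  rw [(hSc α Z p c).1 σ τ h, Int.cast_mul]

theorem Ma_sinv (hSb : StSb) (hSc : ConSc) (p : Z → Bool) (c : α → Z) (σ : Perm α)
    (h : c ∘ σ = c) : Ma_s p c σ⁻¹ = Ma_s p c σ := by
  have h1 := Ma_smul hSc p c σ⁻¹ σ h
  rw [inv_mul_cancel] at h1
  have h2 : Ma_s p c 1 = 1 := by
    unfold Ma_s
    rw [(hSb α Z p c).2.1]
    norm_num
  rw [h2] at h1
  have h3 := Ma_sq hSb p c σ
  have h4 : Ma_s p c σ ≠ 0 := by
    intro h0
    rw [h0, mul_zero] at h3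
    exact zero_ne_one h3
  exact mul_right_cancel₀ h4 (h1.symm.trans h3.symm)

theorem Ma_card (c : α → Z) : ((Ma_H c).card : ℂ) ≠ 0 := by
  rw [Nat.cast_ne_zero]
  refine Finset.card_ne_zero_of_mem (a := 1) ?_
  rw [Ma_mem]
  rfl

/-- the action by left translation -/
noncomputable def Ma_a (s : Perm α) : (Perm α → ℂ) →ₗ[ℂ] (Perm α → ℂ) :=
  LinearMap.funLeft ℂ ℂ fun g => s⁻¹ * g

theorem Ma_a_apply (s : Perm α) (u : Perm α → ℂ) (g : Perm α) : Ma_a s u g = u (s⁻¹ * g) := rfl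

/-- the induced representation space -/
noncomputable def Ma_W (p : Z → Bool) (c : α → Z) : Submodule ℂ (Perm α → ℂ) where
  carrier := {u | ∀ g h : Perm α, c ∘ h = c → u (g * h) = Ma_s p c h * u g}
  add_mem' := by
    intro u v hu hv g h hh
    rw [Pi.add_apply, Pi.add_apply, hu g h hh, hv g h hh, mul_add]
  zero_mem' := by
    intro g h _
    rw [Pi.zero_apply, Pi.zero_apply, mul_zero]
  smul_mem' := by
    intro r u hu g h hh
    rw [Pi.smul_apply, Pi.smul_apply, hu g h hh, smul_eq_mul, smul_eq_mul]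
    ring

theorem Ma_aW (p : Z → Bool) (c : α → Z) (s : Perm α) (u : Perm α → ℂ) (hu : u ∈ Ma_W p c) :
    Ma_a s u ∈ Ma_W p c := by
  intro g h hh
  rw [Ma_a_apply, Ma_a_apply, ← mul_assoc]
  exact hu (s⁻¹ * g) h hh

/-- the induced representation -/
noncomputable def Ma_ρ (p : Z → Bool) (c : α → Z) : Representation ℂ (Perm α) (Ma_W p c) where
  toFun s := (Ma_a s).restrict (Ma_aW p c s)
  map_one' := by
    ext u g
    simp [LinearMap.restrict_apply, Ma_a_apply]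
  map_mul' s t := by
    ext u g
    simp [LinearMap.restrict_apply, Ma_a_apply, mul_assoc]

/-- the projection -/
noncomputable def Ma_Q (p : Z → Bool) (c : α → Z) : (Perm α → ℂ) →ₗ[ℂ] (Perm α → ℂ) where
  toFun u g := ((Ma_H c).card : ℂ)⁻¹ * ∑ h ∈ Ma_H c, Ma_s p c h * u (g * h)
  map_add' u v := by
    funext g
    simp only [Pi.add_apply, mul_add, Finset.sum_add_distrib]
  map_smul' r u := by
    funext g
    simp only [Pi.smul_apply, smul_eq_mul, RingHom.id_apply]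
    rw [Finset.mul_sum, Finset.mul_sum, Finset.mul_sum]
    refine Finset.sum_congr rfl fun h _ => ?_
    ring

theorem Ma_Q_apply (p : Z → Bool) (c : α → Z) (u : Perm α → ℂ) (g : Perm α) :
    Ma_Q p c u g = ((Ma_H c).card : ℂ)⁻¹ * ∑ h ∈ Ma_H c, Ma_s p c h * u (g * h) := rfl

theorem Ma_QW (hSb : StSb) (hSc : ConSc) (p : Z → Bool) (c : α → Z) (u : Perm α → ℂ) :
    Ma_Q p c u ∈ Ma_W p c := by
  intro g k hk
  rw [Ma_Q_apply, Ma_Q_apply, ← mul_assoc, mul_comm (Ma_s p c k), mul_assoc]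
  congr 1
  rw [Finset.mul_sum]
  refine Finset.sum_bij' (fun h _ => k * h) (fun h _ => k⁻¹ * h) ?_ ?_ ?_ ?_ ?_
  · intro h hh
    rw [Ma_mem] at hh ⊢
    exact Ma_mul c hk hh
  · intro h hh
    rw [Ma_mem] at hh ⊢
    exact Ma_mul c (Ma_inv c hk) hh
  · intro h _
    rw [inv_mul_cancel_left]
  · intro h _
    rw [mul_inv_cancel_left]
  · intro h hh
    rw [Ma_mem] at hh
    rw [Ma_smul hSc p c k h hh, ← mul_assoc, ← mul_assoc, Ma_sq hSb, one_mul, mul_assoc]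

theorem Ma_Qid (hSb : StSb) (p : Z → Bool) (c : α → Z) (u : Perm α → ℂ) (hu : u ∈ Ma_W p c) :
    Ma_Q p c u = u := by
  funext g
  rw [Ma_Q_apply]
  have h1 : ∑ h ∈ Ma_H c, Ma_s p c h * u (g * h) = ∑ _h ∈ Ma_H c, u g := by
    refine Finset.sum_congr rfl fun h hh => ?_
    rw [Ma_mem] at hh
    rw [hu g h hh, ← mul_assoc, Ma_sq hSb, one_mul]
  rw [h1, Finset.sum_const, nsmul_eq_mul, ← mul_assoc, inv_mul_cancel₀ (Ma_card c), one_mul]

/-- the character of the induced representation -/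
theorem Ma_char (hSb : StSb) (hSc : ConSc) (p : Z → Bool) (c : α → Z) (s : Perm α) :
    (Ma_ρ p c).character s = ((Ma_H c).card : ℂ)⁻¹ *
      ∑ g : Perm α, ∑ h ∈ Ma_H c, if s = g * h * g⁻¹ then Ma_s p c h else 0 := by
  have h1 : Ma_ρ p c s = ((Ma_Q p c).codRestrict (Ma_W p c) (Ma_QW hSb hSc p c)) ∘ₗ
      (Ma_a s ∘ₗ (Ma_W p c).subtype) := by
    apply LinearMap.ext
    intro u
    apply Subtype.ext
    exact (Ma_Qid hSb p c _ (Ma_aW p c s _ u.2)).symm
  unfold Representation.character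
  rw [h1, LinearMap.trace_comp_comm', LinearMap.comp_assoc]
  have h2 : (Ma_W p c).subtype ∘ₗ (Ma_Q p c).codRestrict (Ma_W p c) (Ma_QW hSb hSc p c) =
      Ma_Q p c := rfl
  rw [h2, LinearMap.trace_eq_matrix_trace ℂ (Pi.basisFun ℂ (Perm α)), Matrix.trace,
    Finset.mul_sum]
  refine Finset.sum_congr rfl fun g _ => ?_
  rw [Matrix.diag_apply, LinearMap.toMatrix_apply, Pi.basisFun_apply, Pi.basisFun_repr,
    LinearMap.comp_apply, Ma_a_apply, Ma_Q_apply]
  congr 1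
  refine Finset.sum_congr rfl fun h _ => ?_
  rw [Pi.single_apply, mul_ite, mul_one, mul_zero]
  refine if_congr ?_ rfl rfl
  constructor
  · intro h3
    rw [mul_assoc, inv_mul_eq_iff_eq_mul] at h3
    rw [h3, mul_inv_cancel_right]
  · rintro rfl
    group

end

theorem prMa : StMa := by
  intro hSa hSb hSc' _ hTr hOr hDe α Z Z' _ _ _ _ I p p' c c'
  have hSc : ConSc := hSc' hSa hSb
  obtain ⟨m, hm1, hm2⟩ := hDe α (Ma_W p' c') I (Ma_ρ p' c')
  have hTr1 : ∀ j, (hn p (I.ρ j) c : ℂ) = ((Ma_H c).card : ℂ)⁻¹ *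
      ∑ σ ∈ Ma_H c, Ma_s p c σ * (I.ρ j).character σ := fun j => hTr α Z _ p (I.ρ j) c
  have hTr2 : ∀ j, (hn p' (I.ρ j) c' : ℂ) = ((Ma_H c').card : ℂ)⁻¹ *
      ∑ σ ∈ Ma_H c', Ma_s p' c' σ * (I.ρ j).character σ := fun j => hTr α Z' _ p' (I.ρ j) c'
  have hG : (Fintype.card (Perm α) : ℂ) ≠ 0 := by
    rw [Nat.cast_ne_zero]
    exact Fintype.card_ne_zero
  have hm : ∀ j, (m j : ℂ) = (hn p' (I.ρ j) c' : ℂ) := by
    intro j
    rw [(hm2 j).1, hTr2 j]
    simp only [Ma_char hSb hSc]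
    have h1 : ∀ s : Perm α, ((Ma_H c').card : ℂ)⁻¹ * (∑ g : Perm α, ∑ h ∈ Ma_H c',
        if s = g * h * g⁻¹ then Ma_s p' c' h else 0) * (I.ρ j).character s =
        ((Ma_H c').card : ℂ)⁻¹ * ∑ g : Perm α, ∑ h ∈ Ma_H c',
        if s = g * h * g⁻¹ then Ma_s p' c' h * (I.ρ j).character (g * h * g⁻¹) else 0 := by
      intro s
      rw [mul_assoc, Finset.sum_mul]
      congr 1
      refine Finset.sum_congr rfl fun g _ => ?_
      rw [Finset.sum_mul]
      refine Finset.sum_congr rfl fun h _ => ?_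
      by_cases h3 : s = g * h * g⁻¹
      · rw [if_pos h3, if_pos h3, h3]
      · rw [if_neg h3, if_neg h3, zero_mul]
    simp only [h1]
    rw [← Finset.mul_sum, Finset.sum_comm]
    have h2 : ∀ g : Perm α, (∑ s : Perm α, ∑ h ∈ Ma_H c',
        if s = g * h * g⁻¹ then Ma_s p' c' h * (I.ρ j).character (g * h * g⁻¹) else 0) =
        ∑ h ∈ Ma_H c', Ma_s p' c' h * (I.ρ j).character h := by
      intro g
      rw [Finset.sum_comm]
      refine Finset.sum_congr rfl fun h _ => ?_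
      rw [Finset.sum_ite_eq' Finset.univ, if_pos (Finset.mem_univ _), Representation.char_conj]
    simp only [h2]
    rw [Finset.sum_const, Finset.card_univ, nsmul_eq_mul]
    field_simp
  have h4 : (∑ j, (hn p (I.ρ j) c : ℂ) * (hn p' (I.ρ j) c' : ℂ)) =
      ((Ma_H c).card : ℂ)⁻¹ * ∑ s ∈ Ma_H c, Ma_s p c s * (Ma_ρ p' c').character s := by
    have h5 : ∀ j, (hn p (I.ρ j) c : ℂ) * (hn p' (I.ρ j) c' : ℂ) =
        ((Ma_H c).card : ℂ)⁻¹ * ∑ s ∈ Ma_H c, Ma_s p c s * ((m j : ℂ) * (I.ρ j).character s) := by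
      intro j
      rw [← hm j, hTr1 j, mul_assoc, Finset.sum_mul]
      congr 1
      refine Finset.sum_congr rfl fun s _ => ?_
      ring
    simp only [h5]
    rw [← Finset.mul_sum, Finset.sum_comm]
    congr 1
    refine Finset.sum_congr rfl fun s _ => ?_
    rw [hm1 s, Finset.mul_sum]
  rw [h4]
  change ((Ma_H c).card : ℂ)⁻¹ * ∑ s ∈ Ma_H c, Ma_s p c s * (Ma_ρ p' c').character s =
    ((Ma_H c).card : ℂ)⁻¹ * ((Ma_H c').card : ℂ)⁻¹ * _
  rw [mul_assoc, Finset.mul_sum ((Finset.univ : Finset (Perm α)))]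
  congr 1
  have h6 : ∀ s : Perm α, Ma_s p c s * (Ma_ρ p' c').character s =
      ∑ g : Perm α, ((Ma_H c').card : ℂ)⁻¹ * (Ma_s p c s *
        ∑ h ∈ Ma_H c', if s = g * h * g⁻¹ then Ma_s p' c' h else 0) := by
    intro s
    rw [Ma_char hSb hSc, ← Finset.mul_sum, ← Finset.mul_sum]
    ring
  simp only [h6]
  rw [Finset.sum_comm]
  refine Finset.sum_congr rfl fun g _ => ?_
  rw [← Finset.mul_sum]
  congr 1
  have h7 : Finset.univ.filter (fun s : Perm α => c ∘ s = c ∧ (c' ∘ ⇑g⁻¹) ∘ s = c' ∘ ⇑g⁻¹) =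
      (Ma_H c).filter (fun s : Perm α => (c' ∘ ⇑g⁻¹) ∘ s = c' ∘ ⇑g⁻¹) := by
    ext s
    rw [Finset.mem_filter, Finset.mem_filter, Ma_mem]
    exact ⟨fun h => h.2, fun h => ⟨Finset.mem_univ _, h⟩⟩
  rw [h7, Finset.sum_filter]
  refine Finset.sum_congr rfl fun s _ => ?_
  have h8 : (∑ h ∈ Ma_H c', if s = g * h * g⁻¹ then Ma_s p' c' h else 0) =
      ∑ h ∈ Ma_H c', if g⁻¹ * s * g = h then Ma_s p' c' h else 0 := by
    refine Finset.sum_congr rfl fun h _ => ?_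
    refine if_congr ?_ rfl rfl
    constructor
    · rintro rfl
      group
    · rintro rfl
      group
  rw [h8, Finset.sum_ite_eq (Ma_H c')]
  have h9 : (g⁻¹ * s * g ∈ Ma_H c') ↔ ((c' ∘ ⇑g⁻¹) ∘ s = c' ∘ ⇑g⁻¹) := by
    rw [Ma_mem]
    constructor
    · intro h
      funext x
      have h10 := congrFun h (g⁻¹ x)
      have h11 : g (g⁻¹ x) = x := by rw [← Perm.mul_apply, mul_inv_cancel, Perm.one_apply]
      rw [Function.comp_apply, Perm.mul_apply, Perm.mul_apply, h11] at h10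
      exact h10
    · intro h
      funext x
      have h10 := congrFun h (g x)
      have h11 : g⁻¹ (g x) = x := by rw [← Perm.mul_apply, inv_mul_cancel, Perm.one_apply]
      rw [Function.comp_apply, Function.comp_apply, Function.comp_apply, h11] at h10
      exact h10
  by_cases h11 : g⁻¹ * s * g ∈ Ma_H c'
  · rw [if_pos h11, if_pos (h9.mp h11)]
    have h12 := (hSc α Z' p' c').2 g (g⁻¹ * s * g) ((Ma_mem c' _).mp h11)
    have h13 : g * (g⁻¹ * s * g) * g⁻¹ = s := by group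
    rw [h13] at h12
    rw [Int.cast_mul, h12]
    rfl
  · rw [if_neg h11, if_neg (fun h => h11 (h9.mpr h)), mul_zero]

end Pool.Agent.Work.MP_6da7fa_al.EG
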