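import Pool.Agent.Work.MP_6da7fa_al.EG.StmtsV

/-! Block EG, item Mb (helper96): the inner sum of the Mackey formula. -/

set_option autoImplicit false

namespace Pool.Agent.Work.MP_6da7fa_al.EG

open Equiv

theorem Mb_swap {α Z : Type} [DecidableEq α] (c : α → Z) {x y : α} (h : c x = c y) :
    c ∘ ⇑(swap x y) = c := by
  funext u
  show c (swap x y u) = c u
  by_cases hx : u = x
  · rw [hx, swap_apply_left, h]
  · by_cases hy : u = y
    · rw [hy, swap_apply_right, h]
    · rw [swap_apply_of_ne_of_ne hx hy]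

theorem Mb_mul {α Z : Type} (c : α → Z) {σ τ : Perm α} (hσ : c ∘ ⇑σ = c) (hτ : c ∘ ⇑τ = c) :
    c ∘ ⇑(σ * τ) = c := by
  rw [Perm.coe_mul, ← Function.comp_assoc, hσ, hτ]

theorem Mb_sign {a b : Bool} (h : a = b) :
    (if a = true then (-1 : ℤ) else 1) * (if b = true then -1 else 1) = 1 := by
  subst h
  cases a <;> simp

theorem Mb_sign' {a b : Bool} (h : a ≠ b) :
    (if a = true then (-1 : ℤ) else 1) * (if b = true then -1 else 1) = -1 := by
  cases a <;> cases b <;> simp at h ⊢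

theorem prMb : StMb := by
  intro h1 h2 h3 α Z Z' _ _ _ _ p p' c d
  split_ifs with hcond
  · have key : ∀ s : Perm α, (fun x => (c x, d x)) ∘ ⇑s = (fun x => (c x, d x)) →
        (c ∘ ⇑s = c ∧ d ∘ ⇑s = d) ∧ sg p c s * sg p' d s = 1 := by
      refine h3 α (Z × Z') (fun x => (c x, d x))
        (fun s => (c ∘ ⇑s = c ∧ d ∘ ⇑s = d) ∧ sg p c s * sg p' d s = 1) ?_ ?_
      · refine ⟨⟨rfl, rfl⟩, ?_⟩
        rw [(h1 α Z p c).2.1, (h1 α Z' p' d).2.1, one_mul]
      · intro σ x y hxy hc hσ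
        obtain ⟨⟨hσ1, hσ2⟩, hσ3⟩ := hσ
        have e1 : c x = c y := congrArg Prod.fst hc
        have e2 : d x = d y := congrArg Prod.snd hc
        refine ⟨⟨Mb_mul c (Mb_swap c e1) hσ1, Mb_mul d (Mb_swap d e2) hσ2⟩, ?_⟩
        rw [(h2 α Z p c).1 _ _ hσ1, (h2 α Z' p' d).1 _ _ hσ2, (h1 α Z p c).2.2 x y hxy e1,
          (h1 α Z' p' d).2.2 x y hxy e2, mul_mul_mul_comm, hσ3,
          Mb_sign (hcond x y hxy e1 e2), one_mul]
    rw [Finset.card_eq_sum_ones, Nat.cast_sum]
    refine Finset.sum_congr rfl fun s hs => ?_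
    obtain ⟨hs1, hs2⟩ := (Finset.mem_filter.1 hs).2
    rw [(key s ?_).2, Nat.cast_one]
    funext x
    show (c (s x), d (s x)) = (c x, d x)
    rw [show c (s x) = c x from congrFun hs1 x, show d (s x) = d x from congrFun hs2 x]
  · push Not at hcond
    obtain ⟨x, y, hxy, e1, e2, hne⟩ := hcond
    have ht1 : c ∘ ⇑(swap x y) = c := Mb_swap c e1
    have ht2 : d ∘ ⇑(swap x y) = d := Mb_swap d e2
    have h4 : ∑ s ∈ Finset.univ.filter (fun s : Perm α => c ∘ s = c ∧ d ∘ s = d),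
        sg p c s * sg p' d s =
        ∑ s ∈ Finset.univ.filter (fun s : Perm α => c ∘ s = c ∧ d ∘ s = d),
        sg p c (s * swap x y) * sg p' d (s * swap x y) := by
      refine (Finset.sum_nbij' (fun s => s * swap x y) (fun s => s * swap x y) ?_ ?_ ?_ ?_
        fun s _ => rfl).symm
      · intro s hs
        obtain ⟨hs1, hs2⟩ := (Finset.mem_filter.1 hs).2
        exact Finset.mem_filter.2 ⟨Finset.mem_univ _, Mb_mul c hs1 ht1, Mb_mul d hs2 ht2⟩
      · intro s hs
        obtain ⟨hs1, hs2⟩ := (Finset.mem_filter.1 hs).2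
        exact Finset.mem_filter.2 ⟨Finset.mem_univ _, Mb_mul c hs1 ht1, Mb_mul d hs2 ht2⟩
      · intro s _
        show s * swap x y * swap x y = s
        rw [mul_assoc, swap_mul_self, mul_one]
      · intro s _
        show s * swap x y * swap x y = s
        rw [mul_assoc, swap_mul_self, mul_one]
    have h5 : ∀ s : Perm α, sg p c (s * swap x y) * sg p' d (s * swap x y) =
        -(sg p c s * sg p' d s) := by
      intro s
      rw [(h2 α Z p c).1 _ _ ht1, (h2 α Z' p' d).1 _ _ ht2, (h1 α Z p c).2.2 x y hxy e1,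
        (h1 α Z' p' d).2.2 x y hxy e2, mul_mul_mul_comm, Mb_sign' hne]
      ring
    rw [Finset.sum_congr rfl fun s _ => h5 s, Finset.sum_neg_distrib] at h4
    omega

end Pool.Agent.Work.MP_6da7fa_al.EG
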