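import Pool.Agent.Work.MP_6da7fa_al.EG.StmtsV

set_option autoImplicit false

namespace Pool.Agent.Work.MP_6da7fa_al.EG

open Equiv

theorem Mk_card {α Z : Type} [Fintype α] [DecidableEq α] [DecidableEq Z] (c : α → Z) :
    ((Finset.univ.filter fun σ : Perm α => c ∘ σ = c).card : ℂ) ≠ 0 := by
  have h : (1 : Perm α) ∈ Finset.univ.filter fun σ : Perm α => c ∘ σ = c := by
    rw [Finset.mem_filter]
    exact ⟨Finset.mem_univ _, rfl⟩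
  exact Nat.cast_ne_zero.2 (Finset.card_ne_zero.2 ⟨1, h⟩)

theorem prMk : StMk := by
  intro hHt hMa hMb hMc α Z Z' i1 i2 i3 i4 i5 i6 I p p' t t' ht ht'
  obtain ⟨c, rfl⟩ := (hHt.2.2 α Z t).1 ht
  obtain ⟨c', rfl⟩ := (hHt.2.2 α Z' t').1 ht'
  have h1 : ∀ j, hT p (I.ρ j) (typ c) = hn p (I.ρ j) c := fun j => hHt.1 α Z _ p (I.ρ j) c
  have h2 : ∀ j, hT p' (I.ρ j) (typ c') = hn p' (I.ρ j) c' := fun j => hHt.1 α Z' _ p' (I.ρ j) c'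
  simp only [h1, h2]
  have h3 := hMa α Z Z' I p p' c c'
  have h4 : ∀ g : Perm α, ∑ s ∈ Finset.univ.filter
        (fun s : Perm α => c ∘ s = c ∧ (c' ∘ ⇑g⁻¹) ∘ s = c' ∘ ⇑g⁻¹),
        ((sg p c s * sg p' (c' ∘ ⇑g⁻¹) s : ℤ) : ℂ) =
      ((if ∀ x y, x ≠ y → c x = c y → c' (g⁻¹ x) = c' (g⁻¹ y) → p (c x) = p' (c' (g⁻¹ x)) then
      (Finset.univ.filter fun s : Perm α => c ∘ s = c ∧ (c' ∘ ⇑g⁻¹) ∘ s = c' ∘ ⇑g⁻¹).card else 0 : ℕ) : ℂ) := by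
    intro g
    have h5 := hMb α Z Z' p p' c (c' ∘ ⇑g⁻¹)
    rw [← Int.cast_sum, h5]
    by_cases h6 : ∀ x y, x ≠ y → c x = c y → c' (g⁻¹ x) = c' (g⁻¹ y) → p (c x) = p' (c' (g⁻¹ x))
    · have h6' : ∀ x y, x ≠ y → c x = c y → (c' ∘ ⇑g⁻¹) x = (c' ∘ ⇑g⁻¹) y →
        p (c x) = p' ((c' ∘ ⇑g⁻¹) x) := h6
      rw [if_pos h6, if_pos h6']
      simp
    · have h6' : ¬ ∀ x y, x ≠ y → c x = c y → (c' ∘ ⇑g⁻¹) x = (c' ∘ ⇑g⁻¹) y →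
        p (c x) = p' ((c' ∘ ⇑g⁻¹) x) := h6
      rw [if_neg h6, if_neg h6']
      simp
  simp only [h4] at h3
  rw [← Nat.cast_sum, hMc α Z Z' p p' c c'] at h3
  have h7 := Mk_card c
  have h8 := Mk_card c'
  have h9 : (∑ j, (hn p (I.ρ j) c : ℂ) * (hn p' (I.ρ j) c' : ℂ)) = (NN p p' (typ c) (typ c') : ℂ) := by
    rw [h3]
    push_cast
    field_simp
  exact_mod_cast h9

end Pool.Agent.Work.MP_6da7fa_al.EG
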