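import Pool.Agent.Work.MP_6da7fa_al.EG.StmtsV

/-!
# Theorem EG: item Ml

Multiplicities.
-/

set_option autoImplicit false

namespace Pool.Agent.Work.MP_6da7fa_al.EG

open Equiv

private lemma Ml_hn (hT1 : ConTr) {α V Z : Type} [Fintype α] [LinearOrder α] [DecidableEq Z]
    [AddCommGroup V] [Module ℂ V] [FiniteDimensional ℂ V] (I : IrrSys α)
    (ρ : Representation ℂ (Perm α) V) (m : I.ι → ℕ)
    (hm : ∀ s, ρ.character s = ∑ j, (m j : ℂ) * (I.ρ j).character s) (p : Z → Bool) (c : α → Z) :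
    hn p ρ c = ∑ j, m j * hn p (I.ρ j) c := by
  have h : (hn p ρ c : ℂ) = ((∑ j, m j * hn p (I.ρ j) c : ℕ) : ℂ) := by
    rw [hT1 α Z V p ρ c]
    push_cast
    have e : ∀ j, (m j : ℂ) * (hn p (I.ρ j) c : ℂ) =
        ((Finset.univ.filter fun σ : Perm α => c ∘ σ = c).card : ℂ)⁻¹ *
          ∑ σ ∈ Finset.univ.filter (fun σ : Perm α => c ∘ σ = c),
            ((sg p c σ : ℤ) : ℂ) * ((m j : ℂ) * (I.ρ j).character σ) := by
      intro j
      rw [hT1 α Z (Fin (I.d j) → ℂ) p (I.ρ j) c, mul_left_comm, Finset.mul_sum]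
      congr 1
      refine Finset.sum_congr rfl fun σ _ => ?_
      ring
    rw [Finset.sum_congr rfl fun j _ => e j, ← Finset.mul_sum, Finset.sum_comm]
    congr 1
    refine Finset.sum_congr rfl fun σ _ => ?_
    rw [hm σ, Finset.mul_sum]
  exact_mod_cast h

private lemma Ml_hT (hH : ConHt) (hT1 : ConTr) {α V Z : Type} [Fintype α] [LinearOrder α]
    [Fintype Z] [DecidableEq Z] [AddCommGroup V] [Module ℂ V] [FiniteDimensional ℂ V]
    (I : IrrSys α) (ρ : Representation ℂ (Perm α) V) (m : I.ι → ℕ)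
    (hm : ∀ s, ρ.character s = ∑ j, (m j : ℂ) * (I.ρ j).character s) (p : Z → Bool)
    (t : Z → ℕ) : hT p ρ t = ∑ j, m j * hT p (I.ρ j) t := by
  by_cases h : ∃ c : α → Z, typ c = t
  · obtain ⟨c, rfl⟩ := h
    rw [hH.1 α Z V p ρ c, Ml_hn hT1 I ρ m hm p c]
    refine Finset.sum_congr rfl fun j _ => ?_
    rw [hH.1 α Z (Fin (I.d j) → ℂ) p (I.ρ j) c]
  · have e : hT p ρ t = 0 := by
      unfold hT
      rw [dif_neg h]
    have e' : ∀ j, hT p (I.ρ j) t = 0 := by
      intro j
      unfold hT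
      rw [dif_neg h]
    rw [e]
    symm
    refine Finset.sum_eq_zero fun j _ => ?_
    rw [e' j, mul_zero]

theorem prMl : StMl := by
  intro hH hT1 α V _ _ _ _ _ I ρ m hm
  refine ⟨fun i a b => ?_, ?_⟩
  · unfold mm
    have e : ∀ t ∈ TT (ZZ i) (Fintype.card α), KK a b t * (hT (par i) ρ t : ℤ) =
        ∑ j, (m j : ℤ) * (KK a b t * (hT (par i) (I.ρ j) t : ℤ)) := by
      intro t _
      rw [Ml_hT hH hT1 I ρ m hm (par i) t]
      push_cast
      rw [Finset.mul_sum]
      refine Finset.sum_congr rfl fun j _ => ?_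
      ring
    rw [Finset.sum_congr rfl e, Finset.sum_comm]
    refine Finset.sum_congr rfl fun j _ => ?_
    rw [Finset.mul_sum]
  · have h := hm 1
    rw [Representation.char_one] at h
    have e : ∀ j, (I.ρ j).character 1 = (I.d j : ℂ) := by
      intro j
      rw [Representation.char_one, Module.finrank_fin_fun]
    rw [Finset.sum_congr rfl fun j _ => by rw [e j]] at h
    exact_mod_cast h

end Pool.Agent.Work.MP_6da7fa_al.EG
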