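import Pool.Agent.Work.MP_6da7fa_al.EG.StmtsS

set_option autoImplicit false

namespace Pool.Agent.Work.MP_6da7fa_al.EG

theorem prNs : StNs := by
  intro Z Z' iZ iZ' p p' t t'
  refine ⟨?_, ?_⟩
  · unfold NN
    refine Nat.card_congr ⟨fun ν => ⟨fun z' z => ν.1 z z', ?_, ?_, ?_⟩,
      fun ν => ⟨fun z z' => ν.1 z' z, ?_, ?_, ?_⟩, fun ν => rfl, fun ν => rfl⟩
    · exact ν.2.2.1
    · exact ν.2.1
    · intro z z' h
      exact ν.2.2.2 z' z (fun e => h e.symm)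
    · exact ν.2.2.1
    · exact ν.2.1
    · intro z z' h
      exact ν.2.2.2 z' z (fun e => h e.symm)
  · intro hne
    unfold NN
    rw [Nat.card_eq_zero]
    left
    refine ⟨fun ν => hne ?_⟩
    calc ∑ z, t z = ∑ z, ∑ z', ν.1 z z' := Finset.sum_congr rfl fun z _ => (ν.2.1 z).symm
      _ = ∑ z', ∑ z, ν.1 z z' := Finset.sum_comm
      _ = ∑ z', t' z' := Finset.sum_congr rfl fun z' _ => ν.2.2.1 z'

end Pool.Agent.Work.MP_6da7fa_al.EG
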