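import Pool.Agent.Work.MP_6da7fa_al.EG.StmtsV

/-!
# Item Nt: the norm trick (block EG of MP_6da7fa_al)
-/

set_option autoImplicit false

namespace Pool.Agent.Work.MP_6da7fa_al.EG

theorem prNt : StNt := by
  intro hMk α Z _ _ _ _ I p r hr j
  have h1 : ∑ i, (∑ t ∈ TT Z (Fintype.card α), r t * (hT p (I.ρ i) t : ℤ)) ^ 2 = 0 := by
    have e1 : ∀ i, (∑ t ∈ TT Z (Fintype.card α), r t * (hT p (I.ρ i) t : ℤ)) ^ 2 =
        ∑ t' ∈ TT Z (Fintype.card α), ∑ t ∈ TT Z (Fintype.card α),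
          r t' * (r t * ((hT p (I.ρ i) t : ℤ) * (hT p (I.ρ i) t' : ℤ))) := by
      intro i
      rw [pow_two, Finset.sum_mul_sum, Finset.sum_comm]
      refine Finset.sum_congr rfl fun t' _ => Finset.sum_congr rfl fun t _ => ?_
      ring
    simp only [e1]
    rw [Finset.sum_comm]
    refine Finset.sum_eq_zero fun t' ht' => ?_
    rw [Finset.sum_comm]
    have e2 : ∀ t ∈ TT Z (Fintype.card α),
        ∑ i, r t' * (r t * ((hT p (I.ρ i) t : ℤ) * (hT p (I.ρ i) t' : ℤ))) =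
        r t' * (r t * (NN p p t t' : ℤ)) := by
      intro t ht
      rw [← Finset.mul_sum, ← Finset.mul_sum]
      have h := hMk α Z Z I p p t t' ht ht'
      rw [← h]
      push_cast
      rfl
    rw [Finset.sum_congr rfl e2, ← Finset.mul_sum, hr t' ht', mul_zero]
  have h2 := (Finset.sum_eq_zero_iff_of_nonneg (fun i _ => sq_nonneg _)).1 h1 j (Finset.mem_univ j)
  exact pow_eq_zero_iff (two_ne_zero) |>.1 h2

end Pool.Agent.Work.MP_6da7fa_al.EG
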