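import Pool.Agent.Work.MP_6da7fa_al.EG.StmtsV

set_option autoImplicit false

/-!
# Theorem EG, item Nz: nonzero multiplicity means a nonzero equivariant map
-/

namespace Pool.Agent.Work.MP_6da7fa_al.EG

open Equiv

theorem prNz : StNz := by
  intro hDe hCl hMl α V _ _ _ _ _ I ρ i a b j ha hb hsz hmj
  obtain ⟨m, hm, hm2⟩ := hDe α V I ρ
  obtain ⟨j0, hj0, -⟩ := hCl.1 α I i a b ha hb hsz
  have hj : j = j0 := by
    by_contra h
    have h1 := hj0 j
    rw [if_neg h, hmj] at h1
    exact one_ne_zero h1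
  subst hj
  have h1 := (hMl α V I ρ m hm).1 i a b
  have h2 : mm ρ a b = (m j : ℤ) := by
    rw [h1, Finset.sum_eq_single j]
    · rw [hmj, mul_one]
    · intro j' _ hne
      rw [hj0 j', if_neg hne, mul_zero]
    · intro h
      exact absurd (Finset.mem_univ j) h
  rw [← (hm2 j).2, h2]
  exact Nat.cast_ne_zero

end Pool.Agent.Work.MP_6da7fa_al.EG
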