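import Pool.Agent.Work.MP_6da7fa_al.EG.StmtsS

set_option autoImplicit false

/-!
# Theorem EG, item O1: orthonormality in equal rank
-/

namespace Pool.Agent.Work.MP_6da7fa_al.EG

open Equiv MvPolynomial

theorem O1_mem {k : ℕ} (t : ZZ k → ℕ) (n : ℕ) : t ∈ TT (ZZ k) n ↔ ∑ z, t z = n := by
  unfold TT
  rw [Finset.mem_piAntidiag]
  constructor
  · rintro ⟨h, -⟩
    exact h
  · intro h
    exact ⟨h, fun i _ => Finset.mem_univ i⟩

/-- for fixed `t`, the sum over `t'` is a coefficient -/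
theorem O1_coeff (hC : ConCf) (hN : StNs) {i : ℕ} (a' b' : Fin i → ℕ) (u : ZZ i →₀ ℕ) :
    coeff u (sdet (par i) (fun z => (X z : MvPolynomial (ZZ i) ℤ)) a' b') =
      ∑ t' ∈ TT (ZZ i) (sz a' b'), KK a' b' t' * (NN (par i) (par i) u t' : ℤ) := by
  rw [hC (ZZ i) (par i) i a' b' u]
  refine Finset.sum_congr rfl fun t' _ => ?_
  rw [(hN (ZZ i) (ZZ i) (par i) (par i) t' u).1]

/-- the support of the determinant -/
theorem O1_supp (hC : ConCf) (hN : StNs) {i : ℕ} (a' b' : Fin i → ℕ) (u : ZZ i →₀ ℕ)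
    (hu : coeff u (sdet (par i) (fun z => (X z : MvPolynomial (ZZ i) ℤ)) a' b') ≠ 0) :
    ∑ z, u z = sz a' b' := by
  by_contra hne
  apply hu
  rw [O1_coeff hC hN]
  refine Finset.sum_eq_zero fun t' ht' => ?_
  rw [O1_mem] at ht'
  rw [(hN (ZZ i) (ZZ i) (par i) (par i) u t').2 (by rw [ht']; exact hne), Nat.cast_zero, mul_zero]

theorem prO1 : StO1 := by
  classical
  intro hC hN hSG hKp hAB i a b a' b' ha hb ha' hb' hsz
  obtain ⟨G, hs, hDG, hSym⟩ := hSG i a' b'
  have h1 : ∑ t ∈ TT (ZZ i) (sz a b), ∑ t' ∈ TT (ZZ i) (sz a' b'),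
      KK a b t * KK a' b' t' * (NN (par i) (par i) t t' : ℤ) =
      kapF a b (sdet (par i) (fun z => (X z : MvPolynomial (ZZ i) ℤ)) a' b') := by
    unfold kapF
    have h2 : ∀ t ∈ TT (ZZ i) (sz a b), ∑ t' ∈ TT (ZZ i) (sz a' b'),
        KK a b t * KK a' b' t' * (NN (par i) (par i) t t' : ℤ) =
        (fun u : ZZ i →₀ ℕ => KK a b u *
          coeff u (sdet (par i) (fun z => (X z : MvPolynomial (ZZ i) ℤ)) a' b'))
          (Finsupp.equivFunOnFinite.symm t) := by
      intro t _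
      show _ = KK a b (Finsupp.equivFunOnFinite.symm t) * _
      rw [O1_coeff hC hN, Finsupp.coe_equivFunOnFinite_symm, Finset.mul_sum]
      exact Finset.sum_congr rfl fun t' _ => mul_assoc _ _ _
    rw [Finset.sum_congr rfl h2]
    have h3 : ∑ t ∈ TT (ZZ i) (sz a b), (fun u : ZZ i →₀ ℕ => KK a b u *
          coeff u (sdet (par i) (fun z => (X z : MvPolynomial (ZZ i) ℤ)) a' b'))
          (Finsupp.equivFunOnFinite.symm t) =
        ∑ u ∈ (TT (ZZ i) (sz a b)).map Finsupp.equivFunOnFinite.symm.toEmbedding,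
          KK a b u * coeff u (sdet (par i) (fun z => (X z : MvPolynomial (ZZ i) ℤ)) a' b') := by
      rw [Finset.sum_map]
      rfl
    rw [h3]
    symm
    apply Finset.sum_subset
    · intro u hu
      rw [Finset.mem_map]
      refine ⟨u, ?_, ?_⟩
      · rw [O1_mem, hsz]
        exact O1_supp hC hN a' b' u (MvPolynomial.mem_support_iff.1 hu)
      · exact Finsupp.equivFunOnFinite.symm_apply_apply u
    · intro u _ hu
      rw [MvPolynomial.notMem_support_iff.1 hu, mul_zero]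
  rw [h1, hs, hKp i a b G hSym, hDG]
  exact hAB i a b a' b' ha hb ha' hb'

end Pool.Agent.Work.MP_6da7fa_al.EG
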