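import Pool.Agent.Work.MP_6da7fa_al.EG.StmtsS

set_option autoImplicit false

/-!
# Theorem EG, item O2: orthogonality in different ranks
-/

namespace Pool.Agent.Work.MP_6da7fa_al.EG

open Equiv MvPolynomial

/-- for fixed `u`, the sum over `t` is a coefficient of a vanishing determinant -/
theorem O2_half (hC : ConCf) (hV : ConVa) {i i' : ℕ} (hi : i < i') (a b : Fin i' → ℕ)
    (u : ZZ i → ℕ) :
    ∑ t ∈ TT (ZZ i') (sz a b), KK a b t * (NN (par i') (par i) t u : ℤ) = 0 := by
  have h1 := hC (ZZ i) (par i) i' a b (Finsupp.equivFunOnFinite.symm u)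
  rw [hV i i' a b hi, Finsupp.coe_equivFunOnFinite_symm] at h1
  rw [← h1]
  exact MvPolynomial.coeff_zero _

theorem prO2 : StO2 := by
  intro hC hN hV i i' a b a' b' hne
  rcases lt_or_gt_of_ne hne with h | h
  · refine Finset.sum_eq_zero fun t _ => ?_
    have h1 : ∀ t' ∈ TT (ZZ i') (sz a' b'),
        KK a b t * KK a' b' t' * (NN (par i) (par i') t t' : ℤ) =
          KK a b t * (KK a' b' t' * (NN (par i') (par i) t' t : ℤ)) := by
      intro t' _
      rw [(hN (ZZ i) (ZZ i') (par i) (par i') t t').1, mul_assoc]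
    rw [Finset.sum_congr rfl h1, ← Finset.mul_sum, O2_half hC hV h a' b' t, mul_zero]
  · rw [Finset.sum_comm]
    refine Finset.sum_eq_zero fun t' _ => ?_
    have h1 : ∀ t ∈ TT (ZZ i) (sz a b),
        KK a b t * KK a' b' t' * (NN (par i) (par i') t t' : ℤ) =
          KK a' b' t' * (KK a b t * (NN (par i) (par i') t t' : ℤ)) := by
      intro t _
      ring
    rw [Finset.sum_congr rfl h1, ← Finset.mul_sum, O2_half hC hV h a b t', mul_zero]

end Pool.Agent.Work.MP_6da7fa_al.EG
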