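import Pool.Agent.Work.MP_6da7fa_al.EG.StmtsV

set_option autoImplicit false

/-!
# Theorem EG, item Or: orthonormality of the irreducible characters of the symmetric groups
-/

namespace Pool.Agent.Work.MP_6da7fa_al.EG

open Equiv

open Classical in
theorem prOr : StOr := by
  intro hRe α _ _ I i j
  have hc : (Nat.card (Perm α) : ℂ) ≠ 0 := by
    rw [Nat.card_eq_fintype_card]
    exact_mod_cast Fintype.card_ne_zero
  let _ : Invertible (Nat.card (Perm α) : ℂ) := invertibleOfNonzero hc
  have hi : (I.ρ i).IsIrreducible := I.irr i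
  have hj : (I.ρ j).IsIrreducible := I.irr j
  have h := Representation.char_orthonormal (I.ρ i) (I.ρ j)
  have e1 : ∀ s : Perm α, (I.ρ j).character s⁻¹ = (I.ρ j).character s := fun s =>
    hRe α (Fin (I.d j) → ℂ) (I.ρ j) s
  simp only [e1] at h
  rw [Nat.card_eq_fintype_card] at h
  rw [h]
  by_cases hij : i = j
  · subst hij
    rw [if_pos ⟨Representation.Equiv.refl _⟩, if_pos rfl]
  · rw [if_neg hij, if_neg]
    rintro ⟨φ⟩
    exact hij (I.inj i j (Representation.char_iso φ).symm)

end Pool.Agent.Work.MP_6da7fa_al.EG
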