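import Pool.Agent.Work.MP_6da7fa_al.EG.StmtsS

/-!
# Theorem EG: item Pc

The Pieri coefficient of the product of the two alternants.
-/

set_option autoImplicit false

namespace Pool.Agent.Work.MP_6da7fa_al.EG

open Equiv MvPolynomial

private lemma Pc_ex_inj {k : ℕ} (a b a' b' : Fin k → ℕ) :
    ex a b = ex a' b' ↔ a = a' ∧ b = b' := by
  unfold ex
  rw [Equiv.apply_eq_iff_eq, Sum.elim_eq_iff]

private lemma Pc_monomial {k : ℕ} (a b : Fin k → ℕ) :
    (∏ i, (X (Sum.inl i) : MvPolynomial (ZZ k) ℤ) ^ a i) * (∏ i, X (Sum.inr i) ^ b i) =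
      monomial (ex a b) (1 : ℤ) := by
  rw [monomial_eq, Finsupp.prod_fintype _ _ (fun i => pow_zero _), Fintype.prod_sum_type]
  simp [ex]

/-- one box added at `q` -/
private def Pc_up {k : ℕ} (u : Fin k → ℕ) (q : Fin k) : Fin k → ℕ :=
  fun i => u i + if i = q then 1 else 0

private lemma Pc_inl {k : ℕ} (q : Fin k) (u v : Fin k → ℕ) :
    Finsupp.single (Sum.inl q) 1 + ex u v = ex (Pc_up u q) v := by
  ext z
  rcases z with i | i
  · by_cases h : i = q
    · subst h
      simp [ex, Pc_up, add_comm]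
    · have h' : q ≠ i := fun e => h e.symm
      simp [ex, Pc_up, Finsupp.single_apply, h, h']
  · simp [ex, Finsupp.single_apply]

private lemma Pc_inr {k : ℕ} (q : Fin k) (u v : Fin k → ℕ) :
    Finsupp.single (Sum.inr q) 1 + ex u v = ex u (Pc_up v q) := by
  ext z
  rcases z with i | i
  · simp [ex, Finsupp.single_apply]
  · by_cases h : i = q
    · subst h
      simp [ex, Pc_up, add_comm]
    · have h' : q ≠ i := fun e => h e.symm
      simp [ex, Pc_up, Finsupp.single_apply, h, h']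

private lemma Pc_mono {k : ℕ} (σ : Perm (Fin k)) (h : StrictMono σ) : σ = 1 := by
  have h1 : (σ : Fin k → Fin k) = id := by
    refine (StrictMono.range_inj h strictMono_id).mp ?_
    rw [σ.surjective.range_eq, Set.range_id]
  ext i
  simp [h1]

private lemma Pc_one {k : ℕ} (a a' : Fin k → ℕ) (ha : StrictAnti a) (ha' : StrictAnti a')
    (σ : Perm (Fin k)) (q : Fin k) (h : Pc_up (fun i => a' (σ i)) q = a) : σ = 1 := by
  apply Pc_mono
  intro i j hij
  have h1 := ha hij
  have hi := congrFun h i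
  have hj := congrFun h j
  unfold Pc_up at hi hj
  have hne : a' (σ i) ≠ a' (σ j) := by
    intro e
    exact hij.ne (σ.injective (ha'.injective e))
  have h2 : a' (σ j) < a' (σ i) := by
    have e1 : (if i = q then 1 else 0 : ℕ) ≤ 1 := by split_ifs <;> omega
    have hi' : a' (σ i) + (if i = q then 1 else 0) = a i := hi
    have hj' : a' (σ j) + (if j = q then 1 else 0) = a j := hj
    omega
  exact ha'.lt_iff_gt.mp h2

/-- the sum over the permutations -/
private def Pc_F {k : ℕ} (a a' : Fin k → ℕ) : ℤ :=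
  ∑ σ : Perm (Fin k), (Perm.sign σ : ℤ) * (if (fun i => a' (σ i)) = a then 1 else 0)

/-- the sum over the permutations with a box -/
private def Pc_G {k : ℕ} (a a' : Fin k → ℕ) : ℤ :=
  ∑ q : Fin k, ∑ σ : Perm (Fin k), (Perm.sign σ : ℤ) *
    (if Pc_up (fun i => a' (σ i)) q = a then 1 else 0)

private lemma Pc_F_self {k : ℕ} (a : Fin k → ℕ) (ha : StrictAnti a) : Pc_F a a = 1 := by
  unfold Pc_F
  rw [Finset.sum_eq_single (1 : Perm (Fin k))]
  · simp
  · intro σ _ hσ
    rw [if_neg, mul_zero]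
    intro h
    apply hσ
    apply Pc_mono
    intro i j hij
    have h1 := ha hij
    rw [← h] at h1
    exact ha.lt_iff_gt.mp h1
  · intro h
    exact absurd (Finset.mem_univ _) h

private lemma Pc_F_zero {k : ℕ} (a a' : Fin k → ℕ) (s : Fin k) (h : a = Pc_up a' s) :
    Pc_F a a' = 0 := by
  unfold Pc_F
  refine Finset.sum_eq_zero fun σ _ => ?_
  rw [if_neg, mul_zero]
  intro e
  have h1 : ∑ i, a' (σ i) = ∑ i, a i := by rw [← e]
  rw [Equiv.sum_comp σ a', h] at h1
  unfold Pc_up at h1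
  rw [Finset.sum_add_distrib] at h1
  simp at h1

private lemma Pc_G_one {k : ℕ} (a a' : Fin k → ℕ) (ha : StrictAnti a) (ha' : StrictAnti a')
    (s : Fin k) (h : a = Pc_up a' s) : Pc_G a a' = 1 := by
  unfold Pc_G
  rw [Finset.sum_eq_single s]
  · rw [Finset.sum_eq_single (1 : Perm (Fin k))]
    · have e : Pc_up (fun i => a' ((1 : Perm (Fin k)) i)) s = a := h.symm
      rw [if_pos e]
      simp
    · intro σ _ hσ
      rw [if_neg, mul_zero]
      intro e
      exact hσ (Pc_one a a' ha ha' σ s e)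
    · intro h
      exact absurd (Finset.mem_univ _) h
  · intro q _ hq
    refine Finset.sum_eq_zero fun σ _ => ?_
    rw [if_neg, mul_zero]
    intro e
    have h1 := Pc_one a a' ha ha' σ q e
    subst h1
    have h2 := congrFun e q
    rw [h] at h2
    unfold Pc_up at h2
    simp [hq] at h2
  · intro h
    exact absurd (Finset.mem_univ _) h

private lemma Pc_main {k : ℕ} (a b a' b' : Fin k → ℕ) :
    coeff (ex a b) ((∑ z : ZZ k, (X z : MvPolynomial (ZZ k) ℤ)) * (AA a' * BB b')) =
      Pc_G a a' * Pc_F b b' + Pc_F a a' * Pc_G b b' := by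
  have h1 : AA a' * BB b' = ∑ σ : Perm (Fin k), ∑ τ : Perm (Fin k),
      ((Perm.sign σ : ℤ) * (Perm.sign τ : ℤ)) •
        monomial (ex (fun i => a' (σ i)) (fun i => b' (τ i))) (1 : ℤ) := by
    unfold AA BB
    rw [Matrix.det_apply', Matrix.det_apply', Finset.sum_mul_sum]
    refine Finset.sum_congr rfl fun σ _ => Finset.sum_congr rfl fun τ _ => ?_
    rw [← Pc_monomial]
    simp only [Matrix.of_apply, zsmul_eq_mul]
    push_cast
    ring
  have h2 : ∀ (z : ZZ k) (m : ZZ k →₀ ℕ), (X z : MvPolynomial (ZZ k) ℤ) * monomial m (1 : ℤ) =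
      monomial (Finsupp.single z 1 + m) 1 := by
    intro z m
    rw [X, monomial_mul, one_mul]
  have h3 : ∀ z : ZZ k, coeff (ex a b) ((X z : MvPolynomial (ZZ k) ℤ) * (AA a' * BB b')) =
      ∑ σ : Perm (Fin k), ∑ τ : Perm (Fin k), ((Perm.sign σ : ℤ) * (Perm.sign τ : ℤ)) *
        (if Finsupp.single z 1 + ex (fun i => a' (σ i)) (fun i => b' (τ i)) = ex a b
          then 1 else 0) := by
    intro z
    rw [h1, Finset.mul_sum, coeff_sum]
    refine Finset.sum_congr rfl fun σ _ => ?_
    rw [Finset.mul_sum, coeff_sum]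
    refine Finset.sum_congr rfl fun τ _ => ?_
    rw [mul_smul_comm, h2, coeff_smul, coeff_monomial, smul_eq_mul]
  rw [Finset.sum_mul, coeff_sum, Fintype.sum_sum_type]
  congr 1
  · unfold Pc_G Pc_F
    rw [Finset.sum_mul]
    refine Finset.sum_congr rfl fun q _ => ?_
    rw [h3, Finset.sum_mul_sum]
    refine Finset.sum_congr rfl fun σ _ => Finset.sum_congr rfl fun τ _ => ?_
    simp only [Pc_inl, Pc_ex_inj]
    by_cases h4 : Pc_up (fun i => a' (σ i)) q = a <;> by_cases h5 : (fun i => b' (τ i)) = b <;>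
      simp [h4, h5]
  · unfold Pc_G Pc_F
    rw [Finset.mul_sum]
    refine Finset.sum_congr rfl fun q _ => ?_
    rw [h3, Finset.sum_mul_sum]
    refine Finset.sum_congr rfl fun σ _ => Finset.sum_congr rfl fun τ _ => ?_
    simp only [Pc_inr, Pc_ex_inj]
    by_cases h4 : (fun i => a' (σ i)) = a <;> by_cases h5 : Pc_up (fun i => b' (τ i)) q = b <;>
      simp [h4, h5]

private lemma Pc_update {k : ℕ} (u : Fin k → ℕ) (s : Fin k) :
    Function.update u s (u s + 1) = Pc_up u s := by
  funext i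
  by_cases h : i = s
  · subst h
    simp [Pc_up]
  · simp [Pc_up, h]

theorem prPc : StPc := by
  intro i a b a' b' ha hb ha' hb' hbox
  rw [Pc_main]
  rcases hbox with ⟨s, hs, rfl⟩ | ⟨s, rfl, hs⟩
  · rw [Pc_update] at hs
    rw [Pc_G_one a a' ha ha' s hs, Pc_F_self b hb, Pc_F_zero a a' s hs]
    ring
  · rw [Pc_update] at hs
    rw [Pc_G_one b b' hb hb' s hs, Pc_F_self a ha, Pc_F_zero b b' s hs]
    ring

end Pool.Agent.Work.MP_6da7fa_al.EG
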