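import Pool.Agent.Work.MP_6da7fa_al.EG.StmtsS

set_option autoImplicit false

/-!
# Theorem EG, item Pd: the product formula
-/

namespace Pool.Agent.Work.MP_6da7fa_al.EG

open Equiv MvPolynomial

section
variable {Z R S : Type} [Fintype Z] [DecidableEq Z] [CommRing R] [CommRing S]

private theorem Pd_hh (φ : R →+* S) (p : Z → Bool) (z : Z → R) (n : ℕ) :
    φ (hh p z n) = hh p (fun i => φ (z i)) n := by
  unfold hh
  simp only [map_sum, map_prod, map_pow]

private theorem Pd_SS (φ : R →+* S) (p : Z → Bool) (z : Z → R) (a b : ℕ) :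
    φ (SS p z a b) = SS p (fun i => φ (z i)) a b := by
  unfold SS
  simp only [map_sum, map_mul, map_pow, map_neg, map_one, Pd_hh]

private theorem Pd_sdet (φ : R →+* S) (p : Z → Bool) (z : Z → R) {i : ℕ} (a b : Fin i → ℕ) :
    φ (sdet p z a b) = sdet p (fun i => φ (z i)) a b := by
  unfold sdet
  rw [RingHom.map_det]
  congr 1
  ext q r
  exact Pd_SS φ p z (a q) (b r)

end

theorem prPd : StPd := by
  intro hFt hFM k a b
  apply IsFractionRing.injective (MvPolynomial (ZZ k) ℤ) (FractionRing (MvPolynomial (ZZ k) ℤ))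
  rw [map_mul, map_mul, map_mul, Pd_sdet, ← (hFM k).2.2]
  have hz : (fun z => algebraMap (MvPolynomial (ZZ k) ℤ) (FractionRing (MvPolynomial (ZZ k) ℤ))
      (X z)) = Sum.elim (fx k) (fy k) := by
    funext z
    cases z <;> rfl
  rw [hz]
  have hM : (Matrix.of fun q r => SS (par k) (Sum.elim (fx k) (fy k)) (a q) (b r)) =
      (Matrix.of fun (q : Fin k) (s : Fin k) => fx k s ^ a q) *
        (((CM (fx k) (fy k))⁻¹).transpose *
          ((Matrix.of fun (q : Fin k) (r : Fin k) => fy k r ^ b q)).transpose) := by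
    ext q q'
    rw [Matrix.of_apply, hFt _ k (fx k) (fy k) (hFM k).1 (hFM k).2.1, Matrix.mul_apply]
    refine Finset.sum_congr rfl fun s _ => ?_
    rw [Matrix.mul_apply, Finset.mul_sum]
    refine Finset.sum_congr rfl fun r _ => ?_
    simp only [Matrix.of_apply, Matrix.transpose_apply]
    ring
  have hA : algebraMap (MvPolynomial (ZZ k) ℤ) (FractionRing (MvPolynomial (ZZ k) ℤ)) (AA a) =
      (Matrix.of fun (q : Fin k) (s : Fin k) => fx k s ^ a q).det := by
    unfold AA
    rw [RingHom.map_det]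
    congr 1
    ext q s
    simp only [RingHom.mapMatrix_apply, Matrix.map_apply, Matrix.of_apply, map_pow]
    rfl
  have hB : algebraMap (MvPolynomial (ZZ k) ℤ) (FractionRing (MvPolynomial (ZZ k) ℤ)) (BB b) =
      (Matrix.of fun (q : Fin k) (r : Fin k) => fy k r ^ b q).det := by
    unfold BB
    rw [RingHom.map_det]
    congr 1
    ext q s
    simp only [RingHom.mapMatrix_apply, Matrix.map_apply, Matrix.of_apply, map_pow]
    rfl
  have hd : sdet (par k) (Sum.elim (fx k) (fy k)) a b =
      (Matrix.of fun (q : Fin k) (s : Fin k) => fx k s ^ a q).det *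
        (((CM (fx k) (fy k)).det)⁻¹ *
          (Matrix.of fun (q : Fin k) (r : Fin k) => fy k r ^ b q).det) := by
    unfold sdet
    rw [hM, Matrix.det_mul, Matrix.det_mul, Matrix.det_transpose, Matrix.det_transpose,
      Matrix.det_nonsing_inv, Ring.inverse_eq_inv']
  rw [hd, hA, hB]
  have h0 := (hFM k).2.1
  field_simp

end Pool.Agent.Work.MP_6da7fa_al.EG
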