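import Pool.Agent.Work.MP_6da7fa_al.EG.StmtsV

set_option autoImplicit false

/-!
# Theorem EG, item Pp: the projection onto the semi-invariants
-/

namespace Pool.Agent.Work.MP_6da7fa_al.EG

open Equiv

section
variable {α Z V : Type} [Fintype α] [LinearOrder α]

private theorem Pp_sq (hSb : StSb) (p : Z → Bool) (c : α → Z) (σ : Perm α) :
    ((sg p c σ : ℤ) : ℂ) * ((sg p c σ : ℤ) : ℂ) = 1 := by
  rcases (hSb α Z p c).1 σ with h | h <;> rw [h] <;> norm_num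

omit [Fintype α] [LinearOrder α] in
private theorem Pp_mul {c : α → Z} {σ τ : Perm α} (h1 : c ∘ σ = c) (h2 : c ∘ τ = c) :
    c ∘ ⇑(σ * τ) = c := by
  rw [Perm.coe_mul, ← Function.comp_assoc, h1, h2]

omit [Fintype α] [LinearOrder α] in
private theorem Pp_inv {c : α → Z} {σ : Perm α} (h1 : c ∘ σ = c) : c ∘ ⇑σ⁻¹ = c := by
  funext x
  have h2 : c (σ (σ⁻¹ x)) = c (σ⁻¹ x) := congrFun h1 (σ⁻¹ x)
  have h3 : σ (σ⁻¹ x) = x := σ.apply_symm_apply x
  rw [h3] at h2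
  exact h2.symm

variable [DecidableEq Z] [AddCommGroup V] [Module ℂ V]

private theorem Pp_apply (p : Z → Bool) (ρ : Representation ℂ (Perm α) V) (c : α → Z) (v : V) :
    PP p ρ c v = (((Finset.univ.filter fun σ : Perm α => c ∘ σ = c).card : ℂ))⁻¹ •
      ∑ σ ∈ Finset.univ.filter (fun σ : Perm α => c ∘ σ = c), ((sg p c σ : ℤ) : ℂ) • ρ σ v := by
  unfold PP
  simp [LinearMap.sum_apply]

private theorem Pp_left (hSb : StSb) (hSc : ConSc) (p : Z → Bool)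
    (ρ : Representation ℂ (Perm α) V) (c : α → Z) (h : Perm α) (hh : c ∘ h = c) (v : V) :
    ρ h (PP p ρ c v) = ((sg p c h : ℤ) : ℂ) • PP p ρ c v := by
  rw [Pp_apply, map_smul, map_sum, smul_comm]
  congr 1
  rw [Finset.smul_sum]
  refine Finset.sum_nbij' (fun σ => h * σ) (fun σ => h⁻¹ * σ) ?_ ?_ ?_ ?_ ?_
  · intro σ hσ
    rw [Finset.mem_filter] at hσ ⊢
    exact ⟨Finset.mem_univ _, Pp_mul hh hσ.2⟩
  · intro σ hσ
    rw [Finset.mem_filter] at hσ ⊢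
    exact ⟨Finset.mem_univ _, Pp_mul (Pp_inv hh) hσ.2⟩
  · intro σ _
    exact inv_mul_cancel_left h σ
  · intro σ _
    exact mul_inv_cancel_left h σ
  · intro σ hσ
    rw [Finset.mem_filter] at hσ
    rw [map_smul, (hSc α Z p c).1 h σ hσ.2, map_mul, smul_smul]
    show ((sg p c σ : ℤ) : ℂ) • (ρ h (ρ σ v)) = _ • (ρ h (ρ σ v))
    congr 1
    push_cast
    rw [← mul_assoc, Pp_sq hSb, one_mul]

private theorem Pp_right (hSb : StSb) (hSc : ConSc) (p : Z → Bool)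
    (ρ : Representation ℂ (Perm α) V) (c : α → Z) (h : Perm α) (hh : c ∘ h = c) (v : V) :
    PP p ρ c (ρ h v) = ((sg p c h : ℤ) : ℂ) • PP p ρ c v := by
  rw [Pp_apply, Pp_apply, smul_comm]
  congr 1
  rw [Finset.smul_sum]
  refine Finset.sum_nbij' (fun σ => σ * h) (fun σ => σ * h⁻¹) ?_ ?_ ?_ ?_ ?_
  · intro σ hσ
    rw [Finset.mem_filter] at hσ ⊢
    exact ⟨Finset.mem_univ _, Pp_mul hσ.2 hh⟩
  · intro σ hσ
    rw [Finset.mem_filter] at hσ ⊢
    exact ⟨Finset.mem_univ _, Pp_mul hσ.2 (Pp_inv hh)⟩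
  · intro σ _
    exact mul_inv_cancel_right σ h
  · intro σ _
    exact inv_mul_cancel_right σ h
  · intro σ _
    rw [(hSc α Z p c).1 σ h hh, map_mul, smul_smul]
    show ((sg p c σ : ℤ) : ℂ) • (ρ σ (ρ h v)) = _ • (ρ σ (ρ h v))
    congr 1
    push_cast
    rw [mul_comm ((sg p c σ : ℤ) : ℂ), ← mul_assoc, Pp_sq hSb, one_mul]

end

theorem prPp : StPp := by
  intro hSb hSc α Z V _ _ _ _ _ p ρ c
  refine ⟨⟨fun v σ hσ => Pp_left hSb hSc p ρ c σ hσ v, fun v hv => ?_⟩,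
    fun h hh v => Pp_right hSb hSc p ρ c h hh v⟩
  rw [Pp_apply]
  have h1 : ∀ σ ∈ Finset.univ.filter (fun σ : Perm α => c ∘ σ = c),
      ((sg p c σ : ℤ) : ℂ) • ρ σ v = v := by
    intro σ hσ
    rw [Finset.mem_filter] at hσ
    rw [hv σ hσ.2, smul_smul, Pp_sq hSb, one_smul]
  rw [Finset.sum_congr rfl h1, Finset.sum_const, ← Nat.cast_smul_eq_nsmul ℂ, smul_smul,
    inv_mul_cancel₀, one_smul]
  have h2 : (1 : Perm α) ∈ Finset.univ.filter (fun σ : Perm α => c ∘ σ = c) := by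
    rw [Finset.mem_filter]
    exact ⟨Finset.mem_univ _, rfl⟩
  exact Nat.cast_ne_zero.2 (Finset.card_ne_zero_of_mem h2)

end Pool.Agent.Work.MP_6da7fa_al.EG
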