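import Pool.Agent.Work.MP_6da7fa_al.EG.StmtsV

set_option autoImplicit false

/-!
# Theorem EG, item Ra: semi-invariants of a restriction
-/

namespace Pool.Agent.Work.MP_6da7fa_al.EG

open Equiv

theorem Ra_swap {α β : Type} [DecidableEq α] [DecidableEq β] (f : β ↪ α) (x y : β) :
    Perm.viaEmbedding (swap x y) f = swap (f x) (f y) := by
  ext a
  by_cases ha : a ∈ Set.range f
  · obtain ⟨b, rfl⟩ := ha
    rw [Perm.viaEmbedding_apply, Function.Injective.map_swap f.injective]
  · rw [Perm.viaEmbedding_apply_of_notMem _ _ _ ha, swap_apply_of_ne_of_ne]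
    · rintro rfl
      exact ha ⟨x, rfl⟩
    · rintro rfl
      exact ha ⟨y, rfl⟩

theorem Ra_x0 {α β : Type} [Fintype α] [Fintype β] (f : β ↪ α)
    (h : Fintype.card β + 1 = Fintype.card α) :
    ∃ x0 : α, (∀ b, f b ≠ x0) ∧ ∀ a, a ≠ x0 → ∃ b, f b = a := by
  classical
  have h1 : ((Finset.univ.map f)ᶜ).card = 1 := by
    rw [Finset.card_compl, Finset.card_map, Finset.card_univ]
    omega
  obtain ⟨x0, hx0⟩ := Finset.card_eq_one.1 h1
  have h2 : ∀ a, a ∈ (Finset.univ.map f)ᶜ ↔ a = x0 := by
    intro a
    rw [hx0, Finset.mem_singleton]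
  refine ⟨x0, ?_, ?_⟩
  · intro b hb
    have h3 := (h2 x0).2 rfl
    rw [Finset.mem_compl] at h3
    apply h3
    rw [← hb]
    exact Finset.mem_map_of_mem f (Finset.mem_univ b)
  · intro a ha
    have h3 : ¬ a ∈ (Finset.univ.map f)ᶜ := fun h3 => ha ((h2 a).1 h3)
    rw [Finset.mem_compl, not_not, Finset.mem_map] at h3
    obtain ⟨b, -, hb⟩ := h3
    exact ⟨b, hb⟩

theorem prRa : StRa := by
  intro hSw hHt α β Z V _ _ _ _ _ _ _ _ f ρ p t hcard
  obtain ⟨hH1, -, hH3⟩ := hHt
  obtain ⟨x0, hx1, hx2⟩ := Ra_x0 f.toEmbedding hcard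
  by_cases hc : ∃ c : β → Z, typ c = t
  · obtain ⟨c, rfl⟩ := hc
    rw [hH1 β Z V p (resE f ρ) c]
    obtain ⟨c', hc1, hc2⟩ : ∃ c' : α → Z ⊕ Unit, (∀ b, c' (f b) = Sum.inl (c b)) ∧
        c' x0 = Sum.inr () := by
      classical
      refine ⟨fun a => if h : ∃ b, f b = a then Sum.inl (c h.choose) else Sum.inr (), ?_, ?_⟩
      · intro b
        have h : ∃ b', f b' = f b := ⟨b, rfl⟩
        have h1 : h.choose = b := f.injective h.choose_spec
        simp only [dif_pos h, h1]
      · have h : ¬ ∃ b, f b = x0 := fun ⟨b, hb⟩ => hx1 b hb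
        simp only [dif_neg h]
    have htyp : typ c' = Sum.elim (typ c) (fun _ : Unit => 1) := by
      funext z
      rcases z with z | u
      · show (Finset.univ.filter fun x => c' x = Sum.inl z).card =
          (Finset.univ.filter fun x => c x = z).card
        rw [← Finset.card_map f.toEmbedding]
        congr 1
        ext a
        rw [Finset.mem_filter, Finset.mem_map]
        constructor
        · rintro ⟨-, ha⟩
          have h1 : a ≠ x0 := by
            rintro rfl
            rw [hc2] at ha
            cases ha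
          obtain ⟨b, hb⟩ := hx2 a h1
          refine ⟨b, ?_, hb⟩
          rw [Finset.mem_filter]
          refine ⟨Finset.mem_univ b, ?_⟩
          have h2 : c' (f b) = Sum.inl z := by
            have h3 : f b = a := hb
            rw [h3]; exact ha
          rw [hc1] at h2
          exact Sum.inl.inj h2
        · rintro ⟨b, hb, rfl⟩
          refine ⟨Finset.mem_univ _, ?_⟩
          show c' (f b) = Sum.inl z
          rw [hc1, (Finset.mem_filter.1 hb).2]
      · show (Finset.univ.filter fun x => c' x = Sum.inr u).card = 1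
        rw [Finset.card_eq_one]
        refine ⟨x0, ?_⟩
        ext a
        rw [Finset.mem_filter, Finset.mem_singleton]
        constructor
        · rintro ⟨-, ha⟩
          by_contra h1
          obtain ⟨b, hb⟩ := hx2 a h1
          have h2 : c' (f b) = Sum.inr u := by
            have h3 : f b = a := hb
            rw [h3]; exact ha
          rw [hc1] at h2
          cases h2
        · rintro rfl
          exact ⟨Finset.mem_univ _, hc2⟩
    rw [← htyp, hH1 α (Z ⊕ Unit) V (Sum.elim p fun _ : Unit => false) ρ c']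
    unfold hn
    have hSI : SI p (resE f ρ) c = SI (Sum.elim p fun _ : Unit => false) ρ c' := by
      ext v
      rw [hSw β Z V p (resE f ρ) c v, hSw α (Z ⊕ Unit) V _ ρ c' v]
      have hres : ∀ x y : β, resE f ρ (swap x y) = ρ (swap (f x) (f y)) := by
        intro x y
        show ρ (Perm.viaEmbedding (swap x y) f.toEmbedding) = _
        rw [Ra_swap]
        rfl
      constructor
      · intro h x y hxy hcxy
        have hx : x ≠ x0 := by
          rintro rfl
          obtain ⟨b, hb⟩ := hx2 y (fun h => hxy h.symm)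
          have hb' : f b = y := hb
          rw [hc2, ← hb', hc1] at hcxy
          cases hcxy
        have hy : y ≠ x0 := by
          rintro rfl
          obtain ⟨b, hb⟩ := hx2 x hxy
          have hb' : f b = x := hb
          rw [hc2, ← hb', hc1] at hcxy
          cases hcxy
        obtain ⟨b, hb⟩ := hx2 x hx
        obtain ⟨b', hb'⟩ := hx2 y hy
        have e1 : f b = x := hb
        have e2 : f b' = y := hb'
        subst e1 e2
        rw [hc1, hc1] at hcxy
        have h2 := h b b' (fun h => hxy (by rw [h])) (Sum.inl.inj hcxy)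
        rw [hres] at h2
        rw [h2, hc1]
        rfl
      · intro h x y hxy hcxy
        have h2 := h (f x) (f y) (fun h => hxy (f.injective h)) (by rw [hc1, hc1, hcxy])
        rw [hres, h2, hc1]
        rfl
    rw [hSI]
  · have h1 : hT p (resE f ρ) t = 0 := by
      unfold hT
      rw [dif_neg hc]
    have h2 : ¬ ∃ c' : α → Z ⊕ Unit, typ c' = Sum.elim t (fun _ : Unit => 1) := by
      intro h
      rw [← hH3 α (Z ⊕ Unit), TT, Finset.mem_piAntidiag] at h
      apply hc
      rw [← hH3 β Z, TT, Finset.mem_piAntidiag]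
      refine ⟨?_, fun i _ => Finset.mem_univ i⟩
      have h3 := h.1
      rw [Fintype.sum_sum_type] at h3
      simp only [Sum.elim_inl, Sum.elim_inr, Finset.univ_unique, Finset.sum_singleton] at h3
      have h4 : Finset.univ.sum t + 1 = Fintype.card α := h3
      omega
    rw [h1]
    unfold hT
    rw [dif_neg h2]

end Pool.Agent.Work.MP_6da7fa_al.EG
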