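import Pool.Agent.Work.MP_6da7fa_al.EG.StmtsV

set_option autoImplicit false

/-!
# Theorem EG, item Rb: the restriction of an irreducible representation contains one of the same rank
-/

namespace Pool.Agent.Work.MP_6da7fa_al.EG

open Equiv

theorem Rb_mem {Z : Type} [Fintype Z] [DecidableEq Z] (t : Z → ℕ) (n : ℕ) :
    t ∈ TT Z n ↔ ∑ z, t z = n := by
  unfold TT
  rw [Finset.mem_piAntidiag]
  constructor
  · rintro ⟨h, -⟩
    exact h
  · intro h
    exact ⟨h, fun i _ => Finset.mem_univ i⟩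

/-- the semi-invariants of the irreducible representation with coordinates `(a, b)` -/
theorem Rb_hT (hMk : ConMk) {α : Type} [Fintype α] [LinearOrder α] (I : IrrSys α) {i : ℕ}
    (a b : Fin i → ℕ) (j : I.ι) (h1 : mm (I.ρ j) a b = 1)
    (h0 : ∀ j', j' ≠ j → mm (I.ρ j') a b = 0)
    {Z' : Type} [Fintype Z'] [DecidableEq Z'] (p' : Z' → Bool) (t' : Z' → ℕ)
    (ht' : t' ∈ TT Z' (Fintype.card α)) :
    (hT p' (I.ρ j) t' : ℤ) =
      ∑ t ∈ TT (ZZ i) (Fintype.card α), KK a b t * (NN (par i) p' t t' : ℤ) := by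
  have e1 : ∀ t ∈ TT (ZZ i) (Fintype.card α), KK a b t * (NN (par i) p' t t' : ℤ) =
      ∑ j', (KK a b t * (hT (par i) (I.ρ j') t : ℤ)) * (hT p' (I.ρ j') t' : ℤ) := by
    intro t ht
    rw [← hMk α (ZZ i) Z' I (par i) p' t t' ht ht']
    push_cast
    rw [Finset.mul_sum]
    exact Finset.sum_congr rfl fun j' _ => (mul_assoc _ _ _).symm
  rw [Finset.sum_congr rfl e1, Finset.sum_comm]
  have e2 : ∀ j' ∈ (Finset.univ : Finset I.ι),
      ∑ t ∈ TT (ZZ i) (Fintype.card α),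
        (KK a b t * (hT (par i) (I.ρ j') t : ℤ)) * (hT p' (I.ρ j') t' : ℤ) =
      mm (I.ρ j') a b * (hT p' (I.ρ j') t' : ℤ) := by
    intro j' _
    rw [← Finset.sum_mul]
    rfl
  rw [Finset.sum_congr rfl e2, Finset.sum_eq_single j]
  · rw [h1, one_mul]
  · intro j' _ hj'
    rw [h0 j' hj', zero_mul]
  · intro h
    exact absurd (Finset.mem_univ j) h

theorem prRb : StRb := by
  intro hBx hRa hCl hMk hPi α β _ _ _ _ I f i a b j hc ha hb hsz hi hmm
  obtain ⟨-, hB2, -⟩ := hBx i a b ha hb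
  obtain ⟨a', b', ha', hb', hBox, hsz'⟩ := hB2 (by rw [hsz]; exact hi)
  have hszb : sz a' b' = Fintype.card β := by omega
  refine ⟨a', b', ha', hb', hszb, ?_⟩
  obtain ⟨j0, hj0, -⟩ := hCl.1 α I i a b ha hb hsz
  have hjj : j = j0 := by
    by_contra hne
    have h2 := hj0 j
    rw [if_neg hne, hmm] at h2
    exact one_ne_zero h2
  subst hjj
  have h0 : ∀ j', j' ≠ j → mm (I.ρ j') a b = 0 := by
    intro j' hj'
    have h2 := hj0 j'
    rwa [if_neg hj'] at h2
  have e1 : ∀ t' ∈ TT (ZZ i) (Fintype.card β),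
      KK a' b' t' * (hT (par i) (resE f (I.ρ j)) t' : ℤ) =
      ∑ t ∈ TT (ZZ i) (Fintype.card α), KK a b t * KK a' b' t' *
        (NN (par i) (Sum.elim (par i) (fun _ : Unit => false)) t
          (Sum.elim t' (fun _ => 1)) : ℤ) := by
    intro t' ht'
    have ht2 : Sum.elim t' (fun _ : Unit => 1) ∈ TT (ZZ i ⊕ Unit) (Fintype.card α) := by
      rw [Rb_mem] at ht' ⊢
      rw [Fintype.sum_sum_type]
      simp only [Sum.elim_inl, Sum.elim_inr, Finset.univ_unique, Finset.sum_const,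
        Finset.card_singleton, smul_eq_mul, mul_one]
      omega
    rw [hRa α β (ZZ i) _ f (I.ρ j) (par i) t' hc,
      Rb_hT hMk I a b j hmm h0 _ _ ht2, Finset.mul_sum]
    refine Finset.sum_congr rfl fun t _ => ?_
    ring
  have e2 : mm (resE f (I.ρ j)) a' b' = ∑ t' ∈ TT (ZZ i) (Fintype.card β),
      KK a' b' t' * (hT (par i) (resE f (I.ρ j)) t' : ℤ) := rfl
  rw [e2, Finset.sum_congr rfl e1, Finset.sum_comm]
  have e3 := hPi i a b a' b' ha hb ha' hb' hBox
  rw [hsz, hszb] at e3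
  exact e3

end Pool.Agent.Work.MP_6da7fa_al.EG
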