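import Pool.Agent.Work.MP_6da7fa_al.EG.StmtsV

set_option autoImplicit false

/-!
# Theorem EG, item Rc: the restriction contains the square
-/

namespace Pool.Agent.Work.MP_6da7fa_al.EG

open Equiv

private theorem Rc_via_swap {α β : Type} [DecidableEq α] [DecidableEq β] (f : β ↪ α) (x y : β) :
    Perm.viaEmbeddingHom f (swap x y) = swap (f x) (f y) := by
  rw [Perm.viaEmbeddingHom_apply]
  ext z
  by_cases hz : z ∈ Set.range f
  · obtain ⟨w, rfl⟩ := hz
    rw [Perm.viaEmbedding_apply]
    rcases eq_or_ne w x with rfl | hx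
    · rw [swap_apply_left, swap_apply_left]
    · rcases eq_or_ne w y with rfl | hy
      · rw [swap_apply_right, swap_apply_right]
      · rw [swap_apply_of_ne_of_ne hx hy, swap_apply_of_ne_of_ne
          (fun h => hx (f.injective h)) (fun h => hy (f.injective h))]
  · rw [Perm.viaEmbedding_apply_of_notMem _ _ _ hz, swap_apply_of_ne_of_ne
      (fun h => hz ⟨x, h.symm⟩) (fun h => hz ⟨y, h.symm⟩)]

private theorem Rc_via_comp {α β γ : Type} (f : β ↪ γ) (g : γ ↪ α) (s : Perm β) :
    Perm.viaEmbeddingHom g (Perm.viaEmbeddingHom f s) = Perm.viaEmbeddingHom (f.trans g) s := by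
  rw [Perm.viaEmbeddingHom_apply, Perm.viaEmbeddingHom_apply, Perm.viaEmbeddingHom_apply]
  ext z
  by_cases hz : z ∈ Set.range (f.trans g)
  · obtain ⟨w, rfl⟩ := hz
    rw [Perm.viaEmbedding_apply]
    show (s.viaEmbedding f).viaEmbedding g (g (f w)) = g (f (s w))
    rw [Perm.viaEmbedding_apply, Perm.viaEmbedding_apply]
  · rw [Perm.viaEmbedding_apply_of_notMem _ (f.trans g) _ hz]
    by_cases hg : z ∈ Set.range g
    · obtain ⟨w, rfl⟩ := hg
      rw [Perm.viaEmbedding_apply, Perm.viaEmbedding_apply_of_notMem]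
      rintro ⟨u, rfl⟩
      exact hz ⟨u, rfl⟩
    · rw [Perm.viaEmbedding_apply_of_notMem _ _ _ hg]

private theorem Rc_surj {G V W : Type} [Group G] [AddCommGroup V] [Module ℂ V] [AddCommGroup W]
    [Module ℂ W] {ρ : Representation ℂ G V} {σ : Representation ℂ G W} (hσ : σ.IsIrreducible)
    {φ : V →ₗ[ℂ] W} (h0 : φ ≠ 0) (h : ∀ s v, φ (ρ s v) = σ s (φ v)) :
    Function.Surjective φ := by
  haveI : IsSimpleOrder (Subrepresentation σ) := hσ
  obtain ⟨U, hU⟩ : ∃ U : Subrepresentation σ, U.toSubmodule = LinearMap.range φ :=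
    ⟨⟨LinearMap.range φ, by
      rintro g _ ⟨v, rfl⟩
      exact ⟨ρ g v, h g v⟩⟩, rfl⟩
  rcases IsSimpleOrder.eq_bot_or_eq_top U with hb | ht
  · exfalso
    apply h0
    ext v
    have h1 : φ v ∈ U.toSubmodule := by
      rw [hU]
      exact ⟨v, rfl⟩
    rw [hb] at h1
    exact h1
  · intro w
    have h1 : w ∈ U.toSubmodule := by
      rw [ht]
      exact Submodule.mem_top (R := ℂ)
    rw [hU] at h1
    exact h1

private theorem Rc_hT (hSw : ConSw) (hHt : ConHt) {α β V Z : Type} [Fintype α] [LinearOrder α]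
    [Fintype β] [LinearOrder β] [AddCommGroup V] [Module ℂ V] [Fintype Z] [DecidableEq Z]
    (f : β ↪o α) (hf : Function.Surjective f) (ρ : Representation ℂ (Perm α) V) (p : Z → Bool)
    (t : Z → ℕ) (ht : t ∈ TT Z (Fintype.card α)) : hT p (resE f ρ) t = hT p ρ t := by
  obtain ⟨c, rfl⟩ := (hHt.2.2 α Z t).1 ht
  have h1 : typ (c ∘ f) = typ c := by
    funext z
    unfold typ
    refine Finset.card_bij (fun y _ => f y) ?_ ?_ ?_
    · intro y hy
      rw [Finset.mem_filter] at hy ⊢
      exact ⟨Finset.mem_univ _, hy.2⟩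
    · intro y _ y' _ h
      exact f.injective h
    · intro x hx
      obtain ⟨y, rfl⟩ := hf x
      rw [Finset.mem_filter] at hx
      exact ⟨y, by rw [Finset.mem_filter]; exact ⟨Finset.mem_univ _, hx.2⟩, rfl⟩
  rw [hHt.1 α Z V p ρ c, ← h1, hHt.1 β Z V p (resE f ρ) (c ∘ f)]
  unfold hn
  have h2 : SI p (resE f ρ) (c ∘ f) = SI p ρ c := by
    ext v
    rw [hSw, hSw]
    have hsw : ∀ x y, resE f ρ (swap x y) v = ρ (swap (f x) (f y)) v := by
      intro x y
      show ρ (Perm.viaEmbeddingHom f.toEmbedding (swap x y)) v = _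
      rw [Rc_via_swap]
      rfl
    constructor
    · intro h x y hxy hc
      obtain ⟨x', rfl⟩ := hf x
      obtain ⟨y', rfl⟩ := hf y
      have h3 := h x' y' (fun e => hxy (by rw [e])) hc
      rw [hsw] at h3
      exact h3
    · intro h x y hxy hc
      rw [hsw]
      exact h (f x) (f y) (fun e => hxy (f.injective e)) hc
  rw [h2]

theorem prRc : StRc := by
  intro h0 hBx hSw hHt hCl hNz hRb
  have key : ∀ d : ℕ, ∀ (α β V : Type) [Fintype α] [LinearOrder α] [Fintype β] [LinearOrder β]
      [AddCommGroup V] [Module ℂ V] [FiniteDimensional ℂ V] (f : β ↪o α)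
      (ρ : Representation ℂ (Perm α) V) (i : ℕ) (a b : Fin i → ℕ),
      Fintype.card α = Fintype.card β + d → StrictAnti a → StrictAnti b →
      sz a b = Fintype.card α → mm ρ a b ≠ 0 → Fintype.card β = i ^ 2 →
      mm (resE f ρ) (sq i) (sq i) ≠ 0 := by
    intro d
    induction d with
    | zero =>
      intro α β V _ _ _ _ _ _ _ f ρ i a b hd ha hb hsz hmm hcard
      have hf : Function.Surjective f :=
        ((Fintype.bijective_iff_injective_and_card f).2 ⟨f.injective, hd.symm⟩).2
      obtain ⟨e1, e2⟩ := (hBx i a b ha hb).2.2 (by rw [hsz, hd, hcard]; rfl)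
      have hd' : Fintype.card α = Fintype.card β := by omega
      have e3 : mm (resE f ρ) (sq i) (sq i) = mm ρ (sq i) (sq i) := by
        unfold mm
        rw [hd']
        refine Finset.sum_congr rfl fun t ht => ?_
        rw [Rc_hT hSw hHt f hf ρ (par i) t (by rw [hd']; exact ht)]
      rw [e1, e2] at hmm
      rw [e3]
      exact hmm
    | succ d ih =>
      intro α β V _ _ _ _ _ _ _ f ρ i a b hd ha hb hsz hmm hcard
      have hns : ∃ x0, x0 ∉ Set.range f := by
        by_contra hcon
        push Not at hcon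
        have hf : Function.Surjective f := fun x => hcon x
        have h1 := Fintype.card_le_of_surjective f hf
        omega
      obtain ⟨x0, hx0⟩ := hns
      let g : {x : α // x ≠ x0} ↪o α := OrderEmbedding.subtype _
      let f' : β ↪o {x : α // x ≠ x0} :=
        { toFun := fun y => ⟨f y, fun h => hx0 ⟨y, h⟩⟩
          inj' := fun y y' h => f.injective (congrArg Subtype.val h)
          map_rel_iff' := fun {y y'} => f.map_rel_iff' }
      have hcomp : resE f ρ = resE f' (resE g ρ) := by
        apply MonoidHom.ext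
        intro s
        show ρ (Perm.viaEmbeddingHom f.toEmbedding s) =
          ρ (Perm.viaEmbeddingHom g.toEmbedding (Perm.viaEmbeddingHom f'.toEmbedding s))
        rw [Rc_via_comp]
        rfl
      have hcα : Fintype.card {x : α // x ≠ x0} + 1 = Fintype.card α := by
        have h1 := Fintype.card_subtype_compl (fun x : α => x = x0)
        rw [Fintype.card_subtype_eq] at h1
        have h2 : Fintype.card {x : α // x ≠ x0} = Fintype.card α - 1 := by
          rw [← h1]
        have h3 : 0 < Fintype.card α := Fintype.card_pos_iff.2 ⟨x0⟩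
        omega
      obtain ⟨I⟩ := h0 α
      obtain ⟨I'⟩ := h0 {x : α // x ≠ x0}
      obtain ⟨j, hj, -⟩ := hCl.1 α I i a b ha hb hsz
      have hj1 : mm (I.ρ j) a b = 1 := by rw [hj j, if_pos rfl]
      obtain ⟨φ, hφ0, hφ⟩ := (hNz α V I ρ i a b j ha hb hsz hj1).1 hmm
      have hφs := Rc_surj (I.irr j) hφ0 hφ
      obtain ⟨a', b', ha', hb', hsz', hm'⟩ := hRb α {x : α // x ≠ x0} I g i a b j hcα ha hb hsz
        (by omega) hj1
      obtain ⟨j', hj', -⟩ := hCl.1 {x : α // x ≠ x0} I' i a' b' ha' hb' hsz'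
      have hj1' : mm (I'.ρ j') a' b' = 1 := by rw [hj' j', if_pos rfl]
      obtain ⟨ψ, hψ0, hψ⟩ := (hNz {x : α // x ≠ x0} _ I' (resE g (I.ρ j)) i a' b' j' ha' hb' hsz'
        hj1').1 (by rw [hm']; exact one_ne_zero)
      have hnz : NzI (resE g ρ) (I'.ρ j') := by
        refine ⟨ψ ∘ₗ φ, ?_, ?_⟩
        · intro h
          apply hψ0
          refine LinearMap.ext fun w => ?_
          obtain ⟨v, rfl⟩ := hφs w
          have h1 := LinearMap.congr_fun h v
          rw [LinearMap.comp_apply, LinearMap.zero_apply] at h1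
          rw [h1, LinearMap.zero_apply]
        · intro s v
          rw [LinearMap.comp_apply, LinearMap.comp_apply]
          have h1 : φ (resE g ρ s v) = resE g (I.ρ j) s (φ v) := hφ _ v
          rw [h1, hψ]
      have hmm' : mm (resE g ρ) a' b' ≠ 0 :=
        (hNz {x : α // x ≠ x0} V I' (resE g ρ) i a' b' j' ha' hb' hsz' hj1').2 hnz
      rw [hcomp]
      exact ih {x : α // x ≠ x0} β V f' (resE g ρ) i a' b' (by omega) ha' hb' hsz' hmm' hcard
  intro α β V _ _ _ _ _ _ _ f ρ i a b ha hb hsz hmm hcard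
  have hle : Fintype.card β ≤ Fintype.card α := Fintype.card_le_of_embedding f.toEmbedding
  exact key (Fintype.card α - Fintype.card β) α β V f ρ i a b (by omega) ha hb hsz hmm hcard

end Pool.Agent.Work.MP_6da7fa_al.EG
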