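import Pool.Agent.Work.MP_6da7fa_al.EG.StmtsV

set_option autoImplicit false

/-!
# Theorem EG, item Re: characters of symmetric groups are real (inverse form)
-/

namespace Pool.Agent.Work.MP_6da7fa_al.EG

open Equiv

theorem prRe : StRe := by
  intro α V _ _ _ _ _ ρ s
  have h : IsConj s⁻¹ s := Equiv.Perm.isConj_iff_cycleType_eq.2 (Equiv.Perm.cycleType_inv s)
  obtain ⟨c, hc⟩ := isConj_iff.1 h
  rw [← Representation.char_conj ρ s⁻¹ c, hc]

end Pool.Agent.Work.MP_6da7fa_al.EG
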