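import Pool.Agent.Work.MP_6da7fa_al.EG.StmtsS

/-!
# Item Ro: generating function of a row product
-/

set_option autoImplicit false

namespace Pool.Agent.Work.MP_6da7fa_al.EG

theorem prRo : StRo := by
  classical
  intro Y Z R _ _ _ _ _ p p' z t
  obtain ⟨S, hS⟩ : ∃ S : Y → Finset (Z → ℕ), S = fun y =>
    (TT Z (t y)).filter (fun ν => ∀ i, p y ≠ p' i → ν i ≤ 1) := ⟨_, rfl⟩
  have hrow : rows p p' z t = ∏ y, ∑ ν ∈ S y, ∏ i, z i ^ ν i := by
    unfold rows
    refine Finset.prod_congr rfl fun y _ => ?_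
    rw [hS]
    cases hp : p y
    · rw [if_neg (by simp)]
      unfold hh
      refine Finset.sum_congr ?_ fun _ _ => rfl
      refine Finset.filter_congr fun ν _ => ?_
      refine forall_congr' fun i => ?_
      cases p' i <;> simp [hp]
    · rw [if_pos rfl]
      unfold hh op
      refine Finset.sum_congr ?_ fun _ _ => rfl
      refine Finset.filter_congr fun ν _ => ?_
      refine forall_congr' fun i => ?_
      cases p' i <;> simp [hp]
  rw [hrow, Finset.prod_univ_sum]
  have hmem : ∀ g, g ∈ Fintype.piFinset S ↔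
      (∀ y, ∑ i, g y i = t y) ∧ ∀ y i, p y ≠ p' i → g y i ≤ 1 := by
    intro g
    rw [Fintype.mem_piFinset]
    simp only [hS, Finset.mem_filter, TT, Finset.mem_piAntidiag]
    constructor
    · intro h
      exact ⟨fun y => (h y).1.1, fun y i => (h y).2 i⟩
    · intro h y
      exact ⟨⟨h.1 y, fun i _ => Finset.mem_univ i⟩, h.2 y⟩
  have hT : ∀ g ∈ Fintype.piFinset S, (fun i => ∑ y, g y i) ∈ TT Z (∑ y, t y) := by
    intro g hg
    unfold TT
    rw [Finset.mem_piAntidiag]
    refine ⟨?_, fun i _ => Finset.mem_univ i⟩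
    rw [Finset.sum_comm]
    exact Finset.sum_congr rfl fun y _ => ((hmem g).1 hg).1 y
  rw [← Finset.sum_fiberwise_of_maps_to hT]
  refine Finset.sum_congr rfl fun t' _ => ?_
  have h1 : ∀ g ∈ (Fintype.piFinset S).filter (fun g => (fun i => ∑ y, g y i) = t'),
      ∏ y, ∏ i, z i ^ g y i = ∏ i, z i ^ t' i := by
    intro g hg
    rw [Finset.mem_filter] at hg
    rw [Finset.prod_comm]
    refine Finset.prod_congr rfl fun i _ => ?_
    rw [Finset.prod_pow_eq_pow_sum, ← hg.2]
  rw [Finset.sum_congr rfl h1, Finset.sum_const, nsmul_eq_mul]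
  have h2 : NN p p' t t' =
      ((Fintype.piFinset S).filter (fun g => (fun i => ∑ y, g y i) = t')).card := by
    unfold NN
    refine Nat.subtype_card _ fun g => ?_
    rw [Finset.mem_filter, hmem g]
    constructor
    · rintro ⟨⟨h3, h4⟩, h5⟩
      exact ⟨h3, fun i => congrFun h5 i, h4⟩
    · rintro ⟨h3, h4, h5⟩
      exact ⟨⟨h3, h5⟩, funext h4⟩
  rw [h2]

end Pool.Agent.Work.MP_6da7fa_al.EG
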