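import Pool.Agent.Work.MP_6da7fa_al.EG.StmtsS

/-!
# Item SG: the symmetric polynomial `G`
-/

set_option autoImplicit false

namespace Pool.Agent.Work.MP_6da7fa_al.EG

open Equiv MvPolynomial

theorem SG_ne (k : ℕ) : EE k ≠ 0 := by
  intro h
  have h1 : MvPolynomial.eval (fun _ : ZZ k => (1 : ℤ)) (EE k) = ∏ _q : Fin k, ∏ _r : Fin k, 2 := by
    unfold EE
    rw [map_prod]
    refine Finset.prod_congr rfl fun q _ => ?_
    rw [map_prod]
    refine Finset.prod_congr rfl fun r _ => ?_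
    rw [map_add, eval_X, eval_X]
    norm_num
  rw [h, map_zero] at h1
  have h2 : (∏ _q : Fin k, ∏ _r : Fin k, (2 : ℤ)) ≠ 0 :=
    Finset.prod_ne_zero_iff.mpr fun q _ => Finset.prod_ne_zero_iff.mpr fun r _ => by norm_num
  exact h2 h1.symm

theorem SG_sub (k : ℕ) (q r : Fin k) : sub q r (EE k) = 0 := by
  unfold EE
  rw [map_prod]
  refine Finset.prod_eq_zero (Finset.mem_univ q) ?_
  rw [map_prod]
  refine Finset.prod_eq_zero (Finset.mem_univ r) ?_
  rw [map_add]
  unfold sub
  rw [aeval_X, aeval_X, if_neg (by simp), if_pos rfl, add_neg_cancel]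

theorem prSG : StSG := by
  intro hPd hDn hDv hHs k a b
  have hs : ∀ q r : Fin k,
      sub q r (sdet (par k) (fun z => (X z : MvPolynomial (ZZ k) ℤ)) a b) = 0 := by
    intro q r
    have h1 := congrArg (sub q r) (hPd k a b)
    rw [map_mul, map_mul, map_mul, SG_sub, zero_mul, zero_mul] at h1
    exact (mul_eq_zero.mp h1).resolve_right ((hDn k).1 q r)
  obtain ⟨G, hG⟩ := hDv k _ hs
  refine ⟨G, hG, ?_, ?_⟩
  · have h1 := hPd k a b
    rw [hG] at h1
    apply mul_left_cancel₀ (SG_ne k)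
    calc EE k * (DD k * G) = EE k * G * DD k := by ring
      _ = EE k * AA a * BB b := h1
      _ = EE k * (AA a * BB b) := by ring
  · intro w
    have h1 := hHs.2.1 k k a b 1 w
    have h2 := hHs.2.2 k 1 w
    rw [Equiv.Perm.coe_one] at h1 h2
    rw [hG, map_mul, h2] at h1
    exact mul_left_cancel₀ (SG_ne k) h1

end Pool.Agent.Work.MP_6da7fa_al.EG
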