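import Pool.Agent.Work.MP_6da7fa_al.EG.StmtsV

set_option autoImplicit false

/-!
# Theorem EG: item Sa, the cocycle property of the sign
-/

namespace Pool.Agent.Work.MP_6da7fa_al.EG

open Equiv

section
variable {α Z : Type} [Fintype α] [LinearOrder α]

/-- the symmetric inversion sign of a pair -/
def Sa_w (σ : Perm α) (x : α × α) : ℤ :=
  if (x.1 < x.2 ∧ σ x.2 < σ x.1) ∨ (x.2 < x.1 ∧ σ x.1 < σ x.2) then -1 else 1

/-- the ordered pairs of letters of odd colour -/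
def Sa_S (p : Z → Bool) (c : α → Z) : Finset (α × α) :=
  Finset.univ.filter fun x => x.1 < x.2 ∧ p (c x.1) = true ∧ p (c x.2) = true

theorem Sa_sg (p : Z → Bool) (c : α → Z) (σ : Perm α) :
    sg p c σ = ∏ x ∈ Sa_S p c, Sa_w σ x := by
  unfold sg Sa_S
  rw [Finset.prod_filter]
  apply Finset.prod_congr rfl
  rintro ⟨x, y⟩ -
  unfold Sa_w
  by_cases h1 : x < y
  · have h2 : ¬ y < x := not_lt.2 h1.le
    by_cases h3 : p (c x) = true <;> by_cases h4 : p (c y) = true <;> simp [h1, h2, h3, h4]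
  · simp [h1]

theorem Sa_mul (σ τ : Perm α) (x y : α) (h : x < y) :
    Sa_w (σ * τ) (x, y) = Sa_w σ (τ x, τ y) * Sa_w τ (x, y) := by
  unfold Sa_w
  simp only [Perm.mul_apply]
  have h2 : ¬ y < x := not_lt.2 h.le
  have hne : τ x ≠ τ y := fun h' => h.ne (τ.injective h')
  have hne2 : σ (τ x) ≠ σ (τ y) := fun h' => hne (σ.injective h')
  rcases lt_or_gt_of_ne hne with h3 | h3 <;> rcases lt_or_gt_of_ne hne2 with h4 | h4
  · have h5 := not_lt.2 h3.le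
    have h6 := not_lt.2 h4.le
    simp [h, h2, h3, h4, h5, h6]
  · have h5 := not_lt.2 h3.le
    have h6 := not_lt.2 h4.le
    simp [h, h2, h3, h4, h5, h6]
  · have h5 := not_lt.2 h3.le
    have h6 := not_lt.2 h4.le
    simp [h, h2, h3, h4, h5, h6]
  · have h5 := not_lt.2 h3.le
    have h6 := not_lt.2 h4.le
    simp [h, h2, h3, h4, h5, h6]

theorem Sa_symm (σ : Perm α) (x y : α) : Sa_w σ (x, y) = Sa_w σ (y, x) := by
  unfold Sa_w
  simp only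
  congr 1
  rw [or_comm]

/-- the sorted image of a pair -/
def Sa_t (τ : Perm α) (x : α × α) : α × α :=
  if τ x.1 < τ x.2 then (τ x.1, τ x.2) else (τ x.2, τ x.1)

theorem Sa_t_mem (p : Z → Bool) (c : α → Z) (τ : Perm α) (x : α × α) (hx : x ∈ Sa_S p c) :
    Sa_t τ x ∈ Sa_S p (c ∘ ⇑τ⁻¹) := by
  obtain ⟨x, y⟩ := x
  unfold Sa_S at hx ⊢
  rw [Finset.mem_filter] at hx ⊢
  obtain ⟨-, h1, h2, h3⟩ := hx
  simp only at h1 h2 h3
  have hne : τ x ≠ τ y := fun h' => h1.ne (τ.injective h')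
  refine ⟨Finset.mem_univ _, ?_⟩
  unfold Sa_t
  simp only
  rcases lt_or_gt_of_ne hne with h4 | h4
  · rw [if_pos h4]
    simp [h2, h3, h4]
  · rw [if_neg (not_lt.2 h4.le)]
    simp [h2, h3, h4]

theorem Sa_t_inv (p : Z → Bool) (c : α → Z) (τ : Perm α) (x : α × α) (hx : x ∈ Sa_S p c) :
    Sa_t τ⁻¹ (Sa_t τ x) = x := by
  obtain ⟨x, y⟩ := x
  unfold Sa_S at hx
  rw [Finset.mem_filter] at hx
  obtain ⟨-, h1, h2, h3⟩ := hx
  simp only at h1 h2 h3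
  have hne : τ x ≠ τ y := fun h' => h1.ne (τ.injective h')
  unfold Sa_t
  simp only
  rcases lt_or_gt_of_ne hne with h4 | h4
  · rw [if_pos h4]
    simp [h1]
  · rw [if_neg (not_lt.2 h4.le)]
    simp [not_lt.2 h1.le]

theorem Sa_w_t (σ τ : Perm α) (x : α × α) :
    Sa_w σ (τ x.1, τ x.2) = Sa_w σ (Sa_t τ x) := by
  unfold Sa_t
  split_ifs with h
  · rfl
  · exact Sa_symm _ _ _

theorem Sa_prod (p : Z → Bool) (c : α → Z) (σ τ : Perm α) :
    ∏ x ∈ Sa_S p c, Sa_w σ (τ x.1, τ x.2) = ∏ x ∈ Sa_S p (c ∘ ⇑τ⁻¹), Sa_w σ x := by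
  refine Finset.prod_nbij' (Sa_t τ) (Sa_t τ⁻¹) ?_ ?_ ?_ ?_ ?_
  · intro x hx
    exact Sa_t_mem p c τ x hx
  · intro x hx
    have h1 := Sa_t_mem p (c ∘ ⇑τ⁻¹) τ⁻¹ x hx
    have h2 : (c ∘ ⇑τ⁻¹) ∘ ⇑(τ⁻¹)⁻¹ = c := by
      ext a
      simp
    rwa [h2] at h1
  · intro x hx
    exact Sa_t_inv p c τ x hx
  · intro x hx
    have h1 := Sa_t_inv p (c ∘ ⇑τ⁻¹) τ⁻¹ x hx
    rwa [inv_inv] at h1
  · intro x hx
    exact Sa_w_t σ τ x

end

theorem prSa : StSa := by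
  intro α Z _ _ p c σ τ
  rw [Sa_sg, Sa_sg, Sa_sg, ← Sa_prod, ← Finset.prod_mul_distrib]
  apply Finset.prod_congr rfl
  rintro ⟨x, y⟩ hx
  unfold Sa_S at hx
  rw [Finset.mem_filter] at hx
  exact Sa_mul σ τ x y hx.2.1

end Pool.Agent.Work.MP_6da7fa_al.EG
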