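import Pool.Agent.Work.MP_6da7fa_al.EG.StmtsV

/-!
# Item Sb: values of the sign
-/

set_option autoImplicit false

namespace Pool.Agent.Work.MP_6da7fa_al.EG

open Equiv

theorem Sb_char {α : Type} [LinearOrder α] {x y : α} (hxy : x < y) (i j : α) (hij : i < j) :
    swap x y j < swap x y i ↔ (i = x ∧ j ≤ y) ∨ (j = y ∧ x ≤ i) := by
  by_cases hix : i = x
  · subst hix
    rw [swap_apply_left]
    by_cases hjy : j = y
    · subst hjy
      rw [swap_apply_right]
      exact ⟨fun _ => Or.inl ⟨rfl, le_rfl⟩, fun _ => hij⟩
    · rw [swap_apply_of_ne_of_ne hij.ne' hjy]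
      constructor
      · intro h
        exact Or.inl ⟨rfl, h.le⟩
      · rintro (⟨_, h⟩ | ⟨h, _⟩)
        · exact lt_of_le_of_ne h hjy
        · exact absurd h hjy
  · by_cases hiy : i = y
    · subst hiy
      have hjx : j ≠ x := (hxy.trans hij).ne'
      rw [swap_apply_right, swap_apply_of_ne_of_ne hjx hij.ne']
      constructor
      · intro h
        exact absurd h (not_lt_of_gt (hxy.trans hij))
      · rintro (⟨h, _⟩ | ⟨h, _⟩)
        · exact absurd h hix
        · exact absurd h hij.ne'
    · rw [swap_apply_of_ne_of_ne hix hiy]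
      by_cases hjx : j = x
      · subst hjx
        rw [swap_apply_left]
        constructor
        · intro h
          exact absurd h (not_lt_of_gt (hij.trans hxy))
        · rintro (⟨h, _⟩ | ⟨_, h⟩)
          · exact absurd h hix
          · exact absurd hij (not_lt_of_ge h)
      · by_cases hjy : j = y
        · subst hjy
          rw [swap_apply_right]
          constructor
          · intro h
            exact Or.inr ⟨rfl, h.le⟩
          · rintro (⟨h, _⟩ | ⟨_, h⟩)
            · exact absurd h hix
            · exact lt_of_le_of_ne h (Ne.symm hix)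
        · rw [swap_apply_of_ne_of_ne hjx hjy]
          constructor
          · intro h
            exact absurd h (not_lt_of_gt hij)
          · rintro (⟨h, _⟩ | ⟨h, _⟩)
            · exact absurd h hix
            · exact absurd h hjy

theorem Sb_swap {α Z : Type} [Fintype α] [LinearOrder α] (p : Z → Bool) (c : α → Z) {x y : α}
    (hxy : x < y) (hc : c x = c y) :
    sg p c (swap x y) = if p (c x) = true then -1 else 1 := by
  unfold sg
  by_cases hp : p (c x) = true
  · rw [if_pos hp]
    have hpy : p (c y) = true := by
      rw [← hc]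
      exact hp
    rw [← Finset.prod_filter, Finset.prod_const]
    set U : Finset α := Finset.univ.filter fun u => x < u ∧ u < y ∧ p (c u) = true with hU
    have hS : (Finset.univ.filter fun z : α × α => z.1 < z.2 ∧ p (c z.1) = true ∧
        p (c z.2) = true ∧ swap x y z.2 < swap x y z.1) =
        insert (x, y) (U.image (fun u => (x, u)) ∪ U.image (fun u => (u, y))) := by
      ext ⟨i, j⟩
      rw [Finset.mem_filter, Finset.mem_insert, Finset.mem_union, Finset.mem_image,
        Finset.mem_image]
      constructor
      · rintro ⟨-, hij, hi, hj, hs⟩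
        rcases (Sb_char hxy i j hij).mp hs with ⟨h1, h2⟩ | ⟨h1, h2⟩
        · have h1' : i = x := h1
          subst h1'
          rcases eq_or_lt_of_le h2 with h3 | h3
          · left
            rw [show j = y from h3]
          · right
            left
            exact ⟨j, by rw [hU, Finset.mem_filter]; exact ⟨Finset.mem_univ _, hij, h3, hj⟩, rfl⟩
        · have h1' : j = y := h1
          subst h1'
          rcases eq_or_lt_of_le h2 with h3 | h3
          · left
            rw [show x = i from h3]
          · right
            right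
            exact ⟨i, by rw [hU, Finset.mem_filter]; exact ⟨Finset.mem_univ _, h3, hij, hi⟩, rfl⟩
      · rintro (h | ⟨u, hu, h⟩ | ⟨u, hu, h⟩)
        · rw [Prod.mk.injEq] at h
          obtain ⟨rfl, rfl⟩ := h
          exact ⟨Finset.mem_univ _, hxy, hp, hpy,
            (Sb_char hxy _ _ hxy).mpr (Or.inl ⟨rfl, le_rfl⟩)⟩
        · rw [Prod.mk.injEq] at h
          obtain ⟨rfl, rfl⟩ := h
          rw [hU, Finset.mem_filter] at hu
          exact ⟨Finset.mem_univ _, hu.2.1, hp, hu.2.2.2,
            (Sb_char hxy _ _ hu.2.1).mpr (Or.inl ⟨rfl, hu.2.2.1.le⟩)⟩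
        · rw [Prod.mk.injEq] at h
          obtain ⟨rfl, rfl⟩ := h
          rw [hU, Finset.mem_filter] at hu
          exact ⟨Finset.mem_univ _, hu.2.2.1, hu.2.2.2, hpy,
            (Sb_char hxy _ _ hu.2.2.1).mpr (Or.inr ⟨rfl, hu.2.1.le⟩)⟩
    have hcard : (insert (x, y) (U.image (fun u => (x, u)) ∪ U.image (fun u => (u, y)))).card =
        2 * U.card + 1 := by
      rw [Finset.card_insert_of_notMem, Finset.card_union_of_disjoint,
        Finset.card_image_of_injective, Finset.card_image_of_injective]
      · ring
      · intro u v h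
        exact (Prod.mk.inj h).1
      · intro u v h
        exact (Prod.mk.inj h).2
      · rw [Finset.disjoint_left]
        intro z h1 h2
        rw [Finset.mem_image] at h1 h2
        obtain ⟨u, hu, rfl⟩ := h1
        obtain ⟨v, hv, h⟩ := h2
        rw [hU, Finset.mem_filter] at hu hv
        have h3 : v = x := (Prod.mk.inj h).1
        exact absurd hv.2.1 (by rw [h3]; exact lt_irrefl x)
      · intro h
        rw [Finset.mem_union, Finset.mem_image, Finset.mem_image] at h
        rcases h with ⟨u, hu, h⟩ | ⟨u, hu, h⟩
        · rw [hU, Finset.mem_filter] at hu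
          have h3 : u = y := (Prod.mk.inj h).2
          exact absurd hu.2.2.1 (by rw [h3]; exact lt_irrefl y)
        · rw [hU, Finset.mem_filter] at hu
          have h3 : u = x := (Prod.mk.inj h).1
          exact absurd hu.2.1 (by rw [h3]; exact lt_irrefl x)
    rw [hS, hcard, pow_succ, pow_mul]
    norm_num
  · rw [if_neg hp]
    refine Finset.prod_eq_one fun z _ => ?_
    rw [if_neg]
    rintro ⟨h1, h2, h3, h4⟩
    rcases (Sb_char hxy z.1 z.2 h1).mp h4 with ⟨h5, _⟩ | ⟨h5, _⟩
    · rw [h5] at h2
      exact hp h2
    · rw [h5, ← hc] at h3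
      exact hp h3

theorem prSb : StSb := by
  intro α Z _ _ p c
  refine ⟨?_, ?_, ?_⟩
  · intro σ
    unfold sg
    refine Finset.prod_induction _ (fun a : ℤ => a = 1 ∨ a = -1) ?_ (Or.inl rfl) ?_
    · rintro a b (rfl | rfl) (rfl | rfl)
      · exact Or.inl (by norm_num)
      · exact Or.inr (by norm_num)
      · exact Or.inr (by norm_num)
      · exact Or.inl (by norm_num)
    · intro z _
      split_ifs
      · exact Or.inr rfl
      · exact Or.inl rfl
  · unfold sg
    refine Finset.prod_eq_one fun z _ => ?_
    rw [if_neg]
    rintro ⟨h1, -, -, h2⟩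
    exact absurd h1 (not_lt_of_gt h2)
  · intro x y hne hc
    rcases lt_or_gt_of_ne hne with h | h
    · exact Sb_swap p c h hc
    · rw [swap_comm, Sb_swap p c h hc.symm, hc]

end Pool.Agent.Work.MP_6da7fa_al.EG
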