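import Pool.Agent.Work.MP_6da7fa_al.EG.StmtsV

set_option autoImplicit false

namespace Pool.Agent.Work.MP_6da7fa_al.EG

open Equiv

theorem Sc_inv {α Z : Type} (c : α → Z) (h : Perm α) (hh : c ∘ h = c) : c ∘ ⇑h⁻¹ = c := by
  funext x
  have h1 := congrFun hh (h⁻¹ x)
  simp only [Function.comp_apply] at h1 ⊢
  have h2 : h (h⁻¹ x) = x := by simp [Equiv.Perm.coe_inv]
  rw [h2] at h1
  exact h1.symm

theorem prSc : StSc := by
  intro hSa hSb α Z iα lα p c
  refine ⟨?_, ?_⟩
  · intro σ τ hτ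
    have h1 := hSa α Z p c σ τ
    rw [Sc_inv c τ hτ] at h1
    exact h1
  · intro g h hh
    have h1 := hSa α Z p c (g * h * g⁻¹) g
    have h2 := hSa α Z p c g h
    rw [Sc_inv c h hh] at h2
    have h3 : g * h * g⁻¹ * g = g * h := by group
    rw [h3, h2] at h1
    rcases (hSb α Z p c).1 g with h4 | h4
    · rw [h4] at h1
      linarith
    · rw [h4] at h1
      linarith

end Pool.Agent.Work.MP_6da7fa_al.EG
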