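import Pool.Agent.Work.MP_6da7fa_al.EG.StmtsS

set_option autoImplicit false

/-!
# Theorem EG: expansion of the Giambelli determinant (item Sd)
-/

namespace Pool.Agent.Work.MP_6da7fa_al.EG

open Equiv

section
variable {Z R : Type} [Fintype Z] [DecidableEq Z] [CommRing R]

theorem Sd_kap_eq (a b j : ℕ) (hj : j ≤ b) : kap a b (a + 1 + j) (b - j) = (-1) ^ j := by
  unfold kap
  rw [if_pos ⟨by omega, by omega⟩]
  congr 1
  omega

theorem Sd_kap_ne {a b α β : ℕ} (h : kap a b α β ≠ 0) : a < α ∧ α + β = a + b + 1 := by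
  by_contra hcon
  exact h (by unfold kap; rw [if_neg hcon])

theorem Sd_SS (p : Z → Bool) (z : Z → R) (a b N : ℕ) (hN : a + b + 1 ≤ N) :
    SS p z a b = ∑ x ∈ Finset.range (N + 1) ×ˢ Finset.range (N + 1),
      (kap a b x.1 x.2 : R) * (hh p z x.1 * hh (op p) z x.2) := by
  unfold SS
  refine Finset.sum_of_injOn (fun j => (a + 1 + j, b - j)) ?_ ?_ ?_ ?_
  · intro j _ j' _ h
    have h1 : a + 1 + j = a + 1 + j' := congrArg Prod.fst h
    omega
  · intro j hj
    have hj' : j < b + 1 := Finset.mem_range.1 hj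
    simp only [Finset.coe_product, Finset.coe_range, Set.mem_prod, Set.mem_Iio]
    omega
  · intro x _ hx
    by_contra hcon
    have hk : kap a b x.1 x.2 ≠ 0 := by
      intro h0
      apply hcon
      rw [h0, Int.cast_zero, zero_mul]
    obtain ⟨h1, h2⟩ := Sd_kap_ne hk
    apply hx
    refine ⟨x.1 - a - 1, ?_, ?_⟩
    · simp only [Finset.coe_range, Set.mem_Iio]
      omega
    · ext
      · show a + 1 + (x.1 - a - 1) = x.1
        omega
      · show b - (x.1 - a - 1) = x.2
        omega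
  · intro j hj
    have hj' : j < b + 1 := Finset.mem_range.1 hj
    show (-1) ^ j * hh p z (a + 1 + j) * hh (op p) z (b - j) = (kap a b (a + 1 + j) (b - j) : R) * _
    rw [Sd_kap_eq a b j (by omega)]
    push_cast
    ring

/-- pairs -/
def Sd_e (i : ℕ) : (ZZ i → ℕ) ≃ (Fin i → ℕ × ℕ) where
  toFun t q := (t (Sum.inl q), t (Sum.inr q))
  invFun x := Sum.elim (fun q => (x q).1) (fun q => (x q).2)
  left_inv t := by
    ext y
    rcases y with q | q <;> rfl
  right_inv x := by
    ext q <;> rfl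

theorem Sd_rows (p' : Z → Bool) (z : Z → R) (i : ℕ) (t : ZZ i → ℕ) :
    rows (par i) p' z t = ∏ q : Fin i, (hh p' z (t (Sum.inl q)) * hh (op p') z (t (Sum.inr q))) := by
  unfold rows
  rw [Fintype.prod_sum_type, Finset.prod_mul_distrib]
  simp [par]

theorem Sd_term (p' : Z → Bool) (z : Z → R) (i : ℕ) (a b : Fin i → ℕ) (w : Perm (Fin i)) :
    ∏ q, SS p' z (a q) (b (w q)) = ∑ t ∈ TT (ZZ i) (sz a b),
      ((∏ q, kap (a q) (b (w q)) (t (Sum.inl q)) (t (Sum.inr q)) : ℤ) : R) * rows (par i) p' z t := by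
  have hsz : sz a b = ∑ q, (a q + b (w q) + 1) := by
    unfold sz
    simp only [Finset.sum_add_distrib]
    rw [Equiv.sum_comp w b]
  have hle : ∀ q, a q + b (w q) + 1 ≤ sz a b := by
    intro q
    rw [hsz]
    exact Finset.single_le_sum (f := fun q => a q + b (w q) + 1) (fun _ _ => Nat.zero_le _) (Finset.mem_univ q)
  have h1 : ∏ q, SS p' z (a q) (b (w q)) = ∏ q, ∑ x ∈ Finset.range (sz a b + 1) ×ˢ Finset.range (sz a b + 1),
      (kap (a q) (b (w q)) x.1 x.2 : R) * (hh p' z x.1 * hh (op p') z x.2) :=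
    Finset.prod_congr rfl fun q _ => Sd_SS p' z (a q) (b (w q)) _ (hle q)
  rw [h1, Finset.prod_univ_sum]
  symm
  refine Finset.sum_of_injOn (fun t => Sd_e i t) ((Sd_e i).injective.injOn) ?_ ?_ ?_
  · intro t ht
    have ht' : ∑ y, t y = sz a b := by
      have := (Finset.mem_piAntidiag.1 (show t ∈ Finset.piAntidiag Finset.univ (sz a b) from ht)).1
      exact this
    have hy : ∀ y, t y ≤ sz a b := by
      intro y
      rw [← ht']
      exact Finset.single_le_sum (f := t) (fun _ _ => Nat.zero_le _) (Finset.mem_univ y)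
    rw [Finset.mem_coe, Fintype.mem_piFinset]
    intro q
    rw [Finset.mem_product, Finset.mem_range, Finset.mem_range]
    exact ⟨Nat.lt_succ_of_le (hy (Sum.inl q)), Nat.lt_succ_of_le (hy (Sum.inr q))⟩
  · intro x _ hx
    by_contra hcon
    have hk : ∀ q, kap (a q) (b (w q)) (x q).1 (x q).2 ≠ 0 := by
      intro q h0
      apply hcon
      refine Finset.prod_eq_zero (Finset.mem_univ q) ?_
      rw [h0, Int.cast_zero, zero_mul]
    apply hx
    refine ⟨(Sd_e i).symm x, ?_, (Sd_e i).apply_symm_apply x⟩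
    rw [Finset.mem_coe]
    show (Sd_e i).symm x ∈ Finset.piAntidiag Finset.univ (sz a b)
    rw [Finset.mem_piAntidiag]
    refine ⟨?_, fun y _ => Finset.mem_univ y⟩
    rw [Fintype.sum_sum_type, hsz]
    show ∑ q, (x q).1 + ∑ q, (x q).2 = _
    rw [← Finset.sum_add_distrib]
    exact Finset.sum_congr rfl fun q _ => (Sd_kap_ne (hk q)).2
  · intro t _
    rw [Sd_rows, Int.cast_prod, ← Finset.prod_mul_distrib]
    rfl

end

theorem prSd : StSd := by
  intro Z R _ _ _ p' z i a b
  unfold sdet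
  rw [← Matrix.det_transpose, Matrix.det_apply']
  have h1 : ∀ t : ZZ i → ℕ, (KK a b t : R) * rows (par i) p' z t =
      ∑ w : Perm (Fin i), ((Perm.sign w : ℤ) : R) *
        (((∏ q, kap (a q) (b (w q)) (t (Sum.inl q)) (t (Sum.inr q)) : ℤ) : R) * rows (par i) p' z t) := by
    intro t
    unfold KK
    rw [Int.cast_sum, Finset.sum_mul]
    refine Finset.sum_congr rfl fun w _ => ?_
    rw [Int.cast_mul, mul_assoc]
  rw [Finset.sum_congr rfl fun t _ => h1 t, Finset.sum_comm]
  refine Finset.sum_congr rfl fun w _ => ?_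
  rw [← Finset.mul_sum, ← Sd_term]
  rfl

end Pool.Agent.Work.MP_6da7fa_al.EG
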