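import Pool.Agent.Work.MP_6da7fa_al.EG.StmtsV

set_option autoImplicit false

/-!
# Theorem EG, item Si: the colour preserving permutations are generated by swaps
-/

namespace Pool.Agent.Work.MP_6da7fa_al.EG

open Equiv

/-- item Si -/
theorem prSi : StSi := by
  intro α Z _ _ c P h1 h2
  have key : ∀ (n : ℕ) (σ : Perm α), σ.support.card < n → c ∘ σ = c → P σ := by
    intro n
    induction n with
    | zero => intro σ h; exact absurd h (Nat.not_lt_zero _)
    | succ n ih =>
      intro σ hn hc
      by_cases hσ : σ = 1
      · rw [hσ]; exact h1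
      · obtain ⟨x, hx⟩ : ∃ x, σ x ≠ x := by
          by_contra h
          push Not at h
          exact hσ (Equiv.ext h)
        have hcz : ∀ z, c (σ z) = c z := fun z => congrFun hc z
        have hc' : c ∘ ⇑(swap x (σ x) * σ) = c := by
          funext z
          show c (swap x (σ x) (σ z)) = c z
          rw [← hcz z]
          by_cases h3 : σ z = x
          · rw [h3, swap_apply_left, hcz]
          · by_cases h4 : σ z = σ x
            · rw [h4, swap_apply_right, hcz]
            · rw [swap_apply_of_ne_of_ne h3 h4]
        have h5 := ih (swap x (σ x) * σ)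
          (lt_of_lt_of_le (Equiv.Perm.card_support_swap_mul hx) (Nat.le_of_lt_succ hn)) hc'
        have h6 := h2 _ x (σ x) (Ne.symm hx) (hcz x).symm h5
        rwa [swap_mul_self_mul] at h6
  intro σ hσ
  exact key _ σ (Nat.lt_succ_self _) hσ

end Pool.Agent.Work.MP_6da7fa_al.EG
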