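import Pool.Agent.Work.MP_6da7fa_al.EG.StmtsS

set_option autoImplicit false

/-!
# Item Sq of block EG: the dimension of the square
-/

namespace Pool.Agent.Work.MP_6da7fa_al.EG

open Equiv MvPolynomial

private theorem Sq_det {i : ℕ} (a b : Fin i → ℕ) :
    Matrix.det (Matrix.of fun q r => gg (a q) (b r)) =
      (∏ q, (((a q).factorial : ℚ))⁻¹) * ((∏ r, (((b r).factorial : ℚ))⁻¹) *
        (CM (fun q => (a q : ℚ)) (fun r => (b r : ℚ) + 1)).det) := by
  rw [← Matrix.det_mul_row, ← Matrix.det_mul_column]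
  congr 1
  ext q r
  simp only [Matrix.of_apply]
  unfold gg CM
  rw [Matrix.of_apply, one_div, mul_inv, mul_inv, mul_assoc, add_assoc]

private theorem Sq_fact (r : ℕ) (q : Fin r) :
    ∏ s ∈ Finset.Ioi q, (((s : ℕ) : ℚ) - ((q : ℕ) : ℚ)) = ((sq r q).factorial : ℚ) := by
  rw [← Finset.prod_range_add_one_eq_factorial]
  push_cast
  refine Finset.prod_bij (fun s _ => (s : ℕ) - q - 1) ?_ ?_ ?_ ?_
  · intro s hs
    have h0 : q < s := Finset.mem_Ioi.1 hs
    have h1 : (q : ℕ) < s := h0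
    have h2 := s.2
    rw [Finset.mem_range]
    unfold sq
    omega
  · intro s hs t ht h
    have h0 : q < s := Finset.mem_Ioi.1 hs
    have h1 : (q : ℕ) < s := h0
    have h0' : q < t := Finset.mem_Ioi.1 ht
    have h2 : (q : ℕ) < t := h0'
    apply Fin.ext
    have h3 : (s : ℕ) - q - 1 = (t : ℕ) - q - 1 := h
    omega
  · intro j hj
    rw [Finset.mem_range] at hj
    unfold sq at hj
    have h4 : (q : ℕ) + 1 + j < r := by omega
    refine ⟨⟨(q : ℕ) + 1 + j, h4⟩, ?_, ?_⟩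
    · rw [Finset.mem_Ioi]
      show (q : ℕ) < (q : ℕ) + 1 + j
      omega
    · show (q : ℕ) + 1 + j - q - 1 = j
      omega
  · intro s hs
    have h0 : q < s := Finset.mem_Ioi.1 hs
    have h1 : (q : ℕ) < s := h0
    have h5 : ((s : ℕ) : ℚ) = (((s : ℕ) - q - 1 + 1 + q : ℕ) : ℚ) := by
      congr 1
      omega
    rw [h5]
    push_cast
    ring

private theorem Sq_sub (r : ℕ) (q s : Fin r) :
    ((sq r s : ℕ) : ℚ) - ((sq r q : ℕ) : ℚ) = ((q : ℕ) : ℚ) - ((s : ℕ) : ℚ) := by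
  have h1 : sq r s + s = sq r q + q := by
    have h2 := q.2
    have h3 := s.2
    unfold sq
    omega
  have h2 : ((sq r s : ℕ) : ℚ) + ((s : ℕ) : ℚ) = ((sq r q : ℕ) : ℚ) + ((q : ℕ) : ℚ) := by
    exact_mod_cast h1
  linarith

/-- Item Sq. -/
theorem prSq : StSq := by
  intro hCa hFc r
  rcases Nat.eq_zero_or_pos r with hr | hr
  · subst hr
    simp
  have hr0 : (0 : ℚ) < r := by exact_mod_cast hr
  have hpos : ∀ q s : Fin r, 0 < (sq r q : ℚ) + ((sq r s : ℚ) + 1) := fun q s => by positivity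
  have h1 := hCa ℚ r (fun q => (sq r q : ℚ)) (fun s => (sq r s : ℚ) + 1)
    (fun q s => (hpos q s).ne')
  have h2 : ∏ q : Fin r, ∏ s ∈ Finset.Ioi q, (((sq r s : ℚ) - (sq r q : ℚ)) *
      (((sq r s : ℚ) + 1) - ((sq r q : ℚ) + 1))) =
      (∏ q : Fin r, ((sq r q).factorial : ℚ)) * ∏ q : Fin r, ((sq r q).factorial : ℚ) := by
    rw [← Finset.prod_mul_distrib]
    refine Finset.prod_congr rfl fun q _ => ?_
    rw [← Sq_fact r q, ← Finset.prod_mul_distrib]
    refine Finset.prod_congr rfl fun s _ => ?_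
    have e1 := Sq_sub r q s
    rw [add_sub_add_right_eq_sub, e1]
    ring
  have h3 : 0 < ∏ q : Fin r, ∏ s : Fin r, ((sq r q : ℚ) + ((sq r s : ℚ) + 1)) :=
    Finset.prod_pos fun q _ => Finset.prod_pos fun s _ => hpos q s
  have h4 : 0 < ∏ q : Fin r, ((sq r q).factorial : ℚ) :=
    Finset.prod_pos fun q _ => by positivity
  have h5 : Matrix.det (Matrix.of fun q s : Fin r => gg (sq r q) (sq r s)) =
      (∏ q : Fin r, ∏ s : Fin r, ((sq r q : ℚ) + ((sq r s : ℚ) + 1)))⁻¹ := by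
    rw [Sq_det, Finset.prod_inv_distrib]
    rw [h2] at h1
    field_simp
    rw [pow_two]
    linarith
  have h6 : ∏ q : Fin r, ∏ s : Fin r, ((sq r q : ℚ) + ((sq r s : ℚ) + 1)) ≤
      (2 * (r : ℚ)) ^ (r ^ 2) := by
    have e1 : ∀ q s : Fin r, (sq r q : ℚ) + ((sq r s : ℚ) + 1) ≤ 2 * (r : ℚ) := by
      intro q s
      have e2 : sq r q + (sq r s + 1) ≤ 2 * r := by
        unfold sq
        omega
      exact_mod_cast e2
    calc ∏ q : Fin r, ∏ s : Fin r, ((sq r q : ℚ) + ((sq r s : ℚ) + 1))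
        ≤ ∏ q : Fin r, ∏ s : Fin r, (2 * (r : ℚ)) := by
          refine Finset.prod_le_prod (fun q _ => Finset.prod_nonneg fun s _ => (hpos q s).le)
            fun q _ => Finset.prod_le_prod (fun s _ => (hpos q s).le) fun s _ => e1 q s
      _ = (2 * (r : ℚ)) ^ (r ^ 2) := by
          rw [Finset.prod_const, Finset.prod_const, Finset.card_univ, Fintype.card_fin, ← pow_mul,
            ← pow_two]
  rw [h5]
  have h7 : ((2 * (r : ℚ)) ^ (r ^ 2))⁻¹ ≤
      (∏ q : Fin r, ∏ s : Fin r, ((sq r q : ℚ) + ((sq r s : ℚ) + 1)))⁻¹ :=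
    inv_anti₀ h3 h6
  have h8 := hFc (r ^ 2)
  have h9 : ((r : ℚ) / 6) ^ (r ^ 2) =
      (((r ^ 2 : ℕ) : ℚ) / 3) ^ (r ^ 2) * ((2 * (r : ℚ)) ^ (r ^ 2))⁻¹ := by
    rw [← inv_pow, ← mul_pow]
    congr 1
    push_cast
    field_simp
    norm_num
  rw [h9]
  exact mul_le_mul h8 h7 (by positivity) (by positivity)

end Pool.Agent.Work.MP_6da7fa_al.EG
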