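import Pool.Agent.Work.MP_6da7fa_al.EG.StmtsV

set_option autoImplicit false

/-!
# Theorem EG, item Su: supersymmetry
-/

namespace Pool.Agent.Work.MP_6da7fa_al.EG

open Equiv

/-- the type after the substitution -/
def Su_T {k : ℕ} (q r : Fin k) (t : ZZ k → ℕ) : ZZ k → ℕ :=
  fun i => if i = Sum.inl q then t (Sum.inl q) + t (Sum.inr r) else
    if i = Sum.inr r then 0 else t i

/-- the types which are mapped to `s` -/
def Su_l {k : ℕ} (q r : Fin k) (s : ZZ k → ℕ) (l : ℕ) : ZZ k → ℕ :=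
  fun i => if i = Sum.inl q then s (Sum.inl q) - l else if i = Sum.inr r then l else s i

/-- the other letters -/
def Su_E {k : ℕ} (q r : Fin k) : Finset (ZZ k) :=
  (Finset.univ.erase (Sum.inl q)).erase (Sum.inr r)

theorem Su_mem_E {k : ℕ} (q r : Fin k) (i : ZZ k) :
    i ∈ Su_E q r ↔ i ≠ Sum.inr r ∧ i ≠ Sum.inl q := by
  unfold Su_E
  rw [Finset.mem_erase, Finset.mem_erase]
  constructor
  · rintro ⟨h1, h2, _⟩
    exact ⟨h1, h2⟩
  · rintro ⟨h1, h2⟩
    exact ⟨h1, h2, Finset.mem_univ _⟩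

theorem Su_prod {k : ℕ} (q r : Fin k) {M : Type} [CommMonoid M] (f : ZZ k → M) :
    ∏ i, f i = f (Sum.inl q) * (f (Sum.inr r) * ∏ i ∈ Su_E q r, f i) := by
  unfold Su_E
  rw [Finset.mul_prod_erase, Finset.mul_prod_erase]
  · exact Finset.mem_univ _
  · rw [Finset.mem_erase]
    exact ⟨by simp, Finset.mem_univ _⟩

theorem Su_sum {k : ℕ} (q r : Fin k) (f : ZZ k → ℕ) :
    ∑ i, f i = f (Sum.inl q) + (f (Sum.inr r) + ∑ i ∈ Su_E q r, f i) := by
  unfold Su_E
  rw [Finset.add_sum_erase, Finset.add_sum_erase]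
  · exact Finset.mem_univ _
  · rw [Finset.mem_erase]
    exact ⟨by simp, Finset.mem_univ _⟩

theorem Su_T_inl {k : ℕ} (q r : Fin k) (t : ZZ k → ℕ) :
    Su_T q r t (Sum.inl q) = t (Sum.inl q) + t (Sum.inr r) := by
  unfold Su_T
  rw [if_pos rfl]

theorem Su_T_inr {k : ℕ} (q r : Fin k) (t : ZZ k → ℕ) : Su_T q r t (Sum.inr r) = 0 := by
  unfold Su_T
  rw [if_neg (by simp), if_pos rfl]

theorem Su_T_E {k : ℕ} (q r : Fin k) (t : ZZ k → ℕ) (i : ZZ k) (hi : i ∈ Su_E q r) :
    Su_T q r t i = t i := by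
  rw [Su_mem_E] at hi
  unfold Su_T
  rw [if_neg hi.2, if_neg hi.1]

theorem Su_l_inl {k : ℕ} (q r : Fin k) (t : ZZ k → ℕ) (l : ℕ) :
    Su_l q r t l (Sum.inl q) = t (Sum.inl q) - l := by
  unfold Su_l
  rw [if_pos rfl]

theorem Su_l_inr {k : ℕ} (q r : Fin k) (t : ZZ k → ℕ) (l : ℕ) :
    Su_l q r t l (Sum.inr r) = l := by
  unfold Su_l
  rw [if_neg (by simp), if_pos rfl]

theorem Su_l_E {k : ℕ} (q r : Fin k) (t : ZZ k → ℕ) (l : ℕ) (i : ZZ k) (hi : i ∈ Su_E q r) :
    Su_l q r t l i = t i := by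
  rw [Su_mem_E] at hi
  unfold Su_l
  rw [if_neg hi.2, if_neg hi.1]

theorem Su_ext {k : ℕ} (q r : Fin k) (s t : ZZ k → ℕ) (h1 : s (Sum.inl q) = t (Sum.inl q))
    (h2 : s (Sum.inr r) = t (Sum.inr r)) (h3 : ∀ i ∈ Su_E q r, s i = t i) : s = t := by
  funext i
  by_cases hq : i = Sum.inl q
  · rw [hq, h1]
  · by_cases hr : i = Sum.inr r
    · rw [hr, h2]
    · exact h3 i ((Su_mem_E q r i).2 ⟨hr, hq⟩)

theorem Su_mem_TT {Z : Type} [Fintype Z] [DecidableEq Z] (n : ℕ) (t : Z → ℕ) :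
    t ∈ TT Z n ↔ ∑ z, t z = n := by
  unfold TT
  rw [Finset.mem_piAntidiag]
  constructor
  · exact fun h => h.1
  · exact fun h => ⟨h, fun i _ => Finset.mem_univ i⟩

open MvPolynomial in
theorem Su_mon {k : ℕ} (t : ZZ k → ℕ) (c : ℤ) :
    (monomial (Finsupp.equivFunOnFinite.symm t) c : MvPolynomial (ZZ k) ℤ) =
      C c * ∏ i, X i ^ t i := by
  rw [monomial_eq, Finsupp.prod_fintype _ _ (fun i => pow_zero _)]
  rfl

open MvPolynomial in
theorem Su_sub_mon {k : ℕ} (q r : Fin k) (t : ZZ k → ℕ) (c : ℤ) :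
    sub q r (monomial (Finsupp.equivFunOnFinite.symm t) c) =
      monomial (Finsupp.equivFunOnFinite.symm (Su_T q r t)) (c * (-1) ^ t (Sum.inr r)) := by
  rw [Su_mon, Su_mon, map_mul, map_prod]
  have hC : sub q r (C c) = (C c : MvPolynomial (ZZ k) ℤ) := by
    unfold sub
    rw [aeval_C]
    rfl
  have hX : ∀ i : ZZ k, sub q r (X i) = if i = Sum.inr r then - X (Sum.inl q) else X i := by
    intro i
    unfold sub
    rw [aeval_X]
  simp_rw [map_pow, hX]
  rw [hC, Su_prod q r, Su_prod q r (fun i => (X i : MvPolynomial (ZZ k) ℤ) ^ Su_T q r t i)]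
  have hE : ∏ i ∈ Su_E q r, (if i = Sum.inr r then - X (Sum.inl q) else X i :
      MvPolynomial (ZZ k) ℤ) ^ t i =
      ∏ i ∈ Su_E q r, (X i : MvPolynomial (ZZ k) ℤ) ^ Su_T q r t i := by
    apply Finset.prod_congr rfl
    intro i hi
    rw [Su_T_E q r t i hi, if_neg ((Su_mem_E q r i).1 hi).1]
  rw [hE, Su_T_inl, Su_T_inr, if_neg (by simp), if_pos rfl, pow_add, pow_zero, C_mul, neg_pow,
    C_pow, C_neg, C_1]
  ring

open MvPolynomial in
theorem Su_rows (hHE : ConHE) {k : ℕ} (q r : Fin k) (s : ZZ k → ℕ) (n : ℕ)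
    (hs : s (Sum.inl q) ≠ 0) :
    ∑ t ∈ (TT (ZZ k) n).filter (fun t => Su_T q r t = s),
      (-1 : MvPolynomial (ZZ k) ℤ) ^ t (Sum.inr r) * rows (par k) (par k) X t = 0 := by
  by_cases hne : ((TT (ZZ k) n).filter (fun t => Su_T q r t = s)).Nonempty
  swap
  · rw [Finset.not_nonempty_iff_eq_empty] at hne
    rw [hne, Finset.sum_empty]
  obtain ⟨t0, ht0⟩ := hne
  rw [Finset.mem_filter, Su_mem_TT] at ht0
  obtain ⟨hn, hT0⟩ := ht0
  have hsr : s (Sum.inr r) = 0 := by rw [← hT0, Su_T_inr]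
  have hsn : s (Sum.inl q) + ∑ i ∈ Su_E q r, s i = n := by
    rw [← hn, Su_sum q r, ← hT0, Su_T_inl, add_assoc, add_right_inj, add_right_inj]
    exact Finset.sum_congr rfl (fun i hi => Su_T_E q r t0 i hi)
  set R0 : MvPolynomial (ZZ k) ℤ := ∏ y ∈ Su_E q r,
    (if par k y = true then hh (op (par k)) X (s y) else hh (par k) X (s y)) with hR0
  have hbij : ∑ t ∈ (TT (ZZ k) n).filter (fun t => Su_T q r t = s),
      (-1 : MvPolynomial (ZZ k) ℤ) ^ t (Sum.inr r) * rows (par k) (par k) X t =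
      ∑ l ∈ Finset.range (s (Sum.inl q) + 1), R0 * ((-1 : MvPolynomial (ZZ k) ℤ) ^ l *
        hh (par k) X (s (Sum.inl q) - l) * hh (op (par k)) X l) := by
    refine Finset.sum_nbij' (fun t => t (Sum.inr r)) (fun l => Su_l q r s l) ?_ ?_ ?_ ?_ ?_
    · intro t ht
      rw [Finset.mem_filter] at ht
      rw [Finset.mem_range, ← ht.2, Su_T_inl]
      show t (Sum.inr r) < _
      omega
    · intro l hl
      rw [Finset.mem_range] at hl
      rw [Finset.mem_filter, Su_mem_TT]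
      constructor
      · have hE : ∑ i ∈ Su_E q r, Su_l q r s l i = ∑ i ∈ Su_E q r, s i :=
          Finset.sum_congr rfl (fun i hi => Su_l_E q r s l i hi)
        rw [Su_sum q r, Su_l_inl, Su_l_inr, hE]
        omega
      · apply Su_ext q r
        · rw [Su_T_inl, Su_l_inl, Su_l_inr]
          omega
        · rw [Su_T_inr, hsr]
        · intro i hi
          rw [Su_T_E q r _ i hi, Su_l_E q r s l i hi]
    · intro t ht
      rw [Finset.mem_filter] at ht
      show Su_l q r s (t (Sum.inr r)) = t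
      apply Su_ext q r
      · rw [Su_l_inl, ← ht.2, Su_T_inl]
        omega
      · rw [Su_l_inr]
      · intro i hi
        rw [Su_l_E q r s _ i hi, ← ht.2, Su_T_E q r t i hi]
    · intro l _
      exact Su_l_inr q r s l
    · intro t ht
      rw [Finset.mem_filter] at ht
      obtain ⟨_, hts⟩ := ht
      have e1 : s (Sum.inl q) - t (Sum.inr r) = t (Sum.inl q) := by
        rw [← hts, Su_T_inl]
        omega
      have e2 : R0 = ∏ y ∈ Su_E q r,
          (if par k y = true then hh (op (par k)) X (t y) else hh (par k) X (t y) :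
            MvPolynomial (ZZ k) ℤ) := by
        rw [hR0]
        apply Finset.prod_congr rfl
        intro y hy
        rw [← hts, Su_T_E q r t y hy]
      have e3 : rows (par k) (par k) (X : ZZ k → MvPolynomial (ZZ k) ℤ) t =
          hh (par k) X (t (Sum.inl q)) * (hh (op (par k)) X (t (Sum.inr r)) * R0) := by
        rw [e2]
        unfold rows
        rw [Su_prod q r]
        rfl
      rw [e3]
      show _ = R0 * ((-1 : MvPolynomial (ZZ k) ℤ) ^ t (Sum.inr r) *
        hh (par k) X (s (Sum.inl q) - t (Sum.inr r)) * hh (op (par k)) X (t (Sum.inr r)))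
      rw [e1]
      ring
  rw [hbij, ← Finset.mul_sum]
  have := (hHE (ZZ k) (MvPolynomial (ZZ k) ℤ) (par k) X).2 (s (Sum.inl q))
    (Nat.one_le_iff_ne_zero.2 hs)
  rw [this, mul_zero]

open MvPolynomial in
theorem Su_coeff_rows (hRo : StRo) {k : ℕ} (n : ℕ) (t t' : ZZ k → ℕ) (ht : t ∈ TT (ZZ k) n)
    (ht' : t' ∈ TT (ZZ k) n) :
    coeff (Finsupp.equivFunOnFinite.symm t') (rows (par k) (par k) X t) =
      (NN (par k) (par k) t t' : ℤ) := by
  have hsum : ∑ y, t y = n := (Su_mem_TT n t).1 ht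
  rw [hRo (ZZ k) (ZZ k) (MvPolynomial (ZZ k) ℤ) (par k) (par k) X t, hsum, coeff_sum,
    Finset.sum_eq_single t']
  · have e : ((NN (par k) (par k) t t' : ℕ) : MvPolynomial (ZZ k) ℤ) * ∏ i, X i ^ t' i =
        monomial (Finsupp.equivFunOnFinite.symm t') (NN (par k) (par k) t t' : ℤ) := by
      rw [Su_mon]
      congr 1
    rw [e, coeff_monomial, if_pos rfl]
  · intro t'' _ hne
    have e : ((NN (par k) (par k) t t'' : ℕ) : MvPolynomial (ZZ k) ℤ) * ∏ i, X i ^ t'' i =
        monomial (Finsupp.equivFunOnFinite.symm t'') (NN (par k) (par k) t t'' : ℤ) := by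
      rw [Su_mon]
      congr 1
    rw [e, coeff_monomial, if_neg]
    intro h
    exact hne (Finsupp.equivFunOnFinite.symm.injective h)
  · intro hn
    exact absurd ht' hn

open MvPolynomial in
theorem prSu : StSu := by
  intro hRo hHE hNt α _ _ I j k q r h0
  have hF : sub q r (HP (I.ρ j) k) = ∑ t ∈ TT (ZZ k) (Fintype.card α),
      monomial (Finsupp.equivFunOnFinite.symm (Su_T q r t))
        ((hT (par k) (I.ρ j) t : ℤ) * (-1) ^ t (Sum.inr r)) := by
    unfold HP
    rw [map_sum]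
    exact Finset.sum_congr rfl (fun t _ => Su_sub_mon q r t _)
  rw [hF]
  apply MvPolynomial.ext
  intro s'
  rw [coeff_sum, coeff_zero]
  obtain ⟨s, rfl⟩ : ∃ s : ZZ k → ℕ, Finsupp.equivFunOnFinite.symm s = s' :=
    ⟨Finsupp.equivFunOnFinite s', Equiv.symm_apply_apply _ _⟩
  have hc : ∀ t ∈ TT (ZZ k) (Fintype.card α),
      coeff (Finsupp.equivFunOnFinite.symm s)
        (monomial (Finsupp.equivFunOnFinite.symm (Su_T q r t))
          ((hT (par k) (I.ρ j) t : ℤ) * (-1) ^ t (Sum.inr r))) =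
      (if Su_T q r t = s then (-1 : ℤ) ^ t (Sum.inr r) else 0) * (hT (par k) (I.ρ j) t : ℤ) := by
    intro t _
    rw [coeff_monomial]
    by_cases h : Su_T q r t = s
    · rw [if_pos h, if_pos (by rw [h]), mul_comm]
    · rw [if_neg h, if_neg (fun h' => h (Finsupp.equivFunOnFinite.symm.injective h')), zero_mul]
  rw [Finset.sum_congr rfl hc]
  by_cases hs : s (Sum.inl q) = 0
  · apply Finset.sum_eq_zero
    intro t ht
    by_cases h : Su_T q r t = s
    · have h1 : t (Sum.inl q) + t (Sum.inr r) = 0 := by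
        rw [← Su_T_inl, h, hs]
      have h2 := h0 t ht (by omega) (by omega)
      rw [h2]
      simp
    · rw [if_neg h, zero_mul]
  · refine hNt α (ZZ k) I (par k)
      (fun t => if Su_T q r t = s then (-1 : ℤ) ^ t (Sum.inr r) else 0) ?_ j
    intro t' ht'
    have hrow := Su_rows hHE q r s (Fintype.card α) hs
    have h2 := congrArg (coeff (Finsupp.equivFunOnFinite.symm t')) hrow
    rw [coeff_sum, coeff_zero, Finset.sum_filter] at h2
    refine Eq.trans ?_ h2
    apply Finset.sum_congr rfl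
    intro t ht
    by_cases h : Su_T q r t = s
    · show (if Su_T q r t = s then (-1 : ℤ) ^ t (Sum.inr r) else 0) * _ = _
      rw [if_pos h, if_pos h]
      have e : (-1 : MvPolynomial (ZZ k) ℤ) ^ t (Sum.inr r) = C ((-1 : ℤ) ^ t (Sum.inr r)) := by
        rw [C_pow, C_neg, C_1]
      rw [e, coeff_C_mul, Su_coeff_rows hRo (Fintype.card α) t t' ht ht']
    · show (if Su_T q r t = s then (-1 : ℤ) ^ t (Sum.inr r) else 0) * _ = _
      rw [if_neg h, if_neg h, zero_mul]

end Pool.Agent.Work.MP_6da7fa_al.EG
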