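import Pool.Agent.Work.MP_6da7fa_al.EG.StmtsV

set_option autoImplicit false

/-!
# Theorem EG: symmetry of `HP` and its functional (item Sy)
-/

namespace Pool.Agent.Work.MP_6da7fa_al.EG

open Equiv MvPolynomial

theorem Sy_mem {k n : ℕ} {t : ZZ k → ℕ} : t ∈ TT (ZZ k) n ↔ ∑ z, t z = n := by
  unfold TT
  rw [Finset.mem_piAntidiag]
  exact ⟨fun h => h.1, fun h => ⟨h, fun z _ => Finset.mem_univ z⟩⟩

/-- functions as exponents -/
noncomputable abbrev Sy_P {k : ℕ} (t : ZZ k → ℕ) : ZZ k →₀ ℕ := Finsupp.equivFunOnFinite.symm t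

theorem Sy_inj {k : ℕ} {s t : ZZ k → ℕ} (h : Sy_P s = Sy_P t) : s = t :=
  Finsupp.equivFunOnFinite.symm.injective h

theorem Sy_map {k : ℕ} (e : Perm (ZZ k)) (t : ZZ k → ℕ) :
    Finsupp.mapDomain e (Sy_P t) = Sy_P (t ∘ e.symm) := by
  ext z
  rw [Finsupp.mapDomain_equiv_apply]
  rfl

section
variable {α V : Type} [Fintype α] [LinearOrder α] [AddCommGroup V] [Module ℂ V]

theorem Sy_rename (hCt : ∀ (α Z V : Type) [Fintype α] [LinearOrder α] [Fintype Z] [DecidableEq Z]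
      [AddCommGroup V] [Module ℂ V] (p : Z → Bool) (ρ : Representation ℂ (Perm α) V) (t : Z → ℕ)
      (e : Perm Z), (∀ z, p (e z) = p z) → hT p ρ (t ∘ e) = hT p ρ t)
    (ρ : Representation ℂ (Perm α) V) (k : ℕ) (e : Perm (ZZ k)) (he : ∀ z, par k (e z) = par k z) :
    rename e (HP ρ k) = HP ρ k := by
  unfold HP
  rw [map_sum]
  refine Finset.sum_nbij' (fun t => t ∘ e.symm) (fun t => t ∘ e) ?_ ?_ ?_ ?_ ?_
  · intro t ht
    rw [Sy_mem] at ht ⊢
    rw [← ht]
    exact Equiv.sum_comp e.symm t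
  · intro t ht
    rw [Sy_mem] at ht ⊢
    rw [← ht]
    exact Equiv.sum_comp e t
  · intro t _
    funext z
    simp
  · intro t _
    funext z
    simp
  · intro t _
    rw [rename_monomial, Sy_map]
    congr 2
    have h1 := hCt α (ZZ k) V (par k) ρ (t ∘ e.symm) e he
    rw [← h1]
    congr 1
    funext z
    simp

theorem Sy_coeff (ρ : Representation ℂ (Perm α) V) (k : ℕ) (s : ZZ k → ℕ)
    (hs : s ∈ TT (ZZ k) (Fintype.card α)) : (HP ρ k).coeff (Sy_P s) = (hT (par k) ρ s : ℤ) := by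
  classical
  unfold HP
  rw [coeff_sum, Finset.sum_eq_single s]
  · rw [coeff_monomial, if_pos rfl]
  · intro t _ hts
    rw [coeff_monomial, if_neg]
    exact fun h => hts (Sy_inj h)
  · intro h
    exact absurd hs h

theorem Sy_supp (ρ : Representation ℂ (Perm α) V) (k : ℕ) (s : ZZ k →₀ ℕ) (hs : s ∈ (HP ρ k).support) :
    ⇑s ∈ TT (ZZ k) (Fintype.card α) := by
  classical
  by_contra hcon
  rw [mem_support_iff] at hs
  apply hs
  unfold HP
  rw [coeff_sum]
  refine Finset.sum_eq_zero fun t ht => ?_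
  rw [coeff_monomial, if_neg]
  intro h
  apply hcon
  have h2 : ⇑s = t := by rw [← h]; rfl
  rw [h2]
  exact ht

end

theorem prSy : StSy := by
  classical
  intro hCt α V _ _ _ _ ρ k
  refine ⟨fun w => ?_, fun w => ?_, fun a b => ?_⟩
  · exact Sy_rename hCt ρ k (Equiv.sumCongr w (Equiv.refl _)) (by rintro (z | z) <;> rfl)
  · exact Sy_rename hCt ρ k (Equiv.sumCongr (Equiv.refl _) w) (by rintro (z | z) <;> rfl)
  · unfold kapF mm
    have h1 : ∑ t ∈ (HP ρ k).support, KK a b t * (HP ρ k).coeff t =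
        ∑ t ∈ (TT (ZZ k) (Fintype.card α)).image Sy_P, KK a b t * (HP ρ k).coeff t := by
      refine Finset.sum_subset ?_ ?_
      · intro s hs
        exact Finset.mem_image.2 ⟨⇑s, Sy_supp ρ k s hs, Finsupp.ext fun _ => rfl⟩
      · intro s _ hs
        rw [notMem_support_iff.1 hs, mul_zero]
    rw [h1, Finset.sum_image fun s _ t _ h => Sy_inj h]
    refine Finset.sum_congr rfl fun t ht => ?_
    rw [Sy_coeff ρ k t ht]
    rfl

end Pool.Agent.Work.MP_6da7fa_al.EG
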