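import Pool.Agent.Work.MP_6da7fa_al.EG.StmtsT

set_option autoImplicit false

namespace Pool.Agent.Work.MP_6da7fa_al.EG
namespace ITa

open Equiv

section
variable {α V Z : Type} [Fintype α] [LinearOrder α] [DecidableEq Z] [AddCommGroup V] [Module ℂ V]

theorem proj (ρ : Representation ℂ (Perm α) V) (W : Submodule ℂ V)
    (hW : ∀ σ : Perm α, ∀ v ∈ W, ρ σ v ∈ W) :
    ∃ E : V →ₗ[ℂ] V, (∀ v, E v ∈ W) ∧ (∀ w ∈ W, E w = w) ∧
      ∀ (σ : Perm α) (v : V), E (ρ σ v) = ρ σ (E v) := by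
  classical
  obtain ⟨W', hW'⟩ := W.exists_isCompl
  let E0 : V →ₗ[ℂ] V := W.subtype ∘ₗ W.projectionOnto W' hW'
  have hE0 : ∀ v, E0 v ∈ W := fun v => (W.projectionOnto W' hW' v).2
  have hE1 : ∀ w ∈ W, E0 w = w := by
    intro w hw
    show ((W.projectionOnto W' hW' w : W) : V) = w
    have := Submodule.projectionOnto_apply_left hW' ⟨w, hw⟩
    rw [this]
  let E : V →ₗ[ℂ] V := ((Fintype.card (Perm α) : ℂ))⁻¹ • ∑ g : Perm α, (ρ g) ∘ₗ E0 ∘ₗ (ρ g⁻¹)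
  have hEv : ∀ v, E v = ((Fintype.card (Perm α) : ℂ))⁻¹ • ∑ g : Perm α, ρ g (E0 (ρ g⁻¹ v)) := by
    intro v
    simp [E, LinearMap.sum_apply]
  refine ⟨E, ?_, ?_, ?_⟩
  · intro v
    rw [hEv]
    exact W.smul_mem _ (W.sum_mem fun g _ => hW g _ (hE0 _))
  · intro w hw
    rw [hEv]
    have : ∀ g : Perm α, ρ g (E0 (ρ g⁻¹ w)) = w := by
      intro g
      rw [hE1 _ (hW _ _ hw)]
      rw [← Module.End.mul_apply, ← map_mul, mul_inv_cancel, map_one, Module.End.one_apply]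
    rw [Finset.sum_congr rfl fun g _ => this g, Finset.sum_const, Finset.card_univ,
      ← Nat.cast_smul_eq_nsmul ℂ, smul_smul, inv_mul_cancel₀, one_smul]
    exact_mod_cast Fintype.card_ne_zero
  · intro σ v
    rw [hEv, hEv, map_smul, map_sum]
    congr 1
    rw [← Equiv.sum_comp (Equiv.mulLeft σ)]
    refine Finset.sum_congr rfl fun g _ => ?_
    show ρ (σ * g) (E0 (ρ (σ * g)⁻¹ (ρ σ v))) = ρ σ (ρ g (E0 (ρ g⁻¹ v)))
    have h1 : ρ (σ * g)⁻¹ (ρ σ v) = ρ g⁻¹ v := by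
      rw [← Module.End.mul_apply, ← map_mul]
      congr 2
      group
    rw [h1, map_mul, Module.End.mul_apply]

theorem pp_apply (p : Z → Bool) (ρ : Representation ℂ (Perm α) V) (c : α → Z) (v : V) :
    PP p ρ c v = (((Finset.univ.filter fun σ : Perm α => c ∘ σ = c).card : ℂ))⁻¹ •
      ∑ σ ∈ Finset.univ.filter (fun σ : Perm α => c ∘ σ = c), ((sg p c σ : ℤ) : ℂ) • ρ σ v := by
  unfold PP
  rw [LinearMap.smul_apply, LinearMap.sum_apply]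
  rfl

theorem comm_pp (p : Z → Bool) (ρ : Representation ℂ (Perm α) V) (c : α → Z) (E : V →ₗ[ℂ] V)
    (hE : ∀ (σ : Perm α) (v : V), E (ρ σ v) = ρ σ (E v)) (v : V) :
    E (PP p ρ c v) = PP p ρ c (E v) := by
  rw [pp_apply, pp_apply, map_smul, map_sum]
  congr 1
  refine Finset.sum_congr rfl fun σ _ => ?_
  rw [map_smul, hE]

theorem pp_conj (hSc : ∀ (g h : Perm α) (p : Z → Bool) (c : α → Z), c ∘ h = c →
      sg p (c ∘ ⇑g⁻¹) (g * h * g⁻¹) = sg p c h)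
    (p : Z → Bool) (ρ : Representation ℂ (Perm α) V) (c : α → Z) (σ : Perm α) (v : V) :
    PP p ρ (c ∘ ⇑σ⁻¹) (ρ σ v) = ρ σ (PP p ρ c v) := by
  have hmap : (Finset.univ.filter fun τ : Perm α => (c ∘ ⇑σ⁻¹) ∘ τ = c ∘ ⇑σ⁻¹) =
      (Finset.univ.filter fun τ : Perm α => c ∘ τ = c).map (MulAut.conj σ).toEquiv.toEmbedding := by
    ext τ
    simp only [Finset.mem_filter, Finset.mem_univ, true_and, Finset.mem_map]
    constructor
    · intro h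
      refine ⟨σ⁻¹ * τ * σ, ?_, ?_⟩
      · have h1 : c ∘ ⇑(σ⁻¹ * τ * σ) = ((c ∘ ⇑σ⁻¹) ∘ ⇑τ) ∘ ⇑σ := rfl
        rw [h1, h]
        funext x
        simp
      · show σ * (σ⁻¹ * τ * σ) * σ⁻¹ = τ
        group
    · rintro ⟨τ', h, rfl⟩
      show (c ∘ ⇑σ⁻¹) ∘ ⇑(σ * τ' * σ⁻¹) = c ∘ ⇑σ⁻¹
      have h1 : (c ∘ ⇑σ⁻¹) ∘ ⇑(σ * τ' * σ⁻¹) = (c ∘ ⇑τ') ∘ ⇑σ⁻¹ := by
        funext x
        simp
      rw [h1, h]
  rw [pp_apply, pp_apply, hmap, Finset.card_map, Finset.sum_map, map_smul, map_sum]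
  congr 1
  refine Finset.sum_congr rfl fun τ hτ => ?_
  have hτ' := (Finset.mem_filter.1 hτ).2
  show ((sg p (c ∘ ⇑σ⁻¹) (σ * τ * σ⁻¹) : ℤ) : ℂ) • ρ (σ * τ * σ⁻¹) (ρ σ v) = _
  rw [hSc σ τ p c hτ', map_smul]
  congr 1
  rw [← Module.End.mul_apply, ← Module.End.mul_apply, ← map_mul, ← map_mul]
  congr 2
  group

end
end ITa

open ITa in
theorem prTa : StTa := by
  classical
  intro hSa hSb hSc0 hSw hPp α V _ _ _ _ ρ k
  have hSc : ∀ (g h : Equiv.Perm α) (p : ZZ k → Bool) (c : α → ZZ k), c ∘ h = c →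
      sg p (c ∘ ⇑g⁻¹) (g * h * g⁻¹) = sg p c h := fun g h p c => (hSc0 hSa hSb α _ p c).2 g h
  have hP : ∀ c : α → ZZ k, LinearMap.IsProj (SI (par k) ρ c) (PP (par k) ρ c) :=
    fun c => (hPp α _ V (par k) ρ c).1
  set B : Submodule ℂ V := ⨆ c : α → ZZ k, SI (par k) ρ c with hB
  have hSIB : ∀ c, SI (par k) ρ c ≤ B := fun c => le_iSup (fun c => SI (par k) ρ c) c
  have hSI : ∀ (σ : Equiv.Perm α) (c : α → ZZ k), ∀ v ∈ SI (par k) ρ c,
      ρ σ v ∈ SI (par k) ρ (c ∘ ⇑σ⁻¹) := by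
    intro σ c v hv
    have h1 := pp_conj hSc (par k) ρ c σ v
    rw [(hP c).map_id v hv] at h1
    rw [← h1]
    exact (hP _).map_mem _
  have hBinv : ∀ σ : Equiv.Perm α, ∀ v ∈ B, ρ σ v ∈ B := by
    intro σ v hv
    have h1 : ρ σ v ∈ B.map (ρ σ) := Submodule.mem_map_of_mem hv
    refine (?_ : B.map (ρ σ) ≤ B) h1
    rw [hB, Submodule.map_iSup]
    refine iSup_le fun c => ?_
    rw [Submodule.map_le_iff_le_comap]
    intro w hw
    exact hSIB _ (hSI σ c w hw)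
  have memU : ∀ v, v ∈ UU k ρ ↔ ∀ c, PP (par k) ρ c v = 0 := by
    intro v
    unfold UU
    rw [Submodule.mem_iInf]
    rfl
  have hUinv : ∀ σ : Equiv.Perm α, ∀ v ∈ UU k ρ, ρ σ v ∈ UU k ρ := by
    intro σ v hv
    rw [memU] at hv ⊢
    intro c
    have h1 := pp_conj hSc (par k) ρ (c ∘ ⇑σ) σ v
    rw [hv, map_zero] at h1
    have h2 : (c ∘ ⇑σ) ∘ ⇑σ⁻¹ = c := by
      funext x
      simp
    rwa [h2] at h1
  refine ⟨⟨?_, ?_⟩, hUinv⟩
  · rw [disjoint_iff]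
    obtain ⟨E, hE1, hE2, hE3⟩ := proj ρ (B ⊓ UU k ρ) (fun σ v hv =>
      ⟨hBinv σ v hv.1, hUinv σ v hv.2⟩)
    have hE4 : B ≤ LinearMap.ker E := by
      rw [hB]
      refine iSup_le fun c => ?_
      intro v hv
      rw [LinearMap.mem_ker]
      have h1 := comm_pp (par k) ρ c E hE3 v
      rw [(hP c).map_id v hv] at h1
      rw [h1]
      exact (memU _).1 (hE1 v).2 c
    rw [eq_bot_iff]
    intro w hw
    have h1 := hE2 w hw
    have h2 := hE4 hw.1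
    rw [LinearMap.mem_ker] at h2
    rw [Submodule.mem_bot, ← h1, h2]
  · rw [codisjoint_iff, eq_top_iff]
    intro v _
    obtain ⟨E, hE1, hE2, hE3⟩ := proj ρ B hBinv
    rw [Submodule.mem_sup]
    refine ⟨E v, hE1 v, v - E v, ?_, by abel⟩
    rw [memU]
    intro c
    rw [map_sub, ← comm_pp (par k) ρ c E hE3 v, hE2 _ (hSIB c ((hP c).map_mem v)), sub_self]

end Pool.Agent.Work.MP_6da7fa_al.EG
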