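import Pool.Agent.Work.MP_6da7fa_al.EG.StmtsT

set_option autoImplicit false

/-!
# Theorem EG, item Tb: the vectors killed by all projections form a submodule
-/

namespace Pool.Agent.Work.MP_6da7fa_al.EG

open Equiv

private theorem Tb_bs_one {i j n : ℕ} (h : i + j = n) :
    blockSum h (1 : Perm (Fin i)) (1 : Perm (Fin j)) = 1 := by
  subst h
  ext x
  simp [blockSum]

private theorem Tb_bs_mul {i j n : ℕ} (h : i + j = n) (σ τ : Perm (Fin j)) :
    blockSum h (1 : Perm (Fin i)) (σ * τ) = blockSum h 1 σ * blockSum h 1 τ := by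
  subst h
  apply Equiv.ext
  intro x
  refine Fin.addCases (fun z => ?_) (fun z => ?_) x
  · simp [blockSum]
  · simp [blockSum]

private theorem Tb_inj {i j n : ℕ} (h : i + j = n) {x y : Fin j} (hxy : x ≠ y) :
    Fin.cast h (Fin.natAdd i x) ≠ Fin.cast h (Fin.natAdd i y) := by
  intro H
  apply hxy
  subst h
  simpa using H

private theorem Tb_bs_swap {i j n : ℕ} (h : i + j = n) (x y : Fin j) :
    blockSum h (1 : Perm (Fin i)) (swap x y) =
      swap (Fin.cast h (Fin.natAdd i x)) (Fin.cast h (Fin.natAdd i y)) := by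
  apply Equiv.ext
  intro w
  obtain ⟨w', rfl⟩ : ∃ w' : Fin (i + j), w = Fin.cast h w' := ⟨Fin.cast h.symm w, by simp⟩
  refine Fin.addCases (fun z => ?_) (fun z => ?_) w'
  · rw [MB.lift_zero_side, Equiv.swap_apply_of_ne_of_ne]
    · subst h
      intro H
      have := congrArg (fun q : Fin (i + j) => (q : ℕ)) H
      simp at this
      omega
    · subst h
      intro H
      have := congrArg (fun q : Fin (i + j) => (q : ℕ)) H
      simp at this
      omega
  · rw [MB.lift_add_side]
    by_cases h1 : z = x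
    · subst h1
      rw [Equiv.swap_apply_left, Equiv.swap_apply_left]
    · by_cases h2 : z = y
      · subst h2
        rw [Equiv.swap_apply_right, Equiv.swap_apply_right]
      · rw [Equiv.swap_apply_of_ne_of_ne h1 h2,
          Equiv.swap_apply_of_ne_of_ne (Tb_inj h h1) (Tb_inj h h2)]

private theorem Tb_col {i j n : ℕ} {Z : Type} (h : i + j = n) (c : Fin n → Z) (τ : Perm (Fin j))
    (hτ : (fun y : Fin j => c (Fin.cast h (Fin.natAdd i y))) ∘ τ =
      fun y : Fin j => c (Fin.cast h (Fin.natAdd i y))) :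
    c ∘ (blockSum h (1 : Perm (Fin i)) τ) = c := by
  funext w
  obtain ⟨w', rfl⟩ : ∃ w' : Fin (i + j), w = Fin.cast h w' := ⟨Fin.cast h.symm w, by simp⟩
  refine Fin.addCases (fun z => ?_) (fun z => ?_) w'
  · rw [Function.comp_apply, MB.lift_zero_side]
  · rw [Function.comp_apply, MB.lift_add_side]
    exact congrFun hτ z

private theorem Tb_sg (hSb : StSb) (hSc : ConSc) (hSi : StSi) {i j n : ℕ} {Z : Type} (p : Z → Bool)
    (h : i + j = n) (c : Fin n → Z) (τ : Perm (Fin j))
    (hτ : (fun y : Fin j => c (Fin.cast h (Fin.natAdd i y))) ∘ τ =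
      fun y : Fin j => c (Fin.cast h (Fin.natAdd i y))) :
    sg p c (blockSum h (1 : Perm (Fin i)) τ) =
      sg p (fun y : Fin j => c (Fin.cast h (Fin.natAdd i y))) τ := by
  set c' : Fin j → Z := fun y : Fin j => c (Fin.cast h (Fin.natAdd i y)) with hc'
  have key := hSi (Fin j) Z c'
    (fun τ => c' ∘ τ = c' ∧ sg p c (blockSum h (1 : Perm (Fin i)) τ) = sg p c' τ) ?_ ?_ τ hτ
  · exact key.2
  · refine ⟨rfl, ?_⟩
    rw [Tb_bs_one, (hSb (Fin n) Z p c).2.1, (hSb (Fin j) Z p c').2.1]
  · intro σ x y hxy hcxy hP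
    obtain ⟨hP1, hP2⟩ := hP
    refine ⟨?_, ?_⟩
    · funext z
      have h1 : c' (swap x y (σ z)) = c' (σ z) := by
        by_cases h1 : σ z = x
        · rw [h1, Equiv.swap_apply_left, hcxy]
        · by_cases h2 : σ z = y
          · rw [h2, Equiv.swap_apply_right, hcxy]
          · rw [Equiv.swap_apply_of_ne_of_ne h1 h2]
      exact h1.trans (congrFun hP1 z)
    · rw [Tb_bs_mul, Tb_bs_swap, (hSc (Fin n) Z p c).1 _ _ (Tb_col h c σ hP1),
        (hSc (Fin j) Z p c').1 _ _ hP1, hP2, (hSb (Fin j) Z p c').2.2 x y hxy hcxy,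
        (hSb (Fin n) Z p c).2.2 _ _ (Tb_inj h hxy) hcxy]

theorem prTb : StTb := by
  intro hSb hSc hSi hPp hTa A _ _ R M _ _ S k
  refine ⟨{ carrier := fun n => UU k (rp S.seq n), act_mem := ?_, smul_mem := ?_ }, fun n => rfl⟩
  · intro n σ x hx
    exact (hTa (Fin n) (M n) (rp S.seq n) k).2 σ x hx
  · intro i j n h a v hv
    rw [UU, Submodule.mem_iInf] at hv ⊢
    intro c
    rw [LinearMap.mem_ker]
    have hv' := hv (fun y : Fin j => c (Fin.cast h (Fin.natAdd i y)))
    rw [LinearMap.mem_ker] at hv'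
    set c' : Fin j → ZZ k := fun y : Fin j => c (Fin.cast h (Fin.natAdd i y)) with hc'
    have h3 : ∀ τ : Perm (Fin j), c' ∘ τ = c' →
        PP (par k) (rp S.seq n) c (S.smulL h a (rp S.seq j τ v)) =
          ((sg (par k) c' τ : ℤ) : ℂ) • PP (par k) (rp S.seq n) c (S.smul.app h a v) := by
      intro τ hτ
      have e1 : S.smulL h a (rp S.seq j τ v) =
          rp S.seq n (blockSum h 1 τ) (S.smul.app h a v) := by
        have e2 := S.smul.equivariant h 1 τ a v
        rw [R.seq.act_one] at e2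
        exact e2
      rw [e1, (hPp (Fin n) (ZZ k) (M n) (par k) (rp S.seq n) c).2 _ (Tb_col h c τ hτ),
        Tb_sg hSb hSc hSi (par k) h c τ hτ]
    have hsq : ∀ τ : Perm (Fin j), ((sg (par k) c' τ : ℤ) : ℂ) * ((sg (par k) c' τ : ℤ) : ℂ) = 1 := by
      intro τ
      rcases (hSb (Fin j) (ZZ k) (par k) c').1 τ with h1 | h1 <;> rw [h1] <;> norm_num
    rw [PP, LinearMap.smul_apply, LinearMap.sum_apply] at hv'
    have h4 := congrArg (fun w => PP (par k) (rp S.seq n) c (S.smulL h a w)) hv'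
    simp only [map_zero] at h4
    rw [map_smul, map_smul, map_sum, map_sum] at h4
    have h5 : ∀ τ ∈ Finset.univ.filter (fun σ : Perm (Fin j) => c' ∘ σ = c'),
        PP (par k) (rp S.seq n) c (S.smulL h a
          ((((sg (par k) c' τ : ℤ) : ℂ) • (rp S.seq j) τ) v)) =
          PP (par k) (rp S.seq n) c (S.smul.app h a v) := by
      intro τ hτ
      have hτ' : c' ∘ τ = c' := (Finset.mem_filter.1 hτ).2
      rw [LinearMap.smul_apply, map_smul, map_smul, h3 τ hτ', smul_smul, hsq τ, one_smul]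
    rw [Finset.sum_congr rfl h5, Finset.sum_const, ← Nat.cast_smul_eq_nsmul ℂ, smul_smul] at h4
    have hne : ((Finset.univ.filter fun σ : Perm (Fin j) => c' ∘ σ = c').card : ℂ) ≠ 0 := by
      rw [Nat.cast_ne_zero, Finset.card_ne_zero]
      exact ⟨1, Finset.mem_filter.2 ⟨Finset.mem_univ _, rfl⟩⟩
    rw [inv_mul_cancel₀ hne, one_smul] at h4
    exact h4

end Pool.Agent.Work.MP_6da7fa_al.EG
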