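import Pool.Agent.Work.MP_6da7fa_al.EG.StmtsT

set_option autoImplicit false

namespace Pool.Agent.Work.MP_6da7fa_al.EG

namespace ITc

open Equiv

section
variable {A : ℕ → Type} [∀ n, AddCommGroup (A n)] [∀ n, Module ℂ (A n)] {R : TCA A}
  {M : ℕ → Type} [∀ n, AddCommGroup (M n)] [∀ n, Module ℂ (M n)]

theorem rp_quot (S : TCAModule R M) (N : SubMod S) (n : ℕ) (σ : Perm (Fin n)) (v : M n) :
    rp (S.quot N).seq n σ ((N.carrier n).mkQ v) = (N.carrier n).mkQ (rp S.seq n σ v) := rfl

theorem pp_quot (S : TCAModule R M) (N : SubMod S) (n : ℕ) (k : ℕ) (c : Fin n → ZZ k) (v : M n) :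
    PP (par k) (rp (S.quot N).seq n) c ((N.carrier n).mkQ v) =
      (N.carrier n).mkQ (PP (par k) (rp S.seq n) c v) := by
  unfold PP
  rw [LinearMap.smul_apply, LinearMap.smul_apply, LinearMap.sum_apply, LinearMap.sum_apply,
    map_smul, map_sum]
  congr 1

end
end ITc

open ITc in
theorem prTc : StTc := by
  intro hTa A _ _ R M _ _ S k N hN
  refine ⟨?_, ?_⟩
  · intro n v
    obtain ⟨x, rfl⟩ := (N.carrier n).mkQ_surjective v
    have h1 := (hTa (Fin n) (M n) (rp S.seq n) k).1.2
    rw [codisjoint_iff] at h1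
    have hx : x ∈ (⨆ c : Fin n → ZZ k, SI (par k) (rp S.seq n) c) ⊔ UU k (rp S.seq n) := by
      rw [h1]; trivial
    obtain ⟨b, hb, u, hu, rfl⟩ := Submodule.mem_sup.1 hx
    rw [map_add]
    have hu' : (N.carrier n).mkQ u = 0 := by
      rw [← hN n] at hu
      rwa [← LinearMap.mem_ker, Submodule.ker_mkQ]
    rw [hu', add_zero]
    have h2 : (N.carrier n).mkQ b ∈ (⨆ c : Fin n → ZZ k, SI (par k) (rp S.seq n) c).map
        (N.carrier n).mkQ := Submodule.mem_map_of_mem hb
    rw [Submodule.map_iSup] at h2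
    refine (?_ : (⨆ c : Fin n → ZZ k, (SI (par k) (rp S.seq n) c).map (N.carrier n).mkQ) ≤ _) h2
    refine iSup_mono fun c => ?_
    rw [Submodule.map_le_iff_le_comap]
    intro w hw σ hσ
    rw [rp_quot]
    have := hw σ hσ
    rw [this, map_smul]
  · intro N' hB n v hv
    have h1 : (N'.carrier n).mkQ v ∈ UU k (rp (S.quot N').seq n) := by
      unfold UU
      rw [Submodule.mem_iInf]
      intro c
      rw [LinearMap.mem_ker, pp_quot]
      rw [hN n] at hv
      unfold UU at hv
      rw [Submodule.mem_iInf] at hv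
      have := hv c
      rw [LinearMap.mem_ker] at this
      rw [this, map_zero]
    have h2 := (hTa (Fin n) (M n ⧸ N'.carrier n) (rp (S.quot N').seq n) k).1.1
    have h3 : (⨆ c : Fin n → ZZ k, SI (par k) (rp (S.quot N').seq n) c) = ⊤ := by
      rw [eq_top_iff]
      intro w _
      exact hB n w
    rw [h3, disjoint_iff, top_inf_eq] at h2
    rw [h2, Submodule.mem_bot] at h1
    rwa [← LinearMap.mem_ker, Submodule.ker_mkQ] at h1

end Pool.Agent.Work.MP_6da7fa_al.EG
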