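import Pool.Agent.Work.MP_6da7fa_al.EG.StmtsT

set_option autoImplicit false

namespace Pool.Agent.Work.MP_6da7fa_al.EG

namespace ITd

open Equiv

theorem surj {G V W : Type} [Group G] [AddCommGroup V] [Module ℂ V] [AddCommGroup W]
    [Module ℂ W] {ρ : Representation ℂ G V} {σ : Representation ℂ G W} (hσ : σ.IsIrreducible)
    {φ : V →ₗ[ℂ] W} (h0 : φ ≠ 0) (h : ∀ s v, φ (ρ s v) = σ s (φ v)) :
    Function.Surjective φ := by
  have : IsSimpleOrder (Subrepresentation σ) := hσ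
  obtain ⟨U, hU⟩ : ∃ U : Subrepresentation σ, U.toSubmodule = LinearMap.range φ :=
    ⟨⟨LinearMap.range φ, by
      rintro g _ ⟨v, rfl⟩
      exact ⟨ρ g v, h g v⟩⟩, rfl⟩
  rcases IsSimpleOrder.eq_bot_or_eq_top U with hb | ht
  · exfalso
    apply h0
    ext v
    have h1 : φ v ∈ U.toSubmodule := by
      rw [hU]
      exact ⟨v, rfl⟩
    rw [hb] at h1
    exact h1
  · intro w
    have h1 : w ∈ U.toSubmodule := by
      rw [ht]
      exact Submodule.mem_top (R := ℂ)
    rw [hU] at h1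
    exact h1

theorem pp_map {α Z V W : Type} [Fintype α] [LinearOrder α] [DecidableEq Z]
    [AddCommGroup V] [Module ℂ V] [AddCommGroup W] [Module ℂ W] (p : Z → Bool)
    (ρ : Representation ℂ (Perm α) V) (σ : Representation ℂ (Perm α) W)
    (c : α → Z) (φ : V →ₗ[ℂ] W) (h : ∀ s v, φ (ρ s v) = σ s (φ v)) (v : V) :
    φ (PP p ρ c v) = PP p σ c (φ v) := by
  unfold PP
  simp only [LinearMap.smul_apply, LinearMap.sum_apply, map_smul, map_sum, h]

end ITd

open ITd in
theorem prTd : StTd := by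
  intro h0 hSw hPp hHt hDe hMl hCm hBx hTa α V _ _ _ _ _ ρ k hcard
  obtain ⟨-, hUinv⟩ := hTa α V ρ k
  set W : Submodule ℂ V := UU k ρ with hWdef
  by_contra hne
  let ρW : Representation ℂ (Equiv.Perm α) W :=
    Representation.subrepresentation ρ W (fun g v hv => hUinv g v hv)
  have hfin : Module.finrank ℂ W ≠ 0 := by
    have : Nontrivial W := Submodule.nontrivial_iff_ne_bot.2 hne
    exact Module.finrank_pos.ne'
  have hPW : ∀ (c : α → ZZ k) (w : W), PP (par k) ρW c w = 0 := by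
    intro c w
    apply Subtype.ext
    have h1 : ((PP (par k) ρW c w : W) : V) = PP (par k) ρ c (w : V) :=
      pp_map (par k) ρW ρ c W.subtype (fun s u => rfl) w
    rw [h1]
    have h2 : (w : V) ∈ UU k ρ := w.2
    unfold UU at h2
    rw [Submodule.mem_iInf] at h2
    exact h2 c
  obtain ⟨I⟩ := h0 α
  obtain ⟨m, hch, hm⟩ := hDe α W I ρW
  have hdim := (hMl α W I ρW m hch).2
  obtain ⟨j, hj⟩ : ∃ j, m j ≠ 0 := by
    by_contra hcon
    push Not at hcon
    apply hfin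
    rw [hdim]
    exact Finset.sum_eq_zero fun j _ => by rw [hcon j, Nat.zero_mul]
  obtain ⟨φ, hφ0, hφ⟩ := (hm j).2.1 hj
  have hφs := surj (I.irr j) hφ0 hφ
  have hSI : ∀ c : α → ZZ k, SI (par k) (I.ρ j) c = ⊥ := by
    intro c
    rw [Submodule.eq_bot_iff]
    intro v hv
    obtain ⟨w, rfl⟩ := hφs v
    have h1 := (hPp α (ZZ k) _ (par k) (I.ρ j) c).1.map_id _ hv
    rw [← h1, ← pp_map (par k) ρW (I.ρ j) c φ hφ w, hPW, map_zero]
  obtain ⟨w0, hw0⟩ : ∃ w, φ w ≠ 0 := by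
    by_contra hcon
    push Not at hcon
    exact hφ0 (LinearMap.ext hcon)
  let c0 : α → ZZ (Fintype.card α) := fun x => Sum.inl (Fintype.equivFin α x)
  have hc0 : SI (par (Fintype.card α)) (I.ρ j) c0 ≠ ⊥ := by
    intro h
    apply hw0
    have h1 : φ w0 ∈ SI (par (Fintype.card α)) (I.ρ j) c0 := by
      rw [hSw]
      intro x y hxy hc
      exact absurd ((Fintype.equivFin α).injective (Sum.inl_injective hc)) hxy
    rw [h] at h1
    exact h1
  obtain ⟨r, a, b, -, ha, hb, hsz, hmm⟩ := hCm α I j (Fintype.card α) c0 hc0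
  have hr2 : r ^ 2 ≤ Fintype.card α := by
    rw [← hsz]
    exact (hBx r a b ha hb).1
  have hrK' : r ≤ k := by
    by_contra h
    have h1 : k + 1 ≤ r := by omega
    have h2 : (k + 1) ^ 2 ≤ r ^ 2 := Nat.pow_le_pow_left h1 2
    omega
  have hne : mm (I.ρ j) a b ≠ 0 := by rw [hmm]; exact one_ne_zero
  obtain ⟨t, ht, ht0⟩ := Finset.exists_ne_zero_of_sum_ne_zero hne
  obtain ⟨c, rfl⟩ := (hHt.2.2 α (ZZ r) t).1 ht
  rw [hHt.1 α (ZZ r) _ (par r) (I.ρ j) c] at ht0
  have hne2 : SI (par r) (I.ρ j) c ≠ ⊥ := by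
    intro h
    apply ht0
    unfold hn
    rw [h, finrank_bot]
    simp
  apply hne2
  rw [← hHt.2.1 α (ZZ r) (ZZ k) _ (par r) (par k) (I.ρ j) c
    (Sum.map (Fin.castLE hrK') (Fin.castLE hrK'))
    (Function.Injective.sumMap (Fin.castLE_injective hrK') (Fin.castLE_injective hrK'))
    (fun z => by rcases z with z | z <;> rfl)]
  exact hSI _

end Pool.Agent.Work.MP_6da7fa_al.EG
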