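import Pool.Agent.Work.MP_6da7fa_al.EG.StmtsT

set_option autoImplicit false

namespace Pool.Agent.Work.MP_6da7fa_al.EG

theorem prTe : StTe := by
  intro hTb hTc hTd hCore A _ _ R M _ _ S hR hS hfd k
  obtain ⟨N, hN⟩ := hTb A R M S k
  obtain ⟨h1, h2⟩ := hTc A R M S k N hN
  refine ⟨N, h1, h2, ?_, ?_⟩
  · intro n hn
    have := hfd n
    rw [hN n]
    exact hTd (Fin n) (M n) (rp S.seq n) k (by simpa using hn)
  · have h3 : ∀ n, FiniteDimensional ℂ (M n ⧸ N.carrier n) := by
      intro n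
      have := hfd n
      infer_instance
    exact hCore A R (fun n => M n ⧸ N.carrier n) (S.quot N) hR (quot_fg hS N) h3 k h1

end Pool.Agent.Work.MP_6da7fa_al.EG
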