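import Pool.Agent.Work.MP_6da7fa_al.EG.StmtsV

set_option autoImplicit false

/-!
# Item Tr: the trace formula
-/

namespace Pool.Agent.Work.MP_6da7fa_al.EG

open Equiv

theorem prTr : StTr := by
  intro hPp α Z V _ _ _ _ _ _ p ρ c
  have h1 := (hPp α Z V p ρ c).1.trace
  unfold hn
  rw [← h1]
  unfold PP
  rw [map_smul, map_sum, smul_eq_mul]
  congr 1
  refine Finset.sum_congr rfl fun σ _ => ?_
  rw [map_smul, smul_eq_mul]
  rfl

end Pool.Agent.Work.MP_6da7fa_al.EG
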