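import Pool.Agent.Work.MP_6da7fa_al.EG.StmtsH

set_option autoImplicit false

namespace Pool.Agent.Work.MP_6da7fa_al.EG

theorem prH1 : StH1 := by
  intro Z
  have h0 : HSf (fun _ : Z → ℕ => 0) :=
    ⟨Empty, inferInstance, fun x => x.elim, fun x => x.elim, fun x => x.elim,
      fun x => x.elim, fun t => by simp⟩
  have h2 : ∀ h h' : (Z → ℕ) → ℕ, HSf h → HSf h' → HSf (fun t => h t + h' t) := by
    rintro h h' ⟨ι, _, r, γ, u, hu, hh⟩ ⟨ι', _, r', γ', u', hu', hh'⟩
    refine ⟨ι ⊕ ι', inferInstance, Sum.elim r r', Sum.elim γ γ',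
      fun C => match C with
        | Sum.inl C => u C
        | Sum.inr C => u' C, ?_, ?_⟩
    · rintro (C | C) j
      · exact hu C j
      · exact hu' C j
    · intro t
      show h t + h' t = _
      rw [Fintype.sum_sum_type]
      exact congrArg₂ (· + ·) (hh t) (hh' t)
  refine ⟨h0, h2, ?_⟩
  intro p
  induction p with
  | zero =>
    intro h _
    simpa using h0
  | succ p ih =>
    intro h hh
    have h3 := h2 (fun t => ∑ j : Fin p, h j.castSucc t) (h (Fin.last p))
      (ih (fun j => h j.castSucc) (fun j => hh j.castSucc)) (hh _)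
    have : (fun t => ∑ j, h j t) = fun t => ∑ j : Fin p, h j.castSucc t + h (Fin.last p) t := by
      funext t
      rw [Fin.sum_univ_castSucc]
    rw [this]
    exact h3

end Pool.Agent.Work.MP_6da7fa_al.EG
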