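import Pool.Agent.Work.MP_6da7fa_al.EG.StmtsH

set_option autoImplicit false

namespace Pool.Agent.Work.MP_6da7fa_al.EG

theorem prH10 : StH10 := by
  classical
  intro hPp hSb M _ _ s Z _ p n c0 κ
  have hex : ∃ σ : Equiv.Perm (Fin n), c0 ∘ ⇑σ = c0 ∘ ⇑κ := ⟨κ, rfl⟩
  have hσ : c0 ∘ ⇑(ch c0 (c0 ∘ κ)) = c0 ∘ ⇑κ := by
    unfold ch
    rw [dif_pos hex]
    exact hex.choose_spec
  set σ := ch c0 (c0 ∘ κ) with hσd
  have h1 : c0 ∘ ⇑(κ * σ⁻¹) = c0 := by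
    have : c0 ∘ ⇑(κ * σ⁻¹) = (c0 ∘ ⇑κ) ∘ ⇑σ⁻¹ := rfl
    rw [this, ← hσ]
    funext z
    simp
  refine ⟨((sg p c0 (κ * σ⁻¹) : ℤ) : ℂ), ?_, fun w => ?_⟩
  · rcases (hSb (Fin n) Z p c0).1 (κ * σ⁻¹) with h | h <;> rw [h] <;> norm_num
  · have h2 := (hPp _ _ _ p (rp s n) c0).2 _ h1 (s.act n σ w)
    have h3 : (rp s n (κ * σ⁻¹)) (s.act n σ w) = s.act n κ w := by
      show s.act n (κ * σ⁻¹) (s.act n σ w) = _
      rw [← s.act_mul]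
      congr 1
      group
    rw [h3] at h2
    exact h2

end Pool.Agent.Work.MP_6da7fa_al.EG
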