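import Pool.Agent.Work.MP_6da7fa_al.EG.StmtsH

set_option autoImplicit false

namespace Pool.Agent.Work.MP_6da7fa_al.EG

theorem prH11 : StH11 := by
  classical
  intro hPp hSb hSc h8 h9 h10 A _ _ R M _ _ S Z _ _ p d n m h x b c0 c c1 hc hc1
  obtain ⟨h8a, h8b, h8c⟩ := h8 Z
  obtain ⟨h9a, h9b, h9c⟩ := h9 Z d n m h
  have hσ : c0 ∘ ⇑(ch c0 c) = c := h8b n c0 c hc
  have hπ : c1 ∘ ⇑(ch c1 (cat h b c0)) = cat h b c0 := h8b m c1 (cat h b c0) hc1
  set σ := ch c0 c with hσd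
  set π := ch c1 (cat h b c0) with hπd
  -- the product with a permuted vector
  have hx : ∀ (τ : Equiv.Perm (Fin n)) (v : M n),
      S.smul.app h x (S.seq.act n τ v) = S.seq.act m (blockSum h 1 τ) (S.smul.app h x v) := by
    intro τ v
    have := S.smul.equivariant h 1 τ x v
    rwa [R.seq.act_one] at this
  -- (I0)
  have hI0 : ∀ (η : Equiv.Perm (Fin n)) (y : M m), c0 ∘ ⇑η = c0 →
      Cl p S.seq c1 (cat h b c0) (S.seq.act m (blockSum h 1 η) y) =
        ((sg p c0 η : ℤ) : ℂ) • Cl p S.seq c1 (cat h b c0) y := by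
    intro η y hη
    have e1 : Cl p S.seq c1 (cat h b c0) (S.seq.act m (blockSum h 1 η) y) =
        PP p (rp S.seq m) c1 (S.seq.act m π (S.seq.act m (blockSum h 1 η) y)) := rfl
    have e2 : S.seq.act m π (S.seq.act m (blockSum h 1 η) y) =
        S.seq.act m (π * blockSum h 1 η * π⁻¹) (S.seq.act m π y) := by
      rw [← S.seq.act_mul, ← S.seq.act_mul]
      congr 1
      group
    have e4 : cat h b c0 ∘ ⇑(blockSum h 1 η) = cat h b c0 := by
      rw [← (h9c p b c0 η).1, hη]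
    have e3 : c1 ∘ ⇑(π * blockSum h 1 η * π⁻¹) = c1 := by
      have : c1 ∘ ⇑(π * blockSum h 1 η * π⁻¹) =
          ((c1 ∘ ⇑π) ∘ ⇑(blockSum h 1 η)) ∘ ⇑π⁻¹ := rfl
      rw [this, hπ, e4, ← hπ]
      funext z
      simp
    have e5 := (hPp _ _ _ p (rp S.seq m) c1).2 _ e3 (S.seq.act m π y)
    have e6 : sg p c1 (π * blockSum h 1 η * π⁻¹) = sg p c0 η := by
      have f1 := hSc (Fin m) Z p (cat h b c0) π (blockSum h 1 η) e4
      rw [(h9c p b c0 η).2] at f1
      have f2 : cat h b c0 ∘ ⇑π⁻¹ = c1 := by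
        rw [← hπ]
        funext z
        simp
      rwa [f2] at f1
    rw [e1, e2]
    rw [e6] at e5
    exact e5
  have hsq : ∀ η : Equiv.Perm (Fin n), ((sg p c0 η : ℤ) : ℂ) * ((sg p c0 η : ℤ) : ℂ) = 1 := by
    intro η
    rcases (hSb (Fin n) Z p c0).1 η with h1 | h1 <;> rw [h1] <;> norm_num
  -- (I)
  have hI : ∀ v : M n, Cl p S.seq c1 (cat h b c0) (S.smul.app h x (PP p (rp S.seq n) c0 v)) =
      Cl p S.seq c1 (cat h b c0) (S.smul.app h x v) := by
    intro v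
    have hcard : (((Finset.univ.filter fun η : Equiv.Perm (Fin n) => c0 ∘ η = c0).card : ℂ)) ≠ 0 := by
      have : (1 : Equiv.Perm (Fin n)) ∈
          (Finset.univ.filter fun η : Equiv.Perm (Fin n) => c0 ∘ η = c0) := by simp
      exact_mod_cast (Finset.card_pos.2 ⟨_, this⟩).ne'
    have e1 : S.smul.app h x (PP p (rp S.seq n) c0 v) =
        (((Finset.univ.filter fun η : Equiv.Perm (Fin n) => c0 ∘ η = c0).card : ℂ))⁻¹ •
        ∑ η ∈ Finset.univ.filter (fun η : Equiv.Perm (Fin n) => c0 ∘ η = c0),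
          ((sg p c0 η : ℤ) : ℂ) • S.seq.act m (blockSum h 1 η) (S.smul.app h x v) := by
      have e0 : S.smul.app h x (PP p (rp S.seq n) c0 v) = S.smulL h x (PP p (rp S.seq n) c0 v) := rfl
      rw [e0]
      unfold PP
      rw [LinearMap.smul_apply, map_smul, LinearMap.sum_apply, map_sum]
      congr 1
      refine Finset.sum_congr rfl fun η _ => ?_
      rw [LinearMap.smul_apply, map_smul]
      congr 1
      exact hx η v
    rw [e1, map_smul, map_sum]
    have e2 : ∀ η ∈ Finset.univ.filter (fun η : Equiv.Perm (Fin n) => c0 ∘ η = c0),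
        Cl p S.seq c1 (cat h b c0) (((sg p c0 η : ℤ) : ℂ) •
          S.seq.act m (blockSum h 1 η) (S.smul.app h x v)) =
        Cl p S.seq c1 (cat h b c0) (S.smul.app h x v) := by
      intro η hη
      rw [map_smul, hI0 η _ (Finset.mem_filter.1 hη).2, smul_smul, hsq, one_smul]
    rw [Finset.sum_congr rfl e2, Finset.sum_const, ← Nat.cast_smul_eq_nsmul ℂ, smul_smul,
      inv_mul_cancel₀ hcard, one_smul]
  have hfin : c1 ∘ ⇑(π * blockSum h 1 σ) = cat h b c := by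
    have : c1 ∘ ⇑(π * blockSum h 1 σ) = (c1 ∘ ⇑π) ∘ ⇑(blockSum h 1 σ) := rfl
    rw [this, hπ, ← (h9c p b c0 σ).1, hσ]
  obtain ⟨ε, hε, h10'⟩ := h10 M S.seq Z p m c1 (π * blockSum h 1 σ)
  refine ⟨ε, hε, fun v => ?_⟩
  have e1 : Cl p S.seq c0 c v = PP p (rp S.seq n) c0 (S.seq.act n σ v) := rfl
  rw [e1, hI, hx]
  have e2 : Cl p S.seq c1 (cat h b c0) (S.seq.act m (blockSum h 1 σ) (S.smul.app h x v)) =
      PP p (rp S.seq m) c1 (S.seq.act m π (S.seq.act m (blockSum h 1 σ) (S.smul.app h x v))) := rfl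
  rw [e2, ← S.seq.act_mul, h10', hfin]

end Pool.Agent.Work.MP_6da7fa_al.EG
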