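import Pool.Agent.Work.MP_6da7fa_al.EG.StmtsH

set_option autoImplicit false

namespace Pool.Agent.Work.MP_6da7fa_al.EG

theorem prH12 : StH12 := by
  intro h8 h10 M _ _ s Z _ _ p n c0 c τ hc
  have hσ : c0 ∘ ⇑(ch c0 c) = c := (h8 Z).2.1 n c0 c hc
  obtain ⟨ε, hε, h⟩ := h10 M s Z p n c0 (ch c0 c * τ)
  refine ⟨ε, hε, fun w => ?_⟩
  have h1 := h w
  have h2 : c0 ∘ ⇑(ch c0 c * τ) = c ∘ ⇑τ := by
    have : c0 ∘ ⇑(ch c0 c * τ) = (c0 ∘ ⇑(ch c0 c)) ∘ ⇑τ := rfl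
    rw [this, hσ]
  rw [h2, s.act_mul] at h1
  exact h1

end Pool.Agent.Work.MP_6da7fa_al.EG
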