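import Pool.Agent.Work.MP_6da7fa_al.EG.StmtsH

set_option autoImplicit false

namespace Pool.Agent.Work.MP_6da7fa_al.EG

theorem prH13 : StH13 := by
  intro A _ _ R M _ _ S
  refine ⟨?_, ?_, ?_, ?_⟩
  · intro a b n p q m h1 h2 h3 h4 h5 x x' v
    rw [← S.mul_smul (rfl : a + b = a + b) h5 h1 h2 x x' v,
      ← S.mul_smul (add_comm b a : b + a = a + b) (by omega) h3 h4 x' x v,
      R.comm (rfl : a + b = a + b) (add_comm b a) x x']
    have := S.smul.equivariant h5 (blockSwap (rfl : a + b = a + b)) 1
      (R.mul.app (add_comm b a : b + a = a + b) x' x) v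
    rwa [S.seq.act_one] at this
  · intro a n n' m h1 h2 h3 x v
    have e : n = n' := by omega
    subst e
    rw [S.one_smul]
  · intro a n m m' h1 h2 h3 x v
    have e : m = m' := by omega
    subst e
    rw [S.one_smul]
  · intro a n m h x τ v
    have := S.smul.equivariant h 1 τ x v
    rwa [R.seq.act_one] at this

end Pool.Agent.Work.MP_6da7fa_al.EG
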