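import Pool.Agent.Work.MP_6da7fa_al.EG.StmtsH

set_option autoImplicit false

namespace Pool.Agent.Work.MP_6da7fa_al.EG

theorem prH14 : StH14 := by
  intro h8 h9 h11 h12 h13 A _ _ R M _ _ S Z _ _ p d e x x' b b' t t1 t2 t3 k1 k2 k3 k4 e1 e2 e3 e4
  obtain ⟨h13a, h13b, h13c, h13d⟩ := h13 A R M S
  obtain ⟨h8a, h8b, h8c⟩ := h8 Z
  obtain ⟨ε1, hε1, hA⟩ := h11 A R M S Z p d _ _ k2 x b (cc t1) (cat k1 b' (cc t)) (cc t2)
    (by rw [(h9 Z _ _ _ k1).1, h8a, h8a, e1]) (by rw [(h9 Z _ _ _ k2).1, h8a, h8a, e2])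
  obtain ⟨ε3, hε3, hC⟩ := h11 A R M S Z p e _ _ k4 x' b' (cc t3) (cat k3 b (cc t)) (cc t2)
    (by rw [(h9 Z _ _ _ k3).1, h8a, h8a, e3]) (by rw [(h9 Z _ _ _ k4).1, h8a, h8a, e4])
  have k5 : d + e + ∑ z, t z = ∑ z, t2 z := by omega
  obtain ⟨ε2, hε2, hB⟩ := h12 M S.seq Z p _ (cc t2) (cat k2 b (cat k1 b' (cc t)))
    (blockSum k5 (blockSwap (rfl : d + e = d + e)) 1)
    (by rw [(h9 Z _ _ _ k2).1, (h9 Z _ _ _ k1).1, h8a, h8a, e1, e2])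
  have hsw : cat k2 b (cat k1 b' (cc t)) ∘ ⇑(blockSum k5 (blockSwap (rfl : d + e = d + e)) 1) =
      cat k4 b' (cat k3 b (cc t)) := (MB.append_swap k1 k2 k3 k4 k5 b b' (cc t)).symm
  refine ⟨ε1 * ε2 * ε3⁻¹, mul_ne_zero (mul_ne_zero hε1 hε2) (inv_ne_zero hε3), fun v => ?_⟩
  have hL : Top p S x b t1 t2 k2 (Top p S x' b' t t1 k1 v) =
      Cl p S.seq (cc t2) (cat k2 b (cc t1)) (S.smul.app k2 x
        (Cl p S.seq (cc t1) (cat k1 b' (cc t)) (S.smul.app k1 x' v))) := rfl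
  have hR : Top p S x' b' t3 t2 k4 (Top p S x b t t3 k3 v) =
      Cl p S.seq (cc t2) (cat k4 b' (cc t3)) (S.smul.app k4 x'
        (Cl p S.seq (cc t3) (cat k3 b (cc t)) (S.smul.app k3 x v))) := rfl
  rw [hL, hR, hA, hC, h13a d e _ _ _ _ k1 k2 k3 k4 k5 x x' v, hB, hsw, smul_smul, smul_smul]
  congr 1
  field_simp

end Pool.Agent.Work.MP_6da7fa_al.EG
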