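import Pool.Agent.Work.MP_6da7fa_al.EG.StmtsH

set_option autoImplicit false

namespace Pool.Agent.Work.MP_6da7fa_al.EG
namespace IH15

open Equiv

section
variable {A : ℕ → Type} [∀ n, AddCommGroup (A n)] [∀ n, Module ℂ (A n)] {R : TCA A}
  {M : ℕ → Type} [∀ n, AddCommGroup (M n)] [∀ n, Module ℂ (M n)] {Z : Type} [Fintype Z]
  [DecidableEq Z]

/-- the family of the proof -/
noncomputable def NF (p : Z → Bool) (S : TCAModule R M) (F : ∀ t : Z → ℕ, Submodule ℂ (M (∑ z, t z)))
    (n : ℕ) : Submodule ℂ (M n) where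
  carrier := {v | ∀ (t : Z → ℕ) (h : 0 + n = ∑ z, t z) (c : Fin (∑ z, t z) → Z), typ c = t →
    Cl p S.seq (cc t) c (S.smul.app h R.one v) ∈ F t}
  add_mem' := by
    intro v w hv hw t h c hc
    rw [S.smul.add_right, map_add]
    exact (F t).add_mem (hv t h c hc) (hw t h c hc)
  zero_mem' := by
    intro t h c hc
    have h0 : S.smul.app h R.one (0 : M n) = 0 := by
      have := S.smul.smul_right h 0 R.one (0 : M n)
      simpa using this
    rw [h0, map_zero]
    exact (F t).zero_mem
  smul_mem' := by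
    intro r v hv t h c hc
    rw [S.smul.smul_right, map_smul]
    exact (F t).smul_mem r (hv t h c hc)

theorem mem_NF {p : Z → Bool} {S : TCAModule R M} {F : ∀ t : Z → ℕ, Submodule ℂ (M (∑ z, t z))}
    {n : ℕ} {v : M n} : v ∈ NF p S F n ↔ ∀ (t : Z → ℕ) (h : 0 + n = ∑ z, t z)
      (c : Fin (∑ z, t z) → Z), typ c = t → Cl p S.seq (cc t) c (S.smul.app h R.one v) ∈ F t :=
  Iff.rfl

/-- the family `B` of the proof -/
noncomputable def BF (S : TCAModule R M) (N : ∀ n, Submodule ℂ (M n))
    (i : ℕ) : Submodule ℂ (A i) where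
  carrier := {a | ∀ (j k : ℕ) (h : i + j = k), ∀ z ∈ N j, S.smul.app h a z ∈ N k}
  add_mem' := by
    intro a b ha hb j k h z hz
    rw [S.smul.add_left]
    exact (N k).add_mem (ha j k h z hz) (hb j k h z hz)
  zero_mem' := by
    intro j k h z hz
    have h0 : S.smul.app h (0 : A i) z = 0 := by
      have := S.smul.smul_left h 0 (0 : A i) z
      simpa using this
    rw [h0]
    exact (N k).zero_mem
  smul_mem' := by
    intro r a ha j k h z hz
    rw [S.smul.smul_left]
    exact (N k).smul_mem r (ha j k h z hz)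

omit [Fintype Z] [DecidableEq Z] in
theorem cat_eq {n n' d m : ℕ} (h : d + n = m) (h' : d + n' = m) (e : 0 + n = n') (b : Fin d → Z)
    (c : Fin n → Z) : cat h' b (cat e Fin.elim0 c) = cat h b c := by
  have e' : n = n' := by omega
  subst e'
  congr 1
  funext x
  simp [cat]

end

end IH15

open IH15 in
theorem prH15 : StH15 := by
  intro hPp h8 h9 h10 h11 h12 h13 A _ _ R M _ _ S sA sM hA hM Z _ _ p F hF hG t
  obtain ⟨h13a, h13b, h13c, h13d⟩ := h13 A R M S
  obtain ⟨h8a, h8b, h8c⟩ := h8 Z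
  -- (a) stability under permutations
  have hact : ∀ (n : ℕ) (σ : Equiv.Perm (Fin n)), ∀ v ∈ NF p S F n, S.seq.act n σ v ∈ NF p S F n := by
    intro n σ v hv t h c hc
    rw [h13d]
    have hcc : typ c = typ (cc t) := by rw [hc, h8a]
    obtain ⟨ε, hε, h12'⟩ := h12 M S.seq Z p _ (cc t) c (blockSum h 1 σ) hcc
    rw [h12']
    exact (F t).smul_mem _ (hv t h _ (by rw [(h8c _ c).2, hc]))
  -- (b)
  have hB : ∀ n, BF S (NF p S F) n = (⊤ : Submodule ℂ (A n)) := by
    apply hA
    · rintro ⟨i, x⟩ hx j k h z hz t hk c hc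
      show Cl p S.seq (cc t) c (S.smul.app hk R.one (S.smul.app h x z)) ∈ F t
      have h' : i + j = k := h
      have h3 : i + j = ∑ z, t z := by omega
      rw [h13c i j k _ h' hk h3]
      obtain ⟨b, c', hcb⟩ := (h9 Z i j _ h3).2.1 c
      have ht' : 0 + j = ∑ z, typ c' z := by rw [(h8c j c').1, zero_add]
      have htc : typ (cat ht' Fin.elim0 c') = typ c' := by
        rw [(h9 Z 0 j _ ht').1]
        funext z
        simp [typ]
      have hv := hz (typ c') ht' (cat ht' Fin.elim0 c') htc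
      have h4 : i + ∑ z, typ c' z = ∑ z, t z := by omega
      have htt : typ b + typ c' = t := by
        rw [← hc, hcb, (h9 Z i j _ h3).1]
      have hT := hF ⟨i, x⟩ hx b (typ c') t h4 htt _ hv
      have hTop : Top p S x b (typ c') t h4
          (Cl p S.seq (cc (typ c')) (cat ht' Fin.elim0 c') (S.smul.app ht' R.one z)) =
        Cl p S.seq (cc t) (cat h4 b (cc (typ c'))) (S.smul.app h4 x
          (Cl p S.seq (cc (typ c')) (cat ht' Fin.elim0 c') (S.smul.app ht' R.one z))) := rfl
      rw [hTop] at hT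
      obtain ⟨ε, hε, h11'⟩ := h11 A R M S Z p i _ _ h4 x b (cc (typ c')) (cat ht' Fin.elim0 c') (cc t)
        (by rw [htc, h8a]) (by rw [(h9 Z i _ _ h4).1, h8a, h8a, htt])
      rw [h11', cat_eq h3 h4 ht', ← hcb, h13b i j _ _ ht' h4 h3] at hT
      have := (F t).smul_mem ε⁻¹ hT
      rwa [inv_smul_smul₀ hε] at this
    · intro j k h z hz t hk c hc
      have h3 : 0 + j = ∑ z, t z := by omega
      rw [h13c 0 j k _ h hk h3]
      exact hz t h3 c hc
    · intro n σ a ha j k h z hz
      have := S.smul.equivariant h σ 1 a z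
      rw [S.seq.act_one] at this
      rw [this]
      exact hact _ _ _ (ha j k h z hz)
    · intro i j k h a ha b hb l m hm z hz
      rw [S.mul_smul h hm (rfl : j + l = j + l) (by omega) a b z]
      exact ha _ _ _ _ (hb _ _ _ z hz)
  let N : SubMod S :=
    { carrier := NF p S F
      act_mem := hact
      smul_mem := by
        intro i j k h a x hx
        have : a ∈ BF S (NF p S F) i := by rw [hB]; trivial
        exact this j k h x hx }
  have hN := hM N (by
    rintro ⟨n, w⟩ hw t h c hc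
    obtain ⟨b0, b, hb⟩ := (h9 Z 0 n _ h).2.1 c
    have hb0 : b0 = Fin.elim0 := by funext x; exact x.elim0
    rw [hb0] at hb
    have htb : typ b = t := by
      rw [← hc, hb, (h9 Z 0 n _ h).1]
      funext z
      simp [typ]
    have := hG ⟨n, w⟩ hw b t h htb
    rw [hb]
    exact this)
  intro v hv
  have hv1 : v ∈ N.carrier (∑ z, t z) := by rw [hN]; trivial
  have hv2 := hv1 t (zero_add _) (cc t) (h8a t)
  rw [S.one_smul] at hv2
  obtain ⟨ε, hε, h10'⟩ := h10 M S.seq Z p _ (cc t) 1
  have h5 := h10' v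
  rw [S.seq.act_one] at h5
  have h6 : PP p (rp S.seq (∑ z, t z)) (cc t) v = v := (hPp _ _ _ p (rp S.seq _) (cc t)).1.map_id v hv
  rw [h6] at h5
  have h7 : (cc t ∘ ⇑(1 : Equiv.Perm (Fin (∑ z, t z)))) = cc t := rfl
  rw [h7] at h5
  rw [h5]
  exact (F t).smul_mem _ hv2

end Pool.Agent.Work.MP_6da7fa_al.EG
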