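import Pool.Agent.Work.MP_6da7fa_al.EG.StmtsH

set_option autoImplicit false

namespace Pool.Agent.Work.MP_6da7fa_al.EG

theorem prH16 : StH16 := by
  intro hPp hHt h7 h8 h14 h15 A _ _ R M _ _ S hR hS hfd Z _ _ p
  obtain ⟨sA, hsA⟩ := hR
  obtain ⟨sM, hsM⟩ := hS
  obtain ⟨h8a, h8b, h8c⟩ := h8 Z
  have := hfd
  let P : Type := Σ x : {x // x ∈ sA}, (Fin x.1.1 → Z)
  let Q : Type := Σ x : {x // x ∈ sM}, (Fin x.1.1 → Z)
  have : Finite P := inferInstance
  have : Finite Q := inferInstance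
  obtain ⟨r, ⟨e⟩⟩ := Finite.exists_equiv_fin P
  obtain ⟨q, ⟨f⟩⟩ := Finite.exists_equiv_fin Q
  let u : Fin r → Z → ℕ := fun i => typ (e.symm i).2
  let g : Fin q → Z → ℕ := fun j => typ (f.symm j).2
  have hsum : ∀ (n : ℕ) (b : Fin n → Z) (t t' : Z → ℕ), typ b + t = t' →
      n + ∑ z, t z = ∑ z, t' z := by
    intro n b t t' h
    have h1 := (h8c n b).1
    have h2 : ∑ z, (typ b + t) z = ∑ z, typ b z + ∑ z, t z := by
      simp [Finset.sum_add_distrib]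
    rw [← h, h2, h1]
  have hsum' : ∀ (n : ℕ) (b : Fin n → Z) (t : Z → ℕ), typ b = t → 0 + n = ∑ z, t z := by
    intro n b t h
    have h1 := (h8c n b).1
    rw [← h, h1, zero_add]
  let T : ∀ (i : Fin r) (t t' : Z → ℕ), u i + t = t' →
      (M (∑ z, t z) →ₗ[ℂ] M (∑ z, t' z)) := fun i t t' h =>
    Top p S (e.symm i).1.1.2 (e.symm i).2 t t' (hsum _ _ t t' h)
  let y : ∀ (j : Fin q) (t : Z → ℕ), g j = t → M (∑ z, t z) := fun j t h =>
    Gop p S (f.symm j).1.1.2 (f.symm j).2 t (hsum' _ _ t h)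
  have key := h7 Z r q u g (fun t => M (∑ z, t z)) T y
    (fun t => SI p (rp S.seq (∑ z, t z)) (cc t)) ?_ ?_ ?_ ?_
  · have he : (fun t : Z → ℕ => hT p (rp S.seq (∑ z, t z)) t) =
        fun t => Module.finrank ℂ (SI p (rp S.seq (∑ z, t z)) (cc t)) := by
      funext t
      have h1 := hHt.1 (Fin (∑ z, t z)) Z (M (∑ z, t z)) p (rp S.seq _) (cc t)
      rw [h8a] at h1
      exact h1
    rw [he]
    exact key
  · intro i j t t1 t2 t3 k1 k2 k3 k4
    exact h14 A R M S Z p _ _ (e.symm i).1.1.2 (e.symm j).1.1.2 (e.symm i).2 (e.symm j).2 t t1 t2 t3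
      (hsum _ _ _ _ k1) (hsum _ _ _ _ k2) (hsum _ _ _ _ k3) (hsum _ _ _ _ k4) k1 k2 k3 k4
  · intro j t h
    exact (hPp _ _ _ p (rp S.seq _) (cc t)).1.map_mem _
  · intro i t t' h v hv
    exact (hPp _ _ _ p (rp S.seq _) (cc t')).1.map_mem _
  · intro F hF1 hF2
    refine h15 A R M S sA sM hsA hsM Z p F ?_ ?_
    · intro x hx b t t' h ht v hv
      have h2 := hF2 (e ⟨⟨x, hx⟩, b⟩) t t' (by
        show typ (e.symm (e ⟨⟨x, hx⟩, b⟩)).2 + t = t'
        rw [Equiv.symm_apply_apply]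
        exact ht) v hv
      have h3 : ∀ (w : P) (hw : typ w.2 + t = t'), w = ⟨⟨x, hx⟩, b⟩ →
          Top p S w.1.1.2 w.2 t t' (hsum _ _ t t' hw) v = Top p S x.2 b t t' h v := by
        rintro w hw rfl
        rfl
      have h4 := h3 (e.symm (e ⟨⟨x, hx⟩, b⟩)) (by rw [Equiv.symm_apply_apply]; exact ht)
        (Equiv.symm_apply_apply _ _)
      rw [← h4]
      exact h2
    · intro w hw b t h ht
      have h2 := hF1 (f ⟨⟨w, hw⟩, b⟩) t (by
        show typ (f.symm (f ⟨⟨w, hw⟩, b⟩)).2 = t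
        rw [Equiv.symm_apply_apply]
        exact ht)
      have h3 : ∀ (w' : Q) (hw' : typ w'.2 = t), w' = ⟨⟨w, hw⟩, b⟩ →
          Gop p S w'.1.1.2 w'.2 t (hsum' _ _ t hw') = Gop p S w.2 b t h := by
        rintro w' hw' rfl
        rfl
      have h4 := h3 (f.symm (f ⟨⟨w, hw⟩, b⟩)) (by rw [Equiv.symm_apply_apply]; exact ht)
        (Equiv.symm_apply_apply _ _)
      rw [← h4]
      exact h2

end Pool.Agent.Work.MP_6da7fa_al.EG
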