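import Pool.Agent.Work.MP_6da7fa_al.EG.StmtsH

set_option autoImplicit false

namespace Pool.Agent.Work.MP_6da7fa_al.EG

open Pool.Agent.Work.MP_6da7fa_al.MB (cone)

theorem prH2 : StH2 := by
  classical
  intro Z _ r g u k0 J hJ
  let e : {x // x ∈ J} ≃ Fin J.card := J.equivFin
  let ex : (Fin J.card → ℕ) → Fin r → ℕ := fun m i =>
    k0 i + (if h : i ∈ J then m (e ⟨i, h⟩) else 0)
  have haff : ∀ m : Fin J.card → ℕ,
      aff g u (ex m) = aff (aff g u k0) (fun j => u (e.symm j).1) m := by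
    intro m
    funext z
    show g z + ∑ i, (k0 i + (if h : i ∈ J then m (e ⟨i, h⟩) else 0)) * u i z =
      (g z + ∑ i, k0 i * u i z) + ∑ j, m j * u (e.symm j).1 z
    have h1 : ∑ i, (k0 i + (if h : i ∈ J then m (e ⟨i, h⟩) else 0)) * u i z =
        ∑ i, k0 i * u i z + ∑ i, (if h : i ∈ J then m (e ⟨i, h⟩) else 0) * u i z := by
      rw [← Finset.sum_add_distrib]
      exact Finset.sum_congr rfl fun i _ => add_mul _ _ _
    have h2 : ∑ i, (if h : i ∈ J then m (e ⟨i, h⟩) else 0) * u i z =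
        ∑ j, m j * u (e.symm j).1 z := by
      have h3 : ∑ j, m j * u (e.symm j).1 z = ∑ x : {x // x ∈ J}, m (e x) * u x.1 z := by
        rw [← Equiv.sum_comp e]
        simp
      rw [h3]
      have h4 : ∑ i, (if h : i ∈ J then m (e ⟨i, h⟩) else 0) * u i z =
          ∑ i ∈ J, (if h : i ∈ J then m (e ⟨i, h⟩) else 0) * u i z := by
        refine (Finset.sum_subset (Finset.subset_univ J) ?_).symm
        intro i _ hi
        rw [dif_neg hi, zero_mul]
      rw [h4, ← Finset.sum_coe_sort]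
      refine Finset.sum_congr rfl fun x _ => ?_
      rw [dif_pos x.2]
    rw [h1, h2]
    omega
  refine ⟨Unit, inferInstance, fun _ => J.card, fun _ => aff g u k0, fun _ j => u (e.symm j).1,
    fun _ j => hJ _ (e.symm j).2, fun t => ?_⟩
  rw [Finset.univ_unique, Finset.sum_singleton]
  refine Nat.card_congr
    { toFun := fun k => ⟨fun j => k.1 (e.symm j).1 - k0 (e.symm j).1, ?_⟩
      invFun := fun m => ⟨ex m.1, ⟨⟨fun i => Nat.le_add_right _ _, fun i hi => ?_⟩, ?_⟩⟩
      left_inv := ?_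
      right_inv := ?_ }
  · rw [← haff]
    refine Eq.trans ?_ k.2.2
    congr 1
    funext i
    show k0 i + (if h : i ∈ J then k.1 (e.symm (e ⟨i, h⟩)).1 - k0 (e.symm (e ⟨i, h⟩)).1 else 0) = _
    by_cases h : i ∈ J
    · rw [dif_pos h, Equiv.symm_apply_apply]
      have := k.2.1.1 i
      show k0 i + (k.1 i - k0 i) = k.1 i
      omega
    · rw [dif_neg h, add_zero, k.2.1.2 i h]
  · show k0 i + (if h : i ∈ J then m.1 (e ⟨i, h⟩) else 0) = k0 i
    rw [dif_neg hi, add_zero]
  · rw [haff]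
    exact m.2
  · intro k
    apply Subtype.ext
    funext i
    show k0 i + (if h : i ∈ J then k.1 (e.symm (e ⟨i, h⟩)).1 - k0 (e.symm (e ⟨i, h⟩)).1 else 0) = _
    by_cases h : i ∈ J
    · rw [dif_pos h, Equiv.symm_apply_apply]
      have := k.2.1.1 i
      show k0 i + (k.1 i - k0 i) = k.1 i
      omega
    · rw [dif_neg h, add_zero, k.2.1.2 i h]
  · intro m
    apply Subtype.ext
    funext j
    show k0 (e.symm j).1 + (if h : (e.symm j).1 ∈ J then m.1 (e ⟨(e.symm j).1, h⟩) else 0) -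
      k0 (e.symm j).1 = m.1 j
    rw [dif_pos (e.symm j).2]
    simp

end Pool.Agent.Work.MP_6da7fa_al.EG
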