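import Pool.Agent.Work.MP_6da7fa_al.EG.StmtsH

set_option autoImplicit false

namespace Pool.Agent.Work.MP_6da7fa_al.EG

open Pool.Agent.Work.MP_6da7fa_al.MB (cone)

theorem prH3 : StH3 := by
  classical
  intro hDec h1 h2 Z _ r g u U hU hfin
  have key := hDec r U {S | (∀ t, {k : Fin r → ℕ | k ∈ S ∧ aff g u k = t}.Finite) ∧
    HSf (fun t => Nat.card {k : Fin r → ℕ // k ∈ S ∧ aff g u k = t})} hU ?_ ?_ ?_
  · exact key.2
  · refine ⟨fun t => ?_, ?_⟩
    · have : {k : Fin r → ℕ | k ∈ (∅ : Set (Fin r → ℕ)) ∧ aff g u k = t} = ∅ := by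
        ext k; simp
      rw [this]
      exact Set.finite_empty
    · have : (fun t => Nat.card {k : Fin r → ℕ // k ∈ (∅ : Set (Fin r → ℕ)) ∧ aff g u k = t}) =
          fun _ => 0 := by
        funext t
        have : IsEmpty {k : Fin r → ℕ // k ∈ (∅ : Set (Fin r → ℕ)) ∧ aff g u k = t} :=
          ⟨fun k => k.2.1⟩
        exact Nat.card_of_isEmpty
      rw [this]
      exact (h1 Z).1
  · rintro S ⟨hS1, hS2⟩ T ⟨hT1, hT2⟩ hd
    have hun : ∀ t, {k : Fin r → ℕ | k ∈ S ∪ T ∧ aff g u k = t} =
        {k : Fin r → ℕ | k ∈ S ∧ aff g u k = t} ∪ {k : Fin r → ℕ | k ∈ T ∧ aff g u k = t} := by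
      intro t
      ext k
      simp only [Set.mem_ofPred_eq, Set.mem_union]
      tauto
    refine ⟨fun t => ?_, ?_⟩
    · rw [hun]
      exact (hS1 t).union (hT1 t)
    · have : (fun t => Nat.card {k : Fin r → ℕ // k ∈ S ∪ T ∧ aff g u k = t}) =
          fun t => Nat.card {k : Fin r → ℕ // k ∈ S ∧ aff g u k = t} +
            Nat.card {k : Fin r → ℕ // k ∈ T ∧ aff g u k = t} := by
        funext t
        have e1 : Nat.card {k : Fin r → ℕ // k ∈ S ∪ T ∧ aff g u k = t} =
            {k : Fin r → ℕ | k ∈ S ∪ T ∧ aff g u k = t}.ncard := rfl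
        have e2 : Nat.card {k : Fin r → ℕ // k ∈ S ∧ aff g u k = t} =
            {k : Fin r → ℕ | k ∈ S ∧ aff g u k = t}.ncard := rfl
        have e3 : Nat.card {k : Fin r → ℕ // k ∈ T ∧ aff g u k = t} =
            {k : Fin r → ℕ | k ∈ T ∧ aff g u k = t}.ncard := rfl
        rw [e1, e2, e3, hun]
        refine Set.ncard_union_eq ?_ (hS1 t) (hT1 t)
        rw [Set.disjoint_left]
        rintro k ⟨hk, _⟩ ⟨hk', _⟩
        exact Set.disjoint_left.1 hd hk hk'
      rw [this]
      exact (h1 Z).2.1 _ _ hS2 hT2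
  · intro k0 J hdis
    refine ⟨0, fun i _ => rfl, ?_⟩
    rw [add_zero]
    have hsub : ∀ k ∈ cone k0 J, k ∉ U := fun k hk hk' => Set.disjoint_left.1 hdis hk hk'
    refine ⟨fun t => (hfin t).subset ?_, h2 Z r g u k0 J ?_⟩
    · rintro k ⟨hk, ht⟩
      exact ⟨hsub k hk, ht⟩
    · intro i hi h0
      have hinf : {k : Fin r → ℕ | k ∉ U ∧ aff g u k = aff g u k0}.Infinite := by
        refine Set.infinite_of_injective_forall_mem
          (f := fun n : ℕ => k0 + Pi.single i n) ?_ ?_
        · intro a b hab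
          have := congrFun hab i
          simpa using this
        · intro n
          refine ⟨hsub _ ⟨fun i' => ?_, fun i' hi' => ?_⟩, ?_⟩
          · exact Nat.le_add_right _ _
          · have : i' ≠ i := fun h => hi' (h ▸ hi)
            simp [this]
          · funext z
            show g z + ∑ k, (k0 + Pi.single i n : Fin r → ℕ) k * u k z = g z + ∑ k, k0 k * u k z
            congr 1
            refine Finset.sum_congr rfl fun k _ => ?_
            by_cases hk : k = i
            · subst hk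
              rw [h0]
              simp
            · simp [hk]
      exact hinf (hfin _)

end Pool.Agent.Work.MP_6da7fa_al.EG
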