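import Pool.Agent.Work.MP_6da7fa_al.EG.StmtsH

set_option autoImplicit false

/-!
# Item H4: the elements that are not in the span of the smaller ones
-/

namespace Pool.Agent.Work.MP_6da7fa_al.EG

namespace IH4

theorem trans {I : Type} {lt : I → I → Prop} (hwf : WellFounded lt)
    (htri : ∀ a b, lt a b ∨ a = b ∨ lt b a) (a b c : I) (h1 : lt a b) (h2 : lt b c) : lt a c := by
  rcases htri a c with h | h | h
  · exact h
  · subst h
    exact absurd h2 (hwf.asymmetric a b h1)
  · exfalso
    obtain ⟨m, hm, hmin⟩ := hwf.has_min {a, b, c} ⟨a, by simp⟩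
    rcases hm with rfl | rfl | rfl
    · exact hmin c (by simp) h
    · exact hmin a (by simp) h1
    · exact hmin b (by simp) h2

theorem exmax {J : Type} {lt : J → J → Prop} (htr : ∀ a b c, lt a b → lt b c → lt a c)
    (htri : ∀ a b, lt a b ∨ a = b ∨ lt b a) (t : Finset J) : t.Nonempty →
    ∃ m ∈ t, ∀ j ∈ t, j ≠ m → lt j m := by
  classical
  induction t using Finset.induction_on with
  | empty => intro h; exact absurd h Finset.not_nonempty_empty
  | insert a t ha ih =>
    intro _
    rcases t.eq_empty_or_nonempty with h | h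
    · subst h
      refine ⟨a, by simp, ?_⟩
      intro j hj hja
      exact absurd (by simpa using hj) hja
    · obtain ⟨m, hm, hmax⟩ := ih h
      rcases htri a m with h1 | h1 | h1
      · refine ⟨m, Finset.mem_insert_of_mem hm, ?_⟩
        intro j hj hjm
        rcases Finset.mem_insert.1 hj with h2 | h2
        · rw [h2]
          exact h1
        · exact hmax j h2 hjm
      · refine ⟨m, Finset.mem_insert_of_mem hm, ?_⟩
        intro j hj hjm
        rcases Finset.mem_insert.1 hj with h2 | h2
        · exact absurd (h2.trans h1) hjm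
        · exact hmax j h2 hjm
      · refine ⟨a, Finset.mem_insert_self a t, ?_⟩
        intro j hj hja
        rcases Finset.mem_insert.1 hj with h2 | h2
        · exact absurd h2 hja
        · by_cases h3 : j = m
          · rw [h3]
            exact h1
          · exact htr j m a (hmax j h2 h3) h1

end IH4

theorem prH4 : StH4 := by
  intro V I _ _ _ lt x hwf htri
  classical
  have htr := IH4.trans hwf htri
  obtain ⟨B, hB⟩ : ∃ B : Set I, B = {i : I | x i ∉ Submodule.span ℂ {v | ∃ i', lt i' i ∧ v = x i'}} :=
    ⟨_, rfl⟩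
  have hmem : ∀ i, i ∈ B ↔ x i ∉ Submodule.span ℂ {v | ∃ i', lt i' i ∧ v = x i'} := by
    intro i
    rw [hB]
    exact Iff.rfl
  -- (1) linear independence
  have hli : LinearIndependent ℂ (fun i : B => x i) := by
    rw [linearIndependent_iff']
    intro s g hg i hi
    by_contra hne
    obtain ⟨m, hm, hmax⟩ := IH4.exmax (J := B) (lt := fun a b => lt a b)
      (fun a b c h1 h2 => htr a b c h1 h2)
      (fun a b => by
        rcases htri a b with h | h | h
        · exact Or.inl h
        · exact Or.inr (Or.inl (Subtype.ext h))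
        · exact Or.inr (Or.inr h)) (s.filter fun j => g j ≠ 0)
      ⟨i, Finset.mem_filter.2 ⟨hi, hne⟩⟩
    rw [Finset.mem_filter] at hm
    have hmB := (hmem m).1 m.2
    apply hmB
    have h1 : g m • x m + ∑ j ∈ s.erase m, g j • x j = 0 := by
      rw [Finset.add_sum_erase s (fun j : B => g j • x j) hm.1]
      exact hg
    have h2 : x m = -((g m)⁻¹ • ∑ j ∈ s.erase m, g j • x j) := by
      have h3 : g m • x m = -∑ j ∈ s.erase m, g j • x j := eq_neg_of_add_eq_zero_left h1
      rw [← smul_neg, ← h3, smul_smul, inv_mul_cancel₀ hm.2, one_smul]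
    rw [h2]
    refine Submodule.neg_mem _ (Submodule.smul_mem _ _ (Submodule.sum_mem _ fun j hj => ?_))
    rw [Finset.mem_erase] at hj
    by_cases h4 : g j = 0
    · rw [h4, zero_smul]
      exact Submodule.zero_mem _
    · refine Submodule.smul_mem _ _ (Submodule.subset_span ⟨j, ?_, rfl⟩)
      exact hmax j (Finset.mem_filter.2 ⟨hj.2, h4⟩) hj.1
  -- (2) the span
  have hspan : Submodule.span ℂ (Set.range fun i : B => x i) = Submodule.span ℂ (Set.range x) := by
    apply le_antisymm
    · apply Submodule.span_mono
      rintro _ ⟨i, rfl⟩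
      exact ⟨i, rfl⟩
    · rw [Submodule.span_le]
      rintro _ ⟨i, rfl⟩
      induction i using hwf.induction with
      | _ i ih =>
        by_cases h : i ∈ B
        · exact Submodule.subset_span ⟨⟨i, h⟩, rfl⟩
        · rw [hmem, not_not] at h
          refine (Submodule.span_le.2 ?_) h
          rintro _ ⟨i', hi', rfl⟩
          exact ih i' hi'
  have hfin : Finite B := hli.finite
  have hfin' : B.Finite := Set.toFinite B
  refine ⟨?_, ?_⟩
  · rw [← hB]
    exact hfin'
  · have h1 : Nat.card {i : I // x i ∉ Submodule.span ℂ {v | ∃ i', lt i' i ∧ v = x i'}} =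
        Nat.card B := by
      rw [hB]
      rfl
    rw [h1, ← hspan]
    have : Fintype B := Fintype.ofFinite B
    rw [finrank_span_eq_card hli, Nat.card_eq_fintype_card]

end Pool.Agent.Work.MP_6da7fa_al.EG
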