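import Pool.Agent.Work.MP_6da7fa_al.EG.StmtsH

set_option autoImplicit false

namespace Pool.Agent.Work.MP_6da7fa_al.EG

open Pool.Agent.Work.MP_6da7fa_al.MB (tlt)

namespace IH5

section
variable {Z : Type} {r p : ℕ} {u : Fin r → Z → ℕ} {g : Fin p → Z → ℕ} {W : (Z → ℕ) → Type}
  [∀ t, AddCommGroup (W t)] [∀ t, Module ℂ (W t)]

/-- the span of the smaller elements of the same degree -/
def sm (X : ∀ (m : Fin r → ℕ) (j : Fin p) (t : Z → ℕ), aff (g j) u m = t → W t)
    (m : Fin r → ℕ) (j : Fin p) (t : Z → ℕ) : Submodule ℂ (W t) :=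
  Submodule.span ℂ {v | ∃ (m' : Fin r → ℕ) (j' : Fin p) (h : aff (g j') u m' = t),
    tlt (m', j') (m, j) ∧ v = X m' j' t h}

/-- not standard -/
def ns (X : ∀ (m : Fin r → ℕ) (j : Fin p) (t : Z → ℕ), aff (g j) u m = t → W t)
    (j : Fin p) : Set (Fin r → ℕ) := {m | X m j _ rfl ∈ sm X m j (aff (g j) u m)}

theorem ns_iff (X : ∀ (m : Fin r → ℕ) (j : Fin p) (t : Z → ℕ), aff (g j) u m = t → W t)
    (m : Fin r → ℕ) (j : Fin p) (t : Z → ℕ) (h : aff (g j) u m = t) :
    m ∈ ns X j ↔ X m j t h ∈ sm X m j t := by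
  subst h
  rfl

theorem aff_single (j : Fin p) (m : Fin r → ℕ) (i : Fin r) :
    aff (g j) u (m + Pi.single i 1) = u i + aff (g j) u m := by
  funext z
  show g j z + ∑ k, (m + Pi.single i 1 : Fin r → ℕ) k * u k z = u i z + (g j z + ∑ k, m k * u k z)
  have : ∀ k, (m + Pi.single i 1 : Fin r → ℕ) k * u k z = m k * u k z + (if k = i then u i z else 0) := by
    intro k
    by_cases h : k = i
    · subst h; simp [add_mul]
    · simp [h]
  simp only [this, Finset.sum_add_distrib, Finset.sum_ite_eq', Finset.mem_univ, if_true]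
  omega

theorem step (hord : MB.StOrd)
    (T : ∀ (i : Fin r) (t t' : Z → ℕ), u i + t = t' → (W t →ₗ[ℂ] W t'))
    (X : ∀ (m : Fin r → ℕ) (j : Fin p) (t : Z → ℕ), aff (g j) u m = t → W t)
    (hT : ∀ (i : Fin r) (m : Fin r → ℕ) (j : Fin p) (t t' : Z → ℕ) (h : aff (g j) u m = t)
      (h' : u i + t = t') (h'' : aff (g j) u (m + Pi.single i 1) = t'),
      ∃ ε : ℂ, ε ≠ 0 ∧ T i t t' h' (X m j t h) = ε • X (m + Pi.single i 1) j t' h'')
    (j : Fin p) (m : Fin r → ℕ) (i : Fin r) (hm : m ∈ ns X j) : m + Pi.single i 1 ∈ ns X j := by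
  have htr := (hord r p).2.2
  have h' : u i + aff (g j) u m = aff (g j) u (m + Pi.single i 1) := (aff_single j m i).symm
  have h1 : T i _ _ h' (X m j _ rfl) ∈ sm X (m + Pi.single i 1) j (aff (g j) u (m + Pi.single i 1)) := by
    have h2 : T i _ _ h' (X m j _ rfl) ∈ (sm X m j (aff (g j) u m)).map (T i _ _ h') :=
      Submodule.mem_map_of_mem hm
    refine (?_ : (sm X m j (aff (g j) u m)).map (T i _ _ h') ≤ _) h2
    unfold sm
    rw [Submodule.map_span, Submodule.span_le]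
    rintro _ ⟨v, ⟨m', j', hd, hlt, rfl⟩, rfl⟩
    have hd' : aff (g j') u (m' + Pi.single i 1) = aff (g j) u (m + Pi.single i 1) := by
      rw [aff_single, aff_single, hd]
    obtain ⟨ε, hε, hTe⟩ := hT i m' j' _ _ hd h' hd'
    rw [hTe]
    refine Submodule.smul_mem _ _ (Submodule.subset_span ?_)
    exact ⟨m' + Pi.single i 1, j', hd', htr (m', j') (m, j) (Pi.single i 1) hlt, rfl⟩
  obtain ⟨ε, hε, hTe⟩ := hT i m j _ _ rfl h' rfl
  rw [hTe] at h1
  have h2 := Submodule.smul_mem _ ε⁻¹ h1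
  rw [inv_smul_smul₀ hε] at h2
  exact h2

theorem up (hord : MB.StOrd)
    (T : ∀ (i : Fin r) (t t' : Z → ℕ), u i + t = t' → (W t →ₗ[ℂ] W t'))
    (X : ∀ (m : Fin r → ℕ) (j : Fin p) (t : Z → ℕ), aff (g j) u m = t → W t)
    (hT : ∀ (i : Fin r) (m : Fin r → ℕ) (j : Fin p) (t t' : Z → ℕ) (h : aff (g j) u m = t)
      (h' : u i + t = t') (h'' : aff (g j) u (m + Pi.single i 1) = t'),
      ∃ ε : ℂ, ε ≠ 0 ∧ T i t t' h' (X m j t h) = ε • X (m + Pi.single i 1) j t' h'')
    (j : Fin p) : ∀ (n : ℕ) (l : Fin r → ℕ), ∑ i, l i = n → ∀ m ∈ ns X j, m + l ∈ ns X j := by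
  intro n
  induction n with
  | zero =>
    intro l hl m hm
    have : l = 0 := by
      funext i
      exact (Finset.sum_eq_zero_iff.1 hl) i (Finset.mem_univ _)
    rw [this, add_zero]
    exact hm
  | succ n ih =>
    intro l hl m hm
    have : ∃ i, l i ≠ 0 := by
      by_contra h
      push Not at h
      have : ∑ i, l i = 0 := Finset.sum_eq_zero fun i _ => h i
      omega
    obtain ⟨i, hi⟩ := this
    have hl' : l = Function.update l i (l i - 1) + Pi.single i 1 := by
      funext k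
      by_cases h : k = i
      · subst h
        simp
        omega
      · simp [h]
    have hs : ∑ k, Function.update l i (l i - 1) k = n := by
      have h1 : ∑ k, l k = ∑ k, Function.update l i (l i - 1) k + 1 := by
        conv_lhs => rw [hl']
        simp [Finset.sum_add_distrib]
      omega
    rw [hl', ← add_assoc]
    exact step hord T X hT j _ i (ih _ hs m hm)

end
end IH5

open IH5 in
theorem prH5 : StH5 := by
  classical
  intro hord h1 h3 h4 Z _ r p u g W _ _ _ T X hT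
  obtain ⟨hwf, htri, htr⟩ := hord r p
  -- the finite sets of standard monomials in a fixed degree
  let I : (Z → ℕ) → Type := fun t => {s : (Fin r → ℕ) × Fin p // aff (g s.2) u s.1 = t}
  let x : ∀ t, I t → W t := fun t s => X s.1.1 s.1.2 t s.2
  let lt : ∀ t, I t → I t → Prop := fun t a b => tlt a.1 b.1
  have hst : ∀ t (s : I t), x t s ∉ Submodule.span ℂ {v | ∃ i', lt t i' s ∧ v = x t i'} ↔
      s.1.1 ∉ ns X s.1.2 := by
    intro t s
    rw [ns_iff X s.1.1 s.1.2 t s.2]
    have : ({v | ∃ i', lt t i' s ∧ v = x t i'} : Set (W t)) =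
        {v | ∃ (m' : Fin r → ℕ) (j' : Fin p) (h : aff (g j') u m' = t),
          tlt (m', j') (s.1.1, s.1.2) ∧ v = X m' j' t h} := by
      ext v
      constructor
      · rintro ⟨i', hlt, hv⟩
        exact ⟨i'.1.1, i'.1.2, i'.2, hlt, hv⟩
      · rintro ⟨m', j', h, hlt, hv⟩
        exact ⟨⟨(m', j'), h⟩, hlt, hv⟩
    rw [this]
    rfl
  have h4' : ∀ t, {s : I t | s.1.1 ∉ ns X s.1.2}.Finite ∧
      Nat.card {s : I t // s.1.1 ∉ ns X s.1.2} =
        Module.finrank ℂ (Submodule.span ℂ {v : W t | ∃ m j h, v = X m j t h}) := by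
    intro t
    have key := h4 (W t) (I t) (lt t) (x t) (InvImage.wf (fun a : I t => a.1) hwf) (by
      intro a b
      rcases htri a.1 b.1 with h | h | h
      · exact Or.inl h
      · exact Or.inr (Or.inl (Subtype.ext h))
      · exact Or.inr (Or.inr h))
    have e1 : ({s : I t | x t s ∉ Submodule.span ℂ {v | ∃ i', lt t i' s ∧ v = x t i'}} : Set (I t)) =
        {s : I t | s.1.1 ∉ ns X s.1.2} := by
      ext s
      exact hst t s
    have e2 : Set.range (x t) = {v : W t | ∃ m j h, v = X m j t h} := by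
      ext v
      constructor
      · rintro ⟨s, rfl⟩
        exact ⟨s.1.1, s.1.2, s.2, rfl⟩
      · rintro ⟨m, j, h, rfl⟩
        exact ⟨⟨(m, j), h⟩, rfl⟩
    rw [e1, e2] at key
    refine ⟨key.1, ?_⟩
    rw [← key.2]
    exact Nat.card_congr (Equiv.subtypeEquivRight fun s => (hst t s).symm)
  have hfin : ∀ (j : Fin p) (t : Z → ℕ), {k : Fin r → ℕ | k ∉ ns X j ∧ aff (g j) u k = t}.Finite := by
    intro j t
    have h5 := ((h4' t).1).image (fun s : I t => s.1.1)
    refine h5.subset ?_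
    rintro k ⟨hk, ht⟩
    exact ⟨⟨(k, j), ht⟩, hk, rfl⟩
  have hcard : ∀ t, Module.finrank ℂ (Submodule.span ℂ {v : W t | ∃ m j h, v = X m j t h}) =
      ∑ j, Nat.card {k : Fin r → ℕ // k ∉ ns X j ∧ aff (g j) u k = t} := by
    intro t
    rw [← (h4' t).2]
    have hf : ∀ j : Fin p, Finite {k : Fin r → ℕ // k ∉ ns X j ∧ aff (g j) u k = t} :=
      fun j => (hfin j t).to_subtype
    rw [← Nat.card_sigma]
    refine Nat.card_congr
      { toFun := fun s => ⟨s.1.1.2, ⟨s.1.1.1, s.2, s.1.2⟩⟩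
        invFun := fun s => ⟨⟨(s.2.1, s.1), s.2.2.2⟩, s.2.2.1⟩
        left_inv := fun s => rfl
        right_inv := fun s => rfl }
  have he : (fun t => Module.finrank ℂ (Submodule.span ℂ {v : W t | ∃ m j h, v = X m j t h})) =
      fun t => ∑ j, Nat.card {k : Fin r → ℕ // k ∉ ns X j ∧ aff (g j) u k = t} := funext hcard
  rw [he]
  exact (h1 Z).2.2 p _ (fun j => h3 Z r (g j) u (ns X j)
    (fun k l hk => up hord T X hT j _ l rfl k hk) (hfin j))

end Pool.Agent.Work.MP_6da7fa_al.EG
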