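import Pool.Agent.Work.MP_6da7fa_al.EG.StmtsH

set_option autoImplicit false

namespace Pool.Agent.Work.MP_6da7fa_al.EG
namespace IH6

section
variable {Z : Type} {r p : ℕ}

/-- degree of a word -/
def dg (u : Fin r → Z → ℕ) (g : Fin p → Z → ℕ) (j : Fin p) : List (Fin r) → Z → ℕ
  | [] => g j
  | i :: w => u i + dg u g j w

variable {u : Fin r → Z → ℕ} {g : Fin p → Z → ℕ} {W : (Z → ℕ) → Type}
  [∀ t, AddCommGroup (W t)] [∀ t, Module ℂ (W t)]

/-- word monomial -/
def mo (T : ∀ (i : Fin r) (t t' : Z → ℕ), u i + t = t' → (W t →ₗ[ℂ] W t'))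
    (y : ∀ (j : Fin p) (t : Z → ℕ), g j = t → W t) (j : Fin p) :
    ∀ (w : List (Fin r)) (t : Z → ℕ), dg u g j w = t → W t
  | [], t, h => y j t h
  | i :: w, t, h => T i (dg u g j w) t h (mo T y j w _ rfl)

theorem mo_A (T : ∀ (i : Fin r) (t t' : Z → ℕ), u i + t = t' → (W t →ₗ[ℂ] W t'))
    (y : ∀ (j : Fin p) (t : Z → ℕ), g j = t → W t) (j : Fin p) (i : Fin r) (w : List (Fin r))
    (t t1 t2 : Z → ℕ) (h1 : u i + t1 = t) (h2 : u i + t2 = t) (e1 : dg u g j w = t1)
    (e2 : dg u g j w = t2) :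
    T i t1 t h1 (mo T y j w t1 e1) = T i t2 t h2 (mo T y j w t2 e2) := by
  subst e1
  subst e2
  rfl

theorem dg_perm (j : Fin p) {w w' : List (Fin r)} (h : w.Perm w') : dg u g j w = dg u g j w' := by
  induction h with
  | nil => rfl
  | cons x _ ih => show u x + _ = u x + _; rw [ih]
  | swap x y l =>
    show u y + (u x + _) = u x + (u y + _)
    rw [← add_assoc, ← add_assoc, add_comm (u y)]
  | trans _ _ ih1 ih2 => exact ih1.trans ih2

theorem mo_B (T : ∀ (i : Fin r) (t t' : Z → ℕ), u i + t = t' → (W t →ₗ[ℂ] W t'))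
    (y : ∀ (j : Fin p) (t : Z → ℕ), g j = t → W t)
    (hcomm : ∀ (i j : Fin r) (t t1 t2 t3 : Z → ℕ) (h1 : u j + t = t1) (h2 : u i + t1 = t2)
      (h3 : u i + t = t3) (h4 : u j + t3 = t2), ∃ ε : ℂ, ε ≠ 0 ∧ ∀ v,
      T i t1 t2 h2 (T j t t1 h1 v) = ε • T j t3 t2 h4 (T i t t3 h3 v))
    (j : Fin p) {w w' : List (Fin r)} (h : w.Perm w') :
    ∃ ε : ℂ, ε ≠ 0 ∧ ∀ (t : Z → ℕ) (h1 : dg u g j w = t) (h2 : dg u g j w' = t),
      mo T y j w t h1 = ε • mo T y j w' t h2 := by
  induction h with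
  | nil => exact ⟨1, one_ne_zero, fun t h1 h2 => by rw [one_smul]⟩
  | @cons x l1 l2 hp ih =>
    obtain ⟨ε, hε, ih⟩ := ih
    refine ⟨ε, hε, fun t h1 h2 => ?_⟩
    have e : dg u g j l2 = dg u g j l1 := (dg_perm j hp).symm
    show T x (dg u g j l1) t h1 (mo T y j l1 _ rfl) = ε • T x (dg u g j l2) t h2 (mo T y j l2 _ rfl)
    rw [ih _ rfl e, map_smul]
    congr 1
    exact mo_A T y j x l2 t _ _ h1 h2 e rfl
  | swap a b l =>
    obtain ⟨ε, hε, hc⟩ := hcomm b a (dg u g j l) (u a + dg u g j l) (u b + (u a + dg u g j l))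
      (u b + dg u g j l) rfl rfl rfl (by rw [← add_assoc, ← add_assoc, add_comm (u a)])
    refine ⟨ε, hε, fun t h1 h2 => ?_⟩
    subst h1
    exact hc _
  | @trans l1 l2 l3 hp1 hp2 ih1 ih2 =>
    obtain ⟨ε1, hε1, ih1⟩ := ih1
    obtain ⟨ε2, hε2, ih2⟩ := ih2
    refine ⟨ε1 * ε2, mul_ne_zero hε1 hε2, fun t h1 h2 => ?_⟩
    rw [ih1 t h1 ((dg_perm j hp2).trans h2), ih2 t _ h2, smul_smul]

theorem dg_eq (j : Fin p) (w : List (Fin r)) : dg u g j w = aff (g j) u (fun i => w.count i) := by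
  induction w with
  | nil =>
    funext z
    show g j z = g j z + _
    simp
  | cons a w ih =>
    funext z
    show u a z + dg u g j w z = _
    rw [ih]
    show u a z + (g j z + ∑ i, w.count i * u i z) = g j z + ∑ i, (a :: w).count i * u i z
    have : ∀ i, (a :: w).count i * u i z = w.count i * u i z + (if a = i then u i z else 0) := by
      intro i
      rw [List.count_cons, add_mul]
      congr 1
      by_cases h : a = i <;> simp [h]
    simp only [this, Finset.sum_add_distrib, Finset.sum_ite_eq, Finset.mem_univ, if_true]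
    omega

theorem ex_list (m : Fin r → ℕ) : ∃ w : List (Fin r), ∀ i, w.count i = m i := by
  classical
  refine ⟨(∑ i, Multiset.replicate (m i) i).toList, fun i => ?_⟩
  rw [← Multiset.coe_count, Multiset.coe_toList, Multiset.count_sum']
  simp [Multiset.count_replicate]

end

end IH6

open IH6 in
theorem prH6 : StH6 := by
  intro Z _ r p u g W _ _ T y hcomm
  choose l hl using (ex_list (r := r))
  have hd : ∀ (m : Fin r → ℕ) (j : Fin p), dg u g j (l m) = aff (g j) u m := by
    intro m j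
    rw [dg_eq]
    congr 1
    funext i
    exact hl m i
  refine ⟨fun m j t h => mo T y j (l m) t ((hd m j).trans h), ?_, ?_⟩
  · intro i m j t t' h h' h''
    have hp : (i :: l m).Perm (l (m + Pi.single i 1)) := by
      rw [List.perm_iff_count]
      intro a
      rw [hl, List.count_cons, hl, Pi.add_apply]
      congr 1
      by_cases hia : i = a
      · subst hia; simp
      · have : a ≠ i := fun h => hia h.symm
        simp [hia, this]
    obtain ⟨ε, hε, hB⟩ := mo_B T y hcomm j hp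
    refine ⟨ε, hε, ?_⟩
    have h1 : dg u g j (i :: l m) = t' := by
      show u i + dg u g j (l m) = t'
      rw [hd, h, h']
    rw [← hB t' h1]
    exact mo_A T y j i (l m) t' _ _ h' h1 _ rfl
  · intro j t h h'
    have h0 : l 0 = [] := by
      rw [List.eq_nil_iff_forall_not_mem]
      intro a ha
      have := hl 0 a
      rw [Pi.zero_apply] at this
      exact absurd ha (List.count_eq_zero.1 this)
    have h1 : ∀ (w : List (Fin r)) (hw : dg u g j w = t), w = [] → mo T y j w t hw = y j t h' := by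
      rintro w hw rfl
      rfl
    exact h1 _ _ h0

end Pool.Agent.Work.MP_6da7fa_al.EG
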