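import Pool.Agent.Work.MP_6da7fa_al.EG.StmtsH

set_option autoImplicit false

namespace Pool.Agent.Work.MP_6da7fa_al.EG

theorem prH7 : StH7 := by
  classical
  intro h5 h6 Z _ r p u g W _ _ _ T y E hcomm hy hE hgen
  obtain ⟨X, hX, hX0⟩ := h6 Z r p u g W T y hcomm
  have haff : ∀ (j : Fin p) (m : Fin r → ℕ) (i : Fin r),
      aff (g j) u (m + Pi.single i 1) = u i + aff (g j) u m := by
    intro j m i
    funext z
    show g j z + ∑ k, (m + Pi.single i 1 : Fin r → ℕ) k * u k z =
      u i z + (g j z + ∑ k, m k * u k z)
    have : ∀ k, (m + Pi.single i 1 : Fin r → ℕ) k * u k z =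
        m k * u k z + (if k = i then u i z else 0) := by
      intro k
      by_cases h : k = i
      · subst h; simp [add_mul]
      · simp [h]
    simp only [this, Finset.sum_add_distrib, Finset.sum_ite_eq', Finset.mem_univ, if_true]
    omega
  have haff0 : ∀ (j : Fin p), aff (g j) u 0 = g j := by
    intro j
    funext z
    simp [aff]
  have hXE : ∀ (n : ℕ) (m : Fin r → ℕ), ∑ i, m i = n → ∀ j t h, X m j t h ∈ E t := by
    intro n
    induction n with
    | zero =>
      intro m hm j t h
      have : m = 0 := by
        funext i
        exact (Finset.sum_eq_zero_iff.1 hm) i (Finset.mem_univ _)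
      subst this
      rw [hX0 j t h ((haff0 j).symm.trans h)]
      exact hy _ _ _
    | succ n ih =>
      intro m hm j t h
      have : ∃ i, m i ≠ 0 := by
        by_contra h
        push Not at h
        have : ∑ i, m i = 0 := Finset.sum_eq_zero fun i _ => h i
        omega
      obtain ⟨i, hi⟩ := this
      have hm' : m = Function.update m i (m i - 1) + Pi.single i 1 := by
        funext k
        by_cases h : k = i
        · subst h
          simp
          omega
        · simp [h]
      have hs : ∑ k, Function.update m i (m i - 1) k = n := by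
        have h1 : ∑ k, m k = ∑ k, Function.update m i (m i - 1) k + 1 := by
          conv_lhs => rw [hm']
          simp [Finset.sum_add_distrib]
        omega
      generalize hq : Function.update m i (m i - 1) = q at hm' hs
      subst hm'
      obtain ⟨ε, hε, h1⟩ := hX i q j _ t rfl (by rw [← haff, h]) h
      have h2 := hE i _ t (by rw [← haff, h]) _ (ih q hs j _ rfl)
      rw [h1] at h2
      have h3 := (E t).smul_mem ε⁻¹ h2
      rwa [inv_smul_smul₀ hε] at h3
  have hEF : ∀ t, E t = Submodule.span ℂ {v : W t | ∃ m j h, v = X m j t h} := by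
    intro t
    apply le_antisymm
    · refine hgen (fun t => Submodule.span ℂ {v : W t | ∃ m j h, v = X m j t h}) ?_ ?_ t
      · intro j t h
        refine Submodule.subset_span ⟨0, j, (haff0 j).trans h, ?_⟩
        rw [hX0 j t ((haff0 j).trans h) h]
      · intro i t t' h v hv
        have h1 : T i t t' h v ∈ (Submodule.span ℂ {v : W t | ∃ m j h, v = X m j t h}).map
            (T i t t' h) := Submodule.mem_map_of_mem hv
        refine (?_ : (Submodule.span ℂ {v : W t | ∃ m j h, v = X m j t h}).map (T i t t' h) ≤ _) h1
        rw [Submodule.map_span, Submodule.span_le]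
        rintro _ ⟨v, ⟨m, j, hd, rfl⟩, rfl⟩
        have hd' : aff (g j) u (m + Pi.single i 1) = t' := by rw [haff, hd, h]
        obtain ⟨ε, hε, h2⟩ := hX i m j _ _ hd h hd'
        rw [h2]
        exact Submodule.smul_mem _ _ (Submodule.subset_span ⟨_, j, hd', rfl⟩)
    · rw [Submodule.span_le]
      rintro _ ⟨m, j, h, rfl⟩
      exact hXE _ m rfl j t h
  have he : (fun t => Module.finrank ℂ (E t)) =
      fun t => Module.finrank ℂ (Submodule.span ℂ {v : W t | ∃ m j h, v = X m j t h}) := by
    funext t
    rw [hEF t]
  rw [he]
  exact h5 Z r p u g W T X hX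

end Pool.Agent.Work.MP_6da7fa_al.EG
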