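import Pool.Agent.Work.MP_6da7fa_al.EG.StmtsH

set_option autoImplicit false

namespace Pool.Agent.Work.MP_6da7fa_al.EG

theorem prH8 : StH8 := by
  classical
  intro Z _ _
  refine ⟨?_, ?_, ?_⟩
  · intro t
    funext z
    let e : (Σ z, Fin (t z)) ≃ Fin (∑ z, t z) :=
      Fintype.equivFinOfCardEq (by simp : Fintype.card (Σ z, Fin (t z)) = ∑ z, t z)
    show (Finset.univ.filter fun x => (e.symm x).1 = z).card = t z
    have h1 : (Finset.univ.filter fun x => (e.symm x).1 = z) =
        (Finset.univ : Finset (Fin (t z))).map
          ⟨fun i => e ⟨z, i⟩, fun i j hij => by simpa using hij⟩ := by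
      ext x
      simp only [Finset.mem_filter, Finset.mem_univ, true_and, Finset.mem_map,
        Function.Embedding.coeFn_mk]
      constructor
      · intro hx
        obtain ⟨⟨z', i⟩, rfl⟩ := e.surjective x
        rw [Equiv.symm_apply_apply] at hx
        subst hx
        exact ⟨i, rfl⟩
      · rintro ⟨i, rfl⟩
        rw [Equiv.symm_apply_apply]
    rw [h1, Finset.card_map, Finset.card_univ, Fintype.card_fin]
  · intro n c0 c h
    have hex : ∃ σ : Equiv.Perm (Fin n), c0 ∘ ⇑σ = c := by
      have hcard : ∀ z, Nonempty ({x // c x = z} ≃ {x // c0 x = z}) := by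
        intro z
        refine ⟨Fintype.equivOfCardEq ?_⟩
        have := congrFun h z
        rw [Fintype.card_subtype, Fintype.card_subtype]
        exact this
      refine ⟨(Equiv.sigmaFiberEquiv c).symm.trans ((Equiv.sigmaCongrRight fun z =>
        (hcard z).some).trans (Equiv.sigmaFiberEquiv c0)), ?_⟩
      funext x
      exact ((hcard (c x)).some ⟨x, rfl⟩).2
    unfold ch
    rw [dif_pos hex]
    exact hex.choose_spec
  · intro n c
    constructor
    · have := Finset.card_eq_sum_card_fiberwise (s := (Finset.univ : Finset (Fin n)))
        (t := (Finset.univ : Finset Z)) (f := c) (fun x _ => Finset.mem_coe.2 (Finset.mem_univ _))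
      rw [Finset.card_univ, Fintype.card_fin] at this
      exact this.symm
    · intro σ
      funext z
      show (Finset.univ.filter fun x => c (σ x) = z).card = (Finset.univ.filter fun x => c x = z).card
      refine Finset.card_bij (fun x _ => σ x) ?_ ?_ ?_
      · intro x hx
        simpa using hx
      · intro x _ y _ h
        exact σ.injective h
      · intro y hy
        exact ⟨σ.symm y, by simpa using hy, by simp⟩

end Pool.Agent.Work.MP_6da7fa_al.EG
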