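import Pool.Agent.Work.MP_6da7fa_al.MB.I_Ord
import Pool.Agent.Work.MP_6da7fa_al.MB.I_Dec
import Pool.Agent.Work.MP_6da7fa_al.EG.I_H1
import Pool.Agent.Work.MP_6da7fa_al.EG.I_H2
import Pool.Agent.Work.MP_6da7fa_al.EG.I_H3
import Pool.Agent.Work.MP_6da7fa_al.EG.I_H4
import Pool.Agent.Work.MP_6da7fa_al.EG.I_H5
import Pool.Agent.Work.MP_6da7fa_al.EG.I_H6
import Pool.Agent.Work.MP_6da7fa_al.EG.I_H7
import Pool.Agent.Work.MP_6da7fa_al.EG.I_H8
import Pool.Agent.Work.MP_6da7fa_al.EG.I_H9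
import Pool.Agent.Work.MP_6da7fa_al.EG.I_H10
import Pool.Agent.Work.MP_6da7fa_al.EG.I_H11
import Pool.Agent.Work.MP_6da7fa_al.EG.I_H12
import Pool.Agent.Work.MP_6da7fa_al.EG.I_H13
import Pool.Agent.Work.MP_6da7fa_al.EG.I_H14
import Pool.Agent.Work.MP_6da7fa_al.EG.I_H15
import Pool.Agent.Work.MP_6da7fa_al.EG.I_H16

set_option autoImplicit false

/-! Theorem EG, part H: assembly. -/

namespace Pool.Agent.Work.MP_6da7fa_al.EG

theorem conH7 : ConH7 :=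
  prH7 (prH5 MB.prOrd prH1 (prH3 MB.prDec prH1 prH2) prH4) prH6

/-- Part H, from the statements of part V. -/
theorem conHS (sa : StSa) (sb : StSb) (sc : StSc) (pp : ConPp) (ht : ConHt) : ConHS :=
  have h10 : ConH10 := prH10 pp sb
  have h11 : ConH11 := prH11 pp sb (fun α Z _ _ p c => (sc sa sb α Z p c).2) prH8 prH9 h10
  have h12 : ConH12 := prH12 prH8 h10
  prH16 pp ht conH7 prH8 (prH14 prH8 prH9 h11 h12 prH13)
    (prH15 pp prH8 prH9 h10 h11 h12 prH13)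

end Pool.Agent.Work.MP_6da7fa_al.EG
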