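import Pool.Agent.Work.MP_6da7fa_al.EG.StmtsR

set_option autoImplicit false

/-!
# Theorem EG, item R4: the extension of the full space is good
-/

namespace Pool.Agent.Work.MP_6da7fa_al.EG

theorem IR4.single {X : Type} {r : ℕ} {g : X → ℕ} {G : Fin r → X → ℕ}
    (h : Function.Injective (aff g G)) : Good (Set.range (aff g G)) := by
  have h1 := Good.add r g G ∅ h (Set.disjoint_empty _) Good.empty
  rwa [Set.union_empty] at h1

theorem prR4 : StR4 := by
  intro hU hV hA hB hD r c u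
  classical
  let S : ℕ ⊕ (Fin r × ℕ) → Set (Fin r ⊕ Bool → ℕ) := fun x => match x with
    | Sum.inl a => {y | y ∈ extS Set.univ c u ∧ y (Sum.inr false) = a}
    | Sum.inr (j, s) => {y | y ∈ extS Set.univ c u ∧ ∃ q, q < y (Sum.inl j) ∧
        y (Sum.inr false) = c + (∑ i ∈ Finset.univ.filter (fun i : Fin r => i < j),
          u i * y (Sum.inl i)) + u j * q + s}
  let B : Finset (Fin r × ℕ) := Finset.univ.biUnion fun j => (Finset.range (u j)).image fun s => (j, s)
  let A : Finset (ℕ ⊕ (Fin r × ℕ)) :=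
    (Finset.range c).image Sum.inl ∪ B.image Sum.inr
  have hAl : ∀ a, Sum.inl a ∈ A ↔ a < c := by
    intro a
    simp [A]
  have hAr : ∀ j s, Sum.inr (j, s) ∈ A ↔ s < u j := by
    intro j s
    simp [A, B]
  have h1 : ∀ x ∈ A, Good (S x) := by
    rintro (a | ⟨j, s⟩) hx
    · obtain ⟨h2, h3⟩ := hA r c a u ((hAl a).1 hx)
      have h4 := IR4.single h2
      rw [h3] at h4
      exact h4
    · obtain ⟨h2, h3⟩ := hB r c s u j ((hAr j s).1 hx)
      have h4 := IR4.single h2
      rw [h3] at h4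
      exact h4
  have h2 : ∀ x ∈ A, ∀ x' ∈ A, x ≠ x' → Disjoint (S x) (S x') := by
    intro x hx x' hx' hne
    rw [Set.disjoint_left]
    intro y hy hy'
    apply hne
    rcases x with a | ⟨j, s⟩ <;> rcases x' with a' | ⟨j', s'⟩
    · obtain ⟨_, h3⟩ := hy
      obtain ⟨_, h4⟩ := hy'
      rw [← h3, ← h4]
    · obtain ⟨_, h3⟩ := hy
      obtain ⟨_, q, _, h4⟩ := hy'
      have := (hAl a).1 hx
      omega
    · obtain ⟨_, q, _, h3⟩ := hy
      obtain ⟨_, h4⟩ := hy'
      have := (hAl a').1 hx'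
      omega
    · obtain ⟨_, q, hq, h3⟩ := hy
      obtain ⟨_, q', hq', h4⟩ := hy'
      obtain ⟨h5, h6⟩ := (hD r c (y (Sum.inr false)) u (fun i => y (Sum.inl i))).2 j j' s s' q q'
        ((hAr j s).1 hx) ((hAr j' s').1 hx') hq hq' h3 h4
      rw [h5, h6]
  have h3 := hV hU A S h1 h2
  have h4 : (⋃ x ∈ A, S x) = extS (Set.univ : Set (Fin r → ℕ)) c u := by
    ext y
    simp only [Set.mem_iUnion]
    constructor
    · rintro ⟨x, hx, hy⟩
      rcases x with a | ⟨j, s⟩
      · exact hy.1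
      · exact hy.1
    · intro hy
      have h5 : y (Sum.inr false) + y (Sum.inr true) + 1 = c + ∑ i, u i * y (Sum.inl i) := hy.2
      rcases (hD r c (y (Sum.inr false)) u (fun i => y (Sum.inl i))).1 (by
        show y (Sum.inr false) < c + ∑ i, u i * y (Sum.inl i)
        omega) with h6 | ⟨j, s, hs, q, hq, h6⟩
      · exact ⟨Sum.inl (y (Sum.inr false)), (hAl _).2 h6, hy, rfl⟩
      · exact ⟨Sum.inr (j, s), (hAr j s).2 hs, hy, q, hq, h6⟩
  rw [h4] at h3
  exact h3

end Pool.Agent.Work.MP_6da7fa_al.EG
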