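import Pool.Agent.Work.MP_6da7fa_al.EG.StmtsR

set_option autoImplicit false

/-!
# Theorem EG, item R5: extensions of good sets are good
-/

namespace Pool.Agent.Work.MP_6da7fa_al.EG

open Pool.Agent.Work.MP_6da7fa_al.MB (wt)

theorem prR5 : StR5 := by
  intro hU hI hw h4 X _ _ S c u hS
  induction hS with
  | empty =>
    have h1 : extS (∅ : Set (X → ℕ)) c u = ∅ := by
      ext y
      simp [extS]
    rw [h1]
    exact Good.empty
  | add r g G T hinj hdis _ ih =>
    have h1 : extS (Set.range (aff g G) ∪ T) c u =
        extS (Set.range (aff g G)) c u ∪ extS T c u := by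
      ext y
      simp only [extS, Set.mem_ofPred_eq, Set.mem_union]
      tauto
    rw [h1]
    refine hU _ _ ?_ ih ?_
    · let h : X ⊕ Bool → ℕ := Sum.elim g (fun _ => 0)
      let H : Fin r ⊕ Bool → X ⊕ Bool → ℕ := Sum.elim (fun j => Sum.elim (G j) (fun _ => 0))
        (fun b => Sum.elim (fun _ => 0) (Pi.single b 1))
      have hcoord : ∀ y : Fin r ⊕ Bool → ℕ, (∀ x, afY h H y (Sum.inl x) =
          aff g G (fun j => y (Sum.inl j)) x) ∧ ∀ b, afY h H y (Sum.inr b) = y (Sum.inr b) := by
        intro y
        constructor
        · intro x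
          show g x + ∑ i, y i * H i (Sum.inl x) = g x + ∑ j, y (Sum.inl j) * G j x
          rw [Fintype.sum_sum_type]
          have h2 : ∑ b : Bool, y (Sum.inr b) * H (Sum.inr b) (Sum.inl x) = 0 :=
            Finset.sum_eq_zero fun b _ => mul_zero _
          rw [h2, add_zero]
          rfl
        · intro b
          show 0 + ∑ i, y i * H i (Sum.inr b) = y (Sum.inr b)
          rw [Fintype.sum_sum_type]
          have h2 : ∑ j : Fin r, y (Sum.inl j) * H (Sum.inl j) (Sum.inr b) = 0 :=
            Finset.sum_eq_zero fun j _ => mul_zero _
          have h3 : ∑ b' : Bool, y (Sum.inr b') * H (Sum.inr b') (Sum.inr b) = y (Sum.inr b) := by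
            show ∑ b' : Bool, y (Sum.inr b') * (Pi.single b' 1 : Bool → ℕ) b = y (Sum.inr b)
            rw [Finset.sum_eq_single b]
            · simp
            · intro b' _ hb
              rw [Pi.single_eq_of_ne (Ne.symm hb), mul_zero]
            · intro h'
              exact absurd (Finset.mem_univ b) h'
          rw [h2, h3]
          omega
      have hinj' : Function.Injective (afY h H) := by
        intro y y' hyy
        have e1 : (fun j => y (Sum.inl j)) = fun j => y' (Sum.inl j) := by
          apply hinj
          funext x
          rw [← (hcoord y).1, ← (hcoord y').1, hyy]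
        funext x
        rcases x with j | b
        · exact congrFun e1 j
        · rw [← (hcoord y).2, ← (hcoord y').2, hyy]
      have hgood := hI h H (extS (Set.univ : Set (Fin r → ℕ)) (wt c u g)
        (fun j => ∑ x, u x * G j x)) (h4 r _ _) (hinj'.injOn)
      have himg : afY h H '' (extS (Set.univ : Set (Fin r → ℕ)) (wt c u g)
          (fun j => ∑ x, u x * G j x)) = extS (Set.range (aff g G)) c u := by
        ext y
        constructor
        · rintro ⟨z, ⟨_, hz⟩, rfl⟩
          have e1 : (fun x => afY h H z (Sum.inl x)) = aff g G (fun j => z (Sum.inl j)) :=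
            funext (hcoord z).1
          refine ⟨?_, ?_⟩
          · rw [e1]
            exact ⟨_, rfl⟩
          · rw [e1, (hcoord z).2, (hcoord z).2, hw]
            exact hz
        · rintro ⟨⟨m, hm⟩, hy⟩
          refine ⟨Sum.elim m (fun b => y (Sum.inr b)), ⟨Set.mem_univ _, ?_⟩, ?_⟩
          · show y (Sum.inr false) + y (Sum.inr true) + 1 = wt (wt c u g) (fun j => ∑ x, u x * G j x) m
            rw [← hw, hm]
            exact hy
          · funext x
            rcases x with x | b
            · rw [(hcoord _).1]
              exact congrFun hm x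
            · rw [(hcoord _).2]
              rfl
      rw [himg] at hgood
      exact hgood
    · rw [Set.disjoint_left]
      rintro y ⟨h2, _⟩ ⟨h3, _⟩
      exact Set.disjoint_left.1 hdis h2 h3

end Pool.Agent.Work.MP_6da7fa_al.EG
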