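import Pool.Agent.Work.MP_6da7fa_al.EG.StmtsR

set_option autoImplicit false

/-!
# Theorem EG, item R6: sums of hypergeometric terms over good sets
-/

namespace Pool.Agent.Work.MP_6da7fa_al.EG

open Pool.Agent.Work.MP_6da7fa_al.MB (wt gs FibFin)

theorem IR6.zero {T : Type} (N : T → ℕ) : DFinite (gs N (fun _ => 0)) := by
  refine ⟨0, fun _ => 1, ⟨0, one_ne_zero⟩, ?_⟩
  have h : gs N (fun _ => (0 : ℂ)) = 0 := by
    ext n
    simp [MB.gs]
  rw [h]
  simp

theorem prR6 : StR6 := by
  intro hA hG hw hone X _ _ S e d s0 s Q _ eq dq hS hfin0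
  have key : ∀ S' : Set (X → ℕ), Good S' → (∀ n, {x | x ∈ S' ∧ wt e d x = n}.Finite) →
      DFinite (gs (wt e d) (Set.indicator S' (hterm s0 s eq dq))) := by
    intro S' hS'
    induction hS' with
    | empty =>
      intro _
      rw [Set.indicator_empty]
      exact IR6.zero _
    | add r g G T hinj hdis _ ih =>
      intro hfin
      have hsplit : Set.indicator (Set.range (aff g G) ∪ T) (hterm s0 s eq dq) =
          fun x => Set.indicator (Set.range (aff g G)) (hterm s0 s eq dq) x +
            Set.indicator T (hterm s0 s eq dq) x :=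
        Set.indicator_union_of_disjoint hdis _
      have hfin1 : FibFin (wt e d) (Set.indicator (Set.range (aff g G)) (hterm s0 s eq dq)) := by
        intro n
        refine (hfin n).subset ?_
        rintro x ⟨hx1, hx2⟩
        refine ⟨Or.inl ?_, hx1⟩
        by_contra h
        exact hx2 (Set.indicator_of_notMem h _)
      have hfin2 : FibFin (wt e d) (Set.indicator T (hterm s0 s eq dq)) := by
        intro n
        refine (hfin n).subset ?_
        rintro x ⟨hx1, hx2⟩
        refine ⟨Or.inr ?_, hx1⟩
        by_contra h
        exact hx2 (Set.indicator_of_notMem h _)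
      rw [hsplit, hG.1 _ _ _ _ hfin1 hfin2]
      apply hA
      · rw [hG.2 _ _ _ _ (aff g G) hinj]
        have e1 : (fun m => wt e d (aff g G m)) =
            wt (wt e d g) (fun j => ∑ x, d x * G j x) := funext fun m => hw r e d g G m
        have e2 : (fun m => hterm s0 s eq dq (aff g G m)) =
            hterm (wt s0 s g) (fun j => ∑ x, s x * G j x) (fun q => wt (eq q) (dq q) g)
              (fun q j => ∑ x, dq q x * G j x) := by
          funext m
          unfold hterm
          rw [hw]
          congr 1
          refine Finset.prod_congr rfl fun q _ => ?_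
          rw [hw]
        rw [e1, e2]
        apply hone
        intro n
        have h5 : ((aff g G) ⁻¹' {x | x ∈ Set.range (aff g G) ∪ T ∧ wt e d x = n}).Finite :=
          (hfin n).preimage hinj.injOn
        refine h5.subset ?_
        intro m hm
        refine ⟨Or.inl ⟨m, rfl⟩, ?_⟩
        rw [hw]
        exact hm
      · apply ih
        intro n
        refine (hfin n).subset ?_
        rintro x ⟨hx1, hx2⟩
        exact ⟨Or.inr hx1, hx2⟩
  have h := key S hS hfin0
  convert h using 2
  funext x
  by_cases hx : x ∈ S
  · rw [if_pos hx, Set.indicator_of_mem hx]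
  · rw [if_neg hx, Set.indicator_of_notMem hx]

end Pool.Agent.Work.MP_6da7fa_al.EG
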