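import Pool.Agent.Work.MP_6da7fa_al.EG.StmtsR

set_option autoImplicit false

/-!
# Theorem EG, item RA: the pieces `k = a`
-/

namespace Pool.Agent.Work.MP_6da7fa_al.EG

theorem IRA.coords {r : ℕ} (c a : ℕ) (u m : Fin r → ℕ) :
    (∀ i, aff (gA r c a) (GA u) m (Sum.inl i) = m i) ∧
    aff (gA r c a) (GA u) m (Sum.inr false) = a ∧
    aff (gA r c a) (GA u) m (Sum.inr true) = c - 1 - a + ∑ j, m j * u j := by
  refine ⟨fun i => ?_, ?_, ?_⟩
  · simp only [aff, gA, GA, Sum.elim_inl]
    rw [Finset.sum_eq_single i]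
    · simp
    · intro j _ hj
      rw [Pi.single_eq_of_ne (Ne.symm hj), mul_zero]
    · intro h
      exact absurd (Finset.mem_univ i) h
  · simp [aff, gA, GA]
  · simp [aff, gA, GA]

theorem prRA : StRA := by
  intro r c a u ha
  constructor
  · intro m m' h
    funext i
    have h1 := congrFun h (Sum.inl i)
    rwa [(IRA.coords c a u m).1, (IRA.coords c a u m').1] at h1
  · ext y
    constructor
    · rintro ⟨m, rfl⟩
      obtain ⟨h1, h2, h3⟩ := IRA.coords c a u m
      refine ⟨⟨Set.mem_univ _, ?_⟩, h2⟩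
      rw [h2, h3]
      unfold MB.wt
      simp only [h1]
      have h4 : ∑ j, m j * u j = ∑ j, u j * m j :=
        Finset.sum_congr rfl fun j _ => mul_comm _ _
      omega
    · rintro ⟨⟨_, h1⟩, h2⟩
      refine ⟨fun i => y (Sum.inl i), ?_⟩
      obtain ⟨h3, h4, h5⟩ := IRA.coords c a u (fun i => y (Sum.inl i))
      have h1' : y (Sum.inr false) + y (Sum.inr true) + 1 = c + ∑ j, u j * y (Sum.inl j) := h1
      have h6 : ∑ j, y (Sum.inl j) * u j = ∑ j, u j * y (Sum.inl j) :=
        Finset.sum_congr rfl fun j _ => mul_comm _ _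
      funext x
      rcases x with i | b
      · exact h3 i
      · cases b
        · rw [h4, h2]
        · rw [h5, h6]
          omega

end Pool.Agent.Work.MP_6da7fa_al.EG
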