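import Pool.Agent.Work.MP_6da7fa_al.EG.StmtsR

set_option autoImplicit false

/-!
# Theorem EG, item RB: the pieces `(j, s)`
-/

namespace Pool.Agent.Work.MP_6da7fa_al.EG

theorem IRB.coords {r : ℕ} (c s : ℕ) (u : Fin r → ℕ) (j : Fin r) (m : Fin (r + 1) → ℕ) :
    (∀ i, i ≠ j → aff (gB c u j s) (GB u j) m (Sum.inl i) = m i.succ) ∧
    aff (gB c u j s) (GB u j) m (Sum.inl j) = 1 + m 0 + m j.succ ∧
    aff (gB c u j s) (GB u j) m (Sum.inr false) =
      c + s + (m 0 * u j + ∑ i ∈ Finset.univ.filter (fun i : Fin r => i < j), m i.succ * u i) ∧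
    aff (gB c u j s) (GB u j) m (Sum.inr true) =
      u j - 1 - s + ∑ i ∈ Finset.univ.filter (fun i : Fin r => ¬ i < j), m i.succ * u i := by
  have hsum : ∀ i : Fin r, ∑ x : Fin r, m x.succ * (Pi.single x 1 : Fin r → ℕ) i = m i.succ := by
    intro i
    rw [Finset.sum_eq_single i]
    · simp
    · intro x _ hx
      rw [Pi.single_eq_of_ne (Ne.symm hx), mul_zero]
    · intro h
      exact absurd (Finset.mem_univ i) h
  refine ⟨fun i hi => ?_, ?_, ?_, ?_⟩
  · simp only [aff, gB, GB, Sum.elim_inl, Fin.sum_univ_succ, Fin.cases_zero, Fin.cases_succ]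
    rw [hsum, Pi.single_eq_of_ne hi]
    simp
  · simp only [aff, gB, GB, Sum.elim_inl, Fin.sum_univ_succ, Fin.cases_zero, Fin.cases_succ]
    rw [hsum, Pi.single_eq_same]
    omega
  · simp only [aff, gB, GB, Sum.elim_inr, Fin.sum_univ_succ, Fin.cases_zero, Fin.cases_succ,
      Bool.false_eq_true, if_false, mul_ite, mul_zero]
    rw [Finset.sum_filter]
  · simp only [aff, gB, GB, Sum.elim_inr, Fin.sum_univ_succ, Fin.cases_zero, Fin.cases_succ,
      if_true, mul_ite, mul_zero, zero_add]
    rw [Finset.sum_filter]
    congr 1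
    refine Finset.sum_congr rfl fun i _ => ?_
    by_cases h : i < j
    · rw [if_pos h, if_neg (not_not.mpr h)]
    · rw [if_neg h, if_pos h]

/-- splitting the weighted sum at `j` -/
theorem IRB.split {r : ℕ} (u y : Fin r → ℕ) (j : Fin r) :
    ∑ i, u i * y i = ∑ i ∈ Finset.univ.filter (fun i : Fin r => i < j), u i * y i + u j * y j +
      ∑ i ∈ Finset.univ.filter (fun i : Fin r => j < i), u i * y i := by
  have h1 := Finset.sum_filter_add_sum_filter_not Finset.univ (fun i : Fin r => i < j)
    (fun i => u i * y i)
  have h2 : Finset.univ.filter (fun i : Fin r => ¬ i < j) =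
      insert j (Finset.univ.filter (fun i : Fin r => j < i)) := by
    ext i
    simp only [Finset.mem_filter, Finset.mem_univ, true_and, Finset.mem_insert, not_lt]
    constructor
    · intro h
      rcases h.lt_or_eq with h | h
      · exact Or.inr h
      · exact Or.inl h.symm
    · rintro (h | h)
      · exact h.ge
      · exact h.le
  rw [h2, Finset.sum_insert (by simp)] at h1
  omega

theorem prRB : StRB := by
  intro r c s u j hs
  have hu : 0 < u j := by omega
  have hge : ∀ f : Fin r → ℕ, ∑ i ∈ Finset.univ.filter (fun i : Fin r => ¬ i < j), f i =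
      f j + ∑ i ∈ Finset.univ.filter (fun i : Fin r => j < i), f i := by
    intro f
    have h2 : Finset.univ.filter (fun i : Fin r => ¬ i < j) =
        insert j (Finset.univ.filter (fun i : Fin r => j < i)) := by
      ext i
      simp only [Finset.mem_filter, Finset.mem_univ, true_and, Finset.mem_insert, not_lt]
      constructor
      · intro h
        rcases h.lt_or_eq with h | h
        · exact Or.inr h
        · exact Or.inl h.symm
      · rintro (h | h)
        · exact h.ge
        · exact h.le
    rw [h2, Finset.sum_insert (by simp)]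
  constructor
  · intro m m' h
    obtain ⟨a1, a2, a3, a4⟩ := IRB.coords c s u j m
    obtain ⟨b1, b2, b3, b4⟩ := IRB.coords c s u j m'
    have e1 : ∀ i, i ≠ j → m i.succ = m' i.succ := by
      intro i hi
      rw [← a1 i hi, ← b1 i hi, h]
    have e2 : 1 + m 0 + m j.succ = 1 + m' 0 + m' j.succ := by rw [← a2, ← b2, h]
    have e3 : ∑ i ∈ Finset.univ.filter (fun i : Fin r => i < j), m i.succ * u i =
        ∑ i ∈ Finset.univ.filter (fun i : Fin r => i < j), m' i.succ * u i :=
      Finset.sum_congr rfl fun i hi => by
        rw [e1 i (ne_of_lt (Finset.mem_filter.1 hi).2)]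
    have e4 : c + s + (m 0 * u j + ∑ i ∈ Finset.univ.filter (fun i : Fin r => i < j),
        m i.succ * u i) = c + s + (m' 0 * u j +
        ∑ i ∈ Finset.univ.filter (fun i : Fin r => i < j), m' i.succ * u i) := by
      rw [← a3, ← b3, h]
    rw [e3] at e4
    have e5 : m 0 * u j = m' 0 * u j := by omega
    have e6 : m 0 = m' 0 := Nat.eq_of_mul_eq_mul_right hu e5
    have e7 : m j.succ = m' j.succ := by omega
    funext x
    refine Fin.cases e6 (fun i => ?_) x
    by_cases hi : i = j
    · rw [hi, e7]
    · exact e1 i hi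
  · ext y
    constructor
    · rintro ⟨m, rfl⟩
      obtain ⟨a1, a2, a3, a4⟩ := IRB.coords c s u j m
      have hl : ∑ i ∈ Finset.univ.filter (fun i : Fin r => i < j),
          u i * aff (gB c u j s) (GB u j) m (Sum.inl i) =
          ∑ i ∈ Finset.univ.filter (fun i : Fin r => i < j), m i.succ * u i :=
        Finset.sum_congr rfl fun i hi => by
          rw [a1 i (ne_of_lt (Finset.mem_filter.1 hi).2), mul_comm]
      have hg : ∑ i ∈ Finset.univ.filter (fun i : Fin r => j < i),
          u i * aff (gB c u j s) (GB u j) m (Sum.inl i) =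
          ∑ i ∈ Finset.univ.filter (fun i : Fin r => j < i), m i.succ * u i :=
        Finset.sum_congr rfl fun i hi => by
          rw [a1 i (ne_of_gt (Finset.mem_filter.1 hi).2), mul_comm]
      refine ⟨⟨Set.mem_univ _, ?_⟩, m 0, ?_, ?_⟩
      · rw [a3, a4]
        unfold MB.wt
        rw [IRB.split u (fun x => aff (gB c u j s) (GB u j) m (Sum.inl x)) j, hl, hg, a2, hge]
        have h5 : u j * (1 + m 0 + m j.succ) = u j + m 0 * u j + m j.succ * u j := by ring
        rw [h5]
        omega
      · rw [a2]
        omega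
      · rw [a3, hl]
        have h5 : m 0 * u j = u j * m 0 := mul_comm _ _
        omega
    · rintro ⟨⟨_, h1⟩, q, hq, h2⟩
      let m : Fin (r + 1) → ℕ := Fin.cases q (fun i => if i = j then y (Sum.inl j) - 1 - q
        else y (Sum.inl i))
      have m0 : m 0 = q := rfl
      have mj : m j.succ = y (Sum.inl j) - 1 - q := by
        show (if j = j then y (Sum.inl j) - 1 - q else y (Sum.inl j)) = _
        rw [if_pos rfl]
      have mi : ∀ i, i ≠ j → m i.succ = y (Sum.inl i) := by
        intro i hi
        show (if i = j then y (Sum.inl j) - 1 - q else y (Sum.inl i)) = _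
        rw [if_neg hi]
      obtain ⟨a1, a2, a3, a4⟩ := IRB.coords c s u j m
      have hl : ∑ i ∈ Finset.univ.filter (fun i : Fin r => i < j), m i.succ * u i =
          ∑ i ∈ Finset.univ.filter (fun i : Fin r => i < j), u i * y (Sum.inl i) :=
        Finset.sum_congr rfl fun i hi => by
          rw [mi i (ne_of_lt (Finset.mem_filter.1 hi).2), mul_comm]
      have hg : ∑ i ∈ Finset.univ.filter (fun i : Fin r => j < i), m i.succ * u i =
          ∑ i ∈ Finset.univ.filter (fun i : Fin r => j < i), u i * y (Sum.inl i) :=
        Finset.sum_congr rfl fun i hi => by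
          rw [mi i (ne_of_gt (Finset.mem_filter.1 hi).2), mul_comm]
      refine ⟨m, ?_⟩
      funext x
      rcases x with i | b
      · by_cases hi : i = j
        · rw [hi, a2, m0, mj]
          omega
        · rw [a1 i hi, mi i hi]
      · cases b
        · rw [a3, hl, m0, h2]
          have h5 : q * u j = u j * q := mul_comm _ _
          omega
        · rw [a4, hge, hg, mj]
          unfold MB.wt at h1
          rw [IRB.split u (fun x => y (Sum.inl x)) j, h2] at h1
          obtain ⟨t, ht⟩ : ∃ t, y (Sum.inl j) = q + 1 + t := ⟨y (Sum.inl j) - (q + 1), by omega⟩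
          rw [ht] at h1 ⊢
          have h6 : q + 1 + t - 1 - q = t := by omega
          rw [h6]
          have h7 : u j * (q + 1 + t) = u j * q + u j + t * u j := by ring
          rw [h7] at h1
          omega

end Pool.Agent.Work.MP_6da7fa_al.EG
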