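import Pool.Agent.Work.MP_6da7fa_al.EG.StmtsR

/-!
# Item RD of block EG: the pieces cover, and are disjoint
-/

set_option autoImplicit false

namespace Pool.Agent.Work.MP_6da7fa_al.EG

open Pool.Agent.Work.MP_6da7fa_al.MB (wt ev gs FibFin ConA ConH StGs)

namespace IRD

/-- partial sums -/
def S {r : ℕ} (u y : Fin r → ℕ) (a : ℕ) : ℕ :=
  ∑ i ∈ Finset.univ.filter (fun i : Fin r => i.val < a), u i * y i

theorem S_zero {r : ℕ} (u y : Fin r → ℕ) : S u y 0 = 0 := by
  unfold S
  rw [Finset.filter_false_of_mem]
  · rfl
  · intro i _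
    exact Nat.not_lt_zero _

theorem S_top {r : ℕ} (u y : Fin r → ℕ) : S u y r = ∑ i, u i * y i := by
  unfold S
  rw [Finset.filter_true_of_mem]
  intro i _
  exact i.2

theorem S_succ {r : ℕ} (u y : Fin r → ℕ) (j : Fin r) :
    S u y (j.val + 1) = S u y j.val + u j * y j := by
  unfold S
  have h : Finset.univ.filter (fun i : Fin r => i.val < j.val + 1) =
      insert j (Finset.univ.filter (fun i : Fin r => i.val < j.val)) := by
    ext i
    simp only [Finset.mem_filter, Finset.mem_univ, true_and, Finset.mem_insert]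
    constructor
    · intro h
      rcases Nat.lt_or_ge i.val j.val with h1 | h1
      · exact Or.inr h1
      · exact Or.inl (Fin.ext (by omega))
    · rintro (h | h)
      · rw [h]; exact Nat.lt_succ_self _
      · exact Nat.lt_succ_of_lt h
  rw [h, Finset.sum_insert (by simp), add_comm]

theorem S_mono {r : ℕ} (u y : Fin r → ℕ) {a b : ℕ} (h : a ≤ b) : S u y a ≤ S u y b := by
  unfold S
  refine Finset.sum_le_sum_of_subset ?_
  intro i hi
  rw [Finset.mem_filter] at hi ⊢
  exact ⟨hi.1, lt_of_lt_of_le hi.2 h⟩

theorem S_eq {r : ℕ} (u y : Fin r → ℕ) (j : Fin r) :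
    ∑ i ∈ Finset.univ.filter (fun i : Fin r => i < j), u i * y i = S u y j.val := rfl

theorem lt_of {U q Y s : ℕ} (hs : s < U) (hq : q < Y) : U * q + s < U * Y := by
  calc U * q + s < U * q + U := by omega
    _ = U * (q + 1) := by ring
    _ ≤ U * Y := Nat.mul_le_mul_left U hq

/-- if `j < j'` the values are different -/
theorem absurd_lt {r c k : ℕ} (u y : Fin r → ℕ) (j j' : Fin r) (s s' q q' : ℕ) (hs : s < u j)
    (hq : q < y j) (h1 : k = c + S u y j.val + u j * q + s)
    (h2 : k = c + S u y j'.val + u j' * q' + s') (hlt : j.val < j'.val) : False := by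
  have h3 := lt_of hs hq
  have h4 := S_succ u y j
  have h5 : S u y (j.val + 1) ≤ S u y j'.val := S_mono u y hlt
  omega

end IRD

open IRD in
/-- Item [RD] -/
theorem prRD : StRD := by
  classical
  intro r c k u y
  refine ⟨fun hk => ?_, ?_⟩
  · rcases Nat.lt_or_ge k c with h | hc
    · exact Or.inl h
    · right
      rw [← S_top u y] at hk
      have hex : ∃ a, k - c < S u y a := ⟨r, by omega⟩
      have h1 := Nat.find_spec hex
      have h2 : Nat.find hex ≤ r := Nat.find_min' hex (by omega)
      have h0 : Nat.find hex ≠ 0 := by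
        intro h0
        rw [h0, S_zero] at h1
        exact Nat.not_lt_zero _ h1
      obtain ⟨a, ha⟩ := Nat.exists_eq_succ_of_ne_zero h0
      have h3 : ¬ (k - c < S u y a) := Nat.find_min hex (by omega)
      rw [ha, Nat.succ_eq_add_one] at h1
      have har : a < r := by omega
      set j : Fin r := ⟨a, har⟩ with hj
      have h4 : S u y (a + 1) = S u y a + u j * y j := S_succ u y j
      have hlt : k - c - S u y a < u j * y j := by omega
      have hupos : 0 < u j := by
        rcases Nat.eq_zero_or_pos (u j) with h | h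
        · rw [h, zero_mul] at hlt
          exact absurd hlt (Nat.not_lt_zero _)
        · exact h
      refine ⟨j, (k - c - S u y a) % u j, Nat.mod_lt _ hupos, (k - c - S u y a) / u j,
        Nat.div_lt_of_lt_mul hlt, ?_⟩
      rw [S_eq]
      have h5 := Nat.div_add_mod (k - c - S u y a) (u j)
      have h6 : S u y j.val = S u y a := rfl
      rw [h6]
      omega
  · intro j j' s s' q q' hs hs' hq hq' h1 h2
    rw [S_eq] at h1 h2
    have hjj : j = j' := by
      rcases lt_trichotomy j.val j'.val with h | h | h
      · exact (absurd_lt u y j j' s s' q q' hs hq h1 h2 h).elim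
      · exact Fin.ext h
      · exact (absurd_lt u y j' j s' s q' q hs' hq' h2 h1 h).elim
    subst hjj
    refine ⟨rfl, ?_⟩
    have h3 : u j * q + s = u j * q' + s' := by omega
    have h4 := congrArg (fun n => n % u j) h3
    simp only [Nat.mul_add_mod] at h4
    rw [Nat.mod_eq_of_lt hs, Nat.mod_eq_of_lt hs'] at h4
    exact h4

end Pool.Agent.Work.MP_6da7fa_al.EG
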