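import Pool.Agent.Work.MP_6da7fa_al.EG.StmtsR

set_option autoImplicit false

/-!
# Theorem EG, item RI: images of good sets under affine maps
-/

namespace Pool.Agent.Work.MP_6da7fa_al.EG

theorem IRI.comp {X Y : Type} [Fintype Y] (g : X → ℕ) (G : Y → X → ℕ) {r : ℕ} (g' : Y → ℕ)
    (G' : Fin r → Y → ℕ) (m : Fin r → ℕ) :
    afY g G (aff g' G' m) = aff (afY g G g') (fun j x => ∑ i, G' j i * G i x) m := by
  funext x
  unfold afY aff
  have h1 : ∑ i, (g' i + ∑ j, m j * G' j i) * G i x =
      ∑ i, g' i * G i x + ∑ i, (∑ j, m j * G' j i) * G i x := by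
    rw [← Finset.sum_add_distrib]
    exact Finset.sum_congr rfl fun i _ => add_mul _ _ _
  have h2 : ∑ i, (∑ j, m j * G' j i) * G i x = ∑ j, m j * ∑ i, G' j i * G i x := by
    simp only [Finset.mul_sum, Finset.sum_mul]
    rw [Finset.sum_comm]
    refine Finset.sum_congr rfl fun j _ => Finset.sum_congr rfl fun i _ => ?_
    ring
  rw [h1, h2, add_assoc]

theorem prRI : StRI := by
  intro X Y _ g G S hS
  induction hS with
  | empty =>
    intro _
    rw [Set.image_empty]
    exact Good.empty
  | add r g' G' T hinj hdis _ ih =>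
    intro hon
    have hr : afY g G '' Set.range (aff g' G') =
        Set.range (aff (afY g G g') (fun j x => ∑ i, G' j i * G i x)) := by
      rw [← Set.range_comp]
      congr 1
      funext m
      exact IRI.comp g G g' G' m
    rw [Set.image_union, hr]
    refine Good.add r _ _ _ ?_ ?_ (ih (hon.mono Set.subset_union_right))
    · intro m m' h
      rw [← IRI.comp, ← IRI.comp] at h
      exact hinj (hon (Or.inl ⟨m, rfl⟩) (Or.inl ⟨m', rfl⟩) h)
    · rw [← hr]
      rw [Set.disjoint_left]
      rintro _ ⟨y, hy, rfl⟩ ⟨y', hy', h⟩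
      have h1 : y' = y := hon (Or.inr hy') (Or.inl hy) h
      subst h1
      exact Set.disjoint_left.1 hdis hy hy'

end Pool.Agent.Work.MP_6da7fa_al.EG
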