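import Pool.Agent.Work.MP_6da7fa_al.EG.StmtsR

set_option autoImplicit false

/-!
# Theorem EG, item RU: disjoint unions of two good sets
-/

namespace Pool.Agent.Work.MP_6da7fa_al.EG

theorem prRU : StRU := by
  intro X S T hS hT hST
  induction hS with
  | empty => rwa [Set.empty_union]
  | add r g G S' hinj hdis _ ih =>
    rw [Set.union_assoc]
    rw [Set.disjoint_union_left] at hST
    refine Good.add r g G _ hinj ?_ (ih hST.2)
    rw [Set.disjoint_union_right]
    exact ⟨hdis, hST.1⟩

end Pool.Agent.Work.MP_6da7fa_al.EG
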