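import Pool.Agent.Work.MP_6da7fa_al.EG.StmtsR

set_option autoImplicit false

/-!
# Theorem EG, item RV: finite disjoint unions of good sets
-/

namespace Pool.Agent.Work.MP_6da7fa_al.EG

theorem prRV : StRV := by
  intro hU X ι _ A S h1 h2
  induction A using Finset.induction_on with
  | empty =>
    simp only [Finset.notMem_empty, Set.iUnion_of_empty, Set.iUnion_empty]
    exact Good.empty
  | insert a A ha ih =>
    rw [Finset.set_biUnion_insert]
    apply hU
    · exact h1 a (Finset.mem_insert_self a A)
    · exact ih (fun i hi => h1 i (Finset.mem_insert_of_mem hi))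
        (fun i hi j hj hij => h2 i (Finset.mem_insert_of_mem hi) j (Finset.mem_insert_of_mem hj) hij)
    · rw [Set.disjoint_iUnion₂_right]
      intro i hi
      exact h2 a (Finset.mem_insert_self a A) i (Finset.mem_insert_of_mem hi)
        (fun h => ha (h ▸ hi))

end Pool.Agent.Work.MP_6da7fa_al.EG
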