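import Pool.Agent.Work.MP_6da7fa_al.EG.StmtsR

set_option autoImplicit false

/-!
# Theorem EG, item Rp: positive weights
-/

namespace Pool.Agent.Work.MP_6da7fa_al.EG

theorem prRp : StRp := by
  intro J _ _ e d h i
  by_contra hi
  have hi0 : d i = 0 := by omega
  refine Set.infinite_of_injective_forall_mem (f := fun t : ℕ => (Pi.single i t : J → ℕ)) ?_ ?_ (h e)
  · intro s t hst
    have := congrFun hst i
    simpa using this
  · intro t
    show MB.wt e d (Pi.single i t) = e
    unfold MB.wt
    rw [Finset.sum_eq_zero, add_zero]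
    intro j _
    by_cases hj : j = i
    · subst hj
      rw [hi0, zero_mul]
    · rw [Pi.single_eq_of_ne hj, mul_zero]

end Pool.Agent.Work.MP_6da7fa_al.EG
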