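import Pool.Agent.Work.MP_6da7fa_al.EG.StmtsR

set_option autoImplicit false

/-!
# Theorem EG, item Rq: one cone
-/

namespace Pool.Agent.Work.MP_6da7fa_al.EG

theorem prRq : StRq := by
  intro hH hh hp r e d s0 s Q _ eq dq hfin
  obtain ⟨P, hP⟩ := hh (Fin r) s0 s Q eq dq
  exact hH (Fin r) d e P _ (hp (Fin r) e d hfin) (fun m i => hP m i)

end Pool.Agent.Work.MP_6da7fa_al.EG
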