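import Pool.Agent.Work.MP_6da7fa_al.EG.StmtsR

set_option autoImplicit false

/-!
# Theorem EG, item Rw: affine forms on cones
-/

namespace Pool.Agent.Work.MP_6da7fa_al.EG

theorem prRw : StRw := by
  intro X _ r c u g G m
  unfold MB.wt aff
  have h1 : ∑ i, u i * (g i + ∑ j, m j * G j i) =
      ∑ i, u i * g i + ∑ i, u i * ∑ j, m j * G j i := by
    rw [← Finset.sum_add_distrib]
    exact Finset.sum_congr rfl fun i _ => mul_add _ _ _
  have h2 : ∑ i, u i * ∑ j, m j * G j i = ∑ j, (∑ i, u i * G j i) * m j := by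
    simp only [Finset.mul_sum, Finset.sum_mul]
    rw [Finset.sum_comm]
    refine Finset.sum_congr rfl fun j _ => Finset.sum_congr rfl fun i _ => ?_
    ring
  rw [h1, h2, add_assoc]

end Pool.Agent.Work.MP_6da7fa_al.EG
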