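import Pool.Agent.Work.MP_6da7fa_al.MB.Main
import Pool.Agent.Work.MP_6da7fa_al.EG.I_RU
import Pool.Agent.Work.MP_6da7fa_al.EG.I_RV
import Pool.Agent.Work.MP_6da7fa_al.EG.I_RI
import Pool.Agent.Work.MP_6da7fa_al.EG.I_RA
import Pool.Agent.Work.MP_6da7fa_al.EG.I_RB
import Pool.Agent.Work.MP_6da7fa_al.EG.I_RD
import Pool.Agent.Work.MP_6da7fa_al.EG.I_R4
import Pool.Agent.Work.MP_6da7fa_al.EG.I_R5
import Pool.Agent.Work.MP_6da7fa_al.EG.I_Rw
import Pool.Agent.Work.MP_6da7fa_al.EG.I_Rh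
import Pool.Agent.Work.MP_6da7fa_al.EG.I_Rp
import Pool.Agent.Work.MP_6da7fa_al.EG.I_Rq
import Pool.Agent.Work.MP_6da7fa_al.EG.I_R6

set_option autoImplicit false

/-! Theorem EG, part R: assembly. -/

namespace Pool.Agent.Work.MP_6da7fa_al.EG

theorem conR1 : ConR1 := prR5 prRU prRI prRw (prR4 prRU prRV prRA prRB prRD)
theorem conR2 : ConR2 := prR6 MB.conA MB.prGs prRw (prRq MB.conH prRh prRp)

end Pool.Agent.Work.MP_6da7fa_al.EG
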