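import Pool.Agent.Work.MP_6da7fa_al.EG.I_HG
import Pool.Agent.Work.MP_6da7fa_al.EG.I_HE
import Pool.Agent.Work.MP_6da7fa_al.EG.I_Ro
import Pool.Agent.Work.MP_6da7fa_al.EG.I_Ns
import Pool.Agent.Work.MP_6da7fa_al.EG.I_Sd
import Pool.Agent.Work.MP_6da7fa_al.EG.I_Cf
import Pool.Agent.Work.MP_6da7fa_al.EG.I_F1
import Pool.Agent.Work.MP_6da7fa_al.EG.I_Ft
import Pool.Agent.Work.MP_6da7fa_al.EG.I_Dn
import Pool.Agent.Work.MP_6da7fa_al.EG.I_FM
import Pool.Agent.Work.MP_6da7fa_al.EG.I_Va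
import Pool.Agent.Work.MP_6da7fa_al.EG.I_Pd
import Pool.Agent.Work.MP_6da7fa_al.EG.I_Dv
import Pool.Agent.Work.MP_6da7fa_al.EG.I_Hs
import Pool.Agent.Work.MP_6da7fa_al.EG.I_SG
import Pool.Agent.Work.MP_6da7fa_al.EG.I_K0
import Pool.Agent.Work.MP_6da7fa_al.EG.I_Kp
import Pool.Agent.Work.MP_6da7fa_al.EG.I_AB
import Pool.Agent.Work.MP_6da7fa_al.EG.I_O1
import Pool.Agent.Work.MP_6da7fa_al.EG.I_O2
import Pool.Agent.Work.MP_6da7fa_al.EG.I_Pc
import Pool.Agent.Work.MP_6da7fa_al.EG.I_Pi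
import Pool.Agent.Work.MP_6da7fa_al.EG.I_An
import Pool.Agent.Work.MP_6da7fa_al.EG.I_Dm
import Pool.Agent.Work.MP_6da7fa_al.EG.I_Ca
import Pool.Agent.Work.MP_6da7fa_al.EG.I_Gp
import Pool.Agent.Work.MP_6da7fa_al.EG.I_Fc
import Pool.Agent.Work.MP_6da7fa_al.EG.I_Sq
import Pool.Agent.Work.MP_6da7fa_al.EG.I_Sa
import Pool.Agent.Work.MP_6da7fa_al.EG.I_Sb
import Pool.Agent.Work.MP_6da7fa_al.EG.I_Sc
import Pool.Agent.Work.MP_6da7fa_al.EG.I_Si
import Pool.Agent.Work.MP_6da7fa_al.EG.I_Sw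
import Pool.Agent.Work.MP_6da7fa_al.EG.I_Pp
import Pool.Agent.Work.MP_6da7fa_al.EG.I_Tr
import Pool.Agent.Work.MP_6da7fa_al.EG.I_Ht
import Pool.Agent.Work.MP_6da7fa_al.EG.I_Ct
import Pool.Agent.Work.MP_6da7fa_al.EG.I_Re
import Pool.Agent.Work.MP_6da7fa_al.EG.I_Or
import Pool.Agent.Work.MP_6da7fa_al.EG.I_Ir
import Pool.Agent.Work.MP_6da7fa_al.EG.I_De
import Pool.Agent.Work.MP_6da7fa_al.EG.I_Ma
import Pool.Agent.Work.MP_6da7fa_al.EG.I_Mb
import Pool.Agent.Work.MP_6da7fa_al.EG.I_Mc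
import Pool.Agent.Work.MP_6da7fa_al.EG.I_Mk
import Pool.Agent.Work.MP_6da7fa_al.EG.I_Di
import Pool.Agent.Work.MP_6da7fa_al.EG.I_Nt
import Pool.Agent.Work.MP_6da7fa_al.EG.I_Cl
import Pool.Agent.Work.MP_6da7fa_al.EG.I_Sy
import Pool.Agent.Work.MP_6da7fa_al.EG.I_Su
import Pool.Agent.Work.MP_6da7fa_al.EG.I_Cm
import Pool.Agent.Work.MP_6da7fa_al.EG.I_Ml
import Pool.Agent.Work.MP_6da7fa_al.EG.I_Nz
import Pool.Agent.Work.MP_6da7fa_al.EG.I_Gt
import Pool.Agent.Work.MP_6da7fa_al.EG.I_Am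
import Pool.Agent.Work.MP_6da7fa_al.EG.I_Ba
import Pool.Agent.Work.MP_6da7fa_al.EG.I_Bb
import Pool.Agent.Work.MP_6da7fa_al.EG.I_Bx
import Pool.Agent.Work.MP_6da7fa_al.EG.I_Ra
import Pool.Agent.Work.MP_6da7fa_al.EG.I_Rb
import Pool.Agent.Work.MP_6da7fa_al.EG.I_Rc
import Pool.Agent.Work.MP_6da7fa_al.EG.I_Gr
import Pool.Agent.Work.MP_6da7fa_al.EG.I_Ga
import Pool.Agent.Work.MP_6da7fa_al.EG.I_Gb
import Pool.Agent.Work.MP_6da7fa_al.EG.I_Gc
import Pool.Agent.Work.MP_6da7fa_al.EG.I_Gd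
import Pool.Agent.Work.MP_6da7fa_al.EG.I_Ge
import Pool.Agent.Work.MP_6da7fa_al.EG.I_Gf
import Pool.Agent.Work.MP_6da7fa_al.EG.I_Gg
import Pool.Agent.Work.MP_6da7fa_al.EG.I_Gh
import Pool.Agent.Work.MP_6da7fa_al.EG.I_Gi
import Pool.Agent.Work.MP_6da7fa_al.EG.I_Gj
import Pool.Agent.Work.MP_6da7fa_al.EG.I_Da
import Pool.Agent.Work.MP_6da7fa_al.EG.I_Db
import Pool.Agent.Work.MP_6da7fa_al.EG.I_Dc
import Pool.Agent.Work.MP_6da7fa_al.EG.I_Dd
import Pool.Agent.Work.MP_6da7fa_al.EG.I_De1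
import Pool.Agent.Work.MP_6da7fa_al.EG.I_Df
import Pool.Agent.Work.MP_6da7fa_al.EG.I_Dg
import Pool.Agent.Work.MP_6da7fa_al.EG.I_Ta
import Pool.Agent.Work.MP_6da7fa_al.EG.I_Tb
import Pool.Agent.Work.MP_6da7fa_al.EG.I_Tc
import Pool.Agent.Work.MP_6da7fa_al.EG.I_Td
import Pool.Agent.Work.MP_6da7fa_al.EG.I_Te
import Pool.Agent.Work.MP_6da7fa_al.EG.MainR
import Pool.Agent.Work.MP_6da7fa_al.EG.MainH
import Pool.Agent.Work.MP_6da7fa_al.MB.Main

set_option autoImplicit false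

/-!
# Theorem EG: assembly
-/

namespace Pool.Agent.Work.MP_6da7fa_al.EG

/-! ## Part S -/

theorem conHE : ConHE := prHE prHG
theorem conCf : ConCf := prCf prRo prSd prNs
theorem conVa : ConVa := prVa (prFt prHG prHE prF1) (prFM prDn)
theorem conPd : ConPd := prPd (prFt prHG prHE prF1) (prFM prDn)
theorem conSG : ConSG := prSG conPd prDn prDv prHs
theorem conKp : ConKp := prKp prK0
theorem conO : ConO := ⟨prO1 conCf prNs conSG conKp prAB, prO2 conCf prNs conVa⟩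

/-! ## Part V -/

theorem conSc : ConSc := prSc prSa prSb
theorem conSw : ConSw := prSw prSb conSc prSi
theorem conPp : ConPp := prPp prSb conSc
theorem conTr : ConTr := prTr conPp
theorem conHt : ConHt := prHt conSw
theorem conOr : ConOr := prOr prRe
theorem conDe : ConDe := prDe prRe conOr
theorem conMa : ConMa := prMa prSa prSb prSc prRe conTr conOr conDe
theorem conMb : ConMb := prMb prSb conSc prSi
theorem conMk : ConMk := prMk conHt conMa conMb prMc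
theorem conDi : ConDi := prDi conHt conMa
theorem conNt : ConNt := prNt conMk
theorem conCl : ConCl := prCl conMk conDi conO prDm (prGp prCa)
theorem conCm : ConCm := prCm conHt conCl prDn prDv prHs conKp (prAn prDn) (prSy (prCt conHt))
  (prSu prRo conHE conNt)
theorem conMl : ConMl := prMl conHt conTr
theorem conNz : ConNz := prNz conDe conCl conMl
theorem conBb : ConBb := prBb (prAm (prCt conHt)) (prBa (prIr prRe) conDe conCl conCm conMl)
theorem conRa : ConRa := prRa conSw conHt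
theorem conRb : ConRb := prRb prBx conRa conCl conMk (prPi prRo prNs prSd conSG conKp prPc)
theorem conRc : ConRc := prRc (prIr prRe) prBx conSw conHt conCl conNz conRb
theorem conGr : ConGr := prGr (prIr prRe) conSw conPp conHt conDe conMl conCm prBx conRc
  (prGt (prIr prRe) conCl conNz) (prSq prCa prFc)

/-! ## Part G -/

theorem conGc : ConGc := prGc conSw (prGb conPp (prGa conSw))
theorem conGf : ConGf := prGf prGd prGe
theorem conGi : ConGi := prGi conGf conGc (prGh conGr prGd prGg)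

/-! ## Parts H, R, D -/

theorem conDd : ConDd := prDd prDc (fun r i γ u w w' hu =>
  (prDb (prDa conR1 prRI) conR2 r i γ u w w' hu).2)

theorem conCore : ConCore := prDf conBb (conHS prSa prSb prSc conPp conHt) conDd
  (fun r i γ u w w' hu => (prDb (prDa conR1 prRI) conR2 r i γ u w w' hu).1) (prDe1 MB.conA)

/-- Slow growth implies D-finiteness. -/
theorem conEG : ConEG := prDg conGi conCore prGj

/-! ## Part T -/

theorem conTa : ConTa := prTa prSa prSb prSc conSw conPp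
theorem conTb : ConTb := prTb prSb conSc prSi conPp conTa

/-- The largest bounded quotients. -/
theorem conTT : ConTT := prTe conTb (prTc conTa)
  (prTd (prIr prRe) conSw conPp conHt conDe conMl conCm prBx conTa) conCore

end Pool.Agent.Work.MP_6da7fa_al.EG
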