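import Pool.Agent.Work.MP_6da7fa_al.EG.Main

set_option autoImplicit false

/-!
# Theorem EG with a threshold that depends only on the degrees of the generators of the algebra

The block structures of part G, with the additional property that all blocks except the base block
have at most `e` letters, where `e` bounds the degrees of the generators of the algebra.
-/

namespace Pool.Agent.Work.MP_6da7fa_al.EG

open Equiv

section
variable {A : ℕ → Type} [∀ n, AddCommGroup (A n)] [∀ n, Module ℂ (A n)]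
  {M : ℕ → Type} [∀ n, AddCommGroup (M n)] [∀ n, Module ℂ (M n)]

/-- The algebra is generated by finitely many homogeneous elements of degrees at most `e`. -/
def GenLE (R : TCA A) (e : ℕ) : Prop :=
  ∃ s : Finset (Σ n, A n), (∀ x ∈ s, x.1 ≤ e) ∧
    ∀ B : (n : ℕ) → Submodule ℂ (A n), (∀ x ∈ s, x.2 ∈ B x.1) →
    R.one ∈ B 0 → (∀ n σ, ∀ a ∈ B n, R.seq.act n σ a ∈ B n) →
    (∀ {i j k : ℕ} (h : i + j = k), ∀ a ∈ B i, ∀ b ∈ B j, R.mul.app h a b ∈ B k) →
    ∀ n, B n = ⊤

theorem GenLE.fg {R : TCA A} {e : ℕ} (h : GenLE R e) : R.FG := by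
  obtain ⟨s, _, hs⟩ := h
  exact ⟨s, hs⟩

variable {R : TCA A}

/-- Block structure where the blocks outside the base block have at most `e` letters. -/
def BlkE (S : TCAModule R M) (e e' : ℕ) {n : ℕ} (z : M n) : Prop :=
  ∃ (pos : Fin n → Fin e') (blk : Fin n → Option ℕ), BlkD S e' pos blk z ∧
    ∀ x, blk x ≠ none → (pos x : ℕ) < e

private theorem E_left {i j k : ℕ} (h : i + j = k) (σ : Perm (Fin i)) (τ : Perm (Fin j))
    (x : Fin k) (hx : (x : ℕ) < i) :
    ((blockSum h σ τ x : Fin k) : ℕ) = (σ ⟨x, hx⟩ : Fin i) := by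
  subst h
  have h1 : x = Fin.castAdd j ⟨x, hx⟩ := Fin.ext rfl
  have h2 : ∀ x0 : Fin i, blockSum (rfl : i + j = i + j) σ τ (Fin.castAdd j x0)
      = Fin.castAdd j (σ x0) := by
    intro x0
    simp [blockSum, Equiv.permCongr_apply]
  calc ((blockSum (rfl : i + j = i + j) σ τ x : Fin (i + j)) : ℕ)
      = ((blockSum (rfl : i + j = i + j) σ τ (Fin.castAdd j ⟨x, hx⟩) : Fin (i + j)) : ℕ) := by
        rw [← h1]
    _ = _ := by rw [h2]; rfl

private theorem E_right {i j k : ℕ} (h : i + j = k) (σ : Perm (Fin i)) (τ : Perm (Fin j))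
    (x : Fin k) (hx : i ≤ (x : ℕ)) (hx' : (x : ℕ) - i < j) :
    ((blockSum h σ τ x : Fin k) : ℕ) = i + (τ ⟨x - i, hx'⟩ : Fin j) := by
  subst h
  have h1 : x = Fin.natAdd i ⟨x - i, hx'⟩ := Fin.ext (by
    show (x : ℕ) = i + (x - i)
    omega)
  have h2 : ∀ x0 : Fin j, blockSum (rfl : i + j = i + j) σ τ (Fin.natAdd i x0)
      = Fin.natAdd i (τ x0) := by
    intro x0
    simp [blockSum, Equiv.permCongr_apply]
  calc ((blockSum (rfl : i + j = i + j) σ τ x : Fin (i + j)) : ℕ)
      = ((blockSum (rfl : i + j = i + j) σ τ (Fin.natAdd i ⟨x - i, hx'⟩) : Fin (i + j)) : ℕ) := by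
        rw [← h1]
    _ = _ := by rw [h2]; rfl

/-- Multiplication by an element of degree at most `e`. -/
theorem e_smul (S : TCAModule R M) (e e' d n k : ℕ) (h : d + n = k) (a : A d) (z : M n)
    (hde : d ≤ e) (hee : e ≤ e') (hB : BlkE S e e' z) : BlkE S e e' (S.smul.app h a z) := by
  classical
  obtain ⟨pos1, blk1, ⟨hinj, hQ⟩, hpos1⟩ := hB
  -- a new block
  obtain ⟨t, ht⟩ : ∃ t : ℕ, ∀ x, blk1 x ≠ some t := by
    obtain ⟨t, ht⟩ := Infinite.exists_notMem_finset
      (Finset.univ.image (fun x => (blk1 x).getD 0))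
    refine ⟨t, fun x hx => ht ?_⟩
    rw [Finset.mem_image]
    exact ⟨x, Finset.mem_univ _, by rw [hx]; rfl⟩
  let pos : Fin k → Fin e' := fun x =>
    if hx : (x : ℕ) < d then ⟨x, by omega⟩ else pos1 ⟨x - d, by omega⟩
  let blk : Fin k → Option ℕ := fun x =>
    if hx : (x : ℕ) < d then some t else blk1 ⟨x - d, by omega⟩
  have pos_l : ∀ (x : Fin k) (hx : (x : ℕ) < d), pos x = ⟨x, by omega⟩ := fun x hx => dif_pos hx
  have pos_r : ∀ (x : Fin k) (hx : ¬ (x : ℕ) < d), pos x = pos1 ⟨x - d, by omega⟩ :=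
    fun x hx => dif_neg hx
  have blk_l : ∀ (x : Fin k) (hx : (x : ℕ) < d), blk x = some t := fun x hx => dif_pos hx
  have blk_r : ∀ (x : Fin k) (hx : ¬ (x : ℕ) < d), blk x = blk1 ⟨x - d, by omega⟩ :=
    fun x hx => dif_neg hx
  refine ⟨pos, blk, ⟨?_, ?_⟩, ?_⟩
  · intro x y hxy
    have h1 : blk x = blk y := congrArg Prod.fst hxy
    have h2 : pos x = pos y := congrArg Prod.snd hxy
    by_cases hx : (x : ℕ) < d
    · by_cases hy : (y : ℕ) < d
      · rw [pos_l x hx, pos_l y hy] at h2
        have h3 := congrArg Fin.val h2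
        exact Fin.ext h3
      · rw [blk_l x hx, blk_r y hy] at h1
        exact absurd h1.symm (ht _)
    · by_cases hy : (y : ℕ) < d
      · rw [blk_r x hx, blk_l y hy] at h1
        exact absurd h1 (ht _)
      · rw [blk_r x hx, blk_r y hy] at h1
        rw [pos_r x hx, pos_r y hy] at h2
        have h3 := hinj (show (fun x => (blk1 x, pos1 x)) ⟨x - d, by omega⟩
          = (fun x => (blk1 x, pos1 x)) ⟨y - d, by omega⟩ from Prod.ext h1 h2)
        have h4 := congrArg Fin.val h3
        simp only at h4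
        exact Fin.ext (by omega)
  · intro Q
    obtain ⟨l, m, hlm, X, u, π, hz, hπ⟩ := hQ (Q.erase t)
    -- the condition for `Q` and for `Q.erase t`
    have hcond : ∀ y : Fin n, l ≤ (y : ℕ) ↔ (blk1 (π y) = none ∨ ∃ q ∈ Q, blk1 (π y) = some q) := by
      intro y
      rw [hπ y]
      constructor
      · rintro (h1 | ⟨q, hq, h1⟩)
        · exact Or.inl h1
        · exact Or.inr ⟨q, Finset.mem_of_mem_erase hq, h1⟩
      · rintro (h1 | ⟨q, hq, h1⟩)
        · exact Or.inl h1
        · refine Or.inr ⟨q, Finset.mem_erase.2 ⟨?_, hq⟩, h1⟩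
          rintro rfl
          exact ht _ h1
    have e1 : d + l + m = k := by omega
    have haz : S.smul.app h a z = S.seq.act k (blockSum h 1 π)
        (S.smul.app e1 (R.mul.app (rfl : d + l = d + l) a X) u) := by
      rw [S.mul_smul (rfl : d + l = d + l) e1 hlm h a X u, ← S.smul.equivariant, R.seq.act_one, hz]
    by_cases htQ : t ∈ Q
    · have e2 : l + d = d + l := Nat.add_comm l d
      have e3 : l + (d + m) = k := by omega
      refine ⟨l, d + m, e3, X, S.smul.app rfl a u,
        blockSum h 1 π * blockSum e1 (blockSwap (rfl : d + l = d + l)) 1, ?_, ?_⟩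
      · rw [haz, R.comm (rfl : d + l = d + l) e2 a X, S.seq.act_mul]
        rw [← S.mul_smul e2 e1 rfl e3 X a u, ← S.smul.equivariant e1, S.seq.act_one]
      · intro x
        rw [Perm.mul_apply]
        by_cases hx1 : (x : ℕ) < d + l
        · have hv := E_left e1 (blockSwap (rfl : d + l = d + l)) (1 : Perm (Fin m)) x hx1
          rw [blockSwap_val] at hv
          simp only at hv
          generalize hw : blockSum e1 (blockSwap (rfl : d + l = d + l)) (1 : Perm (Fin m)) x = w at hv ⊢
          by_cases hx2 : (x : ℕ) < l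
          · rw [if_pos hx2] at hv
            have hwd : ¬ (w : ℕ) < d := by omega
            have hv2 := E_right h (1 : Perm (Fin d)) π w (by omega) (by omega)
            generalize hw2 : blockSum h (1 : Perm (Fin d)) π w = w2 at hv2 ⊢
            have hw2d : ¬ (w2 : ℕ) < d := by omega
            rw [blk_r w2 hw2d]
            have h5 : (⟨(w2 : ℕ) - d, by omega⟩ : Fin n) = π ⟨(w : ℕ) - d, by omega⟩ :=
              Fin.ext (by show (w2 : ℕ) - d = _; omega)
            rw [h5, ← hcond]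
            show l ≤ (x : ℕ) ↔ l ≤ (w : ℕ) - d
            omega
          · rw [if_neg hx2] at hv
            have hwd : (w : ℕ) < d := by omega
            have hv2 := E_left h (1 : Perm (Fin d)) π w hwd
            generalize hw2 : blockSum h (1 : Perm (Fin d)) π w = w2 at hv2 ⊢
            have hv3 : (w2 : ℕ) = w := hv2
            rw [blk_l w2 (by omega)]
            constructor
            · intro _
              exact Or.inr ⟨t, htQ, rfl⟩
            · intro _
              omega
        · have hv := E_right e1 (blockSwap (rfl : d + l = d + l)) (1 : Perm (Fin m)) x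
            (by omega) (by omega)
          have hv1 : ((blockSum e1 (blockSwap (rfl : d + l = d + l)) (1 : Perm (Fin m)) x : Fin k) : ℕ)
            = d + l + (x - (d + l)) := hv
          generalize hw : blockSum e1 (blockSwap (rfl : d + l = d + l)) (1 : Perm (Fin m)) x = w at hv1 ⊢
          have hv2 := E_right h (1 : Perm (Fin d)) π w (by omega) (by omega)
          generalize hw2 : blockSum h (1 : Perm (Fin d)) π w = w2 at hv2 ⊢
          have hw2d : ¬ (w2 : ℕ) < d := by omega
          rw [blk_r w2 hw2d]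
          have h5 : (⟨(w2 : ℕ) - d, by omega⟩ : Fin n) = π ⟨(w : ℕ) - d, by omega⟩ :=
            Fin.ext (by show (w2 : ℕ) - d = _; omega)
          rw [h5, ← hcond]
          show l ≤ (x : ℕ) ↔ l ≤ (w : ℕ) - d
          omega
    · refine ⟨d + l, m, e1, R.mul.app rfl a X, u, blockSum h 1 π, haz, ?_⟩
      intro x
      by_cases hx : (x : ℕ) < d
      · have hv2 := E_left h (1 : Perm (Fin d)) π x hx
        generalize hw2 : blockSum h (1 : Perm (Fin d)) π x = w2 at hv2 ⊢
        have hv3 : (w2 : ℕ) = x := hv2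
        rw [blk_l w2 (by omega)]
        constructor
        · intro h6
          omega
        · rintro (h6 | ⟨q, hq, h6⟩)
          · exact absurd h6 (Option.some_ne_none t)
          · rw [Option.some.inj h6] at htQ
            exact absurd hq htQ
      · have hv2 := E_right h (1 : Perm (Fin d)) π x (by omega) (by omega)
        generalize hw2 : blockSum h (1 : Perm (Fin d)) π x = w2 at hv2 ⊢
        have hw2d : ¬ (w2 : ℕ) < d := by omega
        rw [blk_r w2 hw2d]
        have h5 : (⟨(w2 : ℕ) - d, by omega⟩ : Fin n) = π ⟨(x : ℕ) - d, by omega⟩ :=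
          Fin.ext (by show (w2 : ℕ) - d = _; omega)
        rw [h5, ← hcond]
        show d + l ≤ (x : ℕ) ↔ l ≤ (x : ℕ) - d
        omega
  · intro x hx
    by_cases hxd : (x : ℕ) < d
    · rw [pos_l x hxd]
      show (x : ℕ) < e
      omega
    · rw [blk_r x hxd] at hx
      rw [pos_r x hxd]
      exact hpos1 _ hx

/-! ## The elements with a block structure span -/

/-- the span of the elements with a block structure -/
def E_C (S : TCAModule R M) (e e' n : ℕ) : Submodule ℂ (M n) :=
  Submodule.span ℂ {z : M n | BlkE S e e' z}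

theorem E_act (S : TCAModule R M) (e e' n : ℕ) (σ : Perm (Fin n)) (x : M n)
    (hx : x ∈ E_C S e e' n) : S.seq.act n σ x ∈ E_C S e e' n := by
  induction hx using Submodule.span_induction with
  | mem z hz =>
    obtain ⟨pos, blk, h, h2⟩ := hz
    exact Submodule.subset_span ⟨_, _, (prGd A R M S e').2 n z pos blk σ h, fun x hx => h2 _ hx⟩
  | zero =>
    have h := S.seq.act_smul n σ 0 0
    rw [zero_smul, zero_smul] at h
    rw [h]
    exact zero_mem _
  | add x y _ _ h1 h2 =>
    rw [S.seq.act_add]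
    exact add_mem h1 h2
  | smul c x _ h1 =>
    rw [S.seq.act_smul]
    exact Submodule.smul_mem _ _ h1

/-- the elements of the algebra which preserve the span -/
def E_D (S : TCAModule R M) (e e' k : ℕ) : Submodule ℂ (A k) where
  carrier := {a | ∀ (j n : ℕ) (h : k + j = n), ∀ y ∈ E_C S e e' j,
    S.smul.app h a y ∈ E_C S e e' n}
  add_mem' := by
    intro a b ha hb j n h y hy
    rw [S.smul.add_left]
    exact add_mem (ha j n h y hy) (hb j n h y hy)
  zero_mem' := by
    intro j n h y _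
    have h1 := S.smul.smul_left h (0 : ℂ) (0 : A k) y
    rw [zero_smul, zero_smul] at h1
    rw [h1]
    exact zero_mem _
  smul_mem' := by
    intro c a ha j n h y hy
    rw [S.smul.smul_left]
    exact Submodule.smul_mem _ _ (ha j n h y hy)

theorem E_gen (S : TCAModule R M) (e e' k : ℕ) (a : A k) (hk : k ≤ e) (hee : e ≤ e') :
    a ∈ E_D S e e' k := by
  intro j n h y hy
  induction hy using Submodule.span_induction with
  | mem z hz => exact Submodule.subset_span (e_smul S e e' k j n h a z hk hee hz)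
  | zero =>
    have h1 := S.smul.smul_right h (0 : ℂ) a (0 : M j)
    rw [zero_smul, zero_smul] at h1
    rw [h1]
    exact zero_mem _
  | add x y _ _ h1 h2 =>
    rw [S.smul.add_right]
    exact add_mem h1 h2
  | smul c x _ h1 =>
    rw [S.smul.smul_right]
    exact Submodule.smul_mem _ _ h1

theorem E_span (S : TCAModule R M) (e : ℕ) (hR : GenLE R e) (hS : S.FG) :
    ∃ e' : ℕ, e ≤ e' ∧ ∀ n, Submodule.span ℂ {z : M n | BlkE S e e' z} = ⊤ := by
  obtain ⟨s, hse, hs⟩ := hR
  obtain ⟨t, ht⟩ := hS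
  obtain ⟨e', hee, hte⟩ : ∃ e' : ℕ, e ≤ e' ∧ ∀ x ∈ t, x.1 ≤ e' := by
    refine ⟨e + ∑ x ∈ t, x.1, Nat.le_add_right _ _, fun x hx => ?_⟩
    have := Finset.single_le_sum (f := fun x : Σ n, M n => x.1) (fun _ _ => Nat.zero_le _) hx
    omega
  refine ⟨e', hee, ?_⟩
  have hD : ∀ n, E_D S e e' n = ⊤ := by
    refine hs (E_D S e e') (fun x hx => E_gen S e e' x.1 x.2 (hse x hx) hee) ?_ ?_ ?_
    · intro j n h y hy
      obtain rfl : n = j := by omega
      rw [S.one_smul]
      exact hy
    · intro n σ a ha j m h y hy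
      have h1 := S.smul.equivariant h σ 1 a y
      rw [S.seq.act_one] at h1
      rw [h1]
      exact E_act S e e' m _ _ (ha j m h y hy)
    · intro i j k h a ha b hb l n h2 y hy
      rw [S.mul_smul h h2 (rfl : j + l = j + l) (by omega : i + (j + l) = n)]
      exact ha _ _ _ _ (hb _ _ _ _ hy)
  refine ht ⟨E_C S e e', fun n σ x hx => E_act S e e' n σ x hx, ?_⟩ ?_
  · intro i j k h a x hx
    have ha : a ∈ E_D S e e' i := by
      rw [hD]
      trivial
    exact ha j k h x hx
  · intro x hx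
    obtain ⟨pos, blk, hB⟩ := (prGd A R M S e').1 x.1 x.2 (hte x hx)
    refine Submodule.subset_span ⟨fun y => Fin.castLE (hte x hx) y, fun _ => none, ⟨?_, ?_⟩, ?_⟩
    · intro y z hyz
      exact Fin.castLE_injective (hte x hx) (Prod.mk.inj hyz).2
    · intro Q
      refine ⟨0, x.1, Nat.zero_add _, R.one, x.2, 1, ?_, ?_⟩
      · rw [S.one_smul, S.seq.act_one]
      · intro y
        exact ⟨fun _ => Or.inl rfl, fun _ => Nat.zero_le _⟩
    · intro y hy
      exact absurd rfl hy

/-! ## One position -/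

/-- The growth condition. -/
def SlowE (M : ℕ → Type) [∀ n, AddCommGroup (M n)] [∀ n, Module ℂ (M n)] (e e' K : ℕ) : Prop :=
  ∀ r m : ℕ, K < r → r ^ 2 ≤ m → m ≤ e * r ^ 2 + e' →
    (Module.finrank ℂ (M m) : ℚ) < ((r : ℚ) / 6) ^ (r ^ 2)

private lemma E_via {α β γ : Type} (f : β ↪ γ) (g : γ ↪ α) (s : Perm β) :
    Perm.viaEmbeddingHom g (Perm.viaEmbeddingHom f s) = Perm.viaEmbeddingHom (f.trans g) s := by
  rw [Perm.viaEmbeddingHom_apply, Perm.viaEmbeddingHom_apply, Perm.viaEmbeddingHom_apply]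
  ext z
  by_cases hz : z ∈ Set.range (f.trans g)
  · obtain ⟨w, rfl⟩ := hz
    rw [Perm.viaEmbedding_apply]
    show (s.viaEmbedding f).viaEmbedding g (g (f w)) = g (f (s w))
    rw [Perm.viaEmbedding_apply, Perm.viaEmbedding_apply]
  · rw [Perm.viaEmbedding_apply_of_notMem _ (f.trans g) _ hz]
    by_cases hg : z ∈ Set.range g
    · obtain ⟨w, rfl⟩ := hg
      rw [Perm.viaEmbedding_apply, Perm.viaEmbedding_apply_of_notMem]
      rintro ⟨y, rfl⟩
      exact hz ⟨y, rfl⟩
    · rw [Perm.viaEmbedding_apply_of_notMem _ _ _ hg]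

private lemma E_card {l m n : ℕ} (h : l + m = n) :
    (Finset.univ.filter fun x : Fin n => l ≤ (x : ℕ)).card = m := by
  subst h
  have h1 : (Finset.univ.filter fun x : Fin (l + m) => l ≤ (x : ℕ)) =
      Finset.univ.map (Fin.natAddEmb l : Fin m ↪ Fin (l + m)) := by
    ext x
    simp only [Finset.mem_filter, Finset.mem_univ, true_and, Finset.mem_map]
    constructor
    · intro hx
      exact ⟨⟨x - l, by omega⟩, by ext; simp; omega⟩
    · rintro ⟨y, rfl⟩
      simp
  rw [h1, Finset.card_map, Finset.card_univ, Fintype.card_fin]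

private lemma E_pos (e e' : ℕ) : (Finset.univ.filter fun x : Fin e' => (x : ℕ) < e).card ≤ e := by
  have h : (Finset.univ.filter fun x : Fin e' => (x : ℕ) < e).card ≤ (Finset.range e).card := by
    refine Finset.card_le_card_of_injOn (fun x => (x : ℕ)) ?_ ?_
    · intro x hx
      simp only [Finset.coe_filter, Finset.mem_univ, true_and, Set.mem_ofPred_eq] at hx
      simpa using hx
    · intro x _ y _ hxy
      exact Fin.ext hxy
  rwa [Finset.card_range] at h

theorem E_one (S : TCAModule R M) (hfin : ∀ n, FiniteDimensional ℂ (M n)) (e e' K : ℕ)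
    (hslow : SlowE M e e' K) (n : ℕ) (z : M n) (pos : Fin n → Fin e') (blk : Fin n → Option ℕ)
    (hB : BlkD S e' pos blk z) (hpe : ∀ x, blk x ≠ none → (pos x : ℕ) < e) (s : Fin e') :
    z ∈ (⨆ c : {x : Fin n // pos x = s} → ZZ K,
      SI (par K) (resE (pe pos s) (rp S.seq n)) c) := by
  by_contra hz
  have _ := hfin n
  obtain ⟨r, hKr, hrcard, hτ⟩ := conGr {x : Fin n // pos x = s} (M n)
    (resE (pe pos s) (rp S.seq n)) z K hz
  obtain ⟨G, -, hG⟩ := Finset.exists_subset_card_eq
    (s := (Finset.univ : Finset {x : Fin n // pos x = s})) (n := r ^ 2)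
    (by rw [Finset.card_univ]; exact hrcard)
  have hcG : Fintype.card {x // x ∈ G} = r ^ 2 := by
    rw [Fintype.card_coe]
    exact hG
  obtain ⟨τ, hdim⟩ := hτ {x // x ∈ G} (OrderEmbedding.subtype _) hcG
  set g : {x // x ∈ G} ↪o {x : Fin n // pos x = s} := OrderEmbedding.subtype _ with hg
  set σ : Perm (Fin n) := Perm.viaEmbeddingHom (pe pos s).toEmbedding τ with hσ
  have hB' : BlkD S e' (pos ∘ ⇑σ⁻¹) (blk ∘ ⇑σ⁻¹) (S.seq.act n σ z) :=
    (prGd A R M S e').2 n z pos blk σ hB
  set pos' : Fin n → Fin e' := pos ∘ ⇑σ⁻¹ with hpos'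
  set blk' : Fin n → Option ℕ := blk ∘ ⇑σ⁻¹ with hblk'
  have hpe' : ∀ x, blk' x ≠ none → (pos' x : ℕ) < e := fun x hx => hpe _ hx
  set f : {x // x ∈ G} ↪o Fin n := g.trans (pe pos s) with hf
  set Q : Finset ℕ := Finset.univ.image (fun x : {x // x ∈ G} => (blk' (f x)).getD 0) with hQ
  have hQcard : Q.card ≤ r ^ 2 := by
    refine (Finset.card_image_le).trans ?_
    rw [Finset.card_univ, hcG]
  obtain ⟨hinj, hall⟩ := hB'
  obtain ⟨l, m, h, X, u, π, hz', hx⟩ := hall Q
  have hrange : ∀ x : {x // x ∈ G}, blk' (f x) = none ∨ ∃ q ∈ Q, blk' (f x) = some q := by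
    intro x
    rcases hb : blk' (f x) with _ | q
    · exact Or.inl rfl
    · refine Or.inr ⟨q, ?_, rfl⟩
      rw [hQ, Finset.mem_image]
      exact ⟨x, Finset.mem_univ _, by rw [hb]; rfl⟩
  have hle : ∀ x : {x // x ∈ G}, l ≤ ((π⁻¹ (f x) : Fin n) : ℕ) := by
    intro x
    have h7 : π (π⁻¹ (f x)) = f x := Equiv.apply_symm_apply π (f x)
    rw [hx, h7]
    exact hrange x
  have hTcard := E_card h
  -- lower bound of m
  have hm1 : r ^ 2 ≤ m := by
    rw [← hcG, ← hTcard, ← Finset.card_univ]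
    refine Finset.card_le_card_of_injOn (fun x => π⁻¹ (f x)) ?_ ?_
    · intro x _
      simp only [Finset.coe_filter, Finset.mem_univ, true_and, Set.mem_ofPred_eq]
      exact hle x
    · intro x _ y _ hxy
      exact f.injective ((π⁻¹).injective hxy)
  -- upper bound of m
  have hm2 : m ≤ e * r ^ 2 + e' := by
    have h1 : m ≤ (({none} : Finset (Option ℕ)) ×ˢ (Finset.univ : Finset (Fin e')) ∪
        (Q.image some) ×ˢ (Finset.univ.filter fun x : Fin e' => (x : ℕ) < e)).card := by
      rw [← hTcard]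
      refine Finset.card_le_card_of_injOn (fun x => (blk' (π x), pos' (π x))) ?_ ?_
      · intro x hxT
        simp only [Finset.coe_filter, Finset.mem_univ, true_and, Set.mem_ofPred_eq] at hxT
        rw [Finset.mem_coe, Finset.mem_union, Finset.mem_product, Finset.mem_product]
        rcases (hx x).1 hxT with h2 | ⟨q, hq, h2⟩
        · left
          refine ⟨?_, Finset.mem_univ _⟩
          show blk' (π x) ∈ _
          rw [h2]
          exact Finset.mem_singleton_self _
        · right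
          refine ⟨?_, ?_⟩
          · show blk' (π x) ∈ _
            rw [h2]
            exact Finset.mem_image_of_mem _ hq
          · rw [Finset.mem_filter]
            refine ⟨Finset.mem_univ _, hpe' _ ?_⟩
            rw [h2]
            exact Option.some_ne_none q
      · intro x _ y _ hxy
        exact π.injective (hinj hxy)
    refine h1.trans ((Finset.card_union_le _ _).trans ?_)
    rw [Finset.card_product, Finset.card_product, Finset.card_singleton, Finset.card_univ,
      Fintype.card_fin]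
    have h2 : (Q.image some).card ≤ r ^ 2 := Finset.card_image_le.trans hQcard
    have h3 := Nat.mul_le_mul h2 (E_pos e e')
    have h4 : r ^ 2 * e = e * r ^ 2 := Nat.mul_comm _ _
    omega
  have hGgf := prGg A R M S hfin {x // x ∈ G} n l m h X u π f (by
    rintro x ⟨y, hy⟩
    have h3 := hle y
    have h7 : π⁻¹ (π x) = x := Equiv.symm_apply_apply π x
    rw [hy, h7] at h3
    exact h3)
  have hset : {v | ∃ s' : Perm {x // x ∈ G}, v = resE g (resE (pe pos s) (rp S.seq n)) s'
      (resE (pe pos s) (rp S.seq n) τ z)} = {v | ∃ s' : Perm {x // x ∈ G},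
        v = resE f (rp S.seq n) s' (S.seq.act n π (S.smul.app h X u))} := by
    ext v
    have hs : ∀ s' : Perm {x // x ∈ G}, resE g (resE (pe pos s) (rp S.seq n)) s'
        (resE (pe pos s) (rp S.seq n) τ z) =
        resE f (rp S.seq n) s' (S.seq.act n π (S.smul.app h X u)) := by
      intro s'
      rw [← hz']
      show rp S.seq n (Perm.viaEmbeddingHom (pe pos s).toEmbedding
        (Perm.viaEmbeddingHom g.toEmbedding s')) (S.seq.act n σ z) =
        rp S.seq n (Perm.viaEmbeddingHom f.toEmbedding s') (S.seq.act n σ z)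
      rw [E_via]
      rfl
    constructor
    · rintro ⟨s', hs'⟩
      exact ⟨s', by rw [hs', hs]⟩
    · rintro ⟨s', hs'⟩
      exact ⟨s', by rw [hs', hs]⟩
  rw [hset] at hdim
  have h5 := hslow r m hKr hm1 hm2
  have h6 : (Module.finrank ℂ (Submodule.span ℂ {v | ∃ s' : Perm {x // x ∈ G},
        v = resE f (rp S.seq n) s' (S.seq.act n π (S.smul.app h X u))}) : ℚ) ≤
      (Module.finrank ℂ (M m) : ℚ) := by exact_mod_cast hGgf
  exact absurd (hdim.trans h6) (not_le.2 h5)

/-! ## Numbers -/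

/-- Growth at most `n^(c n)` with `2 e c < 1` is slow. -/
theorem E_num (d : ℕ → ℕ) (e e' : ℕ) (c : ℝ) (hc : 2 * e * c < 1)
    (hd : ∃ n0 : ℕ, ∀ n : ℕ, n0 ≤ n → (d n : ℝ) ≤ (n : ℝ) ^ (c * n)) :
    ∃ K : ℕ, ∀ r m : ℕ, K < r → r ^ 2 ≤ m → m ≤ e * r ^ 2 + e' →
      (d m : ℚ) < ((r : ℚ) / 6) ^ (r ^ 2) := by
  obtain ⟨n0, hn0⟩ := hd
  -- make the exponent nonnegative
  obtain ⟨b, hb0, hcb, hb⟩ : ∃ b : ℝ, 0 ≤ b ∧ c ≤ b ∧ 2 * e * b < 1 := by
    refine ⟨max c 0, le_max_right _ _, le_max_left _ _, ?_⟩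
    rcases le_total c 0 with h | h
    · rw [max_eq_right h]
      norm_num
    · rw [max_eq_left h]
      exact hc
  set L : ℝ := Real.log (e + e' + 1) with hL
  set C : ℝ := b * e * L + 2 * b * e' + b * e' * L + Real.log 6 with hC
  obtain ⟨K0, hK0⟩ := exists_nat_gt (Real.exp (C / (1 - 2 * e * b)))
  refine ⟨max (max K0 n0) (max e' 6), fun r m hr h1 h2 => ?_⟩
  rw [max_lt_iff, max_lt_iff, max_lt_iff] at hr
  obtain ⟨⟨hr1, hr2⟩, hr3, hr4⟩ := hr
  have hrr : r ≤ r ^ 2 := Nat.le_self_pow (by norm_num) r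
  have hm := hn0 m (by omega)
  have hδ : 0 < 1 - 2 * e * b := by linarith
  have hr6 : (6 : ℝ) < r := by exact_mod_cast hr4
  have hr0 : (0 : ℝ) < r := by linarith
  have hm1 : (1 : ℝ) ≤ (m : ℝ) := by
    have : 1 ≤ m := by omega
    exact_mod_cast this
  have hm0 : (0 : ℝ) < m := by linarith
  have hmr : (m : ℝ) ≤ e * (r : ℝ) ^ 2 + e' := by exact_mod_cast h2
  have hr2' : (1 : ℝ) ≤ (r : ℝ) ^ 2 := by nlinarith
  have he0 : (0 : ℝ) ≤ e := Nat.cast_nonneg e
  have he0' : (0 : ℝ) ≤ e' := Nat.cast_nonneg e'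
  have hL0 : 0 ≤ L := Real.log_nonneg (by linarith)
  have hlogm0 : 0 ≤ Real.log m := Real.log_nonneg hm1
  -- the logarithm of `m`
  have hlogm : Real.log m ≤ 2 * Real.log r + L := by
    have h3 : (m : ℝ) ≤ (r : ℝ) ^ 2 * (e + e' + 1) := by nlinarith
    have h4 := Real.log_le_log hm0 h3
    rw [Real.log_mul (by positivity) (by positivity), Real.log_pow] at h4
    push_cast at h4
    exact h4
  have hlogr : C / (1 - 2 * e * b) < Real.log r := by
    rw [Real.lt_log_iff_exp_lt hr0]
    exact lt_trans hK0 (by exact_mod_cast hr1)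
  have hlogr2 : C < (1 - 2 * e * b) * Real.log r := by
    rw [div_lt_iff₀ hδ] at hlogr
    linarith
  have hlogr0 : 0 ≤ Real.log r := Real.log_nonneg (by linarith)
  have hlogr3 : Real.log r ≤ (r : ℝ) ^ 2 := by
    have := Real.log_le_sub_one_of_pos hr0
    nlinarith
  -- comparison of the exponents
  have hmain : b * m * Real.log m < (r : ℝ) ^ 2 * (Real.log r - Real.log 6) := by
    have h3 : b * m * Real.log m ≤ b * (e * (r : ℝ) ^ 2 + e') * (2 * Real.log r + L) := by
      apply mul_le_mul (mul_le_mul_of_nonneg_left hmr hb0) hlogm hlogm0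
      positivity
    have h4 : b * e' * (2 * Real.log r) ≤ (r : ℝ) ^ 2 * (2 * b * e') := by
      have : b * e' * (2 * Real.log r) = (2 * b * e') * Real.log r := by ring
      rw [this, mul_comm ((r : ℝ) ^ 2)]
      exact mul_le_mul_of_nonneg_left hlogr3 (by positivity)
    have h5 : b * e' * L ≤ (r : ℝ) ^ 2 * (b * e' * L) :=
      le_mul_of_one_le_left (by positivity) hr2'
    have h6 : (r : ℝ) ^ 2 * C < (r : ℝ) ^ 2 * ((1 - 2 * e * b) * Real.log r) :=
      mul_lt_mul_of_pos_left hlogr2 (by positivity)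
    rw [hC] at h6
    nlinarith
  have hlast : (d m : ℝ) < ((r : ℝ) / 6) ^ (r ^ 2) := by
    calc (d m : ℝ) ≤ (m : ℝ) ^ (c * m) := hm
      _ ≤ (m : ℝ) ^ (b * m) :=
          Real.rpow_le_rpow_of_exponent_le hm1 (mul_le_mul_of_nonneg_right hcb hm0.le)
      _ = Real.exp (b * m * Real.log m) := by
          rw [Real.rpow_def_of_pos hm0]
          congr 1
          ring
      _ < Real.exp ((r : ℝ) ^ 2 * (Real.log r - Real.log 6)) := Real.exp_lt_exp.mpr hmain
      _ = ((r : ℝ) / 6) ^ (r ^ 2) := by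
          rw [← Real.log_div hr0.ne' (by norm_num)]
          have h7 : (r : ℝ) ^ 2 = ((r ^ 2 : ℕ) : ℝ) := by push_cast; rfl
          rw [h7, Real.exp_nat_mul, Real.exp_log (by positivity)]
  have hq : ((d m : ℚ) : ℝ) < ((((r : ℚ) / 6) ^ (r ^ 2) : ℚ) : ℝ) := by
    push_cast
    exact hlast
  exact (Rat.cast_lt (K := ℝ)).mp hq

/-! ## The theorem -/

/-- Slow growth implies boundedness. -/
theorem E_bdd (S : TCAModule R M) (e : ℕ) (hR : GenLE R e) (hS : S.FG)
    (hfin : ∀ n, FiniteDimensional ℂ (M n)) (c : ℝ) (hc : 2 * e * c < 1)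
    (hgrow : ∃ n0 : ℕ, ∀ n : ℕ, n0 ≤ n → (Module.finrank ℂ (M n) : ℝ) ≤ (n : ℝ) ^ (c * n)) :
    ∃ k : ℕ, ∀ n, Bdd k (rp S.seq n) := by
  obtain ⟨e', _, hspan⟩ := E_span S e hR hS
  obtain ⟨K, hK⟩ := E_num (fun n => Module.finrank ℂ (M n)) e e' c hc hgrow
  refine ⟨e' * K, fun n => ?_⟩
  have h1 : (⊤ : Submodule ℂ (M n)) ≤
      ⨆ c : Fin n → ZZ (e' * K), SI (par (e' * K)) (rp S.seq n) c := by
    rw [← hspan n, Submodule.span_le]
    rintro z ⟨pos, blk, hz, hpe⟩
    exact conGc (Fin n) (M n) (rp S.seq n) e' K pos z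
      (fun s => E_one S hfin e e' K hK n z pos blk hz hpe s)
  exact fun v => h1 Submodule.mem_top

/-- **Theorem EG.** Let `A` be generated by finitely many elements of degrees at most `e`, `M` a
finitely generated `A`-module and `c < 1 / (2 e)`.  If `dim M_n ≤ n^(c n)` for all large `n`, then
the Hilbert series of `M` is D-finite. -/
theorem eg_main (S : TCAModule R M) (e : ℕ) (hR : GenLE R e) (hS : S.FG)
    (hfin : ∀ n, FiniteDimensional ℂ (M n)) (c : ℝ) (hc : 2 * e * c < 1)
    (hgrow : ∃ n0 : ℕ, ∀ n : ℕ, n0 ≤ n → (Module.finrank ℂ (M n) : ℝ) ≤ (n : ℝ) ^ (c * n)) :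
    DFinite (hilb M) := by
  obtain ⟨k, hk⟩ := E_bdd S e hR hS hfin c hc hgrow
  exact conCore A R M S hR.fg hS hfin k hk

end

end Pool.Agent.Work.MP_6da7fa_al.EG
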