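import Pool.Agent.Work.MP_6da7fa_al.MB.Defs2

set_option autoImplicit false

/-!
# Theorem EG: definitions

Colourings with parity, semi-invariants of Young subgroups, alphabets, Frobenius coordinates.
-/

namespace Pool.Agent.Work.MP_6da7fa_al.EG

open Equiv

/-! ## Colourings and signs -/

section
variable {α Z : Type} [Fintype α] [LinearOrder α]

/-- The sign of `σ` on the letters of odd colour: `-1` to the number of pairs `x < y` of letters of
odd colour with `σ y < σ x`. -/
def sg (p : Z → Bool) (c : α → Z) (σ : Perm α) : ℤ :=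
  ∏ x : α × α, if x.1 < x.2 ∧ p (c x.1) = true ∧ p (c x.2) = true ∧ σ x.2 < σ x.1 then -1 else 1

/-- The type of a colouring: the number of letters of each colour. -/
def typ [DecidableEq Z] (c : α → Z) (z : Z) : ℕ := (Finset.univ.filter fun x => c x = z).card

variable {V : Type} [AddCommGroup V] [Module ℂ V]

/-- The semi-invariant vectors of the colouring `c`: the permutations that preserve the colours act
through the sign on the letters of odd colour. -/
def SI (p : Z → Bool) (ρ : Representation ℂ (Perm α) V) (c : α → Z) : Submodule ℂ V where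
  carrier := {v | ∀ σ : Perm α, c ∘ σ = c → ρ σ v = ((sg p c σ : ℤ) : ℂ) • v}
  add_mem' := by
    intro v w hv hw σ hσ
    rw [map_add, hv σ hσ, hw σ hσ, smul_add]
  zero_mem' := by
    intro σ _
    rw [map_zero, smul_zero]
  smul_mem' := by
    intro r v hv σ hσ
    rw [map_smul, hv σ hσ, smul_comm]

/-- Dimension of the semi-invariants. -/
noncomputable def hn (p : Z → Bool) (ρ : Representation ℂ (Perm α) V) (c : α → Z) : ℕ :=
  Module.finrank ℂ (SI p ρ c)

/-- The projection onto the semi-invariants. -/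
noncomputable def PP [DecidableEq Z] (p : Z → Bool) (ρ : Representation ℂ (Perm α) V)
    (c : α → Z) : V →ₗ[ℂ] V :=
  (((Finset.univ.filter fun σ : Perm α => c ∘ σ = c).card : ℂ))⁻¹ •
    ∑ σ ∈ Finset.univ.filter (fun σ : Perm α => c ∘ σ = c), ((sg p c σ : ℤ) : ℂ) • ρ σ

open Classical in
/-- Dimension of the semi-invariants of a type (`0` if there is no colouring of this type). -/
noncomputable def hT [DecidableEq Z] (p : Z → Bool) (ρ : Representation ℂ (Perm α) V)
    (t : Z → ℕ) : ℕ :=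
  if h : ∃ c : α → Z, typ c = t then hn p ρ h.choose else 0

end

/-- Number of matrices with row sums `t`, column sums `t'`, and entries at most one where the
parities differ. -/
noncomputable def NN {Z Z' : Type} [Fintype Z] [Fintype Z'] (p : Z → Bool) (p' : Z' → Bool)
    (t : Z → ℕ) (t' : Z' → ℕ) : ℕ :=
  Nat.card {ν : Z → Z' → ℕ // (∀ z, ∑ z', ν z z' = t z) ∧ (∀ z', ∑ z, ν z z' = t' z') ∧
    ∀ z z', p z ≠ p' z' → ν z z' ≤ 1}

/-- The types of size `n`. -/
def TT (Z : Type) [Fintype Z] [DecidableEq Z] (n : ℕ) : Finset (Z → ℕ) :=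
  Finset.piAntidiag Finset.univ n

/-- `k` even and `k` odd colours. -/
abbrev ZZ (k : ℕ) : Type := Fin k ⊕ Fin k

/-- The parity on `ZZ k`. -/
def par (k : ℕ) : ZZ k → Bool := Sum.elim (fun _ => false) (fun _ => true)

/-! ## Alphabets -/

section
variable {Z R : Type} [Fintype Z] [DecidableEq Z] [CommRing R]

/-- `h_n` of the alphabet `z`: the exponents are at most one at the odd letters.
(`e_n` is `h_n` for the opposite parity.) -/
def hh (p : Z → Bool) (z : Z → R) (n : ℕ) : R :=
  ∑ ν ∈ (TT Z n).filter (fun ν => ∀ i, p i = true → ν i ≤ 1), ∏ i, z i ^ ν i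

/-- opposite parity -/
def op (p : Z → Bool) : Z → Bool := fun i => !p i

/-- The hook function `S(a, b) = ∑_{j ≤ b} (-1)^j h_{a+1+j} e_{b-j}`. -/
def SS (p : Z → Bool) (z : Z → R) (a b : ℕ) : R :=
  ∑ j ∈ Finset.range (b + 1), (-1) ^ j * hh p z (a + 1 + j) * hh (op p) z (b - j)

/-- Giambelli determinant. -/
def sdet (p : Z → Bool) (z : Z → R) {i : ℕ} (a b : Fin i → ℕ) : R :=
  Matrix.det (Matrix.of fun q r => SS p z (a q) (b r))

/-- The product over the rows of a type `t` on the colours `Y`: `h` for even, `e` for odd rows. -/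
def rows {Y : Type} [Fintype Y] (p : Y → Bool) (p' : Z → Bool) (z : Z → R) (t : Y → ℕ) : R :=
  ∏ y, if p y = true then hh (op p') z (t y) else hh p' z (t y)

end

/-- `(-1)^j` if `α = a + 1 + j`, `β = b - j` with `0 ≤ j ≤ b`, otherwise `0`. -/
def kap (a b α β : ℕ) : ℤ := if a < α ∧ α + β = a + b + 1 then (-1) ^ (α - a - 1) else 0

/-- The coefficients of the Giambelli determinant. -/
def KK {i : ℕ} (a b : Fin i → ℕ) (t : ZZ i → ℕ) : ℤ :=
  ∑ w : Perm (Fin i), (Perm.sign w : ℤ) * ∏ q, kap (a q) (b (w q)) (t (Sum.inl q)) (t (Sum.inr q))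

/-- size -/
def sz {i : ℕ} (a b : Fin i → ℕ) : ℕ := ∑ q, (a q + b q + 1)

/-- The multiplicity functional. -/
noncomputable def mm {α V : Type} [Fintype α] [LinearOrder α] [AddCommGroup V] [Module ℂ V]
    (ρ : Representation ℂ (Perm α) V) {i : ℕ} (a b : Fin i → ℕ) : ℤ :=
  ∑ t ∈ TT (ZZ i) (Fintype.card α), KK a b t * (hT (par i) ρ t : ℤ)

/-! ## Polynomials on the alphabet `ZZ k` -/

open MvPolynomial in
/-- `∏ (x_q + y_r)` -/
noncomputable def EE (k : ℕ) : MvPolynomial (ZZ k) ℤ :=
  ∏ q : Fin k, ∏ r : Fin k, (X (Sum.inl q) + X (Sum.inr r))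

open MvPolynomial in
/-- `EE` times the Cauchy determinant `det (1 / (x_q + y_r))` -/
noncomputable def DD (k : ℕ) : MvPolynomial (ZZ k) ℤ :=
  ∑ w : Perm (Fin k), (Perm.sign w : ℤ) •
    ∏ x ∈ Finset.univ.filter (fun x : Fin k × Fin k => x.2 ≠ w x.1),
      (X (Sum.inl x.1) + X (Sum.inr x.2))

open MvPolynomial in
/-- `det (x_r ^ a_q)` -/
noncomputable def AA {k : ℕ} (a : Fin k → ℕ) : MvPolynomial (ZZ k) ℤ :=
  Matrix.det (Matrix.of fun q r : Fin k => (X (Sum.inl r) : MvPolynomial (ZZ k) ℤ) ^ a q)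

open MvPolynomial in
/-- `det (y_r ^ b_q)` -/
noncomputable def BB {k : ℕ} (b : Fin k → ℕ) : MvPolynomial (ZZ k) ℤ :=
  Matrix.det (Matrix.of fun q r : Fin k => (X (Sum.inr r) : MvPolynomial (ZZ k) ℤ) ^ b q)

/-- The exponent `(a, b)`. -/
noncomputable def ex {k : ℕ} (a b : Fin k → ℕ) : ZZ k →₀ ℕ :=
  Finsupp.equivFunOnFinite.symm (Sum.elim a b)

/-- The functional `F ↦ ∑_t K(t) [z^t] F`. -/
noncomputable def kapF {k : ℕ} (a b : Fin k → ℕ) (F : MvPolynomial (ZZ k) ℤ) : ℤ :=
  ∑ t ∈ F.support, KK a b t * F.coeff t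

/-- The functional for `w = 1`. -/
noncomputable def kap0 {k : ℕ} (a b : Fin k → ℕ) (F : MvPolynomial (ZZ k) ℤ) : ℤ :=
  ∑ t ∈ F.support, (∏ q, kap (a q) (b q) (t (Sum.inl q)) (t (Sum.inr q))) * F.coeff t

/-- invariant under permutations of the `y` -/
def SymY {k : ℕ} (F : MvPolynomial (ZZ k) ℤ) : Prop :=
  ∀ w : Perm (Fin k), MvPolynomial.rename (Sum.map id w) F = F

/-- invariant under permutations of the `x` -/
def SymX {k : ℕ} (F : MvPolynomial (ZZ k) ℤ) : Prop :=
  ∀ w : Perm (Fin k), MvPolynomial.rename (Sum.map w id) F = F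

open MvPolynomial in
/-- substitution `y_r := - x_q` -/
noncomputable def sub {k : ℕ} (q r : Fin k) : MvPolynomial (ZZ k) ℤ →ₐ[ℤ] MvPolynomial (ZZ k) ℤ :=
  aeval (fun i => if i = Sum.inr r then - X (Sum.inl q) else X i)

/-- `1 / (a! b! (a + b + 1))` -/
def gg (a b : ℕ) : ℚ := 1 / ((a.factorial : ℚ) * (b.factorial : ℚ) * ((a : ℚ) + b + 1))

/-- A complete system of irreducible representations of `Perm α`. -/
structure IrrSys (α : Type) [Fintype α] [DecidableEq α] where
  ι : Type
  fin : Fintype ι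
  d : ι → ℕ
  ρ : ∀ i, Representation ℂ (Perm α) (Fin (d i) → ℂ)
  irr : ∀ i, (ρ i).IsIrreducible
  inj : ∀ i j, (ρ i).character = (ρ j).character → i = j
  compl : ∀ (V : Type) [AddCommGroup V] [Module ℂ V] [FiniteDimensional ℂ V]
    (σ : Representation ℂ (Perm α) V), σ.IsIrreducible → ∃ i, σ.character = (ρ i).character

attribute [instance] IrrSys.fin

end Pool.Agent.Work.MP_6da7fa_al.EG
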