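import Pool.Agent.Work.MP_6da7fa_al.EG.Defs

set_option autoImplicit false

/-!
# Theorem EG: definitions for parts H (Hilbert functions), R (regions) and the assembly
-/

namespace Pool.Agent.Work.MP_6da7fa_al.EG

open Equiv
open Pool.Agent.Work.MP_6da7fa_al.MB (wt ev gs FibFin cone)

/-! ## Free cones and good sets -/

/-- The affine map `m ↦ g + ∑ m_j G_j`. -/
def aff {r : ℕ} {X : Type} (g : X → ℕ) (G : Fin r → X → ℕ) (m : Fin r → ℕ) : X → ℕ :=
  fun x => g x + ∑ j, m j * G j x

/-- Finite disjoint unions of free cones (images of injective affine maps `ℕ^r → ℕ^X`). -/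
inductive Good {X : Type} : Set (X → ℕ) → Prop
  | empty : Good ∅
  | add (r : ℕ) (g : X → ℕ) (G : Fin r → X → ℕ) (T : Set (X → ℕ)) :
      Function.Injective (aff g G) → Disjoint (Set.range (aff g G)) T → Good T →
      Good (Set.range (aff g G) ∪ T)

/-- The extension of a set by two coordinates `k`, `k'` with `k + k' + 1 = c + ∑ u_x x`. -/
def extS {X : Type} [Fintype X] (S : Set (X → ℕ)) (c : ℕ) (u : X → ℕ) : Set (X ⊕ Bool → ℕ) :=
  {y | (fun x => y (Sum.inl x)) ∈ S ∧
    y (Sum.inr false) + y (Sum.inr true) + 1 = wt c u (fun x => y (Sum.inl x))}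

/-- Sign times a product of reciprocal factorials of affine forms. -/
noncomputable def hterm {X : Type} [Fintype X] (s0 : ℕ) (s : X → ℕ) {Q : Type} [Fintype Q]
    (e : Q → ℕ) (d : Q → X → ℕ) (x : X → ℕ) : ℂ :=
  (-1) ^ wt s0 s x * ∏ q, (((wt (e q) (d q) x).factorial : ℂ))⁻¹

/-- Conclusion of part R (1): extensions of good sets are good. -/
def ConR1 : Prop := ∀ (X : Type) [Fintype X] [DecidableEq X] (S : Set (X → ℕ)) (c : ℕ) (u : X → ℕ),
  Good S → Good (extS S c u)

open Classical in
/-- Conclusion of part R (2): sums of hypergeometric terms over good sets are D-finite. -/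
def ConR2 : Prop := ∀ (X : Type) [Fintype X] [DecidableEq X] (S : Set (X → ℕ)) (e : ℕ) (d : X → ℕ)
  (s0 : ℕ) (s : X → ℕ) (Q : Type) [Fintype Q] (eq : Q → ℕ) (dq : Q → X → ℕ), Good S →
  (∀ n, {x | x ∈ S ∧ wt e d x = n}.Finite) →
  DFinite (gs (wt e d) (fun x => if x ∈ S then hterm s0 s eq dq x else 0))

/-! ## Modules over twisted commutative algebras -/

section
variable {M : ℕ → Type} [∀ n, AddCommGroup (M n)] [∀ n, Module ℂ (M n)]

/-- The representation of `S_n` on `M_n`. -/
def rp (s : SymSeq M) (n : ℕ) : Representation ℂ (Perm (Fin n)) (M n) where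
  toFun σ :=
    { toFun := s.act n σ
      map_add' := s.act_add n σ
      map_smul' := s.act_smul n σ }
  map_one' := by
    ext v
    exact s.act_one n v
  map_mul' := by
    intro σ τ
    ext v
    exact s.act_mul n σ τ v

end

/-- `h` is a finite sum of counting functions of lattice points of free cones:
`h(t) = ∑_C #{m : γ_C + ∑ m_j u_{C,j} = t}` with nonzero `u`. -/
def HSf {Z : Type} (h : (Z → ℕ) → ℕ) : Prop :=
  ∃ (ι : Type) (_ : Fintype ι) (r : ι → ℕ) (γ : ι → Z → ℕ) (u : ∀ C, Fin (r C) → Z → ℕ),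
    (∀ C j, u C j ≠ 0) ∧ ∀ t, h t = ∑ C, Nat.card {m : Fin (r C) → ℕ // aff (γ C) (u C) m = t}

/-- Conclusion of part H: the dimensions of the semi-invariants in the components of a finitely
generated module. -/
def ConHS : Prop := ∀ (A : ℕ → Type) [∀ n, AddCommGroup (A n)] [∀ n, Module ℂ (A n)] (R : TCA A)
  (M : ℕ → Type) [∀ n, AddCommGroup (M n)] [∀ n, Module ℂ (M n)] (S : TCAModule R M),
  R.FG → S.FG → (∀ n, FiniteDimensional ℂ (M n)) →
  ∀ (Z : Type) [Fintype Z] [DecidableEq Z] (p : Z → Bool),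
    HSf (fun t => hT p (rp S.seq (∑ z, t z)) t)

/-- `V` is spanned by the semi-invariants for colourings with `k` even and `k` odd colours. -/
def Bdd {α V : Type} [Fintype α] [LinearOrder α] [AddCommGroup V] [Module ℂ V]
    (k : ℕ) (ρ : Representation ℂ (Perm α) V) : Prop :=
  ∀ v : V, v ∈ ⨆ c : α → ZZ k, SI (par k) ρ c

end Pool.Agent.Work.MP_6da7fa_al.EG
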