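import Pool.Agent.Work.MP_6da7fa_al.EG.StmtsV

set_option autoImplicit false

/-!
# Theorem EG, item Am: antisymmetry of the multiplicity functional
-/

namespace Pool.Agent.Work.MP_6da7fa_al.EG

open Equiv

private theorem Am_b {i : ℕ} (a b : Fin i → ℕ) (v : Perm (Fin i)) (t : ZZ i → ℕ) :
    KK a (b ∘ v) t = (Perm.sign v : ℤ) * KK a b t := by
  unfold KK
  rw [Finset.mul_sum]
  refine Fintype.sum_equiv (Equiv.mulLeft v) _ _ fun w => ?_
  show (Perm.sign w : ℤ) * ∏ q, kap (a q) (b (v (w q))) (t (Sum.inl q)) (t (Sum.inr q)) =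
    (Perm.sign v : ℤ) * ((Perm.sign (v * w) : ℤ) *
      ∏ q, kap (a q) (b ((v * w) q)) (t (Sum.inl q)) (t (Sum.inr q)))
  rw [← mul_assoc]
  congr 1
  rw [Perm.sign_mul, Units.val_mul, ← mul_assoc]
  have h : (Perm.sign v : ℤ) * (Perm.sign v : ℤ) = 1 := by
    rw [← Units.val_mul, Int.units_mul_self, Units.val_one]
  rw [h, one_mul]

private theorem Am_a {i : ℕ} (a b : Fin i → ℕ) (u : Perm (Fin i)) (t : ZZ i → ℕ) :
    KK (a ∘ u) b (t ∘ (Equiv.sumCongr u u)) = (Perm.sign u : ℤ) * KK a b t := by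
  unfold KK
  rw [Finset.mul_sum]
  refine Fintype.sum_equiv (Equiv.mulRight u⁻¹) _ _ fun w => ?_
  show (Perm.sign w : ℤ) * ∏ q, kap (a (u q)) (b (w q)) (t (Sum.inl (u q))) (t (Sum.inr (u q))) =
    (Perm.sign u : ℤ) * ((Perm.sign (w * u⁻¹) : ℤ) *
      ∏ q, kap (a q) (b ((w * u⁻¹) q)) (t (Sum.inl q)) (t (Sum.inr q)))
  rw [← mul_assoc, ← Equiv.prod_comp u (fun q => kap (a q) (b ((w * u⁻¹) q)) (t (Sum.inl q))
    (t (Sum.inr q)))]
  have h : (Perm.sign u : ℤ) * (Perm.sign u : ℤ) = 1 := by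
    rw [← Units.val_mul, Int.units_mul_self, Units.val_one]
  have h2 : (Perm.sign u : ℤ) * (Perm.sign (w * u⁻¹) : ℤ) = (Perm.sign w : ℤ) := by
    rw [Perm.sign_mul, Perm.sign_inv, Units.val_mul, mul_comm (Perm.sign w : ℤ), ← mul_assoc, h,
      one_mul]
  rw [h2]
  congr 1
  refine Finset.prod_congr rfl fun q _ => ?_
  rw [Perm.mul_apply]
  have h3 : u⁻¹ (u q) = q := u.symm_apply_apply q
  rw [h3]

theorem prAm : StAm := by
  intro hT0 α V _ _ _ _ ρ i a b u v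
  unfold mm
  rw [Finset.mul_sum]
  symm
  refine Finset.sum_equiv (⟨fun t => t ∘ (Equiv.sumCongr u u), fun t => t ∘ (Equiv.sumCongr u u).symm,
    fun t => ?_, fun t => ?_⟩ : (ZZ i → ℕ) ≃ (ZZ i → ℕ)) ?_ ?_
  · funext z
    simp
  · funext z
    simp
  · intro t
    show t ∈ TT (ZZ i) (Fintype.card α) ↔ t ∘ (Equiv.sumCongr u u) ∈ TT (ZZ i) (Fintype.card α)
    unfold TT
    rw [Finset.mem_piAntidiag, Finset.mem_piAntidiag]
    have h1 : ∑ z, (t ∘ (Equiv.sumCongr u u)) z = ∑ z, t z :=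
      Equiv.sum_comp (Equiv.sumCongr u u) t
    rw [h1]
    simp
  · intro t _
    show (Perm.sign u : ℤ) * (Perm.sign v : ℤ) * (KK a b t * (hT (par i) ρ t : ℤ)) =
      KK (a ∘ u) (b ∘ v) (t ∘ (Equiv.sumCongr u u)) *
        (hT (par i) ρ (t ∘ (Equiv.sumCongr u u)) : ℤ)
    rw [Am_a, Am_b, hT0 α (ZZ i) V (par i) ρ t (Equiv.sumCongr u u) ?_]
    · ring
    · rintro (z | z) <;> rfl

end Pool.Agent.Work.MP_6da7fa_al.EG
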