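import Pool.Agent.Work.MP_6da7fa_al.EG.StmtsD

set_option autoImplicit false

/-!
# Theorem EG, item De1: scalar multiples and finite sums of D-finite series
-/

namespace Pool.Agent.Work.MP_6da7fa_al.EG

open PowerSeries Polynomial

theorem De1_iter (c : ℂ) (f : PowerSeries ℂ) (i : ℕ) :
    (PowerSeries.derivative ℂ)^[i] (c • f) = c • (PowerSeries.derivative ℂ)^[i] f := by
  induction i with
  | zero => rfl
  | succ i ih =>
    rw [Function.iterate_succ_apply', Function.iterate_succ_apply', ih, Derivation.map_smul]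

theorem De1_zero : DFinite (0 : PowerSeries ℂ) := by
  refine ⟨0, fun _ => 1, ⟨0, one_ne_zero⟩, ?_⟩
  refine Finset.sum_eq_zero (fun i _ => ?_)
  have h : (PowerSeries.derivative ℂ)^[(i : ℕ)] (0 : PowerSeries ℂ) = 0 := by
    have h1 := De1_iter 0 (0 : PowerSeries ℂ) (i : ℕ)
    rw [zero_smul, zero_smul] at h1
    exact h1
  rw [h, mul_zero]

theorem De1_smul (c : ℂ) (f : PowerSeries ℂ) (hf : DFinite f) : DFinite (c • f) := by
  obtain ⟨r, p, hp, h⟩ := hf
  refine ⟨r, p, hp, ?_⟩
  have h1 : ∀ i : Fin (r + 1), ((p i : ℂ[X]) : PowerSeries ℂ) *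
      (PowerSeries.derivative ℂ)^[(i : ℕ)] (c • f) =
      c • (((p i : ℂ[X]) : PowerSeries ℂ) * (PowerSeries.derivative ℂ)^[(i : ℕ)] f) := by
    intro i
    rw [De1_iter, mul_smul_comm]
  rw [Finset.sum_congr rfl (fun i _ => h1 i), ← Finset.smul_sum, h, smul_zero]

theorem prDe1 : StDe1 := by
  intro hA
  refine ⟨De1_smul, ?_⟩
  intro ι s f hf
  classical
  induction s using Finset.induction_on with
  | empty =>
    rw [Finset.sum_empty]
    exact De1_zero
  | insert a s ha ih =>
    rw [Finset.sum_insert ha]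
    exact hA _ _ (hf a (Finset.mem_insert_self _ _))
      (ih (fun j hj => hf j (Finset.mem_insert_of_mem hj)))

end Pool.Agent.Work.MP_6da7fa_al.EG
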