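import Pool.Agent.Work.MP_6da7fa_al.EG.StmtsG

set_option autoImplicit false

/-!
# Item Gd: block structures, the base case and permutations
-/

namespace Pool.Agent.Work.MP_6da7fa_al.EG

open Equiv

theorem prGd : StGd := by
  intro A _ _ R M _ _ S e
  refine ⟨?_, ?_⟩
  · intro n z hn
    refine ⟨fun x => Fin.castLE hn x, fun _ => none, ?_, ?_⟩
    · intro x y hxy
      have h1 : Fin.castLE hn x = Fin.castLE hn y := (Prod.mk.inj hxy).2
      exact Fin.castLE_injective hn h1
    · intro Q
      refine ⟨0, n, Nat.zero_add n, R.one, z, 1, ?_, ?_⟩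
      · rw [S.one_smul, S.seq.act_one]
      · intro x
        exact ⟨fun _ => Or.inl rfl, fun _ => Nat.zero_le _⟩
  · intro n z pos blk σ hz
    obtain ⟨hinj, hQ⟩ := hz
    refine ⟨?_, ?_⟩
    · intro x y hxy
      have h1 : σ⁻¹ x = σ⁻¹ y := by
        apply hinj
        exact hxy
      exact (σ⁻¹).injective h1
    · intro Q
      obtain ⟨l, m, h, X, u, π, h1, h2⟩ := hQ Q
      refine ⟨l, m, h, X, u, σ * π, ?_, ?_⟩
      · rw [h1, S.seq.act_mul]
      · intro x
        have h3 := h2 x
        have h4 : (blk ∘ ⇑σ⁻¹) ((σ * π) x) = blk (π x) := by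
          simp
        rw [h4]
        exact h3

end Pool.Agent.Work.MP_6da7fa_al.EG
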