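import Pool.Agent.Work.MP_6da7fa_al.EG.StmtsH

set_option autoImplicit false

namespace Pool.Agent.Work.MP_6da7fa_al.EG

theorem prH9 : StH9 := by
  intro Z a n m h
  refine ⟨?_, ?_, ?_⟩
  · intro _ b c
    subst h
    funext z
    have e : ∀ {k : ℕ} (f : Fin k → Z), typ f z = ∑ x, if f x = z then 1 else 0 := by
      intro k f
      show (Finset.univ.filter fun x => f x = z).card = _
      rw [Finset.card_filter]
    rw [Pi.add_apply, e, e, e, Fin.sum_univ_add]
    simp [cat]
  · intro c
    subst h
    refine ⟨fun x => c (Fin.castAdd n x), fun x => c (Fin.natAdd a x), ?_⟩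
    funext x
    refine Fin.addCases (fun z => ?_) (fun z => ?_) x
    · simp [cat]
    · simp [cat]
  · intro p b c σ
    refine ⟨MB.append_lift h b c σ, ?_⟩
    subst h
    have hl : ∀ x : Fin a, blockSum (rfl : a + n = a + n) 1 σ (Fin.castAdd n x) = Fin.castAdd n x := by
      intro x
      have := MB.lift_zero_side (rfl : a + n = a + n) σ x
      simpa using this
    have hr : ∀ x : Fin n, blockSum (rfl : a + n = a + n) 1 σ (Fin.natAdd a x) =
        Fin.natAdd a (σ x) := by
      intro x
      have := MB.lift_add_side (rfl : a + n = a + n) σ x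
      simpa using this
    have hcl : ∀ x : Fin a, cat (rfl : a + n = a + n) b c (Fin.castAdd n x) = b x := by
      intro x; simp [cat]
    have hcr : ∀ x : Fin n, cat (rfl : a + n = a + n) b c (Fin.natAdd a x) = c x := by
      intro x; simp [cat]
    unfold sg
    rw [Fintype.prod_prod_type, Fintype.prod_prod_type, Fin.prod_univ_add]
    have h1 : ∏ x : Fin a, ∏ y : Fin (a + n),
        (if (Fin.castAdd n x, y).1 < (Fin.castAdd n x, y).2 ∧
          p (cat (rfl : a + n = a + n) b c (Fin.castAdd n x, y).1) = true ∧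
          p (cat (rfl : a + n = a + n) b c (Fin.castAdd n x, y).2) = true ∧
          blockSum (rfl : a + n = a + n) 1 σ (Fin.castAdd n x, y).2 <
          blockSum (rfl : a + n = a + n) 1 σ (Fin.castAdd n x, y).1 then (-1 : ℤ) else 1) = 1 := by
      refine Finset.prod_eq_one fun x _ => ?_
      rw [Fin.prod_univ_add]
      have h2 : ∀ y : Fin a, ¬ (Fin.castAdd n x < Fin.castAdd n y ∧
          p (cat (rfl : a + n = a + n) b c (Fin.castAdd n x)) = true ∧
          p (cat (rfl : a + n = a + n) b c (Fin.castAdd n y)) = true ∧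
          blockSum (rfl : a + n = a + n) 1 σ (Fin.castAdd n y) <
          blockSum (rfl : a + n = a + n) 1 σ (Fin.castAdd n x)) := by
        rintro y ⟨h3, _, _, h4⟩
        rw [hl, hl] at h4
        exact lt_asymm h3 h4
      have h3 : ∀ y : Fin n, ¬ (Fin.castAdd n x < Fin.natAdd a y ∧
          p (cat (rfl : a + n = a + n) b c (Fin.castAdd n x)) = true ∧
          p (cat (rfl : a + n = a + n) b c (Fin.natAdd a y)) = true ∧
          blockSum (rfl : a + n = a + n) 1 σ (Fin.natAdd a y) <
          blockSum (rfl : a + n = a + n) 1 σ (Fin.castAdd n x)) := by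
        rintro y ⟨h3, _, _, h4⟩
        rw [hr, hl] at h4
        have h5 : a + (σ y : ℕ) < (x : ℕ) := h4
        have := x.isLt
        omega
      rw [Finset.prod_eq_one fun y _ => if_neg (h2 y), Finset.prod_eq_one fun y _ => if_neg (h3 y),
        one_mul]
    rw [h1, one_mul]
    refine Finset.prod_congr rfl fun x _ => ?_
    rw [Fin.prod_univ_add]
    have h2 : ∀ y : Fin a, ¬ (Fin.natAdd a x < Fin.castAdd n y ∧
        p (cat (rfl : a + n = a + n) b c (Fin.natAdd a x)) = true ∧
        p (cat (rfl : a + n = a + n) b c (Fin.castAdd n y)) = true ∧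
        blockSum (rfl : a + n = a + n) 1 σ (Fin.castAdd n y) <
        blockSum (rfl : a + n = a + n) 1 σ (Fin.natAdd a x)) := by
      rintro y ⟨h3, _⟩
      have h5 : a + (x : ℕ) < (y : ℕ) := h3
      have := y.isLt
      omega
    rw [Finset.prod_eq_one fun y _ => if_neg (h2 y), one_mul]
    refine Finset.prod_congr rfl fun y _ => ?_
    have h3 : (Fin.natAdd a x < Fin.natAdd a y ∧
        p (cat (rfl : a + n = a + n) b c (Fin.natAdd a x)) = true ∧
        p (cat (rfl : a + n = a + n) b c (Fin.natAdd a y)) = true ∧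
        blockSum (rfl : a + n = a + n) 1 σ (Fin.natAdd a y) <
        blockSum (rfl : a + n = a + n) 1 σ (Fin.natAdd a x)) ↔
        (x < y ∧ p (c x) = true ∧ p (c y) = true ∧ σ y < σ x) := by
      have hlt : ∀ u v : Fin n, Fin.natAdd a u < Fin.natAdd a v ↔ u < v := by
        intro u v
        show a + (u : ℕ) < a + (v : ℕ) ↔ (u : ℕ) < (v : ℕ)
        omega
      rw [hcr, hcr, hr, hr, hlt, hlt]
    by_cases h4 : x < y ∧ p (c x) = true ∧ p (c y) = true ∧ σ y < σ x
    · rw [if_pos h4, if_pos (h3.2 h4)]
    · rw [if_neg h4, if_neg (fun h5 => h4 (h3.1 h5))]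

end Pool.Agent.Work.MP_6da7fa_al.EG
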