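import Pool.Agent.Work.MP_6da7fa_al.EG.StmtsS

/-!
# Item HG: the generating function of the complete functions
-/

set_option autoImplicit false

namespace Pool.Agent.Work.MP_6da7fa_al.EG

open Equiv MvPolynomial

/-- the factor of one letter -/
noncomputable def HG_g {R : Type} [CommRing R] (b : Bool) (x : R) : PowerSeries R :=
  PowerSeries.mk fun n => if b = true ∧ 1 < n then 0 else x ^ n

theorem HG_even {R : Type} [CommRing R] (x : R) :
    HG_g false x * (1 - PowerSeries.C x * PowerSeries.X) = 1 := by
  have h1 : HG_g false x * (1 - PowerSeries.C x * PowerSeries.X) =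
      HG_g false x - PowerSeries.C x * (HG_g false x * PowerSeries.X) := by ring
  rw [h1]
  ext n
  rw [map_sub, PowerSeries.coeff_C_mul]
  cases n with
  | zero =>
    rw [PowerSeries.coeff_zero_mul_X]
    simp [HG_g]
  | succ n =>
    rw [PowerSeries.coeff_succ_mul_X, PowerSeries.coeff_one, if_neg (Nat.succ_ne_zero n)]
    simp [HG_g, pow_succ']

theorem HG_odd {R : Type} [CommRing R] (x : R) :
    HG_g true x = 1 + PowerSeries.C x * PowerSeries.X := by
  ext n
  rw [map_add, PowerSeries.coeff_C_mul, PowerSeries.coeff_one, PowerSeries.coeff_X]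
  unfold HG_g
  rw [PowerSeries.coeff_mk]
  rcases n with _ | _ | n
  · simp
  · simp
  · rw [if_pos ⟨rfl, by omega⟩, if_neg (by omega), if_neg (by omega), mul_zero, add_zero]

theorem HG_prod {Z R : Type} [Fintype Z] [DecidableEq Z] [CommRing R] (p : Z → Bool)
    (z : Z → R) : (PowerSeries.mk fun n => hh p z n) = ∏ i, HG_g (p i) (z i) := by
  ext n
  rw [PowerSeries.coeff_mk, PowerSeries.coeff_prod]
  unfold hh
  rw [Finset.sum_filter]
  refine Finset.sum_bij' (fun ν _ => Finsupp.equivFunOnFinite.symm ν) (fun l _ => (l : Z → ℕ))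
    ?_ ?_ ?_ ?_ ?_
  · intro ν hν
    unfold TT at hν
    rw [Finset.mem_piAntidiag] at hν
    rw [Finset.mem_finsuppAntidiag]
    exact ⟨hν.1, Finset.subset_univ _⟩
  · intro l hl
    rw [Finset.mem_finsuppAntidiag] at hl
    unfold TT
    rw [Finset.mem_piAntidiag]
    exact ⟨hl.1, fun i _ => Finset.mem_univ i⟩
  · intro ν _
    rfl
  · intro l _
    ext i
    rfl
  · intro ν _
    have h1 : ∀ i, PowerSeries.coeff ((Finsupp.equivFunOnFinite.symm ν) i) (HG_g (p i) (z i)) =
        if p i = true ∧ 1 < ν i then 0 else z i ^ ν i := by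
      intro i
      unfold HG_g
      rw [PowerSeries.coeff_mk]
      rfl
    rw [Finset.prod_congr rfl fun i _ => h1 i]
    by_cases h : ∀ i, p i = true → ν i ≤ 1
    · rw [if_pos h]
      refine Finset.prod_congr rfl fun i _ => ?_
      rw [if_neg]
      rintro ⟨h2, h3⟩
      have := h i h2
      omega
    · rw [if_neg h]
      push Not at h
      obtain ⟨i, h2, h3⟩ := h
      symm
      exact Finset.prod_eq_zero (Finset.mem_univ i) (if_pos ⟨h2, h3⟩)

theorem prHG : StHG := by
  intro Z R _ _ _ p z
  rw [HG_prod, ← Finset.prod_mul_distrib]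
  refine Finset.prod_congr rfl fun i _ => ?_
  cases hp : p i with
  | false =>
    simp only [Bool.false_eq_true, if_false]
    exact HG_even (z i)
  | true =>
    simp only [if_true, mul_one]
    exact HG_odd (z i)

end Pool.Agent.Work.MP_6da7fa_al.EG
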