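import Pool.Agent.Work.MP_6da7fa_al.EG.StmtsV

set_option autoImplicit false

/-! # Theorem EG, item [Mc]: counting double cosets by joint matrices -/

namespace Pool.Agent.Work.MP_6da7fa_al.EG

open Equiv

/-- Two colourings with the same fibre sizes differ by a permutation. -/
private theorem Mc_exists {α W : Type} [Fintype α] [DecidableEq W] (e e' : α → W)
    (h : ∀ w, (Finset.univ.filter fun x => e' x = w).card =
      (Finset.univ.filter fun x => e x = w).card) : ∃ σ : Perm α, ∀ x, e (σ x) = e' x := by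
  classical
  have F : ∀ w, Nonempty ({x // e' x = w} ≃ {x // e x = w}) := by
    intro w
    refine ⟨Fintype.equivOfCardEq ?_⟩
    rw [Fintype.card_subtype, Fintype.card_subtype]
    exact h w
  replace F := fun w => Classical.choice (F w)
  refine ⟨(Equiv.sigmaFiberEquiv e').symm.trans
    ((Equiv.sigmaCongrRight fun w => (F w)).trans (Equiv.sigmaFiberEquiv e)), ?_⟩
  intro x
  exact (F (e' x) ⟨x, rfl⟩).2

/-- A matrix with row sums `typ c` is the joint matrix of `c` and some `d`. -/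
private theorem Mc_real {α Z Z' : Type} [Fintype α] [DecidableEq Z] [Fintype Z'] [DecidableEq Z']
    (c : α → Z) (ν : Z → Z' → ℕ)
    (h : ∀ z, ∑ z', ν z z' = (Finset.univ.filter fun x => c x = z).card) :
    ∃ d : α → Z', ∀ z z', (Finset.univ.filter fun x => c x = z ∧ d x = z').card = ν z z' := by
  classical
  have F : ∀ z, Nonempty ({x // c x = z} ≃ Σ z', Fin (ν z z')) := by
    intro z
    refine ⟨Fintype.equivOfCardEq ?_⟩
    rw [Fintype.card_subtype, Fintype.card_sigma, ← h z]
    simp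
  replace F := fun z => Classical.choice (F z)
  refine ⟨fun x => (F (c x) ⟨x, rfl⟩).1, ?_⟩
  intro z z'
  have key : ∀ y : {x // c x = z}, (F (c y.1) ⟨y.1, rfl⟩).1 = (F z y).1 := by
    rintro ⟨y, rfl⟩
    rfl
  have e1 : {x // c x = z ∧ (F (c x) ⟨x, rfl⟩).1 = z'} ≃ {y : {x // c x = z} // (F z y).1 = z'} :=
    { toFun := fun x => ⟨⟨x.1, x.2.1⟩, by rw [← key]; exact x.2.2⟩
      invFun := fun y => ⟨y.1.1, y.1.2, by rw [key]; exact y.2⟩
      left_inv := fun x => rfl
      right_inv := fun y => rfl }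
  have e2 : {y : {x // c x = z} // (F z y).1 = z'} ≃ {w : Σ z', Fin (ν z z') // w.1 = z'} :=
    (F z).subtypeEquiv (fun y => Iff.rfl)
  have e3 : {w : Σ z', Fin (ν z z') // w.1 = z'} ≃ Fin (ν z z') :=
    Equiv.sigmaSubtype z'
  rw [← Fintype.card_subtype, Fintype.card_congr (e1.trans (e2.trans e3)), Fintype.card_fin]

section
variable {α Z Z' : Type} [Fintype α] [DecidableEq Z] [DecidableEq Z']

/-- The joint matrix. -/
private def Mc_J (c : α → Z) (d : α → Z') (z : Z) (z' : Z') : ℕ :=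
  (Finset.univ.filter fun x => c x = z ∧ d x = z').card

private theorem Mc_J_congr (c : α → Z) (d d' : α → Z') (h : Perm α) (hc : c ∘ h = c)
    (hd : d ∘ h = d') : Mc_J c d' = Mc_J c d := by
  subst hd
  funext z z'
  unfold Mc_J
  refine Finset.card_bij (fun x _ => h x) ?_ ?_ ?_
  · intro x hx
    simp only [Finset.mem_filter, Finset.mem_univ, true_and, Function.comp] at hx ⊢
    refine ⟨?_, hx.2⟩
    rw [← hx.1]
    exact congrFun hc x
  · intro x _ y _ hxy
    exact h.injective hxy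
  · intro y hy
    simp only [Finset.mem_filter, Finset.mem_univ, true_and, Function.comp] at hy
    refine ⟨h.symm y, ?_, by simp⟩
    simp only [Finset.mem_filter, Finset.mem_univ, true_and, Function.comp, Equiv.apply_symm_apply]
    refine ⟨?_, hy.2⟩
    rw [← hy.1]
    have := congrFun hc (h.symm y)
    simpa using this.symm

private theorem Mc_pair (c : α → Z) (d d' : α → Z') (h : Mc_J c d = Mc_J c d') :
    ∃ σ : Perm α, c ∘ σ = c ∧ d ∘ σ = d' := by
  obtain ⟨σ, hσ⟩ := Mc_exists (fun x => (c x, d x)) (fun x => (c x, d' x)) (by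
    rintro ⟨z, z'⟩
    have := congrFun (congrFun h z) z'
    unfold Mc_J at this
    simpa [Prod.ext_iff] using this.symm)
  refine ⟨σ, ?_, ?_⟩
  · funext x
    exact (Prod.ext_iff.1 (hσ x)).1
  · funext x
    exact (Prod.ext_iff.1 (hσ x)).2

private theorem Mc_fib [DecidableEq α] (c : α → Z) (c' : α → Z') (g0 : Perm α)
    (T : Finset (Perm α)) (hT : ∀ g : Perm α, g ∈ T ↔ Mc_J c (c' ∘ ⇑g⁻¹) = Mc_J c (c' ∘ ⇑g0⁻¹)) :
    ∑ g ∈ T,
      (Finset.univ.filter fun s : Perm α => c ∘ s = c ∧ (c' ∘ ⇑g⁻¹) ∘ s = c' ∘ ⇑g⁻¹).card =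
    (Finset.univ.filter fun σ : Perm α => c ∘ σ = c).card *
      (Finset.univ.filter fun σ : Perm α => c' ∘ σ = c').card := by
  classical
  have h1 : ∀ g ∈ T,
      (Finset.univ.filter fun s : Perm α => c ∘ s = c ∧ (c' ∘ ⇑g⁻¹) ∘ s = c' ∘ ⇑g⁻¹).card =
      (Finset.univ.filter fun h : Perm α => c ∘ h = c ∧ (c' ∘ ⇑g⁻¹) ∘ h = c' ∘ ⇑g0⁻¹).card := by
    intro g hg
    rw [hT] at hg
    obtain ⟨σ, hσ1, hσ2⟩ := Mc_pair c (c' ∘ ⇑g⁻¹) (c' ∘ ⇑g0⁻¹) hg
    refine Finset.card_bij (fun s _ => s * σ) ?_ ?_ ?_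
    · intro s hs
      simp only [Finset.mem_filter, Finset.mem_univ, true_and] at hs ⊢
      constructor
      · rw [Perm.coe_mul, ← Function.comp_assoc, hs.1, hσ1]
      · rw [Perm.coe_mul, ← Function.comp_assoc, hs.2, hσ2]
    · intro s _ t _ hst
      exact mul_right_cancel hst
    · intro h hh
      simp only [Finset.mem_filter, Finset.mem_univ, true_and] at hh
      have q1 : c ∘ ⇑σ⁻¹ = c := by
        funext x
        have := congrFun hσ1 (σ⁻¹ x)
        simpa using this.symm
      have q2 : (c' ∘ ⇑g0⁻¹) ∘ ⇑σ⁻¹ = c' ∘ ⇑g⁻¹ := by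
        funext x
        have := congrFun hσ2 (σ⁻¹ x)
        simpa using this.symm
      refine ⟨h * σ⁻¹, ?_, by simp⟩
      simp only [Finset.mem_filter, Finset.mem_univ, true_and]
      constructor
      · rw [Perm.coe_mul, ← Function.comp_assoc, hh.1, q1]
      · rw [Perm.coe_mul, ← Function.comp_assoc, hh.2, q2]
  rw [Finset.sum_congr rfl h1]
  -- double counting
  have h2 : ∀ g : Perm α,
      (Finset.univ.filter fun h : Perm α => c ∘ h = c ∧ (c' ∘ ⇑g⁻¹) ∘ h = c' ∘ ⇑g0⁻¹).card =
      ∑ h ∈ Finset.univ.filter (fun h : Perm α => c ∘ h = c),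
        if (c' ∘ ⇑g⁻¹) ∘ h = c' ∘ ⇑g0⁻¹ then 1 else 0 := by
    intro g
    rw [← Finset.sum_filter, Finset.sum_const, smul_eq_mul, mul_one, Finset.filter_filter]
  simp only [h2]
  rw [Finset.sum_comm, Finset.card_eq_sum_ones (Finset.univ.filter fun σ : Perm α => c ∘ σ = c),
    Finset.sum_mul]
  refine Finset.sum_congr rfl ?_
  intro h hh
  rw [Finset.mem_filter] at hh
  rw [one_mul, ← Finset.sum_filter, Finset.sum_const, smul_eq_mul, mul_one]
  symm
  refine Finset.card_bij (fun k _ => h * g0 * k⁻¹) ?_ ?_ ?_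
  · intro k hk
    simp only [Finset.mem_filter, Finset.mem_univ, true_and, hT] at hk ⊢
    have q : (c' ∘ ⇑(h * g0 * k⁻¹)⁻¹) ∘ ⇑h = c' ∘ ⇑g0⁻¹ := by
      funext x
      have := congrFun hk (g0⁻¹ x)
      simpa [Function.comp, mul_assoc] using this
    exact ⟨(Mc_J_congr c _ _ h hh.2 q).symm, q⟩
  · intro k _ l _ hkl
    exact inv_injective (mul_left_cancel hkl)
  · intro g hg
    simp only [Finset.mem_filter, Finset.mem_univ, true_and, hT] at hg
    refine ⟨g⁻¹ * h * g0, ?_, by group⟩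
    simp only [Finset.mem_filter, Finset.mem_univ, true_and]
    funext x
    have := congrFun hg.2 (g0 x)
    simpa [Function.comp] using this

end

theorem prMc : StMc := by
  classical
  intro α Z Z' _ _ _ _ _ _ p p' c c'
  -- the condition in terms of the joint matrix
  have hgood : ∀ d : α → Z', (∀ x y, x ≠ y → c x = c y → d x = d y → p (c x) = p' (d x)) ↔
      ∀ z z', p z ≠ p' z' → Mc_J c d z z' ≤ 1 := by
    intro d
    constructor
    · intro h z z' hz
      unfold Mc_J
      rw [Finset.card_le_one]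
      intro x hx y hy
      simp only [Finset.mem_filter, Finset.mem_univ, true_and] at hx hy
      by_contra hxy
      apply hz
      have := h x y hxy (hx.1.trans hy.1.symm) (hx.2.trans hy.2.symm)
      rw [hx.1, hx.2] at this
      exact this
    · intro h x y hxy hc hd
      by_contra hp
      have := h (c x) (d x) hp
      unfold Mc_J at this
      rw [Finset.card_le_one] at this
      exact hxy (this x (by simp) y (by simp [hc, hd]))
  have hrow : ∀ (d : α → Z') z, ∑ z', Mc_J c d z z' = typ c z := by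
    intro d z
    unfold Mc_J typ
    rw [Finset.card_eq_sum_card_fiberwise (f := d) (t := Finset.univ) (fun x _ => by simp)]
    refine Finset.sum_congr rfl ?_
    intro z' _
    rw [Finset.filter_filter]
  have hcol : ∀ (d : α → Z') z', ∑ z, Mc_J c d z z' = typ d z' := by
    intro d z'
    unfold Mc_J typ
    rw [Finset.card_eq_sum_card_fiberwise (f := c) (t := Finset.univ) (fun x _ => by simp)]
    refine Finset.sum_congr rfl ?_
    intro z _
    rw [Finset.filter_filter]
    congr 1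
    ext x
    simp [and_comm]
  have htyp : ∀ g : Perm α, typ (c' ∘ ⇑g⁻¹) = typ c' := by
    intro g
    funext z'
    unfold typ
    refine Finset.card_bij (fun x _ => g⁻¹ x) ?_ ?_ ?_
    · intro x hx
      simpa using hx
    · intro x _ y _ hxy
      exact (g⁻¹ : Perm α).injective hxy
    · intro y hy
      exact ⟨g y, by simpa using hy, by simp⟩
  -- split the sum
  rw [← Finset.sum_filter]
  set S := Finset.univ.filter (fun g : Perm α =>
    ∀ x y, x ≠ y → c x = c y → c' (g⁻¹ x) = c' (g⁻¹ y) → p (c x) = p' (c' (g⁻¹ x))) with hS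
  have hmemS : ∀ g : Perm α, g ∈ S ↔ ∀ z z', p z ≠ p' z' → Mc_J c (c' ∘ ⇑g⁻¹) z z' ≤ 1 := by
    intro g
    rw [← hgood, hS, Finset.mem_filter]
    simp [Function.comp]
  have hNN : NN p p' (typ c) (typ c') = (S.image fun g : Perm α => Mc_J c (c' ∘ ⇑g⁻¹)).card := by
    unfold NN
    rw [Nat.subtype_card (S.image fun g : Perm α => Mc_J c (c' ∘ ⇑g⁻¹))]
    intro ν
    rw [Finset.mem_image]
    constructor
    · rintro ⟨g, hg, rfl⟩
      refine ⟨hrow _, ?_, (hmemS g).1 hg⟩
      intro z'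
      rw [hcol, htyp]
    · rintro ⟨h1, h2, h3⟩
      obtain ⟨d, hd⟩ := Mc_real c ν (fun z => h1 z)
      have hJ : Mc_J c d = ν := by
        funext z z'
        exact hd z z'
      obtain ⟨σ, hσ⟩ := Mc_exists c' d (by
        intro w
        have := hcol d w
        rw [hJ, h2] at this
        exact this.symm)
      refine ⟨σ⁻¹, ?_, ?_⟩
      · rw [hmemS]
        have e : c' ∘ ⇑(σ⁻¹)⁻¹ = d := by
          funext x
          simpa using hσ x
        rw [e, hJ]
        exact h3
      · have e : c' ∘ ⇑(σ⁻¹)⁻¹ = d := by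
          funext x
          simpa using hσ x
        show Mc_J c (c' ∘ ⇑(σ⁻¹)⁻¹) = ν
        rw [e, hJ]
  rw [hNN, ← Finset.sum_fiberwise_of_maps_to (t := S.image fun g : Perm α => Mc_J c (c' ∘ ⇑g⁻¹))
    (g := fun g : Perm α => Mc_J c (c' ∘ ⇑g⁻¹)) (fun g hg => Finset.mem_image_of_mem _ hg)]
  rw [Finset.sum_congr rfl (g := fun _ =>
    (Finset.univ.filter fun σ : Perm α => c ∘ σ = c).card *
      (Finset.univ.filter fun σ : Perm α => c' ∘ σ = c').card), Finset.sum_const, smul_eq_mul,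
    mul_comm]
  intro ν hν
  rw [Finset.mem_image] at hν
  obtain ⟨g0, hg0, rfl⟩ := hν
  refine Mc_fib c c' g0 _ ?_
  intro g
  simp only [Finset.mem_filter, Finset.mem_univ, true_and]
  constructor
  · exact fun h => h.2
  · intro h
    refine ⟨?_, h⟩
    rw [hmemS]
    have h' : Mc_J c (c' ∘ ⇑g⁻¹) = Mc_J c (c' ∘ ⇑g0⁻¹) := h
    rw [h']
    exact (hmemS g0).1 hg0

end Pool.Agent.Work.MP_6da7fa_al.EG
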