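import Pool.Agent.Work.MP_6da7fa_al.EG.StmtsS

set_option autoImplicit false

/-!
# Theorem EG, item Pi: the Pieri number (helper37)
-/

namespace Pool.Agent.Work.MP_6da7fa_al.EG

open Equiv MvPolynomial

private theorem Pi_mem {Z : Type} [Fintype Z] [DecidableEq Z] (t : Z → ℕ) (n : ℕ) :
    t ∈ TT Z n ↔ ∑ z, t z = n := by
  unfold TT
  rw [Finset.mem_piAntidiag]
  constructor
  · rintro ⟨h, -⟩
    exact h
  · intro h
    exact ⟨h, fun i _ => Finset.mem_univ i⟩

/-- the parity with one more even colour -/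
private abbrev Pi_pp (i : ℕ) : ZZ i ⊕ Unit → Bool := Sum.elim (par i) (fun _ : Unit => false)

/-- the type with one more letter -/
private abbrev Pi_tt {i : ℕ} (t : ZZ i → ℕ) : ZZ i ⊕ Unit → ℕ := Sum.elim t (fun _ => 1)

/-- the coefficients of a row product -/
private theorem Pi_coeff (hR : StRo) (hN : StNs) {Y Z : Type} [Fintype Y] [DecidableEq Y]
    [Fintype Z] [DecidableEq Z] (p : Y → Bool) (p' : Z → Bool) (t : Y → ℕ) (u : Z →₀ ℕ) :
    coeff u (rows p p' (fun z => (X z : MvPolynomial Z ℤ)) t) = (NN p' p u t : ℤ) := by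
  rw [hR Y Z (MvPolynomial Z ℤ) p p' (fun z => X z) t, coeff_sum]
  have h1 : ∀ t' : Z → ℕ, (∏ i, (X i : MvPolynomial Z ℤ) ^ t' i) =
      monomial (Finsupp.equivFunOnFinite.symm t') 1 := by
    intro t'
    rw [MvPolynomial.monomial_eq, C_1, one_mul, Finsupp.prod_fintype _ _ (fun i => pow_zero _)]
    rfl
  have h2 : ∀ t' : Z → ℕ, coeff u ((NN p p' t t' : MvPolynomial Z ℤ) *
      ∏ i, (X i : MvPolynomial Z ℤ) ^ t' i) = if t' = u then (NN p p' t t' : ℤ) else 0 := by
    intro t'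
    rw [h1, ← map_natCast C, coeff_C_mul, coeff_monomial]
    by_cases h : t' = u
    · rw [if_pos h, if_pos, mul_one]
      rw [h]
      exact Finsupp.equivFunOnFinite.symm_apply_apply u
    · rw [if_neg h, if_neg, mul_zero]
      intro h'
      exact h (by rw [← h']; rfl)
  rw [Finset.sum_congr rfl fun t' _ => h2 t', Finset.sum_ite_eq']
  have h3 := hN Z Y p' p u t
  by_cases h : (u : Z → ℕ) ∈ TT Z (∑ y, t y)
  · rw [if_pos h, ← h3.1]
  · rw [if_neg h, h3.2 (fun h' => h ((Pi_mem _ _).2 h')), Nat.cast_zero]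

/-- the first complete function -/
private theorem Pi_h1 {Z R : Type} [Fintype Z] [DecidableEq Z] [CommRing R] (p : Z → Bool)
    (z : Z → R) : hh p z 1 = ∑ j, z j := by
  unfold hh
  symm
  refine Finset.sum_bij (fun j _ => Pi.single j 1) ?_ ?_ ?_ ?_
  · intro j _
    rw [Finset.mem_filter, Pi_mem]
    refine ⟨by rw [Finset.sum_pi_single']; simp, fun i _ => ?_⟩
    by_cases h : i = j
    · rw [h, Pi.single_eq_same]
    · rw [Pi.single_eq_of_ne h]
      exact Nat.zero_le _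
  · intro j _ j' _ h
    by_contra hne
    have h1 := congrFun h j
    rw [Pi.single_eq_same, Pi.single_eq_of_ne hne] at h1
    exact one_ne_zero h1
  · intro ν hν
    rw [Finset.mem_filter, Pi_mem] at hν
    obtain ⟨h1, -⟩ := hν
    obtain ⟨j, hj⟩ : ∃ j, ν j ≠ 0 := by
      by_contra h
      push Not at h
      rw [Finset.sum_eq_zero fun j _ => h j] at h1
      exact zero_ne_one h1
    refine ⟨j, Finset.mem_univ j, ?_⟩
    have h2 := Finset.add_sum_erase Finset.univ ν (Finset.mem_univ j)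
    rw [h1] at h2
    have h3 : ∑ x ∈ Finset.univ.erase j, ν x = 0 := by omega
    have h4 : ν j = 1 := by omega
    funext i
    by_cases h : i = j
    · rw [h, Pi.single_eq_same, h4]
    · rw [Pi.single_eq_of_ne h]
      exact (Finset.sum_eq_zero_iff.1 h3 i (Finset.mem_erase.2 ⟨h, Finset.mem_univ i⟩)).symm
  · intro j _
    rw [Finset.prod_eq_single j]
    · rw [Pi.single_eq_same, pow_one]
    · intro b _ hb
      rw [Pi.single_eq_of_ne hb, pow_zero]
    · intro h
      exact (h (Finset.mem_univ j)).elim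

private theorem Pi_rows {i : ℕ} (t : ZZ i → ℕ) :
    rows (Pi_pp i) (par i) (fun z => (X z : MvPolynomial (ZZ i) ℤ)) (Pi_tt t) =
      (∑ z : ZZ i, (X z : MvPolynomial (ZZ i) ℤ)) *
        rows (par i) (par i) (fun z => (X z : MvPolynomial (ZZ i) ℤ)) t := by
  unfold rows
  rw [Fintype.prod_sum_type, mul_comm]
  congr 1
  rw [Fintype.prod_unique]
  show (if false = true then _ else hh (par i) (fun z => (X z : MvPolynomial (ZZ i) ℤ)) 1) = _
  rw [if_neg Bool.false_ne_true, Pi_h1]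

/-- the coefficients of the product with the sum of the letters -/
private theorem Pi_c2 (hR : StRo) (hN : StNs) (hS : StSd) {i : ℕ} (a' b' : Fin i → ℕ)
    (u : ZZ i →₀ ℕ) :
    coeff u ((∑ z : ZZ i, (X z : MvPolynomial (ZZ i) ℤ)) *
      sdet (par i) (fun z => (X z : MvPolynomial (ZZ i) ℤ)) a' b') =
      ∑ t' ∈ TT (ZZ i) (sz a' b'), KK a' b' t' *
        (NN (par i) (Pi_pp i) u (Pi_tt t') : ℤ) := by
  rw [hS (ZZ i) (MvPolynomial (ZZ i) ℤ) (par i) (fun z => X z) i a' b', Finset.mul_sum, coeff_sum]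
  refine Finset.sum_congr rfl fun t' _ => ?_
  have h1 : ((KK a' b' t' : ℤ) : MvPolynomial (ZZ i) ℤ) = C (KK a' b' t') :=
    (eq_intCast (C : ℤ →+* MvPolynomial (ZZ i) ℤ) _).symm
  rw [mul_left_comm, ← Pi_rows, h1, coeff_C_mul, Pi_coeff hR hN]

private theorem Pi_sumt {i : ℕ} (t : ZZ i → ℕ) : ∑ y, Pi_tt t y = ∑ z, t z + 1 := by
  rw [Fintype.sum_sum_type]
  show ∑ z, t z + ∑ _u : Unit, 1 = ∑ z, t z + 1
  rw [Finset.sum_const]
  rfl

/-- the support -/
private theorem Pi_supp (hR : StRo) (hN : StNs) (hS : StSd) {i : ℕ} (a' b' : Fin i → ℕ)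
    (u : ZZ i →₀ ℕ) (hu : coeff u ((∑ z : ZZ i, (X z : MvPolynomial (ZZ i) ℤ)) *
      sdet (par i) (fun z => (X z : MvPolynomial (ZZ i) ℤ)) a' b') ≠ 0) :
    ∑ z, u z = sz a' b' + 1 := by
  by_contra hne
  apply hu
  rw [Pi_c2 hR hN hS]
  refine Finset.sum_eq_zero fun t' ht' => ?_
  rw [Pi_mem] at ht'
  rw [(hN _ _ (par i) (Pi_pp i) u (Pi_tt t')).2 (by rw [Pi_sumt, ht']; exact hne), Nat.cast_zero,
    mul_zero]

private theorem Pi_upd {i : ℕ} (a : Fin i → ℕ) (s : Fin i) :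
    ∑ q, Function.update a s (a s + 1) q = ∑ q, a q + 1 := by
  have h : ∀ q, Function.update a s (a s + 1) q = a q + if q = s then 1 else 0 := by
    intro q
    by_cases h : q = s
    · rw [if_pos h, h, Function.update_self]
    · rw [if_neg h, Function.update_of_ne h, add_zero]
  rw [Finset.sum_congr rfl fun q _ => h q, Finset.sum_add_distrib, Finset.sum_ite_eq',
    if_pos (Finset.mem_univ s)]

private theorem Pi_sz {i : ℕ} {a b a' b' : Fin i → ℕ} (h : Box a b a' b') :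
    sz a b = sz a' b' + 1 := by
  unfold sz
  rw [Finset.sum_add_distrib, Finset.sum_add_distrib, Finset.sum_add_distrib,
    Finset.sum_add_distrib]
  rcases h with ⟨s, rfl, rfl⟩ | ⟨s, rfl, rfl⟩
  · rw [Pi_upd]
    omega
  · rw [Pi_upd]
    omega

private theorem Pi_sym {i : ℕ} {G : MvPolynomial (ZZ i) ℤ} (hG : SymY G) :
    SymY ((∑ z : ZZ i, (X z : MvPolynomial (ZZ i) ℤ)) * G) := by
  intro w
  rw [map_mul, hG w, map_sum]
  congr 1
  have h := Equiv.sum_comp (Equiv.sumCongr (Equiv.refl (Fin i)) w)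
    (fun z : ZZ i => (X z : MvPolynomial (ZZ i) ℤ))
  rw [← h]
  refine Finset.sum_congr rfl fun z _ => ?_
  rw [rename_X]
  rfl

theorem prPi : StPi := by
  classical
  intro hR hN hS hSG hKp hPc i a b a' b' ha hb ha' hb' hbox
  obtain ⟨G, hs, hDG, hSym⟩ := hSG i a' b'
  obtain ⟨F, hF⟩ : ∃ F : MvPolynomial (ZZ i) ℤ,
      F = (∑ z : ZZ i, (X z : MvPolynomial (ZZ i) ℤ)) *
        sdet (par i) (fun z => (X z : MvPolynomial (ZZ i) ℤ)) a' b' := ⟨_, rfl⟩
  have h1 : ∑ t ∈ TT (ZZ i) (sz a b), ∑ t' ∈ TT (ZZ i) (sz a' b'), KK a b t * KK a' b' t' *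
      (NN (par i) (Sum.elim (par i) (fun _ : Unit => false)) t
        (Sum.elim t' (fun _ => 1)) : ℤ) = kapF a b F := by
    unfold kapF
    have h2 : ∀ t ∈ TT (ZZ i) (sz a b), ∑ t' ∈ TT (ZZ i) (sz a' b'),
        KK a b t * KK a' b' t' * (NN (par i) (Sum.elim (par i) (fun _ : Unit => false)) t
          (Sum.elim t' (fun _ => 1)) : ℤ) =
        (fun u : ZZ i →₀ ℕ => KK a b u * coeff u F)
          (Finsupp.equivFunOnFinite.symm t) := by
      intro t _
      show _ = KK a b (Finsupp.equivFunOnFinite.symm t) * _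
      rw [hF, Pi_c2 hR hN hS, Finsupp.coe_equivFunOnFinite_symm, Finset.mul_sum]
      exact Finset.sum_congr rfl fun t' _ => mul_assoc _ _ _
    rw [Finset.sum_congr rfl h2]
    have h3 : ∑ t ∈ TT (ZZ i) (sz a b), (fun u : ZZ i →₀ ℕ => KK a b u * coeff u F)
          (Finsupp.equivFunOnFinite.symm t) =
        ∑ u ∈ (TT (ZZ i) (sz a b)).map Finsupp.equivFunOnFinite.symm.toEmbedding,
          KK a b u * coeff u F := by
      rw [Finset.sum_map]
      rfl
    rw [h3]
    symm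
    apply Finset.sum_subset
    · intro u hu
      rw [Finset.mem_map]
      refine ⟨u, ?_, ?_⟩
      · rw [Pi_mem, Pi_sz hbox]
        refine Pi_supp hR hN hS a' b' u ?_
        rw [← hF]
        exact MvPolynomial.mem_support_iff.1 hu
      · exact Finsupp.equivFunOnFinite.symm_apply_apply u
    · intro u _ hu
      rw [MvPolynomial.notMem_support_iff.1 hu, mul_zero]
  have h4 : F = EE i * ((∑ z : ZZ i, (X z : MvPolynomial (ZZ i) ℤ)) * G) := by
    rw [hF, hs]
    ring
  have h5 : DD i * ((∑ z : ZZ i, (X z : MvPolynomial (ZZ i) ℤ)) * G) =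
      (∑ z : ZZ i, (X z : MvPolynomial (ZZ i) ℤ)) * (AA a' * BB b') := by
    rw [← hDG]
    ring
  rw [h1, h4, hKp i a b _ (Pi_sym hSym), h5]
  exact hPc i a b a' b' ha hb ha' hb' hbox

end Pool.Agent.Work.MP_6da7fa_al.EG
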