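import Pool.Agent.Work.MP_6da7fa_al.EG.StmtsR

set_option autoImplicit false

/-!
# Theorem EG, item Rh: the terms are hypergeometric
-/

namespace Pool.Agent.Work.MP_6da7fa_al.EG

open MvPolynomial in
/-- one factorial -/
theorem IRh.fac (L k : ℕ) : (((L + k).factorial : ℕ) : ℂ) =
    (L.factorial : ℂ) * ∏ t ∈ Finset.range k, ((L : ℂ) + t + 1) := by
  induction k with
  | zero => simp
  | succ k ih =>
    rw [← add_assoc, Nat.factorial_succ, Nat.cast_mul, ih, Finset.prod_range_succ]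
    push_cast
    ring

theorem IRh.wt_add {J : Type} [Fintype J] [DecidableEq J] (e : ℕ) (d m : J → ℕ) (i : J) :
    MB.wt e d (m + Pi.single i 1) = MB.wt e d m + d i := by
  unfold MB.wt
  have h : ∑ j, d j * (m + Pi.single i 1 : J → ℕ) j = ∑ j, d j * m j + d i := by
    simp only [Pi.add_apply, mul_add, Finset.sum_add_distrib]
    congr 1
    rw [Finset.sum_eq_single i]
    · simp
    · intro j _ hj
      rw [Pi.single_eq_of_ne hj, mul_zero]
    · intro h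
      exact absurd (Finset.mem_univ i) h
  rw [h, add_assoc]

open MvPolynomial in
theorem IRh.ev_lin {J : Type} [Fintype J] [DecidableEq J] (e t : ℕ) (d m : J → ℕ) :
    MB.ev (C ((e : ℂ) + t + 1) + ∑ j, C (d j : ℂ) * X j) m = (MB.wt e d m : ℂ) + t + 1 := by
  unfold MB.ev MB.wt
  rw [map_add, map_sum, eval_C]
  have h : ∑ j, (eval fun j => (m j : ℂ)) (C (d j : ℂ) * X j) = ((∑ j, d j * m j : ℕ) : ℂ) := by
    push_cast
    refine Finset.sum_congr rfl fun j _ => ?_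
    rw [map_mul, eval_C, eval_X]
  rw [h]
  push_cast
  ring

open MvPolynomial in
theorem prRh : StRh := by
  intro J _ _ s0 s Q _ e d
  refine ⟨fun i => C ((-1) ^ s i) * ∏ q, ∏ t ∈ Finset.range (d q i),
    (C ((e q : ℂ) + t + 1) + ∑ j, C (d q j : ℂ) * X j), fun m i => ?_⟩
  unfold hterm
  have h1 : MB.ev (C ((-1) ^ s i) * ∏ q, ∏ t ∈ Finset.range (d q i),
      (C ((e q : ℂ) + t + 1) + ∑ j, C (d q j : ℂ) * X j)) m =
      (-1) ^ s i * ∏ q, ∏ t ∈ Finset.range (d q i), ((MB.wt (e q) (d q) m : ℂ) + t + 1) := by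
    have h2 : ∀ q, ∀ t : ℕ, MB.ev (C ((e q : ℂ) + t + 1) + ∑ j, C (d q j : ℂ) * X j) m =
        (MB.wt (e q) (d q) m : ℂ) + (t : ℕ) + 1 := fun q t => IRh.ev_lin (e q) t (d q) m
    unfold MB.ev at h2 ⊢
    rw [map_mul, eval_C, map_prod]
    congr 1
    refine Finset.prod_congr rfl fun q _ => ?_
    rw [map_prod]
    exact Finset.prod_congr rfl fun t _ => h2 q t
  rw [h1]
  simp only [IRh.wt_add, IRh.fac, pow_add]
  have h3 : ∀ q, ((MB.wt (e q) (d q) m).factorial : ℂ) ≠ 0 := fun q =>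
    Nat.cast_ne_zero.mpr (Nat.factorial_ne_zero _)
  have h4 : ∀ q, ∏ t ∈ Finset.range (d q i), ((MB.wt (e q) (d q) m : ℂ) + t + 1) ≠ 0 := fun q => by
    rw [Finset.prod_ne_zero_iff]
    intro t _
    have : ((MB.wt (e q) (d q) m + t + 1 : ℕ) : ℂ) ≠ 0 := Nat.cast_ne_zero.mpr (by omega)
    push_cast at this
    exact this
  simp only [mul_inv, Finset.prod_mul_distrib]
  have h5 : (∏ q, ∏ t ∈ Finset.range (d q i), ((MB.wt (e q) (d q) m : ℂ) + t + 1)) *
      (∏ q, (∏ t ∈ Finset.range (d q i), ((MB.wt (e q) (d q) m : ℂ) + t + 1))⁻¹) = 1 := by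
    rw [← Finset.prod_mul_distrib]
    exact Finset.prod_eq_one fun q _ => mul_inv_cancel₀ (h4 q)
  have h6 : ((-1 : ℂ)) ^ s i * (-1) ^ s i = 1 := by
    rw [← mul_pow]
    norm_num
  calc (-1 : ℂ) ^ MB.wt s0 s m * ∏ q, (((MB.wt (e q) (d q) m).factorial : ℂ))⁻¹
      = ((-1 : ℂ) ^ s i * (-1) ^ s i) *
        ((∏ q, ∏ t ∈ Finset.range (d q i), ((MB.wt (e q) (d q) m : ℂ) + t + 1)) *
        (∏ q, (∏ t ∈ Finset.range (d q i), ((MB.wt (e q) (d q) m : ℂ) + t + 1))⁻¹)) *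
        ((-1 : ℂ) ^ MB.wt s0 s m * ∏ q, (((MB.wt (e q) (d q) m).factorial : ℂ))⁻¹) := by
        rw [h5, h6, one_mul, one_mul]
    _ = _ := by ring

end Pool.Agent.Work.MP_6da7fa_al.EG
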