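import Pool.Agent.Work.MP_6da7fa_al.EG.StmtsV

set_option autoImplicit false

/-!
# Theorem EG, item Sw (helper37)
-/

namespace Pool.Agent.Work.MP_6da7fa_al.EG

open Equiv

private theorem Sw_comp {α Z : Type} [DecidableEq α] (c : α → Z) (x y : α) (h : c x = c y) :
    c ∘ swap x y = c := by
  funext z
  show c (swap x y z) = c z
  by_cases hx : z = x
  · rw [hx, swap_apply_left, h]
  · by_cases hy : z = y
    · rw [hy, swap_apply_right, h]
    · rw [swap_apply_of_ne_of_ne hx hy]

theorem prSw : StSw := by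
  intro hb hc hi α Z V _ _ _ _ p ρ c v
  obtain ⟨-, b1, b2⟩ := hb α Z p c
  obtain ⟨c1, -⟩ := hc α Z p c
  have hmem : v ∈ SI p ρ c ↔ ∀ σ : Perm α, c ∘ σ = c → ρ σ v = ((sg p c σ : ℤ) : ℂ) • v :=
    Iff.rfl
  rw [hmem]
  constructor
  · intro h x y hxy hcxy
    rw [h (swap x y) (Sw_comp c x y hcxy), b2 x y hxy hcxy]
    by_cases hp : p (c x) = true
    · rw [if_pos hp, if_pos hp]
      push_cast
      rfl
    · rw [if_neg hp, if_neg hp]
      push_cast
      rfl
  · intro h
    have key := hi α Z c (fun σ => c ∘ σ = c ∧ ρ σ v = ((sg p c σ : ℤ) : ℂ) • v) ?_ ?_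
    · intro σ hσ
      exact (key σ hσ).2
    · refine ⟨rfl, ?_⟩
      rw [b1, map_one, Int.cast_one, one_smul]
      rfl
    · rintro σ x y hxy hcxy ⟨h1, h2⟩
      refine ⟨?_, ?_⟩
      · funext z
        show c (swap x y (σ z)) = c z
        have h3 := congrFun (Sw_comp c x y hcxy) (σ z)
        have h4 := congrFun h1 z
        exact h3.trans h4
      · rw [c1 (swap x y) σ h1, map_mul]
        show ρ (swap x y) (ρ σ v) = _
        rw [h2, map_smul, h x y hxy hcxy, b2 x y hxy hcxy, Int.cast_mul, mul_comm, mul_smul]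
        by_cases hp : p (c x) = true
        · rw [if_pos hp, if_pos hp]
          push_cast
          rfl
        · rw [if_neg hp, if_neg hp]
          push_cast
          rfl

end Pool.Agent.Work.MP_6da7fa_al.EG
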