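import Pool.Agent.Work.MP_6da7fa_al.EG.StmtsS

set_option autoImplicit false

/-!
# Theorem EG, item Va: the Giambelli determinant vanishes in too few letters
-/

namespace Pool.Agent.Work.MP_6da7fa_al.EG

open Equiv MvPolynomial

section
variable {Z R S : Type} [Fintype Z] [DecidableEq Z] [CommRing R] [CommRing S]

private theorem Va_hh (φ : R →+* S) (p : Z → Bool) (z : Z → R) (n : ℕ) :
    φ (hh p z n) = hh p (fun i => φ (z i)) n := by
  unfold hh
  simp only [map_sum, map_prod, map_pow]

private theorem Va_SS (φ : R →+* S) (p : Z → Bool) (z : Z → R) (a b : ℕ) :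
    φ (SS p z a b) = SS p (fun i => φ (z i)) a b := by
  unfold SS
  simp only [map_sum, map_mul, map_pow, map_neg, map_one, Va_hh]

private theorem Va_sdet (φ : R →+* S) (p : Z → Bool) (z : Z → R) {i : ℕ} (a b : Fin i → ℕ) :
    φ (sdet p z a b) = sdet p (fun i => φ (z i)) a b := by
  unfold sdet
  rw [RingHom.map_det]
  congr 1
  ext q r
  exact Va_SS φ p z (a q) (b r)

end

theorem prVa : StVa := by
  intro hFt hFM k i a b hki
  apply IsFractionRing.injective (MvPolynomial (ZZ k) ℤ) (FractionRing (MvPolynomial (ZZ k) ℤ))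
  rw [map_zero, Va_sdet]
  have hz : (fun z => algebraMap (MvPolynomial (ZZ k) ℤ) (FractionRing (MvPolynomial (ZZ k) ℤ))
      (X z)) = Sum.elim (fx k) (fy k) := by
    funext z
    cases z <;> rfl
  rw [hz]
  unfold sdet
  have hM : (Matrix.of fun q r => SS (par k) (Sum.elim (fx k) (fy k)) (a q) (b r)) =
      (Matrix.of fun (q : Fin i) (s : Fin k) => fx k s ^ a q) *
        ((Matrix.of fun (s : Fin k) (r : Fin k) => (CM (fx k) (fy k))⁻¹ r s) *
          (Matrix.of fun (r : Fin k) (q : Fin i) => fy k r ^ b q)) := by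
    ext q q'
    rw [Matrix.of_apply, hFt _ k (fx k) (fy k) (hFM k).1 (hFM k).2.1, Matrix.mul_apply]
    refine Finset.sum_congr rfl fun s _ => ?_
    rw [Matrix.mul_apply, Finset.mul_sum]
    refine Finset.sum_congr rfl fun r _ => ?_
    simp only [Matrix.of_apply]
    ring
  by_contra hdet
  have h1 := Matrix.rank_of_isUnit _
    ((Matrix.isUnit_iff_isUnit_det _).2 (isUnit_iff_ne_zero.2 hdet))
  rw [Fintype.card_fin, hM] at h1
  have h2 := (Matrix.rank_mul_le_left (Matrix.of fun (q : Fin i) (s : Fin k) => fx k s ^ a q)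
    ((Matrix.of fun (s : Fin k) (r : Fin k) => (CM (fx k) (fy k))⁻¹ r s) *
          (Matrix.of fun (r : Fin k) (q : Fin i) => fy k r ^ b q))).trans (Matrix.rank_le_width _)
  omega

end Pool.Agent.Work.MP_6da7fa_al.EG
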