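import Pool.Agent.Work.MP_6da7fa_al.MB.Stmts
import Pool.Agent.Work.MP_6da7fa_al.EG.Defs2

set_option autoImplicit false

/-!
# Theorem EG, part R (regions): statements

Finite disjoint unions of free cones and hypergeometric sums over them.
Every docstring is the complete proof.  Item `RX`: `def StRX`, file `EG/I_RX.lean`, theorem
`prRX : StRX`.  All items are independent (the earlier statements are hypotheses).
-/

namespace Pool.Agent.Work.MP_6da7fa_al.EG

open Pool.Agent.Work.MP_6da7fa_al.MB (wt ev gs FibFin ConA ConH StGs)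

/-! ## Good sets -/

/-- [RU] EASY. Disjoint unions of two good sets.
PROOF. Induction on `Good S`. `∅ ∪ T = T`. `(range f ∪ S') ∪ T = range f ∪ (S' ∪ T)`: `range f` is disjoint
from `S' ∪ T`, and `S' ∪ T` is good by induction (`S'` is disjoint from `T`): `Good.add`. -/
def StRU : Prop := ∀ {X : Type} (S T : Set (X → ℕ)), Good S → Good T → Disjoint S T → Good (S ∪ T)

/-- [RV] EASY. Finite disjoint unions.
PROOF. `Finset.induction_on A`, `Finset.set_biUnion_insert`, StRU. -/
def StRV : Prop := StRU → ∀ {X ι : Type} [DecidableEq ι] (A : Finset ι) (S : ι → Set (X → ℕ)),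
  (∀ i ∈ A, Good (S i)) → (∀ i ∈ A, ∀ j ∈ A, i ≠ j → Disjoint (S i) (S j)) → Good (⋃ i ∈ A, S i)

/-- The affine map with coordinates indexed by a finite type. -/
def afY {X Y : Type} [Fintype Y] (g : X → ℕ) (G : Y → X → ℕ) (y : Y → ℕ) : X → ℕ :=
  fun x => g x + ∑ i, y i * G i x

/-- [RI] EASY-MEDIUM. Images of good sets under affine maps.
PROOF. Induction on `Good S`. Empty: the image is empty. For `S = range f ∪ T`, `f = aff g' G'`:
`afY g G '' (range f ∪ T) = range (afY g G ∘ f) ∪ afY g G '' T`, disjoint because `afY g G` is injective on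
`S` and `range f`, `T` are disjoint; `afY g G '' T` is good by induction. And
`afY g G (aff g' G' m) = aff (afY g G g') (fun j x => ∑ i, G' j i * G i x) m`
(`g x + ∑ i, (g' i + ∑ j, m j * G' j i) * G i x`, exchange the sums), injective because `f` is and
`afY g G` is injective on `range f`. `Good.add`. -/
def StRI : Prop := ∀ {X Y : Type} [Fintype Y] (g : X → ℕ) (G : Y → X → ℕ) (S : Set (Y → ℕ)), Good S →
  Set.InjOn (afY g G) S → Good (afY g G '' S)

/-! ## The extension of the full space -/

/-- base point of the piece `k = a` -/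
def gA (r c a : ℕ) : Fin r ⊕ Bool → ℕ :=
  Sum.elim (fun _ => 0) (fun b => if b = true then c - 1 - a else a)

/-- generators of the pieces `k = a` -/
def GA {r : ℕ} (u : Fin r → ℕ) (j : Fin r) : Fin r ⊕ Bool → ℕ :=
  Sum.elim (Pi.single j 1) (fun b => if b = true then u j else 0)

/-- [RA] EASY. The piece `k = a`, `a < c`, of `{(m, k, k') : k + k' + 1 = c + ∑ u_i m_i}` is a free cone.
PROOF. `aff (gA r c a) (GA u) m` has the coordinates `m` (`∑ j, m j * Pi.single j 1 i = m i`), `k = a`,
`k' = c - 1 - a + ∑ u_j m_j`. Injective because of the first coordinates; `k + k' + 1 = c + ∑ u_j m_j`;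
conversely `k = a` and the equation give `k'`. (`inr false` is `k`, `inr true` is `k'`.) -/
def StRA : Prop := ∀ (r c a : ℕ) (u : Fin r → ℕ), a < c →
  Function.Injective (aff (gA r c a) (GA u)) ∧
  Set.range (aff (gA r c a) (GA u)) =
    {y | y ∈ extS Set.univ c u ∧ y (Sum.inr false) = a}

/-- base point of the piece `(j, s)` -/
def gB {r : ℕ} (c : ℕ) (u : Fin r → ℕ) (j : Fin r) (s : ℕ) : Fin r ⊕ Bool → ℕ :=
  Sum.elim (Pi.single j 1) (fun b => if b = true then u j - 1 - s else c + s)

/-- generators of the pieces `(j, s)`: the first one is `e_j` with `k += u_j`, the others are `e_i` with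
`k += u_i` for `i < j` and `k' += u_i` for `i ≥ j` -/
def GB {r : ℕ} (u : Fin r → ℕ) (j : Fin r) : Fin (r + 1) → Fin r ⊕ Bool → ℕ :=
  Fin.cases (Sum.elim (Pi.single j 1) (fun b => if b = true then 0 else u j))
    (fun i => Sum.elim (Pi.single i 1)
      (fun b => if b = true then (if i < j then 0 else u i) else (if i < j then u i else 0)))

/-- [RB] MEDIUM. The piece `(j, s)`, `s < u j`, is a free cone.
PROOF. Let `m : Fin (r + 1) → ℕ`, `q = m 0`, `n i = m i.succ`. `aff (gB c u j s) (GB u j) m` has the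
coordinates `y_i = n i` for `i ≠ j`, `y_j = 1 + q + n j`, `k = c + s + q u_j + ∑_(i < j) n_i u_i`,
`k' = (u_j - 1 - s) + ∑_(i ≥ j) n_i u_i` (`Fin.sum_univ_succ`). Injective: `n i` for `i ≠ j` from `y_i`, then
`q` from `k` (`u_j > 0`), then `n j` from `y_j`. It is in the set on the right, with this `q`: `q < y_j`,
`∑_(i < j) u_i y_i = ∑_(i < j) u_i n_i`, and `k + k' + 1 = c + ∑ u_i y_i` (`u_j - 1 - s + s + 1 = u_j`,
`u_j (1 + q + n_j)`). Conversely let `y` be in the set on the right, with `q`: take `m 0 = q`,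
`m i.succ = y_i` for `i ≠ j`, `m j.succ = y_j - 1 - q`; `k'` is right because of the equation
`k + k' + 1 = c + ∑ u_i y_i`. -/
def StRB : Prop := ∀ (r c s : ℕ) (u : Fin r → ℕ) (j : Fin r), s < u j →
  Function.Injective (aff (gB c u j s) (GB u j)) ∧
  Set.range (aff (gB c u j s) (GB u j)) =
    {y | y ∈ extS Set.univ c u ∧ ∃ q, q < y (Sum.inl j) ∧ y (Sum.inr false) =
      c + (∑ i ∈ Finset.univ.filter (fun i : Fin r => i < j), u i * y (Sum.inl i)) + u j * q + s}

/-- [RD] MEDIUM. The pieces cover, and are disjoint (pure arithmetic of natural numbers).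
PROOF. Put `P j = ∑_(i < j) u_i y_i`. (a) `k < c + ∑ u_i y_i`. If `k < c` the first alternative holds with
`a = k`. Otherwise `k - c < ∑ u_i y_i`; let `j` be the first index with `k - c < P j + u_j y_j` (it exists:
induction on `r`, or the last index of `Fin r` works: `r > 0` because `0 ≤ k - c < ∑ u_i y_i`; for `j`
minimal `P j ≤ k - c`, because `P j` is `0` or `P j' + u_(j') y_(j')` for the predecessor `j'`). Put
`t = k - c - P j < u_j y_j`, `q = t / u_j < y_j`, `s = t % u_j < u_j` (`Nat.div_add_mod`).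
(b) If `c + P j + u_j q + s = c + P j' + u_(j') q' + s'` with `q < y_j`, `s < u_j`, `q' < y_(j')`, `s' < u_(j')`
and `j < j'`: the left side is `< c + P j + u_j y_j ≤ c + P j'`, contradiction. So `j = j'`, and
`q = q'`, `s = s'` (`Nat.div`, `Nat.mod` or nlinarith). -/
def StRD : Prop := ∀ (r c k : ℕ) (u y : Fin r → ℕ),
  (k < c + ∑ i, u i * y i → k < c ∨ ∃ j : Fin r, ∃ s < u j, ∃ q < y j,
    k = c + (∑ i ∈ Finset.univ.filter (fun i : Fin r => i < j), u i * y i) + u j * q + s) ∧
  ∀ (j j' : Fin r) (s s' q q' : ℕ), s < u j → s' < u j' → q < y j → q' < y j' →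
    k = c + (∑ i ∈ Finset.univ.filter (fun i : Fin r => i < j), u i * y i) + u j * q + s →
    k = c + (∑ i ∈ Finset.univ.filter (fun i : Fin r => i < j'), u i * y i) + u j' * q' + s' →
    j = j' ∧ s = s'

/-- [R4] EASY-MEDIUM. The extension of the full space is good.
PROOF. StRV for the index type `ℕ ⊕ (Fin r × ℕ)` and the finite set of the `inl a`, `a < c`, and
`inr (j, s)`, `s < u j`; the sets are the pieces of StRA, StRB, good by `Good.add` with `T = ∅`. Disjoint:
different `a` by `k = a`; `inl` and `inr` because `k = a < c` and `k ≥ c`; different `(j, s)` by StRD (b).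
The union is everything by StRD (a) (`k + k' + 1 = c + ∑ u_i y_i` gives `k < c + ∑ u_i y_i`; `wt c u y` is
`c + ∑ u_i y_i` by definition). -/
def StR4 : Prop := StRU → StRV → StRA → StRB → StRD →
  ∀ (r c : ℕ) (u : Fin r → ℕ), Good (extS (Set.univ : Set (Fin r → ℕ)) c u)

/-- [Rw] EASY. Affine forms on cones. PROOF. Expand, exchange the sums. -/
def StRw : Prop := ∀ {X : Type} [Fintype X] (r c : ℕ) (u g : X → ℕ) (G : Fin r → X → ℕ)
  (m : Fin r → ℕ), wt c u (aff g G m) = wt (wt c u g) (fun j => ∑ x, u x * G j x) m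

/-- [R5] EASY-MEDIUM. Conclusion of part R (1).
PROOF. Induction on `Good S`. `extS ∅ c u = ∅`. Let `S = range f ∪ T`, `f = aff g G` injective:
`extS S c u = extS (range f) c u ∪ extS T c u`, disjoint (the first coordinates are in `range f`, `T`), and
`extS T c u` is good by induction; StRU. `extS (range f) c u` is the image of
`extS univ c' u'`, `c' = wt c u g`, `u' j = ∑ x, u x * G j x`, under `afY h H`, where
`h = Sum.elim g 0`, `H (inl j) = Sum.elim (G j) 0`, `H (inr b) = Sum.elim 0 (Pi.single b 1)`: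
`afY h H y = Sum.elim (f (y ∘ inl)) (y ∘ inr)` (`Fintype.sum_sum_type`), and StRw. This map is injective.
StR4 and StRI. -/
def StR5 : Prop := StRU → StRI → StRw →
  (∀ (r c : ℕ) (u : Fin r → ℕ), Good (extS (Set.univ : Set (Fin r → ℕ)) c u)) → ConR1

/-! ## Sums -/

/-- [Rh] EASY-MEDIUM. The terms are hypergeometric.
PROOF. `wt e d (m + e_i) = wt e d m + d i`. So
`hterm s0 s e d m = (-1)^(s i) * ∏_q ∏_(t < d q i) (wt (e q) (d q) m + t + 1) * hterm s0 s e d (m + e_i)`
(`(n + k)! = n! ∏_(t < k) (n + t + 1)`, `Nat.factorial_mul_ascFactorial` or induction on `k`; the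
factorials are not zero in `ℂ`; `(-1)^(2 s i) = 1`). `P i` is the polynomial
`C ((-1)^(s i)) * ∏_q ∏_(t < d q i) (C (e q + t + 1) + ∑ j, C (d q j) * X j)`. -/
def StRh : Prop := ∀ (J : Type) [Fintype J] [DecidableEq J] (s0 : ℕ) (s : J → ℕ) (Q : Type)
  [Fintype Q] (e : Q → ℕ) (d : Q → J → ℕ), ∃ P : J → MvPolynomial J ℂ, ∀ (m : J → ℕ) (i : J),
    hterm s0 s e d m = ev (P i) m * hterm s0 s e d (m + Pi.single i 1)

/-- [Rp] EASY. Positive weights.
PROOF. If `d i = 0`, all `t • Pi.single i 1`, `t ∈ ℕ`, are in the fibre over `wt e d 0 = e`, and they are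
different: an infinite set (`Set.infinite_of_injective_forall_mem`). -/
def StRp : Prop := ∀ (J : Type) [Fintype J] [DecidableEq J] (e : ℕ) (d : J → ℕ),
  (∀ n, {m : J → ℕ | wt e d m = n}.Finite) → ∀ i, 1 ≤ d i

/-- [Rq] EASY. One cone.
PROOF. `ConH` with `P` from StRh and the positive weights from StRp. -/
def StRq : Prop := ConH → StRh → StRp → ∀ (r e : ℕ) (d : Fin r → ℕ) (s0 : ℕ) (s : Fin r → ℕ)
  (Q : Type) [Fintype Q] (eq : Q → ℕ) (dq : Q → Fin r → ℕ),
  (∀ n, {m : Fin r → ℕ | wt e d m = n}.Finite) → DFinite (gs (wt e d) (hterm s0 s eq dq))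

/-- [R6] MEDIUM. Conclusion of part R (2).
PROOF. Let `a = hterm s0 s eq dq`, `N = wt e d`, and write `fun x => if x ∈ S then a x else 0` as
`Set.indicator S a`. Induction on `Good S`. `S = ∅`: the series is zero, and `DFinite 0` (`r = 0`, `p 0 = 1`).
`S = range f ∪ T`, `f = aff g G`: `Set.indicator S a = Set.indicator (range f) a + Set.indicator T a`
(disjoint), both with `FibFin N` (subsets of the finite fibres of `S`), so the series is the sum of the two
series (StGs, first part), and by `ConA` it suffices that both are D-finite. `T`: induction (its fibres are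
finite). `range f`: StGs, second part: the series is `gs (N ∘ f) (a ∘ f)`, and by StRw (for `N` and for all
the affine forms in `hterm`) `N (f m) = wt e' d' m`, `a (f m) = hterm s0' s' eq' dq' m`; the fibres of
`wt e' d'` are finite (`f` is injective and maps them into those of `S`). The last hypothesis. -/
def StR6 : Prop := ConA → StGs → StRw →
  (∀ (r e : ℕ) (d : Fin r → ℕ) (s0 : ℕ) (s : Fin r → ℕ)
    (Q : Type) [Fintype Q] (eq : Q → ℕ) (dq : Q → Fin r → ℕ),
    (∀ n, {m : Fin r → ℕ | wt e d m = n}.Finite) → DFinite (gs (wt e d) (hterm s0 s eq dq))) →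
  ConR2

end Pool.Agent.Work.MP_6da7fa_al.EG
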