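import Pool.Agent.Work.MP_6da7fa_al.EG.StmtsG
import Pool.Agent.Work.MP_6da7fa_al.EG.StmtsR

set_option autoImplicit false

/-!
# Theorem EG, part D: D-finiteness of bounded modules, and the theorem

Every docstring is the complete proof.  Item `X`: `def StX`, file `EG/I_X.lean`, theorem
`prX : StX`.  All items are independent (earlier statements are hypotheses).
-/

namespace Pool.Agent.Work.MP_6da7fa_al.EG

open Equiv
open Pool.Agent.Work.MP_6da7fa_al.MB (wt ev gs FibFin cone)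

/-! ## The regions -/

/-- Extension by `i` pairs of coordinates, `y_(q,false) + y_(q,true) + 1 = c_q + ∑ u_(q,x) x`. -/
def ext2 {X : Type} [Fintype X] {i : ℕ} (S : Set (X → ℕ)) (c : Fin i → ℕ) (u : Fin i → X → ℕ) :
    Set (X ⊕ (Fin i × Bool) → ℕ) :=
  {y | (fun x => y (Sum.inl x)) ∈ S ∧ ∀ q,
    y (Sum.inr (q, false)) + y (Sum.inr (q, true)) + 1 = wt (c q) (u q) (fun x => y (Sum.inl x))}

/-- [Da] EASY-MEDIUM. PROOF. Induction on `i`, for all `S`, `c`, `u`.  `i = 0`: `ext2 S c u` is the image of `S` under the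
bijection of coordinates `X ≃ X ⊕ (Fin 0 × Bool)` (StRI with `afY 0 G`, `G` a permutation matrix; injective).
`i + 1`: let `S' = ext2 S (c ∘ castSucc) (u ∘ castSucc)` (good by induction), and `S'' = extS S' (c (last i)) u''` with
`u'' = u (last i)` on `X` and `0` on the new coordinates: good by ConR1.  `ext2 S c u` is the image of `S''` under the
bijection of coordinates `(X ⊕ (Fin i × Bool)) ⊕ Bool ≃ X ⊕ (Fin (i+1) × Bool)` (StRI again). -/
def StDa : Prop := ConR1 → StRI → ∀ (X : Type) [Fintype X] [DecidableEq X] (i : ℕ) (S : Set (X → ℕ))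
  (c : Fin i → ℕ) (u : Fin i → X → ℕ), Good S → Good (ext2 S c u)

/-- The coordinates: `m_j`; then `a_q` (`false`), `j_q` (`true`); then `j'_q` (`false`), `l_q` (`true`). -/
abbrev XD (r i : ℕ) : Type := (Fin r ⊕ (Fin i × Bool)) ⊕ (Fin i × Bool)

/-- The region: `a_q + j_q + 1 = t(inl q)`, `j'_q + l_q = t(inr (p q)) + j_(p q)`, `p q = w⁻¹ (w' q)`, where
`t = γ + ∑ m_j u_j`. -/
def RG {r i : ℕ} (γ : ZZ i → ℕ) (u : Fin r → ZZ i → ℕ) (w w' : Perm (Fin i)) : Set (XD r i → ℕ) :=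
  ext2 (ext2 (Set.univ : Set (Fin r → ℕ)) (fun q => γ (Sum.inl q)) (fun q j => u j (Sum.inl q)))
    (fun q => γ (Sum.inr (w⁻¹ (w' q))) + 1)
    (fun q => Sum.elim (fun j => u j (Sum.inr (w⁻¹ (w' q))))
      (fun x => if x = (w⁻¹ (w' q), true) then 1 else 0))

/-- sign exponent `∑ j_q + ∑ j'_q` -/
def sD (r i : ℕ) : XD r i → ℕ :=
  Sum.elim (Sum.elim (fun _ => 0) (fun x => if x.2 = true then 1 else 0))
    (fun x => if x.2 = true then 0 else 1)

/-- constants of the forms `a_q + j'_q + 1` and `l_q` -/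
def eQ (i : ℕ) : Fin i ⊕ Fin i → ℕ := Sum.elim (fun _ => 1) (fun _ => 0)

/-- coefficients of the forms `a_q + j'_q + 1` and `l_q` -/
def dQ (r i : ℕ) : Fin i ⊕ Fin i → XD r i → ℕ :=
  Sum.elim
    (fun q => Sum.elim (Sum.elim (fun _ => 0) (fun x => if x = (q, false) then 1 else 0))
      (fun x => if x = (q, false) then 1 else 0))
    (fun q => Sum.elim (Sum.elim (fun _ => 0) (fun _ => 0))
      (fun x => if x = (q, true) then 1 else 0))

/-- weight: `∑_z (u_j)_z` for `m_j`, zero for the other coordinates -/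
def dW {r i : ℕ} (u : Fin r → ZZ i → ℕ) : XD r i → ℕ :=
  Sum.elim (Sum.elim (fun j => ∑ z, u j z) (fun _ => 0)) (fun _ => 0)

open Classical in
/-- The series of the region. -/
noncomputable def GS {r i : ℕ} (γ : ZZ i → ℕ) (u : Fin r → ZZ i → ℕ) (w w' : Perm (Fin i)) :
    PowerSeries ℂ :=
  gs (wt (∑ z, γ z) (dW u)) (fun y => if y ∈ RG γ u w w' then hterm 0 (sD r i) (eQ i) (dQ r i) y else 0)

/-- [Db] EASY-MEDIUM. The points of the region in a fixed weight are finite in number, and the region is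
good; so the series is D-finite.
PROOF. Good: `Set.univ : Set (Fin r → ℕ)` is `range (aff 0 (fun j => Pi.single j 1)) ∪ ∅`; twice StDa's conclusion.
Finite: `wt = ∑ γ + ∑_j (∑_z u_j z) m_j = n` with `∑_z u_j z ≥ 1` (`u j ≠ 0`) bounds every `m_j` by `n`; then
`a_q + j_q + 1 = γ.. + ∑ u.. m` bounds `a_q`, `j_q`, and the second family of equations bounds `j'_q`, `l_q`: all
coordinates are bounded by a constant, `Set.Finite.subset` of a finite box (`Set.finite_Iic`, `Set.Finite.pi`).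
ConR2. -/
def StDb : Prop := (∀ (X : Type) [Fintype X] [DecidableEq X] (i : ℕ) (S : Set (X → ℕ))
    (c : Fin i → ℕ) (u : Fin i → X → ℕ), Good S → Good (ext2 S c u)) → ConR2 →
  ∀ (r i : ℕ) (γ : ZZ i → ℕ) (u : Fin r → ZZ i → ℕ) (w w' : Perm (Fin i)), (∀ j, u j ≠ 0) →
    DFinite (GS γ u w w') ∧
    ∀ n, {y | y ∈ RG γ u w w' ∧ wt (∑ z, γ z) (dW u) y = n}.Finite

/-- [Dc] EASY. PROOF. Induction on `b` for all `a`.  `b = 0`: both sides are `1 / (a+1)!`.  Splitting off `j = 0`: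
`T a (b+1) = 1 / ((a+1)! (b+1)!) - T (a+1) b`, and `gg a (b+1) + gg (a+1) b = ((a+1) + (b+1)) /
((a+1)! (b+1)! (a+b+2)) = 1 / ((a+1)! (b+1)!)`. -/
def StDc : Prop := ∀ a b : ℕ, ∑ j ∈ Finset.range (b + 1),
  (-1 : ℚ) ^ j / (((a + 1 + j).factorial : ℚ) * ((b - j).factorial : ℚ)) = gg a b

/-- Conclusion: the coefficients of the series of the region. -/
def ConDd : Prop := ∀ (r i n : ℕ) (γ : ZZ i → ℕ) (u : Fin r → ZZ i → ℕ) (w w' : Perm (Fin i)),
  (∀ j, u j ≠ 0) → PowerSeries.coeff n (GS γ u w w') =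
    ∑ a : Fin i → Fin n, ∑ b : Fin i → Fin n,
      if sz (fun q => (a q : ℕ)) (fun q => (b q : ℕ)) = n then
        (((∏ q, gg (a q) (b (w' q))) *
          ∑ t ∈ TT (ZZ i) n, (∏ q, (kap (a q) (b (w q)) (t (Sum.inl q)) (t (Sum.inr q)) : ℚ)) *
            (Nat.card {m : Fin r → ℕ // aff γ u m = t} : ℚ) : ℚ) : ℂ) else 0

/-- [Dd] MEDIUM. PROOF. Left side: the sum of `hterm` over the finite set of the `y ∈ RG` with weight `n`
(`PowerSeries.coeff_mk`, `finsum_mem`-lemmas).  For such `y` let `m`, `a_q`, `j_q`, `j'_q`, `l_q` be its coordinates and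
`t = aff γ u m`; `wt = ∑ z, t z`, so `t ∈ TT (ZZ i) n`.  The first equations: `t (inl q) = a_q + 1 + j_q`.  Define `b` by
`b (w q) = t (inr q) + j_q`.  The second ones: `j'_q + l_q = b (w' q)` (`w (w⁻¹ (w' q)) = w' q`).
`hterm = (-1)^(∑ j_q + ∑ j'_q) ∏ 1 / ((a_q + 1 + j'_q)! l_q!)`.  And `sz a b = ∑ (a_q + b_(w q) + 1) = ∑ t = n`, so
`a_q, b_q < n`.  Right side: multiply out: `gg a b = ∑_{j' ≤ b} (-1)^j' / ((a+1+j')! (b-j')!)` (StDc), so it is the
sum over all `(a, b, t, m, (j'_q))` with `sz a b = n`, `t ∈ TT n`, `aff γ u m = t`, `j'_q ≤ b (w' q)` of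
`∏ (-1)^(j'_q) / ((a_q+1+j'_q)! (b (w' q) - j'_q)!) * ∏ kap`.  A `kap` is nonzero iff `a_q < t (inl q)` and
`t (inl q) + t (inr q) = a_q + b (w q) + 1`; then with `j_q = t (inl q) - a_q - 1`: `b (w q) = t (inr q) + j_q` and
`kap = (-1)^(j_q)`.  So the nonzero terms correspond bijectively to the points `y` (with `l_q = b (w' q) - j'_q`), with
the same values. -/
def StDd : Prop := StDc → (∀ (r i : ℕ) (γ : ZZ i → ℕ) (u : Fin r → ZZ i → ℕ) (w w' : Perm (Fin i)),
    (∀ j, u j ≠ 0) → ∀ n, {y | y ∈ RG γ u w w' ∧ wt (∑ z, γ z) (dW u) y = n}.Finite) → ConDd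

/-- [De1] EASY. PROOF. Scalar multiples: `c = 0`: the zero series; in general the same equation holds for `c • f`
(the operator is linear). Finite sums: induction with the closure under addition. -/
def StDe1 : Prop := MB.ConA → (∀ (c : ℂ) (f : PowerSeries ℂ), DFinite f → DFinite (c • f)) ∧
  ∀ (ι : Type) (s : Finset ι) (f : ι → PowerSeries ℂ), (∀ j ∈ s, DFinite (f j)) →
    DFinite (∑ j ∈ s, f j)

/-- Conclusion: the core theorem. -/
def ConCore : Prop := ∀ (A : ℕ → Type) [∀ n, AddCommGroup (A n)] [∀ n, Module ℂ (A n)] (R : TCA A)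
  (M : ℕ → Type) [∀ n, AddCommGroup (M n)] [∀ n, Module ℂ (M n)] (S : TCAModule R M),
  R.FG → S.FG → (∀ n, FiniteDimensional ℂ (M n)) → ∀ k : ℕ, (∀ n, Bdd k (rp S.seq n)) →
    DFinite (hilb M)

/-- [Df] MEDIUM. The core theorem.
PROOF. For each `i ≤ k` take from ConHS (`Z = ZZ i`, `par i`): finite `ι_i`, `r`, `γ`, `u` with
`hT (par i) (rp S.seq (∑ t)) t = ∑_C #{m // aff (γ C) (u C) m = t}`.  For every `n` by ConBb (`α = Fin n`,
`card = n`), dividing by `n!` and with `fd a b = n! det (gg (a q) (b r))` if `sz a b = n`: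
`finrank (M n) / n! = ∑_{i ≤ k} (1/(i!)²) ∑_{a, b, sz a b = n} det (gg) * mm (rp S.seq n) a b`,
`mm = ∑_{t ∈ TT (ZZ i) n} KK a b t hT t`, and for `t ∈ TT (ZZ i) n` (`∑ t = n`, `subst`)
`hT (par i) (rp S.seq n) t = ∑_C #{m // aff = t}`.  Expand `det (gg (a q) (b r)) = ∑_{w'} sign w' ∏_q gg (a q) (b (w' q))`
(`Matrix.det_transpose`, `det_apply'`) and `KK a b t = ∑_w sign w ∏_q kap ..`; exchanging the finite sums:
`= ∑_i (1/(i!)²) ∑_C ∑_w ∑_{w'} sign w sign w' * coeff n (GS (γ C) (u C) w w')` (ConDd).  So `hilb M` is a finite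
linear combination of the series `GS (γ C) (u C) w w'`, all D-finite (StDb's conclusion): StDe1's conclusion. -/
def StDf : Prop := ConBb → ConHS → ConDd →
  (∀ (r i : ℕ) (γ : ZZ i → ℕ) (u : Fin r → ZZ i → ℕ) (w w' : Perm (Fin i)), (∀ j, u j ≠ 0) →
    DFinite (GS γ u w w')) →
  ((∀ (c : ℂ) (f : PowerSeries ℂ), DFinite f → DFinite (c • f)) ∧
    ∀ (ι : Type) (s : Finset ι) (f : ι → PowerSeries ℂ), (∀ j ∈ s, DFinite (f j)) →
      DFinite (∑ j ∈ s, f j)) → ConCore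

/-- The theorem. -/
def ConEG : Prop := ∀ (A : ℕ → Type) [∀ n, AddCommGroup (A n)] [∀ n, Module ℂ (A n)] (R : TCA A)
  (M : ℕ → Type) [∀ n, AddCommGroup (M n)] [∀ n, Module ℂ (M n)] (S : TCAModule R M),
  R.FG → S.FG → (∀ n, FiniteDimensional ℂ (M n)) → ∃ c : ℝ, 0 < c ∧
    ((∃ n0 : ℕ, ∀ n : ℕ, n0 ≤ n → (Module.finrank ℂ (M n) : ℝ) ≤ (n : ℝ) ^ (c * n)) →
      DFinite (hilb M))

/-- [Dg] EASY. PROOF. `e` from ConGi, `c = 1 / (4 e)`.  StGj for `d n = finrank (M n)` (`c * n = n / (4 e)`) gives `K` with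
`Slow M e K`; ConGi: all `Bdd (e * K)`; ConCore. -/
def StDg : Prop := ConGi → ConCore → StGj → ConEG

end Pool.Agent.Work.MP_6da7fa_al.EG
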