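import Pool.Agent.Work.MP_6da7fa_al.EG.StmtsV

set_option autoImplicit false

/-!
# Theorem EG, part G: growth implies boundedness

Every docstring is the complete proof.  Item `X`: `def StX`, file `EG/I_X.lean`, theorem
`prX : StX`.  All items are independent (earlier statements are hypotheses).
-/

namespace Pool.Agent.Work.MP_6da7fa_al.EG

open Equiv

/-! ## Commuting projections: from the positions to all letters -/

/-- The letters at position `s`. -/
def pe {α : Type} [LinearOrder α] {e : ℕ} (pos : α → Fin e) (s : Fin e) :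
    {x : α // pos x = s} ↪o α := OrderEmbedding.subtype _

/-- [Ga] MEDIUM. An equivariant projection.
PROOF. `B = ⨆ c : {x // pos x = s} → ZZ K, SI (par K) (resE (pe pos s) ρ) c`, `H = {σ : Perm α | pos ∘ σ = pos}` (a
subgroup).  For `σ ∈ H` the map `ρ σ` maps `B` into itself: `σ` restricts to a permutation `σ'` of the letters at
position `s` (`Equiv.Perm.subtypePerm`), and `ρ σ` maps `SI c` into `SI (c ∘ σ'⁻¹)`: ConSw, with `swap (σ x) (σ y) * σ =
σ * swap x y` and `viaEmbedding` of a swap = the swap of the images.  By averaging over `H` an arbitrary linear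
projection `E0` of `V` onto `B` (`Submodule.exists_isCompl`, `Submodule.linearProjOfIsCompl`):
`E = |H|⁻¹ ∑_{σ ∈ H} ρ σ E0 ρ σ⁻¹` is a projection onto `B` and commutes with all `ρ σ`, `σ ∈ H`. -/
def StGa : Prop := ConSw → ∀ (α V : Type) [Fintype α] [LinearOrder α] [AddCommGroup V] [Module ℂ V]
  (ρ : Representation ℂ (Perm α) V) (e K : ℕ) (pos : α → Fin e) (s : Fin e),
  ∃ E : V →ₗ[ℂ] V, LinearMap.IsProj (⨆ c : {x : α // pos x = s} → ZZ K,
      SI (par K) (resE (pe pos s) ρ) c) E ∧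
    ∀ σ : Perm α, pos ∘ σ = pos → ∀ v, E (ρ σ v) = ρ σ (E v)

/-- `v` is semi-invariant at all positions `s < m` for some colourings. -/
def Sim {α V : Type} [Fintype α] [LinearOrder α] [AddCommGroup V] [Module ℂ V]
    (ρ : Representation ℂ (Perm α) V) {e : ℕ} (K : ℕ) (pos : α → Fin e) (m : ℕ) (v : V) : Prop :=
  ∃ c : ∀ s : Fin e, {x : α // pos x = s} → ZZ K, ∀ s : Fin e, (s : ℕ) < m →
    v ∈ SI (par K) (resE (pe pos s) ρ) (c s)

/-- [Gb] MEDIUM. Simultaneous semi-invariants.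
PROOF. Induction on `m ≤ e`: `z` is a finite sum of vectors `v` with `Sim ρ K pos m v` (`m = 0`: `z` itself).
Step `m → m + 1`, `s = m`: let `z = ∑ v_i`, `Sim .. m v_i`.  With `E` from StGa's conclusion for `s`: `z = E z = ∑ E v_i`
(`z ∈ B_s` by hypothesis, `IsProj`), and `E v_i` is again `Sim .. m` with the same colourings: for `s' < m` and
`τ : Perm {x // pos x = s'}` the permutation `viaEmbedding τ` preserves `pos`, so `E` commutes with
`resE (pe pos s') ρ τ`.  So let `v = E v_i ∈ B_s`, semi-invariant for `(c s')_{s' < m}`.  Write `v = ∑_c w_c`,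
`w_c ∈ SI (par K) (resE (pe pos s) ρ) c` (finite sum over the colourings).  Let `Π` be the product of the
projections `PP (par K) (resE (pe pos s') ρ) (c s')`, `s' < m` (in the order of `s'`).  The operators
`resE (pe pos s') ρ τ'` and `resE (pe pos s) ρ τ` for `s' ≠ s` commute (permutations with disjoint supports:
`Equiv.Perm.Disjoint.commute`), so `Π w_c ∈ SI (par K) (resE (pe pos s) ρ) c`, and for the same reason the
`PP`s of different positions commute and preserve each other's `SI`, so `Π w_c ∈ SI (..) (c s')` for all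
`s' < m`.  `Π v = v` (ConPp), so `v = ∑ Π w_c`, each `Sim .. (m+1)`.  (Instead of the product of all projections
one may apply them one after another and use induction over `s'`.) -/
def StGb : Prop := ConPp → (∀ (α V : Type) [Fintype α] [LinearOrder α] [AddCommGroup V] [Module ℂ V]
    (ρ : Representation ℂ (Perm α) V) (e K : ℕ) (pos : α → Fin e) (s : Fin e),
    ∃ E : V →ₗ[ℂ] V, LinearMap.IsProj (⨆ c : {x : α // pos x = s} → ZZ K,
        SI (par K) (resE (pe pos s) ρ) c) E ∧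
      ∀ σ : Perm α, pos ∘ σ = pos → ∀ v, E (ρ σ v) = ρ σ (E v)) →
  ∀ (α V : Type) [Fintype α] [LinearOrder α] [AddCommGroup V] [Module ℂ V]
    (ρ : Representation ℂ (Perm α) V) (e K : ℕ) (pos : α → Fin e) (z : V),
    (∀ s : Fin e, z ∈ (⨆ c : {x : α // pos x = s} → ZZ K, SI (par K) (resE (pe pos s) ρ) c)) →
    z ∈ Submodule.span ℂ {v | Sim ρ K pos e v}

/-- Conclusion. -/
def ConGc : Prop := ∀ (α V : Type) [Fintype α] [LinearOrder α] [AddCommGroup V] [Module ℂ V]
    (ρ : Representation ℂ (Perm α) V) (e K : ℕ) (pos : α → Fin e) (z : V),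
    (∀ s : Fin e, z ∈ (⨆ c : {x : α // pos x = s} → ZZ K, SI (par K) (resE (pe pos s) ρ) c)) →
    z ∈ (⨆ c : α → ZZ (e * K), SI (par (e * K)) ρ c)

/-- [Gc] EASY-MEDIUM. PROOF. By StGb's conclusion it suffices that `Sim ρ K pos e v` implies that `v` is in some
`SI (par (e * K)) ρ c`.  Let `c s` be the colourings; `c⁰ x = (pos x, c (pos x) ⟨x, rfl⟩) : Fin e × ZZ K`, and
`ε : Fin e × ZZ K → ZZ (e * K)` the injection `(s, inl q) ↦ inl (finProdFinEquiv (s, q))`, `(s, inr q) ↦
inr (finProdFinEquiv (s, q))`, which preserves the parity; `c = ε ∘ c⁰`.  ConSw: if `x ≠ y` have the same colour then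
`pos x = pos y = s`, the colours `c s` of `x`, `y` agree, and `ρ (swap x y) = resE (pe pos s) ρ (swap ⟨x,_⟩ ⟨y,_⟩)`. -/
def StGc : Prop := ConSw → (∀ (α V : Type) [Fintype α] [LinearOrder α] [AddCommGroup V] [Module ℂ V]
    (ρ : Representation ℂ (Perm α) V) (e K : ℕ) (pos : α → Fin e) (z : V),
    (∀ s : Fin e, z ∈ (⨆ c : {x : α // pos x = s} → ZZ K, SI (par K) (resE (pe pos s) ρ) c)) →
    z ∈ Submodule.span ℂ {v | Sim ρ K pos e v}) → ConGc

/-! ## Block structure -/

section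
variable {A : ℕ → Type} [∀ n, AddCommGroup (A n)] [∀ n, Module ℂ (A n)] {R : TCA A}
  {M : ℕ → Type} [∀ n, AddCommGroup (M n)] [∀ n, Module ℂ (M n)]

/-- The data `(pos, blk)` are a block structure of `z ∈ M_n`: the letters are divided into blocks (`none` is the
base block), a letter is determined by its block and its position, and for every finite set `Q` of blocks `z`
is a permutation of a product `X u` where the letters of `u` are those in the base block and in the blocks of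
`Q`. -/
def BlkD (S : TCAModule R M) (e : ℕ) {n : ℕ} (pos : Fin n → Fin e) (blk : Fin n → Option ℕ)
    (z : M n) : Prop :=
  Function.Injective (fun x => (blk x, pos x)) ∧
    ∀ Q : Finset ℕ, ∃ (l m : ℕ) (h : l + m = n) (X : A l) (u : M m) (π : Perm (Fin n)),
      z = S.seq.act n π (S.smul.app h X u) ∧
      ∀ x : Fin n, (l ≤ (x : ℕ) ↔ (blk (π x) = none ∨ ∃ q ∈ Q, blk (π x) = some q))

/-- `z` has a block structure. -/
def Blk (S : TCAModule R M) (e : ℕ) {n : ℕ} (z : M n) : Prop := ∃ pos blk, BlkD S e pos blk z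

end

/-- [Gd] EASY. Base and permutations.
PROOF. (1) `pos x = ⟨x, _⟩` (`Fin.castLE`), `blk x = none`; for every `Q`: `l = 0`, `m = n`, `X = R.one`, `u = z`, `π = 1`
(`one_smul`, `act_one`).  (2) `pos ∘ σ⁻¹`, `blk ∘ σ⁻¹`, and for every `Q` the same `l, m, X, u` and `σ * π`
(`act_mul`). -/
def StGd : Prop := ∀ (A : ℕ → Type) [∀ n, AddCommGroup (A n)] [∀ n, Module ℂ (A n)] (R : TCA A)
  (M : ℕ → Type) [∀ n, AddCommGroup (M n)] [∀ n, Module ℂ (M n)] (S : TCAModule R M) (e : ℕ),
  (∀ (n : ℕ) (z : M n), n ≤ e → Blk S e z) ∧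
  ∀ (n : ℕ) (z : M n) (pos : Fin n → Fin e) (blk : Fin n → Option ℕ) (σ : Perm (Fin n)),
    BlkD S e pos blk z → BlkD S e (pos ∘ ⇑σ⁻¹) (blk ∘ ⇑σ⁻¹) (S.seq.act n σ z)

/-- [Ge] MEDIUM. Multiplication.
PROOF. Let `z` have the data `(pos1, blk1)`, `h : d + n = k`.  Choose `t : ℕ` with `blk1 x ≠ some t` for all `x` (finitely
many values).  On `Fin k` (through `Fin.addCases`, `finSumFinEquiv`): the first `d` letters `x` get `pos = x`
(`d ≤ e`), `blk = some t`; the last `n` letters get the values of `pos1`, `blk1`.  Injectivity: clear.  Let `Q` be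
given and take `(l, m, X, u, π)` of `z` for `Q.erase t` (no letter of `z` is in the block `t`, so `Q` and `Q.erase t` give
the same condition).  `a z = a (π (X u)) = (1 × π)(a (X u)) = (1 × π)((a X) u)` (`equivariant` with `σ = 1` and
`act_one`; `mul_smul`).  Case `t ∉ Q`: `l' = d + l`, `m' = m`, `X' = a X`, `u' = u`, `π' = blockSum _ 1 π`; a letter `y < d` is fixed
by `π'`, its block `t` is not in `Q`, and `y < l'`; a letter `y = d + y1` goes to `d + π y1`, `l' ≤ y ↔ l ≤ y1`.
Case `t ∈ Q`: `a X = τ (X a)`, `τ = blockSwap` (`TCA.comm`), so `a z = (1 × π)((τ (X a)) u) =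
(1 × π)((τ × 1)((X a) u)) = (1 × π)((τ × 1)(X (a u)))`: `l' = l`, `m' = d + m`, `X' = X`, `u' = a u`,
`π' = (1 × π)(τ × 1)`.  By `blockSwap_val`, `τ × 1` maps `y < l` to `d + y`, `l ≤ y < l + d` to `y - l`, and fixes
`y ≥ l + d`.  So `y < l` goes to `d + π y`, whose block is not in `Q` and not `none` (`y < l`); `l ≤ y < l + d` goes to a
letter of the block `t ∈ Q`; `y ≥ l + d` goes to `d + π (y - d)` with `l ≤ y - d`, whose block is in `Q` or `none`. -/
def StGe : Prop := ∀ (A : ℕ → Type) [∀ n, AddCommGroup (A n)] [∀ n, Module ℂ (A n)] (R : TCA A)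
  (M : ℕ → Type) [∀ n, AddCommGroup (M n)] [∀ n, Module ℂ (M n)] (S : TCAModule R M) (e d n k : ℕ)
  (h : d + n = k) (a : A d) (z : M n), d ≤ e → Blk S e z → Blk S e (S.smul.app h a z)

/-- Conclusion: the elements with block structure span. -/
def ConGf : Prop := ∀ (A : ℕ → Type) [∀ n, AddCommGroup (A n)] [∀ n, Module ℂ (A n)] (R : TCA A)
  (M : ℕ → Type) [∀ n, AddCommGroup (M n)] [∀ n, Module ℂ (M n)] (S : TCAModule R M), R.FG → S.FG →
  ∃ e : ℕ, 1 ≤ e ∧ ∀ n, Submodule.span ℂ {z : M n | Blk S e z} = ⊤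

/-- [Gf] EASY-MEDIUM. PROOF. Let `e ≥ 1` be a bound for the degrees of the generators in `R.FG` and `S.FG`.
`C n = span {z | Blk S e z}`.  (i) `C` is stable under `act` (StGd (2), linearity: `Submodule.span_induction`).
(ii) Let `D k` be the submodule of the `a ∈ A k` with `smul.app h a y ∈ C n` for all `j`, `n`, `h : k + j = n`, `y ∈ C j`.
It contains the generators of `R` (StGe, linearity in `y`), the unit (`0 + j = n`, `subst`, `one_smul`), is stable
under `act` (`(σ a) y = (σ × 1)(a y)`: `equivariant` with `τ = 1`, `act_one`, and (i)) and under products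
(`mul_smul`).  So `D = ⊤` by `R.FG`.  (iii) Hence `C` is a `SubMod` of `S`; it contains the generators of `S`
(StGd (1)), so `C = ⊤` by `S.FG`. -/
def StGf : Prop := StGd → StGe → ConGf

/-- [Gg] EASY-MEDIUM. Dimension bound.
PROOF. For `s : Perm β` let `σ = viaEmbedding s`, a permutation of `Fin n` which fixes all letters outside the
range of `f`; by the hypotheses every letter `π x` with `(x : ℕ) < l` is outside the range of `f`.  So
`π⁻¹ σ π` fixes all `x` with `(x : ℕ) < l`, hence it is `blockSum h 1 σ'` for a permutation `σ'` of `Fin m` (it preserves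
the set of the last `m` letters).  `ρ σ z = act (σ π) (X u) = act π (act (π⁻¹ σ π) (X u)) = act π (X (σ' u))`
(`equivariant` with `σ = 1`).  So the span is contained in the image of `M m` under the linear map
`y ↦ act π (X y)`: `finrank ≤ finrank (M m)` (`Submodule.finrank_mono`, `LinearMap.finrank_range_le`). -/
def StGg : Prop := ∀ (A : ℕ → Type) [∀ n, AddCommGroup (A n)] [∀ n, Module ℂ (A n)] (R : TCA A)
  (M : ℕ → Type) [∀ n, AddCommGroup (M n)] [∀ n, Module ℂ (M n)] (S : TCAModule R M)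
  (_ : ∀ n, FiniteDimensional ℂ (M n)) (β : Type) [Fintype β] [LinearOrder β] (n l m : ℕ)
  (h : l + m = n) (X : A l) (u : M m) (π : Perm (Fin n)) (f : β ↪o Fin n),
  (∀ x : Fin n, π x ∈ Set.range f → l ≤ (x : ℕ)) →
  Module.finrank ℂ (Submodule.span ℂ {v | ∃ s : Perm β,
    v = resE f (rp S.seq n) s (S.seq.act n π (S.smul.app h X u))}) ≤ Module.finrank ℂ (M m)

/-- The growth condition. -/
def Slow (M : ℕ → Type) [∀ n, AddCommGroup (M n)] [∀ n, Module ℂ (M n)] (e K : ℕ) : Prop :=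
  ∀ r m : ℕ, K < r → r ^ 2 ≤ m → m ≤ e * (r ^ 2 + 1) →
    (Module.finrank ℂ (M m) : ℚ) < ((r : ℚ) / 6) ^ (r ^ 2)

/-- [Gh] MEDIUM. One position.
PROOF. Suppose not.  ConGr for `α = {x // pos x = s}`, `resE (pe pos s) (rp S.seq n)`, `z`, `K`: `r > K`,
`r² ≤ card α`.  Let `γ ⊆ α` be a subset with `r²` elements, `β = {x // x ∈ γ}`, `g : β ↪o α` the inclusion: there is
`τ : Perm α` with `(r/6)^(r²) ≤ finrank (span {resE g (resE (pe pos s) ρ) s' (resE (pe pos s) ρ τ z)})`.  Let
`σ = viaEmbedding τ : Perm (Fin n)`; `z' = resE (pe pos s) ρ τ z = act σ z` has the block data `pos' = pos ∘ σ⁻¹`,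
`blk' = blk ∘ σ⁻¹` (StGd (2)).  `f = g` followed by `pe pos s : β ↪o Fin n`; `resE g (resE (pe pos s) ρ) = resE f ρ` (ext:
`viaEmbedding` of a composition).  Let `Q` be the set of the `q` with `blk' x = some q` for some `x` in the range
of `f`: `card Q ≤ r²`.  Take `(l, m, X, u, π)` of `z'` for `Q`.  The letters `π x` with `l ≤ x` are exactly the letters with
`blk' = none` or in `Q`; they contain the range of `f`, so `r² ≤ m`; for each of the at most `r² + 1` block values
there are at most `e` letters (`(blk', pos')` is injective), so `m ≤ e (r² + 1)`.  StGg: `finrank (span ..) ≤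
finrank (M m) < (r/6)^(r²)` (`Slow`), a contradiction. -/
def StGh : Prop := ConGr → StGd → StGg → ∀ (A : ℕ → Type) [∀ n, AddCommGroup (A n)]
  [∀ n, Module ℂ (A n)] (R : TCA A) (M : ℕ → Type) [∀ n, AddCommGroup (M n)] [∀ n, Module ℂ (M n)]
  (S : TCAModule R M), (∀ n, FiniteDimensional ℂ (M n)) → ∀ (e K : ℕ), Slow M e K →
  ∀ (n : ℕ) (z : M n) (pos : Fin n → Fin e) (blk : Fin n → Option ℕ), BlkD S e pos blk z →
  ∀ s : Fin e, z ∈ (⨆ c : {x : Fin n // pos x = s} → ZZ K,
    SI (par K) (resE (pe pos s) (rp S.seq n)) c)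

/-- Conclusion: slow growth implies boundedness. -/
def ConGi : Prop := ∀ (A : ℕ → Type) [∀ n, AddCommGroup (A n)] [∀ n, Module ℂ (A n)] (R : TCA A)
  (M : ℕ → Type) [∀ n, AddCommGroup (M n)] [∀ n, Module ℂ (M n)] (S : TCAModule R M), R.FG → S.FG →
  (∀ n, FiniteDimensional ℂ (M n)) → ∃ e : ℕ, 1 ≤ e ∧ ∀ K, Slow M e K →
    ∀ n, Bdd (e * K) (rp S.seq n)

/-- [Gi] EASY. PROOF. `e` from ConGf.  For `z` with block data: StGh's conclusion for all `s`, then ConGc:
`z ∈ ⨆ c, SI`.  These `z` span `M n` (ConGf), so every `v` is in the submodule `⨆ c, SI`. -/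
def StGi : Prop := ConGf → ConGc → (∀ (A : ℕ → Type) [∀ n, AddCommGroup (A n)]
    [∀ n, Module ℂ (A n)] (R : TCA A) (M : ℕ → Type) [∀ n, AddCommGroup (M n)] [∀ n, Module ℂ (M n)]
    (S : TCAModule R M), (∀ n, FiniteDimensional ℂ (M n)) → ∀ (e K : ℕ), Slow M e K →
    ∀ (n : ℕ) (z : M n) (pos : Fin n → Fin e) (blk : Fin n → Option ℕ), BlkD S e pos blk z →
    ∀ s : Fin e, z ∈ (⨆ c : {x : Fin n // pos x = s} → ZZ K,
      SI (par K) (resE (pe pos s) (rp S.seq n)) c)) → ConGi

/-- [Gj] MEDIUM. Numbers: growth at most `n^(n/(4e))` is slow.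
PROOF. Let `d n ≤ n^(n/(4e))` for `n ≥ n0`.  For `r` large (`r² ≥ n0`), `r² ≤ m ≤ e (r²+1)`:
`d m ≤ m^(m/(4e)) ≤ (e (r²+1))^((r²+1)/4)` (monotone in the base `≥ 1` and in the exponent, `Real.rpow_le_rpow`,
`Real.rpow_le_rpow_of_exponent_le`).  Now `e (r²+1) ≤ 2 e r² ≤ r³` for `r ≥ 2 e`, so this is
`≤ r^(3 (r²+1)/4) ≤ r^(7 r²/8)` for `r ≥ 3` (`3(r²+1)/4 ≤ 7r²/8` iff `6 ≤ r²`), and `r^(7/8) < r/6` iff
`6 < r^(1/8)`, true for `r > 6^8`.  So `K = max (2e) (max 6^8 n0)` works (`x^(r²)` as a power with natural exponent: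
`Real.rpow_natCast`, `Real.rpow_mul`). -/
def StGj : Prop := ∀ (d : ℕ → ℕ) (e : ℕ), 1 ≤ e → (∃ n0 : ℕ, ∀ n : ℕ, n0 ≤ n →
    (d n : ℝ) ≤ (n : ℝ) ^ ((n : ℝ) / (4 * e))) →
  ∃ K : ℕ, ∀ r m : ℕ, K < r → r ^ 2 ≤ m → m ≤ e * (r ^ 2 + 1) →
    (d m : ℚ) < ((r : ℚ) / 6) ^ (r ^ 2)

end Pool.Agent.Work.MP_6da7fa_al.EG
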