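import Pool.Agent.Work.MP_6da7fa_al.EG.StmtsV
import Pool.Agent.Work.MP_6da7fa_al.MB.Stmts

set_option autoImplicit false

/-!
# Theorem EG, part H: Hilbert functions of the semi-invariants

Every docstring is the complete proof.  Item `X`: `def StX`, file `EG/I_X.lean`, theorem
`prX : StX`.  All items are independent (earlier statements are hypotheses).
H1 - H7: an abstract theorem on operators that commute up to scalars.  H8 - H16: tca modules.
-/

namespace Pool.Agent.Work.MP_6da7fa_al.EG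

open Equiv
open Pool.Agent.Work.MP_6da7fa_al.MB (cone tlt)

/-! ## Counting functions of cones -/

/-- Conclusion: sums. -/
def ConH1 : Prop := ∀ (Z : Type), HSf (fun _ : Z → ℕ => 0) ∧
  (∀ h h' : (Z → ℕ) → ℕ, HSf h → HSf h' → HSf (fun t => h t + h' t)) ∧
  ∀ (p : ℕ) (h : Fin p → (Z → ℕ) → ℕ), (∀ j, HSf (h j)) → HSf (fun t => ∑ j, h j t)

/-- [H1] EASY. PROOF. `ι = Empty`; `ι ⊕ ι'` with `Sum.elim` / `Sum.rec` (`Fintype.sum_sum_type`); the third part
by induction on `p` (`Fin.sum_univ_castSucc`) from the first two. -/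
def StH1 : Prop := ConH1

/-- Conclusion: a cone. -/
def ConH2 : Prop := ∀ (Z : Type) [Fintype Z] (r : ℕ) (g : Z → ℕ) (u : Fin r → Z → ℕ) (k0 : Fin r → ℕ)
  (J : Finset (Fin r)), (∀ i ∈ J, u i ≠ 0) →
  HSf (fun t => Nat.card {k : Fin r → ℕ // k ∈ cone k0 J ∧ aff g u k = t})

/-- [H2] EASY-MEDIUM. PROOF. `ι = Unit`, dimension `J.card`, `γ = aff g u k0`, directions `u (e j)` with
`e : Fin J.card ≃ J` (`J.equivFin.symm`, or `J.orderIsoOfFin rfl`).  The map `m ↦ k`,
`k i = k0 i + (if h : i ∈ J then m (e.symm ⟨i, h⟩) else 0)` is a bijection from `Fin J.card → ℕ` onto `cone k0 J`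
(inverse: `m j = k (e j) - k0 (e j)`), and `aff g u k = aff (aff g u k0) (u ∘ e) m`: the sum over `i` of
`(if i ∈ J ..) * u i x` is a sum over `J` (`Finset.sum_dite`, `Finset.sum_attach`, `Equiv.sum_comp`).
`Nat.card_congr` for the subtypes. -/
def StH2 : Prop := ConH2

/-- Conclusion: the complement of an up-set. -/
def ConH3 : Prop := ∀ (Z : Type) [Fintype Z] (r : ℕ) (g : Z → ℕ) (u : Fin r → Z → ℕ)
  (U : Set (Fin r → ℕ)), (∀ k l, k ∈ U → k + l ∈ U) →
  (∀ t, {k : Fin r → ℕ | k ∉ U ∧ aff g u k = t}.Finite) →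
  HSf (fun t => Nat.card {k : Fin r → ℕ // k ∉ U ∧ aff g u k = t})

/-- [H3] EASY-MEDIUM. PROOF. `MB.StDec` with `𝒟 = {S | (∀ t, {k | k ∈ S ∧ aff g u k = t}.Finite) ∧
HSf (fun t => Nat.card {k // k ∈ S ∧ aff g u k = t})}`.  The empty set: ConH1 (1) (`Nat.card` of an empty type).
Disjoint unions: the set for `S ∪ T` is the disjoint union of the two finite sets (`Set.ncard_union_eq`,
`Nat.card_coe_set_eq`), ConH1 (2).  Cones: `m0 = 0`.  `cone k0 J ⊆ Uᶜ`, so the fibres are finite.  If `i ∈ J` had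
`u i = 0` then all `k0 + n e_i` (`n ∈ ℕ`) would be in the cone with the same value of `aff`: an infinite fibre
(`Set.infinite_of_injective_forall_mem`).  So ConH2 applies. -/
def StH3 : Prop := MB.StDec → ConH1 → ConH2 → ConH3

/-! ## Standard monomials -/

/-- Conclusion: the elements that are not in the span of the smaller ones. -/
def ConH4 : Prop := ∀ (V I : Type) [AddCommGroup V] [Module ℂ V] [FiniteDimensional ℂ V]
  (lt : I → I → Prop) (x : I → V), WellFounded lt → (∀ a b, lt a b ∨ a = b ∨ lt b a) →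
  {i : I | x i ∉ Submodule.span ℂ {v | ∃ i', lt i' i ∧ v = x i'}}.Finite ∧
  Nat.card {i : I // x i ∉ Submodule.span ℂ {v | ∃ i', lt i' i ∧ v = x i'}} =
    Module.finrank ℂ (Submodule.span ℂ (Set.range x))

/-- [H4] MEDIUM. PROOF. `lt` is transitive: if `a < b < c` and not `a < c` then `a = c` or `c < a`, a cycle, impossible
by well-foundedness.  Let `B` be the set.  (1) `(x i)_{i ∈ B}` is linearly independent: let
`∑_{i ∈ F} a_i x_i = 0`, `F ⊆ B` finite, some `a_i ≠ 0`; among the `i ∈ F` with `a_i ≠ 0` there is a largest one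
(finite nonempty set, total transitive irreflexive relation), and `x i` is in the span of the smaller ones: a
contradiction.  (2) Every `x i` is in the span of `(x i')_{i' ∈ B}` by well-founded induction: if `i ∉ B` then `x i`
is in the span of the `x i'`, `i' < i`, which are in this span.  So `(x i)_{i ∈ B}` is a basis of the span of all
`x i` (`finrank_span_set_eq_card`, or `finrank_span_eq_card` for a linearly independent family), and `B` is finite
(`LinearIndependent.finite` / `LinearIndependent.set_finite_of_isNoetherian`). -/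
def StH4 : Prop := ConH4

/-- Conclusion: the dimensions of the spaces spanned by the monomials. -/
def ConH5 : Prop := ∀ (Z : Type) [Fintype Z] (r p : ℕ) (u : Fin r → Z → ℕ) (g : Fin p → Z → ℕ)
  (W : (Z → ℕ) → Type) [∀ t, AddCommGroup (W t)] [∀ t, Module ℂ (W t)]
  [∀ t, FiniteDimensional ℂ (W t)]
  (T : ∀ (i : Fin r) (t t' : Z → ℕ), u i + t = t' → (W t →ₗ[ℂ] W t'))
  (X : ∀ (m : Fin r → ℕ) (j : Fin p) (t : Z → ℕ), aff (g j) u m = t → W t),
  (∀ (i : Fin r) (m : Fin r → ℕ) (j : Fin p) (t t' : Z → ℕ) (h : aff (g j) u m = t)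
    (h' : u i + t = t') (h'' : aff (g j) u (m + Pi.single i 1) = t'),
    ∃ ε : ℂ, ε ≠ 0 ∧ T i t t' h' (X m j t h) = ε • X (m + Pi.single i 1) j t' h'') →
  HSf (fun t => Module.finrank ℂ (Submodule.span ℂ {v : W t | ∃ m j h, v = X m j t h}))

/-- [H5] MEDIUM. PROOF. Order the pairs `(m, j)` by `tlt` (StOrd).  For fixed `t` let `I` be the subtype of the
`(m, j)` with `aff (g j) u m = t`: ConH4 (the order restricted to `I` is well-founded and total) says that the
dimension is the number of the `(m, j) ∈ I` that are standard, i.e. `X m j t h` is not in the span of the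
`X m' j' t h'` with `tlt (m', j') (m, j)`, and this number is finite.  Let `U j` be the set of the `m` such that `(m, j)`
is not standard (for `t = aff (g j) u m`).  `m ∈ U j → m + e_i ∈ U j`: apply `T i` to the expression of `X m j` as a linear
combination of smaller elements: `T i (X m' j') = ε' X (m' + e_i) j'` with `tlt (m' + e_i, j') (m + e_i, j)` (StOrd), and
`T i (X m j) = ε X (m + e_i) j`, `ε ≠ 0` (use `Submodule.span_induction` or `Submodule.map_span_le`; the degree of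
`(m' + e_i, j')` is `u i + t`).  By induction `m + l ∈ U j` for all `l`.  The number of standard `(m, j)` of degree `t` is
`∑_j Nat.card {m // m ∉ U j ∧ aff (g j) u m = t}` (a finite type fibred over `Fin p`: `Nat.card_congr` with a sigma type,
`Nat.card_sigma`).  ConH3 for each `j` and ConH1 (3). -/
def StH5 : Prop := MB.StOrd → ConH1 → ConH3 → ConH4 → ConH5

/-- Conclusion: monomials in operators that commute up to scalars. -/
def ConH6 : Prop := ∀ (Z : Type) [Fintype Z] (r p : ℕ) (u : Fin r → Z → ℕ) (g : Fin p → Z → ℕ)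
  (W : (Z → ℕ) → Type) [∀ t, AddCommGroup (W t)] [∀ t, Module ℂ (W t)]
  (T : ∀ (i : Fin r) (t t' : Z → ℕ), u i + t = t' → (W t →ₗ[ℂ] W t'))
  (y : ∀ (j : Fin p) (t : Z → ℕ), g j = t → W t),
  (∀ (i j : Fin r) (t t1 t2 t3 : Z → ℕ) (h1 : u j + t = t1) (h2 : u i + t1 = t2) (h3 : u i + t = t3)
    (h4 : u j + t3 = t2), ∃ ε : ℂ, ε ≠ 0 ∧ ∀ v, T i t1 t2 h2 (T j t t1 h1 v) =
      ε • T j t3 t2 h4 (T i t t3 h3 v)) →
  ∃ X : ∀ (m : Fin r → ℕ) (j : Fin p) (t : Z → ℕ), aff (g j) u m = t → W t,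
    (∀ (i : Fin r) (m : Fin r → ℕ) (j : Fin p) (t t' : Z → ℕ) (h : aff (g j) u m = t)
      (h' : u i + t = t') (h'' : aff (g j) u (m + Pi.single i 1) = t'),
      ∃ ε : ℂ, ε ≠ 0 ∧ T i t t' h' (X m j t h) = ε • X (m + Pi.single i 1) j t' h'') ∧
    ∀ (j : Fin p) (t : Z → ℕ) (h : aff (g j) u 0 = t) (h' : g j = t), X 0 j t h = y j t h'

/-- [H6] MEDIUM. PROOF. For a word `w : List (Fin r)` and `t` with `g j + (w.map u).sum = t` (or a similar equation)
define `mo w t h : W t` by recursion: `mo [] t h = y j t _`, `mo (i :: w) t h = T i t1 t _ (mo w t1 rfl)`,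
`t1 = g j + (w.map u).sum`.  (A) If `t1 = t2` then `T i t1 t _ (mo w t1 _) = T i t2 t _ (mo w t2 _)` (`subst`).  (B) If `w` and
`w'` are permutations of each other there is `ε ≠ 0` with `mo w t h = ε • mo w' t h'` for all `t`, `h`, `h'`: induction over
`List.Perm`: `nil`, `cons` by (A) and linearity, `swap` by the hypothesis (with `v = mo w`), `trans`: multiply the
scalars.  Let `l m` be the list containing `i` exactly `m i` times (`(List.finRange r).flatMap fun i =>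
List.replicate (m i) i`, or any list with these counts, for `m = 0` the empty list), `X m j t h = mo (l m) t _`;
the degree of `l m` is `∑ i, m i • u i`.  `T i (X m j) = mo (i :: l m)`, and `i :: l m` is a permutation of `l (m + e_i)`
(`List.perm_iff_count`). -/
def StH6 : Prop := ConH6

/-- Conclusion: the abstract theorem. -/
def ConH7 : Prop := ∀ (Z : Type) [Fintype Z] (r p : ℕ) (u : Fin r → Z → ℕ) (g : Fin p → Z → ℕ)
  (W : (Z → ℕ) → Type) [∀ t, AddCommGroup (W t)] [∀ t, Module ℂ (W t)]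
  [∀ t, FiniteDimensional ℂ (W t)]
  (T : ∀ (i : Fin r) (t t' : Z → ℕ), u i + t = t' → (W t →ₗ[ℂ] W t'))
  (y : ∀ (j : Fin p) (t : Z → ℕ), g j = t → W t) (E : ∀ t, Submodule ℂ (W t)),
  (∀ (i j : Fin r) (t t1 t2 t3 : Z → ℕ) (h1 : u j + t = t1) (h2 : u i + t1 = t2) (h3 : u i + t = t3)
    (h4 : u j + t3 = t2), ∃ ε : ℂ, ε ≠ 0 ∧ ∀ v, T i t1 t2 h2 (T j t t1 h1 v) =
      ε • T j t3 t2 h4 (T i t t3 h3 v)) →
  (∀ j t h, y j t h ∈ E t) → (∀ i t t' h, ∀ v ∈ E t, T i t t' h v ∈ E t') →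
  (∀ F : ∀ t, Submodule ℂ (W t), (∀ j t h, y j t h ∈ F t) →
    (∀ i t t' h, ∀ v ∈ F t, T i t t' h v ∈ F t') → ∀ t, E t ≤ F t) →
  HSf (fun t => Module.finrank ℂ (E t))

/-- [H7] EASY-MEDIUM. PROOF. `X` from ConH6.  `F t = span {v | ∃ m j h, v = X m j t h}`: it contains the `y j` (`m = 0`),
and `T i` maps `F t` into `F t'` (`T i (X m j t h) = ε • X (m + e_i) j t' _`; `aff (g j) u (m + e_i) = u i + aff (g j) u m`).  So
`E t ≤ F t`.  `F t ≤ E t`: `X m j t h ∈ E t` by induction on `∑ m`: for `m = 0` it is `y j`; otherwise `m = m' + e_i` and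
`X m j t h = ε⁻¹ • T i (X m' j _ rfl)`.  So `E t = F t`, and ConH5. -/
def StH7 : Prop := ConH5 → ConH6 → ConH7

/-! ## Colourings -/

/-- The standard colouring of type `t`. -/
noncomputable def cc {Z : Type} [Fintype Z] (t : Z → ℕ) : Fin (∑ z, t z) → Z := fun x =>
  ((Fintype.equivFinOfCardEq (by simp : Fintype.card (Σ z, Fin (t z)) = ∑ z, t z)).symm x).1

open Classical in
/-- A permutation `σ` with `c0 ∘ σ = c`. -/
noncomputable def ch {Z : Type} {n : ℕ} (c0 c : Fin n → Z) : Perm (Fin n) :=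
  if h : ∃ σ : Perm (Fin n), c0 ∘ σ = c then h.choose else 1

/-- Concatenation of colourings. -/
def cat {Z : Type} {a n m : ℕ} (h : a + n = m) (b : Fin a → Z) (c : Fin n → Z) : Fin m → Z :=
  Fin.append b c ∘ Fin.cast h.symm

/-- Conclusion: types of colourings. -/
def ConH8 : Prop := ∀ (Z : Type) [Fintype Z] [DecidableEq Z],
  (∀ t : Z → ℕ, typ (cc t) = t) ∧
  (∀ (n : ℕ) (c0 c : Fin n → Z), typ c = typ c0 → c0 ∘ ch c0 c = c) ∧
  (∀ (n : ℕ) (c : Fin n → Z), ∑ z, typ c z = n ∧ ∀ σ : Perm (Fin n), typ (c ∘ σ) = typ c)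

/-- [H8] EASY. PROOF. (1) `typ (cc t) z` is the number of the `x : Fin _` with `(e x).1 = z`, `e` an equivalence
with `Σ z, Fin (t z)` (`Finset.card_bij` / `Fintype.card_congr`).  (2) If the types are equal, glue bijections of
the fibres (`Equiv.sigmaFiberEquiv`, `Equiv.sigmaCongrRight`, `Fintype.card_eq`): some `σ` has
`c0 ∘ σ = c`, and `ch` is the chosen one (`Exists.choose_spec`).  (3) `Finset.card_eq_sum_card_fiberwise`;
`x ↦ σ x` is a bijection of the fibres. -/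
def StH8 : Prop := ConH8

/-- Conclusion: concatenation. -/
def ConH9 : Prop := ∀ (Z : Type) (a n m : ℕ) (h : a + n = m),
  (∀ [DecidableEq Z] (b : Fin a → Z) (c : Fin n → Z), typ (cat h b c) = typ b + typ c) ∧
  (∀ c : Fin m → Z, ∃ (b : Fin a → Z) (c' : Fin n → Z), c = cat h b c') ∧
  (∀ (p : Z → Bool) (b : Fin a → Z) (c : Fin n → Z) (σ : Perm (Fin n)),
    cat h b (c ∘ σ) = cat h b c ∘ blockSum h 1 σ ∧ sg p (cat h b c) (blockSum h 1 σ) = sg p c σ)

/-- [H9] EASY-MEDIUM. PROOF. `subst h`.  (1) Split `Fin (a + n)` into the first `a` and the last `n` letters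
(`Fin.sum_univ_add` for the indicator function of `c x = z`).  (2) The restrictions (`Fin.addCases`).
(3) `MB.append_lift`.  (4) `τ = blockSum h 1 σ` fixes the first `a` letters and acts as `σ` on the last `n`
(`MB.lift_zero_side`, `MB.lift_add_side`).  In the product over the pairs `(x, y)` a factor is `-1` only if
`x < y` and `τ y < τ x`: both letters are among the last `n` (if `x` is one of the first `a` letters, `τ x = x < τ y`), and
for `x = a + x'`, `y = a + y'` the factor is the one of `(x', y')` for `c`, `σ`.  (`Fintype.prod_prod_type`,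
`Fin.prod_univ_add` twice.) -/
def StH9 : Prop := ConH9

/-! ## Classes of coloured vectors -/

section
variable {M : ℕ → Type} [∀ n, AddCommGroup (M n)] [∀ n, Module ℂ (M n)] {Z : Type} [DecidableEq Z]

/-- The class of a vector with the colouring `c` (a vector with colouring `c0`). -/
noncomputable def Cl (p : Z → Bool) (s : SymSeq M) {n : ℕ} (c0 c : Fin n → Z) : M n →ₗ[ℂ] M n :=
  PP p (rp s n) c0 ∘ₗ (rp s n (ch c0 c) : M n →ₗ[ℂ] M n)

end

section
variable {A : ℕ → Type} [∀ n, AddCommGroup (A n)] [∀ n, Module ℂ (A n)] {R : TCA A}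
  {M : ℕ → Type} [∀ n, AddCommGroup (M n)] [∀ n, Module ℂ (M n)] {Z : Type} [Fintype Z]
  [DecidableEq Z]

/-- The operator of `x` with the colouring `b`. -/
noncomputable def Top (p : Z → Bool) (S : TCAModule R M) {d : ℕ} (x : A d) (b : Fin d → Z)
    (t t' : Z → ℕ) (h : d + ∑ z, t z = ∑ z, t' z) : M (∑ z, t z) →ₗ[ℂ] M (∑ z, t' z) :=
  Cl p S.seq (cc t') (cat h b (cc t)) ∘ₗ S.smulL h x

/-- The class of a generator `w` with the colouring `b`. -/
noncomputable def Gop (p : Z → Bool) (S : TCAModule R M) {d : ℕ} (w : M d) (b : Fin d → Z)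
    (t : Z → ℕ) (h : 0 + d = ∑ z, t z) : M (∑ z, t z) :=
  Cl p S.seq (cc t) (cat h Fin.elim0 b) (S.smul.app h R.one w)

end

/-- Conclusion: change of the permutation. -/
def ConH10 : Prop := ∀ (M : ℕ → Type) [∀ n, AddCommGroup (M n)] [∀ n, Module ℂ (M n)] (s : SymSeq M)
  (Z : Type) [DecidableEq Z] (p : Z → Bool) (n : ℕ) (c0 : Fin n → Z) (κ : Perm (Fin n)),
  ∃ ε : ℂ, ε ≠ 0 ∧ ∀ w : M n, PP p (rp s n) c0 (s.act n κ w) = ε • Cl p s c0 (c0 ∘ κ) w

/-- [H10] EASY. PROOF. `σ = ch c0 (c0 ∘ κ)` satisfies `c0 ∘ σ = c0 ∘ κ` (`Exists.choose_spec`).  `η = κ * σ⁻¹` satisfies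
`c0 ∘ η = c0`, and `act κ w = act η (act σ w)`, so by ConPp (2) `PP (act κ w) = sg p c0 η • PP (act σ w)`, and
`sg p c0 η = ±1` (StSb (1)). -/
def StH10 : Prop := ConPp → StSb → ConH10

/-- Conclusion: products with classes. -/
def ConH11 : Prop := ∀ (A : ℕ → Type) [∀ n, AddCommGroup (A n)] [∀ n, Module ℂ (A n)] (R : TCA A)
  (M : ℕ → Type) [∀ n, AddCommGroup (M n)] [∀ n, Module ℂ (M n)] (S : TCAModule R M)
  (Z : Type) [Fintype Z] [DecidableEq Z] (p : Z → Bool) (d n m : ℕ) (h : d + n = m) (x : A d)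
  (b : Fin d → Z) (c0 c : Fin n → Z) (c1 : Fin m → Z), typ c = typ c0 →
  typ (cat h b c0) = typ c1 → ∃ ε : ℂ, ε ≠ 0 ∧ ∀ v : M n,
    Cl p S.seq c1 (cat h b c0) (S.smul.app h x (Cl p S.seq c0 c v)) =
      ε • Cl p S.seq c1 (cat h b c) (S.smul.app h x v)

/-- [H11] EASY-MEDIUM. PROOF. `σ = ch c0 c`, `c0 ∘ σ = c`; `π = ch c1 (cat h b c0)`, `c1 ∘ π = cat h b c0` (ConH8 (2)).
`PP c0 u = |H|⁻¹ ∑_η sg p c0 η • act η u` over the `η` with `c0 ∘ η = c0`.  For such `η`: `x · act η u =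
act (1 × η) (x · u)` (`Pairing.equivariant` with the identity on the first factor, `act_one`), and
`PP c1 (act π (act (1 × η) y)) = PP c1 (act (π (1 × η) π⁻¹) (act π y)) = sg p c1 (π (1 × η) π⁻¹) • PP c1 (act π y)` (ConPp (2);
`c1 ∘ π ∘ (1 × η) = cat h b (c0 ∘ η) = c1 ∘ π`), where `sg p c1 (π (1 × η) π⁻¹) = sg p (c1 ∘ π) (1 × η) = sg p c0 η`
(StSc (2) for the colouring `c1 ∘ π`, `g = π`; ConH9 (3)).  As `sg ^ 2 = 1`: (I)
`Cl c1 (cat h b c0) (x · PP c0 u) = Cl c1 (cat h b c0) (x · u)`.  With `u = act σ v`: `x · act σ v = act (1 × σ) (x · v)`, so the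
left side of the claim is `PP c1 (act (π * (1 × σ)) (x · v))`, and `c1 ∘ (π * (1 × σ)) = cat h b c0 ∘ (1 × σ) = cat h b c`
(ConH9 (3)): ConH10. -/
def StH11 : Prop := ConPp → StSb → (∀ (α Z : Type) [Fintype α] [LinearOrder α] (p : Z → Bool)
    (c : α → Z) (g h : Perm α), c ∘ h = c → sg p (c ∘ ⇑g⁻¹) (g * h * g⁻¹) = sg p c h) →
  ConH8 → ConH9 → ConH10 → ConH11

/-- Conclusion: change of the colouring. -/
def ConH12 : Prop := ∀ (M : ℕ → Type) [∀ n, AddCommGroup (M n)] [∀ n, Module ℂ (M n)] (s : SymSeq M)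
  (Z : Type) [Fintype Z] [DecidableEq Z] (p : Z → Bool) (n : ℕ) (c0 c : Fin n → Z)
  (τ : Perm (Fin n)), typ c = typ c0 →
  ∃ ε : ℂ, ε ≠ 0 ∧ ∀ w : M n, Cl p s c0 c (s.act n τ w) = ε • Cl p s c0 (c ∘ τ) w

/-- [H12] EASY. PROOF. `σ = ch c0 c`, `c0 ∘ σ = c` (ConH8 (2)).  `Cl c0 c (act τ w) = PP c0 (act (σ * τ) w)` and
`c0 ∘ (σ * τ) = c ∘ τ`: ConH10. -/
def StH12 : Prop := ConH8 → ConH10 → ConH12

/-- Conclusion: products commute up to a block permutation; the unit. -/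
def ConH13 : Prop := ∀ (A : ℕ → Type) [∀ n, AddCommGroup (A n)] [∀ n, Module ℂ (A n)] (R : TCA A)
  (M : ℕ → Type) [∀ n, AddCommGroup (M n)] [∀ n, Module ℂ (M n)] (S : TCAModule R M),
  (∀ (a b n p q m : ℕ) (h1 : b + n = p) (h2 : a + p = m) (h3 : a + n = q) (h4 : b + q = m)
    (h5 : a + b + n = m) (x : A a) (x' : A b) (v : M n),
    S.smul.app h2 x (S.smul.app h1 x' v) =
      S.seq.act m (blockSum h5 (blockSwap (rfl : a + b = a + b)) 1)
        (S.smul.app h4 x' (S.smul.app h3 x v))) ∧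
  (∀ (a n n' m : ℕ) (h1 : 0 + n = n') (h2 : a + n' = m) (h3 : a + n = m) (x : A a) (v : M n),
    S.smul.app h2 x (S.smul.app h1 R.one v) = S.smul.app h3 x v) ∧
  (∀ (a n m m' : ℕ) (h1 : a + n = m) (h2 : 0 + m = m') (h3 : a + n = m') (x : A a) (v : M n),
    S.smul.app h2 R.one (S.smul.app h1 x v) = S.smul.app h3 x v) ∧
  (∀ (a n m : ℕ) (h : a + n = m) (x : A a) (τ : Perm (Fin n)) (v : M n),
    S.smul.app h x (S.seq.act n τ v) = S.seq.act m (blockSum h 1 τ) (S.smul.app h x v))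

/-- [H13] EASY. PROOF. (1) Both iterated products are products with `x x'`, resp. `x' x` (`TCAModule.mul_smul`), and
`x x' = act (blockSwap) (x' x)` in degree `a + b` (`TCA.comm`); `Pairing.equivariant` with the identity on the
second factor (`act_one`).  (2) `mul_smul` and `TCA.mul_one` (or `subst`, `one_smul`: `n' = n`).  (3) `subst`: `m' = m`,
`one_smul`.  (4) `Pairing.equivariant` with the identity on the first factor. -/
def StH13 : Prop := ConH13

/-- Conclusion: the operators commute up to scalars. -/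
def ConH14 : Prop := ∀ (A : ℕ → Type) [∀ n, AddCommGroup (A n)] [∀ n, Module ℂ (A n)] (R : TCA A)
  (M : ℕ → Type) [∀ n, AddCommGroup (M n)] [∀ n, Module ℂ (M n)] (S : TCAModule R M)
  (Z : Type) [Fintype Z] [DecidableEq Z] (p : Z → Bool) (d e : ℕ) (x : A d) (x' : A e)
  (b : Fin d → Z) (b' : Fin e → Z) (t t1 t2 t3 : Z → ℕ)
  (h1 : e + ∑ z, t z = ∑ z, t1 z) (h2 : d + ∑ z, t1 z = ∑ z, t2 z)
  (h3 : d + ∑ z, t z = ∑ z, t3 z) (h4 : e + ∑ z, t3 z = ∑ z, t2 z),
  typ b' + t = t1 → typ b + t1 = t2 → typ b + t = t3 → typ b' + t3 = t2 →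
  ∃ ε : ℂ, ε ≠ 0 ∧ ∀ v, Top p S x b t1 t2 h2 (Top p S x' b' t t1 h1 v) =
    ε • Top p S x' b' t3 t2 h4 (Top p S x b t t3 h3 v)

/-- [H14] EASY-MEDIUM. PROOF. By ConH11 (`c0 = cc t1`, `c = cat h1 b' (cc t)`, both of type `t1`; `c1 = cc t2`; ConH8 (1), ConH9
(1)) the left side is `ε₁ • Cl (cc t2) (cat h2 b (cat h1 b' (cc t))) (x · (x' · v))`.  By ConH13 (1) the argument is
`act β (x' · (x · v))` with `β = blockSum _ blockSwap 1`, and ConH12 gives `ε₂ • Cl (cc t2) (cat h2 b (cat h1 b' (cc t)) ∘ β) (x' · (x · v))`;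
the colouring is `cat h4 b' (cat h3 b (cc t))` (`MB.append_swap`).  By ConH11 again this is `ε₃⁻¹ •` the right side. -/
def StH14 : Prop := ConH8 → ConH9 → ConH11 → ConH12 → ConH13 → ConH14

/-- Conclusion: generation. -/
def ConH15 : Prop := ∀ (A : ℕ → Type) [∀ n, AddCommGroup (A n)] [∀ n, Module ℂ (A n)] (R : TCA A)
  (M : ℕ → Type) [∀ n, AddCommGroup (M n)] [∀ n, Module ℂ (M n)] (S : TCAModule R M)
  (sA : Finset (Σ n, A n)) (sM : Finset (Σ n, M n)),
  (∀ B : (n : ℕ) → Submodule ℂ (A n), (∀ x ∈ sA, x.2 ∈ B x.1) →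
    R.one ∈ B 0 → (∀ n σ, ∀ a ∈ B n, R.seq.act n σ a ∈ B n) →
    (∀ {i j k : ℕ} (h : i + j = k), ∀ a ∈ B i, ∀ b ∈ B j, R.mul.app h a b ∈ B k) →
    ∀ n, B n = ⊤) →
  (∀ N : SubMod S, (∀ x ∈ sM, x.2 ∈ N.carrier x.1) → ∀ n, N.carrier n = ⊤) →
  ∀ (Z : Type) [Fintype Z] [DecidableEq Z] (p : Z → Bool)
    (F : ∀ t : Z → ℕ, Submodule ℂ (M (∑ z, t z))),
    (∀ x ∈ sA, ∀ (b : Fin x.1 → Z) (t t' : Z → ℕ) (h : x.1 + ∑ z, t z = ∑ z, t' z),
      typ b + t = t' → ∀ v ∈ F t, Top p S x.2 b t t' h v ∈ F t') →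
    (∀ w ∈ sM, ∀ (b : Fin w.1 → Z) (t : Z → ℕ) (h : 0 + w.1 = ∑ z, t z),
      typ b = t → Gop p S w.2 b t h ∈ F t) →
    ∀ t, SI p (rp S.seq (∑ z, t z)) (cc t) ≤ F t

/-- [H15] MEDIUM. PROOF. Let `N n` be the submodule of the `z ∈ M n` such that `Cl p S.seq (cc t) c (1 · z) ∈ F t` for all
`t`, `h : 0 + n = ∑ t` and all `c` with `typ c = t` (`1 · z = S.smul.app h R.one z`).  (a) `N` is stable under the
permutations: `1 · act τ z = act (1 × τ) (1 · z)` (ConH13 (4)) and ConH12; `typ (c ∘ σ) = typ c`.  (b) Let `B i` be the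
submodule of the `a ∈ A i` with `a · z ∈ N k` for all `j`, `k`, `i + j = k`, `z ∈ N j`.  It contains the unit (ConH13 (3) with
`x = 1`: `1 · (1 · z) = 1 · z`), is stable under the permutations (`(σ a) · z = (σ × 1)(a · z)`, (a)) and under
products (`mul_smul`).  It contains `x.2` for `x ∈ sA`: let `z ∈ N n`, `t`, `c` with `typ c = t`, `0 + (x.1 + n) = ∑ t`;
`1 · (x · z) = x · z` (ConH13 (3)).  Write `c = cat H b c'` (ConH9 (2)), `t' = typ c'`, `∑ t' = n` (ConH8 (3)); `c'' = cat _ Fin.elim0 c' :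
Fin (∑ t') → Z` (the same colouring, `typ c'' = t'`).  `v = Cl (cc t') c'' (1 · z) ∈ F t'`, so `Top p S x b t' t _ v ∈ F t`
(`typ b + t' = t`, ConH9 (1)); by ConH11 it is `ε • Cl (cc t) (cat _ b c'') (x · (1 · z))`, and `cat _ b c'' = c` (generalize
`∑ t'`, `subst`), `x · (1 · z) = x · z` (ConH13 (2)).  As `ε ≠ 0` the claim follows.  By the first hypothesis `B = ⊤`, so `N` is a
`SubMod`.  (c) It contains the `w ∈ sM`: `Cl (cc t) c (1 · w) = Gop p S w b t h` with `c = cat h Fin.elim0 b` (ConH9 (2) for `a = 0`;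
`typ b = t`).  So `N = ⊤` by the second hypothesis.  (d) Let `v ∈ SI p _ (cc t)`, `c = cc t`: `Cl (cc t) (cc t) (1 · v) ∈ F t`,
`1 · v = v` (`one_smul`), and `Cl (cc t) (cc t) v = ε⁻¹ • PP (cc t) v = ε⁻¹ • v` (ConH10 for `κ = 1`; ConPp (1): `PP v = v`). -/
def StH15 : Prop := ConPp → ConH8 → ConH9 → ConH10 → ConH11 → ConH12 → ConH13 → ConH15

/-- [H16] EASY-MEDIUM. The conclusion of part H.
PROOF. `sA`, `sM` from the hypotheses `R.FG`, `S.FG`.  The types `P = Σ x : sA, (Fin x.1.1 → Z)` and `Q` (the same for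
`sM`) are finite: choose equivalences `e : Fin r ≃ P`, `f : Fin q ≃ Q`.  `u i = typ (e i).2`, `g j = typ (f j).2`,
`W t = M (∑ z, t z)`, `E t = SI p (rp S.seq _) (cc t)`, `T i t t' h = Top p S (e i).1.1.2 (e i).2 t t' _`,
`y j t h = Gop p S (f j).1.1.2 (f j).2 t _` (the sums from ConH8 (3)).  ConH7: the operators commute up to scalars by
ConH14; `Cl` has values in `SI` (ConPp (1)); the last hypothesis is ConH15 (transport along `e`, `f`).  Finally
`hT p ρ t = hT p ρ (typ (cc t)) = hn p ρ (cc t) = finrank (E t)` (ConH8 (1), ConHt (1)). -/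
def StH16 : Prop := ConPp → ConHt → ConH7 → ConH8 → ConH14 → ConH15 → ConHS

end Pool.Agent.Work.MP_6da7fa_al.EG
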