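import Pool.Agent.Work.MP_6da7fa_al.EG.Defs

set_option autoImplicit false

/-!
# Theorem EG, part S: alphabets, Giambelli determinants, orthonormality

Every docstring is the complete proof.  Item `X`: `def StX`, file `EG/I_X.lean`, theorem
`prX : StX`.  All items are independent (earlier statements are hypotheses).
Notation of the proofs: `h_n = hh p z n`, `e_n = hh (op p) z n`; on the alphabet `ZZ k` the letters
are `x_q` (`Sum.inl q`) and `y_r` (`Sum.inr r`).
-/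

namespace Pool.Agent.Work.MP_6da7fa_al.EG

open Equiv MvPolynomial

/-! ## Generating functions -/

/-- [HG] EASY-MEDIUM. Generating function of the `h_n`.
PROOF. Let `g_i = PowerSeries.mk (fun n => if p i = true ∧ 1 < n then 0 else z i ^ n)`.  (1) `mk h = ∏ i, g_i`:
the coefficient of a finite product is the sum over the decompositions of `n` (`PowerSeries.coeff_prod` with
`Finset.finsuppAntidiag`, or induction over the letters; `TT Z n = piAntidiag univ n` is the set of all `ν`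
with `∑ i, ν i = n`, `Finset.mem_piAntidiag`), and `∏ i, coeff (ν i) g_i` is `∏ z_i ^ ν_i` or zero.  (2) If
`p i = true` then `g_i = 1 + C (z i) * X`; if `p i = false` then `g_i * (1 - C (z i) * X) = 1` (compare
coefficients).  Multiply over `i` (`Finset.prod_mul_distrib`). -/
def StHG : Prop := ∀ (Z R : Type) [Fintype Z] [DecidableEq Z] [CommRing R] (p : Z → Bool) (z : Z → R),
  (PowerSeries.mk fun n => hh p z n) *
      ∏ i, (if p i = true then 1 else 1 - PowerSeries.C (z i) * PowerSeries.X) =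
    ∏ i, (if p i = true then 1 + PowerSeries.C (z i) * PowerSeries.X else 1)

/-- [HE] EASY-MEDIUM. `H(t) E(-t) = 1`.
PROOF. `h_0 = 1`: `TT Z 0 = {0}`.  Let `H = mk h`, `E' = mk (fun n => (-1)^n e_n)`; `(-1)^n e_n` is `e_n` of the
alphabet `-z` (each monomial has degree `n`: `∏ (-z_i)^ν_i = (-1)^(∑ ν_i) ∏ z_i^ν_i`).  Put
`A = ∏ i, (if p i = true then 1 else 1 - C (z i) X)` and `B = ∏ i, (if p i = true then 1 + C (z i) X else 1)`.
StHG for `p`, `z`: `H A = B`; StHG for `op p`, `-z`: `E' B = A`.  So `(H E') (A B) = A B`; `A B` has constant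
coefficient `1`, hence is a unit (`PowerSeries.isUnit_iff_constantCoeff`), and `H E' = 1`.  Its coefficient at
`m ≥ 1` is the claim (`PowerSeries.coeff_mul`, `Finset.Nat.sum_antidiagonal_eq_sum_range_succ`, reflect). -/
def StHE : Prop := StHG → ∀ (Z R : Type) [Fintype Z] [DecidableEq Z] [CommRing R] (p : Z → Bool)
  (z : Z → R), hh p z 0 = 1 ∧ ∀ m, 1 ≤ m →
    ∑ j ∈ Finset.range (m + 1), (-1 : R) ^ j * hh p z (m - j) * hh (op p) z j = 0

/-- [Ro] EASY-MEDIUM. Generating function of a row product.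
PROOF. The row `y` is the sum of `∏ i, z i ^ ν i` over the `ν ∈ TT Z (t y)` with `ν i ≤ 1` whenever
`p y ≠ p' i` (for `p y = false` this is the condition in `hh p'`, for `p y = true` the one in `hh (op p')`).
The product over `y` of these sums is the sum over all families `ν : Y → Z → ℕ` (`Finset.prod_univ_sum`,
`Fintype.piFinset`) of `∏ y, ∏ i, z i ^ ν y i = ∏ i, z i ^ (∑ y, ν y i)`.  Group by the column sums `t'`
(`Finset.sum_fiberwise_of_maps_to`; `∑ t' = ∑ t`): the number of families with column sums `t'` is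
`NN p p' t t'` (`Nat.card` of a subtype as the card of a filter, `Nat.subtype_card`). -/
def StRo : Prop := ∀ (Y Z R : Type) [Fintype Y] [DecidableEq Y] [Fintype Z] [DecidableEq Z] [CommRing R]
  (p : Y → Bool) (p' : Z → Bool) (z : Z → R) (t : Y → ℕ),
  rows p p' z t = ∑ t' ∈ TT Z (∑ y, t y), (NN p p' t t' : R) * ∏ i, z i ^ t' i

/-- [Ns] EASY. PROOF. Transposition of the matrices; the sum of all entries is `∑ t` and `∑ t'`. -/
def StNs : Prop := ∀ (Z Z' : Type) [Fintype Z] [Fintype Z'] (p : Z → Bool) (p' : Z' → Bool)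
  (t : Z → ℕ) (t' : Z' → ℕ), NN p p' t t' = NN p' p t' t ∧
    (∑ z, t z ≠ ∑ z', t' z' → NN p p' t t' = 0)

/-- [Sd] EASY-MEDIUM. Expansion of the Giambelli determinant.
PROOF. `SS p' z a b = ∑_{(α, β) ∈ antidiagonal (a + b + 1)} kap a b α β * h_α * e_β` (the terms with `α ≤ a`
vanish, and `α = a + 1 + j`, `β = b - j`).  `det = ∑_w sign w ∏_q SS (a q) (b (w q))` (`Matrix.det_transpose`,
`Matrix.det_apply'`).  Multiply out the product over `q` of these sums (`Finset.prod_univ_sum`): a family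
`(α_q, β_q)` is the same as `t : ZZ i → ℕ`, `t (inl q) = α_q`, `t (inr q) = β_q`; the product of the `kap` is zero
unless `α_q + β_q = a_q + b_(w q) + 1` for all `q`, and then `∑ t = sz a b` (`∑ b (w q) = ∑ b q`), so one may
sum over all `t ∈ TT (ZZ i) (sz a b)`.  `rows (par i) p' z t = ∏ h_(t (inl q)) * ∏ e_(t (inr q))`
(`Fintype.prod_sum_type`). -/
def StSd : Prop := ∀ (Z R : Type) [Fintype Z] [DecidableEq Z] [CommRing R] (p' : Z → Bool) (z : Z → R)
  (i : ℕ) (a b : Fin i → ℕ),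
  sdet p' z a b = ∑ t ∈ TT (ZZ i) (sz a b), (KK a b t : R) * rows (par i) p' z t

/-- [Cf] EASY-MEDIUM. Coefficients of the Giambelli determinant.
PROOF. StSd with `z = X`, then StRo: `sdet = ∑_t KK a b t ∑_{t''} NN t t'' X^t''`, `t''` in `TT Z (sz a b)`.  The
coefficient at `t'`: if `∑ t' = sz a b` it is `∑_t KK a b t * NN t t'`; otherwise it is zero and all
`NN t t' = 0` by StNs.  (`∏ i, X i ^ t'' i = monomial _ 1`, `MvPolynomial.coeff_monomial`;
`MvPolynomial.monomial_eq`.) -/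
def StCf : Prop := StRo → StSd → StNs → ∀ (Z : Type) [Fintype Z] [DecidableEq Z] (p' : Z → Bool)
  (i : ℕ) (a b : Fin i → ℕ) (t' : Z →₀ ℕ),
  coeff t' (sdet p' (fun z => (X z : MvPolynomial Z ℤ)) a b) =
    ∑ t ∈ TT (ZZ i) (sz a b), KK a b t * (NN (par i) p' t t' : ℤ)

/-! ## The factorisation of the hook functions -/

/-- The matrix `(1 / (x_q + y_r))`. -/
noncomputable def CM {F : Type} [Field F] {k : ℕ} (x y : Fin k → F) : Matrix (Fin k) (Fin k) F :=
  Matrix.of fun q r => (x q + y r)⁻¹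

/-- [F1] MEDIUM.
PROOF. First part.  Over `F⟦t⟧` (map all matrices with `PowerSeries.C`): entrywise
`(1 - t x_q) / (x_q + y_r) + t = (1 + t y_r) / (x_q + y_r)`, i.e. `diag(1 - t x) M + t 1 1ᵀ = M diag(1 + t y)`,
`M = CM x y`.  Let `u_q = ∑ x_q^n t^n = 1 / (1 - t x_q)`: the left side is `diag(1 - t x) (M + t u 1ᵀ)`, and
`det (M + t u 1ᵀ) = det M (1 + t ∑_{q, r} (M⁻¹)_{r q} u_q)` (`Matrix.det_add_replicateCol_mul_replicateRow`, or
`det (M (1 + t M⁻¹ u 1ᵀ))` and `Matrix.det_one_add_replicateCol_mul_replicateRow`).  Determinants: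
`∏ (1 - t x_q) * det M * (1 + t ∑ (M⁻¹)_{r q} u_q) = det M * ∏ (1 + t y_r)`.  By StHG (for the alphabet
`Sum.elim x y`; `Fintype.prod_sum_type`) `H ∏ (1 - t x_q) = ∏ (1 + t y_r)`.  Cancel `det M` and the unit
`∏ (1 - t x_q)`: `H = 1 + t ∑ (M⁻¹)_{r q} u_q`; compare the coefficients of `t^(n+1)`.  Second part: the first
one for `(y, x)`: `hh (op (par k)) (Sum.elim x y) = hh (par k) (Sum.elim y x)` (reindex the exponents along
`Sum.swap`), `CM y x = (CM x y)ᵀ`, `(Mᵀ)⁻¹ = (M⁻¹)ᵀ` (`Matrix.transpose_nonsing_inv`). -/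
def StF1 : Prop := StHG → ∀ (F : Type) [Field F] (k : ℕ) (x y : Fin k → F),
  (∀ q r, x q + y r ≠ 0) → (CM x y).det ≠ 0 → ∀ n : ℕ,
    hh (par k) (Sum.elim x y) (n + 1) = ∑ q, ∑ r, x q ^ n * (CM x y)⁻¹ r q ∧
    hh (op (par k)) (Sum.elim x y) (n + 1) = ∑ q, ∑ r, (CM x y)⁻¹ r q * y r ^ n

/-- [Ft] EASY-MEDIUM. The factorisation.
PROOF. `M = CM x y`, `N = M⁻¹`.  `diag(x) M + M diag(y) = 1 1ᵀ` (entrywise), multiply by `N` on both sides:
`N diag(x) + diag(y) N = N 1 1ᵀ N`, i.e. `N_{r q} (x_q + y_r) = (∑_{q'} N_{r q'}) (∑_{r'} N_{r' q})`.  Let `G a b`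
be the right side of the claim.  Multiply by `x_q^a y_r^b` and sum: `G (a+1) b + G a (b+1) =
(∑ x_q^a N_{r' q}) (∑ N_{r q'} y_r^b) = h_(a+1) e_(b+1)` by StF1.  On the other side
`SS a (b+1) = h_(a+1) e_(b+1) - SS (a+1) b` (split off `j = 0`, shift `j`) and `SS a 0 = h_(a+1) e_0 = G a 0`
(`e_0 = 1`: StHE).  Induction on `b` for all `a`. -/
def StFt : Prop := StHG → StHE → StF1 → ∀ (F : Type) [Field F] (k : ℕ) (x y : Fin k → F),
  (∀ q r, x q + y r ≠ 0) → (CM x y).det ≠ 0 → ∀ a b : ℕ,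
    SS (par k) (Sum.elim x y) a b = ∑ q, ∑ r, x q ^ a * (CM x y)⁻¹ r q * y r ^ b

/-- [Dn] EASY-MEDIUM. `DD k` does not vanish at `y_r = -x_q`.
PROOF. Let `π = swap q r` (so `π q = r`) and `Φ` the algebra homomorphism with `x_s ↦ x_s`,
`y_s ↦ - x_(π⁻¹ s)`.  `Φ ∘ sub q r = Φ` on the variables (`Φ y_r = -x_q`), so it suffices `Φ (DD k) ≠ 0`.  For
`w ≠ π` there is `s` with `w s ≠ π s`, and the factor of the pair `(s, π s)` is mapped to `x_s - x_s = 0`.  For
`w = π` the product is `∏ (x_s - x_(π⁻¹ s'))` over the pairs with `s' ≠ π s`, i.e. `π⁻¹ s' ≠ s`: all factors are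
nonzero (`MvPolynomial.X_injective`), the ring is a domain.  So `Φ (DD k) = ± ∏ ≠ 0`.  The second part follows for
`k ≥ 1` from the first; `DD 0 = 1`; or directly with `π = 1`. -/
def StDn : Prop := ∀ k : ℕ, (∀ q r : Fin k, sub q r (DD k) ≠ 0) ∧ DD k ≠ 0

/-- the variables in the fraction field -/
noncomputable def fx (k : ℕ) (q : Fin k) : FractionRing (MvPolynomial (ZZ k) ℤ) :=
  algebraMap (MvPolynomial (ZZ k) ℤ) _ (X (Sum.inl q))

/-- the variables in the fraction field -/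
noncomputable def fy (k : ℕ) (r : Fin k) : FractionRing (MvPolynomial (ZZ k) ℤ) :=
  algebraMap (MvPolynomial (ZZ k) ℤ) _ (X (Sum.inr r))

/-- [FM] EASY-MEDIUM.
PROOF. `x_q + y_r ≠ 0` as a polynomial (coefficient at `x_q`), and the map to the fraction field is injective
(`IsFractionRing.injective`).  `det M = ∑_w sign w ∏_q (x_q + y_(w q))⁻¹` (`Matrix.det_transpose`,
`det_apply'`), and `EE * ∏_q (x_q + y_(w q))⁻¹ = ∏_{(q, s), s ≠ w q} (x_q + y_s)`: split the product over all pairs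
into the pairs with `s = w q` and the others (`Finset.prod_filter_mul_prod_filter_not`,
`Finset.prod_product`).  So `EE * det M = DD`, which is nonzero by StDn, hence `det M ≠ 0`. -/
def StFM : Prop := StDn → ∀ k : ℕ, (∀ q r, fx k q + fy k r ≠ 0) ∧ (CM (fx k) (fy k)).det ≠ 0 ∧
  algebraMap (MvPolynomial (ZZ k) ℤ) (FractionRing (MvPolynomial (ZZ k) ℤ)) (EE k) *
    (CM (fx k) (fy k)).det = algebraMap _ _ (DD k)

/-- [Va] EASY-MEDIUM. Vanishing in too few letters.
PROOF. `Type`-level: `F = FractionRing (MvPolynomial (ZZ k) ℤ)`; the map `MvPolynomial → F` is injective and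
commutes with `hh`, `SS`, `Matrix.det` (`map_sum`, `map_prod`, `RingHom.map_det`), and maps the alphabet `X` to
`Sum.elim (fx k) (fy k)`.  By StFt (hypotheses from StFM) the `i × i` matrix of the `SS (a q) (b r)` is
`U * C * V` with `U : i × k`, `C : k × k`, `V : k × i`.  As `k < i` there is a nonzero vector `v` with `V v = 0`
(`Matrix.exists_mulVec_eq_zero_iff` needs square matrices; use
`LinearMap.exists_ne_zero_of_...`/`Matrix.rank_mul_le`, `Matrix.rank_le_card_width` and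
`Matrix.rank_of_isUnit`: the rank is at most `k`, so the matrix is not invertible).  So `det = 0`. -/
def StVa : Prop := (∀ (F : Type) [Field F] (k : ℕ) (x y : Fin k → F),
  (∀ q r, x q + y r ≠ 0) → (CM x y).det ≠ 0 → ∀ a b : ℕ,
    SS (par k) (Sum.elim x y) a b = ∑ q, ∑ r, x q ^ a * (CM x y)⁻¹ r q * y r ^ b) →
  (∀ k : ℕ, (∀ q r, fx k q + fy k r ≠ 0) ∧ (CM (fx k) (fy k)).det ≠ 0 ∧
    algebraMap (MvPolynomial (ZZ k) ℤ) (FractionRing (MvPolynomial (ZZ k) ℤ)) (EE k) *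
      (CM (fx k) (fy k)).det = algebraMap _ _ (DD k)) →
  ∀ (k i : ℕ) (a b : Fin i → ℕ), k < i →
    sdet (par k) (fun z => (X z : MvPolynomial (ZZ k) ℤ)) a b = 0

/-- [Pd] EASY-MEDIUM. The product formula.
PROOF. As in StVa, but `i = k`: in `F` the matrix of the `SS (a q) (b r)` is `U * C * V`,
`U_{q s} = x_s ^ (a q)`, `C_{s r} = (M⁻¹)_{r s}`, `V_{r q'} = y_r ^ (b q')`, with determinants `AA a`,
`(det M)⁻¹`, `BB b` (transposition).  Multiply by `DD = EE * det M` and use injectivity of the map to `F`. -/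
def StPd : Prop := (∀ (F : Type) [Field F] (k : ℕ) (x y : Fin k → F),
  (∀ q r, x q + y r ≠ 0) → (CM x y).det ≠ 0 → ∀ a b : ℕ,
    SS (par k) (Sum.elim x y) a b = ∑ q, ∑ r, x q ^ a * (CM x y)⁻¹ r q * y r ^ b) →
  (∀ k : ℕ, (∀ q r, fx k q + fy k r ≠ 0) ∧ (CM (fx k) (fy k)).det ≠ 0 ∧
    algebraMap (MvPolynomial (ZZ k) ℤ) (FractionRing (MvPolynomial (ZZ k) ℤ)) (EE k) *
      (CM (fx k) (fy k)).det = algebraMap _ _ (DD k)) →
  ∀ (k : ℕ) (a b : Fin k → ℕ),
    sdet (par k) (fun z => (X z : MvPolynomial (ZZ k) ℤ)) a b * DD k = EE k * AA a * BB b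

/-- [Dv] EASY-MEDIUM. Divisibility by `EE`.
PROOF. (1) `F - sub q r F` is divisible by `l_{q r} = x_q + y_r`: for constants and variables clear
(`y_r - (- x_q)`), and closed under sums and products (`MvPolynomial.induction_on`,
`F G - F' G' = (F - F') G + F' (G - G')`).  So `sub q r F = 0` implies `l_{q r} ∣ F`.  (2) Induction over a
finset `T` of pairs: `∏_{T} l ∣ F`.  Let `F = (∏_T l) G` and `(q, r) ∉ T`: `0 = sub q r F =
∏_T sub q r (l) * sub q r G`, and `sub q r (l_{q' r'}) ≠ 0` for `(q', r') ≠ (q, r)` (if `r' ≠ r` it is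
`x_q' + y_r'`; if `r' = r`, `q' ≠ q` it is `x_q' - x_q`), so `sub q r G = 0` and `l_{q r} ∣ G`.
`EE k = ∏` over all pairs (`Finset.prod_product'`). -/
def StDv : Prop := ∀ (k : ℕ) (F : MvPolynomial (ZZ k) ℤ), (∀ q r : Fin k, sub q r F = 0) → EE k ∣ F

/-- [Hs] EASY. Symmetry of `hh`, `sdet`, `EE`.
PROOF. Let `e` be a permutation of the letters preserving `p`; reindexing the exponents `ν ↦ ν ∘ e`
(a bijection of `TT Z n` preserving the condition) gives `hh p (z ∘ e) n = hh p z n`.  For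
`F = sdet (par k) X a b`: `rename f F = sdet (par k) (fun z => X (f z)) a b` (`rename` is a ring homomorphism,
`AlgHom.map_det`-like, `map_sum`, `map_prod`), and `X ∘ f` is the alphabet `X` reindexed by `f = Sum.map v w`, which
preserves `par`.  `EE`: reindex the products. -/
def StHs : Prop := (∀ (Z R : Type) [Fintype Z] [DecidableEq Z] [CommRing R] (p : Z → Bool) (z : Z → R)
    (e : Perm Z), (∀ i, p (e i) = p i) → ∀ n, hh p (fun i => z (e i)) n = hh p z n) ∧
  (∀ (k i : ℕ) (a b : Fin i → ℕ) (v w : Perm (Fin k)),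
    rename (Sum.map v w) (sdet (par k) (fun z => (X z : MvPolynomial (ZZ k) ℤ)) a b) =
      sdet (par k) (fun z => (X z : MvPolynomial (ZZ k) ℤ)) a b) ∧
  ∀ (k : ℕ) (v w : Perm (Fin k)), rename (Sum.map v w) (EE k) = EE k

/-- The product formula (conclusion of StPd). -/
def ConPd : Prop := ∀ (k : ℕ) (a b : Fin k → ℕ),
    sdet (par k) (fun z => (X z : MvPolynomial (ZZ k) ℤ)) a b * DD k = EE k * AA a * BB b

/-- Vanishing (conclusion of StVa). -/
def ConVa : Prop := ∀ (k i : ℕ) (a b : Fin i → ℕ), k < i →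
    sdet (par k) (fun z => (X z : MvPolynomial (ZZ k) ℤ)) a b = 0

/-- Coefficients (conclusion of StCf). -/
def ConCf : Prop := ∀ (Z : Type) [Fintype Z] [DecidableEq Z] (p' : Z → Bool)
  (i : ℕ) (a b : Fin i → ℕ) (t' : Z →₀ ℕ),
  coeff t' (sdet p' (fun z => (X z : MvPolynomial Z ℤ)) a b) =
    ∑ t ∈ TT (ZZ i) (sz a b), KK a b t * (NN (par i) p' t t' : ℤ)

/-- The determinant of rank `k` on `ZZ k` is `EE` times a symmetric polynomial `G`, `DD G = AA BB`. -/
def ConSG : Prop := ∀ (k : ℕ) (a b : Fin k → ℕ), ∃ G : MvPolynomial (ZZ k) ℤ,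
  sdet (par k) (fun z => (X z : MvPolynomial (ZZ k) ℤ)) a b = EE k * G ∧
  DD k * G = AA a * BB b ∧ SymY G

/-- [SG] EASY. PROOF. `s = sdet (par k) X a b`.  By ConPd `sub q r s * sub q r (DD k) = 0`, as
`sub q r (EE k) = 0` (the factor `(q, r)`), so `sub q r s = 0` (StDn, domain).  StDv: `s = EE k * G`.  Then
`EE * G * DD = EE * AA * BB`, cancel `EE k ≠ 0` (a product of nonzero factors).  `SymY G`: `s` and `EE` are
invariant (StHs with `v = 1`, `Sum.map ⇑1 w = Sum.map id w`), so `EE * rename G = EE * G`; cancel. -/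
def StSG : Prop := ConPd → StDn → StDv → StHs → ConSG

/-! ## The functional -/

/-- [K0] EASY-MEDIUM. Telescoping.
PROOF. Both sides are additive in `G` (`kap0 a b F` is `∑` over any finset containing the support, e.g. use
`Finsupp.sum`/`MvPolynomial.sum` additivity), so let `G = monomial t c` (`MvPolynomial.induction_on'`).
`∏_q (x_q + y_q) = ∑_{U} ∏_{q ∈ U} x_q ∏_{q ∉ U} y_q` (`Finset.prod_add`), so
`kap0 = c ∏_q (kap a_q b_q (α_q + 1) β_q + kap a_q b_q α_q (β_q + 1))`, `α_q = t (inl q)`, `β_q = t (inr q)` (expand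
the product in the same way).  And `kap a b (α + 1) β + kap a b α (β + 1) = if α = a ∧ β = b then 1 else 0`: zero
if `α + β ≠ a + b`; otherwise the first term is `(-1)^(α - a)` if `a ≤ α`, the second `(-1)^(α - a - 1)` if `a < α`.
The product is `1` iff `t = (a, b)`. -/
def StK0 : Prop := ∀ (k : ℕ) (a b : Fin k → ℕ) (G : MvPolynomial (ZZ k) ℤ),
  kap0 a b ((∏ q : Fin k, (X (Sum.inl q) + X (Sum.inr q))) * G) = coeff (ex a b) G

/-- [Kp] MEDIUM. The functional on multiples of `EE`.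
PROOF. `kapF a b F = ∑_w sign w * kap0 a (b ∘ w) F` (definition of `KK`, exchange the sums).  `EE k =
(∏_q (x_q + y_q)) * E'`, `E' = ∏_{q ≠ r} (x_q + y_r)`.  StK0: `kap0 a (b ∘ w) (EE G) = coeff (ex a (b ∘ w)) (E' G)`.
`f = Sum.map id w` is injective and `(ex a (b ∘ w)).mapDomain f = ex a b` (`y_q^(b (w q)) ↦ y_(w q)^(b (w q))`), so by
`MvPolynomial.coeff_rename_mapDomain` this is `coeff (ex a b) (rename f (E' G)) =
coeff (ex a b) (rename f E' * G)` (`SymY G`), and `rename f E' = ∏_{q ≠ r} (x_q + y_(w r)) =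
∏_{(q, s), s ≠ w q} (x_q + y_s)` (reindex `s = w r`).  Sum over `w`. -/
def StKp : Prop := StK0 → ∀ (k : ℕ) (a b : Fin k → ℕ) (G : MvPolynomial (ZZ k) ℤ), SymY G →
  kapF a b (EE k * G) = coeff (ex a b) (DD k * G)

/-- Conclusion of StKp. -/
def ConKp : Prop := ∀ (k : ℕ) (a b : Fin k → ℕ) (G : MvPolynomial (ZZ k) ℤ), SymY G →
  kapF a b (EE k * G) = coeff (ex a b) (DD k * G)

/-- [AB] EASY-MEDIUM. Coefficients of `AA a' * BB b'`.
PROOF. `AA a' = ∑_u sign u ∏_q x_(u q) ^ (a' q)` and `BB b'` similarly, so the coefficient of `x^a y^b` in the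
product is `(∑_{u : a ∘ u = a'} sign u) (∑_{v : b ∘ v = b'} sign v)`.  If `a`, `a'` are strictly decreasing and
`a ∘ u = a'` then `a = a'` and `u = 1` (`a ∘ u` is strictly decreasing, `a` too, so `u` is strictly increasing,
hence the identity). -/
def StAB : Prop := ∀ (k : ℕ) (a b a' b' : Fin k → ℕ), StrictAnti a → StrictAnti b → StrictAnti a' →
  StrictAnti b' → coeff (ex a b) (AA a' * BB b') = if a = a' ∧ b = b' then 1 else 0

/-- [O1] EASY-MEDIUM. Orthonormality in equal rank.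
PROOF. For fixed `t`: `∑_{t'} KK a' b' t' * NN t t' = coeff t (s)`, `s = sdet (par i) X a' b'` on the alphabet
`ZZ i` (ConCf, StNs for the symmetry).  So the sum is `∑_{t ∈ TT} KK a b t * coeff t s = kapF a b s` (every `t` in
the support of `s` has size `sz a' b' = sz a b`: by ConCf and StNs the other coefficients vanish; `t` as a finsupp
and as a function).  `s = EE G` (ConSG): `kapF a b s = coeff (ex a b) (DD G) = coeff (ex a b) (AA a' * BB b')`
(ConKp); StAB. -/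
def StO1 : Prop := ConCf → StNs → ConSG → ConKp → StAB → ∀ (i : ℕ) (a b a' b' : Fin i → ℕ),
  StrictAnti a → StrictAnti b → StrictAnti a' → StrictAnti b' → sz a b = sz a' b' →
  ∑ t ∈ TT (ZZ i) (sz a b), ∑ t' ∈ TT (ZZ i) (sz a' b'),
    KK a b t * KK a' b' t' * (NN (par i) (par i) t t' : ℤ) = if a = a' ∧ b = b' then 1 else 0

/-- [O2] EASY. Orthogonality in different ranks.
PROOF. If `i < i'`: for fixed `t : ZZ i → ℕ`, `∑_{t'} KK a' b' t' * NN t t' =
coeff t (sdet (par i) X a' b') = 0` (ConCf, StNs, ConVa).  If `i' < i` exchange the roles (StNs, and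
`Finset.sum_comm`). -/
def StO2 : Prop := ConCf → StNs → ConVa → ∀ (i i' : ℕ) (a b : Fin i → ℕ) (a' b' : Fin i' → ℕ),
  i ≠ i' → ∑ t ∈ TT (ZZ i) (sz a b), ∑ t' ∈ TT (ZZ i') (sz a' b'),
    KK a b t * KK a' b' t' * (NN (par i) (par i') t t' : ℤ) = 0

/-- `(a, b)` is `(a', b')` with one entry increased by one. -/
def Box {i : ℕ} (a b a' b' : Fin i → ℕ) : Prop :=
  (∃ s, a = Function.update a' s (a' s + 1) ∧ b = b') ∨
    ∃ s, a = a' ∧ b = Function.update b' s (b' s + 1)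

/-- [Pc] EASY-MEDIUM. PROOF. `(∑ z, X z) = ∑_q x_q + ∑_r y_r`.  Expand `AA a' = ∑_u sign u ∏_q x_(u q) ^ (a' q)`
and `BB b'`.  Let `a = a' + e_s`, `b = b'` (the other case is the same with the roles of `x` and `y` exchanged).
Terms `y_r x^.. y^..`: the total degree in the `x` is `∑ a' < ∑ a`: no contribution.  Terms
`x_q * ∏ x_(u q')^(a' q') * ∏ y_(v r')^(b' r')`: one needs `b ∘ v = b'`, so `v = 1` (as in StAB), and
`a - e_q = a' ∘ u⁻¹`.  If `q = s` then `a' = a' ∘ u⁻¹`, `u = 1` (injectivity): contribution `1`.  If `q ≠ s` then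
`a' ∘ u⁻¹` and `a'` have the same values (as multisets), while `a' ∘ u⁻¹ = a - e_q` differs from `a'` exactly at
`s` (`a'_s + 1`) and at `q` (`a'_q - 1`): so `{a'_s + 1, a'_q - 1} = {a'_s, a'_q}` as multisets, hence
`a'_s + 1 = a'_q`, i.e. `a_s = a_q` (`q ≠ s`), contradicting `StrictAnti a`. -/
def StPc : Prop := ∀ (i : ℕ) (a b a' b' : Fin i → ℕ), StrictAnti a → StrictAnti b → StrictAnti a' →
  StrictAnti b' → Box a b a' b' →
  coeff (ex a b) ((∑ z : ZZ i, (X z : MvPolynomial (ZZ i) ℤ)) * (AA a' * BB b')) = 1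

/-- [Pi] EASY-MEDIUM. The Pieri number.
PROOF. `Y = ZZ i ⊕ Unit` with the parity `p⁺` and the type `t'⁺ = Sum.elim t' 1`.  By StNs and StRo,
`NN (par i) p⁺ t t'⁺` is the coefficient of `X^t` in `rows p⁺ (par i) X t'⁺ =
rows (par i) (par i) X t' * hh (par i) X 1`, and `hh (par i) X 1 = ∑ z, X z` (`TT Z 1` = the unit vectors, all
entries `≤ 1`).  By StSd `∑_{t'} KK a' b' t' * rows = s := sdet (par i) X a' b'`.  So the sum is
`∑_{t ∈ TT (sz a b)} KK a b t * coeff t ((∑ X) * s) = kapF a b ((∑ X) * s)` (all `t` in the support have size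
`sz a' b' + 1 = sz a b`, by StNs as in StO1).  `s = EE G`, `DD G = AA a' BB b'`, and `(∑ X) * G` is `SymY`
(the sum of all variables is symmetric): ConKp gives `coeff (ex a b) ((∑ X) * (AA a' * BB b')) = 1` (StPc). -/
def StPi : Prop := StRo → StNs → StSd → ConSG → ConKp → StPc → ∀ (i : ℕ) (a b a' b' : Fin i → ℕ),
  StrictAnti a → StrictAnti b → StrictAnti a' → StrictAnti b' → Box a b a' b' →
  ∑ t ∈ TT (ZZ i) (sz a b), ∑ t' ∈ TT (ZZ i) (sz a' b'), KK a b t * KK a' b' t' *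
    (NN (par i) (Sum.elim (par i) (fun _ : Unit => false)) t (Sum.elim t' (fun _ => 1)) : ℤ) = 1

/-- [An] EASY-MEDIUM. Nonzero coefficients at strictly decreasing exponents.
PROOF. `rename (Sum.map id v) (DD k) = sign v • DD k`: the image is
`∑_w sign w ∏_{(q, s), s ≠ w q} (x_q + y_(v s)) = ∑_w sign w ∏_{(q, s'), s' ≠ v w q} (x_q + y_s')`, put `w' = v w`.
`rename (Sum.map v id) (DD k) = sign v • DD k` in the same way (`q' = v q`, `w' = w v⁻¹`).  So `P = DD k * G`
(nonzero: StDn, domain) satisfies `rename (Sum.map v w) P = sign v sign w P`.  Let `t` be in the support,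
`α = t ∘ inl`, `β = t ∘ inr`.  If `α q = α r`, `q ≠ r`, then with `v = swap q r`: `coeff t P = - coeff t P`
(`coeff_rename_mapDomain`, `t` is invariant), so `coeff t P = 0`, contradiction.  So `α`, and likewise `β`, are
injective.  Choose permutations with `a = α ∘ v`, `b = β ∘ w` strictly decreasing (`Tuple.sort`, reversed);
`coeff (ex a b) P = ± coeff t P ≠ 0`. -/
def StAn : Prop := StDn → ∀ (k : ℕ) (G : MvPolynomial (ZZ k) ℤ), SymX G → SymY G → G ≠ 0 →
  ∃ a b : Fin k → ℕ, StrictAnti a ∧ StrictAnti b ∧ coeff (ex a b) (DD k * G) ≠ 0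

/-! ## Numbers -/

/-- [Dm] EASY-MEDIUM. The dimension numbers.
PROOF. (1) `∑_{j ≤ b} (-1)^j / ((a+1+j)! (b-j)!) = gg a b`: induction on `b` for all `a`; `b = 0`: both are
`1 / (a+1)!`; the left side `T` satisfies `T a (b+1) = 1 / ((a+1)! (b+1)!) - T (a+1) b` (split off `j = 0`), and
`gg a (b+1) + gg (a+1) b = ((a+1) + (b+1)) / ((a+1)! (b+1)! (a+b+2)) = 1 / ((a+1)! (b+1)!)`.  (2) As in StSd with
`1/n!` for `h_n` and `e_n`: `T a b = ∑_{(α, β) ∈ antidiagonal (a+b+1)} kap a b α β / (α! β!)`, expand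
`det (T (a q) (b r)) = ∑_w sign w ∏_q T (a q) (b (w q))` and multiply out; `∏ z, (t z)! =
∏_q t(inl q)! ∏_q t(inr q)!` (`Fintype.prod_sum_type`). -/
def StDm : Prop := ∀ (i : ℕ) (a b : Fin i → ℕ),
  ∑ t ∈ TT (ZZ i) (sz a b), (KK a b t : ℚ) / ∏ z, ((t z).factorial : ℚ) =
    Matrix.det (Matrix.of fun q r => gg (a q) (b r))

/-- [Ca] MEDIUM. The Cauchy determinant.
PROOF. Induction on `k`.  Let `N = k + 1`, index `0` singled out.  Subtract column `0` from every other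
column: for `r ≠ 0`, `1/(x_q+y_r) - 1/(x_q+y_0) = (y_0 - y_r) / ((x_q+y_r)(x_q+y_0))`; take out `1/(x_q+y_0)` from
every row `q` and `(y_0 - y_r)` from every column `r ≠ 0`: a matrix with first column `1` and entries
`1/(x_q+y_r)`.  Subtract row `0` from every other row: the first column becomes `(1, 0, …, 0)`, and the
entries `1/(x_q+y_r) - 1/(x_0+y_r) = (x_0 - x_q)/((x_q+y_r)(x_0+y_r))`; take out `(x_0 - x_q)` and
`1/(x_0+y_r)`.  So `det_N = ∏_q 1/(x_q+y_0) ∏_{r ≠ 0} (y_0-y_r)(x_0-x_r)/(x_0+y_r) * det_k(x_1.., y_1..)`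
(`Matrix.det_succ_column_zero`), and `(y_0-y_r)(x_0-x_r) = (x_r-x_0)(y_r-y_0)`.  (Products over pairs `q < r`:
`Fin.prod_univ_succ`, `Fin.prod_Ioi_zero`, `Fin.prod_Ioi_succ`, as for the Vandermonde determinant.) -/
def StCa : Prop := ∀ (F : Type) [Field F] (k : ℕ) (x y : Fin k → F), (∀ q r, x q + y r ≠ 0) →
  (CM x y).det * ∏ q, ∏ r, (x q + y r) =
    ∏ q, ∏ r ∈ Finset.Ioi q, ((x r - x q) * (y r - y q))

/-- [Gp] EASY-MEDIUM. Positivity.
PROOF. `gg a b = (a!)⁻¹ (b!)⁻¹ (a + (b + 1))⁻¹`, so the determinant is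
`∏ (a_q!)⁻¹ ∏ (b_r!)⁻¹ det (CM x y)`, `x_q = a_q`, `y_r = b_r + 1` (`Matrix.det_mul_row`,
`Matrix.det_mul_column`).  By StCa `det (CM x y) = ∏_{q<r} (a_r - a_q)(b_r - b_q) / ∏ (a_q + b_r + 1)`, and
`a_r - a_q < 0`, `b_r - b_q < 0` for `q < r`. -/
def StGp : Prop := StCa → ∀ (i : ℕ) (a b : Fin i → ℕ), StrictAnti a → StrictAnti b →
  0 < Matrix.det (Matrix.of fun q r => gg (a q) (b r))

/-- The square. -/
def sq (r : ℕ) (q : Fin r) : ℕ := r - 1 - q

/-- [Fc] EASY. PROOF. Induction: `(n+1)! = (n+1) n! ≥ (n+1) (n/3)^n ≥ ((n+1)/3)^(n+1)` because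
`(1 + 1/n)^n ≤ e < 3` (`Real.add_one_le_exp`, `Real.exp_one_lt_d9`), or from `n^n / n! ≤ exp n`. -/
def StFc : Prop := ∀ n : ℕ, ((n : ℚ) / 3) ^ n ≤ (n.factorial : ℚ)

/-- [Sq] MEDIUM. The dimension of the square.
PROOF. As in StGp, with `x_q = r-1-q`, `y_s = r-s`: the determinant is `(∏_{j<r} j!)⁻² *
∏_{q<s} (s-q)² / ∏_{q,s} (2r-1-q-s)` (`(x_s-x_q)(y_s-y_q) = (s-q)²`).  `∏_{q<s} (s-q) = ∏_{s<r} s!`
(for fixed `s`: `∏_{q<s} (s-q) = s!`).  So it is `1/∏_{q,s<r} (2r-1-q-s) ≥ (2r)^(-r²)`, as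
`0 < 2r-1-q-s ≤ 2r`.  With StFc, `(r²)! ≥ (r²/3)^(r²)`, and `(r²/3)/(2r) = r/6`. -/
def StSq : Prop := StCa → StFc → ∀ r : ℕ, ((r : ℚ) / 6) ^ (r ^ 2) ≤
  ((r ^ 2).factorial : ℚ) * Matrix.det (Matrix.of fun q s : Fin r => gg (sq r q) (sq r s))

end Pool.Agent.Work.MP_6da7fa_al.EG
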