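import Pool.Agent.Work.MP_6da7fa_al.EG.StmtsD

set_option autoImplicit false

/-!
# Theorem EG, part T: the largest bounded quotient of an arbitrary module

Every docstring is the complete proof.  Item `X`: `def StX`, file `EG/I_X.lean`, theorem
`prX : StX`.  All items are independent (earlier statements are hypotheses).
-/

namespace Pool.Agent.Work.MP_6da7fa_al.EG

open Equiv

/-- The vectors killed by all projections onto semi-invariants with colours `ZZ k`. -/
noncomputable def UU {α V : Type} [Fintype α] [LinearOrder α] [AddCommGroup V] [Module ℂ V]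
    (k : ℕ) (ρ : Representation ℂ (Perm α) V) : Submodule ℂ V :=
  ⨅ c : α → ZZ k, LinearMap.ker (PP (par k) ρ c)

/-- Conclusion: bounded and unbounded part. -/
def ConTa : Prop := ∀ (α V : Type) [Fintype α] [LinearOrder α] [AddCommGroup V] [Module ℂ V]
  (ρ : Representation ℂ (Perm α) V) (k : ℕ),
  IsCompl (⨆ c : α → ZZ k, SI (par k) ρ c) (UU k ρ) ∧
  ∀ σ : Perm α, ∀ v ∈ UU k ρ, ρ σ v ∈ UU k ρ

/-- [Ta] MEDIUM. PROOF. `B = ⨆ c, SI (par k) ρ c`, `U = UU k ρ`.  `ρ σ` maps `SI c` onto `SI (c ∘ σ⁻¹)` (ConSw: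
`swap (σ x) (σ y) * σ = σ * swap x y`), so `B` is invariant, and `PP (c ∘ σ⁻¹) ∘ ρ σ = ρ σ ∘ PP c`: for `v` both
sides are in `SI (c ∘ σ⁻¹)`; more directly, reindex the sum in `PP` by `τ ↦ σ τ σ⁻¹`, with
`sg p (c ∘ σ⁻¹) (σ τ σ⁻¹) = sg p c τ` (StSc (2)).  So `U` is invariant.  By Maschke (average a projection) there is an
invariant complement `C` of `B`.  For `v ∈ C`: `PP c v ∈ C` (`PP c` is a combination of the `ρ τ`) and
`PP c v ∈ SI c ⊆ B`, so `PP c v = 0`: `C ⊆ U`, hence `B ⊔ U = ⊤`.  `B ⊓ U = ⊥`: `W = B ⊓ U` is invariant; let `E` be an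
equivariant projection of `V` onto `W` (Maschke again).  For `v ∈ SI c`: `E v ∈ W`, and `E v ∈ SI c` (equivariance), so
`E v = PP c (E v) = 0` because `E v ∈ U`.  So `E = 0` on `B`, in particular on `W`: `W = 0`. -/
def StTa : Prop := StSa → StSb → StSc → ConSw → ConPp → ConTa

section
variable {A : ℕ → Type} [∀ n, AddCommGroup (A n)] [∀ n, Module ℂ (A n)] {R : TCA A}
  {M : ℕ → Type} [∀ n, AddCommGroup (M n)] [∀ n, Module ℂ (M n)]

/-- `N` is the submodule of the vectors killed by all projections. -/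
def IsUU (S : TCAModule R M) (k : ℕ) (N : SubMod S) : Prop :=
  ∀ n, N.carrier n = UU k (rp S.seq n)

end

/-- Conclusion. -/
def ConTb : Prop := ∀ (A : ℕ → Type) [∀ n, AddCommGroup (A n)] [∀ n, Module ℂ (A n)] (R : TCA A)
  (M : ℕ → Type) [∀ n, AddCommGroup (M n)] [∀ n, Module ℂ (M n)] (S : TCAModule R M) (k : ℕ),
  ∃ N : SubMod S, IsUU S k N

/-- [Tb] MEDIUM. PROOF. Stability under `act`: ConTa.  Let `h : i + j = n`, `a ∈ A i`, `v ∈ UU k (rp S.seq j)`,
`c : Fin n → ZZ k`; `c' : Fin j → ZZ k`, `c' y = c (i + y)` (through `h`).  For a permutation `τ` of `Fin j` with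
`c' ∘ τ = c'` the permutation `1 × τ = blockSum h 1 τ` satisfies `c ∘ (1 × τ) = c`, and
`sg p c (1 × τ) = sg p c' τ` (both are multiplicative, StSc, and agree on swaps, StSb: use StSi for `c'`, `1 × swap y y'`
is the swap of `i + y`, `i + y'`).  By ConPp `PP c (a (τ v)) = PP c ((1 × τ) (a v)) = sg p c' τ • PP c (a v)`
(`equivariant` with `σ = 1`).  Multiply by `sg p c' τ` (its square is `1`) and average over the `τ`:
`PP c (a v) = PP c (a (PP c' v)) = 0` (linearity of `a · `). -/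
def StTb : Prop := StSb → ConSc → StSi → ConPp → ConTa → ConTb

/-- [Tc] EASY-MEDIUM. PROOF. (1) Let `v ∈ M n`, `v = b + u` with `b ∈ ⨆ c, SI`, `u ∈ UU = N` (ConTa): the class of `v` is the
class of `b`, and the quotient map sends `SI (par k) (rp S.seq n) c` into `SI (par k) (rp (S.quot N).seq n) c` (the action on
the quotient is induced).  (2) Let `v ∈ N n = UU`.  In the quotient by `N'` the class of `v` is killed by all `PP c`
(they commute with the quotient map), so it is in `UU k (rp (S.quot N').seq n)`, which is `⊥` by ConTa because the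
span of the `SI` is everything (`Bdd`).  So `v ∈ N' n`. -/
def StTc : Prop := ConTa → ∀ (A : ℕ → Type) [∀ n, AddCommGroup (A n)] [∀ n, Module ℂ (A n)]
  (R : TCA A) (M : ℕ → Type) [∀ n, AddCommGroup (M n)] [∀ n, Module ℂ (M n)] (S : TCAModule R M)
  (k : ℕ) (N : SubMod S), IsUU S k N →
  (∀ n, Bdd k (rp (S.quot N).seq n)) ∧
  ∀ N' : SubMod S, (∀ n, Bdd k (rp (S.quot N').seq n)) → ∀ n, N.carrier n ≤ N'.carrier n

/-- [Td] EASY-MEDIUM. Small degrees.
PROOF. `n = card α < (k+1)²`.  By ConTa it suffices that `U = UU k ρ = ⊥`.  Otherwise the representation on `U`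
(invariant) has by ConDe (and StMl's dimension formula, or: some `m j ≠ 0` because the dimension
`∑ m_j d_j` is not zero) a nonzero equivariant map `f` to some `I.ρ j`, surjective by irreducibility.  The injective
colouring `c0 : α → ZZ n`, `x ↦ inl _`, has `SI (par n) (I.ρ j) c0 = ⊤ ≠ ⊥` (ConSw), so ConCm gives strictly decreasing
`a, b : Fin i → ℕ` with `sz a b = n`, `mm (I.ρ j) a b = 1`; `i² ≤ n < (k+1)²` (StBx), so `i ≤ k`.  As `mm ≠ 0`, some
`hT (par i) (I.ρ j) t ≠ 0`: a colouring `c : α → ZZ i` with `SI ≠ ⊥`, and by ConHt (2) with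
`Sum.map (Fin.castLE _) (Fin.castLE _)` a colouring `c' : α → ZZ k` with `SI (par k) (I.ρ j) c' ≠ ⊥`.  Take `w ≠ 0` in it,
`w = f u`, `w = PP c' w = f (PP c' u) = 0` (`u ∈ U`): a contradiction. -/
def StTd : Prop := (∀ (α : Type) [Fintype α] [DecidableEq α], Nonempty (IrrSys α)) → ConSw → ConPp →
  ConHt → ConDe → ConMl → ConCm → StBx → ConTa →
  ∀ (α V : Type) [Fintype α] [LinearOrder α] [AddCommGroup V] [Module ℂ V] [FiniteDimensional ℂ V]
    (ρ : Representation ℂ (Perm α) V) (k : ℕ), Fintype.card α < (k + 1) ^ 2 → UU k ρ = ⊥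

/-- The theorem on the largest bounded quotients. -/
def ConTT : Prop := ∀ (A : ℕ → Type) [∀ n, AddCommGroup (A n)] [∀ n, Module ℂ (A n)] (R : TCA A)
  (M : ℕ → Type) [∀ n, AddCommGroup (M n)] [∀ n, Module ℂ (M n)] (S : TCAModule R M),
  R.FG → S.FG → (∀ n, FiniteDimensional ℂ (M n)) → ∀ k : ℕ, ∃ N : SubMod S,
    (∀ n, Bdd k (rp (S.quot N).seq n)) ∧
    (∀ N' : SubMod S, (∀ n, Bdd k (rp (S.quot N').seq n)) → ∀ n, N.carrier n ≤ N'.carrier n) ∧
    (∀ n, n < (k + 1) ^ 2 → N.carrier n = ⊥) ∧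
    DFinite (hilb (fun n => M n ⧸ N.carrier n))

/-- [Te] EASY. PROOF. `N` from ConTb.  StTc's conclusion; StTd's conclusion for `rp S.seq n`, `α = Fin n`.  The
quotient is finitely generated (`quot_fg`) with finite-dimensional components: ConCore. -/
def StTe : Prop := ConTb → (∀ (A : ℕ → Type) [∀ n, AddCommGroup (A n)] [∀ n, Module ℂ (A n)]
    (R : TCA A) (M : ℕ → Type) [∀ n, AddCommGroup (M n)] [∀ n, Module ℂ (M n)] (S : TCAModule R M)
    (k : ℕ) (N : SubMod S), IsUU S k N →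
    (∀ n, Bdd k (rp (S.quot N).seq n)) ∧
    ∀ N' : SubMod S, (∀ n, Bdd k (rp (S.quot N').seq n)) → ∀ n, N.carrier n ≤ N'.carrier n) →
  (∀ (α V : Type) [Fintype α] [LinearOrder α] [AddCommGroup V] [Module ℂ V] [FiniteDimensional ℂ V]
    (ρ : Representation ℂ (Perm α) V) (k : ℕ), Fintype.card α < (k + 1) ^ 2 → UU k ρ = ⊥) →
  ConCore → ConTT

end Pool.Agent.Work.MP_6da7fa_al.EG
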