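import Pool.Agent.Work.MP_6da7fa_al.EG.StmtsS
import Pool.Agent.Work.MP_6da7fa_al.EG.Defs2

set_option autoImplicit false

/-!
# Theorem EG, part V: representations of symmetric groups through colourings

Every docstring is the complete proof.  Item `X`: `def StX`, file `EG/I_X.lean`, theorem
`prX : StX`.  All items are independent (earlier statements are hypotheses).
-/

namespace Pool.Agent.Work.MP_6da7fa_al.EG

open Equiv

/-- Restriction of a representation of `Perm α` along an order embedding `f : β ↪o α` (the permutations of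
`β` act on the letters in the range of `f`). -/
noncomputable def resE {α β V : Type} [Fintype α] [LinearOrder α] [Fintype β] [LinearOrder β]
    [AddCommGroup V] [Module ℂ V] (f : β ↪o α) (ρ : Representation ℂ (Perm α) V) :
    Representation ℂ (Perm β) V :=
  ρ.comp (Perm.viaEmbeddingHom f.toEmbedding)

/-- There is a nonzero equivariant map. -/
def NzI {G V W : Type} [Group G] [AddCommGroup V] [Module ℂ V] [AddCommGroup W] [Module ℂ W]
    (ρ : Representation ℂ G V) (σ : Representation ℂ G W) : Prop :=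
  ∃ f : V →ₗ[ℂ] W, f ≠ 0 ∧ ∀ s v, f (ρ s v) = σ s (f v)

/-! ## Signs -/

/-- [Sa] EASY-MEDIUM. Cocycle property.
PROOF. For `x ≠ y` let `ε(σ; x, y) = -1` if `σ` inverts the pair (`x < y` and `σ y < σ x`, or `y < x` and
`σ x < σ y`), else `1`: symmetric in `x, y`.  `ε(σ τ; x, y) = ε(σ; τ x, τ y) ε(τ; x, y)` (case distinction on the
orders).  `sg p c σ` is the product over the pairs `x < y` with both colours odd of `ε(σ; x, y)`.  So
`sg p c (σ τ) = ∏_{x<y odd} ε(σ; τ x, τ y) * sg p c τ`, and `(x, y) ↦` the sorted pair of `(τ x, τ y)` is a bijection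
from the pairs `x < y` with odd `c`-colours onto the pairs `x' < y'` with odd colours for `c ∘ τ⁻¹`
(`Finset.prod_bij`, or `Finset.prod_nbij'` with the inverse given by `τ⁻¹`), so the first product is
`sg p (c ∘ τ⁻¹) σ`. -/
def StSa : Prop := ∀ (α Z : Type) [Fintype α] [LinearOrder α] (p : Z → Bool) (c : α → Z)
  (σ τ : Perm α), sg p c (σ * τ) = sg p (c ∘ ⇑τ⁻¹) σ * sg p c τ

/-- [Sb] EASY-MEDIUM. Values.
PROOF. All factors are `±1`; for `σ = 1` no pair is inverted.  Let `x < y` (the statement is symmetric),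
`c x = c y`, `σ = swap x y`.  The pairs inverted by `σ` are `(x, y)`, `(x, u)` and `(u, y)` with `x < u < y`
(case distinction).  If the colour of `x` and `y` is even, each of them contains a letter of even colour, so
`sg = 1`.  If it is odd: `(x, y)` gives `-1`, and every `u` strictly between gives `1` (even colour) or
`(-1) (-1) = 1` (odd colour). -/
def StSb : Prop := ∀ (α Z : Type) [Fintype α] [LinearOrder α] (p : Z → Bool) (c : α → Z),
  (∀ σ, sg p c σ = 1 ∨ sg p c σ = -1) ∧ sg p c 1 = 1 ∧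
  ∀ x y, x ≠ y → c x = c y → sg p c (swap x y) = if p (c x) = true then -1 else 1

/-- Conclusion: multiplicativity on the stabilizer, and conjugation. -/
def ConSc : Prop := ∀ (α Z : Type) [Fintype α] [LinearOrder α] (p : Z → Bool) (c : α → Z),
  (∀ σ τ : Perm α, c ∘ τ = c → sg p c (σ * τ) = sg p c σ * sg p c τ) ∧
  ∀ g h : Perm α, c ∘ h = c → sg p (c ∘ ⇑g⁻¹) (g * h * g⁻¹) = sg p c h

/-- [Sc] EASY. PROOF. (1) StSa with `c ∘ τ⁻¹ = c`.  (2) StSa for `(g h g⁻¹) * g = g * h`:
`sg p (c ∘ g⁻¹) (g h g⁻¹) * sg p c g = sg p c (g h) = sg p (c ∘ h⁻¹) g * sg p c h = sg p c g * sg p c h`; cancel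
`sg p c g = ±1`. -/
def StSc : Prop := StSa → StSb → ConSc

/-- [Si] EASY. The colour preserving permutations are generated by swaps of letters of the same colour.
PROOF. Induction on the number of letters moved by `σ`.  If `σ ≠ 1` choose `x` with `σ x ≠ x`; `y = σ x` has the
same colour.  `σ' = swap x y * σ` preserves the colours, fixes `x`, and moves fewer letters (letters fixed by
`σ` are different from `x`, `y`, hence fixed by `σ'`; `x` is moved by `σ` and fixed by `σ'`).  `σ = swap x y * σ'`. -/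
def StSi : Prop := ∀ (α Z : Type) [Fintype α] [LinearOrder α] (c : α → Z) (P : Perm α → Prop), P 1 →
  (∀ (σ : Perm α) (x y : α), x ≠ y → c x = c y → P σ → P (swap x y * σ)) →
  ∀ σ : Perm α, c ∘ σ = c → P σ

/-- Conclusion: characterisation of the semi-invariants by swaps. -/
def ConSw : Prop := ∀ (α Z V : Type) [Fintype α] [LinearOrder α] [AddCommGroup V] [Module ℂ V]
  (p : Z → Bool) (ρ : Representation ℂ (Perm α) V) (c : α → Z) (v : V),
  v ∈ SI p ρ c ↔ ∀ x y, x ≠ y → c x = c y → ρ (swap x y) v = (if p (c x) = true then (-1 : ℂ) else 1) • v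

/-- [Sw] EASY. PROOF. `→`: `c ∘ swap x y = c` and StSb.  `←`: StSi with `P σ` := `c ∘ σ = c ∧ ρ σ v = sg p c σ • v`:
`ρ (swap x y * σ) v = ρ (swap x y) (sg σ • v) = sg σ * sg (swap x y) • v = sg (swap x y * σ) • v` (StSc). -/
def StSw : Prop := StSb → ConSc → StSi → ConSw

/-! ## Projections and types -/

/-- Conclusion: `PP` is the projection. -/
def ConPp : Prop := ∀ (α Z V : Type) [Fintype α] [LinearOrder α] [DecidableEq Z] [AddCommGroup V]
  [Module ℂ V] (p : Z → Bool) (ρ : Representation ℂ (Perm α) V) (c : α → Z),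
  LinearMap.IsProj (SI p ρ c) (PP p ρ c) ∧
  ∀ h : Perm α, c ∘ h = c → ∀ v, PP p ρ c (ρ h v) = ((sg p c h : ℤ) : ℂ) • PP p ρ c v

/-- [Pp] EASY-MEDIUM. PROOF. `H` = the subgroup `{σ | c ∘ σ = c}`, `sg` is multiplicative on it with values `±1`
(StSb, StSc).  For `h ∈ H`: `ρ h (PP v) = |H|⁻¹ ∑_σ sg σ ρ (h σ) v = sg h • PP v` (reindex `σ ↦ h σ`), so `PP v ∈ SI`;
`PP v = v` for `v ∈ SI` because `sg σ ^ 2 = 1` and the filter is not empty; `PP (ρ h v) = sg h • PP v` (reindex
`σ ↦ σ h`). -/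
def StPp : Prop := StSb → ConSc → ConPp

/-- Conclusion: the trace formula. -/
def ConTr : Prop := ∀ (α Z V : Type) [Fintype α] [LinearOrder α] [DecidableEq Z] [AddCommGroup V]
  [Module ℂ V] [FiniteDimensional ℂ V] (p : Z → Bool) (ρ : Representation ℂ (Perm α) V) (c : α → Z),
  (hn p ρ c : ℂ) = ((Finset.univ.filter fun σ : Perm α => c ∘ σ = c).card : ℂ)⁻¹ *
    ∑ σ ∈ Finset.univ.filter (fun σ : Perm α => c ∘ σ = c), ((sg p c σ : ℤ) : ℂ) * ρ.character σ

/-- [Tr] EASY. PROOF. The trace of a projection is the dimension of its range (`LinearMap.IsProj.trace`), and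
the trace of `PP` is the right side (`map_sum`, `map_smul`). -/
def StTr : Prop := ConPp → ConTr

/-- Conclusion: `hn` depends only on the type; change of colours. -/
def ConHt : Prop := (∀ (α Z V : Type) [Fintype α] [LinearOrder α] [Fintype Z] [DecidableEq Z]
    [AddCommGroup V] [Module ℂ V] (p : Z → Bool) (ρ : Representation ℂ (Perm α) V) (c : α → Z),
    hT p ρ (typ c) = hn p ρ c) ∧
  (∀ (α Z Z' V : Type) [Fintype α] [LinearOrder α] [AddCommGroup V] [Module ℂ V] (p : Z → Bool)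
    (p' : Z' → Bool) (ρ : Representation ℂ (Perm α) V) (c : α → Z) (e : Z → Z'),
    Function.Injective e → (∀ z, p' (e z) = p z) → SI p' ρ (e ∘ c) = SI p ρ c) ∧
  (∀ (α Z : Type) [Fintype α] [Fintype Z] [DecidableEq Z] (t : Z → ℕ),
    t ∈ TT Z (Fintype.card α) ↔ ∃ c : α → Z, typ c = t)

/-- [Ht] EASY-MEDIUM. PROOF. (1) If `typ c = typ c'` there is `σ` with `c' = c ∘ σ` (the fibres over each colour
have the same number of elements; glue bijections, `Equiv.sigmaFiberEquiv`, `Equiv.sigmaCongrRight`).  By ConSw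
`SI p ρ (c ∘ σ) = (SI p ρ c).map (ρ σ⁻¹)`: `ρ (swap x y) (ρ σ⁻¹ v) = ρ σ⁻¹ (ρ (swap (σ x) (σ y)) v)`; so the
dimensions are equal (`LinearEquiv.finrank_map_eq`, `ρ σ⁻¹` is invertible).  `hT p ρ (typ c)` is `hn p ρ c'` for
some `c'` with `typ c' = typ c`.  (2) ConSw: `e (c x) = e (c y) ↔ c x = c y`.  (3) `∑ z, typ c z = card α`
(`Finset.card_eq_sum_card_fiberwise`); conversely distribute the letters: `α ≃ Σ z, Fin (t z)` (same
cardinality), `c` = first component. -/
def StHt : Prop := ConSw → ConHt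

/-- [Ct] EASY. Symmetry in the colours. PROOF. If `t = typ c` then `t ∘ e = typ (e⁻¹ ∘ c)` and ConHt (1), (2) with
the injection `e⁻¹`.  If `t` is not a type of a colouring, neither is `t ∘ e` (`∑ (t ∘ e) = ∑ t`, ConHt (3)), and both
sides are `0`. -/
def StCt : Prop := ConHt → ∀ (α Z V : Type) [Fintype α] [LinearOrder α] [Fintype Z] [DecidableEq Z]
  [AddCommGroup V] [Module ℂ V] (p : Z → Bool) (ρ : Representation ℂ (Perm α) V) (t : Z → ℕ)
  (e : Perm Z), (∀ z, p (e z) = p z) → hT p ρ (t ∘ e) = hT p ρ t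

/-! ## Irreducible representations -/

/-- [Re] EASY. PROOF. A permutation is conjugate to its inverse (same cycle type: `Equiv.Perm.cycleType_inv`,
`Equiv.Perm.isConj_iff_cycleType_eq`), and the character is invariant under conjugation
(`Representation.char_conj`). -/
def StRe : Prop := ∀ (α V : Type) [Fintype α] [DecidableEq α] [AddCommGroup V] [Module ℂ V]
  [FiniteDimensional ℂ V] (ρ : Representation ℂ (Perm α) V) (s : Perm α),
  ρ.character s⁻¹ = ρ.character s

open Classical in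
/-- Conclusion: orthonormality of the irreducible characters. -/
def ConOr : Prop := ∀ (α : Type) [Fintype α] [DecidableEq α] (I : IrrSys α) (i j : I.ι),
  (Fintype.card (Perm α) : ℂ)⁻¹ * ∑ s, (I.ρ i).character s * (I.ρ j).character s =
    if i = j then 1 else 0

/-- [Or] EASY. PROOF. `Representation.char_orthonormal` and StRe.  If `i ≠ j` the characters are different
(`IrrSys.inj`), so there is no isomorphism (`Representation.char_iso`); for `i = j` the identity. -/
def StOr : Prop := StRe → ConOr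

/-- [Ir] MEDIUM. Existence of a complete system.
PROOF. Let `C` be the set of the functions `χ : Perm α → ℂ` that are characters of irreducible representations
on some `Fin m → ℂ`.  By `char_orthonormal` (and StRe) different elements of `C` are orthogonal for
`|G|⁻¹ ∑ f g` and each has norm `1`; so they are linearly independent and `C` is finite (at most
`finrank (Perm α → ℂ)` elements, `LinearIndependent.setFinite`-like / `LinearIndependent` in a
finite-dimensional space).  `ι = C` as a type, with chosen `d`, `ρ`.  `compl`: choose a basis of `V`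
(`Module.finBasis`), transport `σ` along `V ≃ Fin m → ℂ` (irreducibility and the character are preserved,
`Representation.char_iso`). -/
def StIr : Prop := StRe → ∀ (α : Type) [Fintype α] [DecidableEq α], Nonempty (IrrSys α)

/-- Conclusion: decomposition into irreducible characters. -/
def ConDe : Prop := ∀ (α V : Type) [Fintype α] [DecidableEq α] [AddCommGroup V] [Module ℂ V]
  [FiniteDimensional ℂ V] (I : IrrSys α) (ρ : Representation ℂ (Perm α) V),
  ∃ m : I.ι → ℕ, (∀ s, ρ.character s = ∑ j, (m j : ℂ) * (I.ρ j).character s) ∧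
    ∀ j, (m j : ℂ) = (Fintype.card (Perm α) : ℂ)⁻¹ * ∑ s, ρ.character s * (I.ρ j).character s ∧
      (m j ≠ 0 ↔ NzI ρ (I.ρ j))

/-- [De] MEDIUM. PROOF. `m j` = the dimension of the space of intertwining maps `ρ → I.ρ j`
(`Representation.card_inv_mul_sum_char_mul_char_eq_finrank`, StRe): this is the second formula, and `m j ≠ 0` iff
there is a nonzero one.  The first formula by strong induction on `finrank V`: it is enough to find SOME natural
numbers `m` with the first formula (the second then follows from ConOr).  `V = 0`: `m = 0`.  Otherwise there is a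
subrepresentation `W ≠ 0` of minimal dimension: irreducible.  By Maschke (`Representation` / `MonoidAlgebra.Submodule`
complements: `MonoidAlgebra.Submodule.exists_isCompl`, or average a projection) there is an invariant complement `W'`;
`χ_V = χ_W + χ_W'` (trace of a block diagonal map, `LinearMap.trace_eq_sum_trace_restrict` or
`Representation` lemmas), `χ_W = χ_j` by `IrrSys.compl`, and induction for `W'`. -/
def StDe : Prop := StRe → ConOr → ConDe

/-! ## The Mackey formula -/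

/-- [Ma] MEDIUM. The sum over the irreducible representations.
PROOF. Let `G = Perm α`, `H = {h | c ∘ h = c}`, `H' = {h | c' ∘ h = c'}` and `W` the space of the `f : G → ℂ` with
`f (g h) = sg p' c' h * f g` for `h ∈ H'`, with the action `(s f)(g) = f (s⁻¹ g)`.  `Q f (g) =
|H'|⁻¹ ∑_{h ∈ H'} sg h * f (g h)` is a projection of `G → ℂ` onto `W` which commutes with the action, so the
character of `W` is the trace of `f ↦ s (Q f)`: `y s = |H'|⁻¹ ∑_g ∑_{h ∈ H', s⁻¹ g h = g} sg h`.  By ConDe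
`y = ∑_j m_j χ_j` with `m_j = |G|⁻¹ ∑_s y s χ_j s = |G|⁻¹ |H'|⁻¹ ∑_g ∑_{h ∈ H'} sg h χ_j (g h g⁻¹) =
|H'|⁻¹ ∑_h sg h χ_j h = hn p' (ρ_j) c'` (ConTr).  So by ConTr again `∑_j hn p ρ_j c * m_j =
|H|⁻¹ ∑_{s ∈ H} sg p c s * y s = |H|⁻¹ |H'|⁻¹ ∑_g ∑_{s ∈ H, g⁻¹ s g ∈ H'} sg p c s * sg p' c' (g⁻¹ s g)`; the
condition is `(c' ∘ g⁻¹) ∘ s = c' ∘ g⁻¹`, and `sg p' c' (g⁻¹ s g) = sg p' (c' ∘ g⁻¹) s` (StSc (2) with
`h = g⁻¹ s g`). -/
def StMa : Prop := StSa → StSb → StSc → StRe → ConTr → ConOr → ConDe →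
  ∀ (α Z Z' : Type) [Fintype α] [LinearOrder α] [DecidableEq Z] [DecidableEq Z'] (I : IrrSys α)
    (p : Z → Bool) (p' : Z' → Bool) (c : α → Z) (c' : α → Z'),
    (∑ j, (hn p (I.ρ j) c : ℂ) * (hn p' (I.ρ j) c' : ℂ)) =
      ((Finset.univ.filter fun σ : Perm α => c ∘ σ = c).card : ℂ)⁻¹ *
      ((Finset.univ.filter fun σ : Perm α => c' ∘ σ = c').card : ℂ)⁻¹ *
      ∑ g : Perm α, ∑ s ∈ Finset.univ.filter
        (fun s : Perm α => c ∘ s = c ∧ (c' ∘ ⇑g⁻¹) ∘ s = c' ∘ ⇑g⁻¹),
        ((sg p c s * sg p' (c' ∘ ⇑g⁻¹) s : ℤ) : ℂ)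

/-- [Mb] EASY-MEDIUM. The inner sum.
PROOF. `K = {s | c ∘ s = c ∧ d ∘ s = d}` is the subgroup preserving `(c, d) : α → Z × Z'`, and
`χ s = sg p c s * sg p' d s` is multiplicative on it (StSc).  For `x ≠ y` with the same pair of colours
`χ (swap x y) = (±1)(±1)`, equal to `1` if the parities `p (c x)`, `p' (d x)` agree and to `-1` otherwise (StSb).  If
there is such a pair with different parities then `∑_K χ = 0` (multiply by this swap).  Otherwise `χ = 1` on `K`
by StSi for `(c, d)`. -/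
def StMb : Prop := StSb → ConSc → StSi → ∀ (α Z Z' : Type) [Fintype α] [LinearOrder α] [DecidableEq Z]
  [DecidableEq Z'] (p : Z → Bool) (p' : Z' → Bool) (c : α → Z) (d : α → Z'),
  ∑ s ∈ Finset.univ.filter (fun s : Perm α => c ∘ s = c ∧ d ∘ s = d), sg p c s * sg p' d s =
    if ∀ x y, x ≠ y → c x = c y → d x = d y → p (c x) = p' (d x) then
      ((Finset.univ.filter fun s : Perm α => c ∘ s = c ∧ d ∘ s = d).card : ℤ) else 0

/-- [Mc] MEDIUM. Counting.
PROOF. `|{σ | c ∘ σ = c}| = ∏ z, (typ c z)!` (`DomMulAct.stabilizer_card`), and for `(c, d)`: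
`∏_{z, z'} ν(z, z')!` with the joint matrix `ν(z, z') = #{x | c x = z ∧ d x = z'}`.  The map `g ↦ d = c' ∘ g⁻¹` has
as values exactly the colourings `d` with `typ d = typ c'`, each with `|{σ | c' ∘ σ = c'}|` preimages.  For a matrix
`ν` with row sums `typ c`, the number of `d : α → Z'` with joint matrix `ν` is `∏_z (typ c z)! / ∏_{z,z'} ν(z,z')!`
(for each colour class of `c` a multinomial number: it is an orbit of `{σ | c ∘ σ = c}` acting by
`d ↦ d ∘ σ⁻¹` with stabilizer of order `∏ ν!`, `MulAction` orbit-stabilizer, or apply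
`DomMulAct` again); its type is the column sums.  The condition in the sum says
`ν(z, z') ≤ 1` where the parities differ.  So the sum over `g` is
`|H'| ∑_ν (|H| / ∏ ν!) ∏ ν! = |H| |H'| NN`. -/
def StMc : Prop := ∀ (α Z Z' : Type) [Fintype α] [LinearOrder α] [Fintype Z] [DecidableEq Z]
  [Fintype Z'] [DecidableEq Z'] (p : Z → Bool) (p' : Z' → Bool) (c : α → Z) (c' : α → Z'),
  (∑ g : Perm α, if ∀ x y, x ≠ y → c x = c y → c' (g⁻¹ x) = c' (g⁻¹ y) → p (c x) = p' (c' (g⁻¹ x)) then
      (Finset.univ.filter fun s : Perm α => c ∘ s = c ∧ (c' ∘ ⇑g⁻¹) ∘ s = c' ∘ ⇑g⁻¹).card else 0) =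
    (Finset.univ.filter fun σ : Perm α => c ∘ σ = c).card *
      (Finset.univ.filter fun σ : Perm α => c' ∘ σ = c').card * NN p p' (typ c) (typ c')

/-- Conclusion: the Mackey formula for types. -/
def ConMk : Prop := ∀ (α Z Z' : Type) [Fintype α] [LinearOrder α] [Fintype Z] [DecidableEq Z]
  [Fintype Z'] [DecidableEq Z'] (I : IrrSys α) (p : Z → Bool) (p' : Z' → Bool) (t : Z → ℕ)
  (t' : Z' → ℕ), t ∈ TT Z (Fintype.card α) → t' ∈ TT Z' (Fintype.card α) →
  ∑ j, hT p (I.ρ j) t * hT p' (I.ρ j) t' = NN p p' t t'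

/-- The formula of StMa. -/
def ConMa : Prop := ∀ (α Z Z' : Type) [Fintype α] [LinearOrder α] [DecidableEq Z] [DecidableEq Z']
    (I : IrrSys α) (p : Z → Bool) (p' : Z' → Bool) (c : α → Z) (c' : α → Z'),
    (∑ j, (hn p (I.ρ j) c : ℂ) * (hn p' (I.ρ j) c' : ℂ)) =
      ((Finset.univ.filter fun σ : Perm α => c ∘ σ = c).card : ℂ)⁻¹ *
      ((Finset.univ.filter fun σ : Perm α => c' ∘ σ = c').card : ℂ)⁻¹ *
      ∑ g : Perm α, ∑ s ∈ Finset.univ.filter
        (fun s : Perm α => c ∘ s = c ∧ (c' ∘ ⇑g⁻¹) ∘ s = c' ∘ ⇑g⁻¹),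
        ((sg p c s * sg p' (c' ∘ ⇑g⁻¹) s : ℤ) : ℂ)

/-- The formula of StMb. -/
def ConMb : Prop := ∀ (α Z Z' : Type) [Fintype α] [LinearOrder α] [DecidableEq Z]
  [DecidableEq Z'] (p : Z → Bool) (p' : Z' → Bool) (c : α → Z) (d : α → Z'),
  ∑ s ∈ Finset.univ.filter (fun s : Perm α => c ∘ s = c ∧ d ∘ s = d), sg p c s * sg p' d s =
    if ∀ x y, x ≠ y → c x = c y → d x = d y → p (c x) = p' (d x) then
      ((Finset.univ.filter fun s : Perm α => c ∘ s = c ∧ d ∘ s = d).card : ℤ) else 0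

/-- [Mk] EASY. PROOF. `t = typ c`, `t' = typ c'` (ConHt (3)), `hT = hn` (ConHt (1)).  ConMa, the inner sums by
ConMb with `d = c' ∘ g⁻¹`, then StMc; cancel the two (nonzero) cardinalities; cast from `ℂ` to `ℕ`. -/
def StMk : Prop := ConHt → ConMa → ConMb → StMc → ConMk

/-- Conclusion: the sum with the dimensions. -/
def ConDi : Prop := ∀ (α Z : Type) [Fintype α] [LinearOrder α] [Fintype Z] [DecidableEq Z]
  (I : IrrSys α) (p : Z → Bool) (t : Z → ℕ), t ∈ TT Z (Fintype.card α) →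
  (∑ j, (hT p (I.ρ j) t : ℚ) * (I.d j : ℚ)) =
    ((Fintype.card α).factorial : ℚ) / ∏ z, ((t z).factorial : ℚ)

/-- [Di] EASY-MEDIUM. PROOF. `t = typ c`.  ConMa with `Z' = α`, `c' = id`, `p' = fun _ => false`: `SI p' ρ id` is
everything (only `σ = 1` has `id ∘ σ = id`; `sg = 1`), so `hn p' (I.ρ j) id = d j`; on the right only `s = 1`
satisfies `g⁻¹ ∘ s = g⁻¹`, so the sum over `g` is `|G| = (card α)!` (`Fintype.card_perm`), and
`|{σ | id ∘ σ = id}| = 1`, `|{σ | c ∘ σ = c}| = ∏ z, (typ c z)!` (`DomMulAct.stabilizer_card`). -/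
def StDi : Prop := ConHt → ConMa → ConDi

/-- Conclusion: the norm trick. -/
def ConNt : Prop := ∀ (α Z : Type) [Fintype α] [LinearOrder α] [Fintype Z] [DecidableEq Z]
  (I : IrrSys α) (p : Z → Bool) (r : (Z → ℕ) → ℤ),
  (∀ t' ∈ TT Z (Fintype.card α), ∑ t ∈ TT Z (Fintype.card α), r t * (NN p p t t' : ℤ) = 0) →
  ∀ j, ∑ t ∈ TT Z (Fintype.card α), r t * (hT p (I.ρ j) t : ℤ) = 0

/-- [Nt] EASY. PROOF. `∑_j (∑_t r t hT t)² = ∑_t ∑_t' r t r t' ∑_j hT t hT t' = ∑_t' r t' ∑_t r t NN t t' = 0`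
(ConMk); a sum of squares of integers. -/
def StNt : Prop := ConMk → ConNt

/-! ## Classification by Frobenius coordinates -/

/-- The orthonormality relations (conclusions of StO1, StO2). -/
def ConO : Prop := (∀ (i : ℕ) (a b a' b' : Fin i → ℕ), StrictAnti a → StrictAnti b → StrictAnti a' →
    StrictAnti b' → sz a b = sz a' b' →
    ∑ t ∈ TT (ZZ i) (sz a b), ∑ t' ∈ TT (ZZ i) (sz a' b'),
      KK a b t * KK a' b' t' * (NN (par i) (par i) t t' : ℤ) = if a = a' ∧ b = b' then 1 else 0) ∧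
  (∀ (i i' : ℕ) (a b : Fin i → ℕ) (a' b' : Fin i' → ℕ),
    i ≠ i' → ∑ t ∈ TT (ZZ i) (sz a b), ∑ t' ∈ TT (ZZ i') (sz a' b'),
      KK a b t * KK a' b' t' * (NN (par i) (par i') t t' : ℤ) = 0)

/-- The dimension `n! det (gg (a q) (b r))`. -/
noncomputable def fd {i : ℕ} (a b : Fin i → ℕ) : ℚ :=
  ((sz a b).factorial : ℚ) * Matrix.det (Matrix.of fun q r => gg (a q) (b r))

open Classical in
/-- Conclusion: existence of the irreducible representation with given Frobenius coordinates, and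
uniqueness of the coordinates. -/
def ConCl : Prop := (∀ (α : Type) [Fintype α] [LinearOrder α] (I : IrrSys α) (i : ℕ) (a b : Fin i → ℕ),
    StrictAnti a → StrictAnti b → sz a b = Fintype.card α →
    ∃ j : I.ι, (∀ j', mm (I.ρ j') a b = if j' = j then 1 else 0) ∧ (I.d j : ℚ) = fd a b) ∧
  (∀ (α : Type) [Fintype α] [LinearOrder α] (I : IrrSys α) (i i' : ℕ) (a b : Fin i → ℕ)
    (a' b' : Fin i' → ℕ) (j : I.ι), StrictAnti a → StrictAnti b → StrictAnti a' → StrictAnti b' →
    sz a b = Fintype.card α → sz a' b' = Fintype.card α → mm (I.ρ j) a b = 1 → mm (I.ρ j) a' b' = 1 →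
    (⟨i, a, b⟩ : Σ i : ℕ, (Fin i → ℕ) × (Fin i → ℕ)) = ⟨i', a', b'⟩)

/-- [Cl] MEDIUM. PROOF. `n = card α = sz a b`.  `∑_j mm (ρ_j) a b * mm (ρ_j) a' b' =
∑_t ∑_t' KK a b t KK a' b' t' NN t t'` (ConMk), which is given by ConO.  (1) With `(a', b') = (a, b)`:
`∑_j mm_j² = 1`, so exactly one `j` has `mm_j = ±1`, the others `0`.  `∑_j mm_j d_j = ∑_t KK a b t ∑_j hT t d_j =
∑_t KK a b t n! / ∏ (t z)! = fd a b` (ConDi, StDm) `> 0` (StGp's conclusion).  So `mm_j d_j = fd > 0`, `mm_j = 1`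
and `d_j = fd a b`.  (2) If the coordinates are different, `∑_j' mm mm' = 0` by ConO; but by (1) for both, the
functions `mm (ρ_j') a b` and `mm (ρ_j') a' b'` of `j'` are the indicator functions of one element, here both of
`j`: the sum is `1`, contradiction.  (If `i = i'`, `subst`.) -/
def StCl : Prop := ConMk → ConDi → ConO → StDm →
  (∀ (i : ℕ) (a b : Fin i → ℕ), StrictAnti a → StrictAnti b →
    0 < Matrix.det (Matrix.of fun q r => gg (a q) (b r))) → ConCl

open MvPolynomial in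
/-- The polynomial `∑_t hT(t) z^t` on the alphabet `ZZ k`. -/
noncomputable def HP {α V : Type} [Fintype α] [LinearOrder α] [AddCommGroup V] [Module ℂ V]
    (ρ : Representation ℂ (Perm α) V) (k : ℕ) : MvPolynomial (ZZ k) ℤ :=
  ∑ t ∈ TT (ZZ k) (Fintype.card α), monomial (Finsupp.equivFunOnFinite.symm t) (hT (par k) ρ t : ℤ)

/-- [Sy] EASY. Symmetry of `HP` and its functional.
PROOF. `coeff t (HP ρ k) = hT (par k) ρ t` for `t` of size `card α`, else `0`.  `rename` along `Sum.map v w`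
permutes the exponents, StCt's conclusion.  `kapF a b (HP ρ k) = ∑_t KK a b t hT t = mm ρ a b` (sum over the support
against sum over `TT`: the other terms are zero). -/
def StSy : Prop := (∀ (α Z V : Type) [Fintype α] [LinearOrder α] [Fintype Z] [DecidableEq Z]
    [AddCommGroup V] [Module ℂ V] (p : Z → Bool) (ρ : Representation ℂ (Perm α) V) (t : Z → ℕ)
    (e : Perm Z), (∀ z, p (e z) = p z) → hT p ρ (t ∘ e) = hT p ρ t) →
  ∀ (α V : Type) [Fintype α] [LinearOrder α] [AddCommGroup V] [Module ℂ V]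
    (ρ : Representation ℂ (Perm α) V) (k : ℕ),
    SymX (HP ρ k) ∧ SymY (HP ρ k) ∧ ∀ a b : Fin k → ℕ, kapF a b (HP ρ k) = mm ρ a b

/-- `H(t) E(-t) = 1` (conclusion of StHE). -/
def ConHE : Prop := ∀ (Z R : Type) [Fintype Z] [DecidableEq Z] [CommRing R] (p : Z → Bool)
  (z : Z → R), hh p z 0 = 1 ∧ ∀ m, 1 ≤ m →
    ∑ j ∈ Finset.range (m + 1), (-1 : R) ^ j * hh p z (m - j) * hh (op p) z j = 0

/-- [Su] MEDIUM. Supersymmetry.
PROOF. Let `n = card α`.  The coefficient of a monomial `s` in `sub q r (HP ρ_j k)`: nonzero only if `s (inr r) = 0`.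
Let `s0` = `s` with the entry at `inl q` replaced by `0`, `m = s (inl q)`: it is
`∑_{l ≤ m} (-1)^l hT (s0 + (m-l) e_(inl q) + l e_(inr r))` (the monomials of `HP` that are mapped to multiples of `s`;
size `n` each, otherwise the coefficient is zero).  `m = 0`: `hT s0 = 0` by hypothesis.  `m ≥ 1`: ConNt with
`r t = (-1)^l` if `t = s0 + (m-l) e_(inl q) + l e_(inr r)`, else `0`.  Its hypothesis: by StRo, `NN t t'` is the
coefficient of `X^t'` in `rows (par k) (par k) X t`, and for these `t`, `rows = R0 * hh (par k) X (m-l) *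
hh (op (par k)) X l` with `R0` = the product over the other letters (independent of `l`; `s0` is zero at `inl q` and
`inr r`); so the sum over `l` with signs is `R0 * 0 = 0` by ConHE. -/
def StSu : Prop := StRo → ConHE → ConNt → ∀ (α : Type) [Fintype α] [LinearOrder α] (I : IrrSys α)
  (j : I.ι) (k : ℕ) (q r : Fin k),
  (∀ t ∈ TT (ZZ k) (Fintype.card α), t (Sum.inl q) = 0 → t (Sum.inr r) = 0 →
    hT (par k) (I.ρ j) t = 0) → sub q r (HP (I.ρ j) k) = 0

/-- Conclusion: completeness. -/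
def ConCm : Prop := ∀ (α : Type) [Fintype α] [LinearOrder α] (I : IrrSys α) (j : I.ι) (k : ℕ)
  (c : α → ZZ k), SI (par k) (I.ρ j) c ≠ ⊥ →
  ∃ (i : ℕ) (a b : Fin i → ℕ), i ≤ k ∧ StrictAnti a ∧ StrictAnti b ∧ sz a b = Fintype.card α ∧
    mm (I.ρ j) a b = 1

/-- [Cm] MEDIUM. PROOF. Let `k` be minimal such that some colouring with colours `ZZ k` has nonzero
semi-invariants (we may replace the given `k` by a smaller one).  If `k = 0`: `α` is empty, `sz` of the empty
coordinates is `0`, `KK = 1`, and `mm (I.ρ j)` of the empty coordinates is `hT` of the empty type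
`= finrank = d j`, which by ConCl (1) (`i = 0`) is `0` or `1`, hence `1`.  Let `k ≥ 1`, `k = k' + 1`.  `F = HP (I.ρ j) k ≠ 0`
(its coefficient at `typ c` is `hn ≠ 0`, ConHt).  For every `q`, `r`: if `t (inl q) = 0 = t (inr r)` then
`hT t = 0`: a colouring of type `t` avoids `inl q` and `inr r`, so it is `e ∘ c'` with `c' : α → ZZ k'` and
`e = Sum.map (Fin.succAbove q) (Fin.succAbove r)`, and ConHt (2) with the minimality of `k` gives `hT t = 0`.  So
`sub q r F = 0` (StSu's conclusion), `F = EE k * G` (StDv), `G ≠ 0`, and `G` is `SymX`, `SymY` (as `F` and `EE` are: StSy,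
StHs; cancel `EE`).  StAn: strictly decreasing `a`, `b` with `coeff (ex a b) (DD k * G) ≠ 0`, and this is
`kapF a b F = mm (I.ρ j) a b` (ConKp, StSy).  As `KK a b t = 0` unless `t` has size `sz a b` (each `kap` forces
`α_q + β_q = a_q + b_(w q) + 1`) and `hT t = 0` unless the size is `card α`, `mm ≠ 0` gives `sz a b = card α`.  By ConCl (1)
`mm ∈ {0, 1}`, so `mm = 1`. -/
def StCm : Prop := ConHt → ConCl → StDn → StDv → StHs → ConKp →
  (∀ (k : ℕ) (G : MvPolynomial (ZZ k) ℤ), SymX G → SymY G → G ≠ 0 →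
    ∃ a b : Fin k → ℕ, StrictAnti a ∧ StrictAnti b ∧ MvPolynomial.coeff (ex a b) (DD k * G) ≠ 0) →
  (∀ (α V : Type) [Fintype α] [LinearOrder α] [AddCommGroup V] [Module ℂ V]
    (ρ : Representation ℂ (Perm α) V) (k : ℕ),
    SymX (HP ρ k) ∧ SymY (HP ρ k) ∧ ∀ a b : Fin k → ℕ, kapF a b (HP ρ k) = mm ρ a b) →
  (∀ (α : Type) [Fintype α] [LinearOrder α] (I : IrrSys α) (j : I.ι) (k : ℕ) (q r : Fin k),
    (∀ t ∈ TT (ZZ k) (Fintype.card α), t (Sum.inl q) = 0 → t (Sum.inr r) = 0 →
      hT (par k) (I.ρ j) t = 0) → sub q r (HP (I.ρ j) k) = 0) → ConCm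

/-! ## General representations -/

/-- Conclusion: multiplicities. -/
def ConMl : Prop := ∀ (α V : Type) [Fintype α] [LinearOrder α] [AddCommGroup V] [Module ℂ V]
  [FiniteDimensional ℂ V] (I : IrrSys α) (ρ : Representation ℂ (Perm α) V) (m : I.ι → ℕ),
  (∀ s, ρ.character s = ∑ j, (m j : ℂ) * (I.ρ j).character s) →
  (∀ (i : ℕ) (a b : Fin i → ℕ), mm ρ a b = ∑ j, (m j : ℤ) * mm (I.ρ j) a b) ∧
  Module.finrank ℂ V = ∑ j, m j * I.d j

/-- [Ml] EASY. PROOF. `hT p ρ t = ∑_j m_j hT p (ρ_j) t` for all `p`, `t` (for `t = typ c`: ConHt (1) and ConTr; otherwise both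
sides are `0`).  Sum with `KK`.  The second: the value of the characters at `1`
(`Representation.char_one`). -/
def StMl : Prop := ConHt → ConTr → ConMl

/-- Conclusion: `mm ρ a b ≠ 0` means that the irreducible representation with these coordinates is a quotient. -/
def ConNz : Prop := ∀ (α V : Type) [Fintype α] [LinearOrder α] [AddCommGroup V] [Module ℂ V]
  [FiniteDimensional ℂ V] (I : IrrSys α) (ρ : Representation ℂ (Perm α) V) (i : ℕ) (a b : Fin i → ℕ)
  (j : I.ι), StrictAnti a → StrictAnti b → sz a b = Fintype.card α → mm (I.ρ j) a b = 1 →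
  (mm ρ a b ≠ 0 ↔ NzI ρ (I.ρ j))

/-- [Nz] EASY. PROOF. ConDe gives `m`; by ConMl and ConCl (1) (only `j` has `mm = 1`, the others `0`) `mm ρ a b = m j`,
and `m j ≠ 0 ↔ NzI` (ConDe). -/
def StNz : Prop := ConDe → ConCl → ConMl → ConNz

/-- [Gt] EASY-MEDIUM. PROOF. Let `I` be a system (StIr's conclusion), `j` from ConCl (1): `mm (I.ρ j) a b = 1`,
`d j = fd a b`.  ConNz: a nonzero equivariant `f : V → (Fin (d j) → ℂ)`.  As the `ρ s x` span `V`, some
`f (ρ s x) ≠ 0`, so `f x ≠ 0`.  The span `U` of all `ρ s x` (`s : Perm β`) is invariant, `f '' U` is a nonzero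
invariant subspace, hence everything (irreducibility, `Subrepresentation`), so `finrank U ≥ d j`. -/
def StGt : Prop := (∀ (α : Type) [Fintype α] [DecidableEq α], Nonempty (IrrSys α)) → ConCl → ConNz →
  ∀ (β V : Type) [Fintype β] [LinearOrder β] [AddCommGroup V] [Module ℂ V] [FiniteDimensional ℂ V]
    (ρ : Representation ℂ (Perm β) V) (i : ℕ) (a b : Fin i → ℕ) (X : Set V),
    StrictAnti a → StrictAnti b → sz a b = Fintype.card β → mm ρ a b ≠ 0 →
    Submodule.span ℂ {v | ∃ s : Perm β, ∃ x ∈ X, v = ρ s x} = ⊤ →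
    ∃ x ∈ X, fd a b ≤ (Module.finrank ℂ (Submodule.span ℂ {v | ∃ s : Perm β, v = ρ s x}) : ℚ)

/-! ## The dimension formula -/

/-- [Am] EASY-MEDIUM. Antisymmetry.
PROOF. `KK a (b ∘ v) t = ∑_w sign w ∏_q kap (a q) (b (v (w q))) .. = sign v * KK a b t` (`w' = v w`).
`KK (a ∘ u) b t = ∑_w sign w ∏_q kap (a (u q)) (b (w q)) (t (inl q)) (t (inr q))`; put `q = u⁻¹ q'`, `w' = w u⁻¹`:
`= sign u * KK a b (t ∘ Sum.map u⁻¹ u⁻¹)`.  In `mm ρ (a ∘ u) b = ∑_t KK (a ∘ u) b t hT t` substitute `t = t' ∘ Sum.map u u`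
(a bijection of `TT`) and use the invariance of `hT` (first hypothesis). -/
def StAm : Prop := (∀ (α Z V : Type) [Fintype α] [LinearOrder α] [Fintype Z] [DecidableEq Z]
    [AddCommGroup V] [Module ℂ V] (p : Z → Bool) (ρ : Representation ℂ (Perm α) V) (t : Z → ℕ)
    (e : Perm Z), (∀ z, p (e z) = p z) → hT p ρ (t ∘ e) = hT p ρ t) →
  ∀ (α V : Type) [Fintype α] [LinearOrder α] [AddCommGroup V] [Module ℂ V]
    (ρ : Representation ℂ (Perm α) V) (i : ℕ) (a b : Fin i → ℕ) (u v : Perm (Fin i)),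
    mm ρ (a ∘ u) (b ∘ v) = (Perm.sign u : ℤ) * (Perm.sign v : ℤ) * mm ρ a b

/-- [Ba] MEDIUM. The dimension formula with strictly decreasing coordinates.
PROOF. `n = card α`, `I` a system, `m` from ConDe.  Let `J = {j | m j ≠ 0}`.  For `j ∈ J` there is an equivariant
`f ≠ 0` from `V` to `ρ_j`; as `V` is spanned by the `SI (par k) ρ c` (Bdd), some `v ∈ SI (par k) ρ c` has
`f v ≠ 0`, and `f v ∈ SI (par k) (I.ρ j) c`; ConCm: coordinates `λ_j = (i, a, b)` with `i ≤ k`, `mm (I.ρ j) a b = 1`.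
Conversely let `(i, a, b)`, `i ≤ k`, be strictly decreasing with `sz a b = n`; ConCl (1) gives `j` with
`mm (I.ρ j') a b = [j' = j]`, `fd a b = d j`, so `mm ρ a b = m j` (ConMl).  So the sum on the right is the sum of
`d j * m j` over the `j` which have coordinates with `i ≤ k`; each such `j` occurs once (ConCl (2)); all `j ∈ J`
occur.  `finrank V = ∑_j m_j d_j` (ConMl).  The entries of `a`, `b` are `< n` because `sz a b = n`, so the
coordinates are functions `Fin i → Fin n`. -/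
def StBa : Prop := (∀ (α : Type) [Fintype α] [DecidableEq α], Nonempty (IrrSys α)) → ConDe → ConCl →
  ConCm → ConMl → ∀ (α V : Type) [Fintype α] [LinearOrder α] [AddCommGroup V] [Module ℂ V]
    [FiniteDimensional ℂ V] (ρ : Representation ℂ (Perm α) V) (k : ℕ), Bdd k ρ →
    (Module.finrank ℂ V : ℚ) = ∑ i ∈ Finset.range (k + 1),
      ∑ a : Fin i → Fin (Fintype.card α), ∑ b : Fin i → Fin (Fintype.card α),
      if StrictAnti a ∧ StrictAnti b ∧ sz (fun q => (a q : ℕ)) (fun q => (b q : ℕ)) = Fintype.card α then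
        fd (fun q => (a q : ℕ)) (fun q => (b q : ℕ)) *
          (mm ρ (fun q => (a q : ℕ)) (fun q => (b q : ℕ)) : ℚ) else 0

/-- Conclusion: the dimension formula. -/
def ConBb : Prop := ∀ (α V : Type) [Fintype α] [LinearOrder α] [AddCommGroup V] [Module ℂ V]
    [FiniteDimensional ℂ V] (ρ : Representation ℂ (Perm α) V) (k : ℕ), Bdd k ρ →
    (Module.finrank ℂ V : ℚ) = ∑ i ∈ Finset.range (k + 1), (1 / (i.factorial : ℚ) ^ 2) *
      ∑ a : Fin i → Fin (Fintype.card α), ∑ b : Fin i → Fin (Fintype.card α),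
      if sz (fun q => (a q : ℕ)) (fun q => (b q : ℕ)) = Fintype.card α then
        fd (fun q => (a q : ℕ)) (fun q => (b q : ℕ)) *
          (mm ρ (fun q => (a q : ℕ)) (fun q => (b q : ℕ)) : ℚ) else 0

/-- [Bb] EASY-MEDIUM. PROOF. For fixed `i` put `F a b = [sz a b = n] fd a b * mm ρ a b`.  `sz` is invariant under
permutations of the arguments; `fd (a ∘ u) (b ∘ v) = sign u sign v fd a b` (determinant with permuted rows and
columns: `Matrix.det_permute`, `Matrix.det_permute'`, `Matrix.det_submatrix`-like) and the same for `mm` (StAm's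
conclusion), so `F (a ∘ u) (b ∘ v) = F a b`, and `F a b = 0` if `a` or `b` is not injective (`fd = 0`: two equal
rows or columns).  Every injective `a : Fin i → Fin n` is `a' ∘ u` for exactly one pair of a strictly
decreasing `a'` and a permutation `u`.  So `∑_{all a, b} F = (i!)² ∑_{strictly decreasing} F`
(`Fintype.card_perm`). -/
def StBb : Prop := (∀ (α V : Type) [Fintype α] [LinearOrder α] [AddCommGroup V] [Module ℂ V]
    (ρ : Representation ℂ (Perm α) V) (i : ℕ) (a b : Fin i → ℕ) (u v : Perm (Fin i)),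
    mm ρ (a ∘ u) (b ∘ v) = (Perm.sign u : ℤ) * (Perm.sign v : ℤ) * mm ρ a b) →
  (∀ (α V : Type) [Fintype α] [LinearOrder α] [AddCommGroup V] [Module ℂ V]
    [FiniteDimensional ℂ V] (ρ : Representation ℂ (Perm α) V) (k : ℕ), Bdd k ρ →
    (Module.finrank ℂ V : ℚ) = ∑ i ∈ Finset.range (k + 1),
      ∑ a : Fin i → Fin (Fintype.card α), ∑ b : Fin i → Fin (Fintype.card α),
      if StrictAnti a ∧ StrictAnti b ∧ sz (fun q => (a q : ℕ)) (fun q => (b q : ℕ)) = Fintype.card α then
        fd (fun q => (a q : ℕ)) (fun q => (b q : ℕ)) *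
          (mm ρ (fun q => (a q : ℕ)) (fun q => (b q : ℕ)) : ℚ) else 0) → ConBb

/-! ## Restriction -/

/-- [Bx] EASY-MEDIUM. Boxes.
PROOF. Strictly decreasing `a : Fin i → ℕ` satisfies `a q ≥ i - 1 - q` (downward induction on `q`), the same for
`b`, and `∑_q (2 (i-1-q) + 1) = i²`: (1).  (3) Equality forces equality everywhere.  (2) If `sz a b > i²` some
`a q > i-1-q` or `b q > i-1-q`; say `a`; take the largest such `q`; then `a' = a` with `a q` decreased by one is
strictly decreasing: `a q - 1 ≥ i-1-q > a (q+1) = i-2-q` if `q + 1 < i`. -/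
def StBx : Prop := ∀ (i : ℕ) (a b : Fin i → ℕ), StrictAnti a → StrictAnti b →
  i ^ 2 ≤ sz a b ∧ (i ^ 2 < sz a b → ∃ a' b' : Fin i → ℕ, StrictAnti a' ∧ StrictAnti b' ∧
    Box a b a' b' ∧ sz a' b' + 1 = sz a b) ∧ (i ^ 2 = sz a b → a = sq i ∧ b = sq i)

/-- Conclusion: semi-invariants of a restriction. -/
def ConRa : Prop := ∀ (α β Z V : Type) [Fintype α] [LinearOrder α] [Fintype β] [LinearOrder β]
  [Fintype Z] [DecidableEq Z] [AddCommGroup V] [Module ℂ V] (f : β ↪o α)
  (ρ : Representation ℂ (Perm α) V) (p : Z → Bool) (t : Z → ℕ),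
  Fintype.card β + 1 = Fintype.card α →
  hT p (resE f ρ) t = hT (Sum.elim p (fun _ : Unit => false)) ρ (Sum.elim t (fun _ => 1))

/-- [Ra] EASY-MEDIUM. PROOF. Let `x0` be the only letter outside the range of `f`.  If `t = typ c`, `c : β → Z`, let
`c⁺ : α → Z ⊕ Unit`, `c⁺ (f y) = inl (c y)`, `c⁺ x0 = inr ()`: `typ c⁺ = Sum.elim t 1`.  `SI p⁺ ρ c⁺ = SI p (resE f ρ) c` by
ConSw: two different letters of the same colour are `f y`, `f y'` with `c y = c y'`, and `swap (f y) (f y') =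
viaEmbedding (swap y y')` (`Equiv.Perm.viaEmbedding_apply`, ext).  ConHt (1) on both sides.  If `t` is not the type
of a colouring of `β` then `∑ t ≠ card β`, `∑ (t, 1) ≠ card α`, both sides are `0` (ConHt (3)). -/
def StRa : Prop := ConSw → ConHt → ConRa

/-- Conclusion: the restriction of an irreducible representation contains one of the same rank. -/
def ConRb : Prop := ∀ (α β : Type) [Fintype α] [LinearOrder α] [Fintype β] [LinearOrder β]
  (I : IrrSys α) (f : β ↪o α) (i : ℕ) (a b : Fin i → ℕ) (j : I.ι),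
  Fintype.card β + 1 = Fintype.card α → StrictAnti a → StrictAnti b → sz a b = Fintype.card α →
  i ^ 2 < Fintype.card α → mm (I.ρ j) a b = 1 →
  ∃ a' b' : Fin i → ℕ, StrictAnti a' ∧ StrictAnti b' ∧ sz a' b' = Fintype.card β ∧
    mm (resE f (I.ρ j)) a' b' = 1

/-- [Rb] MEDIUM. PROOF. `a'`, `b'` from StBx (2).  Let `p⁺`, `t'⁺` be as in ConRa.  `mm (resE f ρ_j) a' b' =
∑_{t'} KK a' b' t' * hT p⁺ ρ_j t'⁺` (ConRa).  By ConCl (1), `mm (ρ_j') a b = [j' = j]` for all `j'` (the `j` of ConCl is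
this `j`, because `mm (ρ_j) a b = 1`), so `hT p⁺ ρ_j t'⁺ = ∑_j' mm (ρ_j') a b * hT p⁺ ρ_j' t'⁺ =
∑_t KK a b t ∑_j' hT (par i) ρ_j' t * hT p⁺ ρ_j' t'⁺ = ∑_t KK a b t * NN (par i) p⁺ t t'⁺` (ConMk; sizes
`card α`).  The double sum is `1` by the conclusion of StPi (last hypothesis). -/
def StRb : Prop := StBx → ConRa → ConCl → ConMk →
  (∀ (i : ℕ) (a b a' b' : Fin i → ℕ),
    StrictAnti a → StrictAnti b → StrictAnti a' → StrictAnti b' → Box a b a' b' →
    ∑ t ∈ TT (ZZ i) (sz a b), ∑ t' ∈ TT (ZZ i) (sz a' b'), KK a b t * KK a' b' t' *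
      (NN (par i) (Sum.elim (par i) (fun _ : Unit => false)) t (Sum.elim t' (fun _ => 1)) : ℤ) = 1) →
  ConRb

/-- Conclusion: the restriction contains the square. -/
def ConRc : Prop := ∀ (α β V : Type) [Fintype α] [LinearOrder α] [Fintype β] [LinearOrder β]
  [AddCommGroup V] [Module ℂ V] [FiniteDimensional ℂ V] (f : β ↪o α)
  (ρ : Representation ℂ (Perm α) V) (i : ℕ) (a b : Fin i → ℕ), StrictAnti a → StrictAnti b →
  sz a b = Fintype.card α → mm ρ a b ≠ 0 → Fintype.card β = i ^ 2 →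
  mm (resE f ρ) (sq i) (sq i) ≠ 0

/-- [Rc] MEDIUM. PROOF. Induction on `card α - card β`.  If `card α = card β` then `f` is an order isomorphism
and `sz a b = i²`, so `a = b = sq i` (StBx (3)); `hT p (resE f ρ) (typ (c ∘ f)) = hT p ρ (typ c)` (ConSw, or transport along
the isomorphism: `Perm.viaEmbedding` for an equivalence is `permCongr`), so `mm (resE f ρ) = mm ρ`.  Otherwise choose
`x0` outside the range of `f`, `α' = {x // x ≠ x0}`, `g : α' ↪o α` the inclusion, `f = g ∘ f'` with `f' : β ↪o α'`; then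
`resE f ρ = resE f' (resE g ρ)` (`viaEmbedding` of a composition, ext).  `i² = card β < card α`.  Let `I`, `I'` be
systems for `α`, `α'`; `j` with `mm (I.ρ j) a b = 1` (ConCl); ConNz: a nonzero equivariant `φ : V → ρ_j`, surjective
(irreducibility).  ConRb: `a'`, `b'` with `mm (resE g ρ_j) a' b' = 1`; `j'` with `mm (I'.ρ j') a' b' = 1` (ConCl), ConNz: a
nonzero equivariant `ψ : ρ_j → ρ'_j'` for `Perm α'`; `ψ ∘ φ ≠ 0`, so `mm (resE g ρ) a' b' ≠ 0` (ConNz).  Induction
for `f'`, `resE g ρ`, `a'`, `b'`. -/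
def StRc : Prop := (∀ (α : Type) [Fintype α] [DecidableEq α], Nonempty (IrrSys α)) → StBx → ConSw →
  ConHt → ConCl → ConNz → ConRb → ConRc

/-- Conclusion: a vector outside the span of the semi-invariants generates large representations of
small symmetric groups. -/
def ConGr : Prop := ∀ (α V : Type) [Fintype α] [LinearOrder α] [AddCommGroup V] [Module ℂ V]
  [FiniteDimensional ℂ V] (ρ : Representation ℂ (Perm α) V) (z : V) (K : ℕ),
  z ∉ (⨆ c : α → ZZ K, SI (par K) ρ c) →
  ∃ r : ℕ, K < r ∧ r ^ 2 ≤ Fintype.card α ∧ ∀ (β : Type) [Fintype β] [LinearOrder β] (f : β ↪o α),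
    Fintype.card β = r ^ 2 → ∃ τ : Perm α, ((r : ℚ) / 6) ^ (r ^ 2) ≤
      (Module.finrank ℂ (Submodule.span ℂ {v | ∃ s : Perm β, v = resE f ρ s (ρ τ z)}) : ℚ)

/-- [Gr] MEDIUM. PROOF. `B = ⨆_c SI (par K) ρ c` is invariant (`ρ τ` maps `SI c` to `SI (c ∘ τ⁻¹)`, ConSw).  Let
`ρ̄` be the representation on `V ⧸ B`, `W̄` the span of all `ρ̄ τ z̄`, an invariant subspace, `≠ 0`.  Every
`SI (par K) (W̄) c = 0`: for `w = v̄` in it, `w = PP w` is the class of `PP v ∈ SI ⊆ B` (ConPp; `PP` commutes with the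
quotient map).  ConDe for `W̄ ≠ 0`: some `j` with `m j ≠ 0` (the dimension is `∑ m_j d_j`), so a nonzero
equivariant `φ : W̄ → ρ_j`, surjective by irreducibility.  `SI (par K) (I.ρ j) c = ⊥` for all `c`: `v = φ w`,
`v = PP v = φ (PP w) = 0`.  With `n = card α` the colouring `c0 : α → ZZ n`, `x ↦ inl` (an injective numbering) has
`SI (par n) (I.ρ j) c0 = ⊤ ≠ ⊥` (ConSw: no two letters of the same colour; `d j ≠ 0`).  ConCm: strictly decreasing
`a, b : Fin r → ℕ`, `sz a b = n`, `mm (I.ρ j) a b = 1`.  `r² ≤ n` (StBx (1)).  `r > K`: as `mm ≠ 0` some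
`hT (par r) (I.ρ j) t ≠ 0`, so some `c : α → ZZ r` has `SI ≠ ⊥`; if `r ≤ K` compose with
`Sum.map (Fin.castLE _) (Fin.castLE _)` (ConHt (2)): a contradiction.  Let `f : β ↪o α`, `card β = r²`.  ConRc:
`mm (resE f (I.ρ j)) (sq r) (sq r) ≠ 0`.  StGt's conclusion for `X = {φ (ρ̄ τ z̄) | τ}` (which spans `ρ_j`): some `τ`
with `fd (sq r) (sq r) ≤` the dimension of the span of the `resE f (I.ρ j) s (φ (ρ̄ τ z̄)) = φ (class of
resE f ρ s (ρ τ z))`, which is a linear image of the span of the `resE f ρ s (ρ τ z)`.  Last hypothesis: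
`(r/6)^(r²) ≤ fd (sq r) (sq r)` (`sz (sq r) (sq r) = r²`). -/
def StGr : Prop := (∀ (α : Type) [Fintype α] [DecidableEq α], Nonempty (IrrSys α)) → ConSw → ConPp →
  ConHt → ConDe → ConMl → ConCm → StBx → ConRc →
  (∀ (β V : Type) [Fintype β] [LinearOrder β] [AddCommGroup V] [Module ℂ V] [FiniteDimensional ℂ V]
    (ρ : Representation ℂ (Perm β) V) (i : ℕ) (a b : Fin i → ℕ) (X : Set V),
    StrictAnti a → StrictAnti b → sz a b = Fintype.card β → mm ρ a b ≠ 0 →
    Submodule.span ℂ {v | ∃ s : Perm β, ∃ x ∈ X, v = ρ s x} = ⊤ →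
    ∃ x ∈ X, fd a b ≤ (Module.finrank ℂ (Submodule.span ℂ {v | ∃ s : Perm β, v = ρ s x}) : ℚ)) →
  (∀ r : ℕ, ((r : ℚ) / 6) ^ (r ^ 2) ≤
    ((r ^ 2).factorial : ℚ) * Matrix.det (Matrix.of fun q s : Fin r => gg (sq r q) (sq r s))) → ConGr

end Pool.Agent.Work.MP_6da7fa_al.EG
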